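import Pool.Agent.Lib.ECM.FPA

/-! A point of a hyperelliptic curve of odd degree where logarithmic derivatives are integral. -/

open Polynomial Filter Topology IsLocalRing

namespace Pool.Agent.Lib.QM.T6

open Pool.Agent.Lib.ECM.T42

/-- value of the derivative `2 y d/dx` of `a + b y` on `y ^ 2 = f` -/
noncomputable def pq {R : Type} [CommRing R] (f a b : R[X]) (x y : R) : R :=
  a.derivative.eval x * (2 * y) + b.derivative.eval x * (2 * y) * y + b.eval x * f.derivative.eval x

theorem norm_ne_odd {k : Type} [Field k] {a b f : k[X]} (hf : Odd f.natDegree)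
    (h : a ≠ 0 ∨ b ≠ 0) : a ^ 2 - b ^ 2 * f ≠ 0 := by
  intro e
  rw [sub_eq_zero] at e
  have f0 : f ≠ 0 := by rintro rfl; simp at hf
  by_cases hb : b = 0
  · subst hb
    simp at e h
    exact h e
  have := congrArg natDegree e
  rw [natDegree_mul (pow_ne_zero _ hb) f0, natDegree_pow, natDegree_pow] at this
  obtain ⟨j, hj⟩ := hf
  omega

variable (V : ValuationSubring ℂ)

theorem good {ι : Type} [Finite ι] (f : V[X]) (hm : f.Monic) (ho : Odd f.natDegree)
    (a b : ι → ℂ[X]) : ∃ x y : ℂ, x ∈ V ∧ y ^ 2 = (f.map (algebraMap V ℂ)).eval x ∧ ∀ m,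
      V.valuation (pq (f.map (algebraMap V ℂ)) (a m) (b m) x y) ≤
        V.valuation (pv (a m) (b m) x y) ∧
      (a m ≠ 0 ∨ b m ≠ 0 → pv (a m) (b m) x y ≠ 0) ∧
      ∀ j, V.valuation ((a m).coeff j) ≤ V.valuation (pv (a m) (b m) x y) := by
  classical
  have := inf_res V
  let ι' := {m // a m ≠ 0 ∨ b m ≠ 0}
  have := Fintype.ofFinite ι'
  choose c a' b' c0 ha hb hr using fun m : ι' ↦ primitive V (a m) (b m) m.2
  have hf : Odd (f.map (residue V)).natDegree := by rwa [hm.natDegree_map]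
  let N : ι' → V[X] := fun m ↦ a' m ^ 2 - b' m ^ 2 * f
  have hN : ∏ m, (N m).map (residue V) ≠ 0 := Finset.prod_ne_zero_iff.2 fun m _ ↦ by
    simpa [N] using norm_ne_odd hf (hr m)
  obtain ⟨r, hr'⟩ : ∃ r, (∏ m, (N m).map (residue V)).eval r ≠ 0 := by
    by_contra h
    exact hN (Polynomial.funext fun r ↦ by simpa using not_not.1 (not_exists.1 h r))
  obtain ⟨x, rfl⟩ := residue_surjective r
  obtain ⟨y, hy⟩ := IsAlgClosed.exists_pow_nat_eq ((f.eval x : V) : ℂ) (n := 2) two_pos
  have yV : y ∈ V := root_mem V (monic_X_pow_sub_C (f.eval x) two_ne_zero) (by simp [hy])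
  lift y to V using yV
  have hy' : y ^ 2 = f.eval x := Subtype.ext hy
  have ev (p : V[X]) : (p.map (algebraMap V ℂ)).eval (x : ℂ) = (p.eval x : V) :=
    eval_map_apply (algebraMap V ℂ) x
  refine ⟨x, y, x.2, by rw [ev]; exact hy, fun m ↦ ?_⟩
  by_cases hm : a m ≠ 0 ∨ b m ≠ 0
  · let m' : ι' := ⟨m, hm⟩
    have e1 : pv (a m) (b m) x y = c m' * (pv (a' m') (b' m') x y : V) := by
      rw [ha m', hb m']
      simp only [pv, eval_mul, eval_C, ev]
      push_cast
      ring
    have e2 : pq (f.map (algebraMap V ℂ)) (a m) (b m) x y =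
        c m' * (pq f (a' m') (b' m') x y : V) := by
      rw [ha m', hb m']
      simp only [pq, eval_mul, eval_C, ev, derivative_C_mul, derivative_map]
      push_cast
      have t2 : ((2 : V) : ℂ) = 2 := rfl
      rw [t2]
      ring
    have u : IsUnit (pv (a' m') (b' m') x y) := by
      have e3 : (N m').eval x = pv (a' m') (b' m') x y * pv (a' m') (b' m') x (-y) := by
        simp only [N, pv, eval_sub, eval_mul, eval_pow, ← hy']
        ring
      rw [eval_prod, Finset.prod_ne_zero_iff] at hr'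
      have := hr' m' (Finset.mem_univ _)
      rw [eval_map_apply, residue_ne_zero_iff_isUnit, e3] at this
      exact isUnit_of_mul_isUnit_left this
    have u1 := (V.valuation_eq_one_iff _).1 u
    refine ⟨?_, fun _ ↦ ?_, fun j ↦ ?_⟩
    · rw [e1, e2, map_mul, map_mul, u1]
      exact mul_le_mul_right (V.valuation_le_one _) _
    · rw [e1]
      exact mul_ne_zero (c0 _) fun h ↦ by simp [h] at u1
    · rw [e1, ha m', coeff_C_mul, coeff_map, map_mul, map_mul, u1]
      exact mul_le_mul_right (V.valuation_le_one _) _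
  · obtain ⟨h1, h2⟩ := not_or.1 hm
    simp [not_not.1 h1, not_not.1 h2, pq, pv]

theorem pq_deriv {ξ η : ℂ → ℂ} {δ u : ℂ} {f : ℂ[X]} (hξ : HasDerivAt ξ (δ * (2 * η u)) u)
    (hη : HasDerivAt η (δ * f.derivative.eval (ξ u)) u) (a b : ℂ[X]) :
    HasDerivAt (fun u ↦ pv a b (ξ u) (η u)) (δ * pq f a b (ξ u) (η u)) u := by
  have := ((a.hasDerivAt _).comp u hξ).add (((b.hasDerivAt _).comp u hξ).mul hη)
  refine this.congr_deriv ?_
  simp only [pq, Function.comp]
  ring

end Pool.Agent.Lib.QM.T6
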