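import Pool.Agent.Lib.QM.FQA
import Pool.Agent.Lib.ECM.THBlue

/-! Integrality of the tangent vector of a map from a hyperelliptic curve to the torus. -/

open Polynomial Filter Topology
open scoped Polynomial.Bivariate

namespace Pool.Agent.Lib.QM.T6

open Pool.Agent.Lib.ECM Pool.Agent.Lib.ECM.T42

theorem neg_tendsto : Tendsto (fun u : ℂ ↦ -u) (𝓝[≠] 0) (𝓝[≠] 0) :=
  tendsto_nhdsWithin_of_tendsto_nhds_of_eventually_within _
    ((continuous_neg.tendsto' 0 0 neg_zero).mono_left nhdsWithin_le_nhds)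
    (eventually_mem_nhdsWithin.mono fun _ hu ↦ neg_ne_zero.2 hu)

/-- an identity along an analytic parametrisation holds on the whole curve -/
theorem transf {ξ η : ℂ → ℂ} {f : ℂ[X]}
    (hp : ∀ᶠ u in 𝓝[≠] 0, ξ (-u) = ξ u ∧ η (-u) = -η u)
    (he : ∀ᶠ u in 𝓝[≠] 0, η u ^ 2 = f.eval (ξ u)) (f0 : f ≠ 0)
    (hne : ∀ A : ℂ[X], A ≠ 0 → ∀ᶠ u in 𝓝[≠] 0, A.eval (ξ u) ≠ 0) (Φ : ℂ[X][Y])
    (h : ∀ᶠ u in 𝓝[≠] 0, Φ.evalEval (ξ u) (η u) = 0) {x y : ℂ} (hxy : y ^ 2 = f.eval x) :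
    Φ.evalEval x y = 0 := by
  have m : (X ^ 2 - C f : ℂ[X][Y]).Monic := monic_X_pow_sub_C f two_ne_zero
  have d : (Φ %ₘ (X ^ 2 - C f)).degree ≤ 1 := by
    have := degree_modByMonic_lt Φ m
    rw [degree_X_pow_sub_C two_pos] at this
    exact Order.le_of_lt_succ this
  have e := eq_X_add_C_of_degree_le_one d
  set S := (Φ %ₘ (X ^ 2 - C f)).coeff 1
  set R := (Φ %ₘ (X ^ 2 - C f)).coeff 0
  have k (x y : ℂ) (hxy : y ^ 2 = f.eval x) : Φ.evalEval x y = S.eval x * y + R.eval x := by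
    rw [← modByMonic_add_div Φ (X ^ 2 - C f), e]
    simp [evalEval_C, hxy]
  have h1 : ∀ᶠ u in 𝓝[≠] 0, S.eval (ξ u) * η u + R.eval (ξ u) = 0 := by
    filter_upwards [h, he] with u h he using (k _ _ he).symm.trans h
  have h2 : ∀ᶠ u in 𝓝[≠] 0, R.eval (ξ u) = 0 ∧ (S * f).eval (ξ u) = 0 := by
    filter_upwards [h1, neg_tendsto.eventually h1, he, hp] with u a b c hp
    rw [hp.1, hp.2] at b
    exact ⟨by linear_combination (a + b) / 2, by
      rw [eval_mul, ← c]; linear_combination η u * (a - b) / 2⟩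
  have R0 : R = 0 := by
    by_contra h0
    obtain ⟨u, a, b⟩ := (h2.and (hne R h0)).exists
    exact b a.1
  have S0 : S = 0 := by
    by_contra h0
    obtain ⟨u, a, b⟩ := (h2.and (hne _ (mul_ne_zero h0 f0))).exists
    exact b a.2
  simp [k x y hxy, R0, S0]

theorem ev_pair' : ∀ κ : Ch, ∃ n, Ev n ∧ Ev (n + κ) := by decide

theorem ch_two (a : Ch) : a + a = 0 := by revert a; decide

theorem finq_abs (hB : St_BAS) (hD : St_DER) {τ : T3} (hτ : τ ∈ H2) (hG : Gen τ)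
    (V : ValuationSubring ℂ) (f : V[X]) (hm : f.Monic) (ho : Odd f.natDegree)
    {Z Z' : ℂ → V2} {ξ η δ c : ℂ → ℂ} (a b : Ch → ℂ[X]) (hZ0 : Tendsto Z (𝓝[≠] 0) (𝓝 0))
    (hp : ∀ᶠ u in 𝓝[≠] 0, ξ (-u) = ξ u ∧ η (-u) = -η u)
    (hne : ∀ A : ℂ[X], A ≠ 0 → ∀ᶠ u in 𝓝[≠] 0, A.eval (ξ u) ≠ 0)
    (hev : ∀ᶠ u in 𝓝[≠] 0, HasDerivAt Z (Z' u) u ∧ HasDerivAt ξ (δ u * (2 * η u)) u ∧
      HasDerivAt η (δ u * (f.map (algebraMap V ℂ)).derivative.eval (ξ u)) u ∧ δ u ≠ 0 ∧
      η u ^ 2 = (f.map (algebraMap V ℂ)).eval (ξ u) ∧ DifferentiableAt ℂ c u ∧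
      ∀ m, th m τ (Z u) = c u * pv (a m) (b m) (ξ u) (η u))
    (g h : Ch) (hh : ¬ Ev h) (Q : V[X]) (N : ℂ[X])
    (hN : ∀ᶠ u in 𝓝[≠] 0, (Q.map (algebraMap V ℂ)).eval (ξ u) * ll h τ (Z' u) =
      δ u * N.eval (ξ u)) (j : ℕ) :
    ∃ n, V.valuation (4 * (kk g τ * N.coeff j)) ≤
      V.valuation (kk n τ * kk (n + (g + h)) τ) := by
  classical
  obtain ⟨s, hs, hD⟩ := hD
  set f' := f.map (algebraMap V ℂ) with hf'
  set Q' := Q.map (algebraMap V ℂ) with hQ'
  have nz (m) (hm : Ev m) : ∀ᶠ u in 𝓝[≠] (0 : ℂ), th m τ (Z u) ≠ 0 :=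
    hZ0.eventually ((hB.diff_th m τ hτ 0).continuousAt.eventually_ne (hG m hm))
  have hW : ∀ᶠ u in 𝓝[≠] (0 : ℂ), ∀ m, dth m τ (Z' u) (Z u) =
      deriv c u * pv (a m) (b m) (ξ u) (η u) + c u * (δ u * pq f' (a m) (b m) (ξ u) (η u)) := by
    filter_upwards [eventually_eventually_nhdsWithin.2 hev, self_mem_nhdsWithin] with u hu hu0 m
    rw [nhdsWithin_eq_nhds.2 (isOpen_compl_singleton.mem_nhds hu0)] at hu
    obtain ⟨d1, d2, d3, -, -, d4, -⟩ := hu.self_of_nhds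
    have e1 := (hB.diff_th m τ hτ (Z u)).hasFDerivAt.comp_hasDerivAt u d1
    exact e1.unique ((d4.hasDerivAt.mul (pq_deriv d2 d3 (a m) (b m))).congr_of_eventuallyEq
      (hu.mono fun w hw ↦ hw.2.2.2.2.2.2 m))
  obtain ⟨x, y, xV, hxy, hq⟩ := good V f hm ho (fun o : Option Ch ↦ o.elim N a)
    (fun o : Option Ch ↦ o.elim 0 b)
  let p : Ch → ℂ := fun m ↦ pv (a m) (b m) x y
  let q : Ch → ℂ := fun m ↦ pq f' (a m) (b m) x y
  have id (e : Ch) : 4 * (kk g τ * N.eval x) * (p e * p (e + (g + h))) =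
      Q'.eval x * ∑ n, (s e (e + (g + h)) g n : ℂ) *
        ((p (n + (g + h)) * q n - p n * q (n + (g + h))) *
        (kk (n + e + g) τ * kk (n + e + g + (g + h)) τ)) := by
    let P : Ch → ℂ[X][Y] := fun m ↦ C (a m) + C (b m) * Y
    let R : Ch → ℂ[X][Y] := fun m ↦ C (a m).derivative * (CC 2 * Y) +
      C (b m).derivative * (CC 2 * Y) * Y + C (b m) * C f'.derivative
    have eP (m x y) : (P m).evalEval x y = pv (a m) (b m) x y := by simp [P, pv, evalEval_C]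
    have eR (m x y) : (R m).evalEval x y = pq f' (a m) (b m) x y := by
      simp [R, pq, evalEval_C]
    have := transf (ξ := ξ) (η := η) (f := f') hp (hev.mono fun u hu ↦ hu.2.2.2.2.1)
      (hm.map _).ne_zero hne
      (CC 4 * (CC (kk g τ) * C N) * (P e * P (e + (g + h))) - C Q' *
        ∑ n, CC (s e (e + (g + h)) g n : ℂ) * ((P (n + (g + h)) * R n - P n * R (n + (g + h))) *
          CC (kk (n + e + g) τ * kk (n + e + g + (g + h)) τ))) ?_ (x := x) (y := y) hxy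
    · simp only [evalEval_sub, evalEval_mul, evalEval_C, eval_C, evalEval_finsetSum, eP,
        eR] at this
      exact sub_eq_zero.1 this
    filter_upwards [hev, hW, hN, nz 0 (by decide)] with u h1 h2 h5 h0
    obtain ⟨-, -, -, δ0, -, -, h1⟩ := h1
    have c0 : c u ≠ 0 := left_ne_zero_of_mul (h1 0 ▸ h0)
    simp only [evalEval_sub, evalEval_mul, evalEval_C, eval_C, evalEval_finsetSum, eP, eR]
    have h3 := (hD τ hτ e (e + (g + h)) g (Z' u) (Z u)).1
    have i1 : e + (e + (g + h)) + g = h := by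
      linear_combination (exp := 1) ch_two e + ch_two g
    have i2 (n : Ch) : n + e + (e + (g + h)) = n + (g + h) := by
      linear_combination (exp := 1) ch_two e
    have i3 (n : Ch) : n + (e + (g + h)) + g = n + e + g + (g + h) := by ring
    simp only [i1, i2, i3, hB.kk_odd h τ hh] at h3
    have h4 : c u ^ 2 * δ u * ∑ n, (s e (e + (g + h)) g n : ℂ) *
        ((pv (a (n + (g + h))) (b (n + (g + h))) (ξ u) (η u) * pq f' (a n) (b n) (ξ u) (η u) -
          pv (a n) (b n) (ξ u) (η u) * pq f' (a (n + (g + h))) (b (n + (g + h))) (ξ u) (η u)) *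
        (kk (n + e + g) τ * kk (n + e + g + (g + h)) τ)) =
        4 * (th e τ (Z u) * th (e + (g + h)) τ (Z u) *
          (ll g τ (Z' u) * 0 + kk g τ * ll h τ (Z' u))) := by
      rw [h3, Finset.mul_sum]
      refine Finset.sum_congr rfl fun n _ ↦ ?_
      rw [h1, h1, h2, h2]
      ring
    rw [h1, h1] at h4
    refine mul_left_cancel₀ (mul_ne_zero (pow_ne_zero 2 c0) δ0) ?_
    linear_combination (-Q'.eval (ξ u)) * h4 - 4 * c u ^ 2 * kk g τ *
      (pv (a e) (b e) (ξ u) (η u) * pv (a (e + (g + h))) (b (e + (g + h))) (ξ u) (η u)) * h5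
  obtain ⟨e, -, he⟩ := Finset.univ.exists_max_image
    (fun e ↦ V.valuation (p e * p (e + (g + h)))) Finset.univ_nonempty
  obtain ⟨n, -, hn⟩ := Finset.univ.exists_max_image
    (fun n ↦ V.valuation (kk n τ * kk (n + (g + h)) τ)) Finset.univ_nonempty
  have pn (m) (hm : Ev m) : p m ≠ 0 := (hq (some m)).2.1 (by
    by_contra hc
    obtain ⟨e1, e2⟩ := not_or.1 hc
    obtain ⟨u, u1, u2⟩ := (hev.and (nz m hm)).exists
    have := u1.2.2.2.2.2.2 m
    simp only [Option.elim_some, not_not] at e1 e2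
    simp [e1, e2, pv, u2] at this)
  obtain ⟨e0, r1, r2⟩ := ev_pair' (g + h)
  have pos : 0 < V.valuation (p e * p (e + (g + h))) :=
    lt_of_lt_of_le (by simpa [zero_lt_iff] using ⟨pn _ r1, pn _ r2⟩) (he e0 (Finset.mem_univ _))
  have cf : V.valuation (4 * (kk g τ * N.coeff j)) ≤ V.valuation (4 * (kk g τ * N.eval x)) := by
    have := (hq none).2.2 j
    simp only [Option.elim_none, pv, eval_zero, zero_mul, add_zero] at this
    simp only [map_mul]
    exact mul_le_mul_right (mul_le_mul_right this _) _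
  have qV : V.valuation (Q'.eval x) ≤ 1 := by
    lift x to V using xV
    exact (congrArg V.valuation (eval_map_apply (p := Q) (algebraMap V ℂ) x)).trans_le
      (V.valuation_le_one _)
  refine ⟨n, cf.trans (le_of_mul_le_mul_right ?_ pos)⟩
  rw [← map_mul, id e, map_mul]
  refine (mul_le_of_le_one_left' qV).trans (V.valuation.map_sum_le fun k _ ↦ ?_)
  have s1 : V.valuation (s e (e + (g + h)) g k : ℂ) = 1 := by
    rcases hs e (e + (g + h)) g k with e | e <;> simp [e]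
  rw [map_mul, s1, one_mul, map_mul, mul_comm]
  refine mul_le_mul' (hn _ (Finset.mem_univ _)) (le_trans ?_ (he k (Finset.mem_univ _)))
  refine V.valuation.map_sub_le ?_ ?_ <;> simp only [map_mul]
  · rw [mul_comm]
    exact mul_le_mul_left (hq (some k)).1 _
  · exact mul_le_mul_right (hq (some _)).1 _

end Pool.Agent.Lib.QM.T6
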