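import Pool.Agent.Lib.QM.QBlue
import Pool.Agent.Lib.ECM.PTDefs
import Pool.Agent.Lib.ECM.M_SINV

/-! Period theorem for two symmetric endomorphisms: definitions and block statements
(problem MP_0704bf_ag). -/

open Filter Topology

noncomputable section

namespace Pool.Agent.Lib.ECM.QM

open Pool.Agent.Lib.ZP3 (Sm)
open PT (I2 Jet Sys Mlt)
open MSINV (pv)

/-! ### the zero lemma -/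

/-- the four functions on the graph of `b` -/
def F4 (τ : T3) (b : V2 →ₗ[ℂ] V2) (u : V2) : Fin 4 → ℂ :=
  ![(th hA τ u / th 0 τ u) ^ 2, (th hB τ u / th 0 τ u) ^ 2,
    (th hA τ (b u) / th 0 τ (b u)) ^ 2, (th hB τ (b u) / th 0 τ (b u)) ^ 2]

/-- `v` is tangent to an elliptic curve of small degree -/
def SLn (τ : T3) (S : ℕ) (v : V2) : Prop :=
  ∃ (P : V2 →ₗ[ℂ] V2) (N : ℕ), N ≤ S ∧ Sy τ P (N ^ 2) ∧ P v = -((N : ℂ) • v)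

/-- the conclusion of the zero lemma -/
def Out (τ : T3) (b : V2 →ₗ[ℂ] V2) (S : ℕ) : Prop :=
  (∃ n n' : ℕ, 0 < n ∧ n ≤ S ∧ 0 < n' ∧ n' ≤ S ∧ (∀ z ∈ Lat τ, (n : ℂ) • b z ∈ Lat τ) ∧
    ∀ z, b z ∈ Lat τ → (n' : ℂ) • z ∈ Lat τ) ∨ ∃ v, v ≠ 0 ∧ SLn τ S v ∧ SLn τ S (b v)

def St_ZL4 : Prop := ∃ c : ℕ, ∀ τ ∈ H2, Gen τ → ∀ (v₁ v₂ : V2) (b : V2 →ₗ[ℂ] V2)
  (F : MvPolynomial (Fin 4) ℂ) (L T : ℕ), LinearIndependent ℂ ![v₁, v₂] → Function.Bijective b →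
  F ≠ 0 → 1 ≤ L → (∀ j, F.degreeOf j ≤ L) → c * L ^ 2 ≤ T →
  Jet (fun z ↦ MvPolynomial.eval (F4 τ b (z.1 • v₁ + z.2 • v₂)) F) (4 * T) →
  Out τ b ((c * L) ^ c)

/-! ### the auxiliary function -/

def St_ARI4 : Prop :=
  ∀ (ι : Type) [Fintype ι], ∃ c : ℕ, ∀ (A n L T0 T2 : ℕ) (x : ℂ × ℂ → ι → ℂ)
    (q1 q2 : ι → Option ι → Option ι → ℂ) (i : Fin 4 → ι), 2 ≤ A → 1 ≤ n →
    (n : ℝ) ≤ Real.exp A → L ≤ n → T0 ≤ n → T2 ≤ n → 4 * (A ^ c * (T0 * T2)) ≤ (L + 1) ^ 4 →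
    Sys x q1 q2 → (∀ j, Sm (x 0 j) A) → (∀ j a b, Sm (q1 j a b) A) →
    (∀ j a b, Sm (q2 j a b) A) →
    ∃ F : MvPolynomial (Fin 4) ℂ, F ≠ 0 ∧ (∀ j, F.degreeOf j ≤ L) ∧
      ∑ m ∈ F.support, ‖F.coeff m‖ ≤ Real.exp (A ^ c * n) ∧
      (∀ a < T0, ∀ b < T2,
        I2 (fun z ↦ MvPolynomial.eval (fun j ↦ x z (i j) ^ 2) F) a b = 0) ∧
      ∀ a b, a + b ≤ n → I2 (fun z ↦ MvPolynomial.eval (fun j ↦ x z (i j) ^ 2) F) a b ≠ 0 →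
        Real.exp (-(A ^ c * n)) ≤
          ‖I2 (fun z ↦ MvPolynomial.eval (fun j ↦ x z (i j) ^ 2) F) a b‖

def St_EXT4 : Prop :=
  ∀ (A L T0 T1 S : ℕ) (f : Fin 4 → ℂ × ℂ → ℂ) (F : MvPolynomial (Fin 4) ℂ) (BF : ℝ), 1 ≤ S →
    (∀ j, Mlt (f j) A S) → (∀ j s y, f j (s + 1, y) ^ 2 = f j (s, y) ^ 2) →
    (∀ j, F.degreeOf j ≤ L) → ∑ m ∈ F.support, ‖F.coeff m‖ ≤ BF →
    (∀ k < T0, ∀ b < T1, I2 (fun z ↦ MvPolynomial.eval (fun j ↦ f j z ^ 2) F) k b = 0) →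
    ∀ k b, b < T1 → ‖I2 (fun z ↦ MvPolynomial.eval (fun j ↦ f j z ^ 2) F) k b‖ ≤
      k.factorial * b.factorial * Real.exp (A * (k + b) + b + 16 * L * (A * S ^ 3)) *
        (BF / 2 ^ (S * T0))

def St_ENG4 : Prop :=
  ∀ (ι : Type) [Fintype ι], ∃ k A0 : ℕ, ∀ (A : ℕ) (x : ℂ × ℂ → ι → ℂ)
    (q1 q2 : ι → Option ι → Option ι → ℂ) (i : Fin 4 → ι) (c1 c2 : ℂ), A0 ≤ A → Sys x q1 q2 →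
    (∀ j, Sm (x 0 j) A) → (∀ j a b, Sm (q1 j a b) A) → (∀ j a b, Sm (q2 j a b) A) →
    Real.exp (-A) ≤ ‖c1‖ → ‖c2‖ ≤ Real.exp A →
    (∀ z j, x (z + (c1, c2)) (i j) ^ 2 = x z (i j) ^ 2) →
    (∀ j S, 1 ≤ S → Mlt (fun z ↦ x (c1 * z.1, c2 * z.1 + z.2) (i j)) A S) →
    ∃ (a : ℕ) (F : MvPolynomial (Fin 4) ℂ), A ≤ a ∧ a ≤ A ^ k ∧ F ≠ 0 ∧
      (∀ j, F.degreeOf j ≤ a ^ 20) ∧
      Jet (fun z ↦ MvPolynomial.eval (fun j ↦ x z (i j) ^ 2) F) (4 * a ^ 41)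

/-- all algebraic coordinates of `v` are small -/
def SV (τ : T3) (A : ℕ) (v : V2) : Prop := ∀ m, Sm (ll m τ v / kk 0 τ) A

/-- the coordinate functions along two planes -/
def xs4 (τ : T3) (v w : Bool → V2) (z : ℂ × ℂ) (p : Bool × Ch) : ℂ :=
  th p.2 τ (z.1 • v p.1 + z.2 • w p.1) / th 0 τ (z.1 • v p.1 + z.2 • w p.1)

def St_SYS4 : Prop :=
  ∃ k : ℕ, ∀ (A : ℕ) (τ : T3) (v w : Bool → V2), 2 ≤ A → τ ∈ H2 → Gen τ →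
    (∀ m, Sm (kk m τ / kk 0 τ) A) → (∀ i, SV τ A (v i)) → (∀ i, SV τ A (w i)) →
    ∃ q1 q2, Sys (xs4 τ v w) q1 q2 ∧ (∀ j a b, Sm (q1 j a b) (A ^ k)) ∧
      ∀ j a b, Sm (q2 j a b) (A ^ k)

def St_MLT4 : Prop :=
  ∃ c : ℕ, ∀ (A S : ℕ) (τ : T3) (m : Ch) (l w : V2), 1 ≤ A → 1 ≤ S → τ ∈ Red → ‖l‖ ≤ A →
    ‖w‖ ≤ Real.exp A →
    Mlt (fun z ↦ th m τ (z.1 • l + z.2 • w) / th 0 τ (z.1 • l + z.2 • w)) (c * A ^ 2) S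

/-- the auxiliary function on the graph of `b`, which contains the period `(w, b w)` -/
def St_AUX : Prop :=
  ∃ k A0 : ℕ, ∀ (A : ℕ) (τ : T3) (v₁ v₂ w : V2) (b : V2 →ₗ[ℂ] V2) (c₁ c₂ : ℂ), A0 ≤ A →
    τ ∈ Red → Gen τ → (∀ m, Sm (kk m τ / kk 0 τ) A) → SV τ A v₁ → SV τ A v₂ → SV τ A (b v₁) →
    SV τ A (b v₂) → w = c₁ • v₁ + c₂ • v₂ → w ∈ Lat τ → b w ∈ Lat τ → ‖w‖ ≤ A → ‖b w‖ ≤ A →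
    Real.exp (-A) ≤ ‖c₁‖ → ‖c₂‖ ≤ Real.exp A → ‖v₂‖ ≤ Real.exp A → ‖b v₂‖ ≤ Real.exp A →
    ∃ (a : ℕ) (F : MvPolynomial (Fin 4) ℂ), A ≤ a ∧ a ≤ A ^ k ∧ F ≠ 0 ∧
      (∀ j, F.degreeOf j ≤ a ^ 20) ∧
      Jet (fun z ↦ MvPolynomial.eval (F4 τ b (z.1 • v₁ + z.2 • v₂)) F) (4 * a ^ 41)

/-- sizes on the reduced domain -/
def St_SIZ : Prop :=
  ∃ k : ℕ, ∀ (A : ℕ) (τ : T3), 2 ≤ A → τ ∈ Red → Gen τ → (∀ m, Sm (kk m τ / kk 0 τ) A) →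
    (∀ n : Fin 4 → ℤ, (∀ i, |n i| ≤ 7) → ‖pv τ n‖ ≤ (A ^ k : ℕ) ∧ Hn τ (pv τ n) ≤ (A ^ k : ℕ) ∧
      (n ≠ 0 → Real.exp (-(A ^ k : ℕ)) ≤ ‖pv τ n‖)) ∧
    (∀ v, SV τ A v → ‖v‖ ≤ Real.exp (A ^ k : ℕ)) ∧
    ∀ v₁ v₂, SV τ A v₁ → SV τ A v₂ → LinearIndependent ℂ ![v₁, v₂] → ∀ c₁ c₂ : ℂ,
      ‖c₁‖ ≤ Real.exp (A ^ k : ℕ) * ‖c₁ • v₁ + c₂ • v₂‖ ∧
        ‖c₂‖ ≤ Real.exp (A ^ k : ℕ) * ‖c₁ • v₁ + c₂ • v₂‖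

/-- a short period on the graph of `b` -/
def St_KEY : Prop :=
  ∃ k A0 : ℕ, ∀ (A : ℕ) (τ : T3) (v₁ v₂ : V2) (b : V2 →ₗ[ℂ] V2) (n l : Fin 4 → ℤ), A0 ≤ A →
    τ ∈ Red → Gen τ → (∀ m, Sm (kk m τ / kk 0 τ) A) → SV τ A v₁ → SV τ A v₂ → SV τ A (b v₁) →
    SV τ A (b v₂) → LinearIndependent ℂ ![v₁, v₂] → Function.Bijective b → n ≠ 0 →
    (∀ i, |n i| ≤ 7) → (∀ i, |l i| ≤ 7) → b (pv τ n) = pv τ l → Out τ b (A ^ k)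

/-- the choice of the period, of the map and of the shifts -/
def St_ALG : Prop :=
  ∀ τ ∈ H2, ∀ M₁ M₂ (D₁ D₂ S : ℕ) (R : ℝ), Sy τ M₁ D₁ → Sy τ M₂ D₂ → (∀ c : ℂ, M₂ ≠ c • M₁) →
    1 ≤ R → D₁ ≤ R → D₂ ≤ R → (∀ n : Fin 4 → ℤ, (∀ i, |n i| ≤ 7) → Hn τ (pv τ n) ≤ R) →
    (∀ (n l : Fin 4 → ℤ) (d a₀ a₁ a₂ : ℤ) (b : V2 →ₗ[ℂ] V2), n ≠ 0 → (∀ i, |n i| ≤ 7) →
      (∀ i, |l i| ≤ 7) → d ≠ 0 → (|d| : ℝ) ≤ 8 * R ^ 4 → (|a₀| : ℝ) ≤ 8 * R ^ 4 →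
      (|a₁| : ℝ) ≤ 8 * R ^ 4 → (|a₂| : ℝ) ≤ 8 * R ^ 4 →
      (∀ u, (d : ℂ) • b u = (a₀ : ℂ) • u + (a₁ : ℂ) • M₁ u + (a₂ : ℂ) • M₂ u) →
      Function.Bijective b → b (pv τ n) = pv τ l → Out τ b S) →
    Two τ (100 * S ^ 6)

theorem Out.mono {τ : T3} {b : V2 →ₗ[ℂ] V2} {S S' : ℕ} (h : Out τ b S) (e : S ≤ S') :
    Out τ b S' := by
  rcases h with ⟨n, n', a1, a2, a3, a4, a5⟩ | ⟨v, a1, ⟨P, N, a2, a3⟩, P', N', a4, a5⟩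
  · exact Or.inl ⟨n, n', a1, a2.trans e, a3, a4.trans e, a5⟩
  · exact Or.inr ⟨v, a1, ⟨P, N, a2.trans e, a3⟩, P', N', a4.trans e, a5⟩

end Pool.Agent.Lib.ECM.QM
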