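import Pool.Agent.Lib.QM.P_ALGA

/-! Block ALG: the choice of the period, of the map and of the shifts. -/

open Complex

noncomputable section

namespace Pool.Agent.Lib.ECM.QM

namespace ALG

open MSINV

variable {τ : T3} {X Y : V2 →ₗ[ℂ] V2}

theorem two_sq (α c : ℝ) :
    ((Finset.range 6).filter fun k : ℕ ↦ (α - k) ^ 2 = c).card ≤ 2 := by
  by_contra h
  obtain ⟨i, j, l, hi, hj, hl, h1, h2, h3⟩ := Finset.two_lt_card_iff.1 (not_le.1 h)
  have a1 := (Finset.mem_filter.1 hi).2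
  have a2 := (Finset.mem_filter.1 hj).2
  have a3 := (Finset.mem_filter.1 hl).2
  have b1 : ((j : ℝ) - i) * (2 * α - i - j) = 0 := by linear_combination a1 - a2
  have b2 : ((l : ℝ) - i) * (2 * α - i - l) = 0 := by linear_combination a1 - a3
  have c1 := (mul_eq_zero.1 b1).resolve_left (sub_ne_zero.2 (by exact_mod_cast h1.symm))
  have c2 := (mul_eq_zero.1 b2).resolve_left (sub_ne_zero.2 (by exact_mod_cast h2.symm))
  exact h3 (by exact_mod_cast (by linarith : (j : ℝ) = l))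

theorem two_good (α c c' : ℝ) : ∃ i j : ℕ, i ≠ j ∧ (i ≤ 5 ∧ (α - i) ^ 2 ≠ c ∧ (α - i) ^ 2 ≠ c') ∧
    j ≤ 5 ∧ (α - j) ^ 2 ≠ c ∧ (α - j) ^ 2 ≠ c' := by
  classical
  have h1 := two_sq α c
  have h2 := two_sq α c'
  have h3 := Finset.card_union_le ((Finset.range 6).filter fun k : ℕ ↦ (α - k) ^ 2 = c)
    ((Finset.range 6).filter fun k : ℕ ↦ (α - k) ^ 2 = c')
  have h4 := Finset.le_card_sdiff (((Finset.range 6).filter fun k : ℕ ↦ (α - k) ^ 2 = c) ∪
    ((Finset.range 6).filter fun k : ℕ ↦ (α - k) ^ 2 = c')) (Finset.range 6)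
  rw [Finset.card_range] at h4
  obtain ⟨i, hi, j, hj, h⟩ := Finset.one_lt_card.1 (lt_of_lt_of_le (by omega) h4)
  simp only [Finset.mem_sdiff, Finset.mem_union, Finset.mem_filter, Finset.mem_range, not_or,
    not_and] at hi hj
  exact ⟨i, j, h, ⟨by omega, hi.2.1 hi.1, hi.2.2 hi.1⟩, by omega, hj.2.1 hj.1, hj.2.2 hj.1⟩

theorem bij {D a : ℝ} (h : ∀ u, X (X u) = (D : ℂ) • u) (ha : a ^ 2 ≠ D) :
    Function.Bijective ((a : ℂ) • LinearMap.id + X : V2 →ₗ[ℂ] V2) := by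
  have h1 : Function.Injective ((a : ℂ) • LinearMap.id + X : V2 →ₗ[ℂ] V2) := by
    rw [injective_iff_map_eq_zero]
    intro u hu
    have h2 : (a : ℂ) • u + X u = 0 := hu
    have h3 := congrArg X h2
    rw [map_add, map_smul, h, map_zero] at h3
    have h4 : ((a ^ 2 - D : ℝ) : ℂ) • u = 0 := by
      push_cast
      linear_combination (norm := module) (a : ℂ) • h2 - h3
    exact (smul_eq_zero.1 h4).resolve_left (by exact_mod_cast sub_ne_zero.2 ha)
  exact ⟨h1, LinearMap.injective_iff_surjective.1 h1⟩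

theorem eigen {D : ℕ} (hY : Sy τ Y D) {P : V2 →ₗ[ℂ] V2} {N : ℕ} (hP : Sy τ P (N ^ 2)) {c : ℂ}
    (h : P = c • Y) {v : V2} (hv : v ≠ 0) (e : P v = -((N : ℂ) • v)) :
    ∃ l : ℂ, l ^ 2 = D ∧ Y v = l • v := by
  have hN : (N : ℂ) ≠ 0 := by
    have := hP.pos
    exact_mod_cast (show N ≠ 0 by rintro rfl; simp at this)
  rw [h, LinearMap.smul_apply] at e
  have hc : c ≠ 0 := by
    rintro rfl
    rw [zero_smul] at e
    exact smul_ne_zero hN hv (neg_eq_zero.1 e.symm)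
  have h1 : Y v = (-N / c) • v := by
    rw [div_eq_inv_mul, mul_smul, neg_smul, ← e, inv_smul_smul₀ hc]
  refine ⟨_, ?_, h1⟩
  have h2 := hY.sq v
  rw [h1, map_smul, h1, smul_smul] at h2
  rw [pow_two]
  exact smul_left_injective ℂ hv h2

theorem step (hτ : τ ∈ H2) (hX : ST τ X) {D κ a : ℝ} {Ds S : ℕ} (hD : 0 < D)
    (h : ∀ u, X (X u) = (D : ℂ) • u) (hY : Sy τ Y Ds) (hn : ∀ t : ℝ, X ≠ (t : ℂ) • Y)
    (hs : ∀ P N, Sy τ P N → N ≤ 100 * S ^ 6 → ∃ c : ℂ, P = c • Y)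
    (hκ : ∀ u, X (Y u) + Y (X u) = (κ : ℂ) • u) (h1 : a ^ 2 ≠ D) (h2 : a ^ 2 ≠ κ ^ 2 / (4 * Ds))
    (ho : Out τ ((a : ℂ) • LinearMap.id + X) S) :
    ∃ n : ℕ, 0 < n ∧ n ≤ S ∧ (∀ z ∈ Lat τ, ((2 * n : ℝ) : ℂ) • X z ∈ Lat τ) ∧
      |a ^ 2 - D| ≤ S ^ 2 := by
  have hDs : (0 : ℝ) < Ds := by exact_mod_cast hY.pos
  rcases ho with ⟨n, n', a1, a2, a3, a4, a5, a6⟩ | ⟨v, hv, ⟨P, N, a1, a2, a3⟩, P', N', a4, a5, a6⟩
  · simp only [LinearMap.add_apply, LinearMap.smul_apply, LinearMap.id_apply] at a5 a6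
    have hn0 : (n : ℝ) ≠ 0 := by exact_mod_cast a1.ne'
    have hn' : (0 : ℝ) < n' := by exact_mod_cast a3
    have hΔ : a ^ 2 - D ≠ 0 := sub_ne_zero.2 h1
    have hΔ' : (a : ℂ) ^ 2 - D ≠ 0 := by exact_mod_cast hΔ
    obtain ⟨s, -, e1, -⟩ := pf2 hτ (hX.smul n) (D := n ^ 2 * D) (by positivity) (fun u ↦ by
      simp only [LinearMap.smul_apply, map_smul, h]
      push_cast
      module) (n * a) fun z hz ↦ by
        have e : ((n * a : ℝ) : ℂ) • z + (((n : ℝ) : ℂ) • X) z = (n : ℂ) • ((a : ℂ) • z + X z) := by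
          simp only [LinearMap.smul_apply]
          push_cast
          module
        exact e ▸ a5 z hz
    obtain ⟨-, p, -, e2⟩ := pf2 hτ (hX.smul (-n' / (a ^ 2 - D))) (D := (n' / (a ^ 2 - D)) ^ 2 * D)
      (by positivity) (fun u ↦ by
        simp only [LinearMap.smul_apply, map_smul, h]
        push_cast
        match_scalars
        ring) (n' / (a ^ 2 - D) * a) fun z hz ↦ by
        have e : ((n' / (a ^ 2 - D) * a : ℝ) : ℂ) • z + (((-n' / (a ^ 2 - D) : ℝ) : ℂ) • X) z =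
            (n' : ℂ) • (((a : ℂ) ^ 2 - D)⁻¹ • ((a : ℂ) • z - X z)) := by
          simp only [LinearMap.smul_apply]
          push_cast
          match_scalars <;> ring
        refine e ▸ a6 _ ?_
        have e' : (a : ℂ) • (((a : ℂ) ^ 2 - D)⁻¹ • ((a : ℂ) • z - X z)) +
            X (((a : ℂ) ^ 2 - D)⁻¹ • ((a : ℂ) • z - X z)) = z := by
          simp only [map_smul, map_sub, h]
          match_scalars
          · field_simp
            ring
          · ring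
        rwa [e']
    refine ⟨n, a1, a2, fun z hz ↦ ?_, ?_⟩
    · have e : ((2 * n : ℝ) : ℂ) • X z =
          ((2 : ℤ) : ℂ) • (n : ℂ) • ((a : ℂ) • z + X z) + ((-s : ℤ) : ℂ) • z := by
        have e3 : (s : ℂ) = 2 * (n * a) := by exact_mod_cast e1
        push_cast
        rw [e3]
        module
      rw [e]
      exact st_BAS.lat_add τ _ (st_BAS.lat_smul τ _ _ (a5 z hz)) _ (st_BAS.lat_smul τ _ _ hz)
    · have e3 : p * (a ^ 2 - D) = (n' : ℝ) ^ 2 := by
        rw [e2]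
        field_simp
      have e4 : p ≠ 0 := by
        rintro rfl
        simp only [Int.cast_zero, zero_mul] at e3
        exact (pow_pos hn' 2).ne e3
      have e5 : (1 : ℝ) ≤ |(p : ℝ)| := by exact_mod_cast Int.one_le_abs e4
      have e6 : (n' : ℝ) ^ 2 ≤ S ^ 2 := by gcongr
      have e7 := congrArg abs e3
      rw [abs_mul, abs_of_nonneg (sq_nonneg (n' : ℝ))] at e7
      nlinarith [abs_nonneg (a ^ 2 - D)]
  · exfalso
    have sm : ∀ N : ℕ, N ≤ S → N ^ 2 ≤ 100 * S ^ 6 := fun N hN ↦ by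
      rcases Nat.eq_zero_or_pos S with rfl | hS
      · simpa using hN
      · have := Nat.pow_le_pow_left hN 2
        have : S ^ 2 ≤ S ^ 6 := Nat.pow_le_pow_right hS (by norm_num)
        omega
    have hw : ((a : ℂ) • LinearMap.id + X : V2 →ₗ[ℂ] V2) v ≠ 0 := fun e ↦
      hv ((bij h h1).1 (e.trans (map_zero _).symm))
    obtain ⟨c, hc⟩ := hs P _ a2 (sm N a1)
    obtain ⟨c', hc'⟩ := hs P' _ a5 (sm N' a4)
    obtain ⟨l, b1, b2⟩ := eigen hY a2 hc hv a3
    obtain ⟨l', b3, b4⟩ := eigen hY a5 hc' hw a6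
    simp only [LinearMap.add_apply, LinearMap.smul_apply, LinearMap.id_apply, map_add, map_smul,
      b2] at b4
    have b5 := hκ v
    rw [b2, map_smul] at b5
    have hDc : (Ds : ℂ) ≠ 0 := by exact_mod_cast hY.pos.ne'
    have hl : l ≠ 0 := by
      rintro rfl
      exact hDc (by simpa using b1.symm)
    rcases sq_eq_sq_iff_eq_or_eq_neg.1 (b3.trans b1.symm) with rfl | rfl
    · refine hn (κ / (2 * Ds)) (sub_eq_zero.1 ?_)
      have b6 := kill hτ (hX.add ((of_sy hY).smul (-(κ / (2 * Ds))))) hv (by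
        have b7 : (2 * l') • X v = (κ : ℂ) • v := by linear_combination (norm := module) b5 - b4
        simp only [LinearMap.add_apply, LinearMap.smul_apply, b2]
        apply smul_right_injective V2 (mul_ne_zero two_ne_zero hl)
        simp only [smul_add, b7, smul_zero]
        push_cast
        rw [← b1]
        match_scalars
        field_simp
        ring)
      rw [← b6]
      push_cast
      module
    · have b7 : (κ + 2 * a * l : ℂ) • v = 0 := by linear_combination (norm := module) b4 - b5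
      have b8 := (smul_eq_zero.1 b7).resolve_right hv
      have b9 : (a : ℂ) ^ 2 * (4 * Ds) = κ ^ 2 := by
        linear_combination (2 * a * l - κ) * b8 - 4 * a ^ 2 * b1
      exact h2 (eq_div_of_mul_eq (by positivity) (by exact_mod_cast b9))

theorem core (hτ : τ ∈ H2) (hX : ST τ X) {Ds S : ℕ} (hY : Sy τ Y Ds)
    (hn : ∀ t : ℝ, X ≠ (t : ℂ) • Y)
    (hs : ∀ P N, Sy τ P N → N ≤ 100 * S ^ 6 → ∃ c : ℂ, P = c • Y) (α : ℝ)
    (ho : ∀ k : ℕ, k ≤ 5 → Function.Bijective (((α - k : ℝ) : ℂ) • LinearMap.id + X : V2 →ₗ[ℂ] V2) →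
      Out τ (((α - k : ℝ) : ℂ) • LinearMap.id + X) S) : False := by
  obtain ⟨D, hD, h⟩ := sq hτ hX (by simpa using hn 0)
  obtain ⟨κ, hκ⟩ := anti hτ hX (of_sy hY)
  obtain ⟨i, j, hij, ⟨i1, i2, i3⟩, j1, j2, j3⟩ := two_good α D (κ ^ 2 / (4 * Ds))
  obtain ⟨n, a1, a2, a3, a4⟩ := step hτ hX hD h hY hn hs hκ i2 i3 (ho i i1 (bij h i2))
  obtain ⟨-, -, -, -, a5⟩ := step hτ hX hD h hY hn hs hκ j2 j3 (ho j j1 (bij h j2))
  have hn0 : (0 : ℝ) < n := by exact_mod_cast a1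
  have hnS : (n : ℝ) ≤ S := by exact_mod_cast a2
  have hS : (1 : ℝ) ≤ S := by exact_mod_cast (show 1 ≤ S by omega)
  obtain ⟨N, b1, b2⟩ := mk_sy hτ (hX.smul (2 * n)) (D := (2 * n) ^ 2 * D) (by positivity)
    (fun u ↦ by
      simp only [LinearMap.smul_apply, map_smul, h]
      push_cast
      module) a3
  have c1 : (1 : ℝ) ≤ |(j : ℝ) - i| := by
    exact_mod_cast Int.one_le_abs (show (j : ℤ) - i ≠ 0 by omega)
  have c2 : |(j : ℝ) - i| ≤ 5 := by exact_mod_cast (show |(j : ℤ) - i| ≤ 5 by rw [abs_le]; omega)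
  have c3 : |(j : ℝ) - i| * |2 * α - i - j| ≤ 2 * S ^ 2 := by
    rw [← abs_mul, show ((j : ℝ) - i) * (2 * α - i - j) =
      ((α - i) ^ 2 - D) - ((α - j) ^ 2 - D) by ring]
    exact (abs_sub _ _).trans (by linarith)
  have c4 : |2 * α - i - j| ≤ 2 * S ^ 2 := by nlinarith [abs_nonneg (2 * α - i - j)]
  have c5 : (1 : ℝ) ≤ S ^ 2 := one_le_pow₀ hS
  have c6 : (α - i) ^ 2 ≤ (4 * S ^ 2) ^ 2 := by
    rw [abs_le] at c2 c4
    exact sq_le_sq' (by linarith) (by linarith)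
  have c7 : D ≤ 17 * (S ^ 2) ^ 2 := by
    rw [abs_le] at a4
    nlinarith
  have c8 : (N : ℝ) ≤ 100 * S ^ 6 := by
    rw [b1]
    calc _ ≤ (2 * (S : ℝ)) ^ 2 * (17 * (S ^ 2) ^ 2) := by gcongr
      _ = 68 * S ^ 6 := by ring
      _ ≤ _ := by gcongr; norm_num
  obtain ⟨c, hc⟩ := hs _ N b2 (by exact_mod_cast c8)
  obtain ⟨t, ht⟩ := real_of hτ hX hY (c := ((2 * n : ℝ) : ℂ)⁻¹ * c) (by
    rw [mul_smul, ← hc, inv_smul_smul₀ (by exact_mod_cast (by positivity : (2 * n : ℝ) ≠ 0))])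
  exact hn t ht

/-! ### the period -/

/-- the determinant of four integral vectors -/
def Pf (a b c d : Fin 4 → ℤ) : ℤ := om a b * om c d - om a c * om b d + om a d * om b c

theorem cramer (a b c d r : Fin 4 → ℤ) : Pf a b c d • r =
    Pf r b c d • a + Pf a r c d • b + Pf a b r d • c + Pf a b c r • d := by
  funext i
  fin_cases i <;> simp [Pf, om] <;> ring

theorem Pf_le (hτ : τ ∈ H2) {a b c d : Fin 4 → ℤ} {B : ℝ} (ha : Hn τ (pv τ a) ≤ B)
    (hb : Hn τ (pv τ b) ≤ B) (hc : Hn τ (pv τ c) ≤ B) (hd : Hn τ (pv τ d) ≤ B) :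
    |(Pf a b c d : ℝ)| ≤ 3 * B ^ 2 := by
  have k : ∀ {x y z w : Fin 4 → ℤ}, Hn τ (pv τ x) ≤ B → Hn τ (pv τ y) ≤ B → Hn τ (pv τ z) ≤ B →
      Hn τ (pv τ w) ≤ B → |(om x y : ℝ) * om z w| ≤ B ^ 2 := fun h1 h2 h3 h4 ↦ by
    rw [abs_mul, ← E_pv hτ, ← E_pv hτ, pow_two]
    exact mul_le_mul (E_le hτ h1 h2) (E_le hτ h3 h4) (abs_nonneg _)
      ((abs_nonneg _).trans (E_le hτ h1 h2))
  have h1 := abs_le.1 (k ha hb hc hd)
  have h2 := abs_le.1 (k ha hc hb hd)
  have h3 := abs_le.1 (k ha hd hb hc)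
  rw [Pf, abs_le]
  push_cast
  constructor <;> linarith

theorem exists_w (hτ : τ ∈ H2) {D D' : ℕ} (hX : Sy τ X D) (hY : Sy τ Y D')
    (hn : ∀ c : ℂ, Y ≠ c • X) :
    ∃ n : Fin 4 → ℤ, (∀ i, n i = 0 ∨ n i = 1) ∧ Ef τ (X (pv τ n)) (Y (pv τ n)) ≠ 0 := by
  by_contra! h
  have sx := of_sy hX
  have sy := of_sy hY
  have h1 : ∀ i j : Fin 4, Ef τ (pv τ (Pi.single i 1))
      (X (Y (pv τ (Pi.single j 1))) + ((-1 : ℝ) : ℂ) • Y (X (pv τ (Pi.single j 1)))) = 0 := by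
    intro i j
    have a1 := h (Pi.single i 1) fun l ↦ by rw [Pi.single_apply]; split_ifs <;> simp
    have a2 := h (Pi.single j 1) fun l ↦ by rw [Pi.single_apply]; split_ifs <;> simp
    rw [E_add', E_smul', ← sx.1, ← sy.1 (pv τ (Pi.single i 1)), E_swap (Y _)]
    by_cases e : i = j
    · subst e
      linarith
    · have a3 := h (Pi.single i 1 + Pi.single j 1) fun l ↦ by
        rw [Pi.add_apply, Pi.single_apply, Pi.single_apply]
        split_ifs with e1 e2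
        · exact absurd (e1.symm.trans e2) e
        all_goals simp
      rw [pv_add, map_add, map_add, E_add, E_add', E_add'] at a3
      linarith
  have h2 : ∀ j : Fin 4,
      X (Y (pv τ (Pi.single j 1))) + ((-1 : ℝ) : ℂ) • Y (X (pv τ (Pi.single j 1))) = 0 := by
    intro j
    obtain ⟨k, hk⟩ := exists_pv (st_BAS.lat_add τ _ (hX.lat _ (hY.lat _ (pv_mem τ (Pi.single j 1))))
      _ (st_BAS.lat_smul τ (-1) _ (hY.lat _ (hX.lat _ (pv_mem τ (Pi.single j 1))))))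
    have a : ∀ i, om (Pi.single i 1) k = 0 := fun i ↦ by
      have := h1 i j
      rw [← Int.cast_one (R := ℝ), ← Int.cast_neg, ofReal_intCast, hk, E_pv hτ] at this
      exact_mod_cast this
    have a0 := a 0
    have a1 := a 1
    have a2 := a 2
    have a3 := a 3
    simp [om] at a0 a1 a2 a3
    rw [← Int.cast_one (R := ℝ), ← Int.cast_neg, ofReal_intCast, hk, pv_dec, a0, a1, a2, a3]
    simp
  have e0 : (Pi.single 0 1 : Fin 4 → ℤ) = ![1, 0, 0, 0] := by decide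
  have e1 : (Pi.single 1 1 : Fin 4 → ℤ) = ![0, 1, 0, 0] := by decide
  have b0 := h2 0
  have b1 := h2 1
  rw [e0, pv_e0] at b0
  rw [e1, pv_e1] at b1
  have h3 := ext2 (X := X ∘ₗ Y + ((-1 : ℝ) : ℂ) • Y ∘ₗ X) (Y := 0) b0 b1
  obtain ⟨κ, hκ⟩ := anti hτ sx sy
  have hD : (D : ℂ) ≠ 0 := by exact_mod_cast hX.pos.ne'
  refine hn (κ / (2 * D)) (LinearMap.ext fun u ↦ ?_)
  have c1 : X (Y u) + ((-1 : ℝ) : ℂ) • Y (X u) = 0 := h3 u
  push_cast at c1
  have c2 : X (Y u) = (κ / 2 : ℂ) • u := by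
    linear_combination (norm := module) (1 / 2 : ℂ) • c1 + (1 / 2 : ℂ) • hκ u
  have c3 := congrArg X c2
  rw [hX.sq, map_smul] at c3
  apply smul_right_injective V2 hD
  simp only [LinearMap.smul_apply, c3, smul_smul]
  congr 1
  field_simp

theorem exists_y (hτ : τ ∈ H2) (hY : SA τ Y) {n μ a b : Fin 4 → ℤ} (h0 : om n μ ≠ 0)
    (ha : om n a = 0) (hb : om n b = 0) (hab : om a b ≠ 0) : ∃ i : Fin 4, ∀ s t : ℝ,
      pv τ (om n μ • Pi.single i 1 + (-om n (Pi.single i 1)) • μ) ≠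
        (s : ℂ) • pv τ n + (t : ℂ) • Y (pv τ n) := by
  by_contra! h
  choose s t h using h
  have key : ∀ x, om n x = 0 → ∃ s t : ℝ,
      pv τ (om n μ • x) = (s : ℂ) • pv τ n + (t : ℂ) • Y (pv τ n) := fun x hx ↦ by
    refine ⟨x 0 * s 0 + x 1 * s 1 + x 2 * s 2 + x 3 * s 3,
      x 0 * t 0 + x 1 * t 1 + x 2 * t 2 + x 3 * t 3, ?_⟩
    have e : om n μ • x = x 0 • (om n μ • Pi.single 0 1 + (-om n (Pi.single 0 1)) • μ) +
        x 1 • (om n μ • Pi.single 1 1 + (-om n (Pi.single 1 1)) • μ) +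
        x 2 • (om n μ • Pi.single 2 1 + (-om n (Pi.single 2 1)) • μ) +
        x 3 • (om n μ • Pi.single 3 1 + (-om n (Pi.single 3 1)) • μ) := by
      funext i
      unfold om at hx
      fin_cases i <;> simp [om]
      · linear_combination μ 0 * hx
      · linear_combination μ 1 * hx
      · linear_combination μ 2 * hx
      · linear_combination μ 3 * hx
    rw [e, pv_add, pv_add, pv_add, pv_smul (x 0), pv_smul (x 1), pv_smul (x 2), pv_smul (x 3),
      h, h, h, h]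
    push_cast
    module
  obtain ⟨s1, t1, e1⟩ := key a ha
  obtain ⟨s2, t2, e2⟩ := key b hb
  have h1 := E_pv hτ (om n μ • a) (om n μ • b)
  rw [e1, e2] at h1
  simp only [E_add, E_add', E_smul, E_smul', E_self, E_swap (Y _) (pv τ n), hY.zero] at h1
  have h2 : om (om n μ • a) (om n μ • b) = om n μ ^ 2 * om a b := by
    simp only [om, Pi.smul_apply, smul_eq_mul]
    ring
  rw [h2] at h1
  have h3 : om n μ ^ 2 * om a b = 0 := by
    have : ((om n μ ^ 2 * om a b : ℤ) : ℝ) = 0 := by rw [← h1]; ring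
    exact_mod_cast this
  exact mul_ne_zero (pow_ne_zero 2 h0) hab h3

end ALG

open ALG MSINV in
theorem st_ALG : St_ALG := by
  intro τ hτ M₁ M₂ D₁ D₂ S R h1 h2 hn hR d1 d2 hH hO
  by_contra hT
  obtain ⟨Y, Ds, hY, hs⟩ : ∃ Y Ds, Sy τ Y Ds ∧
      ∀ P N, Sy τ P N → N ≤ 100 * S ^ 6 → ∃ c : ℂ, P = c • Y := by
    by_cases h : ∃ Y Ds, Sy τ Y Ds ∧ Ds ≤ 100 * S ^ 6
    · obtain ⟨Y, Ds, a1, a2⟩ := h
      refine ⟨Y, Ds, a1, fun P N b1 b2 ↦ ?_⟩
      by_contra! h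
      exact hT ⟨Y, P, Ds, N, a1, b1, a2, b2, h⟩
    · exact ⟨M₁, D₁, h1, fun P N b1 b2 ↦ absurd ⟨P, N, b1, b2⟩ h⟩
  obtain ⟨n, hn1, hq⟩ := exists_w hτ h1 h2 hn
  obtain ⟨a, ha⟩ := exists_pv (h1.lat _ (pv_mem τ n))
  obtain ⟨b, hb⟩ := exists_pv (h2.lat _ (pv_mem τ n))
  have za := (of_sy h1).1.zero (pv τ n)
  have zb := (of_sy h2).1.zero (pv τ n)
  rw [ha, hb, E_pv hτ, Int.cast_ne_zero] at hq
  rw [ha, E_pv hτ, Int.cast_eq_zero] at za
  rw [hb, E_pv hτ, Int.cast_eq_zero] at zb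
  have n0 : n ≠ 0 := by
    rintro rfl
    have e : pv τ 0 = 0 := by simpa using pv_smul (τ := τ) 0 0
    have := E_pv hτ a b
    rw [← ha, ← hb, e, map_zero, map_zero, E_self] at this
    exact hq (by exact_mod_cast this.symm)
  have o1 : ∀ i, |om n (Pi.single i 1)| ≤ 1 := fun i ↦ by
    have := hn1 0
    have := hn1 1
    have := hn1 2
    have := hn1 3
    rw [abs_le]
    fin_cases i <;> simp [om] <;> omega
  obtain ⟨j, hj⟩ : ∃ j, om n (Pi.single j 1) ≠ 0 := by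
    by_contra! h
    have a0 := h 0
    have a1 := h 1
    have a2 := h 2
    have a3 := h 3
    simp [om] at a0 a1 a2 a3
    exact n0 (by funext i; fin_cases i <;> simp [a0, a1, a2, a3])
  obtain ⟨i, hi⟩ := exists_y hτ (of_sy hY).1 hj za zb hq
  set μ : Fin 4 → ℤ := Pi.single j 1 with hμ
  set y : Fin 4 → ℤ := om n μ • Pi.single i 1 + (-om n (Pi.single i 1)) • μ with hy
  have s1 : ∀ (i : Fin 4) l, |(Pi.single i 1 : Fin 4 → ℤ) l| ≤ 1 := fun i l ↦ by
    rw [Pi.single_apply]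
    split_ifs <;> simp
  have y2 : ∀ l, |y l| ≤ 2 := fun l ↦ by
    have b1 := mul_le_mul (o1 j) (s1 i l) (abs_nonneg _) zero_le_one
    have b2 := mul_le_mul (o1 i) (s1 j l) (abs_nonneg _) zero_le_one
    rw [← abs_mul, abs_le] at b1 b2
    simp only [hy, Pi.add_apply, Pi.smul_apply, smul_eq_mul, abs_le]
    constructor <;> linarith
  have zy : om n y = 0 := by
    simp only [hy, om, Pi.add_apply, Pi.smul_apply, smul_eq_mul]
    ring
  have n7 : ∀ l, |n l| ≤ 7 := fun l ↦ by rcases hn1 l with h | h <;> simp [h]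
  have r2 : R ≤ R ^ 2 := by nlinarith
  have Hw := hH n n7
  have H0 := st_HERM.nonneg τ hτ (pv τ n)
  have g1 := Hw.trans r2
  have g2 := (hH μ fun l ↦ (s1 j l).trans (by norm_num)).trans r2
  have g3 := (hH y fun l ↦ (y2 l).trans (by norm_num)).trans r2
  have g4 : Hn τ (pv τ a) ≤ R ^ 2 := by rw [← ha, h1.hn, pow_two]; gcongr
  have g5 : Hn τ (pv τ b) ≤ R ^ 2 := by rw [← hb, h2.hn, pow_two]; gcongr
  have cr := congrArg (pv τ) (cramer n μ a b y)
  have z1 : Pf n y a b = 0 := by simp [Pf, zy, za, zb]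
  have z2 : Pf n μ a b = om n μ * om a b := by simp [Pf, za, zb]
  have d0 : Pf n μ a b ≠ 0 := z2 ▸ mul_ne_zero hj hq
  have d0' : (Pf n μ a b : ℂ) ≠ 0 := by exact_mod_cast d0
  have r4 : (1 : ℝ) ≤ R ^ 2 := one_le_pow₀ hR
  have db : |(Pf n μ a b : ℝ)| ≤ R ^ 4 := by
    have b1 := E_le hτ g4 g5
    have b2 : |(om n μ : ℝ)| ≤ 1 := by exact_mod_cast o1 j
    rw [E_pv hτ] at b1
    rw [z2, Int.cast_mul, abs_mul]
    nlinarith [abs_nonneg (om a b : ℝ), abs_nonneg (om n μ : ℝ)]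
  have p0 := Pf_le hτ g3 g2 g4 g5
  have p1 := Pf_le hτ g1 g2 g3 g5
  have p2 := Pf_le hτ g1 g2 g4 g3
  rw [z1, pv_add, pv_add, pv_add, pv_smul, pv_smul, pv_smul, pv_smul, pv_smul, ← ha, ← hb] at cr
  generalize Pf n μ a b = d at *
  generalize Pf y μ a b = a₀ at *
  generalize Pf n μ y b = a₁ at *
  generalize Pf n μ a y = a₂ at *
  have r5 : (0 : ℝ) ≤ R ^ 4 := by positivity
  have ey : pv τ y = ((a₀ / d : ℝ) : ℂ) • pv τ n +
      (((a₁ / d : ℝ) : ℂ) • M₁ + ((a₂ / d : ℝ) : ℂ) • M₂) (pv τ n) := by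
    apply smul_right_injective V2 d0'
    simp only [cr, LinearMap.add_apply, LinearMap.smul_apply]
    push_cast
    match_scalars <;> field_simp
  refine core hτ (((of_sy h1).smul (a₁ / d)).add ((of_sy h2).smul (a₂ / d))) hY
    (fun t ht ↦ hi (a₀ / d) t (by rw [ey, ht]; rfl)) hs (a₀ / d) fun k hk hb ↦
    hO n (y + (-k : ℤ) • n) d (a₀ - k * d) a₁ a₂ _ n0 n7 (fun l ↦ ?_) d0 (by linarith) ?_
      (by nlinarith) (by nlinarith) (fun u ↦ ?_) hb ?_
  · have b1 := abs_le.1 (y2 l)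
    rw [Pi.add_apply, Pi.smul_apply, smul_eq_mul, abs_le]
    rcases hn1 l with h | h <;> rw [h] <;> omega
  · have b1 : (k : ℝ) ≤ 5 := by exact_mod_cast hk
    push_cast
    refine (abs_sub _ _).trans ?_
    rw [abs_mul, Nat.abs_cast]
    nlinarith [abs_nonneg (d : ℝ)]
  · simp only [LinearMap.add_apply, LinearMap.smul_apply, LinearMap.id_apply]
    push_cast
    match_scalars <;> field_simp
  · rw [pv_add, pv_smul, ey]
    simp only [LinearMap.add_apply, LinearMap.smul_apply, LinearMap.id_apply]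
    push_cast
    module

end Pool.Agent.Lib.ECM.QM
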