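import Pool.Agent.Lib.QM.PEBlue
import Pool.Agent.Lib.ECM.TH_BAS
import Pool.Agent.Lib.ECM.TH_HERM

/-! Self adjoint endomorphisms of the polarised torus. -/

open Complex
open scoped ComplexConjugate

noncomputable section

namespace Pool.Agent.Lib.ECM.QM

namespace ALG

open MSINV

variable {τ : T3} {X Y : V2 →ₗ[ℂ] V2}

/-! ### the alternating form -/

theorem E_eq (τ : T3) (x y : V2) : Ef τ x y = ((τ 2).im * (x 0 * conj (y 0)).im -
    (τ 1).im * ((x 0 * conj (y 1)).im + (x 1 * conj (y 0)).im) +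
      (τ 0).im * (x 1 * conj (y 1)).im) / dY τ := by
  simp only [Ef, Hn, Pi.add_apply, Pi.sub_apply, Pi.smul_apply, smul_eq_mul, normSq_apply, add_re,
    add_im, sub_re, sub_im, mul_re, mul_im, I_re, I_im, conj_re, conj_im]
  ring

theorem E_swap (x y : V2) : Ef τ x y = -Ef τ y x := by
  simp only [E_eq, mul_im, conj_re, conj_im]
  ring

theorem E_self (x : V2) : Ef τ x x = 0 := by
  have := E_swap (τ := τ) x x
  linarith

theorem E_add (x y z : V2) : Ef τ (x + y) z = Ef τ x z + Ef τ y z := by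
  simp only [E_eq, Pi.add_apply, add_mul, add_im]
  ring

theorem E_smul (r : ℝ) (x y : V2) : Ef τ ((r : ℂ) • x) y = r * Ef τ x y := by
  simp only [E_eq, Pi.smul_apply, smul_eq_mul, mul_assoc, im_ofReal_mul]
  ring

theorem E_add' (x y z : V2) : Ef τ x (y + z) = Ef τ x y + Ef τ x z := by
  rw [E_swap, E_add, E_swap y, E_swap z]
  ring

theorem E_smul' (r : ℝ) (x y : V2) : Ef τ x ((r : ℂ) • y) = r * Ef τ x y := by
  rw [E_swap, E_smul, E_swap y]
  ring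

theorem E_c (c : ℂ) (x : V2) : Ef τ (c • x) x = c.im * Hn τ x := by
  simp only [E_eq, Hn, Pi.smul_apply, smul_eq_mul, normSq_apply, mul_re, mul_im, conj_re, conj_im]
  ring

theorem E_le (hτ : τ ∈ H2) {x y : V2} {B : ℝ} (hx : Hn τ x ≤ B) (hy : Hn τ y ≤ B) :
    |Ef τ x y| ≤ B := by
  have h1 := st_HERM.nonneg τ hτ (x + I • y)
  have h2 := st_HERM.nonneg τ hτ (x - I • y)
  have h3 : Hn τ (x + I • y) + Hn τ (x - I • y) = 2 * Hn τ x + 2 * Hn τ y := by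
    simp only [Hn, Pi.add_apply, Pi.sub_apply, Pi.smul_apply, smul_eq_mul, normSq_apply, add_re,
      add_im, sub_re, sub_im, mul_re, mul_im, I_re, I_im, conj_re, conj_im]
    ring
  rw [Ef, abs_le]
  constructor <;> linarith

/-- the alternating form in integral coordinates -/
def om (k l : Fin 4 → ℤ) : ℤ := k 2 * l 0 + k 3 * l 1 - k 0 * l 2 - k 1 * l 3

theorem E_pv (hτ : τ ∈ H2) (k l : Fin 4 → ℤ) : Ef τ (pv τ k) (pv τ l) = om k l := Ef_pv hτ k l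

theorem pv_add (k l : Fin 4 → ℤ) : pv τ (k + l) = pv τ k + pv τ l := by
  funext i
  fin_cases i
  · simp [pv0]
    ring
  · simp [pv1]
    ring

theorem pv_smul (c : ℤ) (k : Fin 4 → ℤ) : pv τ (c • k) = (c : ℂ) • pv τ k := by
  funext i
  fin_cases i
  · simp [pv0]
    ring
  · simp [pv1]
    ring

theorem pv_e0 : pv τ ![1, 0, 0, 0] = ![1, 0] := by
  funext i
  fin_cases i <;> simp [pv0, pv1]

theorem pv_e1 : pv τ ![0, 1, 0, 0] = ![0, 1] := by
  funext i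
  fin_cases i <;> simp [pv0, pv1]

theorem pv_dec (k : Fin 4 → ℤ) : pv τ k = (k 0 : ℂ) • pv τ ![1, 0, 0, 0] +
    (k 1 : ℂ) • pv τ ![0, 1, 0, 0] + (k 2 : ℂ) • pv τ ![0, 0, 1, 0] +
      (k 3 : ℂ) • pv τ ![0, 0, 0, 1] := by
  simp only [← pv_smul, ← pv_add]
  congr 1
  funext i
  fin_cases i <;> simp

theorem ext2 (h0 : X ![1, 0] = Y ![1, 0]) (h1 : X ![0, 1] = Y ![0, 1]) (u : V2) : X u = Y u := by
  funext i
  rw [lin_apply X, lin_apply Y, h0, h1]

theorem e0_ne : (![1, 0] : V2) ≠ 0 := fun h ↦ by simpa using congrFun h 0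

/-! ### self adjoint maps -/

/-- self adjoint -/
def SA (τ : T3) (X : V2 →ₗ[ℂ] V2) : Prop := ∀ u v, Ef τ (X u) v = Ef τ u (X v)

/-- self adjoint of trace zero -/
def ST (τ : T3) (X : V2 →ₗ[ℂ] V2) : Prop := SA τ X ∧ LinearMap.trace ℂ V2 X = 0

theorem tr_eq (X : V2 →ₗ[ℂ] V2) : LinearMap.trace ℂ V2 X = X ![1, 0] 0 + X ![0, 1] 1 := by
  rw [LinearMap.trace_eq_matrix_trace ℂ (Pi.basisFun ℂ (Fin 2)), Matrix.trace_fin_two,
    LinearMap.toMatrix_apply, LinearMap.toMatrix_apply]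
  have e0 : (Pi.single 0 1 : V2) = ![1, 0] := by funext i; fin_cases i <;> simp
  have e1 : (Pi.single 1 1 : V2) = ![0, 1] := by funext i; fin_cases i <;> simp
  simp [e0, e1]

theorem SA.zero (h : SA τ X) (u : V2) : Ef τ u (X u) = 0 := by
  have h1 := h u u
  have h2 := E_swap (τ := τ) u (X u)
  linarith

theorem SA.shift (h : SA τ X) (a : ℝ) : SA τ ((a : ℂ) • LinearMap.id + X) := fun u v ↦ by
  simp only [LinearMap.add_apply, LinearMap.smul_apply, LinearMap.id_apply, E_add, E_add', E_smul,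
    E_smul', h u v]

theorem ST.smul (h : ST τ X) (a : ℝ) : ST τ ((a : ℂ) • X) :=
  ⟨fun u v ↦ by simp only [LinearMap.smul_apply, E_smul, E_smul', h.1 u v], by simp [h.2]⟩

theorem ST.add (h : ST τ X) (h' : ST τ Y) : ST τ (X + Y) :=
  ⟨fun u v ↦ by simp only [LinearMap.add_apply, E_add, E_add', h.1 u v, h'.1 u v],
    by simp [h.2, h'.2]⟩

theorem of_sy {D : ℕ} (h : Sy τ X D) : ST τ X := by
  refine ⟨fun u v ↦ ?_, h.tr⟩
  have h1 : ∀ x y, Ef τ (X x) (X y) = D * Ef τ x y := fun x y ↦ by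
    simp only [Ef, ← map_smul, ← map_add, ← map_sub, h.hn]
    ring
  have h2 := h1 (X u) v
  have h3 : (0 : ℝ) < D := by exact_mod_cast h.pos
  rw [h.sq, ← ofReal_natCast, E_smul] at h2
  exact (mul_left_cancel₀ h3.ne' h2).symm

theorem anti (hτ : τ ∈ H2) (hX : ST τ X) (hY : ST τ Y) :
    ∃ κ : ℝ, ∀ u, X (Y u) + Y (X u) = (κ : ℂ) • u := by
  have a1 := hX.2
  have a2 := hY.2
  rw [tr_eq] at a1 a2
  obtain ⟨κ, hκ⟩ : ∃ κ : ℂ, ∀ u, X (Y u) + Y (X u) = κ • u := by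
    refine ⟨2 * X ![1, 0] 0 * Y ![1, 0] 0 + X ![0, 1] 0 * Y ![1, 0] 1 + X ![1, 0] 1 * Y ![0, 1] 0,
      fun u ↦ funext fun i ↦ ?_⟩
    simp only [Pi.add_apply, Pi.smul_apply, smul_eq_mul, lin_apply X (Y u), lin_apply Y (X u),
      lin_apply X u, lin_apply Y u]
    have b1 : X ![0, 1] 1 = -X ![1, 0] 0 := by linear_combination a1
    have b2 : Y ![0, 1] 1 = -Y ![1, 0] 0 := by linear_combination a2
    fin_cases i
    · simp only [Fin.zero_eta, b1, b2]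
      ring
    · simp only [Fin.mk_one, b1, b2]
      ring
  have h1 := E_c (τ := τ) κ ![1, 0]
  rw [← hκ, E_add, hX.1, hY.1 (X _), E_swap (Y _)] at h1
  have h2 := st_HERM.pos τ hτ _ e0_ne
  have h3 : κ.im = 0 := (mul_eq_zero.1 (by linarith : κ.im * Hn τ ![1, 0] = 0)).resolve_right h2.ne'
  refine ⟨κ.re, fun u ↦ ?_⟩
  rw [hκ]
  congr 1
  exact Complex.ext rfl (by simpa using h3)

theorem hn_sq (hX : SA τ X) {D : ℝ} (h : ∀ u, X (X u) = (D : ℂ) • u) (u : V2) :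
    Hn τ (X u) = D * Hn τ u := by
  have h1 := E_c (τ := τ) I (X u)
  have h2 := E_c (τ := τ) I u
  rw [← map_smul, hX, h, E_smul', h2] at h1
  simpa using h1.symm

theorem sq (hτ : τ ∈ H2) (hX : ST τ X) (h0 : X ≠ 0) :
    ∃ D : ℝ, 0 < D ∧ ∀ u, X (X u) = (D : ℂ) • u := by
  obtain ⟨κ, hκ⟩ := anti hτ hX hX
  have h1 : ∀ u, X (X u) = ((κ / 2 : ℝ) : ℂ) • u := fun u ↦ by
    push_cast
    linear_combination (norm := module) (1 / 2 : ℂ) • hκ u
  refine ⟨κ / 2, ?_, h1⟩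
  obtain ⟨u, hu⟩ : ∃ u, X u ≠ 0 := by
    by_contra! h
    exact h0 (LinearMap.ext h)
  have h2 := st_HERM.pos τ hτ _ hu
  rw [hn_sq hX.1 h1] at h2
  exact pos_of_mul_pos_left h2 (st_HERM.nonneg τ hτ u)

theorem kill (hτ : τ ∈ H2) (hX : ST τ X) {v : V2} (hv : v ≠ 0) (h : X v = 0) : X = 0 := by
  by_contra h0
  obtain ⟨D, hD, h1⟩ := sq hτ hX h0
  have h2 := h1 v
  rw [h, map_zero] at h2
  exact smul_ne_zero (by exact_mod_cast hD.ne') hv h2.symm

theorem real_of (hτ : τ ∈ H2) (hX : ST τ X) {D : ℕ} (hY : Sy τ Y D) {c : ℂ} (h : X = c • Y) :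
    ∃ t : ℝ, X = (t : ℂ) • Y := by
  by_cases h0 : X = 0
  · exact ⟨0, by simp [h0]⟩
  obtain ⟨D', hD, h1⟩ := sq hτ hX h0
  have h2 := congrFun (h1 ![1, 0]) 0
  rw [h, LinearMap.smul_apply, LinearMap.smul_apply, map_smul, hY.sq] at h2
  have h3 : c * c * D = D' := by simpa [mul_assoc] using h2
  have h4 := congrArg re h3
  have h5 := congrArg im h3
  have h6 : (0 : ℝ) < D := by exact_mod_cast hY.pos
  simp only [mul_re, mul_im, natCast_re, natCast_im, ofReal_re, ofReal_im] at h4 h5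
  have h7 : c.im = 0 := by
    by_contra h7
    have h8 : c.re = 0 := by
      have : c.re * (c.im * D) = 0 := by linarith
      exact (mul_eq_zero.1 this).resolve_right (mul_ne_zero h7 h6.ne')
    rw [h8] at h4
    nlinarith [mul_self_nonneg c.im]
  exact ⟨c.re, h.trans (by congr 1; exact Complex.ext rfl (by simpa using h7))⟩

theorem mk_sy (hτ : τ ∈ H2) (hX : ST τ X) {D : ℝ} (hD : 0 < D) (h : ∀ u, X (X u) = (D : ℂ) • u)
    (hl : ∀ z ∈ Lat τ, X z ∈ Lat τ) : ∃ N : ℕ, (N : ℝ) = D ∧ Sy τ X N := by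
  obtain ⟨k, hk⟩ := exists_pv (hl _ (hl _ (pv_mem τ ![0, 0, 1, 0])))
  have h1 := E_pv hτ k ![1, 0, 0, 0]
  rw [← hk, h, E_smul, E_pv hτ] at h1
  have h2 : D = om k ![1, 0, 0, 0] := by simpa [om] using h1
  obtain ⟨N, hN⟩ := Int.eq_ofNat_of_zero_le (show 0 ≤ om k ![1, 0, 0, 0] by
    exact_mod_cast h2 ▸ hD.le)
  have h3 : (N : ℝ) = D := by rw [h2, hN]; rfl
  refine ⟨N, h3, by exact_mod_cast h3 ▸ hD, hl, hX.2, fun z ↦ ?_, fun z ↦ ?_⟩
  · rw [h, ← h3, ofReal_natCast]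
  · rw [hn_sq hX.1 h, h3]

/-- the quadratic equation of a self adjoint endomorphism has integral coefficients -/
theorem pf (hτ : τ ∈ H2) (hX : SA τ X) (hl : ∀ z ∈ Lat τ, X z ∈ Lat τ) :
    ∃ s p : ℤ, ∀ u, X (X u) + (p : ℂ) • u = (s : ℂ) • X u := by
  obtain ⟨a, ha⟩ := exists_pv (hl _ (pv_mem τ ![1, 0, 0, 0]))
  obtain ⟨b, hb⟩ := exists_pv (hl _ (pv_mem τ ![0, 1, 0, 0]))
  obtain ⟨c, hc⟩ := exists_pv (hl _ (pv_mem τ ![0, 0, 1, 0]))
  obtain ⟨d, hd⟩ := exists_pv (hl _ (pv_mem τ ![0, 0, 0, 1]))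
  have key : ∀ k l k' l', X (pv τ k) = pv τ k' → X (pv τ l) = pv τ l' → om k' l = om k l' := by
    intro k l k' l' h1 h2
    have := hX (pv τ k) (pv τ l)
    rw [h1, h2, E_pv hτ, E_pv hτ] at this
    exact_mod_cast this
  have r1 := key _ _ _ _ ha ha
  have r2 := key _ _ _ _ ha hb
  have r3 := key _ _ _ _ ha hc
  have r4 := key _ _ _ _ ha hd
  have r5 := key _ _ _ _ hb hb
  have r6 := key _ _ _ _ hb hc
  have r7 := key _ _ _ _ hb hd
  have r8 := key _ _ _ _ hc hc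
  have r9 := key _ _ _ _ hc hd
  have r0 := key _ _ _ _ hd hd
  simp [om] at r1 r2 r3 r4 r5 r6 r7 r8 r9 r0
  have hm : ∀ k, X (pv τ k) = pv τ (k 0 • a + k 1 • b + k 2 • c + k 3 • d) := fun k ↦ by
    rw [pv_dec k]
    simp only [map_add, map_smul, ha, hb, hc, hd, pv_smul, pv_add]
  have t1 : a 2 = 0 := by omega
  have t2 : b 2 = -a 3 := by omega
  have t5 : b 3 = 0 := by omega
  have t8 : c 0 = 0 := by omega
  have t9 : d 0 = -c 1 := by omega
  have t0 : d 1 = 0 := by omega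
  refine ⟨a 0 + b 1, a 0 * b 1 - a 1 * b 0 + a 3 * c 1, fun u ↦
    ext2 (X := X ∘ₗ X + ((a 0 * b 1 - a 1 * b 0 + a 3 * c 1 : ℤ) : ℂ) • LinearMap.id)
      (Y := ((a 0 + b 1 : ℤ) : ℂ) • X) ?_ ?_ u⟩
  · simp only [LinearMap.add_apply, LinearMap.comp_apply, LinearMap.smul_apply, LinearMap.id_apply]
    rw [← pv_e0 (τ := τ), ha, hm a, ← pv_smul, ← pv_smul, ← pv_add]
    congr 1
    funext i
    fin_cases i <;> simp [t1, t2, t5, t8, t9, t0, ← r3, ← r4, ← r6, ← r7] <;> ring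
  · simp only [LinearMap.add_apply, LinearMap.comp_apply, LinearMap.smul_apply, LinearMap.id_apply]
    rw [← pv_e1 (τ := τ), hb, hm b, ← pv_smul, ← pv_smul, ← pv_add]
    congr 1
    funext i
    fin_cases i <;> simp [t1, t2, t5, t8, t9, t0, ← r3, ← r4, ← r6, ← r7] <;> ring

theorem pf2 (hτ : τ ∈ H2) (hX : ST τ X) {D : ℝ} (hD : D ≠ 0) (h : ∀ u, X (X u) = (D : ℂ) • u)
    (a : ℝ) (hl : ∀ z ∈ Lat τ, (a : ℂ) • z + X z ∈ Lat τ) :
    ∃ s p : ℤ, (s : ℝ) = 2 * a ∧ (p : ℝ) = a ^ 2 - D := by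
  obtain ⟨s, p, h1⟩ := pf hτ (hX.1.shift a) hl
  simp only [LinearMap.add_apply, LinearMap.smul_apply, LinearMap.id_apply, map_add, map_smul,
    h] at h1
  have h2 : ∀ u, ((2 * a - s : ℂ)) • X u = (s * a - a ^ 2 - D - p : ℂ) • u := fun u ↦ by
    linear_combination (norm := module) h1 u
  have a1 := hX.2
  rw [tr_eq] at a1
  have b0 := congrFun (h2 ![1, 0]) 0
  have b1 := congrFun (h2 ![0, 1]) 1
  simp only [Pi.smul_apply, smul_eq_mul, Matrix.cons_val_zero, Matrix.cons_val_one, mul_one] at b0 b1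
  have h3 : (s * a - a ^ 2 - D - p : ℂ) = 0 := by
    linear_combination (-1 / 2 : ℂ) * (b0 + b1) + (2 * a - s : ℂ) / 2 * a1
  have h4 := h2 (X ![1, 0])
  rw [h3, zero_smul, h, smul_smul] at h4
  have h5 : (2 * a - s : ℂ) = 0 := ((mul_eq_zero.1 ((smul_eq_zero.1 h4).resolve_right
    e0_ne)).resolve_right (by exact_mod_cast hD))
  have h6 : (2 * a - s : ℝ) = 0 := by exact_mod_cast h5
  have h7 : (s * a - a ^ 2 - D - p : ℝ) = 0 := by exact_mod_cast h3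
  exact ⟨s, p, by linarith, by linear_combination -h7 - a * h6⟩

end ALG

end Pool.Agent.Lib.ECM.QM
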