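import Pool.Agent.Lib.QM.PEBlue
import Pool.Agent.Lib.ECM.PT_ARI

/-! Block ARI4: the auxiliary polynomial in four functions and the Liouville inequality. -/

open Filter Topology MvPolynomial

noncomputable section

namespace Pool.Agent.Lib.ECM.QM

namespace ARI4

lemma num1' {u : ℝ} {O n m : ℕ} (hu : 2 ≤ u) (hn : n ≤ u) (hm : m ≤ 16 * n) :
    (O * u) ^ 2 * m ≤ u ^ (2 * O + 7) := by
  have h1 : (O : ℝ) ≤ 2 ^ O := by exact_mod_cast Nat.lt_two_pow_self.le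
  have h2 : (m : ℝ) ≤ 2 ^ 4 * n := by exact_mod_cast hm
  calc _ ≤ (2 ^ O * u) ^ 2 * (2 ^ 4 * n) := by gcongr
    _ ≤ (u ^ O * u) ^ 2 * (u ^ 4 * u) := by gcongr
    _ = _ := by ring

lemma num2' {u : ℝ} {L n : ℕ} (hu : 2 ≤ u) (hn : n ≤ u) (hL : L ≤ n) (h1 : 1 ≤ n) :
    7 * (((L + 1) ^ 4 : ℕ) : ℝ) ^ 2 ≤ u ^ (19 * n) := by
  have h2 : (L : ℝ) + 1 ≤ 2 * n := by exact_mod_cast (by omega : L + 1 ≤ 2 * n)
  push_cast
  calc _ ≤ 2 ^ 3 * ((2 * n : ℝ) ^ 4) ^ 2 := by gcongr; norm_num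
    _ ≤ u ^ 3 * ((u * u) ^ 4) ^ 2 := by gcongr
    _ = u ^ 19 := by ring
    _ ≤ _ := pow_le_pow_right₀ (by linarith) (by omega)

lemma num4' {u D z : ℝ} {N n k P : ℕ} (hu : 1 ≤ u) (hD0 : 0 ≤ D) (hD : D ≤ u ^ N) (hz : 0 ≤ z)
    {C : ℝ} (hC0 : 0 ≤ C) (hC : C ≤ u ^ (19 * n)) (hP : 1 ≤ P)
    (h : 1 ≤ D ^ (12 * n) * z * (C * u ^ (k * n) * u ^ (k * n)) ^ P) :
    1 ≤ z * u ^ (n * ((12 * N + 2 * k + 19) * P)) :=
  calc _ ≤ _ := h
    _ ≤ (u ^ N) ^ (12 * n * P) * z * (u ^ (19 * n) * u ^ (k * n) * u ^ (k * n)) ^ P := by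
      gcongr
      exact (pow_le_pow_left₀ hD0 hD _).trans (pow_le_pow_right₀ (one_le_pow₀ hu)
        (Nat.le_mul_of_pos_right _ hP))
    _ = _ := by ring

end ARI4

open ARI4 PT PT.ARI Pool.Agent.Lib.ZP3

theorem st_ARI4 : St_ARI4 := by
  intro ι _
  classical
  set N := Fintype.card (J ι)
  set O := Fintype.card (Option ι)
  set k := 12 * N + 4 * O + 22 with hk
  refine ⟨12 * N + 2 * k + 19 + N + 1, ?_⟩
  intro A n L T0 T2 x q1 q2 i hA hn hnA hL h0 h2 h4 hS hx hq1 hq2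
  let e : J ι → ℂ := Sum.elim (x 0) (Sum.elim (fun t ↦ q1 t.1 t.2.1 t.2.2)
    fun t ↦ q2 t.1 t.2.1 t.2.2)
  have he : ∀ t, Sm (e t) A := by
    rintro (j | t | t)
    exacts [hx j, hq1 _ _ _, hq2 _ _ _]
  obtain ⟨D, hD0, hD, hDi⟩ := denom he
  have hu : 2 ≤ Real.exp A := by
    have : (2 : ℝ) ≤ A := by exact_mod_cast hA
    linarith [Real.add_one_le_exp (A : ℝ)]
  have hu1 : 1 ≤ Real.exp A := by linarith
  have hP : 1 ≤ A ^ N := Nat.one_le_pow _ _ (by omega)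
  let mon : (Fin 4 → Fin (L + 1)) → MvPolynomial ι ℂ := fun l ↦
    C 1 * X (i 0) ^ (2 * l 0 : ℕ) * X (i 1) ^ (2 * l 1 : ℕ) * X (i 2) ^ (2 * l 2 : ℕ) *
      X (i 3) ^ (2 * l 3 : ℕ)
  have hdeg : ∀ l : Fin 4 → Fin (L + 1), 2 * l 0 + 2 * l 1 + 2 * l 2 + 2 * (l 3 : ℕ) ≤ 8 * n :=
    fun l ↦ by
    have h0 := (l 0).2
    have h1 := (l 1).2
    have h2 := (l 2).2
    have h3 := (l 3).2
    omega
  have hmon : ∀ l, Bd (Real.exp A) (8 * n) (Real.exp A ^ (8 * n)) (mon l) := fun l ↦ by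
    refine (((((Bd.const 1).mul_pow _ _).mul_pow _ _).mul_pow _ _).mul_pow _ _).mono
      (by simpa using hdeg l) ?_
    rw [norm_one, one_mul, ← pow_add, ← pow_add, ← pow_add]
    exact pow_le_pow_right₀ hu1 (hdeg l)
  have hIP : ∀ l, (D : ℂ) ^ (2 * l 0 + 2 * l 1 + 2 * l 2 + 2 * l 3 : ℕ) • mon l ∈ IP ι D :=
    fun l ↦ by
    have e1 : (D : ℂ) ^ (2 * l 0 + 2 * l 1 + 2 * l 2 + 2 * l 3 : ℕ) • mon l =
        ((D : ℂ) • X (i 0)) ^ (2 * l 0 : ℕ) * ((D : ℂ) • X (i 1)) ^ (2 * l 1 : ℕ) *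
          ((D : ℂ) • X (i 2)) ^ (2 * l 2 : ℕ) * ((D : ℂ) • X (i 3)) ^ (2 * l 3 : ℕ) := by
      simp only [mon, smul_eq_C_mul, map_pow, map_one]; ring
    rw [e1]
    exact mul_mem (mul_mem (mul_mem (pow_mem (X_mem _ _) _) (pow_mem (X_mem _ _) _))
      (pow_mem (X_mem _ _) _)) (pow_mem (X_mem _ _) _)
  have hcard : Fintype.card (Fin 4 → Fin (L + 1)) = (L + 1) ^ 4 := by simp
  obtain ⟨p, hp0, hp1, hp2, hp3⟩ := siegel (n := n) (T0 := T0) (T2 := T2)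
    (E0 := Real.exp A ^ (k * n)) (fun t ↦ (he t).deg)
    (fun e' a b l ↦ (D : ℂ) ^ (12 * n) * Gm e' a b (mon l)) (one_le_pow₀ hu1)
    (fun σ a b l ↦ by rw [map_mul, Gm_conj]; simp [mon])
    (fun a b l hab ↦ Gm_int hDi (hIP l) (by have := hdeg l; omega))
    (fun σ a b l hab ↦ by
      have h1 := Gm_bd hu1 (fun t ↦ ((he t).conj σ).norm_le) (hmon l) a b
        (num1' hu hnA (by omega))
      rw [norm_mul, norm_pow, Complex.norm_natCast]
      calc _ ≤ (Real.exp A ^ N) ^ (12 * n) * ((Real.exp A ^ (2 * O + 7)) ^ (2 * n) *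
            Real.exp A ^ (8 * n)) :=
          mul_le_mul (pow_le_pow_left₀ (Nat.cast_nonneg _) hD _) (h1.trans
            (mul_le_mul_of_nonneg_right (pow_le_pow_right₀ (one_le_pow₀ hu1) hab)
              (pow_nonneg (Real.exp_nonneg _) _))) (norm_nonneg _)
                (pow_nonneg (pow_nonneg (Real.exp_nonneg _) _) _)
        _ = _ := by rw [hk]; ring) h0 h2 (by rw [hcard]; exact Nat.pow_pos L.succ_pos) (by
      rw [hcard]
      exact le_trans (Nat.mul_le_mul_left _ (Nat.mul_le_mul_right _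
        (Nat.pow_le_pow_right (by omega) (by omega)))) h4)
  rw [hcard] at hp1 hp3
  have hC := num2' hu hnA hL hn
  let ν : (Fin 4 → Fin (L + 1)) → Fin 4 →₀ ℕ := fun l ↦
    Finsupp.equivFunOnFinite.symm fun i ↦ (l i : ℕ)
  have hν : Function.Injective ν := fun l l' h ↦ funext fun i ↦
    Fin.ext (congrFun (Finsupp.equivFunOnFinite.symm.injective h) i)
  let F : MvPolynomial (Fin 4) ℂ := ∑ l, monomial (ν l) (p l : ℂ)
  have hco : ∀ l, F.coeff (ν l) = p l := fun l ↦ by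
    simp only [F, coeff_sum, coeff_monomial, hν.eq_iff]
    simp
  have hsup : F.support ⊆ Finset.univ.image ν := fun m hm ↦ by
    obtain ⟨l, -, hl⟩ := Finset.mem_biUnion.1 (support_sum hm)
    rw [Finset.mem_singleton.1 (support_monomial_subset hl)]
    exact Finset.mem_image_of_mem _ (Finset.mem_univ l)
  have hF : ∀ y : ι → ℂ, eval (fun j ↦ y (i j) ^ 2) F = eval y (∑ l, (p l : ℂ) • mon l) :=
    fun y ↦ by
    rw [map_sum, map_sum]
    refine Finset.sum_congr rfl fun l _ ↦ ?_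
    rw [eval_monomial, Finsupp.prod_fintype _ _ (by simp), Fin.prod_univ_four, smul_eval]
    simp [mon, ν, pow_mul]
  have hI : ∀ a b, ∑ l, p l * ((D : ℂ) ^ (12 * n) * Gm e a b (mon l)) =
      (D : ℂ) ^ (12 * n) * I2 (fun z ↦ eval (fun j ↦ x z (i j) ^ 2) F) a b := fun a b ↦ by
    simp only [hF]
    rw [I2_eval hS, map_sum, map_sum, map_sum, Finset.mul_sum]
    refine Finset.sum_congr rfl fun l _ ↦ ?_
    rw [map_smul, map_smul, smul_eval, mul_left_comm]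
    rfl
  have hD1 : (D : ℂ) ^ (12 * n) ≠ 0 := pow_ne_zero _ (by exact_mod_cast hD0.ne')
  refine ⟨F, fun h ↦ hp0 (funext fun l ↦ ?_), fun j ↦ degreeOf_le_iff.2 fun m hm ↦ ?_, ?_,
    fun a ha b hb ↦ ?_, fun a b hab hne ↦ ?_⟩
  · have := hco l
    rw [h, coeff_zero] at this
    exact_mod_cast this.symm
  · obtain ⟨l, -, rfl⟩ := Finset.mem_image.1 (hsup hm)
    exact Nat.lt_succ_iff.1 (l j).2
  · refine (Finset.sum_le_sum_of_subset_of_nonneg hsup fun _ _ _ ↦ norm_nonneg _).trans ?_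
    rw [Finset.sum_image fun _ _ _ _ h ↦ hν h]
    simp only [hco]
    refine hp1.trans ((mul_le_mul_of_nonneg_right hC (pow_nonneg (Real.exp_nonneg _) _)).trans ?_)
    rw [← pow_add]
    refine num3 hA (le_trans ?_ (Nat.mul_le_mul_left n (Nat.le_mul_of_pos_right _ hP)))
    rw [← add_mul, mul_comm]
    exact Nat.mul_le_mul_left n (by omega)
  · have := hp2 a ha b hb
    rw [hI] at this
    exact (mul_eq_zero.1 this).resolve_left hD1
  · have := hp3 a b (by omega) (by rw [hI]; exact mul_ne_zero hD1 hne)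
    rw [hI, norm_mul, norm_pow, Complex.norm_natCast] at this
    have h5 := (num4' hu1 (Nat.cast_nonneg D) hD (norm_nonneg _)
      (mul_nonneg (by norm_num) (sq_nonneg _)) hC hP this).trans
      (mul_le_mul_of_nonneg_left (num3 hA le_rfl) (norm_nonneg _))
    rw [Real.exp_neg, inv_eq_one_div, div_le_iff₀ (Real.exp_pos _)]
    exact h5

end Pool.Agent.Lib.ECM.QM
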