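import Pool.Agent.Lib.QM.PEBlue
import Pool.Agent.Lib.ECM.PT_PTH
import Pool.Agent.Lib.ECM.TH_All

/-! The auxiliary function on the graph of a linear map. -/

open Complex
open scoped Real

namespace Pool.Agent.Lib.ECM.QM

open Pool.Agent.Lib.ZP3 (Sm)
open PT (I2 Jet Sys Mlt)

namespace PAUX

lemma sq_one (m : Ch) (μ ν : ℤ × ℤ) :
    exp (2 * π * I * (dot (ca m) (iv μ) - dot (cb m) (iv ν))) ^ 2 = 1 := by
  rw [← Complex.exp_nat_mul, ← Complex.exp_int_mul_two_pi_mul_I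
    (m.1.val * μ.1 + m.2.1.val * μ.2 - m.2.2.1.val * ν.1 - m.2.2.2.val * ν.2)]
  congr 1
  simp [dot, ca, cb, iv]
  ring

lemma sq_per (m : Ch) (τ : T3) (z : V2) {l : V2} (hl : l ∈ Lat τ) :
    (th m τ (z + l) / th 0 τ (z + l)) ^ 2 = (th m τ z / th 0 τ z) ^ 2 := by
  obtain ⟨μ, ν, rfl⟩ := hl
  simp only [th_BAS.th_per, div_pow, mul_pow, sq_one, one_mul]
  exact mul_div_mul_left _ _ (pow_ne_zero _ (Complex.exp_ne_zero _))

end PAUX

open PAUX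

theorem st_AUX (hE : St_ENG4) (hS : St_SYS4) (hM : St_MLT4) : St_AUX := by
  obtain ⟨k2, A0, hE⟩ := hE (Bool × Ch)
  obtain ⟨k1, hS⟩ := hS
  obtain ⟨c, hM⟩ := hM
  refine ⟨(k1 + 4) * k2, A0 + c + 4, fun A τ v₁ v₂ w b c₁ c₂ hA0 hτ hG sk s1 s2 s3 s4 hw l1 l2 n1 n2
    n3 n4 n5 n6 ↦ ?_⟩
  obtain ⟨B, eB⟩ : ∃ B, B = A0 + A ^ k1 + c * A ^ 2 + A := ⟨_, rfl⟩
  have ex : ∀ {x y : ℕ}, x ≤ y → Real.exp x ≤ Real.exp y := fun h ↦
    Real.exp_le_exp.2 (by exact_mod_cast h)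
  have hBA : B ≤ A ^ (k1 + 4) := by
    have e1 : A ^ k1 ≤ A ^ (k1 + 3) := Nat.pow_le_pow_right (by omega) (by omega)
    have e2 : A ^ 3 ≤ A ^ (k1 + 3) := Nat.pow_le_pow_right (by omega) (by omega)
    have e3 : A ^ 1 ≤ A ^ (k1 + 3) := Nat.pow_le_pow_right (by omega) (by omega)
    have e4 : c * A ^ 2 ≤ A ^ 3 := by
      rw [pow_succ' A 2]
      exact Nat.mul_le_mul_right _ (by omega)
    have e5 : 4 * A ^ (k1 + 3) ≤ A ^ (k1 + 4) := by
      rw [pow_succ' A (k1 + 3)]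
      exact Nat.mul_le_mul_right _ (by omega)
    rw [pow_one] at e3
    omega
  have hw' : b w = c₁ • b v₁ + c₂ • b v₂ := by rw [hw, map_add, map_smul, map_smul]
  obtain ⟨q1, q2, hs, hq1, hq2⟩ := hS A τ (fun i ↦ cond i (b v₁) v₁) (fun i ↦ cond i (b v₂) v₂)
    (by omega) (th_BAS.red hτ) hG sk (by rintro (_ | _); exacts [s1, s3])
    (by rintro (_ | _); exacts [s2, s4])
  have per : ∀ (z : ℂ × ℂ) (p : Bool × Ch),
      xs4 τ (fun i ↦ cond i (b v₁) v₁) (fun i ↦ cond i (b v₂) v₂) (z + (c₁, c₂)) p ^ 2 =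
        xs4 τ (fun i ↦ cond i (b v₁) v₁) (fun i ↦ cond i (b v₂) v₂) z p ^ 2 := by
    have e : ∀ (z : ℂ × ℂ) (x y : V2), (z + (c₁, c₂)).1 • x + (z + (c₁, c₂)).2 • y =
        z.1 • x + z.2 • y + (c₁ • x + c₂ • y) := fun z x y ↦ by
      simp only [Prod.fst_add, Prod.snd_add]
      module
    rintro z ⟨_ | _, m⟩
    · simp only [xs4, e, cond_false]
      exact sq_per m τ _ (hw ▸ l1)
    · simp only [xs4, e, cond_true]
      exact sq_per m τ _ (hw' ▸ l2)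
  have mlt : ∀ (p : Bool × Ch) S, 1 ≤ S → Mlt (fun z ↦ xs4 τ (fun i ↦ cond i (b v₁) v₁)
      (fun i ↦ cond i (b v₂) v₂) (c₁ * z.1, c₂ * z.1 + z.2) p) B S := by
    have e : ∀ (z : ℂ × ℂ) (x y : V2), (c₁ * z.1) • x + (c₂ * z.1 + z.2) • y =
        z.1 • (c₁ • x + c₂ • y) + z.2 • y := fun z x y ↦ by module
    rintro ⟨_ | _, m⟩ S h1
    · simp only [xs4, e, cond_false, ← hw]
      exact PT.FIN.mlt_mono (hM A S τ m w v₂ (by omega) h1 hτ n1 n5) (by omega)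
    · simp only [xs4, e, cond_true, ← hw']
      exact PT.FIN.mlt_mono (hM A S τ m (b w) (b v₂) (by omega) h1 hτ n2 n6) (by omega)
  obtain ⟨a, F, a1, a2, a3, a4, a5⟩ := hE B _ q1 q2
    ![(false, hA), (false, hB), (true, hA), (true, hB)] c₁ c₂ (by omega) hs
    (fun j ↦ by simpa [xs4, kk] using (sk j.2).mono (show A ≤ B by omega))
    (fun j a b ↦ (hq1 j a b).mono (by omega)) (fun j a b ↦ (hq2 j a b).mono (by omega))
    (le_trans (Real.exp_le_exp.2 (neg_le_neg (by exact_mod_cast (by omega : A ≤ B)))) n3)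
    (n4.trans (ex (by omega))) (fun z j ↦ per z _) fun j S ↦ mlt _ S
  refine ⟨a, F, by omega, a2.trans ?_, a3, a4, ?_⟩
  · rw [pow_mul]
    exact Nat.pow_le_pow_left hBA _
  · convert a5 using 4 with z
    ext j
    fin_cases j <;> simp [F4, xs4]

end Pool.Agent.Lib.ECM.QM
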