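import Pool.Agent.Lib.QM.PEBlue
import Pool.Agent.Lib.ECM.PT_ENG
import Pool.Agent.Lib.ECM.PT_JT

/-! Block ENG4: the auxiliary function with an exact period, for four functions. -/

open Filter Topology Complex

noncomputable section

namespace Pool.Agent.Lib.ECM.QM

open Pool.Agent.Lib.ZP3 PT

namespace ENG4

theorem an_eval4 (f : Fin 4 → ℂ × ℂ → ℂ) (hf : ∀ j, AnalyticAt ℂ (f j) 0)
    (F : MvPolynomial (Fin 4) ℂ) :
    AnalyticAt ℂ (fun z ↦ MvPolynomial.eval (fun j ↦ f j z ^ 2) F) 0 := by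
  induction F using MvPolynomial.induction_on with
  | C a => simpa using analyticAt_const
  | add p q hp hq => simpa using hp.fun_add hq
  | mul_X p j hp => simpa using hp.fun_mul ((hf j).fun_pow 2)

theorem final4 (A B a : ℝ) (hA : 2 ≤ A) (h1 : 16 * A ≤ a) (h2 : 2 * B ≤ a) :
    (2 * A + 1) * a ^ 42 + (A * a ^ 42 + (A * a ^ 42 + a ^ 42 + 16 * a ^ 20 * (A * (a ^ 7) ^ 3)) +
      (B * a ^ 42 - a ^ 7 * a ^ 37 / 2)) < -(B * a ^ 42) := by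
  have ha : 32 ≤ a := by linarith
  have hp : 0 < a ^ 41 := by positivity
  have e0 : a ^ 42 = a * a ^ 41 := by ring
  have e1 : 16 * a ^ 20 * (A * (a ^ 7) ^ 3) = 16 * A * a ^ 41 := by ring
  have e2 : a ^ 7 * a ^ 37 / 2 = a * a * a / 2 * a ^ 41 := by ring
  have h3 : (4 * A + 2 + 2 * B) * a ≤ (2 * a) * a := by nlinarith
  have h4 : 16 * (a * a) ≤ a * a * a / 2 := by nlinarith
  have h5 : (4 * A + 2 + 2 * B) * a + 16 * A < a * a * a / 2 := by nlinarith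
  have h6 := mul_lt_mul_of_pos_right h5 hp
  rw [e0, e1, e2]
  linarith

end ENG4

open XENG ENG4 in
theorem st_ENG4 (hARI : St_ARI4) (hEXT : St_EXT4) : St_ENG4 := by
  have hJT := st_JT
  intro ι _
  obtain ⟨c, hc⟩ := hARI ι
  obtain ⟨A1, hA1⟩ := big ((c + 20) * 42)
  refine ⟨c + 20, max A1 2, ?_⟩
  intro A x q1 q2 i c1 c2 hA hS h0 hq1 hq2 hc1 hc2 hper hM
  have hA2 : 2 ≤ A := (le_max_right _ _).trans hA
  obtain ⟨a, ha⟩ : ∃ a : ℕ, a = A ^ (c + 20) := ⟨_, rfl⟩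
  have hAc : 1 ≤ A ^ c := Nat.one_le_pow _ _ (by omega)
  have h19 : 2 ^ 19 ≤ A ^ 19 := Nat.pow_le_pow_left hA2 19
  have ea : a = A ^ c * (A ^ 19 * A) := by rw [ha]; ring
  have h20 : 2 ^ 19 * A ≤ A ^ 19 * A := Nat.mul_le_mul_right _ h19
  have ha1 : 2 ^ 19 * A ≤ a := by rw [ea]; exact h20.trans (Nat.le_mul_of_pos_left _ hAc)
  have ha2 : A ^ c * 2 ^ 19 ≤ a := by rw [ea]; exact Nat.mul_le_mul_left _ (by omega)
  have ha3 : 2 ^ 19 ≤ a := by omega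
  have hn : ((a ^ 42 : ℕ) : ℝ) ≤ Real.exp A := by
    have := hA1 A ((le_max_left _ _).trans hA)
    rw [ha, ← pow_mul]; exact_mod_cast this
  have p1 : 1 ≤ a ^ 37 := Nat.one_le_pow _ _ (by omega)
  have p2 : a ^ 37 ≤ a ^ 41 := Nat.pow_le_pow_right (by omega) (by norm_num)
  have p3 : 6 * a ^ 41 ≤ a ^ 42 := by
    rw [pow_succ a 41, mul_comm (a ^ 41)]; exact Nat.mul_le_mul_right _ (by omega)
  have p4 : a ^ 20 ≤ a ^ 37 := Nat.pow_le_pow_right (by omega) (by norm_num)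
  have p5 : 4 * (A ^ c * (a ^ 37 * (a ^ 37 + (4 * a ^ 41 + 1)))) ≤ (a ^ 20 + 1) ^ 4 := by
    have q1 : a ^ 37 + (4 * a ^ 41 + 1) ≤ 6 * a ^ 41 := by omega
    have q2 : 4 * (A ^ c * 6) ≤ a * a := by
      have : 4 * (A ^ c * 6) ≤ a := by omega
      exact this.trans (Nat.le_mul_of_pos_left _ (by omega))
    calc _ ≤ 4 * (A ^ c * (a ^ 37 * (6 * a ^ 41))) := by gcongr
      _ = 4 * (A ^ c * 6) * a ^ 78 := by ring
      _ ≤ a * a * a ^ 78 := Nat.mul_le_mul_right _ q2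
      _ = (a ^ 20) ^ 4 := by ring
      _ ≤ _ := Nat.pow_le_pow_left (Nat.le_succ _) 4
  obtain ⟨F, hF0, hFd, hFc, hFv, hFl⟩ := hc A (a ^ 42) (a ^ 20) (a ^ 37)
    (a ^ 37 + (4 * a ^ 41 + 1)) x q1 q2 i hA2 (by omega) hn (by omega) (by omega)
    (by omega) p5 hS h0 hq1 hq2
  refine ⟨a, F, by omega, ha.le, hF0, hFd, ?_⟩
  obtain ⟨Ψ, hΨ⟩ : ∃ Ψ : ℂ × ℂ → ℂ, Ψ = fun z ↦ MvPolynomial.eval (fun j ↦ x z (i j) ^ 2) F :=
    ⟨_, rfl⟩
  have hΨa : AnalyticAt ℂ Ψ 0 := hΨ ▸ an_eval4 (fun j z ↦ x z (i j)) (fun j ↦ (hS (i j)).1) F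
  have hc0 : c1 ≠ 0 := norm_pos_iff.1 ((Real.exp_pos _).trans_le hc1)
  have hΦa : AnalyticAt ℂ (fun q : ℂ × ℂ ↦ Ψ (c1 * q.1, c2 * q.1 + q.2)) 0 := by
    refine AnalyticAt.comp_of_eq (g := Ψ) hΨa (f := fun q : ℂ × ℂ ↦ (c1 * q.1, c2 * q.1 + q.2))
      ?_ (by simp [Prod.ext_iff])
    exact (analyticAt_const.fun_mul analyticAt_fst).prod
      ((analyticAt_const.fun_mul analyticAt_fst).fun_add analyticAt_snd)
  have hE := hEXT A (a ^ 20) (a ^ 37) (4 * a ^ 41 + 1) (a ^ 7)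
    (fun j z ↦ x (c1 * z.1, c2 * z.1 + z.2) (i j)) F _ (Nat.one_le_pow _ _ (by omega))
    (fun j ↦ hM j _ (Nat.one_le_pow _ _ (by omega)))
    (fun j s y ↦ by
      have := hper (c1 * s, c2 * s + y) j
      rw [← this]
      congr 2
      simp only [Prod.mk_add_mk, Prod.mk.injEq]
      constructor <;> ring) hFd hFc
    (fun k hk b hb ↦ by
      have := hJT.2.2.2 Ψ c1 c2 k b 0 hΨa (fun a' ha' ↦ by
        rw [hΨ, hFv a' (by omega) _ (by omega), norm_zero])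
      rw [mul_zero, hΨ] at this
      exact norm_le_zero_iff.1 this)
  rw [← hΨ] at hFl ⊢
  intro k b hkb
  by_contra hne
  have hlow := hFl k b (by omega) hne
  have hAR : (2 : ℝ) ≤ A := by exact_mod_cast hA2
  have hup := hJT.2.2.2 _ c1⁻¹ (-c2 * c1⁻¹) k b
    (Real.exp (A * (a ^ 42 : ℕ)) * Real.exp (A * (a ^ 42 : ℕ) + (a ^ 42 : ℕ) +
      16 * (a ^ 20 : ℕ) * (A * (a ^ 7 : ℕ) ^ 3)) *
      (Real.exp (A ^ c * (a ^ 42 : ℕ)) / Real.exp ((a ^ 7 * a ^ 37 : ℕ) / 2))) hΦa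
    (fun a' ha' ↦ by
      have h1 := hE a' (k + b - a') (by omega)
      rw [hΨ]
      refine h1.trans ?_
      have h2 : ((a' : ℝ) + (k + b - a' : ℕ)) ≤ (a ^ 42 : ℕ) := by
        exact_mod_cast (by omega : a' + (k + b - a') ≤ a ^ 42)
      have h3 : ((k + b - a' : ℕ) : ℝ) ≤ (a ^ 42 : ℕ) := by
        exact_mod_cast (by omega : k + b - a' ≤ a ^ 42)
      have h4 := fact_le a' (k + b - a') (a ^ 42) A (by omega) hn
      have h5 := two_pow (a ^ 7 * a ^ 37)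
      gcongr)
  have e : (fun q : ℂ × ℂ ↦ Ψ (c1 * (c1⁻¹ * q.1, -c2 * c1⁻¹ * q.1 + q.2).1,
      c2 * (c1⁻¹ * q.1, -c2 * c1⁻¹ * q.1 + q.2).1 + (c1⁻¹ * q.1, -c2 * c1⁻¹ * q.1 + q.2).2)) = Ψ := by
    funext q
    congr 1
    refine Prod.ext ?_ ?_
    · simp only; field_simp
    · simp only; ring
  rw [e] at hup
  have b1 : ‖c1⁻¹‖ ≤ Real.exp A := by
    rw [norm_inv]
    have := inv_anti₀ (Real.exp_pos _) hc1
    rwa [Real.exp_neg, inv_inv] at this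
  have b2 : ‖c1⁻¹‖ + ‖-c2 * c1⁻¹‖ ≤ Real.exp (2 * A + 1) := by
    have g1 : ‖-c2 * c1⁻¹‖ ≤ Real.exp A * Real.exp A := by
      rw [norm_mul, norm_neg]; gcongr
    have g2 : 1 ≤ Real.exp A := Real.one_le_exp (by positivity)
    have g3 : (2 : ℝ) ≤ Real.exp 1 := by have := Real.add_one_le_exp 1; linarith
    rw [two_mul, Real.exp_add, Real.exp_add]
    nlinarith
  have b3 : (‖c1⁻¹‖ + ‖-c2 * c1⁻¹‖) ^ k ≤ Real.exp ((2 * A + 1) * (a ^ 42 : ℕ)) := by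
    refine (pow_le_pow_left₀ (by positivity) b2 k).trans ?_
    rw [← Real.exp_nat_mul, mul_comm]
    have : (k : ℝ) ≤ (a ^ 42 : ℕ) := by exact_mod_cast (by omega : k ≤ a ^ 42)
    gcongr
  have hfin := hlow.trans (hup.trans (mul_le_mul_of_nonneg_right b3 (by positivity)))
  rw [← Real.exp_sub, ← Real.exp_add, ← Real.exp_add, ← Real.exp_add, Real.exp_le_exp] at hfin
  push_cast at hfin
  have r1 : 16 * (A : ℝ) ≤ a := by exact_mod_cast (by omega : 16 * A ≤ a)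
  have r2 : 2 * (A : ℝ) ^ c ≤ a := by exact_mod_cast (by omega : 2 * A ^ c ≤ a)
  exact absurd hfin (not_le.2 (final4 A (A ^ c) a hAR r1 r2))

end Pool.Agent.Lib.ECM.QM
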