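import Pool.Agent.Lib.QM.PEBlue

/-! Block EXT4: extrapolation along an exact period, for four functions. -/

open Filter Topology

namespace Pool.Agent.Lib.ECM.QM

open Pool.Agent.Lib.ZP3 PT

theorem st_EXT4 : St_EXT4 := by
  intro A L T0 T1 S f F BF _ hm hper hdeg hBF hvan k b hb
  choose bb hbig hsmall using hm
  have hBF0 : 0 ≤ BF := (Finset.sum_nonneg fun _ _ ↦ norm_nonneg _).trans hBF
  set M : ℝ := Real.exp (A * S ^ 3) with hM
  have hM0 : 0 < M := Real.exp_pos _
  have hr1 : Real.exp (-(A : ℝ)) ≤ 1 := Real.exp_le_one_iff.2 (by simp)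
  set Θ : ℂ × ℂ → ℂ := fun q ↦ ∏ i, (bb i q ^ 2) ^ L with hΘ
  set Φ : ℂ × ℂ → ℂ := fun q ↦ MvPolynomial.eval (fun j ↦ f j q ^ 2) F with hΦ
  have hL : ∀ m ∈ F.support, ∀ i, m i ≤ L := fun m hm i ↦
    (MvPolynomial.monomial_le_degreeOf i hm).trans (hdeg i)
  have hΘΦ : ∀ q, Θ q * Φ q = ∑ m ∈ F.support, F.coeff m *
      ∏ i, ((bb i q * f i q) ^ 2) ^ m i * (bb i q ^ 2) ^ (L - m i) := by
    intro q
    simp only [hΘ, hΦ]
    rw [MvPolynomial.eval_eq', Finset.mul_sum]
    refine Finset.sum_congr rfl fun m hm ↦ ?_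
    rw [mul_left_comm, ← Finset.prod_mul_distrib]
    congr 1
    refine Finset.prod_congr rfl fun i _ ↦ ?_
    have e2 : (bb i q ^ 2) ^ L = (bb i q ^ 2) ^ m i * (bb i q ^ 2) ^ (L - m i) := by
      rw [← pow_add, Nat.add_sub_cancel' (hL m hm i)]
    rw [e2]
    ring
  have hM3 : M ^ (8 * L) = ∏ _i : Fin 4, (M ^ 2) ^ L := by
    simp only [Finset.prod_const, Finset.card_univ, Fintype.card_fin, ← pow_mul]
    congr 1
    ring
  have sq : ∀ {w : ℂ} (n : ℕ), ‖w‖ ≤ M → ‖(w ^ 2) ^ n‖ ≤ (M ^ 2) ^ n := fun n h ↦ by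
    rw [norm_pow, norm_pow]
    gcongr
  have hcore := BAN.core (Θ := Θ) (Φ := Φ) (r := Real.exp (-A)) (r0 := Real.exp (-A))
    (M := M ^ (8 * L)) (BF := BF) (η := 0) (S := S) (T0 := T0) (T1 := T1) (Real.exp_pos _) hr1
    (Real.exp_pos _) hr1 (by positivity) hBF0 le_rfl ?_ ?_ ?_ ?_ k b hb
  rotate_left
  · intro s y hs hy
    refine ⟨Finset.analyticAt_fun_prod _ fun i _ ↦ ((hbig i s y hs hy).1.pow 2).pow L, ?_, ?_, ?_⟩
    · simp only [hΘΦ]
      refine Finset.analyticAt_fun_sum _ fun m _ ↦ analyticAt_const.mul ?_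
      exact Finset.analyticAt_fun_prod _ fun i _ ↦ (((hbig i s y hs hy).2.1.pow 2).pow _).mul
        (((hbig i s y hs hy).1.pow 2).pow _)
    · simp only [hΘ]
      rw [norm_prod, hM3]
      exact Finset.prod_le_prod (fun _ _ ↦ norm_nonneg _) fun i _ ↦ sq L (hbig i s y hs hy).2.2.1
    · rw [hΘΦ]
      refine (norm_sum_le _ _).trans ?_
      calc _ ≤ ∑ m ∈ F.support, ‖F.coeff m‖ * M ^ (8 * L) := by
            refine Finset.sum_le_sum fun m hm ↦ ?_
            rw [norm_mul]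
            refine mul_le_mul_of_nonneg_left ?_ (norm_nonneg _)
            rw [norm_prod, hM3]
            refine Finset.prod_le_prod (fun _ _ ↦ norm_nonneg _) fun i _ ↦ ?_
            have e2 : (M ^ 2) ^ L = (M ^ 2) ^ m i * (M ^ 2) ^ (L - m i) := by
              rw [← pow_add, Nat.add_sub_cancel' (hL m hm i)]
            rw [norm_mul, e2]
            exact mul_le_mul (sq _ (hbig i s y hs hy).2.2.2) (sq _ (hbig i s y hs hy).2.2.1)
              (norm_nonneg _) (by positivity)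
        _ ≤ _ := by
            rw [← Finset.sum_mul]
            gcongr
  · intro s y hs hy
    refine ⟨?_, ?_⟩
    · simp only [hΘ]
      rw [norm_prod, hM3, ← Finset.prod_inv_distrib]
      refine Finset.prod_le_prod (fun _ _ ↦ by positivity) fun i _ ↦ ?_
      have := (hsmall i s y hs hy).1
      rw [Real.exp_neg] at this
      rw [norm_pow, norm_pow, ← inv_pow, ← inv_pow]
      gcongr
    · simp only [hΦ, MvPolynomial.eval_eq']
      refine Finset.analyticAt_fun_sum _ fun m _ ↦ analyticAt_const.mul ?_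
      exact Finset.analyticAt_fun_prod _ fun i _ ↦ ((hsmall i s y hs hy).2.pow 2).pow _
  · intro s y
    simp only [hΦ, hper]
  · exact fun k hk b hb ↦ (norm_eq_zero.2 (hvan k hk b hb)).le
  simp only [zero_mul, mul_zero, add_zero] at hcore
  refine hcore.trans ?_
  have e1 : ((b : ℝ) + 1) * (M ^ (8 * L)) ^ 2 / (Real.exp (-A) ^ k * Real.exp (-A) ^ b) ≤
      Real.exp (A * (k + b) + b + 16 * L * (A * S ^ 3)) := by
    calc _ ≤ Real.exp b * (M ^ (8 * L)) ^ 2 / (Real.exp (-A) ^ k * Real.exp (-A) ^ b) := by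
          gcongr
          exact Real.add_one_le_exp _
      _ = _ := by
          rw [hM, ← pow_mul, ← Real.exp_nat_mul, ← Real.exp_nat_mul, ← Real.exp_nat_mul,
            ← Real.exp_add, ← Real.exp_add, ← Real.exp_sub]
          congr 1
          push_cast
          ring
  gcongr

end Pool.Agent.Lib.ECM.QM
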