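import Pool.Agent.Lib.QM.PEBlue
import Pool.Agent.Lib.ZP3.ArithA

/-! A short period on the graph of `b`. -/

noncomputable section

namespace Pool.Agent.Lib.ECM.QM

open Pool.Agent.Lib.ZP3 (Sm)
open PT (Jet)
open MSINV (pv pv_mem)

namespace KEY

theorem sm_mono {z : ℂ} {A A' : ℕ} (h : Sm z A) (e : A ≤ A') : Sm z A' := by
  obtain ⟨d, h1, h2, h3⟩ := h
  exact ⟨d, h1, h2.trans (Real.exp_le_exp.2 (by exact_mod_cast e)), h3.mono e⟩

theorem red_H2 {τ : T3} (h : τ ∈ Red) : τ ∈ H2 := by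
  obtain ⟨a, b, c, d, -⟩ := h
  exact ⟨by linarith, by nlinarith⟩

theorem span2 {v₁ v₂ : V2} (h : LinearIndependent ℂ ![v₁, v₂]) (w : V2) :
    ∃ c₁ c₂ : ℂ, w = c₁ • v₁ + c₂ • v₂ := by
  have h1 := h.span_eq_top_of_card_eq_finrank (by simp)
  have h2 : w ∈ Submodule.span ℂ (Set.range ![v₁, v₂]) := h1 ▸ Submodule.mem_top
  obtain ⟨c, hc⟩ := (Submodule.mem_span_range_iff_exists_fun ℂ).1 h2
  exact ⟨c 0, c 1, by simpa using hc.symm⟩

end KEY

open KEY in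
theorem st_KEY (hZ : St_ZL4) (hA : St_AUX) (hS : St_SIZ) : St_KEY := by
  obtain ⟨c, hZ⟩ := hZ
  obtain ⟨ka, A0, hA⟩ := hA
  obtain ⟨ks, hS⟩ := hS
  refine ⟨(ks + 2) * ka * (21 * c), A0 + c + 2, fun A τ v₁ v₂ b n l h0 hτ hg hk s1 s2 s3 s4 hi hb
    hn n7 l7 e => ?_⟩
  obtain ⟨c₁, c₂, hw⟩ := span2 hi (pv τ n)
  wlog hc : ‖c₂‖ ≤ ‖c₁‖ generalizing v₁ v₂ c₁ c₂
  · exact this v₂ v₁ s2 s1 s4 s3 (LinearIndependent.pair_symm_iff.1 hi) c₂ c₁
      (by rw [hw, add_comm]) (le_of_not_ge hc)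
  obtain ⟨p1, p2, p3⟩ := hS A τ (by omega) hτ hg hk
  have b1 : 1 ≤ A ^ ks := Nat.one_le_pow _ _ (by omega)
  have b2 : 4 * A ^ ks ≤ A ^ (ks + 2) := by
    rw [pow_add, mul_comm]
    exact Nat.mul_le_mul_left _ (Nat.pow_le_pow_left (show 2 ≤ A by omega) 2)
  have b3 : A ≤ A ^ (ks + 2) := Nat.le_self_pow (by omega) A
  generalize A ^ ks = B at *
  have r1 : (1 : ℝ) ≤ B := by exact_mod_cast b1
  have r2 : 4 * (B : ℝ) ≤ (A ^ (ks + 2) : ℕ) := by exact_mod_cast b2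
  have r3 : Real.exp B ≤ Real.exp (A ^ (ks + 2) : ℕ) := Real.exp_le_exp.2 (by linarith)
  have r4 := Real.add_one_le_exp (B : ℝ)
  have r5 := Real.exp_pos (B : ℝ)
  obtain ⟨a, F, a1, a2, a3, a4, a5⟩ := hA (A ^ (ks + 2)) τ v₁ v₂ (pv τ n) b c₁ c₂ (by omega) hτ hg
    (fun m => sm_mono (hk m) b3) (fun m => sm_mono (s1 m) b3) (fun m => sm_mono (s2 m) b3)
    (fun m => sm_mono (s3 m) b3) (fun m => sm_mono (s4 m) b3) hw (pv_mem _ _) (e ▸ pv_mem _ _)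
    (by linarith [(p1 n n7).1]) (by rw [e]; linarith [(p1 l l7).1])
    (by
      have q1 := (p1 n n7).2.2 hn
      have q2 : ‖pv τ n‖ ≤ ‖c₁‖ * (Real.exp B * Real.exp B) := by
        rw [hw]
        refine (norm_add_le _ _).trans ?_
        rw [norm_smul, norm_smul]
        have t1 := mul_le_mul_of_nonneg_left (p2 v₁ s1) (norm_nonneg c₁)
        have t2 := mul_le_mul hc (p2 v₂ s2) (norm_nonneg _) (norm_nonneg c₁)
        have t3 : ‖c₁‖ * Real.exp B * 2 ≤ ‖c₁‖ * Real.exp B * Real.exp B :=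
          mul_le_mul_of_nonneg_left (by linarith) (by positivity)
        linarith
      refine le_of_mul_le_mul_right (le_trans ?_ (q1.trans q2))
        (show 0 < Real.exp B * Real.exp B by positivity)
      rw [← Real.exp_add, ← Real.exp_add]
      exact Real.exp_le_exp.2 (by linarith))
    (by
      have q1 := (p3 v₁ v₂ s1 s2 hi c₁ c₂).2
      rw [← hw] at q1
      calc _ ≤ Real.exp B * Real.exp B :=
            q1.trans (mul_le_mul_of_nonneg_left (by linarith [(p1 n n7).1]) r5.le)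
        _ ≤ _ := by rw [← Real.exp_add]; exact Real.exp_le_exp.2 (by linarith))
    ((p2 _ s2).trans r3) ((p2 _ s4).trans r3)
  have ca : c ≤ a := by omega
  refine (hZ τ (red_H2 hτ) hg v₁ v₂ b F (a ^ 20) (a ^ 41) hi hb a3
    (Nat.one_le_pow _ _ (by omega)) a4 ?_ a5).mono ?_
  · calc _ ≤ a * (a ^ 20) ^ 2 := Nat.mul_le_mul_right _ ca
      _ = _ := by ring
  · calc _ ≤ (a * a ^ 20) ^ c := Nat.pow_le_pow_left (Nat.mul_le_mul_right _ ca) c
      _ = a ^ (21 * c) := by ring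
      _ ≤ ((A ^ (ks + 2)) ^ ka) ^ (21 * c) := Nat.pow_le_pow_left a2 _
      _ = _ := by rw [← pow_mul, ← pow_mul, mul_assoc]

end Pool.Agent.Lib.ECM.QM
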