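import Pool.Agent.Lib.QM.PEBlue
import Pool.Agent.Lib.ECM.PT_MLT
import Pool.Agent.Lib.ECM.TH_All

/-! Block MLT4: entire multipliers for theta quotients along a period of norm at most `A`. -/

open Metric

namespace Pool.Agent.Lib.ECM.QM

open PT (Mlt)

theorem st_MLT4 : St_MLT4 := by
  obtain ⟨K, hK1, hK⟩ := PT.MLT.growth th_BAS th_HERM th_EST1
  refine ⟨100 * K, fun A S τ m l w hA hS hτ hl hw ↦ ?_⟩
  have hK1' : (1 : ℝ) ≤ K := by exact_mod_cast hK1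
  have hA' : (1 : ℝ) ≤ A := by exact_mod_cast hA
  have hS' : (1 : ℝ) ≤ S := by exact_mod_cast hS
  generalize hB : 100 * K * A ^ 2 = B
  have hB' : (B : ℝ) = 100 * K * A ^ 2 := by rw [← hB]; push_cast; ring
  have hA2 : (A : ℝ) ≤ A ^ 2 := by nlinarith
  have hA3 : (K : ℝ) ≤ K * A ^ 2 := by nlinarith
  have hA4 : (A : ℝ) ^ 2 ≤ K * A ^ 2 := by nlinarith
  have hcA' : (A : ℝ) + 99 * K ≤ B := by rw [hB']; linarith
  have an (m : Ch) (q : ℂ × ℂ) : AnalyticAt ℂ (fun z : ℂ × ℂ ↦ th m τ (z.1 • l + z.2 • w)) q :=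
    PT.AN.analyticAt_of_diff ((th_BAS.diff_th m τ (th_BAS.red hτ)).comp (by fun_prop)) q
  have sm (y : ℂ) (v : V2) (hy : ‖y‖ ≤ Real.exp (-(B : ℝ))) (hv : ‖v‖ ≤ Real.exp A) :
      ‖y • v‖ ≤ Real.exp (-(99 * K)) := by
    rw [norm_smul]
    refine (mul_le_mul hy hv (norm_nonneg _) (Real.exp_pos _).le).trans ?_
    rw [← Real.exp_add]
    exact Real.exp_le_exp.2 (by linarith)
  have e : (fun z : ℂ × ℂ ↦ th 0 τ (z.1 • l + z.2 • w) ^ 2 *
      (th m τ (z.1 • l + z.2 • w) / th 0 τ (z.1 • l + z.2 • w))) =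
      fun z ↦ th 0 τ (z.1 • l + z.2 • w) * th m τ (z.1 • l + z.2 • w) := by
    funext z
    rcases eq_or_ne (th 0 τ (z.1 • l + z.2 • w)) 0 with h | h
    · simp [h]
    · field_simp
  have hS3 : (S : ℝ) ^ 2 ≤ S ^ 3 := pow_le_pow_right₀ hS' (by norm_num)
  have hS1 : (1 : ℝ) ≤ S ^ 2 := one_le_pow₀ hS'
  refine ⟨fun z ↦ th 0 τ (z.1 • l + z.2 • w) ^ 2, fun s y hs hy ↦ ?_, fun s y hs hy ↦ ?_⟩
  · have h1 : ‖s • l + y • w‖ ≤ (3 * S + 2) * A + 1 := by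
      refine (norm_add_le _ _).trans (add_le_add ?_ ?_)
      · rw [norm_smul]
        exact mul_le_mul hs hl (norm_nonneg _) (by positivity)
      · exact (sm y w hy hw).trans (Real.exp_le_one_iff.2 (by linarith))
    have h2 (m m' : Ch) : ‖th m τ (s • l + y • w) * th m' τ (s • l + y • w)‖ ≤
        Real.exp (B * (S : ℝ) ^ 3) := by
      rw [norm_mul]
      refine (mul_le_mul (hK τ hτ m _ _ h1) (hK τ hτ m' _ _ h1) (norm_nonneg _)
        (Real.exp_pos _).le).trans ?_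
      rw [← Real.exp_add]
      refine Real.exp_le_exp.2 ?_
      have a0 : (3 * (S : ℝ) + 2) * A + 1 + 1 ≤ 7 * S * A := by nlinarith
      have a1 : ((3 * (S : ℝ) + 2) * A + 1 + 1) ^ 2 ≤ (7 * S * A) ^ 2 := by gcongr
      have a2 : (7 * (S : ℝ) * A) ^ 2 ≤ 49 * (A ^ 2 * S ^ 3) := by
        have : (A : ℝ) ^ 2 * S ^ 2 ≤ A ^ 2 * S ^ 3 := by gcongr
        nlinarith
      have a3 : (K : ℝ) * ((3 * (S : ℝ) + 2) * A + 1 + 1) ^ 2 ≤ K * (49 * (A ^ 2 * S ^ 3)) := by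
        gcongr
        exact a1.trans a2
      have a4 : (0 : ℝ) ≤ K * (A ^ 2 * S ^ 3) := by positivity
      rw [hB']
      nlinarith
    refine ⟨(an 0 _).pow 2, ?_, by simpa only [sq] using h2 0 0, ?_⟩
    · rw [e]
      exact (an 0 _).mul (an m _)
    · exact (congrArg norm (congrFun e (s, y))).trans_le (h2 0 m)
  · have h1 : ‖s • l + y • w‖ ≤ 2 * Real.exp (-(99 * K)) := by
      have b1 := sm y w hy hw
      have b2 := sm s l hs (hl.trans (by linarith [Real.add_one_le_exp (A : ℝ)]))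
      linarith [norm_add_le (s • l) (y • w)]
    have h2 : Real.exp (K * (1 + 1) ^ 2) * Real.exp (-(99 * K)) ≤ 1 / 20 := by
      rw [← Real.exp_add, show (K : ℝ) * (1 + 1) ^ 2 + -(99 * K) = -(95 * K) by ring,
        Real.exp_neg, one_div]
      exact inv_anti₀ (by norm_num) (by linarith [Real.add_one_le_exp (95 * K : ℝ)])
    have h3 : 1 ≤ Real.exp (K * (1 + 1) ^ 2) := Real.one_le_exp (by positivity)
    have h4 := Real.exp_pos (-(99 * K : ℝ))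
    have h8 (E e n : ℝ) (a1 : n ≤ 2 * e) (a2 : E * e ≤ 1 / 20) (a3 : 1 ≤ E) (a4 : 0 < e) :
        n < 1 ∧ 10 * E * n ≤ 1 := ⟨by nlinarith, by nlinarith⟩
    have h5 := PT.MLT.lower th_BAS th_EST1 hτ
      (fun z hz ↦ hK τ hτ 0 z 1 (mem_ball_zero_iff.1 hz).le)
      (z := s • l + y • w) (h8 _ _ _ h1 h2 h3 h4).1 (h8 _ _ _ h1 h2 h3 h4).2
    refine ⟨?_, (an m _).div (an 0 _) (norm_pos_iff.1 (lt_of_lt_of_le (by norm_num) h5))⟩
    rw [norm_pow, Real.exp_neg]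
    have h6 : (100 : ℝ) * 1 ≤ B * (S : ℝ) ^ 3 := by
      gcongr
      · linarith
      · linarith
    have h7 : (25 : ℝ) ≤ Real.exp (B * (S : ℝ) ^ 3) := by
      linarith [Real.add_one_le_exp (B * (S : ℝ) ^ 3)]
    refine (inv_anti₀ (by norm_num) h7).trans ?_
    nlinarith

end Pool.Agent.Lib.ECM.QM
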