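import Pool.Agent.Lib.QM.PEBlue
import Pool.Agent.Lib.ECM.M_PTI
import Pool.Agent.Lib.ECM.TH_All
import Pool.Agent.Lib.ZP3.Sm2

/-! The period theorem for two symmetric endomorphisms, from its blocks. -/

noncomputable section

namespace Pool.Agent.Lib.ECM.QM

open Pool.Agent.Lib.ZP3 MPTI

namespace PT2

theorem two_map (hS : St_SL) {τ τ' : T3} (g : V2 ≃ₗ[ℂ] V2) (h1 : ∀ z, g z ∈ Lat τ' ↔ z ∈ Lat τ)
    (h2 : ∀ v, Hn τ' (g v) = Hn τ v) {M₁ M₂ : V2 →ₗ[ℂ] V2} {D₁ D₂ : ℕ} (a1 : Sy τ M₁ D₁)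
    (a2 : Sy τ M₂ D₂) (hn : ∀ c : ℂ, M₂ ≠ c • M₁) : ∃ M₁' M₂', Sy τ' M₁' D₁ ∧ Sy τ' M₂' D₂ ∧
      (∀ c : ℂ, M₂' ≠ c • M₁') ∧ ∀ v, M₁' (g v) = g (M₁ v) ∧ M₂' (g v) = g (M₂ v) := by
  refine ⟨_, _, hS.map τ τ' g h1 h2 _ _ a1, hS.map τ τ' g h1 h2 _ _ a2, fun c h ↦ hn c
    (LinearMap.ext fun v ↦ g.injective ?_), fun v ↦ by simp⟩
  simpa using LinearMap.congr_fun h (g v)

theorem sv_comb {τ : T3} {B : ℕ} (hB : 2 ≤ B) {d a₀ a₁ a₂ : ℤ} {w v₀ v₁ v₂ : V2} (d0 : d ≠ 0)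
    (hd : (|d| : ℝ) ≤ 8 * Real.exp B ^ 4) (h0 : (|a₀| : ℝ) ≤ 8 * Real.exp B ^ 4)
    (h1 : (|a₁| : ℝ) ≤ 8 * Real.exp B ^ 4) (h2 : (|a₂| : ℝ) ≤ 8 * Real.exp B ^ 4)
    (e : (d : ℂ) • w = (a₀ : ℂ) • v₀ + (a₁ : ℂ) • v₁ + (a₂ : ℂ) • v₂) (s0 : SV τ B v₀)
    (s1 : SV τ B v₁) (s2 : SV τ B v₂) : SV τ (B ^ 540) w := by
  have si : ∀ {a : ℤ}, (|a| : ℝ) ≤ 8 * Real.exp B ^ 4 → Sm a (B ^ 4) := fun h ↦ by
    refine sm_int _ (Nat.one_le_pow _ _ (by omega)) (h.trans ?_)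
    have b1 : (8 : ℝ) ≤ Real.exp 1 ^ 3 := by
      have := Real.add_one_le_exp 1
      calc (8 : ℝ) = 2 ^ 3 := by norm_num
        _ ≤ _ := by gcongr; linarith
    have b2 : 3 + 4 * B ≤ B ^ 4 := by
      have := Nat.pow_le_pow_left hB 3
      rw [pow_succ]
      nlinarith
    refine (mul_le_mul_of_nonneg_right b1 (by positivity)).trans ?_
    rw [← Real.exp_nat_mul, ← Real.exp_nat_mul, ← Real.exp_add, Real.exp_le_exp, mul_one]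
    exact_mod_cast b2
  intro m
  have d1 : (d : ℂ) ≠ 0 := by exact_mod_cast d0
  have e1 : (d : ℂ) * ll m τ w = a₀ * ll m τ v₀ + a₁ * ll m τ v₁ + a₂ * ll m τ v₂ := by
    rw [← ll_smul, e]
    simp [ll, dth]
  have e2 : ll m τ w / kk 0 τ = (a₀ * (ll m τ v₀ / kk 0 τ) + a₁ * (ll m τ v₁ / kk 0 τ) +
      a₂ * (ll m τ v₂ / kk 0 τ)) / d := by
    rw [eq_div_iff d1]
    linear_combination (kk 0 τ)⁻¹ * e1
  rw [e2]
  exact (sm_div hB (sm_add hB (sm_add hB (sm_mul hB (si h0) (j := 1) (by simpa using s0 m))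
    (sm_mul hB (si h1) (j := 1) (by simpa using s1 m)))
    (sm_mul hB (si h2) (j := 1) (by simpa using s2 m))) (si hd)).mono (pow_mono hB (by norm_num))

end PT2

open PT2 in
theorem st_PT2 (hK : St_KEY) (hL : St_ALG) (hZ : St_SIZ) (hS : St_SL) : St_PT2 := by
  obtain ⟨k, A0, hK⟩ := hK
  obtain ⟨k0, hZ⟩ := hZ
  obtain ⟨k1, hlin⟩ := lin th_LIN
  refine ⟨100 + (152 + 16 * (k1 + 1)) * (k0 + 1) * (540 + A0) * k * 6, ?_⟩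
  intro x τ M₁ M₂ D₁ D₂ A a₁ a₂ hx hg y1 y2 hn e1 e2 A2 l1 l2 sx s1 s2
  have hτ := hx.1
  have k0' := hx.2.1
  obtain ⟨γ, hγ⟩ := th_RED τ hτ
  have hτ' := γ.act_mem τ hτ
  have hg' := (th_SYMK.gen γ τ hτ).2 hg
  let g := LinearEquiv.ofBijective (γ.M τ) (γ.bij τ hτ)
  obtain ⟨N₁, N₂, z1, z2, hn', hc⟩ := two_map hS g (γ.lat τ hτ) (γ.herm τ hτ) y1 y2 hn
  obtain ⟨t1, t2⟩ := transfer th_SYMK γ (i := k1 + 1) hx A2 fun m ↦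
    (sx m).mono (le_pow A2 (by omega))
  set A1 := A ^ (152 + 16 * (k1 + 1)) with hA1
  have sv : ∀ v, Sm (lv τ v hA) A → Sm (lv τ v hB) A → SV (γ.act τ) A1 (g v) := fun v h1 h2 ↦
    t2 v fun h ↦ (hlin x τ v A (-lv τ v hB) (lv τ v hA) hx hg A2 sx h2.neg h1
      (by rw [lv, mul_div_cancel₀ _ k0']) (by rw [lv, mul_neg, neg_neg, mul_div_cancel₀ _ k0'])
      h).mono (pow_mono A2 (by omega))
  obtain ⟨v₁, hv₁⟩ := (th_GAUGE.ind τ hτ hg).2 (kk 0 τ, 0)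
  obtain ⟨v₂, hv₂⟩ := (th_GAUGE.ind τ hτ hg).2 (0, kk 0 τ)
  simp only [Prod.mk.injEq] at hv₁ hv₂
  have c1 : lv τ v₁ hA = 1 := by rw [lv, hv₁.1, div_self k0']
  have c2 : lv τ v₁ hB = 0 := by rw [lv, hv₁.2, zero_div]
  have c3 : lv τ v₂ hA = 0 := by rw [lv, hv₂.1, zero_div]
  have c4 : lv τ v₂ hB = 1 := by rw [lv, hv₂.2, div_self k0']
  have o1 : Sm 1 A := SM2.sm_one (by omega)
  have o0 : Sm 0 A := SM2.sm_zero (by omega)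
  have im : ∀ {M a}, Ent τ M a → (∀ i j, Sm (a i j) A) →
      SV (γ.act τ) A1 (g (M v₁)) ∧ SV (γ.act τ) A1 (g (M v₂)) := fun {M a} e s ↦ by
    have b1 := congrFun (e v₁) 0
    have b2 := congrFun (e v₁) 1
    have b3 := congrFun (e v₂) 0
    have b4 := congrFun (e v₂) 1
    simp [c1, c2, c3, c4, Matrix.mulVec, dotProduct] at b1 b2 b3 b4
    exact ⟨sv _ (b1 ▸ s 0 0) (b2 ▸ s 1 0), sv _ (b3 ▸ s 0 1) (b4 ▸ s 1 1)⟩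
  have li : LinearIndependent ℂ ![g v₁, g v₂] := by
    rw [LinearIndependent.pair_iff]
    intro s t h
    rw [← map_smul, ← map_smul, ← map_add, map_eq_zero_iff _ g.injective] at h
    have b : ∀ m, s * ll m τ v₁ + t * ll m τ v₂ = 0 := fun m ↦ by
      have := congrArg (ll m τ) h
      simpa [ll, dth] using this
    have b1 := b hA
    have b2 := b hB
    rw [hv₁.1, hv₂.1] at b1
    rw [hv₁.2, hv₂.2] at b2
    exact ⟨by simpa [k0'] using b1, by simpa [k0'] using b2⟩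
  have p1 : A ≤ A1 := le_pow A2 (by omega)
  have p2 : 2 ≤ A1 := A2.trans p1
  set B := A1 ^ (k0 + 1) with hB'
  have p3 : A1 ≤ B := le_pow p2 (by omega)
  have p4 : 2 ≤ B := p2.trans p3
  have p5 : A1 ^ k0 ≤ B := pow_mono p2 (by omega)
  have p6 : B ^ 540 ≤ B ^ (540 + A0) := pow_mono p4 (by omega)
  have p7 : A1 ≤ B ^ (540 + A0) := p3.trans (le_pow p4 (by omega))
  have dl : ∀ {D : ℕ}, 0 < D → Real.log D ≤ A → (D : ℝ) ≤ Real.exp B := fun h0 h ↦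
    (Real.log_le_iff_le_exp (by exact_mod_cast h0)).1 (h.trans (by exact_mod_cast p1.trans p3))
  have mo : ∀ {v} {C C' : ℕ}, SV (γ.act τ) C v → C ≤ C' → SV (γ.act τ) C' v := fun h e m ↦
    (h m).mono e
  have w1 := sv v₁ (c1 ▸ o1) (c2 ▸ o0)
  have w2 := sv v₂ (c3 ▸ o0) (c4 ▸ o1)
  obtain ⟨P₁, P₂, E₁, E₂, f1, f2, f3, f4, f5⟩ := hL _ hτ' N₁ N₂ D₁ D₂ ((B ^ (540 + A0)) ^ k)
    (Real.exp B) z1 z2 hn' (Real.one_le_exp (Nat.cast_nonneg _)) (dl y1.pos l1) (dl y2.pos l2)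
    (fun n h ↦ ((hZ A1 _ p2 hγ hg' t1).1 n h).2.1.trans (by
      have b1 : ((A1 ^ k0 : ℕ) : ℝ) ≤ B := by exact_mod_cast p5
      linarith [Real.add_one_le_exp (B : ℝ)]))
    fun n l d b₀ b₁ b₂ b n0 n7 l7 d0 q q0 q1 q2 e hb hl ↦ hK _ _ (g v₁) (g v₂) b n l
      ((nat_le_pow p4 A0).trans (pow_mono p4 (by omega))) hγ hg' (fun m ↦ (t1 m).mono p7)
      (mo w1 p7) (mo w2 p7)
      (mo (sv_comb p4 d0 q q0 q1 q2 (e _) (mo w1 p3) (mo ((hc v₁).1 ▸ (im e1 s1).1) p3)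
        (mo ((hc v₁).2 ▸ (im e2 s2).1) p3)) p6)
      (mo (sv_comb p4 d0 q q0 q1 q2 (e _) (mo w2 p3) (mo ((hc v₂).1 ▸ (im e1 s1).2) p3)
        (mo ((hc v₂).2 ▸ (im e2 s2).2) p3)) p6) li hb n0 n7 l7 hl
  obtain ⟨Q₁, Q₂, u1, u2, u3, -⟩ := two_map hS g.symm
    (fun z ↦ by rw [← γ.lat τ hτ]; exact Iff.of_eq (congrArg _ (g.apply_symm_apply z)))
    (fun z ↦ by rw [← γ.herm τ hτ]; exact congrArg _ (g.apply_symm_apply z)) f1 f2 f5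
  refine Two.mono ⟨Q₁, Q₂, E₁, E₂, u1, u2, f3, f4, u3⟩ ?_
  rw [hB', hA1, ← pow_mul, ← pow_mul, ← pow_mul, ← pow_mul, ← mul_assoc, ← mul_assoc, ← mul_assoc]
  exact cmul_le A2 _ _

end Pool.Agent.Lib.ECM.QM
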