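import Pool.Agent.Lib.QM.PEBlue
import Pool.Agent.Lib.ECM.PT_PTH
import Pool.Agent.Lib.ECM.TH_All

/-! Period theorem for two symmetric endomorphisms: sizes on the reduced domain. -/

open Filter Topology

noncomputable section

namespace Pool.Agent.Lib.ECM.QM

open Pool.Agent.Lib.ZP3 (Sm)
open MSINV (pv)

namespace SIZ

theorem im_le : ∃ K : ℝ, 0 < K ∧ ∀ (A : ℕ) (τ : T3), 2 ≤ A → τ ∈ Red → Gen τ →
    (∀ m, Sm (kk m τ / kk 0 τ) A) → (τ 2).im ≤ K * A ^ 2 := by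
  obtain ⟨C, hC, h⟩ := th_GAUGE.red
  refine ⟨4 * C, by positivity, fun A τ hA hτ hg hs ↦ ?_⟩
  obtain ⟨m, hm, h1⟩ := (h τ hτ).2
  have k0 : kk 0 τ ≠ 0 := hg 0 (by decide)
  have k1 : 0 < ‖kk 0 τ‖ := norm_pos_iff.2 k0
  have k2 : 0 < ‖kk m τ‖ := norm_pos_iff.2 hm
  have h2 : ‖fun n ↦ kk n τ‖ ≤ Real.exp A * ‖kk 0 τ‖ := by
    refine (pi_norm_le_iff_of_nonneg (by positivity)).2 fun n ↦ ?_
    have := (hs n).norm_le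
    rwa [norm_div, div_le_iff₀ k1] at this
  have h3 := (hs m).liouville (div_ne_zero hm k0)
  rw [norm_div, le_div_iff₀ k1, Real.exp_neg, inv_mul_le_iff₀ (Real.exp_pos _)] at h3
  have h4 : Real.log (‖fun n ↦ kk n τ‖ / ‖kk m τ‖) ≤ A + 2 * (A : ℝ) ^ 2 := by
    rw [Real.log_le_iff_le_exp (div_pos (k2.trans_le (norm_le_pi_norm (fun n ↦ kk n τ) m)) k2),
      div_le_iff₀ k2, Real.exp_add, mul_assoc]
    exact h2.trans (by gcongr)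
  have a2 : (2 : ℝ) ≤ A := by exact_mod_cast hA
  have h5 : 1 + Real.log (‖fun n ↦ kk n τ‖ / ‖kk m τ‖) ≤ 4 * (A : ℝ) ^ 2 := by nlinarith
  calc _ ≤ C * (4 * (A : ℝ) ^ 2) := h1.trans (by gcongr)
    _ = _ := by ring

theorem pv_le {τ : T3} (hτ : τ ∈ Red) {n : Fin 4 → ℤ} (hn : ∀ i, |n i| ≤ 7) :
    ‖pv τ n‖ ≤ 14 * (1 + (τ 2).im) := by
  obtain ⟨h1, h2, h3, h4, h5⟩ := hτ
  have ht : ∀ i, ‖τ i‖ ≤ 1 / 2 + (τ 2).im := fun i ↦ by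
    refine (Complex.norm_le_abs_re_add_abs_im _).trans (add_le_add (h5 i) (abs_le.2 ?_))
    fin_cases i <;> constructor <;> simp <;> linarith
  have hz : ∀ i, ‖(n i : ℂ)‖ ≤ 7 := fun i ↦ by
    rw [Complex.norm_intCast]; exact_mod_cast hn i
  have key : ∀ a b c i j, ‖(n a : ℂ) + (τ i * n b + τ j * n c)‖ ≤ 14 * (1 + (τ 2).im) := by
    intro a b c i j
    have e1 : ‖τ i * n b‖ ≤ (1 / 2 + (τ 2).im) * 7 := by
      rw [norm_mul]; exact mul_le_mul (ht i) (hz b) (norm_nonneg _) (by linarith)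
    have e2 : ‖τ j * n c‖ ≤ (1 / 2 + (τ 2).im) * 7 := by
      rw [norm_mul]; exact mul_le_mul (ht j) (hz c) (norm_nonneg _) (by linarith)
    linarith [norm_add_le (n a : ℂ) (τ i * n b + τ j * n c), norm_add_le (τ i * n b) (τ j * n c),
      hz a]
  refine (pi_norm_le_iff_of_nonneg (by linarith)).2 fun i ↦ ?_
  fin_cases i
  · simpa [pv, per, iv, add_assoc] using key 0 2 3 0 1
  · simpa [pv, per, iv, add_assoc] using key 1 2 3 1 2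

theorem pv_ge : ∃ C : ℝ, 0 < C ∧ ∀ τ ∈ Red, (∀ v, Hn τ v ≤ C * ‖v‖ ^ 2) ∧
    ∀ n : Fin 4 → ℤ, n ≠ 0 → 1 ≤ C ^ 2 * (1 + (τ 2).im) * ‖pv τ n‖ ^ 2 := by
  obtain ⟨C, hC, h⟩ := th_HERM.red
  refine ⟨C, hC, fun τ hτ ↦ ⟨fun v ↦ ((h τ hτ).1 v).1, fun n hn ↦ ?_⟩⟩
  obtain ⟨h1, h2⟩ := (h τ hτ).2 (n 0, n 1) (n 2, n 3)
  have h3 := ((h τ hτ).1 (pv τ n)).1
  have hy : 0 ≤ (τ 2).im := by linarith [hτ.2.2.1, hτ.2.2.2.1]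
  obtain ⟨i, hi⟩ := Function.ne_iff.1 hn
  have h4 : (1 : ℝ) ≤ (n i : ℝ) ^ 2 := by
    exact_mod_cast (one_le_sq_iff_one_le_abs _).2 (Int.one_le_abs hi)
  have h5 : (n i : ℝ) ^ 2 ≤ ((n 0 : ℝ) ^ 2 + (n 1 : ℝ) ^ 2) + ((n 2 : ℝ) ^ 2 + (n 3 : ℝ) ^ 2) := by
    have := Finset.single_le_sum (f := fun i ↦ (n i : ℝ) ^ 2) (fun _ _ ↦ sq_nonneg _)
      (Finset.mem_univ i)
    rw [Fin.sum_univ_four] at this
    linarith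
  change _ ≤ C * Hn τ (pv τ n) at h1
  change _ ≤ C * (τ 2).im * Hn τ (pv τ n) at h2
  calc (1 : ℝ) ≤ C * (1 + (τ 2).im) * Hn τ (pv τ n) := by simp only at h1 h2; linarith
    _ ≤ C * (1 + (τ 2).im) * (C * ‖pv τ n‖ ^ 2) := by gcongr
    _ = _ := by ring

theorem exp_le {X Y r : ℝ} (hr : 0 ≤ r) (hX : X ≤ Y) (h : 1 ≤ X * r ^ 2) : Real.exp (-Y) ≤ r := by
  by_contra! h1
  have h2 := Real.add_one_le_exp Y
  have h3 : r * Real.exp Y < 1 := by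
    rwa [Real.exp_neg, ← one_div, lt_div_iff₀ (Real.exp_pos _)] at h1
  have h4 : X * r ^ 2 ≤ Y * r ^ 2 := by gcongr
  have h5 : 0 < Y := by nlinarith [sq_nonneg r]
  have h6 : r * (Y + 1) < 1 := (mul_le_mul_of_nonneg_left h2 hr).trans_lt h3
  have h7 : 0 ≤ r * Y := by positivity
  nlinarith

theorem norm_le : ∃ K : ℝ, 0 < K ∧ ∀ (A : ℕ) (τ : T3), τ ∈ Red → Gen τ →
    (∀ m, Sm (kk m τ / kk 0 τ) A) → ∀ v, SV τ A v →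
    ‖v‖ ≤ K * Real.exp (A + 2 * (A : ℝ) ^ 2) := by
  obtain ⟨C, hC, h1⟩ := th_EST1.up
  obtain ⟨C', hC', h2⟩ := th_EST2
  refine ⟨C * C', by positivity, fun A τ hτ hg hs v hv ↦ ?_⟩
  obtain ⟨m, hm⟩ := (h2 τ hτ).2 v
  have ev : Ev (m.1, m.2.1, 0, 0) := by simp [Ev]
  have k0 : kk 0 τ ≠ 0 := hg 0 (by decide)
  have k1 : 0 < ‖kk 0 τ‖ := norm_pos_iff.2 k0
  have h3 := (hs (m.1, m.2.1, 0, 0)).liouville (div_ne_zero (hg _ ev) k0)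
  have h4 : ‖kk (m.1, m.2.1, 0, 0) τ‖ ≤ C * lead m τ := (h1 τ hτ (m.1, m.2.1, 0, 0)).1
  have h5 := (hv m).norm_le
  rw [norm_div, le_div_iff₀ k1] at h3
  rw [norm_div, div_le_iff₀ k1] at h5
  have h6 : Real.exp (-(2 * (A : ℝ) ^ 2)) * ‖v‖ * ‖kk 0 τ‖ ≤ C * C' * Real.exp A * ‖kk 0 τ‖ := by
    calc _ = Real.exp (-(2 * (A : ℝ) ^ 2)) * ‖kk 0 τ‖ * ‖v‖ := by ring
      _ ≤ C * lead m τ * ‖v‖ := mul_le_mul_of_nonneg_right (h3.trans h4) (norm_nonneg _)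
      _ = C * (lead m τ * ‖v‖) := by ring
      _ ≤ C * (C' * (Real.exp A * ‖kk 0 τ‖)) :=
          mul_le_mul_of_nonneg_left (hm.trans (by gcongr)) hC.le
      _ = _ := by ring
  have h7 := le_of_mul_le_mul_right h6 k1
  rw [Real.exp_neg, inv_mul_le_iff₀ (Real.exp_pos _)] at h7
  rw [Real.exp_add]
  linarith

theorem det_ne {x₁ x₂ y₁ y₂ : ℂ}
    (h : ∀ s t : ℂ, s * x₁ + t * x₂ = 0 → s * y₁ + t * y₂ = 0 → s = 0 ∧ t = 0) :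
    x₁ * y₂ - x₂ * y₁ ≠ 0 := by
  intro h0
  have h1 := h y₂ (-y₁) (by linear_combination h0) (by ring)
  have h2 := h x₂ (-x₁) (by ring) (by linear_combination -h0)
  exact one_ne_zero (h 1 0 (by linear_combination -h2.2) (by linear_combination -h1.2)).1

theorem cramer {c d X Y x y : ℂ} {E U ε : ℝ} (e : c * d = X * y - Y * x) (hd : ε ≤ ‖d‖)
    (hX : ‖X‖ ≤ U) (hY : ‖Y‖ ≤ U) (hx : ‖x‖ ≤ E) (hy : ‖y‖ ≤ E) : ε * ‖c‖ ≤ 2 * E * U := by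
  have hU := (norm_nonneg _).trans hX
  have h1 : ‖X‖ * ‖y‖ ≤ U * E := mul_le_mul hX hy (norm_nonneg _) hU
  have h2 : ‖Y‖ * ‖x‖ ≤ U * E := mul_le_mul hY hx (norm_nonneg _) hU
  have h3 := norm_sub_le (X * y) (Y * x)
  rw [← e, norm_mul, norm_mul, norm_mul] at h3
  nlinarith [norm_nonneg c]

theorem coef_le : ∃ K : ℝ, 0 < K ∧ ∀ (A : ℕ) (τ : T3), τ ∈ Red → Gen τ →
    ∀ v₁ v₂, SV τ A v₁ → SV τ A v₂ → LinearIndependent ℂ ![v₁, v₂] → ∀ c₁ c₂ : ℂ,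
      ‖c₁‖ ≤ K * Real.exp (A + 288 * (A : ℝ) ^ 8) * ‖c₁ • v₁ + c₂ • v₂‖ ∧
        ‖c₂‖ ≤ K * Real.exp (A + 288 * (A : ℝ) ^ 8) * ‖c₁ • v₁ + c₂ • v₂‖ := by
  obtain ⟨C, hC, h1⟩ := th_EST1.up
  refine ⟨6 * C, by positivity, fun A τ hτ hg v₁ v₂ s1 s2 hl c₁ c₂ ↦ ?_⟩
  have k0 : kk 0 τ ≠ 0 := hg 0 (by decide)
  have k1 : 2 / 5 ≤ ‖kk 0 τ‖ := by
    have h2 := th_EST1.one τ hτ 0 rfl rfl
    have h3 := norm_sub_norm_le (1 : ℂ) (kk 0 τ)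
    rw [norm_sub_rev, norm_one] at h3
    linarith
  have lin : ∀ h (s t : ℂ), ll h τ (s • v₁ + t • v₂) / kk 0 τ =
      s * (ll h τ v₁ / kk 0 τ) + t * (ll h τ v₂ / kk 0 τ) := fun h s t ↦ by
    simp only [ll, dth, map_add, map_smul, smul_eq_mul]; ring
  have up : ∀ h u, ‖ll h τ u / kk 0 τ‖ ≤ 3 * C * ‖u‖ := fun h u ↦ by
    have h5 := (h1 τ hτ h).2 u
    have h6 := PT.FIN.lead_le hτ h
    have h7 : C * lead h τ * ‖u‖ ≤ C * 1 * ‖u‖ := by gcongr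
    have h9 : 0 ≤ C * ‖u‖ := by positivity
    rw [norm_div, div_le_iff₀ (by linarith)]
    nlinarith
  have hd := det_ne (x₁ := ll hA τ v₁ / kk 0 τ) (x₂ := ll hA τ v₂ / kk 0 τ)
    (y₁ := ll hB τ v₁ / kk 0 τ) (y₂ := ll hB τ v₂ / kk 0 τ) fun s t e1 e2 ↦ by
      rw [← lin, div_eq_zero_iff, or_iff_left k0] at e1 e2
      refine LinearIndependent.pair_iff.1 hl s t ((th_GAUGE.ind τ (th_BAS.red hτ) hg).1 ?_)
      simp only [e1, e2]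
      simp [ll, dth]
  have h2 := (((s1 hA).mul (s2 hB)).sub ((s2 hA).mul (s1 hB))).liouville hd
  have e : 2 * ((3 * (2 * A ^ 2) ^ 2 : ℕ) : ℝ) ^ 2 = 288 * (A : ℝ) ^ 8 := by push_cast; ring
  rw [e] at h2
  have b1 := cramer (c := c₁) (by rw [lin, lin]; ring) h2 (up hA (c₁ • v₁ + c₂ • v₂))
    (up hB (c₁ • v₁ + c₂ • v₂)) (s2 hA).norm_le (s2 hB).norm_le
  have b2 := cramer (c := c₂) (by rw [lin, lin]; ring) h2 (up hB (c₁ • v₁ + c₂ • v₂))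
    (up hA (c₁ • v₁ + c₂ • v₂)) (s1 hB).norm_le (s1 hA).norm_le
  rw [Real.exp_neg, inv_mul_le_iff₀ (Real.exp_pos _)] at b1 b2
  rw [Real.exp_add]
  constructor <;> linarith

theorem absorb (K : ℝ) : ∃ k : ℕ, ∀ A : ℕ, 2 ≤ A → K * (A : ℝ) ^ 8 ≤ (A ^ k : ℕ) := by
  refine ⟨⌈K⌉₊ + 8, fun A hA ↦ ?_⟩
  have h1 : ⌈K⌉₊ ≤ A ^ ⌈K⌉₊ := (Nat.lt_two_pow_self).le.trans (Nat.pow_le_pow_left hA _)
  have h2 : K ≤ (A : ℝ) ^ ⌈K⌉₊ := (Nat.le_ceil K).trans (by exact_mod_cast h1)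
  push_cast
  rw [pow_add]
  gcongr

theorem mul_exp {K x y : ℝ} (h : K + x ≤ y) : K * Real.exp x ≤ Real.exp y := by
  have h1 : K ≤ Real.exp K := by linarith [Real.add_one_le_exp K]
  calc _ ≤ Real.exp K * Real.exp x := by gcongr
    _ ≤ _ := by rw [← Real.exp_add]; gcongr

end SIZ

open SIZ in
theorem st_SIZ : St_SIZ := by
  obtain ⟨K1, p1, h1⟩ := im_le
  obtain ⟨C, pC, h2⟩ := pv_ge
  obtain ⟨K3, p3, h3⟩ := norm_le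
  obtain ⟨K4, p4, h4⟩ := coef_le
  obtain ⟨k, hk⟩ := absorb (14 * (1 + K1) + C * (14 * (1 + K1)) ^ 2 + C ^ 2 * (1 + K1) + K3 + K4 +
    289)
  refine ⟨k, fun A τ hA hτ hg hs ↦ ?_⟩
  have a2 : (2 : ℝ) ≤ A := by exact_mod_cast hA
  have a1 : (1 : ℝ) ≤ A := by linarith
  have hK := hk A hA
  have q0 : (1 : ℝ) ≤ (A : ℝ) ^ 8 := one_le_pow₀ a1
  have q1 : (A : ℝ) ≤ (A : ℝ) ^ 8 := le_self_pow₀ a1 (by norm_num)
  have q2 : (A : ℝ) ^ 2 ≤ (A : ℝ) ^ 8 := pow_le_pow_right₀ a1 (by norm_num)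
  have q4 : (A : ℝ) ^ 4 ≤ (A : ℝ) ^ 8 := pow_le_pow_right₀ a1 (by norm_num)
  have hy : 1 + (τ 2).im ≤ (1 + K1) * (A : ℝ) ^ 2 := by
    linarith [h1 A τ hA hτ hg hs, one_le_pow₀ (n := 2) a1]
  have hy8 : 1 + (τ 2).im ≤ (1 + K1) * (A : ℝ) ^ 8 := hy.trans (by gcongr)
  have r1 : 0 ≤ 14 * (1 + K1) * (A : ℝ) ^ 8 := by positivity
  have r2 : 0 ≤ C * (14 * (1 + K1)) ^ 2 * (A : ℝ) ^ 8 := by positivity
  have r3 : 0 ≤ C ^ 2 * (1 + K1) * (A : ℝ) ^ 8 := by positivity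
  have r4 : K3 ≤ K3 * (A : ℝ) ^ 8 := le_mul_of_one_le_right p3.le q0
  have r5 : K4 ≤ K4 * (A : ℝ) ^ 8 := le_mul_of_one_le_right p4.le q0
  simp only [add_mul (_ + _ : ℝ)] at hK
  rw [add_mul] at hK
  refine ⟨fun n hn ↦ ⟨?_, ?_, fun h0 ↦ ?_⟩, fun v hv ↦ ?_, fun v₁ v₂ s1 s2 hl c₁ c₂ ↦ ?_⟩
  · linarith [pv_le hτ hn]
  · have e1 : ‖pv τ n‖ ≤ 14 * (1 + K1) * (A : ℝ) ^ 2 := by linarith [pv_le hτ hn]
    have e2 : Hn τ (pv τ n) ≤ C * (14 * (1 + K1)) ^ 2 * (A : ℝ) ^ 8 :=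
      calc _ ≤ C * (14 * (1 + K1) * (A : ℝ) ^ 2) ^ 2 := ((h2 τ hτ).1 _).trans (by gcongr)
        _ = C * (14 * (1 + K1)) ^ 2 * (A : ℝ) ^ 4 := by ring
        _ ≤ _ := by gcongr
    linarith
  · refine exp_le (norm_nonneg _) ?_ ((h2 τ hτ).2 n h0)
    have e1 : C ^ 2 * (1 + (τ 2).im) ≤ C ^ 2 * ((1 + K1) * (A : ℝ) ^ 8) := by gcongr
    linarith
  · exact (h3 A τ hτ hg hs v hv).trans (mul_exp (by linarith))
  · have e1 : K4 * Real.exp (A + 288 * (A : ℝ) ^ 8) ≤ Real.exp (A ^ k : ℕ) :=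
      mul_exp (by linarith)
    obtain ⟨b1, b2⟩ := h4 A τ hτ hg v₁ v₂ s1 s2 hl c₁ c₂
    exact ⟨b1.trans (by gcongr), b2.trans (by gcongr)⟩

end Pool.Agent.Lib.ECM.QM
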