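import Pool.Agent.Lib.QM.PEBlue
import Pool.Agent.Lib.ECM.PT_SYS
import Pool.Agent.Lib.ECM.TH_All

/-! Block SYS4: the quadratic differential system of the theta quotients along two planes. -/

open Filter Topology

noncomputable section

namespace Pool.Agent.Lib.ECM.QM

open Pool.Agent.Lib.ZP3 (Sm)
open PT (Sys quad ox)
open PT.SYS (cf sm_cf sm_zero an_th fderiv_eq exists_g)

namespace XSYS4

/-- coefficients of the equation of the quotient number `j` -/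
def q4 (c : Bool → Ch → Ch → ℂ) (j : Bool × Ch) :
    Option (Bool × Ch) → Option (Bool × Ch) → ℂ
  | some r, b => if r.1 = j.1 then (if b = some (j.1, r.2 + j.2) then c j.1 j.2 r.2 else 0) else 0
  | none, _ => 0

theorem quad_q4 (c : Bool → Ch → Ch → ℂ) (i : Bool) (m : Ch) (x : Bool × Ch → ℂ) :
    quad (q4 c (i, m)) x = ∑ η, c i m η * x (i, η) * x (i, η + m) := by
  unfold quad
  rw [Fintype.sum_option, Fintype.sum_prod_type, Finset.sum_eq_single i]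
  · simp only [q4, zero_mul, Finset.sum_const_zero, ite_mul, Finset.sum_ite_eq', Finset.mem_univ,
      if_true, zero_add]
    rfl
  · intro b _ hb
    simp only [q4, hb, if_false, zero_mul, Finset.sum_const_zero]
  · intro h
    exact absurd (Finset.mem_univ i) h

theorem sm_q4 {c : Bool → Ch → Ch → ℂ} {B : ℕ} (hB : 1 ≤ B) (hc : ∀ i m η, Sm (c i m η) B)
    (j : Bool × Ch) (a b : Option (Bool × Ch)) : Sm (q4 c j a b) B := by
  have h0 : Sm 0 B := sm_zero hB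
  rcases a with _ | r
  · exact h0
  · simp only [q4]
    split_ifs
    · exact hc _ _ _
    · exact h0
    · exact h0

theorem an_xs4 {τ : T3} (hτ : τ ∈ H2) (v w : Bool → V2) {z : ℂ × ℂ} (j : Bool × Ch)
    (h0 : th 0 τ (z.1 • v j.1 + z.2 • w j.1) ≠ 0) :
    AnalyticAt ℂ (fun z ↦ xs4 τ v w z j) z :=
  (an_th th_BAS hτ j.2 (v j.1) (w j.1) z).div (an_th th_BAS hτ 0 (v j.1) (w j.1) z) h0

theorem der_xs4 {s : Ch → Ch → Ch → Ch → ℤ} {g : Ch → Ch} {τ : T3} (hτ : τ ∈ H2)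
    (hk0 : kk 0 τ ≠ 0) (hg : ∀ m, kk (g m) τ ≠ 0 ∧ kk (m + g m) τ ≠ 0)
    (hD : ∀ (e : Ch) (v x : V2),
      4 * ((th 0 τ x * dth e τ v x - th e τ x * dth 0 τ v x) *
        (kk (g e) τ * kk (e + g e) τ)) =
      ∑ η : Ch, (s e 0 (g e) η : ℂ) * (th η τ x * th (η + e) τ x *
        (ll (η + e + g e) τ v * kk (η + g e) τ + kk (η + e + g e) τ * ll (η + g e) τ v)))
    (v w : Bool → V2) {z : ℂ × ℂ} (i : Bool) (m : Ch)
    (h0 : th 0 τ (z.1 • v i + z.2 • w i) ≠ 0) (d : ℂ × ℂ) (u : Bool → V2)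
    (hv : d.1 • v i + d.2 • w i = u i) :
    fderiv ℂ (fun z ↦ xs4 τ v w z (i, m)) z d =
      quad (q4 (fun i ↦ cf s g τ (u i)) (i, m)) (xs4 τ v w z) := by
  refine fderiv_eq (an_xs4 hτ v w (i, m) h0) ?_
  have e : (fun t : ℂ ↦ xs4 τ v w (z + t • d) (i, m)) = fun t ↦
      th m τ (z.1 • v i + z.2 • w i + t • u i) / th 0 τ (z.1 • v i + z.2 • w i + t • u i) := by
    funext t
    have : (z + t • d).1 • v i + (z + t • d).2 • w i = z.1 • v i + z.2 • w i + t • u i := by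
      rw [← hv, Prod.fst_add, Prod.snd_add, Prod.smul_fst, Prod.smul_snd, smul_eq_mul,
        smul_eq_mul]
      module
    simp only [xs4, this]
  rw [e]
  have h1 := (th_BAS.line m τ hτ (z.1 • v i + z.2 • w i) (u i) 0).div
    (th_BAS.line 0 τ hτ (z.1 • v i + z.2 • w i) (u i) 0) (by simpa using h0)
  simp only [zero_smul, add_zero] at h1
  refine HasDerivAt.congr_deriv h1 ?_
  simp only [quad_q4, xs4]
  set x := z.1 • v i + z.2 • w i
  obtain ⟨hg1, hg2⟩ := hg m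
  have h2 : ∀ η, cf s g τ (u i) m η * (th η τ x / th 0 τ x) * (th (η + m) τ x / th 0 τ x) =
      (s m 0 (g m) η : ℂ) * (th η τ x * th (η + m) τ x *
        (ll (η + m + g m) τ (u i) * kk (η + g m) τ +
          kk (η + m + g m) τ * ll (η + g m) τ (u i))) /
        (4 * (kk (g m) τ * kk (m + g m) τ) * th 0 τ x ^ 2) := by
    intro η
    unfold cf
    field_simp
  simp only [h2]
  rw [← Finset.sum_div, ← hD]
  field_simp

end XSYS4

open XSYS4 in
theorem st_SYS4 : St_SYS4 := by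
  obtain ⟨s, hs, hD⟩ := th_DER
  choose g hg using exists_g
  refine ⟨34, fun A τ v w hA hτ hG hk hv hw ↦ ?_⟩
  have hk0 : kk 0 τ ≠ 0 := hG 0 (by decide)
  have hz0 : ∀ i, th 0 τ ((0 : ℂ × ℂ).1 • v i + (0 : ℂ × ℂ).2 • w i) ≠ 0 := fun i ↦ by
    simpa [kk] using hk0
  have hD' := fun (e : Ch) (v x : V2) ↦ (hD τ hτ e 0 (g e) v x).2
  simp only [add_zero] at hD'
  have hg' : ∀ m, kk (g m) τ ≠ 0 ∧ kk (m + g m) τ ≠ 0 := fun m ↦ ⟨hG _ (hg m).1, hG _ (hg m).2⟩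
  have hB : 1 ≤ A ^ 34 := Nat.one_le_pow _ _ (by omega)
  refine ⟨q4 (fun i ↦ cf s g τ (v i)), q4 (fun i ↦ cf s g τ (w i)), fun j ↦
    ⟨an_xs4 hτ v w j (hz0 j.1), ?_⟩, sm_q4 hB (fun i ↦ sm_cf hs g hA hk (hv i)),
    sm_q4 hB (fun i ↦ sm_cf hs g hA hk (hw i))⟩
  obtain ⟨i, m⟩ := j
  filter_upwards [(an_th th_BAS hτ 0 (v i) (w i) 0).continuousAt.eventually_ne (hz0 i)] with z h1
  exact ⟨der_xs4 hτ hk0 hg' hD' v w i m h1 (1, 0) v (by simp),
    der_xs4 hτ hk0 hg' hD' v w i m h1 (0, 1) w (by simp)⟩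

end Pool.Agent.Lib.ECM.QM
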