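import Pool.Agent.Lib.QM.Q_CJ1

/-! Symmetric endomorphisms: conjugation, congruence modulo two, descent. -/

open Complex Filter Topology
open scoped Real ComplexConjugate

noncomputable section

namespace Pool.Agent.Lib.ECM.QM.XCJ

open CJ MEND MvPolynomial

variable {τ τ' : T3} {M M' : V2 →ₗ[ℂ] V2} {n D : ℕ} {P : Ch → MvPolynomial Ch ℂ}

/-- the trace -/
def trc (M : V2 →ₗ[ℂ] V2) : ℂ := M ![1, 0] 0 + M ![0, 1] 1

theorem trc_eq (M : V2 →ₗ[ℂ] V2) : LinearMap.trace ℂ V2 M = trc M := by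
  rw [LinearMap.trace_eq_matrix_trace ℂ (Pi.basisFun ℂ (Fin 2)), Matrix.trace_fin_two]
  have a : (Pi.single 0 1 : V2) = ![1, 0] := by funext i; fin_cases i <;> simp
  have b : (Pi.single 1 1 : V2) = ![0, 1] := by funext i; fin_cases i <;> simp
  simp [LinearMap.toMatrix_apply, trc, a, b]

theorem cayley (M : V2 →ₗ[ℂ] V2) : ∃ d : ℂ, ∀ z, M (M z) = trc M • M z - d • z := by
  refine ⟨M ![1, 0] 0 * M ![0, 1] 1 - M ![1, 0] 1 * M ![0, 1] 0, fun z ↦ ?_⟩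
  rw [MENC.split M (M z), MENC.split M z]
  funext i
  fin_cases i <;> simp [trc] <;> ring

/-- a traceless symmetric endomorphism with square `D` -/
structure Sz (τ : T3) (M : V2 →ₗ[ℂ] V2) (D : ℕ) : Prop where
  lat : ∀ z ∈ Lat τ, M z ∈ Lat τ
  tr : trc M = 0
  sq : ∀ z, M (M z) = (D : ℂ) • z
  hn : ∀ u, Hn τ (M u) = D * Hn τ u

/-- `M'` is the conjugate of `M` -/
def Cm (σ : ℂ →+* ℂ) (τ : T3) (M : V2 →ₗ[ℂ] V2) (τ' : T3) (M' : V2 →ₗ[ℂ] V2) : Prop :=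
  (∀ u, ∃ u', Cd σ τ u τ' u') ∧ (∀ u', ∃ u, Cd σ τ u τ' u') ∧
    ∀ u u', Cd σ τ u τ' u' → Cd σ τ (M u) τ' (M' u')

theorem exists_cm (σ : ℂ ≃+* ℂ) (hτ : τ ∈ H2) (hτ' : τ' ∈ H2) (hg : Gen τ)
    (hk : ∀ m, kk m τ' / kk 0 τ' = (σ : ℂ →+* ℂ) (kk m τ / kk 0 τ)) (M : V2 →ₗ[ℂ] V2) :
    ∃ M', Cm σ τ M τ' M' := by
  have hg' := gen_conj hg hk
  choose φ hφ using exists_cd HT hτ hτ' hg hk
  choose ψ hψ using exists_cd (σ := σ.symm) HT hτ' hτ hg' fun m ↦ by rw [hk]; simp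
  have hψ : ∀ u, Cd σ τ (ψ u) τ' u := fun u ↦ (hψ u).symm
  let N' : V2 →ₗ[ℂ] V2 :=
    { toFun := fun z ↦ φ (M (ψ z))
      map_add' := fun a b ↦ cd_right hg' (hφ _) (by
        rw [cd_left hg (hψ _) (cd_add (hψ a) (hψ b)), map_add]
        exact cd_add (hφ _) (hφ _))
      map_smul' := fun c a ↦ cd_right hg' (hφ _) (by
        obtain ⟨c, rfl⟩ : ∃ d, (σ : ℂ →+* ℂ) d = c := σ.surjective c
        rw [cd_left hg (hψ _) (cd_smul (hψ a) c), map_smul]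
        exact cd_smul (hφ _) c) }
  exact ⟨N', fun u ↦ ⟨_, hφ u⟩, fun u ↦ ⟨_, hψ u⟩, fun u u' h ↦ by
    rw [cd_left hg h (hψ u')]; exact hφ _⟩

theorem Cm.left {σ : ℂ →+* ℂ} (h : Cm σ τ M τ' M') (z' : V2) :
    ∃ z, Cd σ τ z τ' z' ∧ Cd σ τ (M z) τ' (M' z') :=
  let ⟨z, hz⟩ := h.2.1 z'
  ⟨z, hz, h.2.2 _ _ hz⟩

theorem Sz.zero (hτ : τ ∈ H2) (h : Sz τ M 0) : M = 0 := by
  refine LinearMap.ext fun u ↦ by_contra fun e ↦ ?_
  have := th_HERM.pos τ hτ _ e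
  rw [h.hn] at this
  simp at this

theorem Sz.conj {σ : ℂ ≃+* ℂ} (h : Sz τ M D) (hg : Gen τ) (hD : 0 < D) (hR : Rf τ M (4 * D) P)
    (hc : Cm σ τ M τ' M') : Sz τ' M' D := by
  obtain ⟨z0, c0, -⟩ := hc.left 0
  have hg' := gen_conj hg c0.hk
  have hC := cross hR hc.left
  have h0 := nonvan hR c0.k0 c0.k0' c0.hk
  have hP := fun m ↦ hom_map (hR.1 m) (σ : ℂ →+* ℂ)
  have sq : ∀ z, M' (M' z) = (D : ℂ) • z := fun z' ↦ by
    obtain ⟨z, a, b⟩ := hc.left z'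
    have c := hc.2.2 _ _ b
    have d := cd_smul a D
    rw [map_natCast, ← h.sq] at d
    exact cd_right hg' c d
  have le : ∀ v, Hn τ' (M' v) ≤ D * Hn τ' v := fun v ↦ by
    have := hn_of_cr c0.mem' hP hC h0 v
    push_cast at this
    linarith
  refine ⟨lat_of_cr c0.mem' hP hC h0, by_contra fun t ↦ ?_, sq, fun v ↦ (le v).antisymm ?_⟩
  · obtain ⟨d, hd⟩ := cayley M'
    obtain ⟨c, hc'⟩ := σ.surjective ((D + d) / trc M')
    have e1 : ∀ z, M' z = σ c • z := fun z ↦ by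
      refine smul_right_injective V2 t ?_
      simp only [hc', smul_smul, mul_div_cancel₀ _ t, add_smul, ← sq, hd]
      abel
    have e2 : ∀ u, M u = c • u := fun u ↦ by
      obtain ⟨u', a⟩ := hc.1 u
      exact cd_left hg (e1 u' ▸ hc.2.2 _ _ a) (cd_smul a c)
    have e3 := h.tr
    simp only [trc, e2, Pi.smul_apply, Matrix.cons_val_zero, Matrix.cons_val_one, smul_eq_mul,
      mul_one] at e3
    have e4 : c = 0 := by linear_combination e3 / 2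
    exact t (by simp [trc, e1, e4])
  · have a := le (M' v)
    rw [sq, th_HERM.smul, normSq_natCast] at a
    have b : (0 : ℝ) < D := by exact_mod_cast hD
    exact le_of_mul_le_mul_left (by linarith) b

theorem half (τ : T3) (μ ν : ℤ × ℤ) : ∃ (E : ℂ) (ζ : Ch → ℂ) (κ : Ch), E ≠ 0 ∧
    (∀ h, ζ h ^ 4 = 1) ∧
    ∀ h, th h τ ((1 / 2 : ℂ) • per τ (iv μ) (iv ν)) = E * (ζ h * kk (h + κ) τ) := by
  choose ε h1 h2 using fun h : Ch ↦ th_BAS.thz ((h.1.val : ℤ) + ν.1, (h.2.1.val : ℤ) + ν.2)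
    ((h.2.2.1.val : ℤ) + μ.1, (h.2.2.2.val : ℤ) + μ.2)
  refine ⟨exp (-π * I * (Qf τ ((1 / 2 : ℂ) • iv ν) + dot ((1 / 2 : ℂ) • iv ν) (iv μ))),
    fun h ↦ exp (-π * I * dot (iv ν) (cb h)) * ε h, (ν.1, ν.2, μ.1, μ.2), exp_ne_zero _,
    fun h ↦ ?_, fun h ↦ ?_⟩
  · have a : (ε h : ℂ) ^ 4 = 1 := by rcases h1 h with e | e <;> rw [e] <;> norm_num
    rw [mul_pow, a, mul_one, ← exp_nat_mul, exp_eq_one_iff]
    refine ⟨-(ν.1 * h.2.2.1.val + ν.2 * h.2.2.2.val), ?_⟩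
    simp only [dot, cb, iv, Matrix.cons_val_zero, Matrix.cons_val_one]
    push_cast
    ring
  · have a : (1 / 2 : ℂ) • per τ (iv μ) (iv ν) + cb h = (0 + (1 / 2 : ℂ) •
        iv ((h.2.2.1.val : ℤ) + μ.1, (h.2.2.2.val : ℤ) + μ.2)) + per τ 0 ((1 / 2 : ℂ) • iv ν) := by
      funext i
      fin_cases i <;> simp [per, iv, cb] <;> ring
    have b : ca h + (1 / 2 : ℂ) • iv ν =
        (1 / 2 : ℂ) • iv ((h.1.val : ℤ) + ν.1, (h.2.1.val : ℤ) + ν.2) := by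
      funext i
      fin_cases i <;> simp [iv, ca] <;> ring
    have c : h + ((ν.1 : ZMod 2), (ν.2 : ZMod 2), (μ.1 : ZMod 2), (μ.2 : ZMod 2)) =
        ((((h.1.val : ℤ) + ν.1 : ℤ) : ZMod 2), (((h.2.1.val : ℤ) + ν.2 : ℤ) : ZMod 2),
          (((h.2.2.1.val : ℤ) + μ.1 : ℤ) : ZMod 2), (((h.2.2.2.val : ℤ) + μ.2 : ℤ) : ZMod 2)) := by
      ext <;> simp
    rw [th, a, th_BAS.shift_per, b, h2, c, kk, ← mul_assoc, ← mul_assoc, ← mul_assoc, ← exp_add]
    congr 3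
    simp only [dot, cb, iv, Pi.add_apply, Pi.smul_apply, Pi.zero_apply, smul_eq_mul,
      Matrix.cons_val_zero, Matrix.cons_val_one]
    push_cast
    ring

theorem fix4 {σ : ℂ →+* ℂ} (hI : σ I = I) {ζ : ℂ} (h : ζ ^ 4 = 1) : σ ζ = ζ := by
  have : (ζ - 1) * (ζ + 1) * (ζ - I) * (ζ + I) = 0 := by
    linear_combination h - (ζ ^ 2 - 1) * I_sq
  simp only [mul_eq_zero, sub_eq_zero, add_eq_zero_iff_eq_neg] at this
  rcases this with ((e | e) | e) | e <;> simp [e, hI]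

theorem sgn_four (μ ν : ℤ × ℤ) (m : Ch) : sgn μ ν m ^ 4 = 1 := by
  have a : ∀ m : Ch, m + m = 0 := by decide
  have b := sgn_add μ ν m m
  rw [a, sgn_zero] at b
  linear_combination -(sgn μ ν m ^ 2 + 1) * b

theorem mod_two {σ : ℂ →+* ℂ} (hτ : τ ∈ H2) (k0 : kk 0 τ ≠ 0) (hI : σ I = I)
    (hk : ∀ m, kk m τ / kk 0 τ = σ (kk m τ / kk 0 τ)) (hM : ∀ z ∈ Lat τ, M z ∈ Lat τ)
    (hR : Rf τ M n P) (hC : Cr τ M' fun m ↦ map σ (P m)) :
    ∀ l ∈ Lat τ, ∃ w ∈ Lat τ, M' l - M l = (2 : ℂ) • w := by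
  rintro l hl
  obtain ⟨μ', ν', e'⟩ := hM l hl
  obtain ⟨μ, ν, rfl⟩ := hl
  obtain ⟨hP, S, hS⟩ := hR
  obtain ⟨E, ζ, κ, E0, h4, hE⟩ := half τ μ ν
  set l := per τ (iv μ) (iv ν)
  have two : ∀ N : V2 →ₗ[ℂ] V2, (2 : ℂ) • N ((1 / 2 : ℂ) • l) = N l := fun N ↦ by
    rw [map_smul, smul_smul]
    norm_num
  set E' := exp (-π * I * (Qf τ (iv ν') + 2 * dot (iv ν') 0))
  have E'0 : E' ≠ 0 := exp_ne_zero _
  have t : ∀ m, th m τ (M l) = E' * kk 0 τ * (sgn μ' ν' m * (kk m τ / kk 0 τ)) := fun m ↦ by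
    have := th_BAS.th_per m τ μ' ν' 0
    rw [zero_add, ← e'] at this
    rw [this, mul_left_comm, mul_assoc E', mul_div_cancel₀ _ k0, ← mul_assoc]
    rfl
  let y : Ch → ℂ := fun h ↦ ζ h * (kk (h + κ) τ / kk 0 τ)
  have y1 : (fun h ↦ th h τ ((1 / 2 : ℂ) • l)) = fun h ↦ E * kk 0 τ * y h := funext fun h ↦ by
    rw [hE]
    simp only [y]
    field_simp
  have y2 : (fun h ↦ σ (y h)) = y := funext fun h ↦ by
    simp only [y]
    rw [map_mul, fix4 hI (h4 h), ← hk]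
  have F0 : (E * kk 0 τ) ^ n ≠ 0 := pow_ne_zero _ (mul_ne_zero E0 k0)
  set c := E' * kk 0 τ * exp (Qf S ((1 / 2 : ℂ) • l)) / (E * kk 0 τ) ^ n with ec
  have c0 : σ c ≠ 0 := (map_ne_zero σ).2
    (div_ne_zero (mul_ne_zero (mul_ne_zero E'0 k0) (exp_ne_zero _)) F0)
  have g : ∀ m, E' * kk 0 τ * eval (fun h ↦ th h τ ((1 / 2 : ℂ) • l)) (map σ (P m)) =
      (E * kk 0 τ) ^ n * σ c * th m τ (M l) := fun m ↦ by
    have a := hS m ((1 / 2 : ℂ) • l)
    rw [two, y1, hom_eval (hP m), t] at a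
    have b : eval y (P m) = c * (sgn μ' ν' m * (kk m τ / kk 0 τ)) := by
      rw [ec, div_mul_eq_mul_div, eq_div_iff F0]
      linear_combination -a
    rw [y1, hom_eval (hom_map (hP m) σ), ← y2, eval_conj, b, map_mul, map_mul,
      fix4 hI (sgn_four _ _ _), ← hk, t]
    ring
  refine th_INJ τ hτ _ _ fun m m' ↦ ?_
  have a := hC m m' ((1 / 2 : ℂ) • l)
  rw [two] at a
  refine mul_left_cancel₀ (mul_ne_zero F0 c0) ?_
  linear_combination E' * kk 0 τ * a - th m τ (M' l) * g m' + th m' τ (M' l) * g m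

/-- the Hermitian form -/
def hf (τ : T3) (u v : V2) : ℂ :=
  ((τ 2).im * (u 0 * conj (v 0)) - (τ 1).im * (u 0 * conj (v 1) + u 1 * conj (v 0)) +
    (τ 0).im * (u 1 * conj (v 1))) / dY τ

theorem hf_self (τ : T3) (v : V2) : hf τ v v = Hn τ v := by
  have a : v 0 * conj (v 1) + v 1 * conj (v 0) = 2 * ((v 0 * conj (v 1)).re : ℂ) := by
    have := add_conj (v 0 * conj (v 1))
    rw [map_mul, conj_conj] at this
    push_cast at this
    linear_combination this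
  rw [hf, Hn, a, mul_conj, mul_conj]
  push_cast
  ring

theorem hf_pol (τ : T3) (u v : V2) : 4 * hf τ u v = Hn τ (u + v) - Hn τ (u - v) +
    I * Hn τ (u + I • v) - I * Hn τ (u - I • v) := by
  simp only [← hf_self, hf, Pi.add_apply, Pi.sub_apply, Pi.smul_apply, smul_eq_mul, map_add,
    map_sub, map_mul, conj_I]
  linear_combination (2 * (((τ 2).im * (u 0 * conj (v 0)) - (τ 1).im * (u 0 * conj (v 1) +
    u 1 * conj (v 0)) + (τ 0).im * (u 1 * conj (v 1))) - ((τ 2).im * (v 0 * conj (u 0)) -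
    (τ 1).im * (v 0 * conj (u 1) + v 1 * conj (u 0)) + (τ 0).im * (v 1 * conj (u 1)))) /
    (dY τ : ℂ)) * I_sq

theorem hf_smul (τ : T3) (a b : ℂ) (u v : V2) :
    hf τ (a • u) (b • v) = a * conj b * hf τ u v := by
  simp only [hf, Pi.smul_apply, smul_eq_mul, map_mul]
  ring

theorem hf_add_l (τ : T3) (u u' v : V2) : hf τ (u + u') v = hf τ u v + hf τ u' v := by
  simp only [hf, Pi.add_apply]
  ring

theorem hf_add_r (τ : T3) (u v v' : V2) : hf τ u (v + v') = hf τ u v + hf τ u v' := by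
  simp only [hf, Pi.add_apply, map_add]
  ring

/-- self adjoint -/
def SA (τ : T3) (M : V2 →ₗ[ℂ] V2) : Prop := ∀ u v, hf τ (M u) v = hf τ u (M v)

theorem Sz.sa (hτ : τ ∈ H2) (h : Sz τ M D) : SA τ M := fun u v ↦ by
  rcases Nat.eq_zero_or_pos D with rfl | hD
  · rw [h.zero hτ]
    simp [hf]
  have a : hf τ (M u) (M (M v)) = D * hf τ u (M v) := by
    have b := hf_pol τ (M u) (M (M v))
    rw [← map_smul M I, ← map_add, ← map_add, ← map_sub, ← map_sub, h.hn, h.hn, h.hn, h.hn] at b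
    push_cast at b
    linear_combination b / 4 - (D : ℂ) / 4 * hf_pol τ u (M v)
  have c := hf_smul τ 1 D (M u) v
  rw [one_smul, ← h.sq, a, one_mul, map_natCast] at c
  exact (mul_left_cancel₀ (Nat.cast_ne_zero.2 hD.ne') c).symm

theorem SA.comb (h : SA τ M) (h' : SA τ M') (a b : ℝ) : SA τ ((a : ℂ) • M + (b : ℂ) • M') :=
  fun u v ↦ by
    have e := fun (N : V2 →ₗ[ℂ] V2) (c : ℝ) (hN : SA τ N) ↦ show
        hf τ ((c : ℂ) • N u) v = hf τ u ((c : ℂ) • N v) by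
      have x := hf_smul τ c 1 (N u) v
      have y := hf_smul τ 1 c u (N v)
      rw [one_smul] at x y
      rw [x, y, hN, conj_ofReal, map_one]
      ring
    simp only [LinearMap.add_apply, LinearMap.smul_apply, hf_add_l, hf_add_r, e _ _ h, e _ _ h']

theorem SA.sy (hτ : τ ∈ H2) (h : SA τ M) (hl : ∀ z ∈ Lat τ, M z ∈ Lat τ) (ht : trc M = 0) :
    ∃ D, Sz τ M D := by
  obtain ⟨d, hd⟩ := cayley M
  simp only [ht, zero_smul, zero_sub, ← neg_smul] at hd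
  have a : ∀ u, (Hn τ (M u) : ℂ) = conj (-d) * Hn τ u := fun u ↦ by
    have := hf_smul τ 1 (-d) u u
    rw [one_smul, one_mul, ← hd, ← h, hf_self, hf_self] at this
    exact this
  have e0 : (![1, 0] : V2) ≠ 0 := fun e ↦ by simpa using congrFun e 0
  have p := th_HERM.pos τ hτ _ e0
  set r := Hn τ (M ![1, 0]) / Hn τ ![1, 0] with er
  have r0 : 0 ≤ r := div_nonneg (th_HERM.nonneg τ hτ _) p.le
  have b : -d = r := by
    have : conj (-d) = r := by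
      rw [er, ofReal_div, a, mul_div_cancel_right₀ _ (ofReal_ne_zero.2 p.ne')]
    rw [← conj_conj (-d), this, conj_ofReal]
  obtain ⟨m, k, e⟩ := hl _ (hl _ ⟨(1, 0), (0, 0), rfl⟩)
  rw [hd, b] at e
  have c := congrFun (th_HERM.per_inj τ hτ ![r, 0] 0 (iv m) (iv k)
    (fun i ↦ by fin_cases i <;> simp [iv]) (by
      rw [← e]
      funext i
      fin_cases i <;> simp [per, iv])).1 0
  simp only [iv, Matrix.cons_val_zero] at c
  have c1 : r = m.1 := by exact_mod_cast c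
  obtain ⟨D, hD⟩ := Int.eq_ofNat_of_zero_le (show 0 ≤ m.1 by exact_mod_cast c1 ▸ r0)
  have c2 : r = D := by rw [c1, hD, Int.cast_natCast]
  refine ⟨D, hl, ht, fun z ↦ by rw [hd, b, c2, ofReal_natCast], fun u ↦ ?_⟩
  have := a u
  rw [b, conj_ofReal, c2] at this
  exact_mod_cast this

/-- two congruent endomorphisms of the same norm are equal up to sign, or there are two shorter
independent ones -/
theorem descent (hτ : τ ∈ H2) (h : Sz τ M D) (h' : Sz τ M' D)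
    (h2 : ∀ l ∈ Lat τ, ∃ w ∈ Lat τ, M' l - M l = (2 : ℂ) • w) :
    M' = M ∨ M' = -M ∨ ∃ N N' E E', Sz τ N E ∧ Sz τ N' E' ∧ 0 < E ∧ 0 < E' ∧ E + E' = D ∧
      ∀ a b : ℂ, a • N + b • N' = 0 → a = 0 ∧ b = 0 := by
  set N : V2 →ₗ[ℂ] V2 := ((1 / 2 : ℝ) : ℂ) • M' + ((-1 / 2 : ℝ) : ℂ) • M with eN
  set N' : V2 →ₗ[ℂ] V2 := ((1 / 2 : ℝ) : ℂ) • M' + ((1 / 2 : ℝ) : ℂ) • M with eN'
  have f : ∀ z, N z = (1 / 2 : ℂ) • (M' z - M z) := fun z ↦ by
    simp only [eN, LinearMap.add_apply, LinearMap.smul_apply]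
    push_cast
    module
  have f' : ∀ z, N' z = (1 / 2 : ℂ) • (M' z + M z) := fun z ↦ by
    simp only [eN', LinearMap.add_apply, LinearMap.smul_apply]
    push_cast
    module
  have l1 : ∀ z ∈ Lat τ, N z ∈ Lat τ := fun z hz ↦ by
    obtain ⟨w, hw, e⟩ := h2 z hz
    rw [f, e, smul_smul]
    simpa using hw
  have l2 : ∀ z ∈ Lat τ, N' z ∈ Lat τ := fun z hz ↦ by
    convert th_BAS.lat_add τ _ (l1 z hz) _ (h.lat z hz) using 1
    rw [f, f']
    module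
  have t1 := h.tr
  have t2 := h'.tr
  obtain ⟨E, s⟩ := SA.sy (M := N) hτ ((h'.sa hτ).comb (h.sa hτ) _ _) l1 (by
    simp only [trc, f, Pi.smul_apply, Pi.sub_apply, smul_eq_mul] at t1 t2 ⊢
    linear_combination (t2 - t1) / 2)
  obtain ⟨E', s'⟩ := SA.sy (M := N') hτ ((h'.sa hτ).comb (h.sa hτ) _ _) l2 (by
    simp only [trc, f', Pi.smul_apply, Pi.add_apply, smul_eq_mul] at t1 t2 ⊢
    linear_combination (t2 + t1) / 2)
  rcases Nat.eq_zero_or_pos E with rfl | p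
  · refine Or.inl (LinearMap.ext fun z ↦ ?_)
    have := f z
    rw [s.zero hτ, LinearMap.zero_apply] at this
    linear_combination (norm := module) (-2 : ℂ) • this
  rcases Nat.eq_zero_or_pos E' with rfl | p'
  · refine Or.inr (Or.inl (LinearMap.ext fun z ↦ ?_))
    have := f' z
    rw [s'.zero hτ, LinearMap.zero_apply] at this
    rw [LinearMap.neg_apply]
    linear_combination (norm := module) (-2 : ℂ) • this
  have u : ∀ c : ℂ, (∀ z : V2, c • z = 0) → c = 0 := fun c hc ↦ by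
    simpa using congrFun (hc ![1, 0]) 0
  have g : ∀ z, N (N' z) + N' (N z) = 0 := fun z ↦ by
    simp only [f, f', map_smul, map_add, map_sub, h.sq, h'.sq]
    module
  refine Or.inr (Or.inr ⟨N, N', E, E', s, s', p, p', ?_, fun a b e ↦ ?_⟩)
  · have : (E : ℂ) + E' - D = 0 := u _ fun z ↦ by
      rw [sub_smul, add_smul, ← s.sq, ← s'.sq]
      simp only [f, f', map_smul, map_add, map_sub, h.sq, h'.sq]
      module
    exact_mod_cast sub_eq_zero.1 this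
  · have e1 : ∀ z, a • N z + b • N' z = 0 := fun z ↦ LinearMap.congr_fun e z
    have a0 : 2 * a * E = 0 := u _ fun z ↦ by
      have x := congrArg N (e1 z)
      have y := e1 (N z)
      rw [map_add, map_smul, map_smul, s.sq, map_zero] at x
      rw [s.sq] at y
      linear_combination (norm := module) x + y - b • g z
    have a1 : a = 0 := by simpa [p.ne'] using a0
    have b0 : b * E' = 0 := u _ fun z ↦ by
      have y := e1 (N' z)
      rw [a1, s'.sq] at y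
      linear_combination (norm := module) y
    exact ⟨a1, by simpa [p'.ne'] using b0⟩

end Pool.Agent.Lib.ECM.QM.XCJ
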