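import Pool.Agent.Lib.QM.QBlue
import Pool.Agent.Lib.QM.Q_CJ2

/-! Symmetric endomorphisms and singular relations. -/

open Complex
open scoped ComplexConjugate

set_option linter.unusedVariables false

noncomputable section

namespace Pool.Agent.Lib.ECM.QM

namespace XSL

open XCJ

variable {τ : T3} {M : V2 →ₗ[ℂ] V2} {D : ℕ} {r : Fin 5 → ℤ}

theorem e1_ne : (![1, 0] : V2) ≠ 0 := fun e ↦ by simpa using congrFun e 0

theorem sz_of (h : Sy τ M D) : Sz τ M D := ⟨h.lat, trc_eq M ▸ h.tr, h.sq, h.hn⟩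

theorem sy_of (hτ : τ ∈ H2) (h : Sz τ M D) (h0 : M ≠ 0) : Sy τ M D :=
  ⟨Nat.pos_of_ne_zero fun e ↦ h0 (Sz.zero hτ (e ▸ h)), h.lat, (trc_eq M).trans h.tr, h.sq, h.hn⟩

theorem dY_ne (hτ : τ ∈ H2) : dY τ ≠ 0 := (sub_pos.2 hτ.2).ne'

theorem hm_apply (r : Fin 5 → ℤ) (τ : T3) (z : V2) : hm r τ z =
    ![(r 1 + 2 * r 3 * τ 1) * z 0 + (2 * r 2 - 2 * r 3 * τ 0) * z 1,
      (-2 * r 0 + 2 * r 3 * τ 2) * z 0 + (-r 1 - 2 * r 3 * τ 1) * z 1] := by
  funext i
  fin_cases i <;> simp [hm, Matrix.mulVec, dotProduct, Fin.sum_univ_two]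

theorem hm_per (h : rel r τ = 0) (m n : ℤ × ℤ) : hm r τ (per τ (iv m) (iv n)) =
    per τ (iv (r 1 * m.1 + 2 * r 2 * m.2 - 2 * r 4 * n.2, -2 * r 0 * m.1 - r 1 * m.2 + 2 * r 4 * n.1))
      (iv (-2 * r 3 * m.2 + r 1 * n.1 - 2 * r 0 * n.2, 2 * r 3 * m.1 + 2 * r 2 * n.1 - r 1 * n.2)) := by
  rw [hm_apply]
  unfold rel at h
  funext i
  fin_cases i <;> simp [per, iv]
  · linear_combination 2 * n.2 * h
  · linear_combination -2 * n.1 * h

theorem hm_sq (h : rel r τ = 0) (z : V2) : hm r τ (hm r τ z) = (disc r : ℂ) • z := by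
  rw [hm_apply, hm_apply]
  unfold rel at h
  funext i
  fin_cases i <;> simp [disc]
  · linear_combination 4 * r 3 * z 0 * h
  · linear_combination 4 * r 3 * z 1 * h

theorem hm_sa (h : rel r τ = 0) : SA τ (hm r τ) := fun u v ↦ by
  have a := congrArg (fun w : ℂ ↦ (w.im : ℂ)) h
  simp only [rel, add_im, mul_im, intCast_re, intCast_im, sub_im, sq, zero_mul, add_zero,
    zero_im] at a
  push_cast at a
  have c : ∀ i, conj (τ i) = (τ i).re - (τ i).im * I := fun i ↦ by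
    apply Complex.ext <;> simp
  simp only [hf, hm_apply, Matrix.cons_val_zero, Matrix.cons_val_one, map_add, map_mul, map_sub,
    map_neg, map_intCast, map_ofNat, c]
  congr 1
  generalize conj (v 0) = p, conj (v 1) = q
  have e := fun i ↦ (re_add_im (τ i)).symm
  linear_combination 2 * (u 1 * p - u 0 * q) * a +
    2 * r 3 * ((τ 2).im * u 0 * p + (τ 1).im * (u 0 * q - u 1 * p) * (-1) - (τ 0).im * u 1 * q +
      0) * e 1 +
    2 * r 3 * ((τ 0).im * u 0 * q - (τ 1).im * u 0 * p) * e 2 +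
    2 * r 3 * ((τ 1).im * u 1 * q - (τ 2).im * u 1 * p) * e 0

theorem hm_comb (x y : ℤ) (r s : Fin 5 → ℤ) (τ : T3) (z : V2) :
    hm (x • r + y • s) τ z = (x : ℂ) • hm r τ z + (y : ℂ) • hm s τ z := by
  simp only [hm_apply]
  funext i
  fin_cases i <;> simp <;> ring

theorem hm_zero (τ : T3) (z : V2) : hm 0 τ z = 0 := by
  rw [hm_apply]
  funext i
  fin_cases i <;> simp

theorem im_hf (hτ : τ ∈ H2) (m n m' n' : ℤ × ℤ) :
    (hf τ (per τ (iv m) (iv n)) (per τ (iv m') (iv n'))).im =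
      ((n.1 * m'.1 + n.2 * m'.2 - m.1 * n'.1 - m.2 * n'.2 : ℤ) : ℝ) := by
  rw [hf, div_ofReal_im, div_eq_iff (dY_ne hτ)]
  simp [per, iv, dY]
  ring

/-- proportional endomorphisms come from proportional relations -/
theorem prop_of (hτ : τ ∈ H2) {s : Fin 5 → ℤ} (hr : rel r τ = 0) (hs : rel s τ = 0) (c : ℝ)
    (h : hm s τ = (c : ℂ) • hm r τ) (i : Fin 5) : (s i : ℝ) = c * r i := by
  have k : ∀ m n m' n' : ℤ × ℤ, (hf τ (hm s τ (per τ (iv m) (iv n))) (per τ (iv m') (iv n'))).im =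
      c * (hf τ (hm r τ (per τ (iv m) (iv n))) (per τ (iv m') (iv n'))).im := fun m n m' n' ↦ by
    have := hf_smul τ c 1 (hm r τ (per τ (iv m) (iv n))) (per τ (iv m') (iv n'))
    rw [one_smul, map_one, mul_one] at this
    rw [h, LinearMap.smul_apply, this, im_ofReal_mul]
  simp only [hm_per hr, hm_per hs, im_hf hτ] at k
  fin_cases i
  · have := k (1, 0) (0, 0) (0, 0) (0, 1)
    simp at this ⊢
    linarith
  · have := k (1, 0) (0, 0) (0, 0) (1, 0)
    simp at this ⊢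
    linarith
  · have := k (0, 1) (0, 0) (0, 0) (1, 0)
    simp at this ⊢
    linarith
  · have := k (1, 0) (0, 0) (0, 1) (0, 0)
    simp at this ⊢
    linarith
  · have := k (0, 0) (0, 1) (0, 0) (1, 0)
    simp at this ⊢
    linarith

theorem of_rel (hτ : τ ∈ H2) (h0 : r ≠ 0) (h : rel r τ = 0) :
    ∃ D : ℕ, (D : ℤ) = disc r ∧ Sy τ (hm r τ) D := by
  obtain ⟨D, hD⟩ := (hm_sa h).sy hτ (by rintro _ ⟨m, n, rfl⟩; exact ⟨_, _, hm_per h m n⟩)
    (by simp [trc, hm_apply])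
  refine ⟨D, ?_, sy_of hτ hD fun e ↦ h0 (funext fun i ↦ ?_)⟩
  · have := congrFun ((hD.sq ![1, 0]).symm.trans (hm_sq h _)) 0
    simp only [Pi.smul_apply, Matrix.cons_val_zero, smul_eq_mul, mul_one] at this
    exact_mod_cast this
  · have := prop_of hτ h h 0 (by simp [e]) i
    simpa using this

theorem to_rel (hτ : τ ∈ H2) (h : Sy τ M D) :
    ∃ r, r ≠ 0 ∧ rel r τ = 0 ∧ hm r τ = (2 : ℂ) • M ∧ disc r = 4 * D := by
  obtain ⟨m1, n1, e1⟩ := h.lat _ ⟨(1, 0), (0, 0), rfl⟩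
  obtain ⟨m2, n2, e2⟩ := h.lat _ ⟨(0, 1), (0, 0), rfl⟩
  obtain ⟨m4, n4, e4⟩ := h.lat _ ⟨(0, 0), (0, 1), rfl⟩
  have sa := fun u v ↦ congrArg im ((sz_of h).sa hτ u v)
  have a1 := sa (per τ (iv (1, 0)) (iv (0, 0))) (per τ (iv (1, 0)) (iv (0, 0)))
  have a2 := sa (per τ (iv (0, 1)) (iv (0, 0))) (per τ (iv (0, 1)) (iv (0, 0)))
  have a3 := sa (per τ (iv (1, 0)) (iv (0, 0))) (per τ (iv (0, 1)) (iv (0, 0)))
  have a4 := sa (per τ (iv (1, 0)) (iv (0, 0))) (per τ (iv (0, 0)) (iv (0, 1)))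
  have a5 := sa (per τ (iv (0, 1)) (iv (0, 0))) (per τ (iv (0, 0)) (iv (0, 1)))
  simp only [e1, e2, e4, im_hf hτ, Int.cast_inj] at a1 a2 a3 a4 a5
  have b1 : n1.1 = 0 := by omega
  have b2 : n2.2 = 0 := by omega
  have b3 : n2.1 = -n1.2 := by omega
  have b4 : n4.1 = m1.2 := by omega
  have b5 : n4.2 = m2.2 := by omega
  have p1 : per τ (iv (1, 0)) (iv (0, 0)) = ![1, 0] := by
    funext i; fin_cases i <;> simp [per, iv]
  have p2 : per τ (iv (0, 1)) (iv (0, 0)) = ![0, 1] := by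
    funext i; fin_cases i <;> simp [per, iv]
  rw [p1] at e1
  rw [p2] at e2
  have t := (sz_of h).tr
  rw [MENC.split M, e1, e2] at e4
  have q := congrFun e4 0
  simp [trc, e1, e2, per, iv, b1, b2, b3] at t
  simp [per, iv, b1, b2, b3, b4, b5] at q
  have c1 : rel ![-m1.2, 2 * m1.1, m2.1, n1.2, -m4.1] τ = 0 := by
    simp [rel]
    linear_combination q + τ 1 * t
  have c2 : hm ![-m1.2, 2 * m1.1, m2.1, n1.2, -m4.1] τ = (2 : ℂ) • M := by
    refine LinearMap.ext fun z ↦ ?_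
    rw [LinearMap.smul_apply, MENC.split M, e1, e2, hm_apply]
    funext i
    fin_cases i <;> simp [per, iv, b1, b2, b3]
    · ring
    · linear_combination -2 * z 1 * t
  have c3 : disc ![-m1.2, 2 * m1.1, m2.1, n1.2, -m4.1] = 4 * D := by
    have := congrFun (hm_sq c1 ![1, 0]) 0
    simp only [c2, LinearMap.smul_apply, map_smul, h.sq, Pi.smul_apply, Matrix.cons_val_zero,
      smul_eq_mul, mul_one] at this
    have e : ((4 * D : ℤ) : ℂ) = _ := (by push_cast; ring : _ = _).trans this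
    exact_mod_cast e.symm
  refine ⟨_, fun e ↦ ?_, c1, c2, c3⟩
  rw [e] at c3
  have := h.pos
  simp [disc] at c3
  omega

theorem real_of_sq {c : ℂ} {a b : ℕ} (ha : 0 < a) (hb : 0 < b) (h : c * c * a = b) : c.im = 0 := by
  have h1 := congrArg re h
  have h2 := congrArg im h
  simp [ha.ne'] at h1 h2
  have a0 : (0 : ℝ) < a := by exact_mod_cast ha
  have b0 : (0 : ℝ) < b := by exact_mod_cast hb
  by_contra e
  have : c.re = 0 := by
    refine mul_right_cancel₀ e ?_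
    linarith
  rw [this] at h1
  nlinarith [mul_self_nonneg c.im]

theorem two (hτ : τ ∈ H2) : Sing2 τ ↔ ∃ N, Two τ N := by
  constructor
  · rintro ⟨r, s, hi, hr, hs⟩
    have r0 : r ≠ 0 := hi.ne_zero 0
    obtain ⟨D₁, -, h1⟩ := of_rel hτ r0 hr
    obtain ⟨D₂, -, h2⟩ := of_rel hτ (hi.ne_zero 1) hs
    refine ⟨max D₁ D₂, _, _, _, _, h1, h2, le_max_left _ _, le_max_right _ _, fun c e ↦ ?_⟩
    have a := congrFun (h2.sq ![1, 0]) 0
    simp only [e, LinearMap.smul_apply, map_smul, h1.sq, Pi.smul_apply, Matrix.cons_val_zero,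
      smul_eq_mul, mul_one] at a
    have b : c = (c.re : ℂ) := Complex.ext rfl (by
      rw [ofReal_im]; exact real_of_sq h1.pos h2.pos (by rw [← a]; ring))
    have k := prop_of hτ hr hs c.re (b ▸ e)
    obtain ⟨i, hi'⟩ := Function.ne_iff.1 r0
    refine hi' (LinearIndependent.pair_iff.1 hi (-s i) (r i) (funext fun j ↦ ?_)).2
    have : ((-s i * r j + r i * s j : ℤ) : ℝ) = 0 := by
      push_cast
      rw [k i, k j]
      ring
    exact_mod_cast this
  · rintro ⟨N, M₁, M₂, D₁, D₂, h1, h2, -, -, h⟩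
    obtain ⟨r, r0, hr, e1, -⟩ := to_rel hτ h1
    obtain ⟨s, -, hs, e2, -⟩ := to_rel hτ h2
    refine ⟨r, s, LinearIndependent.pair_iff.2 fun x y e ↦ ?_, hr, hs⟩
    have y0 : y = 0 := by_contra fun y0 ↦ h (-x / y) (LinearMap.ext fun z ↦ by
      have a := hm_comb x y r s τ z
      rw [e, hm_zero, e1, e2, LinearMap.smul_apply, LinearMap.smul_apply] at a
      have y1 : (y : ℂ) ≠ 0 := Int.cast_ne_zero.2 y0
      refine smul_right_injective V2 y1 ?_
      simp only [LinearMap.smul_apply, smul_smul, mul_div_cancel₀ _ y1]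
      linear_combination (norm := module) (-1 / 2 : ℂ) • a)
    rw [y0, zero_smul, add_zero] at e
    exact ⟨(smul_eq_zero.1 e).resolve_right r0, y0⟩

theorem re_pol (τ : T3) (u v : V2) : 4 * (hf τ u v).re = Hn τ (u + v) - Hn τ (u - v) := by
  simpa using congrArg re (hf_pol τ u v)

theorem para (τ : T3) (u v : V2) : Hn τ (u + v) + Hn τ (u - v) = 2 * (Hn τ u + Hn τ v) := by
  have : (Hn τ (u + v) : ℂ) + Hn τ (u - v) = 2 * (Hn τ u + Hn τ v) := by
    simp only [← hf_self, hf, Pi.add_apply, Pi.sub_apply, map_add, map_sub]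
    ring
  exact_mod_cast this

theorem move (hτ : τ ∈ H2) {M₁ M₂ : V2 →ₗ[ℂ] V2} {D₁ D₂ : ℕ} (h1 : Sy τ M₁ D₁) (h2 : Sy τ M₂ D₂)
    (h : ∀ c : ℂ, M₂ ≠ c • M₁) {u : V2} (hu : u ≠ 0) (c₁ c₂ : ℂ) (e1 : M₁ u = c₁ • u) :
    M₂ u ≠ c₂ • u := fun e2 ↦ by
  have k : ∀ {M D} {c : ℂ}, Sy τ M D → M u = c • u → ∃ x : ℝ, x ≠ 0 ∧ M u = (x : ℂ) • u := by
    intro M D c hM e
    have a := hM.sq u
    rw [e, map_smul, e, smul_smul] at a
    have b : c * c = D := smul_left_injective ℂ hu a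
    have d : c = (c.re : ℂ) := Complex.ext rfl (by
      rw [ofReal_im]; exact real_of_sq one_pos hM.pos (by rw [← b]; simp))
    refine ⟨c.re, fun e0 ↦ hM.pos.ne' ?_, d ▸ e⟩
    rw [d, e0] at b
    exact_mod_cast (by simpa using b.symm : (D : ℂ) = 0)
  obtain ⟨x, x0, a1⟩ := k h1 e1
  obtain ⟨y, -, a2⟩ := k h2 e2
  have sa := ((sz_of h2).sa hτ).comb ((sz_of h1).sa hτ) 1 (-(y / x))
  set N : V2 →ₗ[ℂ] V2 := ((1 : ℝ) : ℂ) • M₂ + ((-(y / x) : ℝ) : ℂ) • M₁ with eN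
  have x1 : (x : ℂ) ≠ 0 := ofReal_ne_zero.2 x0
  have n0 : N u = 0 := by
    simp only [eN, LinearMap.add_apply, LinearMap.smul_apply, a1, a2, smul_smul, ← add_smul]
    push_cast
    rw [neg_mul, div_mul_cancel₀ _ x1, one_mul, add_neg_cancel, zero_smul]
  have t : trc N = 0 := by
    have t1 := (sz_of h1).tr
    have t2 := (sz_of h2).tr
    simp only [trc, eN, LinearMap.add_apply, LinearMap.smul_apply, Pi.add_apply, Pi.smul_apply,
      smul_eq_mul] at t1 t2 ⊢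
    linear_combination ((1 : ℝ) : ℂ) * t2 + ((-(y / x) : ℝ) : ℂ) * t1
  obtain ⟨d, hd⟩ := cayley N
  simp only [t, zero_smul, zero_sub] at hd
  have d0 : d = 0 := by
    have := hd u
    rw [n0, map_zero, eq_comm, neg_eq_zero, smul_eq_zero] at this
    exact this.resolve_right hu
  refine h ((y / x : ℝ) : ℂ) (LinearMap.ext fun z ↦ ?_)
  have z0 : N z = 0 := by_contra fun e ↦ by
    have a := sa z (N z)
    rw [hf_self, hd, d0, zero_smul, neg_zero] at a
    exact (th_HERM.pos τ hτ _ e).ne' (by simpa [hf] using a)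
  simp only [eN, LinearMap.add_apply, LinearMap.smul_apply] at z0 ⊢
  push_cast at z0 ⊢
  linear_combination (norm := module) z0

end XSL

open XSL XCJ in
theorem st_SL : St_SL where
  of_rel := fun τ hτ r h0 h ↦ of_rel hτ h0 h
  to_rel := fun τ hτ M D h ↦ to_rel hτ h
  two := fun τ hτ ↦ two hτ
  sing := fun τ hτ M D h ↦ by
    obtain ⟨r, r0, hr, -⟩ := to_rel hτ h
    refine ⟨r 0, r 1, r 2, r 3, r 4, fun ⟨a, b, c, d, e⟩ ↦ r0 (funext fun i ↦ ?_), hr⟩
    fin_cases i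
    exacts [a, b, c, d, e]
  mk' := fun τ hτ M h0 hl ht h ↦ by
    obtain ⟨D, hD⟩ := SA.sy (M := M) hτ (fun u v ↦ by
      have a := congrArg ofReal (h u v)
      have b := congrArg ofReal (h u (I • v))
      rw [map_smul] at b
      push_cast at a b
      linear_combination (hf_pol τ (M u) v - hf_pol τ u (M v) + a + I * b) / 4) hl
      (trc_eq M ▸ ht)
    exact ⟨D, sy_of hτ hD h0⟩
  adj := fun τ hτ M D h u v ↦ by rw [← re_pol, ← re_pol, (sz_of h).sa hτ]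
  add := fun τ hτ M₁ M₂ D₁ D₂ h1 h2 h0 ↦ by
    have sa := ((sz_of h1).sa hτ).comb ((sz_of h2).sa hτ) 1 1
    simp only [ofReal_one, one_smul] at sa
    obtain ⟨D, hD⟩ := sa.sy hτ (fun z hz ↦ th_BAS.lat_add τ _ (h1.lat z hz) _ (h2.lat z hz))
      (by rw [← trc_eq, map_add, h1.tr, h2.tr, add_zero])
    refine ⟨D, ?_, sy_of hτ hD h0⟩
    have a := para τ (M₁ ![1, 0]) (M₂ ![1, 0])
    have b := th_HERM.nonneg τ hτ (M₁ ![1, 0] - M₂ ![1, 0])
    have c := hD.hn ![1, 0]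
    rw [LinearMap.add_apply] at c
    rw [c, h1.hn, h2.hn] at a
    have : (D : ℝ) ≤ 2 * (D₁ + D₂) :=
      le_of_mul_le_mul_right (by linarith) (th_HERM.pos τ hτ _ e1_ne)
    exact_mod_cast this
  move := fun τ hτ M₁ M₂ D₁ D₂ h1 h2 h u hu ↦ move hτ h1 h2 h hu
  map := fun τ τ' g hl hn M D h ↦
    ⟨h.pos, fun z hz ↦ (hl _).2 (h.lat _ ((hl _).1 (by simpa using hz))),
      (LinearMap.trace_conj' M g).trans h.tr, fun z ↦ by simp [h.sq], fun z ↦ by
        have := hn (g.symm z)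
        rw [g.apply_symm_apply] at this
        rw [this, ← h.hn, ← hn]
        rfl⟩
  cnt := fun τ hτ ↦ (Set.countable_range fun r ↦ (1 / 2 : ℂ) • hm r τ).mono fun M ⟨D, h⟩ ↦ by
    obtain ⟨r, -, -, e, -⟩ := to_rel hτ h
    exact ⟨r, by simp only [e, smul_smul]; norm_num⟩

end Pool.Agent.Lib.ECM.QM
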