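import Pool.Agent.Lib.QM.QS
import Pool.Agent.Lib.ECM.Blue3
import Pool.Agent.Lib.ECM.HTBlue

/-! Blueprint of the theorem on curves which miss the triple root lines (problem MP_0704bf_ag). -/

open Filter Topology
open scoped Real

noncomputable section

namespace Pool.Agent.Lib.ECM.QM

open Pool.Agent.Lib.ZP3 (Deg Sm)

/-! ### monomials in the theta constants -/

/-- the even characteristic attached to a pair of finite branch points -/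
def S (a b : Fin 5) : Ch := hA + od a + od b

/-- the product over the three pairs disjoint from `a`, `b` -/
def mu {R : Type} [CommMonoid R] (x : Ch → R) (a b : Fin 5) : R :=
  ∏ p ∈ Finset.univ.filter (fun p : Fin 5 × Fin 5 ↦
    p.1 < p.2 ∧ p.1 ≠ a ∧ p.1 ≠ b ∧ p.2 ≠ a ∧ p.2 ≠ b), x (S p.1 p.2)

/-- the product over the four pairs containing `a` -/
def nu {R : Type} [CommMonoid R] (x : Ch → R) (a : Fin 5) : R :=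
  ∏ j ∈ Finset.univ.erase a, x (S a j)

/-- the product over the ten even characteristics -/
def chi {R : Type} [CommMonoid R] (x : Ch → R) : R := ∏ m ∈ Finset.univ.filter Ev, x m

/-- the branch points as polynomials in the theta constants -/
def Er {R : Type} [CommRing R] (ε : Fin 4 → ℤ) (x : Ch → R) : Fin 4 → R :=
  fun a ↦ ε a * mu x a.castSucc 4 ^ 2

/-- `U` is the normalised tangent vector of the theta divisor at the branch point at infinity -/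
def Tg (x : Ch → ℂ) (τ : T3) (U : V2) : Prop :=
  lv τ U hA = 0 ∧ ∀ a, lv τ U (od a) ^ 2 = nu x a ^ 2

/-! ### symmetric endomorphisms -/

/-- a symmetric endomorphism of trace zero and square `D` -/
structure Sy (τ : T3) (M : V2 →ₗ[ℂ] V2) (D : ℕ) : Prop where
  pos : 0 < D
  lat : ∀ z ∈ Lat τ, M z ∈ Lat τ
  tr : LinearMap.trace ℂ V2 M = 0
  sq : ∀ z, M (M z) = (D : ℂ) • z
  hn : ∀ z, Hn τ (M z) = D * Hn τ z

/-- two independent symmetric endomorphisms of size at most `N` -/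
def Two (τ : T3) (N : ℕ) : Prop := ∃ M₁ M₂ D₁ D₂, Sy τ M₁ D₁ ∧ Sy τ M₂ D₂ ∧ D₁ ≤ N ∧ D₂ ≤ N ∧
  ∀ c : ℂ, M₂ ≠ c • M₁

/-- `a` is the matrix of `M` in the algebraic coordinates -/
def Ent (τ : T3) (M : V2 →ₗ[ℂ] V2) (a : M2) : Prop :=
  ∀ v, ![lv τ (M v) hA, lv τ (M v) hB] = a.mulVec ![lv τ v hA, lv τ v hB]

/-- the endomorphism attached to a singular relation -/
def hm (r : Fin 5 → ℤ) (τ : T3) : V2 →ₗ[ℂ] V2 :=
  Matrix.toLin' !![r 1 + 2 * r 3 * τ 1, 2 * r 2 - 2 * r 3 * τ 0;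
    -2 * r 0 + 2 * r 3 * τ 2, -r 1 - 2 * r 3 * τ 1]

/-- the discriminant of a singular relation -/
def disc (r : Fin 5 → ℤ) : ℤ := r 1 ^ 2 - 4 * r 0 * r 2 - 4 * r 3 * r 4

/-! ### no triple root -/

def NTa (c : ℝ) (x : Ch → ℂ) : Prop := ∀ i j l a b : Fin 5, i ≠ j → j ≠ l → i ≠ l → a ≠ b →
  ‖mu x a b‖ ≤ c * max ‖mu x i j‖ ‖mu x j l‖

def NTf (k : ℕ) (x : Ch → ℂ) : Prop := ∀ (V : ValuationSubring ℂ) (i j l a b : Fin 5),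
  i ≠ j → j ≠ l → i ≠ l → a ≠ b →
  V.valuation (k * mu x a b) ≤ max (V.valuation (mu x i j)) (V.valuation (mu x j l))

/-- three branch points never come together, at any place -/
def NT (P : Id) : Prop := ∃ (c : ℝ) (k : ℕ), 0 < k ∧
  ∀ x ∈ Cv P, (∃ τ, Over x τ ∧ Gen τ) → NTa c x ∧ NTf k x

/-- the zero set is a cone -/
def Cone (P : Ideal (MvPolynomial (Fin 4) Qb)) : Prop := ∀ e ∈ Zs P, ∀ t : ℂ, t • e ∈ Zs P

/-- the projective curve misses the ten lines where three branch points meet -/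
def NoT (P : Ideal (MvPolynomial (Fin 4) Qb)) : Prop := ∀ e ∈ Zs P, ∀ i j l : Fin 5,
  i ≠ j → j ≠ l → i ≠ l → rt e i = rt e j → rt e j = rt e l → e = 0

/-! ### the theta divisor -/

structure St_GEO : Prop where
  jac : ∃ ε : Fin 4 → ℤ, (∀ a, ε a = 1 ∨ ε a = -1) ∧ ∀ x τ, Over x τ → Gen τ →
    Jac (Er ε x) τ ∧ ∀ a b, a ≠ b → (rt (Er ε x) a - rt (Er ε x) b) ^ 2 = mu x a b ^ 4
  uniq : ∀ e e' τ, Jac e τ → Jac e' τ → ∃ t : ℂ, t ≠ 0 ∧ e' = t • e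
  tg : ∀ x τ, Over x τ → Gen τ → ∃ U, Tg x τ U

/-- an arc on the theta divisor, which is the curve `y² = ∏ (s - E a)` with `y = ∏ r a` -/
structure Arc5 (τ : T3) (U A : V2) (E : Fin 5 → ℂ) (z : ℂ → V2) (c s : ℂ → ℂ)
    (r : Fin 5 → ℂ → ℂ) : Prop where
  an : AnalyticAt ℂ z 0
  z0 : z 0 = 0
  zo : ∀ t, z (-t) = -z t
  se : ∀ t, s (-t) = s t
  ro : ∀ a t, r a (-t) = -r a t
  big : Tendsto s (𝓝[≠] 0) (Bornology.cobounded ℂ)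
  ev : ∀ᶠ t in 𝓝[≠] (0 : ℂ), c t ≠ 0 ∧ th hA τ (z t) = 0 ∧
    (∀ a, th (od a) τ (z t) = c t * (ll (od a) τ U * r a t)) ∧
    (∀ a b, a ≠ b → th (S a b) τ (z t) = c t * (kk (S a b) τ * (r a t * r b t))) ∧
    (∀ a, r a t ^ 2 = s t - E a) ∧ (∀ a, DifferentiableAt ℂ (r a) t) ∧
    DifferentiableAt ℂ s t ∧ deriv s t ≠ 0 ∧
    (∏ a, r a t) • deriv z t = deriv s t • (A - (s t / 2) • U)

def St_ARC5 : Prop := ∀ τ ∈ H2, Gen τ → ∀ U, ll hA τ U = 0 →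
  (∀ a, ll (od a) τ U ^ 2 = nu (fun m ↦ kk m τ) a ^ 2) → ∃ A E z c s r, E 4 = 0 ∧
    (∀ a, a ≠ 4 → E a ^ 2 = mu (fun m ↦ kk m τ) a 4 ^ 4) ∧ Arc5 τ U A E z c s r

/-- the endomorphism `2 M` is given by polynomials in the theta functions -/
def St_RAT : Prop := ∀ τ ∈ H2, ∀ M D, Sy τ M D → ∃ (q : T3) (P : Ch → MvPolynomial Ch ℂ),
  (∀ m, (P m).IsWeightedHomogeneous (fun h : Ch ↦ ((1 : ℕ), h)) (4 * D, 0)) ∧
  ∀ m z, th m τ ((2 : ℂ) • M z) * Complex.exp (Qf q z) =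
    MvPolynomial.eval (fun h ↦ th h τ z) (P m)

/-- the bound at the finite places -/
def St_FINQ : Prop := ∀ x τ M D U, Over x τ → Gen τ → Sy τ M D → Tg x τ U →
  ∀ (V : ValuationSubring ℂ) (g h : Ch), ∃ n a b, a ≠ b ∧
    V.valuation (16 * (x g * lv τ (M U) h)) ≤
      V.valuation (mu x a b * (x n * x (n + (g + h))))

/-- the bound at the infinite places -/
def St_ARCQ : Prop := ∃ c : ℝ, 1 ≤ c ∧ ∀ x τ M D U, Over x τ → Gen τ → Sy τ M D → Tg x τ U →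
  ∃ m, Ev m ∧ ∀ g h, ∃ n a b, a ≠ b ∧ ‖x g * lv τ (M U) h‖ ^ 12 ≤
    c * (D : ℝ) ^ 6 * (1 + Real.log (‖x‖ / ‖x m‖)) ^ 6 *
      ‖mu x a b * (x n * x (n + (g + h)))‖ ^ 12

/-! ### relations, conjugates, degrees -/

structure St_SL : Prop where
  of_rel : ∀ τ ∈ H2, ∀ r, r ≠ 0 → rel r τ = 0 → ∃ D : ℕ, (D : ℤ) = disc r ∧ Sy τ (hm r τ) D
  to_rel : ∀ τ ∈ H2, ∀ M D, Sy τ M D → ∃ r, r ≠ 0 ∧ rel r τ = 0 ∧ hm r τ = (2 : ℂ) • M ∧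
    disc r = 4 * D
  two : ∀ τ ∈ H2, Sing2 τ ↔ ∃ N, Two τ N
  sing : ∀ τ ∈ H2, ∀ M D, Sy τ M D → Sing τ
  /-- self adjoint, traceless, nonzero -/
  mk' : ∀ τ ∈ H2, ∀ M : V2 →ₗ[ℂ] V2, M ≠ 0 → (∀ z ∈ Lat τ, M z ∈ Lat τ) →
    LinearMap.trace ℂ V2 M = 0 →
    (∀ u v, Hn τ (M u + v) - Hn τ (M u - v) = Hn τ (u + M v) - Hn τ (u - M v)) → ∃ D, Sy τ M D
  adj : ∀ τ ∈ H2, ∀ M D, Sy τ M D → ∀ u v,
    Hn τ (M u + v) - Hn τ (M u - v) = Hn τ (u + M v) - Hn τ (u - M v)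
  add : ∀ τ ∈ H2, ∀ M₁ M₂ D₁ D₂, Sy τ M₁ D₁ → Sy τ M₂ D₂ → M₁ + M₂ ≠ 0 →
    ∃ D, D ≤ 2 * (D₁ + D₂) ∧ Sy τ (M₁ + M₂) D
  /-- no common eigenvector -/
  move : ∀ τ ∈ H2, ∀ M₁ M₂ D₁ D₂, Sy τ M₁ D₁ → Sy τ M₂ D₂ → (∀ c : ℂ, M₂ ≠ c • M₁) →
    ∀ u, u ≠ 0 → ∀ c₁ c₂ : ℂ, M₁ u = c₁ • u → M₂ u ≠ c₂ • u
  map : ∀ τ τ' (g : V2 ≃ₗ[ℂ] V2), (∀ z, g z ∈ Lat τ' ↔ z ∈ Lat τ) → (∀ v, Hn τ' (g v) = Hn τ v) →
    ∀ M D, Sy τ M D → Sy τ' (g.toLinearMap ∘ₗ M ∘ₗ g.symm.toLinearMap) D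
  cnt : ∀ τ ∈ H2, {M | ∃ D, Sy τ M D}.Countable

/-- squares of curves with complex multiplication -/
def St_SQ2 : Prop := ∀ τ ∈ H2, SqCM τ → ∃ N, Two τ N

/-- the conjugate of a symmetric endomorphism -/
def St_CJM : Prop := ∀ (σ : ℂ ≃+* ℂ) (x : Ch → ℂ) (τ τ' : T3) M D (a : M2), Over x τ → Gen τ →
  Over (fun m ↦ σ (x m)) τ' → Sy τ M D → Ent τ M a → ∃ M', Sy τ' M' D ∧ Ent τ' M' (a.map σ)

/-- short endomorphisms are fixed up to sign -/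
def St_FIX : Prop := ∀ (σ : ℂ ≃+* ℂ) (x : Ch → ℂ) (τ : T3) M D (a : M2), Over x τ → Gen τ →
  (∀ m, σ (x m) = x m) → σ Complex.I = Complex.I → Sy τ M D → (∀ N, Two τ N → D ≤ N) →
  Ent τ M a → a.map σ = a ∨ a.map σ = -a

structure St_ALGM : Prop where
  alg : ∀ x τ M D (a : M2), Good x → Over x τ → Sy τ M D → Ent τ M a →
    ∀ i j, IsAlgebraic ℚ (a i j)
  deg : ∀ x τ M D (a : M2) (d : ℕ), Good x → Over x τ → Sy τ M D → (∀ N, Two τ N → D ≤ N) →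
    Ent τ M a → DegT x d → ∀ i j, Deg (a i j) (4 * d)
  two : ∀ (σ : ℂ →+* ℂ) x τ τ' N, Good x → Over x τ → Over (fun m ↦ σ (x m)) τ' →
    (Two τ N ↔ Two τ' N)
  good : ∀ P : Id, Mod P → GenC P → HG P →
    {x ∈ Cv P | (∃ τ N, Over x τ ∧ Two τ N) ∧ ¬ Good x}.Finite

/-! ### heights -/

/-- the height of the base point -/
def St_HTQ : Prop := ∀ P : Id, NT P → ∃ C : ℝ, 0 ≤ C ∧ ∀ x ∈ Cv P, ∀ τ M D (a : M2), Good x →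
  Over x τ → Sy τ M D → Ent τ M a → a 0 1 ≠ 0 → ∀ m, h1 (x m) ≤ C * (1 + Real.log D)

/-- the height of the matrix -/
def St_HTM : Prop := ∃ C : ℝ, 0 ≤ C ∧ ∀ x τ M D (a : M2), Good x → Over x τ → Sy τ M D →
  Ent τ M a → a 0 1 ≠ 0 → ∀ i j, h1 (a i j) ≤ C * (1 + ∑ m, h1 (x m) + Real.log D)

/-! ### the period theorem and counting -/

def St_PT2 : Prop := ∃ κ : ℕ, ∀ x τ M₁ M₂ (D₁ D₂ A : ℕ) (a₁ a₂ : M2), Over x τ → Gen τ →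
  Sy τ M₁ D₁ → Sy τ M₂ D₂ → (∀ c : ℂ, M₂ ≠ c • M₁) → Ent τ M₁ a₁ → Ent τ M₂ a₂ → 2 ≤ A →
  Real.log D₁ ≤ A → Real.log D₂ ≤ A → (∀ m, Sm (x m) A) → (∀ i j, Sm (a₁ i j) A) →
  (∀ i j, Sm (a₂ i j) A) → Two τ (A ^ κ)

/-- the period theorem in terms of the base point -/
def St_PTQ : Prop := ∃ κ : ℕ, ∀ x τ (N A : ℕ), Good x → Over x τ → Two τ N →
  (∀ N', Two τ N' → N ≤ N') → 2 ≤ A → Real.log N ≤ A → DegT x A → (∀ m, h1 (x m) ≤ A) →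
  N ≤ A ^ κ

def St_CNTQ : Prop := ∀ P : Id, Nonempty (Atlas P) → Dense P → ∀ ε : ℝ, 0 < ε → ∃ C : ℝ, 0 ≤ C ∧
  ∀ (M H : ℝ) (N : ℕ) (T : Finset (Ch → ℂ)), 2 ≤ M → 1 ≤ H → H ≤ M → (N : ℝ) ≤ M →
    (∀ x ∈ T, x ∈ Cv P ∧ (∀ m, Ev m → |Real.log ‖x m‖| ≤ H) ∧ ∃ τ, Over x τ ∧ Two τ N) →
    (T.card : ℝ) ≤ C * H * M ^ ε

/-- the theorem for curves with dense lifts -/
def St_QFIN : Prop := ∀ P : Id, Pl P → Mod P → GenC P → Dense P → NT P →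
  {x ∈ Cv P | Good x ∧ ∃ τ N, Over x τ ∧ Two τ N}.Finite

/-! ### from the cone to the space of theta constants -/

/-- the branch points determine the polarised torus -/
def St_TOR2 : Prop := ∀ e τ τ', Jac e τ → Jac e τ' → ∃ g : V2 ≃ₗ[ℂ] V2,
  (∀ z, g z ∈ Lat τ' ↔ z ∈ Lat τ) ∧ ∀ v, Hn τ' (g v) = Hn τ v

def St_CONE : Prop := ∀ P : Ideal (MvPolynomial (Fin 4) Qb), P.IsPrime →
  ringKrullDim (MvPolynomial (Fin 4) Qb ⧸ P) = 2 → Cone P → NoT P →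
  (∃ e ∈ Zs P, ∃ τ, Jac e τ ∧ EndZ τ) → ∃ (T : Finset Id) (F : Finset (Ch → ℂ)),
    (∀ Q ∈ T, Crv Q ∧ NT Q ∧ ∃ x ∈ Cv Q, ∃ τ, Over x τ ∧ EndZ τ) ∧
    ∀ e ∈ Zs P, ∀ x τ, Jac e τ → Over x τ → x ∈ F ∨ ∃ Q ∈ T, x ∈ Cv Q

def St_CORE : Prop := ∀ P : Id, Crv P → NT P → (∃ x ∈ Cv P, ∃ τ, Over x τ ∧ EndZ τ) →
  {x ∈ Cv P | ∃ τ, Over x τ ∧ (Sing2 τ ∨ HasCM τ)}.Finite

def St_THM : Prop := ∀ P : Ideal (MvPolynomial (Fin 4) Qb), P.IsPrime →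
  ringKrullDim (MvPolynomial (Fin 4) Qb ⧸ P) = 2 → Cone P → NoT P →
  (∃ e ∈ Zs P, ∃ τ, Jac e τ ∧ EndZ τ) →
  {e ∈ Zs P | e 0 = 1 ∧ ∃ τ, Jac e τ ∧ (Sing2 τ ∨ HasCM τ)}.Finite

/-- the hypotheses can be satisfied -/
def St_NV : Prop := ∃ P : Ideal (MvPolynomial (Fin 4) Qb), P.IsPrime ∧
  ringKrullDim (MvPolynomial (Fin 4) Qb ⧸ P) = 2 ∧ Cone P ∧ NoT P ∧
  ∃ e ∈ Zs P, ∃ τ, Jac e τ ∧ EndZ τ

/-! ### assembly -/

theorem st_CORE (hM : St_MAIN) (hE : St_EQN) (hZ : St_FINZ) (hH : St_HGEN) (hC : St_ENC)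
    (hG : St_G3) (hD : St_DIM) (hAT : St_ATLAS) (hG4 : St_G4) (hS : St_SL) (hQ : St_SQ2)
    (hA : St_ALGM) (hF : St_QFIN) : St_CORE := by
  rintro P hP hN ⟨x0, hx0, τ0, h0, h1⟩
  by_cases hi : {x ∈ Cv P | ∃ τ, Over x τ}.Finite
  · exact hi.subset fun x ⟨a, τ, b, _⟩ ↦ ⟨a, τ, b⟩
  have hg : Gen τ0 := by_contra fun h ↦ hC.hum τ0 h0.1 h1 (hG.sing τ0 h0.1 h)
  have hm : Mod P := by
    refine (Set.finite_iUnion fun m : {m : Ch // Ev m} ↦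
      (hZ P hP (MvPolynomial.X m.1) fun h ↦ ?_).1).subset ?_
    · have := hx0 _ h
      rw [MvPolynomial.aeval_X, h0.2.2] at this
      exact div_ne_zero (hg _ m.2) h0.2.1 this
    · rintro x ⟨hx, hn⟩
      by_contra h
      refine hn (hE x (fun f hf ↦ hx f (by_contra fun hf' ↦ hi ((hZ P hP f hf').1.subset ?_)))
        fun m hm e ↦ h (Set.mem_iUnion.2 ⟨⟨m, hm⟩, hx, by simpa using e⟩))
      rintro y ⟨a, τ, b⟩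
      exact ⟨a, hf y τ b⟩
  have hh := hH P hP hm ⟨x0, hx0, τ0, h0, h1⟩
  have a1 := hD P hP.1 hP.2
  have a2 := hG.gen P a1 hm hh
  refine (((hF P a1 hm a2 (hG4 P (hAT P a1 hm a2) hh) hN).union (hA.good P hm a2 hh)).union
    (hM P hP.1 hP.2 hm hh)).subset ?_
  rintro x ⟨hx, τ, b1, b2⟩
  by_cases h2 : ∃ N, Two τ N
  · obtain ⟨N, h2⟩ := h2
    by_cases hg : Good x
    · exact Or.inl (Or.inl ⟨hx, hg, τ, N, b1, h2⟩)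
    · exact Or.inl (Or.inr ⟨hx, ⟨τ, N, b1, h2⟩, hg⟩)
  · exact Or.inr ⟨hx, τ, b1, b2.resolve_left fun h ↦ h2 ((hS.two τ b1.1).1 h),
      fun h ↦ h2 (hQ τ b1.1 h)⟩

theorem st_THM (hG : St_GEO) (hC : St_CONE) (hM : St_CORE) : St_THM := by
  intro P h1 h2 h3 h4 h5
  obtain ⟨T, F, hT, hc⟩ := hC P h1 h2 h3 h4 h5
  obtain ⟨ε, -, hε⟩ := hG.jac
  refine ((F.finite_toSet.union (T.finite_toSet.biUnion fun Q hQ ↦
    hM Q (hT Q hQ).1 (hT Q hQ).2.1 (hT Q hQ).2.2)).image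
      fun x ↦ (Er ε x 0)⁻¹ • Er ε x).subset ?_
  rintro e ⟨he, e0, τ, hJ, hs⟩
  have ho : Over (fun m ↦ kk m τ / kk 0 τ) τ := ⟨hJ.1, hJ.2.1 0 (by decide), fun _ ↦ rfl⟩
  refine ⟨fun m ↦ kk m τ / kk 0 τ, ?_, ?_⟩
  · rcases hc e he _ τ hJ ho with h | ⟨Q, hQ, h⟩
    · exact Or.inl h
    · exact Or.inr (Set.mem_biUnion hQ ⟨h, τ, ho, hs⟩)
  · obtain ⟨t, t0, ht⟩ := hG.uniq e _ τ hJ (hε _ τ ho hJ.2.1).1
    simp only [ht, Pi.smul_apply, e0, smul_eq_mul, mul_one, smul_smul, inv_mul_cancel₀ t0, one_smul]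

/-! ### small kit -/

theorem Two.mono {τ : T3} {N N' : ℕ} (h : Two τ N) (e : N ≤ N') : Two τ N' := by
  obtain ⟨M₁, M₂, D₁, D₂, a, b, c, d, f⟩ := h
  exact ⟨M₁, M₂, D₁, D₂, a, b, c.trans e, d.trans e, f⟩

theorem ch_cases : ∀ m : Ch, m = hA ∨ (∃ a, m = od a) ∨ ∃ a b, a ≠ b ∧ m = S a b := by decide

theorem ev_S : ∀ a b, a ≠ b → Ev (S a b) := by decide

theorem ev_iff : ∀ m : Ch, Ev m ↔ ∃ a b, a < b ∧ m = S a b := by decide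

theorem odd_od : ∀ a, ¬ Ev (od a) := by decide

theorem odd_hA : ¬ Ev hA := by decide

theorem S_comm (a b : Fin 5) : S a b = S b a := by rw [S, S, add_right_comm]

theorem od_zero : od 0 = hB := rfl

end Pool.Agent.Lib.ECM.QM
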