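import Pool.Agent.Lib.QM.ZDefs
import Pool.Agent.Lib.QM.PEBlue
import Pool.Agent.Lib.QM82.T_LIN

/-! Zero lemma on the square of an abelian surface: the concrete blocks and the assembly. -/

open Filter Topology Module

noncomputable section

namespace Pool.Agent.Lib.ECM.ZL

open Pool.Agent.Lib.QM82 (Th2 st_LIN2)

/-- theta functions of degree `d` on the product -/
def Tp (τ : T3) (d : ℕ) : Submodule ℂ (E4 → ℂ) where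
  carrier := {F | Differentiable ℂ F ∧ (∀ y, (fun x ↦ F (x, y)) ∈ Th2 τ d) ∧
    ∀ x, (fun y ↦ F (x, y)) ∈ Th2 τ d}
  add_mem' hF hG := ⟨hF.1.add hG.1, fun y ↦ (Th2 τ d).add_mem (hF.2.1 y) (hG.2.1 y),
    fun x ↦ (Th2 τ d).add_mem (hF.2.2 x) (hG.2.2 x)⟩
  zero_mem' := ⟨differentiable_const 0, fun _ ↦ (Th2 τ d).zero_mem, fun _ ↦ (Th2 τ d).zero_mem⟩
  smul_mem' c _ hF := ⟨hF.1.const_smul c, fun y ↦ (Th2 τ d).smul_mem c (hF.2.1 y),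
    fun x ↦ (Th2 τ d).smul_mem c (hF.2.2 x)⟩

/-- products of two theta functions -/
def tt (τ : T3) (m m' : Ch) (y : E4) : ℂ := th m τ y.1 * th m' τ y.2

/-- `X` is the family of theta functions of `τ` -/
structure Is (τ : T3) (X : TS) : Prop where
  th : X.Th = Tp τ
  o : X.o = tt τ 0 0
  θ : X.θ = ![tt τ hA 0, tt τ hB 0, tt τ 0 hA, tt τ 0 hB]

/-- a nonzero theta function of degree `D` vanishes on a line with direction `v` -/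
def VL (τ : T3) (D : ℕ) (v : V2) : Prop :=
  ∃ g ∈ Th2 τ D, g ≠ 0 ∧ ∃ z, ∀ t : ℂ, g (z + t • v) = 0

def St_INST : Prop := ∀ τ ∈ H2, Gen τ → ∃ X, Is τ X

def St_CS1 : Prop := ∀ τ ∈ H2, ∀ X, Is τ X → ∀ (q v : E4) (P : MvPolynomial (Fin 2) ℂ) (D : ℕ),
  X.o q ≠ 0 → P ≠ 0 → P.totalDegree ≤ D →
  ((∀ᶠ t : ℂ in 𝓝 0, MvPolynomial.eval ![X.u (q + t • v) 0, X.u (q + t • v) 1] P = 0) →
    VL τ D v.1) ∧
  ((∀ᶠ t : ℂ in 𝓝 0, MvPolynomial.eval ![X.u (q + t • v) 2, X.u (q + t • v) 3] P = 0) →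
    VL τ D v.2)

def St_CS2 : Prop := ∀ τ ∈ H2, ∀ X, Is τ X → ∀ (b : V2 →ₗ[ℂ] V2) (W : Submodule ℂ E4) (L T : ℕ),
  0 < L → 0 < T → (∀ q, ∃ G, Fam X W b.graph L T q G) →
  ∃ n : ℕ, 0 < n ∧ n ≤ (2 ^ 20 * L ^ 2) ^ 4 ∧ ∀ z ∈ Lat τ, (n : ℂ) • b z ∈ Lat τ

def St_CS3 : Prop := ∀ (τ : T3) (b : V2 →ₗ[ℂ] V2) (H : Submodule ℂ E4) (L : ℕ) (Φ : E4 → ℂ)
  (η : E4), Function.Bijective b → Φ ∈ Tp τ L → Φ ≠ 0 → finrank ℂ H = 3 → b.graph ≤ H →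
  (∀ h ∈ H, Φ (η + h) = 0) → ∃ v, v ≠ 0 ∧ VL τ L v ∧ VL τ L (b v)

def St_JET4 : Prop := ∀ τ ∈ H2, Gen τ → ∀ X, Is τ X → ∀ (v₁ v₂ : V2) (b : V2 →ₗ[ℂ] V2)
  (F : MvPolynomial (Fin 4) ℂ) (L n : ℕ), LinearIndependent ℂ ![v₁, v₂] → F ≠ 0 →
  (∀ j, F.degreeOf j ≤ L) →
  PT.Jet (fun z ↦ MvPolynomial.eval (QM.F4 τ b (z.1 • v₁ + z.2 • v₂)) F) n →
  ∃ Φ ∈ Tp τ (8 * L), Φ ≠ 0 ∧ Ord b.graph Φ 0 (n + 1)

theorem finrank_graph (b : V2 →ₗ[ℂ] V2) : finrank ℂ b.graph = 2 := by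
  rw [LinearMap.graph_eq_range_prod, LinearMap.finrank_range_of_inj
    fun x y h ↦ congrArg Prod.fst h]
  simp

theorem VL.sl {τ : T3} (hτ : τ ∈ H2) {D S : ℕ} {v : V2} (h : VL τ D v) (hv : v ≠ 0)
    (e : 1476 * D ≤ S) : QM.SLn τ S v := by
  obtain ⟨g, h1, h2, z, h3⟩ := h
  obtain ⟨P, N, -, a, b, c⟩ := st_LIN2 τ hτ D g z v h1 h2 hv h3
  exact ⟨P, N, a.trans e, b, by rw [c, neg_smul]⟩

/-- one half of the zero lemma -/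
theorem half (hS : St_STAB) (hT : St_TRI) (hL : St_LINE) (h1 : St_CS1) (h2 : St_CS2)
    (h3 : St_CS3) {τ : T3} (hτ : τ ∈ H2) (hg : Gen τ) {X : TS} (hX : Is τ X)
    {b : V2 →ₗ[ℂ] V2} (hb : Function.Bijective b) {L T S : ℕ} {Φ : E4 → ℂ} (hL0 : 0 < L)
    (hΦ : Φ ∈ Tp τ L) (h0 : Φ ≠ 0) (hT0 : 2 ^ 20 * L ^ 2 < T) (ho : Ord b.graph Φ 0 (4 * T + 1))
    (e1 : 1476 * (2 ^ 22 * L ^ 3) ≤ S) :
    (∃ n : ℕ, 0 < n ∧ n ≤ (2 ^ 20 * L ^ 2) ^ 4 ∧ ∀ z ∈ Lat τ, (n : ℂ) • b z ∈ Lat τ) ∨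
      ∃ v, v ≠ 0 ∧ QM.SLn τ S v ∧ QM.SLn τ S (b v) := by
  have hb0 : ∀ v, v ≠ 0 → b v ≠ 0 := fun v hv e ↦ hv (hb.1 (by rw [e, map_zero]))
  obtain ⟨H, a1, ⟨η, a2⟩, a3⟩ := hS X b.graph L T Φ 0 hL0 (hX.th ▸ hΦ) h0
    (by rw [hX.o]; exact mul_ne_zero (hg 0 (by decide)) (hg 0 (by decide))) ho
  rcases hT X _ H L T (finrank_graph b) a1 hL0 hT0 a3 with ⟨c1, c2⟩ | c | ⟨c1, c2⟩
  · obtain ⟨v, hv, hv0⟩ := Submodule.exists_mem_ne_zero_of_ne_bot (p := H)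
      (by rintro rfl; simp at c1)
    have e : v.2 = b v.1 := c2 hv
    have hv1 : v.1 ≠ 0 := fun h ↦ hv0 (Prod.ext h (by rw [e, h, map_zero]; rfl))
    obtain ⟨q, P, d1, d2, d3, d4⟩ := hL X _ H L T v 0 1 c1 hv hv0 hL0 (by omega) a3
    obtain ⟨q', P', d1', d2', d3', d4'⟩ := hL X _ H L T v 2 3 c1 hv hv0 hL0 (by omega) a3
    exact Or.inr ⟨v.1, hv1, ((h1 τ hτ X hX q v P _ d1 d2 d3).1 d4).sl hτ hv1 e1,
      (e ▸ (h1 τ hτ X hX q' v P' _ d1' d2' d3').2 d4').sl hτ (hb0 _ hv1) e1⟩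
  · exact Or.inl (h2 τ hτ X hX b _ L T hL0 (by omega) (c ▸ a3))
  · obtain ⟨v, hv, d1, d2⟩ := h3 τ b H L Φ η hb hΦ h0 c1 c2 a2
    have e2 : 1476 * L ≤ S := le_trans (Nat.mul_le_mul_left _
      ((Nat.le_self_pow (by norm_num) L).trans (Nat.le_mul_of_pos_left _ (by norm_num)))) e1
    exact Or.inr ⟨v, hv, d1.sl hτ hv e2, d2.sl hτ (hb0 _ hv) e2⟩

theorem st_ZL4 (hI : St_INST) (hJ : St_JET4) (hS : St_STAB) (hT : St_TRI) (hL : St_LINE)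
    (h1 : St_CS1) (h2 : St_CS2) (h3 : St_CS3) : QM.St_ZL4 := by
  obtain ⟨c, hc⟩ : ∃ c : ℕ, 2 ^ 27 ≤ c := ⟨_, le_rfl⟩
  refine ⟨c, fun τ hτ hg v₁ v₂ b F L T hv hb hF hL0 hd hT0 hj ↦ ?_⟩
  obtain ⟨X, hX⟩ := hI τ hτ hg
  obtain ⟨Φ, a1, a2, a3⟩ := hJ τ hτ hg X hX v₁ v₂ b F L _ hv hF hd hj
  have hp : (2 ^ 27 * L) ^ 8 ≤ (c * L) ^ c :=
    (Nat.pow_le_pow_left (Nat.mul_le_mul_right _ hc) 8).trans
      (Nat.pow_le_pow_right (Nat.mul_pos (by omega) hL0) (by omega))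
  generalize (c * L) ^ c = S at hp
  have l2 : 0 < L ^ 2 := by positivity
  have e0 : 2 ^ 20 * (8 * L) ^ 2 < T := by
    have := Nat.mul_le_mul_right (L ^ 2) hc
    rw [mul_pow]
    omega
  have e1 : 1476 * (2 ^ 22 * (8 * L) ^ 3) ≤ S := by
    have := Nat.pow_le_pow_right hL0 (show 3 ≤ 8 by norm_num)
    rw [mul_pow] at hp ⊢
    omega
  have e2 : (2 ^ 20 * (8 * L) ^ 2) ^ 4 ≤ S := by
    rw [mul_pow] at hp
    rw [show (2 ^ 20 * (8 * L) ^ 2) ^ 4 = 2 ^ 104 * L ^ 8 by ring]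
    omega
  let e := LinearEquiv.ofBijective b hb
  have hbe : ∀ z, b (e.symm z) = z := e.apply_symm_apply
  rcases half hS hT hL h1 h2 h3 hτ hg hX hb (by omega) a1 a2 e0 a3 e1 with ⟨n, b1, b2, b3⟩ | h
  · rcases half hS hT hL h1 h2 h3 hτ hg hX (b := e.symm.toLinearMap) e.symm.bijective
      (Φ := fun y ↦ Φ y.swap) (L := 8 * L) (by omega)
      ⟨a1.1.comp (differentiable_snd.prodMk differentiable_fst), a1.2.2, a1.2.1⟩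
      (fun h ↦ a2 (funext fun y ↦ congrFun h y.swap)) e0
      (fun w hw k hk ↦ a3 w.swap (by
        have : w.2 = e.symm w.1 := hw
        show w.1 = b w.2
        rw [this, hbe]) k hk) e1 with ⟨n', c1, c2, c3⟩ | ⟨v, c1, c2, c3⟩
    · exact Or.inl ⟨n, n', b1, b2.trans e2, c1, c2.trans e2, b3, fun z hz ↦ by
        have := c3 _ hz
        rwa [show e.symm.toLinearMap (b z) = z from e.symm_apply_apply z] at this⟩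
    · exact Or.inr ⟨e.symm v, fun h ↦ c1 (by rw [← hbe v, h, map_zero]), c3, by rwa [hbe]⟩
  · exact Or.inr h

end Pool.Agent.Lib.ECM.ZL
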