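import Pool.Agent.Lib.QM.ZDefs

/-! Block BAS4: a basis adapted to two subspaces. -/

open Module Submodule

noncomputable section

namespace Pool.Agent.Lib.ECM.ZL

open scoped Classical in
theorem BAS4.card (b : Basis (Fin 4) ℂ E4) {s : Set E4} (hs : s ⊆ Set.range b) :
    (Finset.univ.filter fun i ↦ b i ∈ s).card = finrank ℂ (span ℂ s) := by
  have e : s = Set.range fun i : {i // b i ∈ s} ↦ b i := by
    ext x
    refine ⟨fun hx ↦ ?_, by rintro ⟨i, rfl⟩; exact i.2⟩
    obtain ⟨i, rfl⟩ := hs hx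
    exact ⟨⟨i, hx⟩, rfl⟩
  rw [← Fintype.card_subtype, ← finrank_span_eq_card
    (b.linearIndependent.comp (fun i : {i // b i ∈ s} ↦ i.1) Subtype.val_injective)]
  exact congrArg (fun t ↦ finrank ℂ (span ℂ t)) e.symm

theorem st_BAS4 : St_BAS4 := by
  classical
  intro H W
  obtain ⟨s, s1, -, s2, s3⟩ := exists_linearIndepOn_id_extension (K := ℂ)
    (linearIndepOn_empty ℂ id) (Set.empty_subset (H : Set E4))
  obtain ⟨t, t1, t2, t3, t4⟩ := exists_linearIndepOn_id_extension s3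
    (Set.subset_union_left (t := (W : Set E4)))
  obtain ⟨u, -, u2, u3, u4⟩ := exists_linearIndepOn_id_extension t4 (Set.subset_univ t)
  let b0 : Basis u ℂ E4 := Basis.mk u4 fun x _ ↦ by
    simpa [Set.range_comp] using u3 (Set.mem_univ x)
  let b := b0.reindex (b0.indexEquiv (finBasisOfFinrankEq ℂ E4 finrank_E4))
  have hb : Set.range b = u := by
    rw [Basis.range_reindex, Basis.coe_mk]
    simp
  have hH : span ℂ s = H := le_antisymm (span_le.2 s1) s2
  have hW : span ℂ t = H ⊔ W := le_antisymm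
    (span_le.2 fun x hx ↦ (t1 hx).elim (fun h ↦ mem_sup_left (s1 h)) mem_sup_right)
    (sup_le (hH ▸ span_mono t2) fun x hx ↦ t3 (Or.inr hx))
  have h1 := BAS4.card b (hb ▸ t2.trans u2 : s ⊆ Set.range b)
  have h2 := BAS4.card b (hb ▸ u2 : t ⊆ Set.range b)
  rw [hH] at h1
  rw [hW] at h2
  have h3 : (Finset.univ.filter fun i ↦ b i ∈ s) ⊆ Finset.univ.filter fun i ↦ b i ∈ t :=
    Finset.monotone_filter_right _ fun i _ h ↦ t2 h
  refine ⟨b, Finset.univ.filter fun i ↦ b i ∈ s,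
    (Finset.univ.filter fun i ↦ b i ∈ t) \ Finset.univ.filter fun i ↦ b i ∈ s,
    Finset.disjoint_sdiff, fun i hi ↦ s1 (Finset.mem_filter.1 hi).2, fun i hi ↦ ?_, h1, ?_,
    fun v hv h0 ↦ ?_⟩
  · simp only [Finset.mem_sdiff, Finset.mem_filter, Finset.mem_univ, true_and] at hi
    exact (t1 hi.1).resolve_left hi.2
  · rw [add_comm, Finset.card_sdiff_add_card_eq_card h3, h2]
  · have h4 : v ∈ span ℂ (b '' {i | b i ∈ s}) := by
      rwa [← hH, ← Set.image_preimage_eq_of_subset (hb ▸ t2.trans u2 : s ⊆ Set.range b)] at hv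
    refine b.repr.map_eq_zero_iff.1 (Finsupp.ext fun i ↦ by_contra fun h ↦ h (h0 i ?_))
    exact Finset.mem_filter.2 ⟨Finset.mem_univ _,
      b.mem_span_image.1 h4 (Finsupp.mem_support_iff.2 h)⟩

end Pool.Agent.Lib.ECM.ZL
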