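import Pool.Agent.Lib.QM.ZDefs

/-! Zero lemma on the square of an abelian surface: a chain of zero sets stalls on an open piece
(problem MP_0704bf_ag). -/

open Filter Topology Module

noncomputable section

namespace Pool.Agent.Lib.ECM.ZL

namespace CHAIN

theorem aeval_succ {R : Type} [CommRing R] [Algebra ℂ R] {n : ℕ} (a : Fin (n + 1) → R)
    (F : MvPolynomial (Fin (n + 1)) ℂ) : MvPolynomial.aeval a F =
      Polynomial.eval₂RingHom (MvPolynomial.aeval (R := ℂ) fun i : Fin n ↦ a i.succ).toRingHom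
        (a 0) (MvPolynomial.finSuccEquiv ℂ n F) := by
  induction F using MvPolynomial.induction_on with
  | C c => simp [MvPolynomial.finSuccEquiv_apply]
  | add p q hp hq => simp only [map_add, hp, hq]
  | mul_X p i hp =>
    simp only [map_mul, hp]
    congr 1
    refine Fin.cases ?_ (fun j ↦ ?_) i
    · simp [MvPolynomial.finSuccEquiv_X_zero]
    · simp [MvPolynomial.finSuccEquiv_X_succ]

/-- elements which separate the members of a chain of primes are independent modulo the least -/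
theorem indep {R : Type} [CommRing R] [Algebra ℂ R] (n : ℕ) : ∀ (P : ℕ → Ideal R)
    (a : Fin n → R), (∀ k ≤ n, (P k).IsPrime) → (∀ k < n, P k ≤ P (k + 1)) →
    (∀ i : Fin n, a i ∈ P (i + 1) ∧ a i ∉ P i) → ∀ F : MvPolynomial (Fin n) ℂ, F ≠ 0 →
    MvPolynomial.aeval a F ∉ P 0 := by
  induction n with
  | zero =>
    intro P a hP _ _ F hF h
    rw [MvPolynomial.eq_C_of_isEmpty F] at hF h
    refine (hP 0 le_rfl).ne_top (Ideal.eq_top_of_isUnit_mem _ h ?_)
    rw [MvPolynomial.aeval_C]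
    exact (IsUnit.mk0 _ fun h0 ↦ hF (by rw [h0, map_zero])).map _
  | succ n ih =>
    intro P a hP hle ha F hF h
    have h0 := hP 0 (Nat.zero_le _)
    have hne : MvPolynomial.finSuccEquiv ℂ n F ≠ 0 := by simpa using hF
    obtain ⟨q, hq, hq'⟩ := Polynomial.exists_eq_pow_rootMultiplicity_mul_and_not_dvd _ hne 0
    rw [map_zero, sub_zero] at hq hq'
    rw [Polynomial.X_dvd_iff] at hq'
    rw [aeval_succ, hq, map_mul, map_pow, ← q.divX_mul_X_add, map_add, map_mul] at h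
    simp only [Polynomial.coe_eval₂RingHom, Polynomial.eval₂_X, Polynomial.eval₂_C] at h
    have h1 := hle 0 (Nat.succ_pos _) ((h0.mem_or_mem h).resolve_left
      fun h2 ↦ (ha 0).2 (h0.mem_of_pow_mem _ h2))
    exact ih (fun k ↦ P (k + 1)) (fun i ↦ a i.succ) (fun k hk ↦ hP _ (by omega))
      (fun k hk ↦ hle _ (by omega)) (fun i ↦ ha i.succ) _ hq'
      ((Ideal.add_mem_iff_right _ (Ideal.mul_mem_left _ _ (ha 0).1)).1 h1)

/-- an element which separates a minimal prime from the others -/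
theorem exists_sep {R : Type} [CommRing R] [IsNoetherianRing R] {I P : Ideal R}
    (hP : P ∈ I.minimalPrimes) : ∃ f0, f0 ∉ P ∧
      ∀ e : R →+* ℂ, I ≤ RingHom.ker e → e f0 ≠ 0 → ∀ f ∈ P, e f = 0 := by
  classical
  have hfin := Ideal.finite_minimalPrimes_of_isNoetherianRing R I
  have hex : ∀ Q ∈ hfin.toFinset.erase P, ∃ g, g ∈ Q ∧ g ∉ P := by
    intro Q hQ
    rw [Finset.mem_erase, Set.Finite.mem_toFinset] at hQ
    by_contra hcon
    push Not at hcon
    exact hQ.1 (le_antisymm hcon (hP.2 hQ.2.1 hcon))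
  choose! g hg hg' using hex
  have hprime := hP.1.1
  refine ⟨∏ Q ∈ hfin.toFinset.erase P, g Q, ?_, fun e hz h0 f hf ↦ ?_⟩
  · rw [Ideal.IsPrime.prod_mem_iff]
    rintro ⟨Q, hQ, h⟩
    exact hg' Q hQ h
  · have := RingHom.ker_isPrime e
    obtain ⟨Q, hQ, hQ'⟩ := Ideal.exists_minimalPrimes_le hz
    by_cases hQP : Q = P
    · exact hQ' (hQP ▸ hf)
    · have hm : Q ∈ hfin.toFinset.erase P := by simp [hQP, hQ]
      refine absurd ?_ h0
      rw [map_prod]
      exact Finset.prod_eq_zero hm (hQ' (hg Q hm))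

/-- minimal primes along a chain of ideals -/
theorem exists_chain {R : Type} [CommRing R] (J : ℕ → Ideal R) (hJ : ∀ k, J k ≤ J (k + 1))
    (n : ℕ) : ∀ Q : Ideal R, Q.IsPrime → J n ≤ Q → ∃ P : ℕ → Ideal R,
      (∀ k ≤ n, P k ∈ (J k).minimalPrimes) ∧ (∀ k < n, P k ≤ P (k + 1)) ∧ P n ≤ Q := by
  induction n with
  | zero =>
    intro Q _ h
    obtain ⟨P, hP, hP'⟩ := Ideal.exists_minimalPrimes_le h
    exact ⟨fun _ ↦ P, fun k hk ↦ Nat.le_zero.1 hk ▸ hP, fun _ _ ↦ le_rfl, hP'⟩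
  | succ n ih =>
    intro Q _ h
    obtain ⟨P1, hP, hP'⟩ := Ideal.exists_minimalPrimes_le h
    obtain ⟨P, h1, h2, h3⟩ := ih P1 hP.1.1 ((hJ n).trans hP.1.2)
    refine ⟨fun k ↦ if k ≤ n then P k else P1, fun k hk ↦ ?_, fun k hk ↦ ?_, by simpa using hP'⟩
    · by_cases e : k ≤ n
      · simpa [e] using h1 k e
      · obtain rfl : k = n + 1 := by omega
        simpa using hP
    · by_cases e : k + 1 ≤ n
      · simpa [e, Nat.le_of_succ_le e] using h2 k e
      · obtain rfl : k = n := by omega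
        simpa using h3

/-- polynomials which vanish at a family of points -/
def van {σ κ : Type} (x : κ → σ → ℂ) (S : Set κ) : Ideal (MvPolynomial σ ℂ) :=
  ⨅ y ∈ S, RingHom.ker (MvPolynomial.eval (x y))

theorem mem_van {σ κ : Type} {x : κ → σ → ℂ} {S : Set κ} {f : MvPolynomial σ ℂ} :
    f ∈ van x S ↔ ∀ y ∈ S, MvPolynomial.eval (x y) f = 0 := by
  simp [van, RingHom.mem_ker]

end CHAIN

open CHAIN in
theorem st_CHAIN (hD : St_DEP) : St_CHAIN := by
  intro X d G p hd hG hZ hp hp'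
  obtain ⟨r, φ, hφ, -, hs⟩ := TS.fr_span (X := X) hd
  let J : ℕ → Ideal (MvPolynomial (Fin 4 ⊕ Fin r) ℂ) := fun k ↦
    van (fun y i ↦ φ i y) {y | X.o y ≠ 0 ∧ ∀ g ∈ G k, g y = 0}
  obtain ⟨P, h1, h2, -⟩ := exists_chain J
    (fun k f hf ↦ mem_van.2 fun y hy ↦ mem_van.1 hf y ⟨hy.1, hZ k y hy.2⟩) 5
    (RingHom.ker (MvPolynomial.eval fun i ↦ φ i p)) (RingHom.ker_isPrime _)
    fun f hf ↦ mem_van.1 hf p ⟨hp, hp'⟩
  obtain ⟨k, hk, e⟩ : ∃ k < 5, P (k + 1) ≤ P k := by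
    by_contra hc
    push Not at hc
    choose a ha ha' using fun i : Fin 5 ↦ SetLike.not_le_iff_exists.1 (hc i i.2)
    obtain ⟨F, hF, hF'⟩ := hD X ((Finset.univ.sup fun i ↦ (a i).totalDegree) * d)
      (fun j y ↦ MvPolynomial.eval (fun i ↦ φ i y) (a j)) fun j ↦
        TS.fr_poly hφ (Finset.le_sup (f := fun i ↦ (a i).totalDegree) (Finset.mem_univ j))
    refine indep 5 P a (fun k hk ↦ (h1 k hk).1.1) h2 (fun i ↦ ⟨ha i, ha' i⟩) F hF
      ((h1 0 (by omega)).1.2 (mem_van.2 fun y hy ↦ ?_))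
    exact (MvPolynomial.comp_aeval_apply a (MvPolynomial.aeval fun i ↦ φ i y) F).trans
      (hF' y hy.1)
  obtain ⟨f0, hf0, hf0'⟩ := exists_sep (h1 k hk.le)
  refine ⟨k, hk, _, TS.fr_open (TS.fr_poly hφ (P := f0) le_rfl), ?_, fun y hy hy' g hg ↦ ?_⟩
  · by_contra hc
    exact hf0 ((h1 k hk.le).1.2 (mem_van.2 fun y hy ↦
      by_contra fun h ↦ hc ⟨y, ⟨hy.1, h⟩, hy.2⟩))
  · obtain ⟨Q, -, hQ⟩ := hs _ (TS.fr_div (hG _ g hg))
    have h3 := hf0' (MvPolynomial.eval fun i ↦ φ i y) (fun f hf ↦ mem_van.1 hf y ⟨hy.1, hy'⟩)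
      hy.2 Q (e ((h1 (k + 1) hk).1.2 (mem_van.2 fun z hz ↦ by
        rw [hQ z hz.1, hz.2 g hg, zero_div])))
    rw [hQ y hy.1, div_eq_zero_iff] at h3
    exact h3.resolve_right (pow_ne_zero _ hy.1)

end Pool.Agent.Lib.ECM.ZL
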