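import Pool.Agent.Lib.QM.ZBlue

/-! Zero lemma on the square of an abelian surface, row CS1: an algebraic relation along a line
gives a theta function that vanishes on a line. -/

open Filter Topology Module

noncomputable section

namespace Pool.Agent.Lib.ECM.ZL

namespace CS1

theorem core (X : TS) {i i' : Fin 4} (hi : i ≠ i') {q v : E4} {P : MvPolynomial (Fin 2) ℂ} {D : ℕ}
    (hq : X.o q ≠ 0) (hP : P ≠ 0) (hD : P.totalDegree ≤ D)
    (h : ∀ᶠ t : ℂ in 𝓝 0, MvPolynomial.eval ![X.u (q + t • v) i, X.u (q + t • v) i'] P = 0) :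
    ∃ g ∈ X.Th D, ∃ y, X.o y ≠ 0 ∧ g y ≠ 0 ∧ ∀ s : ℂ → E4, (∀ t, AnalyticAt ℂ s t) →
      (∀ t, X.o (q + t • v) ≠ 0 → X.o (s t) ≠ 0 ∧ X.u (s t) i = X.u (q + t • v) i ∧
        X.u (s t) i' = X.u (q + t • v) i') → ∀ t, g (s t) = 0 := by
  have e : ∀ y, (fun k ↦ X.u y (![i, i'] k)) = ![X.u y i, X.u y i'] := fun y ↦ by
    funext k; fin_cases k <;> rfl
  obtain ⟨g, hg, h1⟩ := TS.fr_poly (X := X) (φ := fun k y ↦ X.u y (![i, i'] k))
    (fun k ↦ TS.fr_u _) hD
  rw [mul_one] at hg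
  simp only [mul_one, e] at h1
  have inj : Function.Injective ![i, i'] := by
    intro a b
    fin_cases a <;> fin_cases b <;> simp [hi, hi.symm]
  obtain ⟨y, hy, hy'⟩ := TS.u_ind (X := X) (P := MvPolynomial.rename ![i, i'] P)
    fun h0 ↦ hP (MvPolynomial.rename_injective _ inj (by rw [h0, map_zero]))
  rw [MvPolynomial.eval_rename, show X.u y ∘ ![i, i'] = _ from e y, h1 y hy] at hy'
  refine ⟨g, hg, y, hy, fun h0 ↦ hy' (by rw [h0, zero_div]), fun s hs h2 t ↦ ?_⟩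
  refine AnalyticOnNhd.eqOn_zero_of_preconnected_of_eventuallyEq_zero (U := Set.univ)
    (f := fun t ↦ g (s t)) (fun z _ ↦ (X.an D g hg _).comp (hs z)) isPreconnected_univ
    (Set.mem_univ 0) ?_ (Set.mem_univ t)
  have h3 : Tendsto (fun t : ℂ ↦ q + t • v) (𝓝 0) (𝓝 q) :=
    Continuous.tendsto' (by fun_prop) _ _ (by simp)
  filter_upwards [h, h3.eventually (TS.isOpen_o.mem_nhds hq)] with t a b
  obtain ⟨c1, c2, c3⟩ := h2 t b
  rw [← c2, ← c3, h1 _ c1, div_eq_zero_iff] at a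
  exact a.resolve_right (pow_ne_zero _ c1)

end CS1

theorem st_CS1 : St_CS1 := by
  intro τ hτ X hX q v P D hq hP hD
  have al : ∀ (a w : V2) (t : ℂ), AnalyticAt ℂ (fun t : ℂ ↦ a + t • w) t := fun a w t ↦
    analyticAt_const.add (analyticAt_id.smul analyticAt_const)
  refine ⟨fun h ↦ ?_, fun h ↦ ?_⟩
  · obtain ⟨g, hg, y, hy, h0, h1⟩ := CS1.core X (by decide) hq hP hD h
    rw [hX.th] at hg
    refine ⟨_, hg.2.1 y.2, fun e ↦ h0 (congrFun e y.1), q.1,
      h1 (fun t ↦ (q.1 + t • v.1, y.2)) (fun t ↦ (al _ _ t).prod analyticAt_const) fun t ht ↦ ?_⟩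
    simp only [TS.u, hX.o, hX.θ, tt] at hy ht ⊢
    have a := right_ne_zero_of_mul hy
    have b := right_ne_zero_of_mul ht
    exact ⟨mul_ne_zero (left_ne_zero_of_mul ht) a,
      (mul_div_mul_right _ _ a).trans (mul_div_mul_right _ _ b).symm,
      (mul_div_mul_right _ _ a).trans (mul_div_mul_right _ _ b).symm⟩
  · obtain ⟨g, hg, y, hy, h0, h1⟩ := CS1.core X (by decide) hq hP hD h
    rw [hX.th] at hg
    refine ⟨_, hg.2.2 y.1, fun e ↦ h0 (congrFun e y.2), q.2,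
      h1 (fun t ↦ (y.1, q.2 + t • v.2)) (fun t ↦ analyticAt_const.prod (al _ _ t)) fun t ht ↦ ?_⟩
    simp only [TS.u, hX.o, hX.θ, tt] at hy ht ⊢
    have a := left_ne_zero_of_mul hy
    have b := left_ne_zero_of_mul ht
    exact ⟨mul_ne_zero a (right_ne_zero_of_mul ht),
      (mul_div_mul_left _ _ a).trans (mul_div_mul_left _ _ b).symm,
      (mul_div_mul_left _ _ a).trans (mul_div_mul_left _ _ b).symm⟩

end Pool.Agent.Lib.ECM.ZL
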