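import Pool.Agent.Lib.QM.ZBlue

/-! Block CS2: a graph which is a stabiliser maps the lattice into a bounded overlattice. -/

open Filter Topology Module

noncomputable section

namespace Pool.Agent.Lib.ECM.ZL

namespace CS2

open Pool.Agent.Lib.QM82 (Th2 Th2_th)

theorem fd_zero {f : E4 → C4} {x w : E4} {j : Fin 4} (hf : DifferentiableAt ℂ f x)
    (h : ∀ᶠ t : ℂ in 𝓝 0, f (x + t • w) j = f x j) : fderiv ℂ f x w j = 0 := by
  have h1 : HasDerivAt (fun t : ℂ ↦ x + t • w) w 0 := by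
    simpa using ((hasDerivAt_id (0 : ℂ)).smul_const w).const_add x
  have h2 : HasDerivAt (fun t : ℂ ↦ f (x + t • w)) (fderiv ℂ f x w) 0 :=
    HasFDerivAt.comp_hasDerivAt_of_eq (0 : ℂ) hf.hasFDerivAt h1 (by simp)
  have h3 := hasDerivAt_pi.1 h2 j
  exact h3.unique ((hasDerivAt_const (0 : ℂ) (f x j)).congr_of_eventuallyEq h)

theorem per2 {τ : T3} (hτ : τ ∈ H2) {l : V2} (hl : l ∈ Lat τ) (z : V2) :
    ∃ e : ℂ, ∀ m, th m τ (z + (2 : ℂ) • l) = e * th m τ z := by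
  obtain ⟨μ, ν, rfl⟩ := hl
  have := fun m ↦ (Th2_th hτ m).2 μ ν ((2 : ℂ)⁻¹ • z)
  simp only [LinearMap.funLeft_apply, smul_add, smul_inv_smul₀ (two_ne_zero (α := ℂ))] at this
  exact ⟨_, this⟩

variable {τ : T3} {X : TS}

theorem o_ne (hX : Is τ X) {y : E4} (hy : X.o y ≠ 0) : th 0 τ y.1 ≠ 0 ∧ th 0 τ y.2 ≠ 0 := by
  rw [hX.o] at hy
  exact mul_ne_zero_iff.1 hy

theorem u0 (hX : Is τ X) {y : E4} (hy : X.o y ≠ 0) : X.u y 0 = th hA τ y.1 / th 0 τ y.1 := by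
  have := o_ne hX hy
  simp only [TS.u, hX.o, hX.θ, tt, Matrix.cons_val_zero]
  rw [mul_div_mul_right _ _ this.2]

theorem u1 (hX : Is τ X) {y : E4} (hy : X.o y ≠ 0) : X.u y 1 = th hB τ y.1 / th 0 τ y.1 := by
  have := o_ne hX hy
  simp only [TS.u, hX.o, hX.θ, tt, Matrix.cons_val_one, Matrix.cons_val_zero]
  rw [mul_div_mul_right _ _ this.2]

theorem u2 (hX : Is τ X) {y : E4} (hy : X.o y ≠ 0) : X.u y 2 = th hA τ y.2 / th 0 τ y.2 := by
  have := o_ne hX hy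
  simp only [TS.u, hX.o, hX.θ, tt, Matrix.cons_val]
  rw [mul_div_mul_left _ _ this.1]

theorem u3 (hX : Is τ X) {y : E4} (hy : X.o y ≠ 0) : X.u y 3 = th hB τ y.2 / th 0 τ y.2 := by
  have := o_ne hX hy
  simp only [TS.u, hX.o, hX.θ, tt, Matrix.cons_val]
  rw [mul_div_mul_left _ _ this.1]

theorem ev_o {x : E4} (hx : X.o x ≠ 0) (w : E4) : ∀ᶠ t : ℂ in 𝓝 0, X.o (x + t • w) ≠ 0 := by
  have h : ContinuousAt (fun t : ℂ ↦ x + t • w) 0 := by fun_prop
  exact h.eventually (TS.isOpen_o.mem_nhds (by simpa using hx))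

theorem tang (hX : Is τ X) (b : V2 →ₗ[ℂ] V2) (x : E4) (hx : X.o x ≠ 0) (hl : Loc X.u x)
    (v : E4) (hv : v ∈ b.graph) (h0 : fderiv ℂ X.u x v 0 = 0) (h1 : fderiv ℂ X.u x v 1 = 0) :
    v = 0 := by
  have hd := hl.an.differentiableAt
  have e : ((v.1, 0) : E4) = v - (0, v.2) := Prod.ext (by simp) (by simp)
  have a0 : fderiv ℂ X.u x (0, v.2) 0 = 0 := fd_zero hd <|
    (ev_o hx (0, v.2)).mono fun t ht ↦ by rw [u0 hX ht, u0 hX hx]; simp
  have a1 : fderiv ℂ X.u x (0, v.2) 1 = 0 := fd_zero hd <|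
    (ev_o hx (0, v.2)).mono fun t ht ↦ by rw [u1 hX ht, u1 hX hx]; simp
  have a2 : fderiv ℂ X.u x (v.1, 0) 2 = 0 := fd_zero hd <|
    (ev_o hx (v.1, 0)).mono fun t ht ↦ by rw [u2 hX ht, u2 hX hx]; simp
  have a3 : fderiv ℂ X.u x (v.1, 0) 3 = 0 := fd_zero hd <|
    (ev_o hx (v.1, 0)).mono fun t ht ↦ by rw [u3 hX ht, u3 hX hx]; simp
  have h : fderiv ℂ X.u x (v.1, 0) = fderiv ℂ X.u x 0 := by
    rw [map_zero]
    funext j
    fin_cases j
    · show fderiv ℂ X.u x (v.1, 0) 0 = 0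
      rw [e, map_sub, Pi.sub_apply, h0, a0, sub_zero]
    · show fderiv ℂ X.u x (v.1, 0) 1 = 0
      rw [e, map_sub, Pi.sub_apply, h1, a1, sub_zero]
    · exact a2
    · exact a3
  have hv1 : v.1 = 0 := congrArg Prod.fst (hl.inj h)
  have hv2 : v.2 = b v.1 := hv
  exact Prod.ext hv1 (by rw [hv2, hv1, map_zero]; rfl)

theorem tt_mem (hτ : τ ∈ H2) (m m' : Ch) : tt τ m m' ∈ Tp τ 1 := by
  refine ⟨((th_BAS.diff_th m τ hτ).comp differentiable_fst).mul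
    ((th_BAS.diff_th m' τ hτ).comp differentiable_snd), fun y ↦ ?_, fun x ↦ ?_⟩
  · have := (Th2 τ 1).smul_mem (th m' τ y) (Th2_th hτ m)
    refine (congrArg (· ∈ Th2 τ 1) (funext fun x ↦ ?_)).mp this
    simp [tt, mul_comm]
  · exact (Th2 τ 1).smul_mem (th m τ x) (Th2_th hτ m')

theorem sep (hτ : τ ∈ H2) (hX : Is τ X) {y y' : E4} (hy : X.o y ≠ 0) (hy' : X.o y' ≠ 0)
    (h : ∀ g ∈ X.Fr 1, g y = g y') : ∃ l ∈ Lat τ, y.2 - y'.2 = (2 : ℂ) • l := by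
  have a := o_ne hX hy
  have a' := o_ne hX hy'
  have h1 : ∀ m, th m τ y.2 / th 0 τ y.2 = th m τ y'.2 / th 0 τ y'.2 := fun m ↦ by
    have := h _ (TS.fr_div (X := X) (n := 1) (g := tt τ 0 m) (hX.th ▸ tt_mem hτ 0 m))
    simp only [hX.o, tt, pow_one] at this
    rwa [mul_div_mul_left _ _ a.1, mul_div_mul_left _ _ a'.1] at this
  refine th_INJ τ hτ _ _ fun m m' ↦ ?_
  have b := (div_eq_div_iff a.2 a'.2).1 (h1 m)
  have b' := (div_eq_div_iff a.2 a'.2).1 (h1 m')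
  refine mul_right_cancel₀ (mul_ne_zero a.2 a'.2) ?_
  linear_combination (th m' τ y'.2 * th 0 τ y.2) * b - (th m τ y'.2 * th 0 τ y.2) * b'

theorem one (hG : St_GRAPH) (hτ : τ ∈ H2) (hX : Is τ X) {b : V2 →ₗ[ℂ] V2}
    {W : Submodule ℂ E4} {L T : ℕ} (hL : 0 < L) (hT : 0 < T)
    (hF : ∀ q, ∃ G, Fam X W b.graph L T q G) {l : V2} (hl : l ∈ Lat τ) :
    ∃ k : ℕ, 0 < k ∧ k ≤ 2 ^ 20 * L ^ 2 ∧ (k : ℂ) • b l ∈ Lat τ := by
  classical
  generalize hK : 2 ^ 20 * L ^ 2 = K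
  by_contra hc
  push Not at hc
  let γ : ℕ → E4 := fun k ↦ ((2 : ℂ) • (k : ℂ) • l, (2 : ℂ) • (k : ℂ) • b l)
  have key : ∀ k ≤ K, ∀ k' ≤ K, ∀ l' ∈ Lat τ, (γ k).2 - (γ k').2 = (2 : ℂ) • l' → k = k' := by
    have aux : ∀ k ≤ K, ∀ k' < k, ∀ l' ∈ Lat τ, (γ k).2 - (γ k').2 ≠ (2 : ℂ) • l' := by
      intro k hk k' hk' l' hl' e
      refine hc (k - k') (by omega) (by omega) ?_
      have e1 : (2 : ℂ) • (((k - k' : ℕ) : ℂ) • b l) = (2 : ℂ) • l' := by
        rw [← e, Nat.cast_sub hk'.le, sub_smul, smul_sub]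
      rwa [smul_right_injective _ (two_ne_zero (α := ℂ)) e1]
    intro k hk k' hk' l' hl' e
    rcases lt_trichotomy k k' with h | h | h
    · refine absurd ?_ (aux k' hk' k h _ (th_BAS.lat_smul τ (-1) l' hl'))
      rw [← neg_sub, e, smul_comm]
      simp
    · exact h
    · exact absurd e (aux k hk k' h l' hl')
  have hcard : ((Finset.range (K + 1)).image γ).card = K + 1 := by
    rw [Finset.card_image_of_injOn, Finset.card_range]
    intro k hk k' hk' e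
    simp only [Finset.coe_range, Set.mem_Iio] at hk hk'
    exact key k (by omega) k' (by omega) 0 (th_BAS.lat_zero τ) (by rw [e]; simp)
  have := hG X W b.graph L T 0 1 ((Finset.range (K + 1)).image γ) (finrank_graph b) hL hT hF
    (tang hX b) ?_ ?_
  · omega
  · intro g hg
    obtain ⟨k, -, rfl⟩ := Finset.mem_image.1 hg
    refine ⟨?_, fun y hy hy' ↦ ?_⟩
    · show (2 : ℂ) • (k : ℂ) • b l = b ((2 : ℂ) • (k : ℂ) • l)
      rw [map_smul, map_smul]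
    · obtain ⟨e, he⟩ := per2 hτ (l := (k : ℂ) • l)
        (by simpa using th_BAS.lat_smul τ (k : ℤ) l hl) y.1
      have he' : ∀ m, th m τ (y + γ k).1 = e * th m τ y.1 := he
      have e0 : e ≠ 0 := fun h ↦ (o_ne hX hy').1 (by rw [he', h, zero_mul])
      rw [u0 hX hy, u0 hX hy', u1 hX hy, u1 hX hy', he', he', he', mul_div_mul_left _ _ e0,
        mul_div_mul_left _ _ e0]
      exact ⟨rfl, rfl⟩
  · intro g hg g' hg' hne y hy hy'
    obtain ⟨k, hk, rfl⟩ := Finset.mem_image.1 hg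
    obtain ⟨k', hk', rfl⟩ := Finset.mem_image.1 hg'
    rw [Finset.mem_range] at hk hk'
    by_contra h
    push Not at h
    obtain ⟨l', hl', e⟩ := sep hτ hX hy hy' h
    refine hne (congrArg γ (key k (by omega) k' (by omega) l' hl' ?_))
    rw [← e]
    simp

end CS2

open CS2 MSINV in
theorem st_CS2 (hG : St_GRAPH) : St_CS2 := by
  intro τ hτ X hX b W L T hL hT hF
  classical
  choose k h1 h2 h3 using fun i : Fin 4 ↦ one hG hτ hX hL hT hF (pv_mem τ (Pi.single i 1))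
  refine ⟨∏ i, k i, Finset.prod_pos fun i _ ↦ h1 i, ?_, fun z hz ↦ ?_⟩
  · simpa using Finset.prod_le_pow_card Finset.univ k _ fun i _ ↦ h2 i
  · obtain ⟨c, rfl⟩ := exists_pv hz
    have e : pv τ c = ∑ i, (c i : ℂ) • pv τ (Pi.single i 1) := by
      funext j
      fin_cases j <;> simp [Fin.sum_univ_four, pv, per, iv] <;> ring
    rw [e, map_sum, Finset.smul_sum]
    refine Finset.sum_induction _ (· ∈ Lat τ) (fun x y hx hy ↦ th_BAS.lat_add τ x hx y hy)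
      (th_BAS.lat_zero τ) fun i _ ↦ ?_
    obtain ⟨n, hn⟩ := Finset.dvd_prod_of_mem k (Finset.mem_univ i)
    have := th_BAS.lat_smul τ (c i * n) _ (h3 i)
    rw [map_smul, hn, smul_smul]
    rw [smul_smul] at this
    convert this using 2
    push_cast
    ring

end Pool.Agent.Lib.ECM.ZL
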