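import Pool.Agent.Lib.QM.ZBlue

/-! Zero lemma: a stabiliser of dimension three. -/

open Module

namespace Pool.Agent.Lib.ECM.ZL

theorem st_CS3 : St_CS3 := by
  intro τ b H L Φ η hb hΦ h0 h3 hH hz
  obtain ⟨u, hu, hu0⟩ := Submodule.exists_mem_ne_zero_of_ne_bot
    (LinearMap.ker_ne_bot_of_finrank_lt (f := LinearMap.fst ℂ V2 V2 ∘ₗ H.subtype) (by simp [h3]))
  have hu1 : u.1.1 = 0 := hu
  obtain ⟨v, hv⟩ := hb.2 u.1.2
  obtain ⟨y, hy⟩ := Function.ne_iff.1 h0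
  obtain ⟨x, hx⟩ := hb.2 (y.2 - η.2)
  have hg : ∀ z, (z, b z) ∈ H := fun z ↦ hH (show b z = b z from rfl)
  refine ⟨v, fun e ↦ hu0 (Subtype.ext (Prod.ext hu1 (by rw [← hv, e, map_zero]; rfl))),
    ⟨_, hΦ.2.1 y.2, fun e ↦ hy (congrFun e y.1), η.1 + x, fun t ↦ ?_⟩,
    _, hΦ.2.2 y.1, fun e ↦ hy (congrFun e y.2), η.2 + b (y.1 - η.1), fun t ↦ ?_⟩
  · rw [← hz _ (add_mem (hg x) (H.smul_mem t (sub_mem (hg v) u.2)))]
    exact congrArg Φ (Prod.ext (by simp [hu1, add_assoc]) (by simp [hv, hx]))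
  · rw [← hz _ (add_mem (hg (y.1 - η.1)) (H.smul_mem t u.2))]
    exact congrArg Φ (Prod.ext (by simp [hu1]) (by simp [hv, add_assoc]))

end Pool.Agent.Lib.ECM.ZL
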