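import Pool.Agent.Lib.QM.ZDefs

/-! Five fractions are algebraically dependent. -/

noncomputable section

namespace Pool.Agent.Lib.ECM.ZL

open MvPolynomial

theorem st_DEP : St_DEP := by
  intro X n φ hφ
  by_contra hc
  push Not at hc
  obtain ⟨k, hk⟩ : ∃ k, k = (20 * (n + 1)) ^ 4 + 1 := ⟨_, rfl⟩
  have k0 : 0 < k := by omega
  let e : (Fin 5 → Fin k) → Fin 5 →₀ ℕ := fun α ↦ Finsupp.equivFunOnFinite.symm fun i ↦ (α i : ℕ)
  have he : Function.Injective e := fun α β h ↦
    funext fun i ↦ Fin.ext (congrFun (Finsupp.equivFunOnFinite.symm.injective h) i)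
  have h1 := TS.fr_card (X := X) (ι := Fin 5 → Fin k) (n := 5 * (k * (n + 1))) (by positivity)
    (φ := fun α y ↦ ∏ i, φ i y ^ (α i : ℕ)) (fun α ↦ TS.fr_mono (by
      refine (Finset.sum_le_card_nsmul _ _ (k * (n + 1)) fun i _ ↦
        Nat.mul_le_mul (α i).2.le n.le_succ).trans (by simp))
      (TS.fr_prod Finset.univ fun i _ ↦ TS.fr_pow (hφ i) (α i))) fun c h p ↦ by
    by_contra hp
    obtain ⟨y, hy, h0⟩ := hc (∑ α, monomial (e α) (c α)) fun h0 ↦ hp (by
      have := congrArg (coeff (e p)) h0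
      simpa [coeff_sum, coeff_monomial, he.eq_iff] using this)
    refine h0 ((h y hy).symm ▸ ?_)
    simp [eval_monomial, Finsupp.prod_fintype, e]
  rw [Fintype.card_fun, Fintype.card_fin, Fintype.card_fin,
    show (4 * (5 * (k * (n + 1)))) ^ 4 = k ^ 4 * (20 * (n + 1)) ^ 4 by ring, pow_succ] at h1
  have := Nat.le_of_mul_le_mul_left h1 (by positivity)
  omega

end Pool.Agent.Lib.ECM.ZL
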