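import Pool.Agent.Lib.QM.ZDefs

/-! The affine coordinates are local coordinates on a dense open set (block GEN). -/

open Filter Topology Module

noncomputable section

namespace Pool.Agent.Lib.ECM.ZL

namespace GEN

/-- a basis of the tangent space -/
def bs : Basis (Fin 4) ℂ E4 := Module.finBasisOfFinrankEq ℂ E4 finrank_E4

/-- the Jacobian matrix of the affine coordinates, with the denominators cleared -/
def jm (X : TS) (y : E4) : Matrix (Fin 4) (Fin 4) ℂ := Matrix.of fun j k ↦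
  X.o y * fderiv ℂ (X.θ j) y (bs k) - X.θ j y * fderiv ℂ X.o y (bs k)

variable {X : TS}

theorem fd_an {f : E4 → ℂ} {y : E4} (h : AnalyticAt ℂ f y) (v : E4) :
    AnalyticAt ℂ (fun z ↦ fderiv ℂ f z v) y :=
  ((ContinuousLinearMap.apply ℂ ℂ v).analyticAt _).comp h.fderiv

theorem det_an (y : E4) : AnalyticAt ℂ (fun z ↦ (jm X z).det) y := by
  simp only [Matrix.det_apply', jm, Matrix.of_apply]
  refine Finset.analyticAt_fun_sum _ fun s _ ↦ analyticAt_const.mul
    (Finset.analyticAt_fun_prod _ fun i _ ↦ ?_)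
  have ho := X.an 1 _ X.o_mem y
  have ht := X.an 1 _ (X.θ_mem (s i)) y
  exact (ho.mul (fd_an ht _)).sub (ht.mul (fd_an ho _))

theorem fd_u {y : E4} (hy : X.o y ≠ 0) (c : C4) (j : Fin 4) :
    fderiv ℂ X.u y (bs.equivFun.symm c) j * X.o y ^ 2 = (jm X y).mulVec c j := by
  have ho := (X.an 1 _ X.o_mem y).differentiableAt.hasFDerivAt
  have ht := (X.an 1 _ (X.θ_mem j) y).differentiableAt.hasFDerivAt
  have hu := hasFDerivAt_pi'.1 (TS.u_an hy).differentiableAt.hasFDerivAt j
  have h1 : HasFDerivAt (fun z ↦ X.u z j * X.o z) (fderiv ℂ (X.θ j) y) y := by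
    refine ht.congr_of_eventuallyEq ?_
    filter_upwards [TS.isOpen_o.mem_nhds hy] with z hz
    exact div_mul_cancel₀ _ hz
  have h2 := DFunLike.congr_fun (h1.unique (hu.mul ho)) (bs.equivFun.symm c)
  have h3 : X.θ j y = X.u y j * X.o y := (div_mul_cancel₀ _ hy).symm
  have h4 : (jm X y).mulVec c j = X.o y * fderiv ℂ (X.θ j) y (bs.equivFun.symm c) -
      X.θ j y * fderiv ℂ X.o y (bs.equivFun.symm c) := by
    simp only [Matrix.mulVec, dotProduct, jm, Matrix.of_apply, Basis.equivFun_symm_apply, map_sum,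
      map_smul, smul_eq_mul, Finset.mul_sum, ← Finset.sum_sub_distrib]
    exact Finset.sum_congr rfl fun k _ ↦ by ring
  simp only [add_apply, smul_apply, smul_eq_mul,
    ContinuousLinearMap.comp_apply, ContinuousLinearMap.proj_apply] at h2
  rw [h4, h2, h3]
  ring

theorem inj_iff {y : E4} (hy : X.o y ≠ 0) :
    Function.Injective (fderiv ℂ X.u y) ↔ (jm X y).det ≠ 0 := by
  rw [Ne, ← Matrix.exists_mulVec_eq_zero_iff, injective_iff_map_eq_zero]
  constructor
  · rintro h ⟨c, hc, h0⟩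
    refine hc (bs.equivFun.symm.map_eq_zero_iff.1 (h _ (funext fun j ↦ ?_)))
    have := fd_u hy c j
    rw [h0] at this
    exact (mul_eq_zero.1 this).resolve_right (pow_ne_zero 2 hy)
  · intro h v hv
    obtain ⟨c, rfl⟩ := bs.equivFun.symm.surjective v
    by_contra h0
    refine h ⟨c, fun hc ↦ h0 (by rw [hc, map_zero]), funext fun j ↦ ?_⟩
    rw [← fd_u hy, hv]
    simp

end GEN

open GEN in
theorem st_GEN : St_GEN := by
  intro X
  have ha : ∀ y, AnalyticAt ℂ (fun z ↦ X.o z * (jm X z).det) y := fun y ↦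
    (X.an 1 _ X.o_mem y).mul (det_an y)
  refine ⟨{y | X.o y * (jm X y).det ≠ 0}, isOpen_ne_fun
    (continuous_iff_continuousAt.2 fun y ↦ (ha y).continuousAt) continuous_const, fun y ↦ ?_,
    fun y hy ↦ left_ne_zero_of_mul hy, fun y hy ↦ ⟨TS.u_an (left_ne_zero_of_mul hy),
      (inj_iff (left_ne_zero_of_mul hy)).2 (right_ne_zero_of_mul hy)⟩⟩
  obtain ⟨x, hx, hx'⟩ := X.imm
  rw [mem_closure_iff_frequently]
  exact fun hc ↦ mul_ne_zero hx ((inj_iff hx).1 hx')
    (AnalyticOnNhd.eqOn_zero_of_preconnected_of_eventuallyEq_zero (U := Set.univ)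
      (fun z _ ↦ ha z) isPreconnected_univ (Set.mem_univ y)
      (hc.mono fun z hz ↦ not_not.1 hz) (Set.mem_univ x))

end Pool.Agent.Lib.ECM.ZL
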