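import Pool.Agent.Lib.QM.ZDefs

/-! A stabiliser of dimension two meets the fibres of a projection in few points. -/

open Filter Topology Module

noncomputable section

namespace Pool.Agent.Lib.ECM.ZL

theorem st_GRAPH (hB : St_BAS4) (hK : St_KEY) : St_GRAPH := by
  classical
  intro X W H L T i i' Γ h2 hL hT hF hv hΓ hs
  obtain ⟨Ω, hΩ, hk⟩ := hK X (2 * L) (by omega)
  obtain ⟨b, A, -, -, hA, -, hc, -⟩ := hB H W
  rw [h2] at hc
  obtain ⟨a, a', ha, rfl⟩ := Finset.card_eq_two.1 hc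
  have hd : Dense (Ω ∩ ⋂ γ ∈ Γ, (fun y ↦ y + γ) ⁻¹' Ω) :=
    hΩ.dense.inter_of_isOpen_left (dense_biInter_of_isOpen
      (fun γ _ ↦ hΩ.isOpen.preimage (continuous_add_const γ)) Γ.countable_toSet
      fun γ _ ↦ hΩ.dense.preimage (isOpenMap_add_right γ)) hΩ.isOpen
  obtain ⟨q, hq, hq'⟩ := hd.nonempty
  simp only [Set.mem_iInter, Set.mem_preimage] at hq'
  obtain ⟨G, hG⟩ := hF q
  have fr : ∀ j, (fun y ↦ X.u y j - X.u q j) ∈ X.Fr 1 := fun j ↦
    (X.Fr 1).sub_mem (TS.fr_u j) (TS.fr_const 1 _)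
  have fd : ∀ j x v, X.o x ≠ 0 → fderiv ℂ (fun y ↦ X.u y j - X.u q j) x v = fderiv ℂ X.u x v j :=
    fun j x v hx ↦ by
      rw [fderiv_sub_const, fderiv_apply (TS.u_an hx).differentiableAt j]
      rfl
  have := hk W H b {a, a'} ∅ L T 1 L 1 q G
    (fun k y ↦ X.u y (if k = a then i else i') - X.u q (if k = a then i else i'))
    (Γ.image fun γ ↦ q + γ) (Finset.disjoint_empty_right _) hA (by simp) hT one_pos hL (by omega)
    (by omega) hG (fun k _ ↦ fr _) (by
      simp only [Finset.forall_mem_image]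
      exact fun γ h γ' h' e ↦ hs γ h γ' h' (fun e' ↦ e (e' ▸ rfl)) q (hΩ.ne _ (hq' γ h))
        (hΩ.ne _ (hq' γ' h'))) (by
      simp only [Finset.forall_mem_image]
      intro γ h
      have h0 := hΩ.ne _ (hq' γ h)
      have h1 := (hΓ γ h).2 q (hΩ.ne _ hq) h0
      refine ⟨hq' γ h, by simpa using (hΓ γ h).1, fun k _ ↦ ?_, fun v hv' h3 ↦
        hv _ h0 (hΩ.loc _ (hq' γ h)) v hv' ?_ ?_⟩
      · split_ifs
        exacts [sub_eq_zero.2 h1.1, sub_eq_zero.2 h1.2]
      · simpa only [fd _ _ _ h0, if_true] using h3 a (by simp)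
      · simpa only [fd _ _ _ h0, if_neg ha.symm] using h3 a' (by simp))
  rw [Finset.card_image_of_injective _ (add_right_injective q), hc, Finset.card_empty, pow_zero,
    one_pow, mul_one, mul_one] at this
  exact Nat.le_of_mul_le_mul_right (this.trans_eq (by ring)) (pow_pos hL 2)

end Pool.Agent.Lib.ECM.ZL
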