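import Pool.Agent.Lib.QM.ZBlue
import Pool.Agent.Lib.ECM.PT_AN

/-! The theta functions on the square of an abelian surface form a graded family. -/

open Complex Module
open scoped Real

noncomputable section

namespace Pool.Agent.Lib.ECM.ZL

open Pool.Agent.Lib.QM82

namespace INST

theorem lev_tra {τ : T3} {n : ℕ} {F G : V2 → ℂ} (hF : Lev τ n F) (hG : Lev τ n G) (a : V2) :
    Lev τ (2 * n) fun z ↦ F (z + a) * G (z - a) :=
  ⟨(hF.1.comp (differentiable_id.add_const a)).mul (hG.1.comp (differentiable_id.sub_const a)),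
    fun μ ν z ↦ by
      show F (z + _ + a) * G (z + _ - a) = _
      rw [add_right_comm, add_sub_right_comm, hF.2, hG.2, mul_mul_mul_comm, ← exp_add]
      congr 2
      simp only [dot, Pi.add_apply, Pi.sub_apply]
      push_cast
      ring⟩

theorem Th2_tra {τ : T3} {d : ℕ} {F G : V2 → ℂ} (hF : F ∈ Th2 τ d) (hG : G ∈ Th2 τ d) (a : V2) :
    (fun z ↦ F (z + a) * G (z - a)) ∈ Th2 τ (2 * d) := by
  have h := lev_tra (mem_Th2.mp hF) (mem_Th2.mp hG) ((2 : ℂ)⁻¹ • a)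
  simp only [smul_add, smul_sub, smul_inv_smul₀ (two_ne_zero (α := ℂ))] at h
  rw [mem_Th2, mul_left_comm]
  exact h

theorem Th2_diff {τ : T3} {d : ℕ} {F : V2 → ℂ} (hF : F ∈ Th2 τ d) : Differentiable ℂ F := by
  have h := (mem_Th2.mp hF).1.comp (differentiable_id.const_smul (2 : ℂ)⁻¹)
  refine (congrArg _ (funext fun z ↦ ?_)).mp h
  simp

theorem Tp_prod {τ : T3} {d : ℕ} {f g : V2 → ℂ} (hf : f ∈ Th2 τ d) (hg : g ∈ Th2 τ d) :
    (fun y : E4 ↦ f y.1 * g y.2) ∈ Tp τ d :=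
  ⟨((Th2_diff hf).comp differentiable_fst).mul ((Th2_diff hg).comp differentiable_snd),
    fun y ↦ by simpa using Th2_mul hf (Th2_const τ (g y)),
    fun x ↦ by simpa using Th2_mul (Th2_const τ (f x)) hg⟩

theorem Tp_th {τ : T3} (hτ : τ ∈ H2) (m m' : Ch) :
    (fun y : E4 ↦ th m τ y.1 * th m' τ y.2) ∈ Tp τ 1 :=
  Tp_prod (Th2_th hτ m) (Th2_th hτ m')

/-- the numerators of the four affine coordinates -/
def th4 (τ : T3) : Fin 4 → E4 → ℂ :=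
  ![tt τ hA 0, tt τ hB 0, tt τ 0 hA, tt τ 0 hB]

theorem fd_prod {τ : T3} (hτ : τ ∈ H2) (m m' : Ch) :
    HasFDerivAt (fun y : E4 ↦ th m τ y.1 * th m' τ y.2)
      (kk m τ • (fderiv ℂ (th m' τ) 0).comp (ContinuousLinearMap.snd ℂ V2 V2) +
        kk m' τ • (fderiv ℂ (th m τ) 0).comp (ContinuousLinearMap.fst ℂ V2 V2)) 0 :=
  ((th_BAS.diff_th m τ hτ _).hasFDerivAt.comp (0 : E4) hasFDerivAt_fst).mul
    ((th_BAS.diff_th m' τ hτ _).hasFDerivAt.comp (0 : E4) hasFDerivAt_snd)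

theorem fd_quot {f g : E4 → ℂ} {f' : E4 →L[ℂ] ℂ} (hf : HasFDerivAt f f' 0) (h0 : f 0 = 0)
    (hg : DifferentiableAt ℂ g 0) (hg0 : g 0 ≠ 0) :
    HasFDerivAt (fun y ↦ f y / g y) ((g 0)⁻¹ • f') 0 := by
  refine (hf.mul (hg.inv hg0).hasFDerivAt).congr_fderiv ?_
  ext v <;> simp [h0]

theorem imm0 {τ : T3} (hτ : τ ∈ H2) (hG : Gen τ) : Function.Injective
    (fderiv ℂ (fun (y : E4) j ↦ th4 τ j y / (th 0 τ y.1 * th 0 τ y.2)) 0) := by
  have k0 : kk 0 τ ≠ 0 := hG 0 (by decide)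
  have kA : kk hA τ = 0 := th_BAS.kk_odd hA τ (by decide)
  have kB : kk hB τ = 0 := th_BAS.kk_odd hB τ (by decide)
  have ho := (fd_prod hτ 0 0).differentiableAt
  have h0 : th 0 τ (0 : E4).1 * th 0 τ (0 : E4).2 ≠ 0 := mul_ne_zero k0 k0
  have q1 := fd_quot (fd_prod hτ hA 0) (mul_eq_zero_of_left kA _) ho h0
  have q2 := fd_quot (fd_prod hτ hB 0) (mul_eq_zero_of_left kB _) ho h0
  have q3 := fd_quot (fd_prod hτ 0 hA) (mul_eq_zero_of_right _ kA) ho h0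
  have q4 := fd_quot (fd_prod hτ 0 hB) (mul_eq_zero_of_right _ kB) ho h0
  have hd : ∀ j, DifferentiableAt ℂ (fun y : E4 ↦ th4 τ j y / (th 0 τ y.1 * th 0 τ y.2)) 0 := by
    intro j
    fin_cases j
    exacts [q1.differentiableAt, q2.differentiableAt, q3.differentiableAt, q4.differentiableAt]
  refine (injective_iff_map_eq_zero _).2 fun v hv ↦ ?_
  rw [fderiv_pi hd] at hv
  have e : ∀ j, fderiv ℂ (fun y : E4 ↦ th4 τ j y / (th 0 τ y.1 * th 0 τ y.2)) 0 v = 0 :=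
    fun j ↦ congrFun hv j
  have e1 := q1.fderiv ▸ e 0
  have e2 := q2.fderiv ▸ e 1
  have e3 := q3.fderiv ▸ e 2
  have e4 := q4.fderiv ▸ e 3
  have k0' : th 0 τ 0 ≠ 0 := k0
  simp [kA, kB, k0, k0'] at e1 e2 e3 e4
  have hi := (th_GAUGE.ind τ hτ hG).1
  have z : ∀ w : V2, fderiv ℂ (th hA τ) 0 w = 0 → fderiv ℂ (th hB τ) 0 w = 0 → w = 0 :=
    fun w a b ↦ hi (Prod.ext (a.trans (map_zero (fderiv ℂ (th hA τ) 0)).symm)
      (b.trans (map_zero (fderiv ℂ (th hB τ) 0)).symm))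
  exact Prod.ext (z _ e1 e2) (z _ e3 e4)

/-- the graded family of theta functions -/
def ts {τ : T3} (hτ : τ ∈ H2) (hG : Gen τ) : TS where
  Th := Tp τ
  o := tt τ 0 0
  θ := th4 τ
  an := fun _ _ hf y ↦ PT.AN.analyticAt_of_diff hf.1 y
  one := ⟨differentiable_const 1, fun _ ↦ Th2_const τ 1, fun _ ↦ Th2_const τ 1⟩
  mul := fun _ _ _ hf _ hg ↦ ⟨hf.1.mul hg.1, fun y ↦ Th2_mul (hf.2.1 y) (hg.2.1 y),
    fun x ↦ Th2_mul (hf.2.2 x) (hg.2.2 x)⟩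
  dim := fun d hd ↦ by
    have h := st_HILB τ τ d d hd hd (Tp τ d) (fun _ h ↦ h.2.1) fun _ h ↦ h.2.2
    rwa [← pow_add] at h
  tra := fun _ _ hf _ hg a ↦
    ⟨(hf.1.comp (differentiable_id.add_const a)).mul (hg.1.comp (differentiable_id.sub_const a)),
      fun y ↦ Th2_tra (hf.2.1 (y + a.2)) (hg.2.1 (y - a.2)) a.1,
      fun x ↦ Th2_tra (hf.2.2 (x + a.1)) (hg.2.2 (x - a.1)) a.2⟩
  nz := fun y ↦ by
    obtain ⟨m, hm⟩ := XINJ.ex_ne th_NORM hτ y.1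
    obtain ⟨m', hm'⟩ := XINJ.ex_ne th_NORM hτ y.2
    exact ⟨_, Tp_th hτ m m', mul_ne_zero hm hm'⟩
  o_mem := Tp_th hτ 0 0
  θ_mem := fun j ↦ by
    fin_cases j
    exacts [Tp_th hτ hA 0, Tp_th hτ hB 0, Tp_th hτ 0 hA, Tp_th hτ 0 hB]
  imm := ⟨0, mul_ne_zero (hG 0 (by decide)) (hG 0 (by decide)), imm0 hτ hG⟩

end INST

theorem st_INST : St_INST := fun _ hτ hG ↦ ⟨INST.ts hτ hG, rfl, rfl, rfl⟩

end Pool.Agent.Lib.ECM.ZL
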