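import Pool.Agent.Lib.QM.ZBlue
import Pool.Agent.Lib.ECM.PT_JT

/-! Block JET4: a vanishing jet gives a theta function vanishing to high order on the graph. -/

open Filter Topology Module

noncomputable section

namespace Pool.Agent.Lib.ECM.ZL

namespace JET4

theorem tdeg {F : MvPolynomial (Fin 4) ℂ} {L : ℕ} (h : ∀ j, F.degreeOf j ≤ L) :
    F.totalDegree ≤ 4 * L := by
  refine Finset.sup_le fun m hm ↦ ?_
  rw [Finsupp.sum_fintype _ _ (by simp)]
  exact (Finset.sum_le_card_nsmul _ _ L fun j _ ↦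
    (MvPolynomial.monomial_le_degreeOf j hm).trans (h j)).trans (by simp)

theorem coords {v₁ v₂ : V2} (h : LinearIndependent ℂ ![v₁, v₂]) (w : V2) :
    ∃ c₁ c₂ : ℂ, c₁ • v₁ + c₂ • v₂ = w := by
  have h1 := h.span_eq_top_of_card_eq_finrank' (by simp)
  obtain ⟨c, hc⟩ := (Submodule.mem_span_range_iff_exists_fun ℂ).1
    (h1 ▸ Submodule.mem_top (x := w))
  exact ⟨c 0, c 1, by simpa using hc⟩

theorem u_sq {τ : T3} {X : TS} (hX : Is τ X) (b : V2 →ₗ[ℂ] V2) {z : V2}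
    (h : X.o (z, b z) ≠ 0) : (fun j ↦ X.u (z, b z) j ^ 2) = QM.F4 τ b z := by
  rw [hX.o] at h
  have h1 : th 0 τ z ≠ 0 := left_ne_zero_of_mul h
  have h2 : th 0 τ (b z) ≠ 0 := right_ne_zero_of_mul h
  funext j
  fin_cases j <;> simp [TS.u, hX.o, hX.θ, tt, QM.F4, mul_div_mul_right, mul_div_mul_left, h1, h2]

end JET4

open JET4 in
theorem st_JET4 : St_JET4 := by
  intro τ _ hg X hX v₁ v₂ b F L n hv hF hd hj
  obtain ⟨j1, j2, -, j4⟩ := PT.st_JT
  have hf := TS.fr_poly (fun j ↦ TS.fr_pow (X := X) (TS.fr_u j) 2) (tdeg hd)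
  rw [show 4 * L * (2 * 1) = 8 * L by ring] at hf
  obtain ⟨Φ, hΦ, e⟩ := id hf
  refine ⟨Φ, hX.th ▸ hΦ, ?_, fun w hw k hk ↦ ?_⟩
  · rintro rfl
    obtain ⟨y, h1, h2⟩ := TS.u_ind (X := X) ((MvPolynomial.expand_ne_zero two_pos).2 hF)
    rw [MvPolynomial.eval_expand] at h2
    exact h2 ((e y h1).trans (by simp))
  obtain ⟨c₁, c₂, hc⟩ := coords hv w.1
  let l : ℂ × ℂ → E4 := fun z ↦ (z.1 • v₁ + z.2 • v₂, b (z.1 • v₁ + z.2 • v₂))
  have l0 : l 0 = 0 := by simp [l]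
  have lp : AnalyticAt ℂ (fun z : ℂ × ℂ ↦ z.1 • v₁ + z.2 • v₂) 0 :=
    (analyticAt_fst.smul analyticAt_const).add (analyticAt_snd.smul analyticAt_const)
  have la : AnalyticAt ℂ l 0 :=
    lp.prod ((b.toContinuousLinearMap.analyticAt _).comp_of_eq lp rfl)
  have o0 : X.o (l 0) ≠ 0 := by
    rw [l0, hX.o]
    exact mul_ne_zero (hg 0 (by decide)) (hg 0 (by decide))
  have oa : AnalyticAt ℂ (fun z ↦ X.o (l z)) 0 := (X.an 1 _ X.o_mem _).comp_of_eq la rfl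
  have ev := oa.continuousAt.eventually_ne o0
  have pa : AnalyticAt ℂ
      (fun z : ℂ × ℂ ↦ MvPolynomial.eval (QM.F4 τ b (z.1 • v₁ + z.2 • v₂)) F) 0 := by
    refine ((TS.fr_an hf o0).comp_of_eq la rfl).congr ?_
    filter_upwards [ev] with z hz
    simp only [Function.comp, l, u_sq hX b hz]
  have h1 := j2 _ _ n (oa.pow (8 * L)) pa hj
  have h2 : PT.Jet (fun z ↦ Φ (l z)) n := fun a a' ha ↦ by
    rw [← h1 a a' ha]
    refine j1 _ _ a a' ?_
    filter_upwards [ev] with z hz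
    have := e _ hz
    simp only [l, u_sq hX b hz] at this
    simp only [Pi.pow_apply, l, this]
    rw [mul_div_cancel₀ _ (pow_ne_zero _ hz)]
  have h3 := j4 (fun z ↦ Φ (l z)) c₁ c₂ k 0 0 ((X.an _ _ hΦ _).comp_of_eq la rfl)
    fun a ha ↦ by rw [h2 a _ (by omega), norm_zero]
  rw [mul_zero, norm_le_zero_iff] at h3
  rw [← h3, PT.I2]
  congr 1
  funext s
  have hw' : w.2 = b w.1 := hw
  have : (c₁ * s) • v₁ + (c₂ * s + 0) • v₂ = s • w.1 := by
    rw [← hc]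
    module
  simp only [iteratedDeriv_zero, l, this, map_smul, ← hw', zero_add]
  rfl

end Pool.Agent.Lib.ECM.ZL
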