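import Pool.Agent.Lib.QM.ZDefs

/-! Zero lemma on the square of an abelian surface: the count for a family cut by slices. -/

open Filter Topology Module

noncomputable section

namespace Pool.Agent.Lib.ECM.ZL

namespace KEY

/-- a coordinate as a continuous linear form -/
def cl (b : Basis (Fin 4) ℂ E4) (i : Fin 4) : E4 →L[ℂ] ℂ := (b.coord i).toContinuousLinearMap

/-- the part of a vector on a set of indices -/
def pt (b : Basis (Fin 4) ℂ E4) (A : Finset (Fin 4)) (v : E4) : E4 := ∑ i ∈ A, cl b i v • b i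

theorem pt_cont (b : Basis (Fin 4) ℂ E4) (A : Finset (Fin 4)) : Continuous (pt b A) :=
  continuous_finsetSum _ fun i _ ↦ (cl b i).continuous.smul continuous_const

theorem pt_mem {b : Basis (Fin 4) ℂ E4} {A : Finset (Fin 4)} {H : Submodule ℂ E4}
    (h : ∀ i ∈ A, b i ∈ H) (v : E4) : pt b A v ∈ H :=
  H.sum_mem fun i hi ↦ H.smul_mem _ (h i hi)

theorem pt_split (b : Basis (Fin 4) ℂ E4) {A B : Finset (Fin 4)} (h : Disjoint A B) (v : E4) :
    pt b A v + pt b B v + pt b (A ∪ B)ᶜ v = v := by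
  rw [pt, pt, pt, ← Finset.sum_union h, Finset.sum_add_sum_compl]
  exact b.sum_repr v

theorem pt_le (b : Basis (Fin 4) ℂ E4) (A : Finset (Fin 4)) {v : E4} {r : ℝ} (hr : 0 ≤ r)
    (h : ∀ i ∈ A, ‖cl b i v‖ ≤ r) : ‖pt b A v‖ ≤ (∑ i, ‖b i‖) * r := by
  refine (norm_sum_le _ _).trans ?_
  rw [Finset.sum_mul]
  refine le_trans (Finset.sum_le_sum fun i hi ↦ ?_) (Finset.sum_le_sum_of_subset_of_nonneg
    (f := fun i ↦ ‖b i‖ * r) (Finset.subset_univ A) fun i _ _ ↦ by positivity)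
  rw [norm_smul, mul_comm]
  exact mul_le_mul_of_nonneg_left (h i hi) (norm_nonneg _)

theorem pt_ev (b : Basis (Fin 4) ℂ E4) (A : Finset (Fin 4)) (x : E4) :
    ∀ᶠ y in 𝓝 x, ‖pt b A (y - x)‖ ≤ 1 :=
  (((pt_cont b A).comp (continuous_id.sub continuous_const)).norm.continuousAt.eventually_lt
    continuousAt_const (by simp [pt])).mono fun _ h ↦ h.le

/-- the adapted coordinates -/
def yy (b : Basis (Fin 4) ℂ E4) (A : Finset (Fin 4)) (s : Fin 4 → E4 → ℂ) (x y : E4) : C4 :=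
  fun i ↦ if i ∈ A then s i y else cl b i (y - x)

theorem loc {b : Basis (Fin 4) ℂ E4} {A : Finset (Fin 4)} {H : Submodule ℂ E4}
    {s : Fin 4 → E4 → ℂ} {x : E4} (hA : ∀ i ∈ A, b i ∈ H) (hs : ∀ i ∈ A, AnalyticAt ℂ (s i) x)
    (hv : ∀ v ∈ H, (∀ i ∈ A, fderiv ℂ (s i) x v = 0) → v = 0) : Loc (yy b A s x) x := by
  have an : ∀ i, AnalyticAt ℂ (fun y ↦ yy b A s x y i) x := fun i ↦ by
    by_cases h : i ∈ A
    · simpa only [yy, if_pos h] using hs i h
    · simp only [yy, if_neg h]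
      exact ((cl b i).analyticAt _).comp (analyticAt_id.sub analyticAt_const)
  refine ⟨AnalyticAt.pi an, (injective_iff_map_eq_zero _).2 fun v h0 ↦ ?_⟩
  have e : ∀ i, fderiv ℂ (fun y ↦ yy b A s x y i) x v = 0 := fun i ↦ by
    have := fderiv_pi (φ := fun i y ↦ yy b A s x y i) fun i ↦ (an i).differentiableAt
    have h1 := congrFun h0 i
    rw [show yy b A s x = fun y i ↦ yy b A s x y i from rfl, this] at h1
    exact h1
  refine hv v ?_ fun i hi ↦ by simpa only [yy, if_pos hi] using e i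
  have z : pt b Aᶜ v = 0 := Finset.sum_eq_zero fun i hi ↦ by
    have h1 := e i
    simp only [yy, if_neg (Finset.mem_compl.1 hi)] at h1
    have h2 : HasFDerivAt (fun y ↦ cl b i (y - x)) (cl b i) x :=
      (cl b i).hasFDerivAt.comp x ((hasFDerivAt_id x).sub_const x)
    rw [h2.fderiv] at h1
    rw [h1, zero_smul]
  have := pt_split b (Finset.disjoint_empty_right A) v
  rw [Finset.union_empty, z, add_zero, pt.eq_1 b ∅, Finset.sum_empty, add_zero] at this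
  exact this ▸ pt_mem hA v

theorem van (hO : St_ORD) {b : Basis (Fin 4) ℂ E4} {A B : Finset (Fin 4)} {W H : Submodule ℂ E4}
    {s : Fin 4 → E4 → ℂ} {x : E4} {g : E4 → ℂ} {T m k : ℕ} (hd : Disjoint A B)
    (hA : ∀ i ∈ A, b i ∈ H) (hB : ∀ i ∈ B, b i ∈ W) (hg : ∀ y, AnalyticAt ℂ g y)
    (ho : ∀ h ∈ H, Ord W g (x + h) T) :
    Van (yy b A s x) (fun i ↦ if i ∈ A then k else if i ∈ B then m else m * T) x (m * T) g := by
  obtain ⟨C, hC⟩ := hO.est hg ho
  set K := ∑ i, ‖b i‖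
  refine ⟨|C| * (K ^ T + K), ?_⟩
  filter_upwards [pt_ev b A x, pt_ev b B x, pt_ev b (A ∪ B)ᶜ x] with y h1 h2 h3 ρ r0 r1 hy
  have h4 := hC _ (pt_mem hA _) _ (pt_mem hB _) _ h1 h2 h3
  rw [add_assoc x, add_assoc x, pt_split b hd, add_sub_cancel] at h4
  have h5 : ‖pt b B (y - x)‖ ≤ K * ρ ^ m := pt_le b B (by positivity) fun i hi ↦ by
    simpa only [yy, if_neg (Finset.disjoint_right.1 hd hi), if_pos hi] using hy i
  have h6 : ‖pt b (A ∪ B)ᶜ (y - x)‖ ≤ K * ρ ^ (m * T) := pt_le b _ (by positivity) fun i hi ↦ by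
    rw [Finset.mem_compl, Finset.mem_union, not_or] at hi
    simpa only [yy, if_neg hi.1, if_neg hi.2] using hy i
  have h7 := pow_le_pow_left₀ (norm_nonneg _) h5 T
  rw [mul_pow, ← pow_mul] at h7
  calc _ ≤ |C| * (‖pt b B (y - x)‖ ^ T + ‖pt b (A ∪ B)ᶜ (y - x)‖) :=
        h4.trans (mul_le_mul_of_nonneg_right (le_abs_self C) (by positivity))
    _ ≤ |C| * (K ^ T * ρ ^ (m * T) + K * ρ ^ (m * T)) := by gcongr
    _ = _ := by ring

theorem iso {Z : Set E4} {H : Submodule ℂ E4} {A : Finset (Fin 4)} {s : Fin 4 → E4 → ℂ} {x : E4}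
    (hZ : tangentConeAt ℂ Z x ⊆ H) (hs : ∀ i ∈ A, AnalyticAt ℂ (s i) x ∧ s i x = 0)
    (hv : ∀ v ∈ H, (∀ i ∈ A, fderiv ℂ (s i) x v = 0) → v = 0) :
    ∀ᶠ y in 𝓝 x, y ∈ Z → (∀ i ∈ A, s i y = 0) → y = x := by
  by_contra hc
  have : AccPt x (𝓟 (Z ∩ {y | ∀ i ∈ A, s i y = 0})) := by
    rw [accPt_iff_frequently]
    refine (not_eventually.1 hc).mono fun y hy ↦ ?_
    push Not at hy
    exact ⟨hy.2.2, hy.1, hy.2.1⟩
  obtain ⟨v, h1, h2⟩ := tangentConeAt_nonempty_of_properSpace (𝕜 := ℂ) this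
  refine h2 (hv v (hZ (tangentConeAt_mono Set.inter_subset_left h1)) fun i hi ↦ ?_)
  exact (hs i hi).1.differentiableAt.hasFDerivAt.hasFDerivWithinAt.unique_on
    ((hasFDerivWithinAt_const (0 : ℂ) x _).congr (fun y hy ↦ hy.2 i hi) (hs i hi).2) h1

theorem prod_e {A B : Finset (Fin 4)} (hd : Disjoint A B) (a b c : ℕ) :
    ∏ i, (if i ∈ A then a else if i ∈ B then b else c) =
      a ^ A.card * b ^ B.card * c ^ (4 - A.card - B.card) := by
  rw [← Finset.prod_mul_prod_compl (A ∪ B), Finset.prod_union hd,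
    Finset.prod_congr rfl fun i hi ↦ if_pos hi,
    Finset.prod_congr rfl fun i (hi : i ∈ B) ↦
      (if_neg (Finset.disjoint_right.1 hd hi)).trans (if_pos hi),
    Finset.prod_congr rfl fun i (hi : i ∈ (A ∪ B)ᶜ) ↦
      (if_neg fun h ↦ Finset.mem_compl.1 hi (Finset.mem_union_left _ h)).trans
        (if_neg fun h ↦ Finset.mem_compl.1 hi (Finset.mem_union_right _ h))]
  simp only [Finset.prod_const, Finset.card_compl, Finset.card_union_of_disjoint hd, Nat.sub_sub,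
    Fintype.card_fin]

end KEY

open KEY in
theorem st_KEY (hV : St_VAN) (hO : St_ORD) (hZ : St_ZC) : St_KEY := by
  intro X d hd
  obtain ⟨Ω, hΩ, h⟩ := hZ X d hd
  refine ⟨Ω, hΩ, fun W H b A B L T j m d1 q G s S hAB hA hB hT hj hm h1 h2 hF hs hsep hS ↦ ?_⟩
  have an : ∀ x ∈ S, ∀ i ∈ A, AnalyticAt ℂ (s i) x := fun x hx i hi ↦
    TS.fr_an (hs i hi) (hΩ.ne x (hS x hx).1)
  rw [← prod_e hAB]
  refine h S (yy b A s) (fun i ↦ if i ∈ A then j * T else if i ∈ B then m else m * T) _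
    (m * (j * T)) ({f | ∃ g ∈ G, f = fun y ↦ (g y / X.o y ^ (2 * L)) ^ j} ∪
      {f | ∃ i ∈ A, f = fun y ↦ s i y ^ m}) (fun x hx ↦ (hS x hx).1) hsep
    (fun x hx ↦ ⟨loc hA (an x hx) (hS x hx).2.2.2, funext fun i ↦ ?_⟩) (fun i ↦ ?_)
    (by positivity) (fun i ↦ ?_) ?_ fun x hx ↦ ?_
  · by_cases hi : i ∈ A
    · simpa [yy, hi] using (hS x hx).2.2.1 i hi
    · simp [yy, hi]
  · split_ifs <;> positivity
  · split_ifs <;> exact le_of_eq (by ring)
  · rintro f (⟨g, hg, rfl⟩ | ⟨i, hi, rfl⟩)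
    · refine ⟨TS.fr_mono h1 (TS.fr_pow (TS.fr_div (hF.mem g hg)) j), fun x hx ↦ ?_⟩
      have a := van hO (s := s) (x := x) (m := m) (k := j * T) hAB hA hB (X.an _ g (hF.mem g hg))
        fun v hv ↦ by
          have := hF.ord g hg _ (H.add_mem (hS x hx).2.1 hv)
          rwa [← add_assoc, add_sub_cancel] at this
      have c : ContinuousAt (fun y ↦ (X.o y ^ (2 * L))⁻¹) x :=
        ((X.an 1 _ X.o_mem x).continuousAt.pow _).inv₀ (pow_ne_zero _ (hΩ.ne x (hS x hx).1))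
      have := hV.pow (hV.mul a (hV.zero c)) j
      rw [add_zero, mul_left_comm] at this
      simpa only [div_eq_mul_inv] using this
    · refine ⟨TS.fr_mono h2 (TS.fr_pow (hs i hi) m), fun x hx ↦ hV.pow ⟨1, ?_⟩ m⟩
      exact Eventually.of_forall fun y ρ _ _ hy ↦ by simpa only [yy, if_pos hi, one_mul] using hy i
  · have t := hF.tan _ (hS x hx).2.1
    rw [add_sub_cancel] at t
    filter_upwards [iso t (fun i hi ↦ ⟨an x hx i hi, (hS x hx).2.2.1 i hi⟩) (hS x hx).2.2.2,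
      TS.isOpen_o.mem_nhds (hΩ.ne x (hS x hx).1)] with y h3 h4 h5
    refine h3 (fun g hg ↦ ?_) fun i hi ↦ pow_eq_zero_iff hm.ne' |>.1 (h5 _ (Or.inr ⟨i, hi, rfl⟩))
    exact (div_eq_zero_iff.1 ((pow_eq_zero_iff hj.ne').1
      (h5 _ (Or.inl ⟨g, hg, rfl⟩)))).resolve_right (pow_ne_zero _ h4)

end Pool.Agent.Lib.ECM.ZL
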