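import Pool.Agent.Lib.QM.ZDefs

/-! A stabiliser of dimension one lies on an algebraic curve (row LINE). -/

open Filter Topology Module

noncomputable section

namespace Pool.Agent.Lib.ECM.ZL

namespace LINE

theorem exists_poly (a : ℕ) (S : Finset ℂ) (hS : S.card < (a + 1) ^ 2) (z : ℂ → Fin 2 → ℂ) :
    ∃ P : MvPolynomial (Fin 2) ℂ, P ≠ 0 ∧ P.totalDegree ≤ 2 * a ∧
      ∀ t ∈ S, MvPolynomial.eval (z t) P = 0 := by
  let e : (Fin 2 → Fin (a + 1)) → Fin 2 →₀ ℕ := fun α ↦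
    Finsupp.equivFunOnFinite.symm fun i ↦ (α i : ℕ)
  have he : Function.Injective e := fun α β h ↦ funext fun i ↦
    Fin.ext (congrArg (fun f : Fin 2 →₀ ℕ ↦ f i) h)
  let μ : (Fin 2 → Fin (a + 1)) → MvPolynomial (Fin 2) ℂ := fun α ↦ MvPolynomial.monomial (e α) 1
  have hμ : LinearIndependent ℂ μ := by
    have := (MvPolynomial.basisMonomials (Fin 2) ℂ).linearIndependent.comp e he
    rwa [MvPolynomial.coe_basisMonomials] at this
  let f : ((Fin 2 → Fin (a + 1)) → ℂ) →ₗ[ℂ] (S → ℂ) := LinearMap.pi fun t ↦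
    (MvPolynomial.aeval (z t)).toLinearMap ∘ₗ Fintype.linearCombination ℂ μ
  obtain ⟨c, hc, hc0⟩ := Submodule.exists_mem_ne_zero_of_ne_bot
    (LinearMap.ker_ne_bot_of_finrank_lt (f := f) (by simpa using hS))
  refine ⟨∑ α, c α • μ α, fun h ↦ hc0 (funext (Fintype.linearIndependent_iff.1 hμ c h)), ?_,
    fun t ht ↦ ?_⟩
  · refine MvPolynomial.totalDegree_finsetSum_le fun α _ ↦
      (MvPolynomial.totalDegree_smul_le _ _).trans ((MvPolynomial.totalDegree_monomial_le _ _).trans ?_)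
    rw [Finsupp.sum_fintype _ _ fun _ ↦ rfl, Fin.sum_univ_two]
    have h0 := (α 0).2
    have h1 := (α 1).2
    change (α 0 : ℕ) + (α 1 : ℕ) ≤ _
    omega
  · exact congrFun (LinearMap.mem_ker.1 hc) ⟨t, ht⟩

theorem simple {ψ : ℂ → ℂ} {U : Set ℂ} (hU : IsOpen U) (hc : IsPreconnected U) (h0 : 0 ∈ U)
    (hψ : AnalyticOnNhd ℂ ψ U) (hne : ¬ ∀ᶠ t in 𝓝 0, ψ t = 0) (S : Finset ℂ)
    (hS : ∀ t ∈ S, t ∈ U ∧ ψ t = 0) :
    ∃ (ε : ℂ) (S' : Finset ℂ), S'.card = S.card ∧ ∀ t ∈ S', t ∈ U ∧ ψ t = ε ∧ deriv ψ t ≠ 0 := by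
  classical
  obtain ⟨V, hV, hd⟩ := S.finite_toSet.t2_separation
  have hnc : ∀ t ∈ S, ¬ ∀ᶠ z in 𝓝 t, ψ z = ψ t := fun t ht h ↦ hne (by
    rw [(hS t ht).2] at h
    filter_upwards [hU.mem_nhds h0] with z hz
    exact hψ.eqOn_zero_of_preconnected_of_eventuallyEq_zero hc (hS t ht).1 h hz)
  have h1 : ∀ t ∈ S, ∀ᶠ ε in 𝓝 (0 : ℂ), ∃ τ, (τ ∈ V t ∧ τ ∈ U ∧ (τ ≠ t → deriv ψ τ ≠ 0)) ∧
      ψ τ = ε := by
    intro t ht
    have ha := hψ t (hS t ht).1
    have h2 : ∀ᶠ τ in 𝓝 t, τ ≠ t → deriv ψ τ ≠ 0 := by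
      refine eventually_nhdsWithin_iff.1 (ha.deriv.eventually_eq_zero_or_eventually_ne_zero.resolve_left
        fun h ↦ hnc t ht ?_)
      obtain ⟨r, hr, hb⟩ := Metric.eventually_nhds_iff_ball.1 (h.and ha.eventually_analyticAt)
      filter_upwards [Metric.ball_mem_nhds t hr] with z hz
      exact Metric.isOpen_ball.is_const_of_deriv_eq_zero (convex_ball t r).isPreconnected
        (fun y hy ↦ (hb y hy).2.differentiableAt.differentiableWithinAt) (fun y hy ↦ (hb y hy).1)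
        hz (Metric.mem_ball_self hr)
    have h3 := ha.eventually_constant_or_nhds_le_map_nhds.resolve_left (hnc t ht)
    rw [(hS t ht).2] at h3
    exact h3 (image_mem_map (((hV t).2.eventually_mem (hV t).1).and
      ((hU.eventually_mem (hS t ht).1).and h2)))
  obtain ⟨ε, hε, hε0⟩ := ((((eventually_all_finset S).2 h1).filter_mono
    (nhdsWithin_le_nhds (s := {0}ᶜ))).and self_mem_nhdsWithin).exists
  choose! τ hτ hτ' using hε
  refine ⟨ε, S.image τ, Finset.card_image_of_injOn fun t ht t' ht' h ↦ ?_, fun z hz ↦ ?_⟩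
  · by_contra hne
    exact Set.disjoint_left.1 (hd ht ht' hne) (hτ t ht).1 (h ▸ (hτ t' ht').1)
  · obtain ⟨t, ht, rfl⟩ := Finset.mem_image.1 hz
    refine ⟨(hτ t ht).2.1, hτ' t ht, (hτ t ht).2.2 fun h ↦ hε0 ?_⟩
    rw [← hτ' t ht, h, (hS t ht).2]
    rfl

end LINE

theorem st_LINE (hB : St_BAS4) (hK : St_KEY) : St_LINE := by
  classical
  intro X W H L T v i i' hH hv hv0 hL hT hF
  obtain ⟨j, hj⟩ : ∃ j, j = 2 ^ 20 * L ^ 2 + 1 := ⟨_, rfl⟩
  have hj0 : 0 < j := by omega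
  obtain ⟨Ω, hΩ, hk⟩ := hK X (2 * (j * L)) (by positivity)
  obtain ⟨b, A, B, -, hA, -, hc, -⟩ := hB H W
  obtain ⟨q, hq⟩ := hΩ.dense.nonempty
  obtain ⟨r, -, -, hr, -⟩ := (hΩ.loc q hq).inv
  have hl : Continuous fun t : ℂ ↦ q + t • v := by fun_prop
  have h1 : ∀ᶠ t : ℂ in 𝓝 0, q + t • v ∈ Ω ∧ r (X.u (q + t • v)) = q + t • v :=
    (hl.tendsto' 0 q (by simp)).eventually ((hΩ.isOpen.eventually_mem hq).and hr)
  obtain ⟨ρ, hρ, hb⟩ := Metric.eventually_nhds_iff_ball.1 h1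
  obtain ⟨S, hS, hSc⟩ := (infinite_of_mem_nhds _ (Metric.ball_mem_nhds (0 : ℂ) hρ)).exists_subset_card_eq
    ((j * L) ^ 2)
  obtain ⟨P, hP0, hPd, hP⟩ := LINE.exists_poly (j * L) S (by rw [hSc]; nlinarith)
    fun t ↦ ![X.u (q + t • v) i, X.u (q + t • v) i']
  refine ⟨q, P, hΩ.ne q hq, hP0, hPd.trans ?_, by_contra fun hne ↦ ?_⟩
  · have : L ≤ L ^ 3 := Nat.le_self_pow (by norm_num) L
    rw [hj]
    nlinarith
  let g : E4 → ℂ := fun y ↦ MvPolynomial.eval ![X.u y i, X.u y i'] P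
  have hg : g ∈ X.Fr (2 * (j * L)) := by
    have := TS.fr_poly (X := X) (n := 1) (φ := fun l y ↦ X.u y (![i, i'] l))
      (fun l ↦ TS.fr_u _) hPd
    rw [mul_one] at this
    refine TS.fr_congr this fun y _ ↦ ?_
    simp only [g]
    congr 2
    funext l
    fin_cases l <;> rfl
  have hga : ∀ t ∈ Metric.ball (0 : ℂ) ρ, AnalyticAt ℂ g (q + t • v) := fun t ht ↦
    TS.fr_an hg (hΩ.ne _ (hb t ht).1)
  obtain ⟨ε, S', hS'c, hS'⟩ := LINE.simple (ψ := fun t ↦ g (q + t • v)) Metric.isOpen_ball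
    (convex_ball _ _).isPreconnected (Metric.mem_ball_self hρ)
    (fun t ht ↦ (hga t ht).comp (f := fun t : ℂ ↦ q + t • v) (by fun_prop)) hne S
    fun t ht ↦ ⟨hS ht, hP t ht⟩
  obtain ⟨G, hG⟩ := hF q
  have hinj : Function.Injective fun t : ℂ ↦ q + t • v := fun t t' h ↦
    smul_left_injective ℂ hv0 (add_left_cancel h)
  have key := hk W H b A ∅ L T j 1 (2 * (j * L)) q G (fun _ y ↦ g y - ε)
    (S'.image fun t ↦ q + t • v) (by simp) hA (by simp) hT hj0 one_pos (by nlinarith) (by omega) hG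
    (fun _ _ ↦ sub_mem hg (TS.fr_const _ ε)) (fun x hx x' hx' hxx ↦ ?_) fun x hx ↦ ?_
  · rw [Finset.card_image_of_injective _ hinj, hS'c, hSc, hc, hH] at key
    simp only [Finset.card_empty, pow_zero, one_pow, one_mul, Nat.sub_zero] at key
    have h2 : j ^ 4 * L ^ 2 * j ≤ j ^ 4 * L ^ 2 * (2 ^ 20 * L ^ 2) := by
      refine le_of_eq_of_le ?_ (key.trans_eq ?_) <;> ring
    have := Nat.le_of_mul_le_mul_left h2 (by positivity)
    omega
  · obtain ⟨t, ht, rfl⟩ := Finset.mem_image.1 hx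
    obtain ⟨t', ht', rfl⟩ := Finset.mem_image.1 hx'
    by_contra hcon
    push Not at hcon
    apply hxx
    rw [← (hb t (hS' t ht).1).2, ← (hb t' (hS' t' ht').1).2]
    exact congrArg r (funext fun l ↦ hcon _ (TS.fr_u l))
  · obtain ⟨t, ht, rfl⟩ := Finset.mem_image.1 hx
    obtain ⟨h2, h3, h4⟩ := hS' t ht
    refine ⟨(hb t h2).1, by simpa using H.smul_mem t hv, fun _ _ ↦ sub_eq_zero.2 h3,
      fun w hw h5 ↦ ?_⟩
    obtain ⟨a, ha⟩ := Finset.card_pos.1 (show 0 < A.card by omega)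
    obtain ⟨c, hc⟩ := (finrank_eq_one_iff_of_nonzero' (⟨v, hv⟩ : H)
      (fun h ↦ hv0 (congrArg Subtype.val h))).1 hH ⟨w, hw⟩
    obtain rfl : c • v = w := congrArg Subtype.val hc
    have h6 := h5 a ha
    rw [fderiv_sub_const, map_smul, smul_eq_zero] at h6
    have h7 : HasDerivAt (fun t : ℂ ↦ q + t • v) v t := by
      simpa using ((hasDerivAt_id t).smul_const v).const_add q
    have h8 := ((hga t h2).differentiableAt.hasFDerivAt.comp_hasDerivAt t h7).deriv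
    rw [h6.resolve_right fun h ↦ h4 (h8.trans h), zero_smul]

end Pool.Agent.Lib.ECM.ZL
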