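import Pool.Agent.Lib.QM.ZDefs

/-! Zero lemma on the square of an abelian surface: orders of vanishing. -/

open Filter Topology Module Metric Set Asymptotics

noncomputable section

namespace Pool.Agent.Lib.ECM.ZL

namespace ORD

/-- a finite dimensional space of functions is stable under derivation in a parameter -/
theorem der_mem {α : Type} (V : Submodule ℂ (α → ℂ)) [Module.Finite ℂ V] {f : ℂ → α → ℂ}
    (hf : ∀ t, f t ∈ V) (hd : ∀ y, Differentiable ℂ fun t ↦ f t y) (k : ℕ) (t₀ : ℂ) :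
    (fun y ↦ iteratedDeriv k (fun t ↦ f t y) t₀) ∈ V := by
  induction k generalizing t₀ with
  | zero => simpa using hf t₀
  | succ k ih =>
    refine V.closed_of_finiteDimensional.mem_of_tendsto (b := 𝓝[≠] t₀)
      (f := fun t y ↦ slope (iteratedDeriv k fun t ↦ f t y) t₀ t) (tendsto_pi_nhds.2 fun y ↦ ?_)
      (Eventually.of_forall fun t ↦ V.smul_mem (t - t₀)⁻¹ (V.sub_mem (ih t) (ih t₀)))
    rw [iteratedDeriv_succ]
    exact hasDerivAt_iff_tendsto_slope.1 (((hd y).contDiff (n := ⊤)).differentiable_iteratedDeriv k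
      (by simp) t₀).hasDerivAt

theorem an_line {g : E4 → ℂ} (hg : ∀ y, AnalyticAt ℂ g y) {p : ℂ → E4}
    (hp : Differentiable ℂ p) : Differentiable ℂ fun t ↦ g (p t) :=
  fun t ↦ (hg _).differentiableAt.comp t (hp t)

theorem bdd {F : Type} [NormedAddCommGroup F] {g : E4 → F} (hg : Continuous g) (x : E4) (R : ℝ) :
    ∃ B, 0 ≤ B ∧ ∀ v, ‖v‖ ≤ R → ‖g (x + v)‖ ≤ B := by
  obtain ⟨B, hB⟩ := (isCompact_closedBall x R).exists_bound_of_continuousOn hg.continuousOn
  exact ⟨max B 0, le_max_right _ _, fun v hv ↦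
    (hB _ (by simpa using hv)).trans (le_max_left _ _)⟩

/-- the lemma of Schwarz at the point one -/
theorem schwarz {φ : ℂ → ℂ} (hφ : Differentiable ℂ φ) {T : ℕ} {R B : ℝ} (hR : 1 < R)
    (h0 : ∀ k < T, iteratedDeriv k φ 0 = 0) (hB : ∀ t, ‖t‖ < R → ‖φ t‖ ≤ B) :
    ‖φ 1‖ ≤ B * (1 / R) ^ T := by
  cases T with
  | zero => simpa using hB 1 (by simpa using hR)
  | succ n =>
    have z : φ 0 = 0 := by simpa using h0 0 (by omega)
    obtain ⟨g, g1, g2⟩ := (natCast_le_analyticOrderAt (hφ.analyticAt 0)).1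
      ((natCast_le_analyticOrderAt_iff_iteratedDeriv_eq_zero (hφ.analyticAt 0)).2 h0)
    have a : (fun w : ℂ ↦ w * g w) =o[𝓝 0] fun _ ↦ (1 : ℝ) := by
      rw [isLittleO_one_iff]
      have := (continuousAt_id.mul g1.continuousAt).tendsto
      rwa [Pi.mul_apply, id, zero_mul] at this
    have b : (fun w : ℂ ↦ w ^ n) =O[𝓝 0] fun w ↦ ‖w - 0‖ ^ n :=
      IsBigO.of_bound 1 (Eventually.of_forall fun w ↦ by simp)
    have := Complex.dist_le_mul_div_pow_of_mapsTo_ball_of_isLittleO (f := φ) (c := 0) (z := 1)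
      (R₁ := R) (R₂ := B) (n := n) hφ.differentiableOn
      (fun t ht ↦ by simpa [z] using hB t (by simpa using ht))
      ((b.mul_isLittleO a).congr' (g2.mono fun w hw ↦ by simp [hw, z, pow_succ, mul_assoc])
        (Eventually.of_forall fun w ↦ mul_one _)) (by simpa using hR)
    simpa [z] using this

theorem est {g : E4 → ℂ} {W H : Submodule ℂ E4} {x : E4} {T : ℕ} (hg : ∀ y, AnalyticAt ℂ g y)
    (ho : ∀ h ∈ H, Ord W g (x + h) T) : ∃ C : ℝ, ∀ h ∈ H, ∀ w ∈ W, ∀ c, ‖h‖ ≤ 1 → ‖w‖ ≤ 1 →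
      ‖c‖ ≤ 1 → ‖g (x + h + w + c)‖ ≤ C * (‖w‖ ^ T + ‖c‖) := by
  obtain ⟨B, B0, hB⟩ := bdd (continuous_iff_continuousAt.2 fun y ↦ (hg y).continuousAt) x 3
  obtain ⟨B', B0', hB'⟩ :=
    bdd (continuous_iff_continuousAt.2 fun y ↦ (hg y).fderiv.continuousAt) x 3
  refine ⟨B + B', fun h hh w hw c h1 h2 h3 ↦ ?_⟩
  have e1 : ‖g (x + h + w)‖ ≤ B * ‖w‖ ^ T := by
    by_cases w0 : w = 0
    · subst w0
      cases T with
      | zero => simpa using hB h (by linarith)
      | succ n =>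
        have := ho h hh 0 hw 0 (by omega)
        simp only [smul_zero, add_zero, iteratedDeriv_zero] at this
        simp [this]
    · have p := norm_pos_iff.2 w0
      have := schwarz (φ := fun t : ℂ ↦ g (x + h + t • w)) (an_line hg (by fun_prop))
        (R := 2 / ‖w‖) (B := B) (by rw [lt_div_iff₀ p]; linarith) (ho h hh w hw) fun t ht ↦ by
          rw [add_assoc]
          refine hB _ ((norm_add_le _ _).trans ?_)
          rw [norm_smul]
          have := (lt_div_iff₀ p).1 ht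
          linarith
      rw [one_smul, one_div_div] at this
      exact this.trans (mul_le_mul_of_nonneg_left
        (pow_le_pow_left₀ (by positivity) (by linarith) T) B0)
  have e2 : ‖g (x + h + w + c) - g (x + h + w)‖ ≤ B' * ‖x + h + w + c - (x + h + w)‖ := by
    have n1 := norm_add_le h w
    have n2 := norm_add_le (h + w) c
    refine (convex_closedBall x 3).norm_image_sub_le_of_norm_fderiv_le (𝕜 := ℂ)
      (fun y _ ↦ (hg y).differentiableAt)
      (fun y hy ↦ by simpa using hB' (y - x) (mem_closedBall_iff_norm.1 hy)) ?_ ?_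
    · rw [mem_closedBall_iff_norm, add_assoc, add_sub_cancel_left]
      linarith
    · rw [mem_closedBall_iff_norm, add_assoc, add_assoc, add_sub_cancel_left, ← add_assoc]
      linarith
  rw [add_sub_cancel_left] at e2
  have e3 := norm_le_norm_add_norm_sub' (g (x + h + w + c)) (g (x + h + w))
  have e4 : 0 ≤ ‖w‖ ^ T := by positivity
  nlinarith [norm_nonneg c, mul_nonneg B0 (norm_nonneg c), mul_nonneg B0' e4]

/-- partial derivatives of an entire function of two variables are entire -/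
theorem an_iter {F : ℂ × ℂ → ℂ} (hF : ∀ p, AnalyticAt ℂ F p) (k : ℕ) (p : ℂ × ℂ) :
    AnalyticAt ℂ (fun q : ℂ × ℂ ↦ iteratedDeriv k (fun t ↦ F (q.1, t)) q.2) p := by
  induction k generalizing p with
  | zero => simpa using hF p
  | succ k ih =>
    refine (((ContinuousLinearMap.apply ℂ ℂ ((0 : ℂ), (1 : ℂ))).analyticAt _).comp
      (ih p).fderiv).congr (Eventually.of_forall fun q ↦ ?_)
    beta_reduce
    rw [iteratedDeriv_succ]
    exact (((ih q).differentiableAt.hasFDerivAt.comp_hasDerivAt q.2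
      ((hasDerivAt_const q.2 q.1).prodMk (hasDerivAt_id q.2))).deriv).symm

/-- an entire function of two variables of order `k + T` -/
theorem two {F : ℂ × ℂ → ℂ} (hF : ∀ p, AnalyticAt ℂ F p) {k T j : ℕ} {C : ℝ} (hj : j < T)
    (hC : ∀ᶠ r : ℝ in 𝓝[>] 0, ∀ s t : ℂ, ‖s‖ = r → ‖t‖ = r → ‖F (s, t)‖ ≤ C * r ^ (k + T)) :
    iteratedDeriv j (fun s ↦ iteratedDeriv k (fun t ↦ F (s, t)) 0) 0 = 0 := by
  obtain ⟨i, rfl⟩ := Nat.exists_eq_add_of_lt hj
  have d1 : Differentiable ℂ fun s ↦ iteratedDeriv k (fun t ↦ F (s, t)) 0 := fun s ↦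
    DifferentiableAt.comp (g := fun q : ℂ × ℂ ↦ iteratedDeriv k (fun t ↦ F (q.1, t)) q.2)
      (f := fun s : ℂ ↦ (s, (0 : ℂ))) s (an_iter hF k _).differentiableAt (by fun_prop)
  have d2 : ∀ s, Differentiable ℂ fun t ↦ F (s, t) := fun s t ↦
    DifferentiableAt.comp (g := F) (f := fun t : ℂ ↦ (s, t)) t (hF _).differentiableAt
      (by fun_prop)
  have t : Tendsto (fun r : ℝ ↦ (j.factorial * (k.factorial * C) : ℝ) * r ^ (i + 1)) (𝓝[>] 0)
      (𝓝 0) := by
    refine Tendsto.mono_left ?_ nhdsWithin_le_nhds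
    exact Continuous.tendsto' (by fun_prop) _ _ (by simp)
  refine norm_le_zero_iff.1 (ge_of_tendsto t ?_)
  filter_upwards [hC, self_mem_nhdsWithin] with r h1 (h2 : 0 < r)
  refine (Complex.norm_iteratedDeriv_le_of_forall_mem_sphere_norm_le j h2 d1.diffContOnCl
    fun s hs ↦ Complex.norm_iteratedDeriv_le_of_forall_mem_sphere_norm_le k h2
      (d2 s).diffContOnCl fun t ht ↦ h1 s t (by simpa using hs) (by simpa using ht)).trans_eq ?_
  field_simp
  ring

end ORD

theorem st_ORD : St_ORD where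
  mem X d Φ Ψ hd hΦ hΨ a w k := by
    have := (X.dim (2 * d) (by omega)).1
    exact ORD.der_mem (X.Th (2 * d))
      (f := fun (t : ℂ) y ↦ Φ (y + (a + t • w)) * Ψ (y - (a + t • w)))
      (fun t ↦ X.tra d Φ hΦ Ψ hΨ _) (fun y ↦ (ORD.an_line (X.an d Φ hΦ) (by fun_prop)).mul
        (ORD.an_line (X.an d Ψ hΨ) (by fun_prop))) k 0
  iff X d Φ W a y n hΦ h w hw := by
    obtain ⟨g, g1, g2⟩ := X.nz (y - a)
    have g3 : (fun y ↦ g y ^ d) ∈ X.Th d := by simpa using TS.pow_mem g1 d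
    have a1 := (ORD.an_line (p := fun t : ℂ ↦ y + (a + t • w)) (X.an d Φ hΦ)
      (by fun_prop)).analyticAt 0
    have a2 := (ORD.an_line (p := fun t : ℂ ↦ y - (a + t • w)) (X.an d _ g3)
      (by fun_prop)).analyticAt 0
    have b := (natCast_le_analyticOrderAt_iff_iteratedDeriv_eq_zero (a1.mul a2)).2 (h _ g3 w hw)
    rw [analyticOrderAt_mul a1 a2, a2.analyticOrderAt_eq_zero.2 (by simpa using fun e ↦ absurd e g2),
      add_zero, natCast_le_analyticOrderAt_iff_iteratedDeriv_eq_zero a1] at b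
    simpa only [add_assoc] using b
  ord {Φ Ψ W a w y k T} hΦ hΨ hw ho w' hw' j hj := by
    obtain ⟨C, hC⟩ := ORD.est (H := ⊥) (x := y + a) hΦ
      (fun h hh ↦ by rwa [(Submodule.mem_bot ℂ).1 hh, add_zero])
    obtain ⟨B, B0, hB⟩ :=
      ORD.bdd (continuous_iff_continuousAt.2 fun y ↦ (hΨ y).continuousAt) (y - a) 1
    refine ORD.two (F := fun p ↦ Φ (y + p.1 • w' + (a + p.2 • w)) *
      Ψ (y + p.1 • w' - (a + p.2 • w))) (k := k) (C := |C| * (‖w'‖ + ‖w‖) ^ (k + T) * B)
      (fun p ↦ ((hΦ _).comp ((analyticAt_const.add (analyticAt_fst.smul analyticAt_const)).add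
        (analyticAt_const.add (analyticAt_snd.smul analyticAt_const)))).mul
        ((hΨ _).comp ((analyticAt_const.add (analyticAt_fst.smul analyticAt_const)).sub
        (analyticAt_const.add (analyticAt_snd.smul analyticAt_const))))) hj ?_
    have : ∀ᶠ r : ℝ in 𝓝 0, r * (‖w'‖ + ‖w‖) < 1 :=
      (continuous_id.mul continuous_const).continuousAt.eventually (gt_mem_nhds (by simp))
    filter_upwards [this.filter_mono nhdsWithin_le_nhds] with r hr s t hs ht
    have n1 : ‖s • w' + t • w‖ ≤ r * (‖w'‖ + ‖w‖) :=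
      (norm_add_le _ _).trans_eq (by rw [norm_smul, norm_smul, hs, ht, mul_add])
    have n2 : ‖s • w' - t • w‖ ≤ r * (‖w'‖ + ‖w‖) :=
      (norm_sub_le _ _).trans_eq (by rw [norm_smul, norm_smul, hs, ht, mul_add])
    have b1 := hC 0 (zero_mem _) _ (W.add_mem (W.smul_mem s hw') (W.smul_mem t hw)) 0 (by simp)
      (n1.trans hr.le) (by simp)
    have b2 := hB _ (n2.trans hr.le)
    rw [add_zero, add_zero, norm_zero, add_zero] at b1
    rw [norm_mul, show y + s • w' + (a + t • w) = y + a + (s • w' + t • w) by abel,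
      show y + s • w' - (a + t • w) = y - a + (s • w' - t • w) by abel]
    refine (mul_le_mul (b1.trans (mul_le_mul (le_abs_self C)
      (pow_le_pow_left₀ (norm_nonneg _) n1 _) (by positivity) (abs_nonneg C))) b2 (norm_nonneg _)
      (mul_nonneg (abs_nonneg C) (pow_nonneg ((norm_nonneg _).trans n1) _))).trans_eq ?_
    rw [mul_pow]
    ring
  est := ORD.est

end Pool.Agent.Lib.ECM.ZL
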