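import Pool.Agent.Lib.QM.ZDefs

/-! Block STAB: the stabiliser of the analytic closure of an open piece of a zero set. -/

open Filter Topology

namespace Pool.Agent.Lib.ECM.ZL

namespace STAB

theorem ord_zero {W : Submodule ℂ E4} {g : E4 → ℂ} {y : E4} {n : ℕ} (h : Ord W g y n)
    (hn : 0 < n) : g y = 0 := by
  simpa using h 0 W.zero_mem 0 hn

theorem ord_mono {W : Submodule ℂ E4} {g : E4 → ℂ} {y : E4} {n n' : ℕ} (h : Ord W g y n)
    (e : n' ≤ n) : Ord W g y n' := fun w hw k hk ↦ h w hw k (hk.trans_le e)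

/-- a direction whose derivative keeps the functions vanishing on `U` stabilises the closure -/
theorem line {U : Set E4} {c : E4}
    (h : ∀ f : E4 → ℂ, (∀ y, AnalyticAt ℂ f y) → (∀ y ∈ U, f y = 0) → ∀ y ∈ U, fderiv ℂ f y c = 0)
    {η : E4} (hη : ∀ f : E4 → ℂ, (∀ y, AnalyticAt ℂ f y) → (∀ y ∈ U, f y = 0) → f η = 0)
    (s : ℂ) (f : E4 → ℂ) (h1 : ∀ y, AnalyticAt ℂ f y) (h2 : ∀ y ∈ U, f y = 0) :
    f (η + s • c) = 0 := by
  have hl : ∀ t, AnalyticAt ℂ (fun t : ℂ ↦ η + t • c) t := fun t ↦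
    analyticAt_const.add (analyticAt_id.smul analyticAt_const)
  have key : ∀ (k : ℕ) (f : E4 → ℂ), (∀ y, AnalyticAt ℂ f y) → (∀ y ∈ U, f y = 0) →
      iteratedDeriv k (fun t : ℂ ↦ f (η + t • c)) 0 = 0 := by
    intro k
    induction k with
    | zero => intro f a b; simpa using hη f a b
    | succ k ih =>
      intro f a b
      have e : deriv (fun t : ℂ ↦ f (η + t • c)) = fun t ↦ fderiv ℂ f (η + t • c) c := by
        funext t
        have : HasDerivAt (fun t : ℂ ↦ η + t • c) c t := by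
          simpa using ((hasDerivAt_id t).smul_const c).const_add η
        exact ((a _).differentiableAt.hasFDerivAt.comp_hasDerivAt t this).deriv
      rw [iteratedDeriv_succ', e]
      exact ih (fun y ↦ fderiv ℂ f y c)
        (fun y ↦ ((ContinuousLinearMap.apply ℂ ℂ c).analyticAt _).comp (a y).fderiv) (h f a b)
  have han : ∀ t, AnalyticAt ℂ (fun t : ℂ ↦ f (η + t • c)) t := fun t ↦
    (h1 _).comp (f := fun t : ℂ ↦ η + t • c) (hl t)
  exact AnalyticOnNhd.eqOn_zero_of_preconnected_of_eventuallyEq_zero (U := Set.univ)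
    (fun t _ ↦ han t) isPreconnected_univ (Set.mem_univ 0)
    (analyticOrderAt_eq_top.1 (ENat.eq_top_iff_forall_ge.2 fun n ↦
      (natCast_le_analyticOrderAt_iff_iteratedDeriv_eq_zero (han 0)).2 fun i _ ↦ key i f h1 h2))
    (Set.mem_univ s)

end STAB

open STAB in
theorem st_STAB (hO : St_ORD) (hC : St_CHAIN) : St_STAB := by
  intro X W L T Φ p hL hΦ h0 hp ho
  have an := X.an L Φ hΦ
  let n : ℕ → ℕ := fun k ↦ Nat.casesOn k 0 fun k ↦ k * T + 1
  let G : ℕ → Set (E4 → ℂ) := fun m ↦ {g | ∃ Ψ ∈ X.Th L, ∃ w ∈ W, ∃ j < m, g = GG Φ Ψ 0 w j}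
  have hG : ∀ m, ∀ g ∈ G m, g ∈ X.Th (2 * L) := by
    rintro m _ ⟨Ψ, a, w, -, j, -, rfl⟩
    exact hO.mem X hL hΦ a _ _ _
  have hZ : ∀ m y, (∀ g ∈ G m, g y = 0) ↔ Ord W Φ y m := fun m y ↦
    ⟨fun h ↦ by simpa using hO.iff X W 0 y m hΦ fun Ψ a w b j c ↦ h _ ⟨Ψ, a, w, b, j, c, rfl⟩, by
      rintro h _ ⟨Ψ, a, w, b, j, c, rfl⟩
      exact ord_zero (hO.ord (T := 1) an (X.an L Ψ a) b (ord_mono (by simpa using h) c)) one_pos⟩
  obtain ⟨k, -, O, o1, ⟨η0, o2, o3⟩, o4⟩ := hC X (2 * L) (fun k ↦ G (n k)) p (by omega)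
    (fun k ↦ hG _) (fun k y h ↦ (hZ _ y).2 (ord_mono ((hZ _ y).1 h) (by
      rcases k with _ | k
      · exact Nat.zero_le _
      · exact Nat.succ_le_succ (Nat.mul_le_mul_right _ (Nat.le_succ k))))) hp ((hZ _ p).2 ho)
  simp only [hZ] at o3 o4
  rcases k with _ | k
  · refine (h0 (funext fun y ↦ AnalyticOnNhd.eqOn_zero_of_preconnected_of_eventuallyEq_zero
      (U := Set.univ) (fun z _ ↦ an z) isPreconnected_univ (Set.mem_univ η0) ?_
      (Set.mem_univ y))).elim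
    filter_upwards [o1.mem_nhds o2] with z hz
    exact ord_zero (o4 z hz fun _ _ _ h ↦ absurd h (Nat.not_lt_zero _)) (Nat.succ_pos _)
  have e : n (k + 1 + 1) = n (k + 1) + T := by simp only [n]; ring
  have e0 : 0 < n (k + 1) := Nat.succ_pos _
  rw [e] at o4
  generalize n (k + 1) = n0 at o3 o4 e0
  let U : Set E4 := {y | y ∈ O ∧ Ord W Φ y n0}
  let V : Set E4 := {η | ∀ f : E4 → ℂ, (∀ y, AnalyticAt ℂ f y) → (∀ y ∈ U, f y = 0) → f η = 0}
  have hUV : U ⊆ V := fun y hy f _ b ↦ b y hy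
  have hV : ∀ η ∈ V, Ord W Φ η (n0 + T) := fun η hη ↦ (hZ _ η).1 fun g hg ↦
    hη g (X.an _ g (hG _ g hg)) fun y hy ↦ (hZ _ y).2 (o4 y hy.1 hy.2) g hg
  let H : Submodule ℂ E4 :=
    { carrier := {v | ∀ (s : ℂ), ∀ η ∈ V, η + s • v ∈ V}
      add_mem' := fun ha hb s η hη ↦ by
        rw [smul_add, ← add_assoc]
        exact hb s _ (ha s η hη)
      zero_mem' := fun s η hη ↦ by simpa using hη
      smul_mem' := fun c v hv s η hη ↦ by
        rw [smul_smul]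
        exact hv _ η hη }
  have hH : ∀ h ∈ H, ∀ η ∈ V, η + h ∈ V := fun h hh η hη ↦ by simpa using hh 1 η hη
  have hz : ∀ h ∈ H, Φ (η0 + h) = 0 := fun h hh ↦
    ord_zero (hV _ (hH h hh η0 (hUV ⟨o2, o3⟩))) (by omega)
  refine ⟨H, fun ht ↦ h0 (funext fun y ↦ ?_), ⟨η0, hz⟩, fun q ↦
    ⟨{g | ∃ η ∈ V, ∃ Ψ ∈ X.Th L, ∃ w ∈ W, ∃ j < n0, g = GG Φ Ψ (η - q) w j}, ?_, ?_, ?_⟩⟩
  · simpa using hz (y - η0) (ht ▸ Submodule.mem_top)
  · rintro _ ⟨η, -, Ψ, a, w, -, j, -, rfl⟩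
    exact hO.mem X hL hΦ a _ _ _
  · rintro _ ⟨η, hη, Ψ, a, w, b, j, c, rfl⟩ h hh
    refine hO.ord an (X.an L Ψ a) b (ord_mono (n := n0 + T) ?_ (by omega))
    rw [show q + h + (η - q) = η + h by abel]
    exact hV _ (hH h hh η hη)
  · intro h hh c hc s η hη
    refine line (U := U) (fun f f1 f2 y hy ↦ ?_) hη s
    have t1 : Tendsto (fun z ↦ y + (z - (q + h))) (𝓝 (q + h)) (𝓝 y) := by
      have : Continuous fun z ↦ y + (z - (q + h)) := by fun_prop
      simpa using this.tendsto (q + h)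
    have d1 : HasFDerivAt (fun z ↦ f (y + (z - (q + h)))) (fderiv ℂ f y) (q + h) := by
      have := HasFDerivAt.comp (g := f) (g' := fderiv ℂ f y) (q + h)
        (f := fun z ↦ y + (z - (q + h))) (by simpa using (f1 y).differentiableAt.hasFDerivAt)
        (((hasFDerivAt_id (𝕜 := ℂ) (q + h)).sub_const (q + h)).const_add y)
      rwa [ContinuousLinearMap.comp_id] at this
    refine d1.hasFDerivWithinAt.unique_on
      ((hasFDerivWithinAt_const (0 : ℂ) (q + h) _).congr_of_eventuallyEq ?_ ?_) hc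
    · filter_upwards [self_mem_nhdsWithin,
        mem_nhdsWithin_of_mem_nhds (t1.eventually (o1.mem_nhds hy.1))] with z z1 z2
      refine f2 _ ⟨z2, ?_⟩
      rw [show y + (z - (q + h)) = z + (y + -h - q) by abel]
      exact hO.iff X W _ z n0 hΦ fun Ψ a w b j c ↦
        z1 _ ⟨_, hH _ (neg_mem hh) y (hUV hy), Ψ, a, w, b, j, c, rfl⟩
    · simpa using f2 y hy

end Pool.Agent.Lib.ECM.ZL
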