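import Pool.Agent.Lib.QM.ZDefs

/-! The three possible shapes of the stabiliser. -/

open Filter Topology Module

noncomputable section

namespace Pool.Agent.Lib.ECM.ZL

namespace TRI

theorem fr_lin {X : TS} (l : C4 →ₗ[ℂ] ℂ) (c : ℂ) : (fun y ↦ l (X.u y) - c) ∈ X.Fr 1 := by
  have h := sub_mem ((X.Fr 1).sum_mem (t := Finset.univ)
    (f := fun j ↦ l (Pi.single j 1) • fun y ↦ X.u y j) fun j _ ↦
      Submodule.smul_mem _ _ (TS.fr_u j)) (TS.fr_const 1 c)
  refine TS.fr_congr h fun y _ ↦ ?_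
  rw [LinearMap.pi_apply_eq_sum_univ l (X.u y)]
  simp only [Pi.sub_apply, Finset.sum_apply, Pi.smul_apply, smul_eq_mul]
  congr 1
  refine Finset.sum_congr rfl fun j _ ↦ ?_
  rw [mul_comm]
  congr 2
  funext i
  simp [Pi.single_apply, eq_comm]

end TRI

theorem st_TRI (hB : St_BAS4) (hK : St_KEY) : St_TRI := by
  intro X W H L T hW hH hL hT hF
  obtain ⟨b, A, B, hAB, hA, hB', h1, h2, h3⟩ := hB H W
  obtain ⟨Ω, hΩ, hk⟩ := hK X (2 * L) (by omega)
  obtain ⟨q, hq⟩ := hΩ.dense.nonempty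
  obtain ⟨G, hG⟩ := hF q
  have hl := hΩ.loc q hq
  obtain ⟨r, hr⟩ := (fderiv ℂ X.u q).toLinearMap.exists_leftInverse_of_injective
    (LinearMap.ker_eq_bot.2 hl.inj)
  have hd : ∀ i v, fderiv ℂ (fun y ↦ ((b.coord i).comp r) (X.u y) - ((b.coord i).comp r) (X.u q))
      q v = b.repr v i := fun i v ↦ by
    have h4 := ((((b.coord i).comp r).toContinuousLinearMap.hasFDerivAt).comp q
      hl.an.differentiableAt.hasFDerivAt).sub_const (((b.coord i).comp r) (X.u q))
    exact (congrArg (fun f : E4 →L[ℂ] ℂ ↦ f v) h4.fderiv).trans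
      (congrArg (fun z ↦ b.repr z i) (LinearMap.congr_fun hr v))
  have key := hk W H b A B L T 1 L 1 q G
    (fun i y ↦ ((b.coord i).comp r) (X.u y) - ((b.coord i).comp r) (X.u q)) {q} hAB hA hB'
    (by omega) one_pos hL (by omega) (by omega) hG (fun i _ ↦ TRI.fr_lin _ _) (by simp) (by
      intro x hx
      rw [Finset.mem_singleton.1 hx]
      exact ⟨hq, by simp, fun i _ ↦ sub_self _, fun v hv h ↦ h3 v hv fun i hi ↦
        (hd i v).symm.trans (h i hi)⟩)
  rw [Finset.card_singleton, one_mul, one_mul, one_pow, mul_one, h1,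
    show (16 * (2 * L)) ^ 4 = 2 ^ 20 * L ^ 2 * L ^ 2 by ring] at key
  rw [h1] at h2
  have a1 : finrank ℂ H < 4 := finrank_E4 ▸ Submodule.finrank_lt hH
  have a2 : 2 ≤ finrank ℂ ↥(H ⊔ W) :=
    hW.ge.trans (Submodule.finrank_mono (le_sup_right : W ≤ H ⊔ W))
  have a3 : 0 < L ^ finrank ℂ H := by positivity
  have a4 : B.card < 2 := by
    by_contra hc
    have b1 : T ^ 2 ≤ T ^ B.card := Nat.pow_le_pow_right (by omega) (by omega)
    have b2 : T ^ B.card ≤ L ^ finrank ℂ H * T ^ B.card := Nat.le_mul_of_pos_left _ a3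
    have b3 : 2 ^ 20 * L ^ 2 * L ^ 2 < T * T := Nat.mul_lt_mul'' hT (by omega)
    rw [← sq] at b3
    omega
  rcases Nat.lt_succ_iff_lt_or_eq.1 a4 with a5 | a5
  · have b1 : H = H ⊔ W := Submodule.eq_of_le_of_finrank_eq le_sup_left (by omega)
    have b2 : W ≤ H := b1 ▸ le_sup_right
    by_cases b3 : finrank ℂ H = 3
    · exact Or.inr (Or.inr ⟨b3, b2⟩)
    · exact Or.inr (Or.inl (Submodule.eq_of_le_of_finrank_eq b2 (by omega)).symm)
  · have b1 : finrank ℂ H < 2 := by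
      by_contra hc
      have b1 : L ^ 2 ≤ L ^ finrank ℂ H := Nat.pow_le_pow_right hL (by omega)
      have b2 : 2 ^ 20 * L ^ 2 * L ^ 2 < T * L ^ finrank ℂ H :=
        Nat.mul_lt_mul_of_lt_of_le hT b1 a3
      rw [a5, pow_one, mul_comm] at key
      omega
    have b2 : W = H ⊔ W := Submodule.eq_of_le_of_finrank_eq le_sup_right (by omega)
    exact Or.inl ⟨by omega, b2 ▸ le_sup_left⟩

end Pool.Agent.Lib.ECM.ZL
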