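import Pool.Agent.Lib.QM.ZDefs
import Pool.Agent.Lib.ZP3.Dens

/-! Block UPP: polynomials of bounded degree span modulo a filtration at isolated zeros. -/

open Filter Topology MvPolynomial

noncomputable section

namespace Pool.Agent.Lib.ECM.ZL

namespace UPP

variable {σ κ : Type}

theorem exists_sep [Fintype σ] (S : Finset κ) (x : κ → σ → ℂ) (hx : Set.InjOn x S) :
    ∀ z ∈ S, ∃ e : MvPolynomial σ ℂ, eval (x z) e = 1 ∧
      ∀ z' ∈ S, z' ≠ z → eval (x z') e = 0 := by
  classical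
  intro z hz
  have h1 : ∀ z' ∈ S, z' ≠ z → ∃ p : MvPolynomial σ ℂ, eval (x z) p = 1 ∧ eval (x z') p = 0 := by
    intro z' hz' hne
    have : ∃ v, x z v ≠ x z' v := by
      by_contra hc
      push Not at hc
      exact hne (hx hz' hz (funext hc).symm)
    obtain ⟨v, hv⟩ := this
    refine ⟨C (x z v - x z' v)⁻¹ * (X v - C (x z' v)), ?_, ?_⟩
    · rw [map_mul, map_sub, eval_C, eval_C, eval_X, inv_mul_cancel₀ (sub_ne_zero.2 hv)]
    · rw [map_mul, map_sub, eval_C, eval_C, eval_X, sub_self, mul_zero]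
  choose! p hp using h1
  refine ⟨∏ z' ∈ S.erase z, p z', ?_, fun z' hz' hne ↦ ?_⟩
  · rw [map_prod]
    exact Finset.prod_eq_one fun z' hz' ↦
      (hp z' (Finset.mem_of_mem_erase hz') (Finset.ne_of_mem_erase hz')).1
  · rw [map_prod]
    exact Finset.prod_eq_zero (Finset.mem_erase.2 ⟨hne, hz'⟩) (hp z' hz' hne).2

/-- an ideal containing a monic polynomial in each variable has finite codimension -/
theorem exists_cover [Fintype σ] (P : Ideal (MvPolynomial σ ℂ))
    (hP : ∀ v, ∃ p : Polynomial ℂ, p.Monic ∧ Polynomial.aeval (X v : MvPolynomial σ ℂ) p ∈ P) :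
    ∃ c, ∀ f : MvPolynomial σ ℂ, ∃ m ∈ restrictTotalDegree σ ℂ c, f - m ∈ P := by
  have hint : Algebra.IsIntegral ℂ (MvPolynomial σ ℂ ⧸ P) := by
    constructor
    intro q
    obtain ⟨f, rfl⟩ := Ideal.Quotient.mk_surjective q
    induction f using MvPolynomial.induction_on with
    | C a => exact isIntegral_algebraMap (x := a)
    | add p q hp hq => rw [map_add]; exact hp.add hq
    | mul_X p v hp =>
      rw [map_mul]
      refine hp.mul ?_
      obtain ⟨p, hp, hp'⟩ := hP v
      refine ⟨p, hp, ?_⟩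
      rw [← Polynomial.aeval_def, ← Ideal.Quotient.mkₐ_eq_mk ℂ, Polynomial.aeval_algHom_apply,
        Ideal.Quotient.mkₐ_eq_mk, Ideal.Quotient.eq_zero_iff_mem]
      exact hp'
  have hfin : Module.Finite ℂ (MvPolynomial σ ℂ ⧸ P) := Algebra.IsIntegral.finite
  obtain ⟨T, hT⟩ := hfin.fg_top
  choose g hg using fun q : MvPolynomial σ ℂ ⧸ P ↦ Ideal.Quotient.mk_surjective (I := P) q
  refine ⟨T.sup fun q ↦ (g q).totalDegree, fun f ↦ ?_⟩
  have hle : (⊤ : Submodule ℂ (MvPolynomial σ ℂ ⧸ P)) ≤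
      (restrictTotalDegree σ ℂ (T.sup fun q ↦ (g q).totalDegree)).map
        (Ideal.Quotient.mkₐ ℂ P).toLinearMap := by
    rw [← hT, Submodule.span_le]
    intro q hq
    exact ⟨g q, (mem_restrictTotalDegree _ _ _).2
      (Finset.le_sup (f := fun q ↦ (g q).totalDegree) hq), hg q⟩
  obtain ⟨m, hm, hm'⟩ := hle (Submodule.mem_top (x := Ideal.Quotient.mk P f))
  exact ⟨m, hm, Ideal.Quotient.eq.1 hm'.symm⟩

end UPP

open UPP in
theorem st_UPP : St_UPP := by
  intro σ κ _ S x F I G w0 hx hF0 hFm hF1 hI hG hiso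
  classical
  refine ⟨exists_sep S x hx, ?_⟩
  let FS : ℕ → Submodule ℂ (MvPolynomial σ ℂ) := fun n ↦ S.inf fun z ↦ F z n
  have hFS : ∀ {n f}, f ∈ FS n ↔ ∀ z ∈ S, f ∈ F z n := fun {n f} ↦ Submodule.mem_finsetInf
  have FS_mul : ∀ {n n' f g}, f ∈ FS n → g ∈ FS n' → f * g ∈ FS (n + n') :=
    fun {n n' f g} hf hg ↦ hFS.2 fun z hz ↦ hFm z hz _ _ _ (hFS.1 hf z hz) _ (hFS.1 hg z hz)
  have FS_zero : ∀ f, f ∈ FS 0 := fun f ↦ hFS.2 fun z hz ↦ hF0 z hz f
  have FS_left : ∀ {n} (f) {g}, g ∈ FS n → f * g ∈ FS n := fun {n} f {g} hg ↦ by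
    simpa using FS_mul (FS_zero f) hg
  have h1 : ∀ z ∈ S, ∃ (s : MvPolynomial σ ℂ) (k : ℕ), eval (x z) s ≠ 0 ∧
      ∀ f ∈ (RingHom.ker (eval (x z))) ^ k, s * f ∈ Ideal.span (G ∪ I) := by
    intro z hz
    refine ZP3.isolated _ (x := x z) ?_ ?_
    · intro f hf
      have : Ideal.span (G ∪ I) ≤ RingHom.ker (eval (x z)) := by
        rw [Ideal.span_le]
        rintro g (hg | hg)
        · exact ((hG g hg).2 z hz).1
        · exact (hI z hz g hg).1
      exact this hf
    · filter_upwards [hiso z hz] with ξ hξ h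
      exact hξ (fun f hf ↦ h f (Ideal.subset_span (Or.inr hf)))
        fun g hg ↦ h g (Ideal.subset_span (Or.inl hg))
  choose! s k hs hsk using h1
  choose! e he he' using exists_sep S x hx
  obtain ⟨c, hc⟩ := exists_cover (S.inf fun z ↦ (RingHom.ker (eval (x z))) ^ k z) (by
    intro v
    refine ⟨∏ z ∈ S, (Polynomial.X - Polynomial.C (x z v)) ^ k z,
      Polynomial.monic_prod_of_monic _ _ fun z _ ↦ (Polynomial.monic_X_sub_C _).pow _, ?_⟩
    rw [Submodule.mem_finsetInf]
    intro z hz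
    rw [map_prod]
    refine Ideal.prod_mem _ hz ?_
    rw [map_pow]
    refine Ideal.pow_mem_pow ?_ _
    rw [RingHom.mem_ker]
    simp)
  set t : MvPolynomial σ ℂ := ∑ z ∈ S, C (eval (x z) (s z))⁻¹ * e z * s z with ht
  have ht1 : ∀ z ∈ S, eval (x z) (1 - t) = 0 := by
    intro z hz
    rw [map_sub, map_one, ht, map_sum, Finset.sum_eq_single z]
    · rw [map_mul, map_mul, eval_C, he z hz, mul_one, inv_mul_cancel₀ (hs z hz), sub_self]
    · intro z' hz' hne
      rw [map_mul, map_mul, he' z' hz' z hz hne.symm, mul_zero, zero_mul]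
    · intro h
      exact absurd hz h
  have ht2 : ∀ f ∈ S.inf fun z ↦ (RingHom.ker (eval (x z))) ^ k z,
      t * f ∈ Ideal.span (G ∪ I) := by
    intro f hf
    rw [ht, Finset.sum_mul]
    refine Ideal.sum_mem _ fun z hz ↦ ?_
    rw [mul_assoc]
    exact Ideal.mul_mem_left _ _ (hsk z hz f (Submodule.mem_finsetInf.1 hf z hz))
  have ht3 : ∀ K, (1 - t) ^ K ∈ FS K := by
    intro K
    induction K with
    | zero => exact FS_zero _
    | succ K ih =>
      rw [pow_succ]
      exact FS_mul ih (hFS.2 fun z hz ↦ hF1 z hz _ (ht1 z hz))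
  suffices H : ∀ n f, f ∈ restrictTotalDegree σ ℂ (c + n) ⊔ FS (n * w0) by
    refine ⟨c, fun n f ↦ ?_⟩
    obtain ⟨m, hm, φ, hφ, rfl⟩ := Submodule.mem_sup.1 (H n f)
    exact ⟨m, (mem_restrictTotalDegree _ _ _).1 hm, fun z hz ↦ by simpa using hFS.1 hφ z hz⟩
  intro n
  induction n with
  | zero => exact fun f ↦ Submodule.mem_sup_right (by simpa using FS_zero f)
  | succ n ih =>
    have hJ : ∀ y ∈ Ideal.span (G ∪ I), ∀ r : MvPolynomial σ ℂ,
        r * y ∈ restrictTotalDegree σ ℂ (c + (n + 1)) ⊔ FS ((n + 1) * w0) := by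
      intro y hy
      induction hy using Submodule.span_induction with
      | mem y hy =>
        intro r
        rcases hy with hy | hy
        · obtain ⟨m, hm, φ, hφ, rfl⟩ := Submodule.mem_sup.1 (ih r)
          rw [add_mul m]
          refine Submodule.add_mem_sup ?_ ?_
          · rw [mem_restrictTotalDegree] at hm ⊢
            have := totalDegree_mul m y
            have := (hG y hy).1
            omega
          · rw [add_mul, one_mul]
            exact FS_mul hφ (hFS.2 fun z hz ↦ ((hG y hy).2 z hz).2)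
        · exact Submodule.mem_sup_right (FS_left r (hFS.2 fun z hz ↦ (hI z hz y hy).2 _))
      | zero => intro r; simp
      | add y y' _ _ hy hy' => intro r; rw [mul_add]; exact Submodule.add_mem _ (hy r) (hy' r)
      | smul a y _ hy => intro r; rw [smul_eq_mul, ← mul_assoc]; exact hy _
    intro f
    obtain ⟨m, hm, hp⟩ := hc f
    obtain ⟨q, hq⟩ := one_sub_dvd_one_sub_pow (1 - t) ((n + 1) * w0)
    have hf : f = m + ((f - m) * (1 - t) ^ ((n + 1) * w0) + q * (t * (f - m))) := by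
      linear_combination (f - m) * hq
    rw [hf]
    refine Submodule.add_mem _ (Submodule.mem_sup_left ?_)
      (Submodule.add_mem _ (Submodule.mem_sup_right (FS_left _ (ht3 _))) (hJ _ (ht2 _ hp) q))
    rw [mem_restrictTotalDegree] at hm ⊢
    omega

end Pool.Agent.Lib.ECM.ZL
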