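import Pool.Agent.Lib.QM.ZDefs

/-! Block VAN: the calculus of weighted orders of vanishing. -/

open Filter Topology Asymptotics

noncomputable section

namespace Pool.Agent.Lib.ECM.ZL

namespace VAN

variable {Y : E4 → C4} {w : Fin 4 → ℕ} {x : E4} {N N' : ℕ} {f g : E4 → ℂ}

theorem zero (h : ContinuousAt f x) : Van Y w x 0 f :=
  ⟨‖f x‖ + 1, (h.norm.eventually_lt_const (lt_add_one _)).mono fun y hy ρ _ _ _ ↦ by
    simpa using hy.le⟩

theorem mul (h : Van Y w x N f) (h' : Van Y w x N' g) :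
    Van Y w x (N + N') fun y ↦ f y * g y := by
  obtain ⟨C, h⟩ := h
  obtain ⟨C', h'⟩ := h'
  refine ⟨C * C', (h.and h').mono fun y hy ρ h0 h1 h2 ↦ ?_⟩
  have a := hy.1 ρ h0 h1 h2
  calc ‖f y * g y‖ ≤ C * ρ ^ N * (C' * ρ ^ N') := by
        rw [norm_mul]
        exact mul_le_mul a (hy.2 ρ h0 h1 h2) (norm_nonneg _) ((norm_nonneg _).trans a)
    _ = C * C' * ρ ^ (N + N') := by ring

/-- a bound by a positive power passes to the limit -/
theorem lim {u : ℂ → ℂ} {C : ℝ} {n : ℕ} (hu : ContinuousAt u 0)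
    (h : ∀ᶠ s in 𝓝[≠] (0 : ℂ), ‖u s‖ ≤ C * ‖s‖ ^ (n + 1)) : u 0 = 0 := by
  have h1 : Tendsto (fun s : ℂ ↦ C * ‖s‖ ^ (n + 1)) (𝓝[≠] 0) (𝓝 0) := by
    have : ContinuousAt (fun s : ℂ ↦ C * ‖s‖ ^ (n + 1)) 0 := by fun_prop
    simpa using this.tendsto.mono_left nhdsWithin_le_nhds
  exact norm_le_zero_iff.1 (le_of_tendsto_of_tendsto
    (hu.norm.tendsto.mono_left nhdsWithin_le_nhds) h1 h)

theorem small : ∀ᶠ s in 𝓝[≠] (0 : ℂ), 0 < ‖s‖ ∧ ‖s‖ ≤ 1 := by
  filter_upwards [self_mem_nhdsWithin,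
    mem_nhdsWithin_of_mem_nhds (Metric.closedBall_mem_nhds (0 : ℂ) one_pos)] with s h1 h2
  exact ⟨norm_pos_iff.2 h1, by simpa using h2⟩

theorem ev (hY : Y x = 0) (hN : 0 < N) (h : Van Y w x N f) : f x = 0 := by
  obtain ⟨C, h⟩ := h
  obtain ⟨n, rfl⟩ := Nat.exists_eq_succ_of_ne_zero hN.ne'
  exact lim (u := fun _ ↦ f x) (C := C) (n := n) continuousAt_const (small.mono fun s hs ↦
    h.self_of_nhds _ hs.1 hs.2 fun i ↦ by simp [hY])

theorem big (hL : Loc Y x) (hY : Y x = 0) (hw : ∀ i, 0 < w i)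
    (h : f =O[𝓝 x] fun y ↦ ‖y - x‖ ^ N) : Van Y w x N f := by
  obtain ⟨r, h1, h2, h3, -⟩ := hL.inv
  have h4 : (fun y ↦ y - x) =O[𝓝 x] Y := by
    refine ((h1.differentiableAt.isBigO_sub).comp_tendsto hL.an.continuousAt).congr' ?_ ?_
    · filter_upwards [h3] with y hy
      simp only [Function.comp, hy, h2]
    · exact Eventually.of_forall fun y ↦ by simp [hY]
  obtain ⟨C, hC, h5⟩ := (h.trans (h4.norm_norm.pow N)).exists_pos
  refine ⟨C, h5.bound.mono fun y hy ρ h0 hρ hi ↦ hy.trans ?_⟩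
  have : ‖Y y‖ ≤ ρ := (pi_norm_le_iff_of_nonneg h0.le).2 fun i ↦
    (hi i).trans (pow_le_of_le_one h0.le hρ (hw i).ne')
  rw [norm_pow, norm_norm]
  gcongr

theorem dvd (C : ℝ) (n : ℕ) : ∀ Q : Polynomial ℂ,
    (∀ᶠ s in 𝓝[≠] (0 : ℂ), ‖Q.eval s‖ ≤ C * ‖s‖ ^ n) → Polynomial.X ^ n ∣ Q := by
  induction n with
  | zero => simp
  | succ n ih =>
    intro Q h
    have h0 : Q.eval 0 = 0 := lim (u := fun s ↦ Q.eval s) Q.continuous.continuousAt h
    obtain ⟨R, rfl⟩ := Polynomial.X_dvd_iff.2 ((Polynomial.coeff_zero_eq_eval_zero Q).trans h0)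
    rw [pow_succ']
    refine mul_dvd_mul_left _ (ih R ?_)
    filter_upwards [h, small] with s hs h1
    rw [Polynomial.eval_mul, Polynomial.eval_X, norm_mul] at hs
    exact le_of_mul_le_mul_left (hs.trans_eq (by ring)) h1.1

theorem disc {ι : Type} [Fintype ι] (α : ι → Fin 4 → ℕ) (c : ι → ℂ) (hL : Loc Y x)
    (hY : Y x = 0) (hw : ∀ i, 0 < w i) (hN : ∀ p, ∑ i, w i * α p i < N)
    (h : Van Y w x N fun y ↦ ∑ p, c p * ∏ i, Y y i ^ α p i) (a : C4) (ha : ∀ i, ‖a i‖ ≤ 1) :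
    ∑ p, c p * ∏ i, a i ^ α p i = 0 := by
  obtain ⟨C, h⟩ := h
  obtain ⟨r, h1, h2, -, h4⟩ := hL.inv
  let ξ : ℂ → C4 := fun s i ↦ s ^ w i * a i
  have t1 : Tendsto ξ (𝓝[≠] 0) (𝓝 (Y x)) := by
    have e : ξ 0 = Y x := by
      funext i
      simp [ξ, hY, (hw i).ne']
    have : ContinuousAt ξ 0 := by fun_prop
    exact e ▸ this.tendsto.mono_left nhdsWithin_le_nhds
  have t2 : Tendsto (fun s ↦ r (ξ s)) (𝓝[≠] 0) (𝓝 x) := by
    have := h1.continuousAt.tendsto.comp t1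
    rwa [h2] at this
  let Q : Polynomial ℂ := ∑ p, Polynomial.monomial (∑ i, w i * α p i) (c p * ∏ i, a i ^ α p i)
  have e : ∀ s, Q.eval s = ∑ p, c p * ∏ i, ξ s i ^ α p i := fun s ↦ by
    simp only [Q, ξ, Polynomial.eval_finsetSum, Polynomial.eval_monomial, mul_pow,
      Finset.prod_mul_distrib, ← pow_mul, Finset.prod_pow_eq_pow_sum]
    exact Finset.sum_congr rfl fun p _ ↦ by ring
  have hd : Polynomial.X ^ N ∣ Q := dvd C N Q (by
    filter_upwards [t1.eventually h4, t2.eventually h, small] with s a1 a2 a3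
    have := a2 _ a3.1 a3.2 fun i ↦ by
      rw [a1, norm_mul, norm_pow]
      exact mul_le_of_le_one_right (by positivity) (ha i)
    rwa [a1, ← e] at this)
  have h0 : Q = 0 := Polynomial.eq_zero_of_dvd_of_degree_lt hd (by
    rw [Polynomial.degree_X_pow]
    refine (Polynomial.degree_sum_le _ _).trans_lt ((Finset.sup_lt_iff (WithBot.bot_lt_coe _)).2
      fun p _ ↦ (Polynomial.degree_monomial_le _ _).trans_lt ?_)
    exact_mod_cast hN p)
  have := e 1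
  rw [h0] at this
  simpa [ξ] using this.symm

theorem ind {ι : Type} [Fintype ι] (α : ι → Fin 4 → ℕ) (c : ι → ℂ) (hα : Function.Injective α)
    (h : ∀ a : C4, (∀ i, ‖a i‖ ≤ 1) → ∑ p, c p * ∏ i, a i ^ α p i = 0) (p : ι) : c p = 0 := by
  classical
  have h0 : (∑ p, MvPolynomial.monomial (Finsupp.equivFunOnFinite.symm (α p)) (c p) :
      MvPolynomial (Fin 4) ℂ) = 0 := by
    refine MvPolynomial.funext_set (fun _ ↦ Metric.closedBall (0 : ℂ) 1)
      (fun _ ↦ infinite_of_mem_nhds 0 (Metric.closedBall_mem_nhds _ one_pos)) fun a ha ↦ ?_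
    rw [map_zero, ← h a fun i ↦ by simpa using ha i trivial, map_sum]
    refine Finset.sum_congr rfl fun p _ ↦ ?_
    rw [MvPolynomial.eval_monomial, Finsupp.prod_fintype _ _ (by simp)]
    simp
  have h1 := congrArg (MvPolynomial.coeff (Finsupp.equivFunOnFinite.symm (α p))) h0
  simpa [MvPolynomial.coeff_sum, MvPolynomial.coeff_monomial, hα.eq_iff] using h1

end VAN

theorem st_VAN : St_VAN where
  congr := fun ⟨C, h⟩ e ↦ ⟨C, (h.and e).mono fun y hy ρ a b c ↦ hy.2 ▸ hy.1 ρ a b c⟩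
  zero := VAN.zero
  null := ⟨0, Eventually.of_forall fun _ _ _ _ _ ↦ by simp⟩
  add := fun ⟨C, h⟩ ⟨C', h'⟩ ↦ ⟨C + C', (h.and h').mono fun y hy ρ a b c ↦
    (norm_add_le _ _).trans ((add_le_add (hy.1 ρ a b c) (hy.2 ρ a b c)).trans_eq (by ring))⟩
  mul := VAN.mul
  pow := fun h k ↦ by
    induction k with
    | zero => simpa using VAN.zero continuousAt_const
    | succ k ih => simpa only [pow_succ, Nat.succ_mul] using VAN.mul ih h
  ev := VAN.ev
  big := VAN.big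
  one := fun hL hY hw hf h0 ↦ VAN.big hL hY hw (by
    simpa [h0] using hf.isBigO_sub.norm_right)
  ind := fun α c hL hY hw hα hN h ↦ VAN.ind α c hα (VAN.disc α c hL hY hw hN h)

end Pool.Agent.Lib.ECM.ZL
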