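import Pool.Agent.Lib.QM.ZDefs

/-! Zero lemma on the square of an abelian surface: counting isolated zeros with
multiplicities. -/

open Filter Topology Module MvPolynomial

noncomputable section

namespace Pool.Agent.Lib.ECM.ZL

namespace ZC

theorem limit {A K d : ℕ} (h : ∀ n : ℕ, A * n ^ 4 ≤ (K + d * n) ^ 4) : A ≤ d ^ 4 := by
  have h1 : Tendsto (fun n : ℕ ↦ ((K : ℝ) / n + d) ^ 4) atTop (𝓝 ((0 + d) ^ 4)) :=
    ((tendsto_const_div_atTop_nhds_zero_nat (K : ℝ)).add_const _).pow 4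
  have h2 : (A : ℝ) ≤ (0 + d) ^ 4 := by
    refine ge_of_tendsto h1 ?_
    filter_upwards [eventually_gt_atTop 0] with n hn
    have h3 : (0 : ℝ) < n := by exact_mod_cast hn
    have h4 : (A : ℝ) * n ^ 4 ≤ (K + d * n) ^ 4 := by exact_mod_cast h n
    have h5 : ((K : ℝ) / n + d) ^ 4 = (K + d * n) ^ 4 / n ^ 4 := by
      rw [← div_pow]; congr 1; field_simp
    rw [h5, le_div_iff₀ (by positivity)]
    exact h4
  rw [zero_add] at h2
  exact_mod_cast h2

variable {Y : E4 → C4} {w : Fin 4 → ℕ} {x : E4} {N : ℕ}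

theorem cmul (hV : St_VAN) {a f : E4 → ℂ} (ha : ContinuousAt a x) (hf : Van Y w x N f) :
    Van Y w x N fun y ↦ a y * f y := by
  simpa only [zero_add] using hV.mul (hV.zero ha) hf

theorem vsum (hV : St_VAN) {ι : Type} (s : Finset ι) {f : ι → E4 → ℂ}
    (h : ∀ i ∈ s, Van Y w x N (f i)) : Van Y w x N fun y ↦ ∑ i ∈ s, f i y := by
  classical
  induction s using Finset.induction_on with
  | empty => simpa only [Finset.sum_empty] using hV.null
  | insert a s ha ih =>
    simp only [Finset.sum_insert ha]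
    exact hV.add (h a (Finset.mem_insert_self _ _))
      (ih fun i hi ↦ h i (Finset.mem_insert_of_mem hi))

/-- congruence modulo functions that vanish to order `N` -/
structure Cg (Y : E4 → C4) (w : Fin 4 → ℕ) (x : E4) (N : ℕ) (a b : E4 → ℂ) : Prop where
  l : ContinuousAt a x
  r : ContinuousAt b x
  v : Van Y w x N fun y ↦ a y - b y

theorem cg_one (hV : St_VAN) : Cg Y w x N (fun _ ↦ 1) fun _ ↦ 1 :=
  ⟨continuousAt_const, continuousAt_const, by simpa only [sub_self] using hV.null⟩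

theorem cg_mul (hV : St_VAN) {a b a' b' : E4 → ℂ} (h : Cg Y w x N a b) (h' : Cg Y w x N a' b') :
    Cg Y w x N (fun y ↦ a y * a' y) fun y ↦ b y * b' y :=
  ⟨h.l.mul h'.l, h.r.mul h'.r, hV.congr (hV.add (cmul hV h.l h'.v) (cmul hV h'.r h.v))
    (Eventually.of_forall fun y ↦ by ring)⟩

theorem cg_pow (hV : St_VAN) {a b : E4 → ℂ} (h : Cg Y w x N a b) (k : ℕ) :
    Cg Y w x N (fun y ↦ a y ^ k) fun y ↦ b y ^ k := by
  induction k with
  | zero => simpa only [pow_zero] using cg_one hV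
  | succ k ih => simpa only [pow_succ] using cg_mul hV ih h

theorem cg_prod (hV : St_VAN) {ι : Type} (s : Finset ι) {a b : ι → E4 → ℂ}
    (h : ∀ i, Cg Y w x N (a i) (b i)) :
    Cg Y w x N (fun y ↦ ∏ i ∈ s, a i y) fun y ↦ ∏ i ∈ s, b i y := by
  classical
  induction s using Finset.induction_on with
  | empty => simpa only [Finset.prod_empty] using cg_one hV
  | insert i s hi ih => simpa only [Finset.prod_insert hi] using cg_mul hV (h i) ih

/-- polynomials that vanish to order `N` along `pt` -/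
def FF (hV : St_VAN) {σ : Type} (pt : E4 → σ → ℂ) (Y : E4 → C4) (w : Fin 4 → ℕ) (x : E4)
    (N : ℕ) : Submodule ℂ (MvPolynomial σ ℂ) where
  carrier := {P | Van Y w x N fun y ↦ eval (pt y) P}
  add_mem' h h' := by simpa only [Set.mem_ofPred_eq, map_add] using hV.add h h'
  zero_mem' := by simpa only [Set.mem_ofPred_eq, map_zero] using hV.null
  smul_mem' c _ h := by
    simpa only [Set.mem_ofPred_eq, smul_eval] using cmul hV (a := fun _ ↦ c) continuousAt_const h

/-- polynomials that vanish along `pt` -/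
def II (X : TS) {σ : Type} (pt : E4 → σ → ℂ) : Ideal (MvPolynomial σ ℂ) where
  carrier := {P | ∀ y, X.o y ≠ 0 → eval (pt y) P = 0}
  add_mem' h h' y hy := by rw [map_add, h y hy, h' y hy, add_zero]
  zero_mem' _ _ := map_zero _
  smul_mem' _ _ h y hy := by rw [smul_eq_mul, map_mul, h y hy, mul_zero]

end ZC

open ZC TS

theorem st_ZC (hV : St_VAN) (hA : St_APX) (hL : St_LOC) (hU : St_UPP) : St_ZC := by
  classical
  intro X d hd
  obtain ⟨r, φ, hφ, hφu, hsp⟩ := fr_span (X := X) hd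
  obtain ⟨Ω, hΩ, hloc⟩ := hL X d r φ hφ hφu
  refine ⟨Ω, hΩ, fun S Y w e w0 G hS hsep hY hw hw0 hwe hG hiso ↦ ?_⟩
  let pt : E4 → Fin 4 ⊕ Fin r → ℂ := fun y i ↦ φ i y
  have ho : ∀ x ∈ S, X.o x ≠ 0 := fun x hx ↦ hΩ.ne x (hS x hx)
  have hev : ∀ x ∈ S, ∀ᶠ y in 𝓝 x, X.o y ≠ 0 := fun x hx ↦ isOpen_o.mem_nhds (ho x hx)
  have han : ∀ x ∈ S, ∀ P, AnalyticAt ℂ (fun y ↦ eval (pt y) P) x := fun x hx P ↦
    fr_an (fr_poly hφ le_rfl) (ho x hx)
  have f0 : ∀ z ∈ S, ∀ f, f ∈ FF hV pt (Y z) w z 0 := fun z hz f ↦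
    hV.zero (han z hz f).continuousAt
  have f1 : ∀ z ∈ S, ∀ f, eval (pt z) f = 0 → f ∈ FF hV pt (Y z) w z 1 := fun z hz f h ↦
    hV.one (hY z hz).1 (hY z hz).2 hw (han z hz f).differentiableAt h
  have fI : ∀ z ∈ S, ∀ f ∈ II X pt, ∀ n, f ∈ FF hV pt (Y z) w z n := fun z hz f hf n ↦
    hV.congr hV.null ((hev z hz).mono hf)
  obtain ⟨h1, c, hc⟩ := hU (Fin 4 ⊕ Fin r) E4 S pt (fun z ↦ FF hV pt (Y z) w z) (II X pt)
    {P | P.totalDegree ≤ 1 ∧ ∃ g ∈ G, ∀ y, X.o y ≠ 0 → eval (pt y) P = g y} w0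
    (fun x hx x' hx' h ↦ by
      by_contra hne
      obtain ⟨g, hg, h2⟩ := hsep x hx x' hx' hne
      obtain ⟨P, -, h3⟩ := hsp g (fr_mono hd hg)
      exact h2 ((h3 x (ho x hx)).symm.trans ((congrArg (eval · P) h).trans (h3 x' (ho x' hx')))))
    f0 (fun z hz n n' f hf g hg ↦ hV.congr (hV.mul hf hg) (Eventually.of_forall fun y ↦
      map_mul _ _ _)) f1 (fun z hz f hf ↦ ⟨hf z (ho z hz), fI z hz f hf⟩)
    (by
      rintro P ⟨h1, g, hg, h2⟩
      refine ⟨h1, fun z hz ↦ ?_⟩
      have h3 : P ∈ FF hV pt (Y z) w z w0 := hV.congr ((hG g hg).2 z hz) ((hev z hz).mono h2)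
      exact ⟨hV.ev (hY z hz).2 hw0 h3, h3⟩)
    (fun z hz ↦ by
      filter_upwards [hloc z (hS z hz) _ ((hev z hz).and (hiso z hz))] with ξ h hI hg
      obtain ⟨y, ⟨h2, h3⟩, rfl⟩ := h hI
      rw [h3 fun g hg' ↦ ?_]
      obtain ⟨P, h4, h5⟩ := hsp g (hG g hg').1
      exact (h5 y h2).symm.trans (hg P ⟨h4, g, hg', h5⟩))
  choose! E hE hE' using h1
  refine limit (K := 4 * ((c + 1) * d)) fun n ↦ ?_
  choose! P hP using fun (x : E4) (hx : x ∈ S) (i : Fin 4) ↦
    hA X.u x (fun y ↦ Y x y i) (4 * n * w0) (hΩ.loc x (hS x hx))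
      (analyticAt_pi_iff.1 (hY x hx).1.an i)
  let U : S × ((i : Fin 4) → Fin (n * e i)) → MvPolynomial (Fin 4 ⊕ Fin r) ℂ := fun p ↦
    E p.1 ^ (4 * n * w0) * ∏ i, rename Sum.inl (P p.1 i) ^ (p.2 i : ℕ)
  choose m hm hm' using fun p ↦ hc (4 * n) (U p)
  have hr : ∀ y Q, eval (pt y) (rename Sum.inl Q) = eval (X.u y) Q := fun y Q ↦ by
    rw [eval_rename]
    exact congrArg (eval · Q) (funext fun j ↦ hφu j y)
  have key := fr_card (X := X) (n := (c + 1 + 4 * n) * d) (by positivity)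
    (φ := fun p y ↦ eval (pt y) (m p)) (fun p ↦ fr_poly hφ ((hm p).trans (by omega))) (by
      rintro a ha ⟨⟨z, hz⟩, α₀⟩
      have h2 : ∑ p, a p • m p ∈ II X pt := fun y hy ↦ by
        simpa only [map_sum, smul_eval] using ha y hy
      have h3 : ∑ p, a p • U p ∈ FF hV pt (Y z) w z (4 * n * w0) := by
        have := add_mem (Submodule.sum_mem _ fun p (_ : p ∈ Finset.univ) ↦
          Submodule.smul_mem _ (a p) (hm' p z hz)) (fI z hz _ h2 _)
        simpa only [smul_sub, Finset.sum_sub_distrib, sub_add_cancel] using this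
      rw [Fintype.sum_prod_type, ← Finset.add_sum_erase _ _ (Finset.mem_univ ⟨z, hz⟩),
        Submodule.add_mem_iff_left _ (Submodule.sum_mem _ fun x hx ↦
          Submodule.sum_mem _ fun α _ ↦ Submodule.smul_mem _ _ ?_)] at h3
      · have h4 := (han z hz (E z)).continuousAt
        have h5 : eval (pt z) (E z) ≠ 0 := by rw [hE z hz]; exact one_ne_zero
        have h6 := cmul hV ((h4.pow (4 * n * w0)).inv₀ (pow_ne_zero _ h5)) h3
        have h7 : ∀ i, Cg (Y z) w z (4 * n * w0) (fun y ↦ Y z y i) fun y ↦ eval (X.u y) (P z i) :=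
          fun i ↦ ⟨(analyticAt_pi_iff.1 (hY z hz).1.an i).continuousAt, by
            simpa only [hr] using (han z hz (rename Sum.inl (P z i))).continuousAt,
            hV.big (hY z hz).1 (hY z hz).2 hw (hP z hz i)⟩
        have h8 := vsum hV Finset.univ fun (α : (i : Fin 4) → Fin (n * e i)) _ ↦
          cmul hV (a := fun _ ↦ a (⟨z, hz⟩, α)) continuousAt_const
            (cg_prod hV Finset.univ fun i ↦ cg_pow hV (h7 i) (α i)).v
        refine hV.ind (fun (α : (i : Fin 4) → Fin (n * e i)) i ↦ (α i : ℕ))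
          (fun α ↦ a (⟨z, hz⟩, α)) (hY z hz).1 (hY z hz).2 hw
          (fun α β h ↦ funext fun i ↦ Fin.ext (congrFun h i)) (fun α ↦ ?_)
          (hV.congr (hV.add h6 h8) ?_) α₀
        · have h9 : ∀ i, w i * α i < n * w0 := fun i ↦
            calc w i * α i < w i * (n * e i) := Nat.mul_lt_mul_of_pos_left (α i).2 (hw i)
              _ = n * (w i * e i) := by ring
              _ ≤ n * w0 := Nat.mul_le_mul_left _ (hwe i)
          rw [Fin.sum_univ_four]
          linarith [h9 0, h9 1, h9 2, h9 3]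
        · filter_upwards [h4.eventually_ne h5] with y hy
          simp only [U, map_sum, smul_eval, map_mul, map_pow, map_prod, hr, Finset.mul_sum,
            ← Finset.sum_add_distrib, Pi.inv_apply, Pi.pow_apply]
          refine Finset.sum_congr rfl fun α _ ↦ ?_
          have := pow_ne_zero (4 * n * w0) hy
          field_simp
          ring
      · have h4 := hV.pow (f1 z hz _ (hE' x x.2 z hz fun h ↦
          Finset.ne_of_mem_erase hx (Subtype.ext h.symm))) (4 * n * w0)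
        rw [mul_one] at h4
        refine hV.congr (cmul hV (han z hz
          (∏ i, rename Sum.inl (P x i) ^ (α i : ℕ))).continuousAt h4)
          (Eventually.of_forall fun y ↦ ?_)
        simp only [U]
        rw [map_mul, map_pow, mul_comm])
  simp only [Fintype.card_prod, Fintype.card_coe, Fintype.card_pi, Fintype.card_fin,
    Finset.prod_mul_distrib, Finset.prod_const, Finset.card_univ] at key
  calc _ = S.card * (n ^ 4 * ∏ i, e i) := by ring
    _ ≤ _ := key
    _ = _ := by ring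

end Pool.Agent.Lib.ECM.ZL
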