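import Pool.Agent.Lib.QM.P_ARI4
import Pool.Agent.Lib.QM.P_EXT4
import Pool.Agent.Lib.QM.P_ENG4
import Pool.Agent.Lib.QM.P_SYS4
import Pool.Agent.Lib.QM.P_MLT4
import Pool.Agent.Lib.QM.P_AUX
import Pool.Agent.Lib.QM.P_SIZ
import Pool.Agent.Lib.QM.P_KEY
import Pool.Agent.Lib.QM.P_ALG
import Pool.Agent.Lib.QM.P_PT2
import Pool.Agent.Lib.QM.Q_SL
import Pool.Agent.Lib.QM.ZBlue
import Pool.Agent.Lib.QM.Z_APX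
import Pool.Agent.Lib.QM.Z_BAS4
import Pool.Agent.Lib.QM.Z_CHAIN
import Pool.Agent.Lib.QM.Z_CS1
import Pool.Agent.Lib.QM.Z_CS2
import Pool.Agent.Lib.QM.Z_CS3
import Pool.Agent.Lib.QM.Z_DEP
import Pool.Agent.Lib.QM.Z_GEN
import Pool.Agent.Lib.QM.Z_GRAPH
import Pool.Agent.Lib.QM.Z_INST
import Pool.Agent.Lib.QM.Z_JET4
import Pool.Agent.Lib.QM.Z_KEY
import Pool.Agent.Lib.QM.Z_LINE
import Pool.Agent.Lib.QM.Z_LOC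
import Pool.Agent.Lib.QM.Z_ORD
import Pool.Agent.Lib.QM.Z_STAB
import Pool.Agent.Lib.QM.Z_TRI
import Pool.Agent.Lib.QM.Z_UPP
import Pool.Agent.Lib.QM.Z_VAN
import Pool.Agent.Lib.QM.Z_ZC

/-! The zero lemma and the period theorem for two symmetric endomorphisms, without hypotheses. -/

namespace Pool.Agent.Lib.ECM

theorem ZL.zkey : ZL.St_KEY := ZL.st_KEY ZL.st_VAN ZL.st_ORD
  (ZL.st_ZC ZL.st_VAN ZL.st_APX (ZL.st_LOC ZL.st_DEP ZL.st_GEN) ZL.st_UPP)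

theorem QM.zl4 : QM.St_ZL4 := ZL.st_ZL4 ZL.st_INST ZL.st_JET4
  (ZL.st_STAB ZL.st_ORD (ZL.st_CHAIN ZL.st_DEP)) (ZL.st_TRI ZL.st_BAS4 ZL.zkey)
  (ZL.st_LINE ZL.st_BAS4 ZL.zkey) ZL.st_CS1 (ZL.st_CS2 (ZL.st_GRAPH ZL.st_BAS4 ZL.zkey)) ZL.st_CS3

theorem QM.pt2 : QM.St_PT2 := QM.st_PT2 (QM.st_KEY QM.zl4
  (QM.st_AUX (QM.st_ENG4 QM.st_ARI4 QM.st_EXT4) QM.st_SYS4 QM.st_MLT4) QM.st_SIZ) QM.st_ALG
  QM.st_SIZ QM.st_SL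

end Pool.Agent.Lib.ECM
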