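import Pool.Agent.Lib.QM.ZDefs

/-! Local surjectivity at generic points. -/

open Filter Topology MvPolynomial

noncomputable section

namespace Pool.Agent.Lib.ECM.ZL

namespace LOC

/-- value of a polynomial in the coordinates and one more variable -/
def ev (f : Polynomial (MvPolynomial (Fin 4) ℂ)) (U : C4) (t : ℂ) : ℂ :=
  (f.map (eval U)).eval t

theorem ev_poly (f : Polynomial (MvPolynomial (Fin 4) ℂ)) :
    ∃ F : MvPolynomial (Fin 5) ℂ, ∀ U t, ev f U t = eval (Fin.cons t U) F :=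
  ⟨(finSuccEquiv ℂ 4).symm f, fun U t ↦ by
    rw [eval_eq_eval_mv_eval', AlgEquiv.apply_symm_apply, ev]⟩

theorem ev_cont (f : Polynomial (MvPolynomial (Fin 4) ℂ)) :
    Continuous fun p : C4 × ℂ ↦ ev f p.1 p.2 := by
  obtain ⟨F, h⟩ := ev_poly f
  simp only [h]
  refine (MvPolynomial.continuous_eval F).comp (continuous_pi fun i ↦ ?_)
  refine Fin.cases ?_ (fun j ↦ ?_) i
  · exact continuous_snd
  · exact (continuous_apply j).comp continuous_fst

/-- difference quotient in the last variable -/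
theorem quot (f : Polynomial (MvPolynomial (Fin 4) ℂ)) : ∃ g : C4 × ℂ × ℂ → ℂ, Continuous g ∧
    (∀ U t, g (U, t, t) = ev f.derivative U t) ∧
    ∀ U t t', ev f U t - ev f U t' = (t - t') * g (U, t, t') := by
  induction f using Polynomial.induction_on' with
  | add p q hp hq =>
    obtain ⟨g, a1, a2, a3⟩ := hp
    obtain ⟨g', b1, b2, b3⟩ := hq
    refine ⟨g + g', a1.add b1, fun U t ↦ ?_, fun U t t' ↦ ?_⟩
    · simp only [Pi.add_apply, a2, b2, ev, map_add, Polynomial.map_add, Polynomial.eval_add]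
    · have := a3 U t t'
      have := b3 U t t'
      simp only [Pi.add_apply, ev, Polynomial.map_add, Polynomial.eval_add] at *
      linear_combination this + ‹_ - _ = _ * g _›
  | monomial n a =>
    refine ⟨fun p ↦ eval p.1 a * ∑ i ∈ Finset.range n, p.2.1 ^ i * p.2.2 ^ (n - 1 - i),
      ((MvPolynomial.continuous_eval a).comp continuous_fst).mul (by fun_prop), fun U t ↦ ?_,
      fun U t t' ↦ ?_⟩
    · simp only [ev, Polynomial.derivative_monomial, Polynomial.map_monomial,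
        Polynomial.eval_monomial, geom_sum₂_self, map_mul, map_natCast, mul_assoc]
    · simp only [ev, Polynomial.map_monomial, Polynomial.eval_monomial]
      linear_combination -eval U a * geom_sum₂_mul t t' n

theorem ev_fr {X : TS} {d : ℕ} {φ : E4 → ℂ} (h : φ ∈ X.Fr d)
    (f : Polynomial (MvPolynomial (Fin 4) ℂ)) : ∃ n, (fun y ↦ ev f (X.u y) (φ y)) ∈ X.Fr n := by
  obtain ⟨F, hF⟩ := ev_poly f
  refine ⟨_, TS.fr_congr (TS.fr_poly (n := d + 1) (φ := fun i y ↦ (Fin.cons (φ y) (X.u y) :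
    Fin 5 → ℂ) i) (fun i ↦ ?_) (le_refl F.totalDegree)) fun y _ ↦ hF _ _⟩
  refine Fin.cases ?_ (fun j ↦ ?_) i
  · exact TS.fr_mono (Nat.le_succ d) h
  · exact TS.fr_mono (Nat.le_add_left 1 d) (TS.fr_u j)

/-- an equation with a simple root at some point -/
theorem simple (hD : St_DEP) {X : TS} {d : ℕ} {φ : E4 → ℂ} (h : φ ∈ X.Fr d) :
    ∃ f : Polynomial (MvPolynomial (Fin 4) ℂ), (∀ y, X.o y ≠ 0 → ev f (X.u y) (φ y) = 0) ∧
      ∃ y, X.o y ≠ 0 ∧ ev f.derivative (X.u y) (φ y) ≠ 0 := by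
  classical
  have h1 : ∃ n, ∃ f : Polynomial (MvPolynomial (Fin 4) ℂ), f ≠ 0 ∧ f.natDegree = n ∧
      ∀ y, X.o y ≠ 0 → ev f (X.u y) (φ y) = 0 := by
    obtain ⟨F, F0, hF⟩ := hD X (d + 1) (fun i y ↦ (Fin.cons (φ y) (X.u y) : Fin 5 → ℂ) i)
      fun i ↦ by
        refine Fin.cases ?_ (fun j ↦ ?_) i
        · exact TS.fr_mono (Nat.le_succ d) h
        · exact TS.fr_mono (Nat.le_add_left 1 d) (TS.fr_u j)
    exact ⟨_, finSuccEquiv ℂ 4 F, by simpa using F0, rfl, fun y hy ↦ by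
      rw [ev, ← eval_eq_eval_mv_eval']
      exact hF y hy⟩
  obtain ⟨f, f0, fn, hf⟩ := Nat.find_spec h1
  refine ⟨f, hf, by_contra fun hc ↦ ?_⟩
  push Not at hc
  by_cases h0 : f.natDegree = 0
  · obtain ⟨a, rfl⟩ := Polynomial.natDegree_eq_zero.1 h0
    obtain ⟨y, a1, a2⟩ := TS.u_ind (X := X) (P := a) fun e ↦ f0 (by rw [e, map_zero])
    exact a2 (by simpa [ev] using hf y a1)
  · exact Nat.find_min h1 (fn ▸ Polynomial.natDegree_derivative_lt h0)
      ⟨_, fun e ↦ h0 (Polynomial.derivative_eq_zero.1 e), rfl, hc⟩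

end LOC

open LOC in
theorem st_LOC (hD : St_DEP) (hG : St_GEN) : St_LOC := by
  intro X d r φ hφ hu
  obtain ⟨Ω, hΩ⟩ := hG X
  choose f hf y0 hy0 hy1 using fun i ↦ simple hD (hφ i)
  choose n hn using fun i ↦ ev_fr (hφ i) (f i).derivative
  refine ⟨Ω ∩ ⋂ i, {y | X.o y ≠ 0 ∧ ev (f i).derivative (X.u y) (φ i y) ≠ 0},
    ⟨hΩ.isOpen.inter (isOpen_iInter_of_finite fun i ↦ TS.fr_open (hn i)),
      hΩ.dense.inter_of_isOpen_left (dense_iInter_of_isOpen (fun i ↦ TS.fr_open (hn i))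
        fun i ↦ TS.fr_dense (hn i) (hy0 i) (hy1 i)) hΩ.isOpen,
      fun y hy ↦ hΩ.ne y hy.1, fun y hy ↦ hΩ.loc y hy.1⟩, ?_⟩
  rintro x ⟨hx, hx'⟩ N hN
  obtain ⟨ρ, a1, a2, -, a4⟩ := (hΩ.loc x hx).inv
  have ho := hΩ.ne x hx
  have t1 : Tendsto (fun ξ : Fin 4 ⊕ Fin r → ℂ ↦ fun j ↦ ξ (Sum.inl j)) (𝓝 fun i ↦ φ i x)
      (𝓝 (X.u x)) := Continuous.tendsto' (by fun_prop) _ _ (funext fun j ↦ hu j x)
  have t0 := a1.continuousAt.tendsto
  rw [a2] at t0
  have t2 := t0.comp t1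
  have t3 : ∀ i, ∀ᶠ ξ in 𝓝 fun i ↦ φ i x, ev (f i) (fun j ↦ ξ (Sum.inl j)) (ξ i) =
      ev (f i) (fun j ↦ ξ (Sum.inl j)) (φ i (ρ fun j ↦ ξ (Sum.inl j))) →
      ξ i = φ i (ρ fun j ↦ ξ (Sum.inl j)) := fun i ↦ by
    obtain ⟨g, b1, b2, b3⟩ := quot (f i)
    have t4 := (b1.tendsto (X.u x, φ i x, φ i x)).comp (t1.prodMk_nhds
      (((continuous_apply i).tendsto fun i ↦ φ i x).prodMk_nhds
        ((TS.fr_an (hφ i) ho).continuousAt.tendsto.comp t2)))
    rw [b2] at t4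
    filter_upwards [t4.eventually_ne (Set.mem_iInter.1 hx' i).2] with ξ c1 c2
    rw [← sub_eq_zero, b3, mul_eq_zero] at c2
    exact sub_eq_zero.1 (c2.resolve_right c1)
  filter_upwards [eventually_all.2 t3, t1.eventually a4, t2.eventually hN,
    t2.eventually (TS.isOpen_o.mem_nhds ho)] with ξ c1 c2 c3 c4 c5
  refine ⟨_, c3, funext fun i ↦ c1 i ?_⟩
  obtain ⟨F, hF⟩ := ev_poly (f i)
  have e : ∀ ζ : Fin 4 ⊕ Fin r → ℂ, eval ζ (rename (Fin.cons i Sum.inl : Fin 5 → _) F) =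
      ev (f i) (fun j ↦ ζ (Sum.inl j)) (ζ i) := fun ζ ↦ by
    rw [eval_rename, hF]
    congr 2
    funext k
    exact Fin.cases rfl (fun _ ↦ rfl) k
  have c6 := hf i _ c4
  rw [← e, c5 _ fun y hy ↦ by rw [e]; simpa only [hu] using hf i y hy]
  rw [Function.comp_apply, c2] at c6
  exact c6.symm

end Pool.Agent.Lib.ECM.ZL
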