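import Pool.Agent.Lib.QM.Z_APX
import Pool.Agent.Lib.QM.Z_BAS4
import Pool.Agent.Lib.QM.Z_CHAIN
import Pool.Agent.Lib.QM.Z_DEP
import Pool.Agent.Lib.QM.Z_GEN
import Pool.Agent.Lib.QM.Z_GRAPH
import Pool.Agent.Lib.QM.Z_KEY
import Pool.Agent.Lib.QM.Z_LINE
import Pool.Agent.Lib.QM.Z_LOC
import Pool.Agent.Lib.QM.Z_ORD
import Pool.Agent.Lib.QM.Z_STAB
import Pool.Agent.Lib.QM.Z_TRI
import Pool.Agent.Lib.QM.Z_UPP
import Pool.Agent.Lib.QM.Z_VAN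
import Pool.Agent.Lib.QM.Z_ZC
import Pool.Agent.Lib.QM.Z_INST
import Pool.Agent.Lib.QM.Z_CS1
import Pool.Agent.Lib.QM.Z_CS2
import Pool.Agent.Lib.QM.Z_CS3
import Pool.Agent.Lib.QM.Z_JET4

/-! The zero lemma on the square of an abelian surface, without hypotheses. -/

namespace Pool.Agent.Lib.ECM.ZL

theorem z_KEY : St_KEY := st_KEY st_VAN st_ORD (st_ZC st_VAN st_APX (st_LOC st_DEP st_GEN) st_UPP)

theorem z_ZL4 : QM.St_ZL4 :=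
  st_ZL4 st_INST st_JET4 (st_STAB st_ORD (st_CHAIN st_DEP)) (st_TRI st_BAS4 z_KEY)
    (st_LINE st_BAS4 z_KEY) st_CS1 (st_CS2 (st_GRAPH st_BAS4 z_KEY)) st_CS3

end Pool.Agent.Lib.ECM.ZL
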