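import Pool.Agent.Lib.QM.Q_CJ2
import Pool.Agent.Lib.QM.QBlue
import Pool.Agent.Lib.ECM.M_PACK
import Pool.Agent.Lib.ECM.M_CONJ

/-! Blocks CJM and FIX: conjugates of symmetric endomorphisms. -/

open Complex

noncomputable section

namespace Pool.Agent.Lib.ECM.QM

open CJ MEND
open Pool.Agent.Lib.ZP3 (Deg)

namespace XCJ

variable {τ τ' : T3} {x : Ch → ℂ} {M M' : V2 →ₗ[ℂ] V2} {D : ℕ} {a b : M2}

theorem sz_of (h : Sy τ M D) : Sz τ M D := ⟨h.lat, (trc_eq M).symm.trans h.tr, h.sq, h.hn⟩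

theorem Sz.sy (h : Sz τ M D) (hD : 0 < D) : Sy τ M D :=
  ⟨hD, h.lat, (trc_eq M).trans h.tr, h.sq, h.hn⟩

theorem hk_of {σ : ℂ ≃+* ℂ} (hx : Over x τ) (hx' : Over (fun m ↦ σ (x m)) τ') (m : Ch) :
    kk m τ' / kk 0 τ' = (σ : ℂ →+* ℂ) (kk m τ / kk 0 τ) := by
  rw [← hx.2.2, ← hx'.2.2]; rfl

theorem rf_of (hR : St_RAT) (hτ : τ ∈ H2) (h : Sy τ M D) : ∃ P, Rf τ M (4 * D) P :=
  let ⟨q, P, a, b⟩ := hR τ hτ M D h
  ⟨P, a, q, b⟩

theorem Cm.ent {σ : ℂ ≃+* ℂ} (h : Cm σ τ M τ' M') (ha : Ent τ M a) : Ent τ' M' (a.map σ) := by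
  intro v'
  obtain ⟨v, c, d⟩ := h.left v'
  have e := ha v
  have c1 : ∀ k, lv τ' v' k = σ (lv τ v k) := c.hl
  have d1 : ∀ k, lv τ' (M' v') k = σ (lv τ (M v) k) := d.hl
  have e0 := congrFun e 0
  have e1 := congrFun e 1
  simp only [Matrix.mulVec, dotProduct, Fin.sum_univ_two, Matrix.cons_val_zero,
    Matrix.cons_val_one] at e0 e1
  funext i
  fin_cases i <;> simp [Matrix.mulVec, dotProduct, Fin.sum_univ_two, c1, d1, e0, e1]

/-- the matrix is unique -/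
theorem ent_uniq (hτ : τ ∈ H2) (hg : Gen τ) (ha : Ent τ M a) (hb : Ent τ M b) : a = b := by
  have k0 := gen_k0 hg
  refine Matrix.toLin'.injective (LinearMap.ext fun w ↦ ?_)
  rw [Matrix.toLin'_apply, Matrix.toLin'_apply]
  obtain ⟨v, hv⟩ := (th_GAUGE.ind τ hτ hg).2 (kk 0 τ * w 0, kk 0 τ * w 1)
  obtain ⟨p, q⟩ := Prod.mk.inj hv
  have e : ![lv τ v hA, lv τ v hB] = w := by
    funext i
    fin_cases i <;> simp [lv, p, q, k0]
  rw [← e, ← ha, ← hb]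

theorem ent_neg (ha : Ent τ M a) : Ent τ (-M) (-a) := fun v ↦ by
  have e : ∀ k, lv τ ((-M) v) k = -lv τ (M v) k := fun k ↦ by
    rw [LinearMap.neg_apply, ← neg_one_smul ℂ, lv, ll_smul, lv, neg_one_mul, neg_div]
  rw [Matrix.neg_mulVec, ← ha, e, e]
  funext i
  fin_cases i <;> simp

theorem Cm.ind {σ : ℂ ≃+* ℂ} {N N' : V2 →ₗ[ℂ] V2} (hg : Gen τ) (h : Cm σ τ M τ' M')
    (h' : Cm σ τ N τ' N') (hi : ∀ a b : ℂ, a • M + b • N = 0 → a = 0 ∧ b = 0) (a b : ℂ)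
    (e : a • M' + b • N' = 0) : a = 0 ∧ b = 0 := by
  obtain ⟨a, rfl⟩ : ∃ d, (σ : ℂ →+* ℂ) d = a := σ.surjective a
  obtain ⟨b, rfl⟩ : ∃ d, (σ : ℂ →+* ℂ) d = b := σ.surjective b
  obtain ⟨rfl, rfl⟩ := hi a b (LinearMap.ext fun u ↦ by
    obtain ⟨u', c⟩ := h.1 u
    have c1 := cd_add (cd_smul (h.2.2 _ _ c) a) (cd_smul (h'.2.2 _ _ c) b)
    have c2 := cd_smul c 0
    rw [map_zero, zero_smul, zero_smul] at c2
    have c3 : (σ : ℂ →+* ℂ) a • M' u' + (σ : ℂ →+* ℂ) b • N' u' = 0 := LinearMap.congr_fun e u'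
    rw [c3] at c1
    exact cd_left hg c1 c2)
  simp

theorem deg_pm {ι : Type} {x : ι → ℂ} {d : ℕ} (hx : DegT x d) {z : ℂ}
    (h : ∀ ρ : ℂ ≃+* ℂ, (∀ m, ρ (x m) = x m) → ρ I = I → ρ z = z ∨ ρ z = -z) :
    IsAlgebraic ℚ z ∧ Deg z (4 * d) := by
  classical
  obtain ⟨E, hE, hx⟩ := hx
  let k : (ℂ ≃+* ℂ) → (ι → ℂ) × ℂ := fun σ ↦ (fun m ↦ σ (x m), σ I)
  have : Nonempty (ℂ ≃+* ℂ) := ⟨RingEquiv.refl ℂ⟩
  refine MPACK.deg_of st_AUT (E := ((E ×ˢ {I, -I}) ×ˢ ({1, -1} : Finset ℂ)).image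
    fun p ↦ p.2 * Function.invFun k p.1 z) (Finset.card_image_le.trans ?_) fun σ ↦ ?_
  · rw [Finset.card_product, Finset.card_product]
    have a := Finset.card_le_two (a := I) (b := -I)
    have b := Finset.card_le_two (a := (1 : ℂ)) (b := -1)
    calc _ ≤ d * 2 * 2 := by gcongr
      _ = _ := by ring
  · have e : k (Function.invFun k (k σ)) = k σ := Function.invFun_eq ⟨σ, rfl⟩
    set s := Function.invFun k (k σ) with es
    have i : σ I ∈ ({I, -I} : Finset ℂ) := by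
      have : σ I ^ 2 = I ^ 2 := by rw [← map_pow, I_sq, map_neg, map_one]
      simpa using sq_eq_sq_iff_eq_or_eq_neg.1 this
    have m : k σ ∈ E ×ˢ ({I, -I} : Finset ℂ) := Finset.mem_product.2 ⟨hx σ, i⟩
    rcases h (σ.trans s.symm) (fun m ↦ s.symm_apply_eq.2 (congrFun (congrArg Prod.fst e) m).symm)
      (s.symm_apply_eq.2 (congrArg Prod.snd e).symm) with f | f
    · exact Finset.mem_image.2 ⟨(k σ, 1), Finset.mem_product.2 ⟨m, by simp⟩, by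
        rw [one_mul]; exact (s.symm_apply_eq.1 f).symm⟩
    · exact Finset.mem_image.2 ⟨(k σ, -1), Finset.mem_product.2 ⟨m, by simp⟩, by
        rw [neg_one_mul, ← map_neg]; exact (s.symm_apply_eq.1 f).symm⟩

end XCJ

open XCJ

theorem st_CJM (hR : St_RAT) : St_CJM := by
  intro σ x τ τ' M D a hx hg hx' h ha
  obtain ⟨M', hc⟩ := exists_cm σ hx.1 hx'.1 hg (hk_of hx hx') M
  obtain ⟨P, hP⟩ := rf_of hR hx.1 h
  exact ⟨M', ((sz_of h).conj hg h.pos hP hc).sy h.pos, hc.ent ha⟩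

theorem st_FIX (hR : St_RAT) : St_FIX := by
  intro σ x τ M D a hx hg hσ hI h hm ha
  have hx' : Over (fun m ↦ σ (x m)) τ := by rwa [funext hσ]
  obtain ⟨M', hc⟩ := exists_cm σ hx.1 hx.1 hg (hk_of hx hx') M
  obtain ⟨P, hP⟩ := rf_of hR hx.1 h
  have hb := hc.ent ha
  rcases descent hx.1 (sz_of h) ((sz_of h).conj hg h.pos hP hc)
    (mod_two hx.1 hx.2.1 hI (hk_of hx hx') h.lat hP (cross hP hc.left)) with
    rfl | rfl | ⟨N, N', E, E', s, s', p, p', e, hi⟩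
  · exact Or.inl (ent_uniq hx.1 hg hb ha)
  · exact Or.inr (ent_uniq hx.1 hg hb (ent_neg ha))
  · have := hm (D - 1) ⟨N, N', E, E', s.sy p, s'.sy p', by omega, by omega, fun c hc ↦ by
      simpa using (hi c (-1) (by rw [hc]; module)).2⟩
    omega

end Pool.Agent.Lib.ECM.QM
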