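import Pool.Agent.Lib.QM.Q_KIT
import Pool.Agent.Lib.QM.Q_CJM
import Pool.Agent.Lib.ECM.M_ALG
import Pool.Agent.Lib.ECM.M_PTG

/-! Block ALGM: the matrices of symmetric endomorphisms are algebraic of bounded degree. -/

noncomputable section

namespace Pool.Agent.Lib.ECM.QM

open Pool.Agent.Lib.ZP3 (Deg)
open KIT (ent_ex lv_inj)
open XCJ (ent_uniq)

namespace ALGM

theorem ent_inj {x : Ch → ℂ} {τ : T3} (ho : Over x τ) (hg : Gen τ) {M N : V2 →ₗ[ℂ] V2}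
    {a : M2} (ha : Ent τ M a) (hb : Ent τ N a) : M = N := LinearMap.ext fun v ↦
  lv_inj ho hg (congrFun ((ha v).trans (hb v).symm) 0) (congrFun ((ha v).trans (hb v).symm) 1)

theorem ent_smul {τ : T3} {M : V2 →ₗ[ℂ] V2} {a : M2} (ha : Ent τ M a) (c : ℂ) :
    Ent τ (c • M) (c • a) := fun v ↦ by
  rw [Matrix.smul_mulVec, ← ha v]
  funext i
  fin_cases i <;> simp [MPACK.lv_smul]

theorem two_conj (hC : St_CJM) (σ : ℂ ≃+* ℂ) {x : Ch → ℂ} {τ τ' : T3} {N : ℕ} (ho : Over x τ)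
    (hg : Gen τ) (ho' : Over (fun m ↦ σ (x m)) τ') (hg' : Gen τ') (h : Two τ N) : Two τ' N := by
  obtain ⟨M₁, M₂, D₁, D₂, s₁, s₂, l₁, l₂, hi⟩ := h
  obtain ⟨a₁, e₁⟩ := ent_ex ho hg M₁
  obtain ⟨a₂, e₂⟩ := ent_ex ho hg M₂
  obtain ⟨K₁, t₁, f₁⟩ := hC σ x τ τ' M₁ D₁ a₁ ho hg ho' s₁ e₁
  obtain ⟨K₂, t₂, f₂⟩ := hC σ x τ τ' M₂ D₂ a₂ ho hg ho' s₂ e₂
  refine ⟨K₁, K₂, D₁, D₂, t₁, t₂, l₁, l₂, fun c hc ↦ hi (σ.symm c) ?_⟩
  have u := ent_uniq ho'.1 hg' (hc ▸ f₂) (ent_smul f₁ c)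
  have w : a₂ = σ.symm c • a₁ := by
    ext i j
    apply σ.injective
    simpa using congrFun (congrFun u i) j
  exact ent_inj ho hg (w ▸ e₂) (ent_smul e₁ _)

/-- only countably many matrices occur over a given point -/
theorem cnt (hC : St_CJM) (hS : St_SL) (y : Ch → ℂ) :
    {a : M2 | ∃ τ M D, Over y τ ∧ Gen τ ∧ Sy τ M D ∧ Ent τ M a}.Countable := by
  by_cases h : ∃ τ, Over y τ ∧ Gen τ
  swap
  · convert Set.countable_empty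
    exact Set.eq_empty_of_forall_notMem fun a ⟨τ, _, _, b, c, _⟩ ↦ h ⟨τ, b, c⟩
  obtain ⟨τ', o', g'⟩ := h
  choose f hf using ent_ex o' g'
  refine ((hS.cnt τ' o'.1).image f).mono ?_
  rintro a ⟨τ, M, D, o, g, s, e⟩
  obtain ⟨K, t, k⟩ := hC (RingEquiv.refl ℂ) y τ τ' M D a o g o' s e
  exact ⟨K, ⟨D, t⟩, ent_uniq o'.1 g' (hf K) k⟩

theorem fin_orb {x : Ch → ℂ} (hx : AlgT x) :
    {y : Ch → ℂ | ∃ σ : ℂ ≃+* ℂ, y = fun m ↦ σ (x m)}.Finite := by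
  refine (MALG.fin_conj x).subset ?_
  rintro y ⟨σ, rfl⟩
  refine ⟨fun m ↦ (hx m).algHom (σ : ℂ →+* ℂ).toRatAlgHom, σ.symm, funext fun m ↦ ?_⟩
  simp

theorem sig_I (σ : ℂ ≃+* ℂ) : σ Complex.I ∈ ({Complex.I, -Complex.I} : Finset ℂ) := by
  have h : σ Complex.I ^ 2 = Complex.I ^ 2 := by rw [← map_pow, Complex.I_sq]; simp
  simpa using sq_eq_sq_iff_eq_or_eq_neg.1 h

end ALGM

open ALGM in
theorem st_ALGM (hC : St_CJM) (hF : St_FIX) (hS : St_SL) : St_ALGM where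
  alg := by
    intro x τ M D a hx ho s e i j
    have g := MPTG.gen_of_good hx ho
    refine st_AUT.alg _ (((fin_orb hx.1).countable.biUnion fun y _ ↦
      (cnt hC hS y).image fun b ↦ b i j).mono ?_)
    rintro _ ⟨σ, rfl⟩
    obtain ⟨τ', o', g'⟩ := hx.2 σ
    obtain ⟨K, t, k⟩ := hC σ x τ τ' M D a ho g o' s e
    exact Set.mem_biUnion (show (fun m ↦ σ (x m)) ∈ _ from ⟨σ, rfl⟩)
      ⟨_, ⟨τ', K, D, o', g', t, k⟩, rfl⟩
  deg := by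
    classical
    rintro x τ M D a d hx ho s hm e ⟨E, hE, hd⟩ i j
    have g := MPTG.gen_of_good hx ho
    have key : ∀ k : (Ch → ℂ) × ℂ, ∃ G : Finset ℂ, G.card ≤ 2 ∧ ∀ σ : ℂ ≃+* ℂ,
        (fun m ↦ σ (x m)) = k.1 → σ Complex.I = k.2 → σ (a i j) ∈ G := by
      intro k
      by_cases h : ∃ ρ : ℂ ≃+* ℂ, (fun m ↦ ρ (x m)) = k.1 ∧ ρ Complex.I = k.2
      swap
      · exact ⟨∅, by simp, fun σ b c ↦ absurd ⟨σ, b, c⟩ h⟩
      obtain ⟨ρ, r1, r2⟩ := h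
      refine ⟨{ρ (a i j), -ρ (a i j)}, Finset.card_le_two, fun σ b c ↦ ?_⟩
      have u := hF (σ.trans ρ.symm) x τ M D a ho g
        (fun m ↦ by
          rw [RingEquiv.trans_apply, RingEquiv.symm_apply_eq]
          exact congrFun (b.trans r1.symm) m)
        (by rw [RingEquiv.trans_apply, RingEquiv.symm_apply_eq, c, r2]) s hm e
      rw [Finset.mem_insert, Finset.mem_singleton, ← map_neg, ← RingEquiv.symm_apply_eq,
        ← RingEquiv.symm_apply_eq]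
      exact u.imp (fun h ↦ congrFun (congrFun h i) j) fun h ↦ congrFun (congrFun h i) j
    choose G G2 hG using key
    refine (MPACK.deg_of st_AUT (E := (E ×ˢ ({Complex.I, -Complex.I} : Finset ℂ)).biUnion G)
      ((Finset.card_biUnion_le_card_mul _ _ 2 fun k _ ↦ G2 k).trans ?_) fun σ ↦ ?_).2
    · have : ({Complex.I, -Complex.I} : Finset ℂ).card ≤ 2 := Finset.card_le_two
      rw [Finset.card_product]
      exact (Nat.mul_le_mul_right 2 (Nat.mul_le_mul hE this)).trans (by omega)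
    · exact Finset.mem_biUnion.2 ⟨(fun m ↦ σ (x m), σ Complex.I),
        Finset.mem_product.2 ⟨hd σ, sig_I σ⟩, hG _ σ rfl rfl⟩
  two := by
    intro σ x τ τ' N hx ho ho'
    have g := MPTG.gen_of_good hx ho
    obtain ⟨τ₁, o₁, g₁⟩ := hx.2 σ
    have g' := MPACK.gen_of ho' o₁ g₁
    obtain ⟨ρ, hρ⟩ := st_AUT.ext σ
    have e : (fun m ↦ σ (x m)) = fun m ↦ ρ (x m) := funext fun m ↦ (hρ _ (hx.1 m)).symm
    rw [e] at ho'
    exact ⟨two_conj hC ρ ho g ho' g', two_conj hC ρ.symm ho' g' (by simpa using ho) g⟩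
  good := by
    intro P hM hG hH
    have hF := hM.union hG
    set F0 := {x ∈ Cv P | ¬ ∃ τ, Over x τ} ∪ {x ∈ Cv P | ∃ m, Ev m ∧ x m = 0} with hF0
    have key : ∀ y ∈ Cv P, y ∉ F0 → ∃ τ, Over y τ ∧ Gen τ := by
      intro y hy h
      obtain ⟨τ, hτ⟩ : ∃ τ, Over y τ := by_contra fun h1 ↦ h (Or.inl ⟨hy, h1⟩)
      exact ⟨τ, hτ, MALG.gen_of hτ fun m hm h0 ↦ h (Or.inr ⟨hy, m, hm, h0⟩)⟩
    refine (hF.union (hF.biUnion fun y _ ↦ MALG.fin_conj y)).subset ?_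
    rintro x ⟨hx, ⟨τ, N, hτ, M, -, D, -, s, -⟩, hg⟩
    by_cases h0 : x ∈ F0
    · exact Or.inl h0
    right
    have hgen : Gen τ := MALG.gen_of hτ fun m hm h ↦ h0 (Or.inr ⟨hx, m, hm, h⟩)
    obtain ⟨a, e⟩ := ent_ex hτ hgen M
    have ha : AlgT x := by
      intro m
      refine st_AUT.alg _ (((hF.countable.union
        (hH.image fun t m ↦ kk m t / kk 0 t)).image fun y ↦ y m).mono ?_)
      rintro _ ⟨σ, rfl⟩
      refine ⟨fun m ↦ σ (x m), ?_, rfl⟩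
      have hy : (fun m ↦ σ (x m)) ∈ Cv P := MALG.cv_conj hx (σ : ℂ →+* ℂ)
      by_cases h1 : (fun m ↦ σ (x m)) ∈ F0
      · exact Or.inl h1
      · obtain ⟨τ', h2, -⟩ := key _ hy h1
        obtain ⟨K, t, -⟩ := hC σ x τ τ' M D a hτ hgen h2 s e
        exact Or.inr ⟨τ', ⟨⟨_, hy, h2⟩, hS.sing τ' h2.1 K D t⟩,
          funext fun k ↦ (h2.2.2 k).symm⟩
    obtain ⟨σ, hσ⟩ : ∃ σ : ℂ →+* ℂ, (fun m ↦ σ (x m)) ∈ F0 := by_contra fun hn ↦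
      hg ⟨ha, fun σ ↦ key _ (MALG.cv_conj hx σ) fun h ↦ hn ⟨σ, h⟩⟩
    exact Set.mem_biUnion hσ ⟨ha, σ, rfl⟩

end Pool.Agent.Lib.ECM.QM
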