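import Pool.Agent.Lib.QM.QBlue
import Pool.Agent.Lib.RC.Aut89

/-! A cone without triple roots: conjugates and bounds at all places. -/

open MvPolynomial

noncomputable section

namespace Pool.Agent.Lib.ECM.QM

/-- the common zeros of the rational polynomials in `P` -/
def Z0 (P : Ideal (MvPolynomial (Fin 4) Qb)) : Set (Fin 4 → ℂ) :=
  {e | ∀ f : MvPolynomial (Fin 4) ℚ, MvPolynomial.map (algebraMap ℚ Qb) f ∈ P → aeval e f = 0}

namespace CERT

/-- points extend along integral maps -/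
theorem extend {R A : Type} [CommRing R] [CommRing A] [Algebra R A] [Algebra.IsIntegral R A]
    (I : Ideal A) (φ : R →+* ℂ) (h : ∀ r, algebraMap R A r ∈ I → φ r = 0) :
    ∃ ψ : A →+* ℂ, (∀ r, ψ (algebraMap R A r) = φ r) ∧ ∀ s ∈ I, ψ s = 0 := by
  have := RingHom.ker_isPrime φ
  obtain ⟨Q, h1, h2, h3⟩ := Ideal.exists_ideal_over_prime_of_isIntegral (RingHom.ker φ) I h
  have h4 : ∀ r ∈ Q.comap (algebraMap R A), φ r = 0 := fun r hr ↦ by rwa [h3] at hr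
  let φ' := Ideal.Quotient.lift (Q.comap (algebraMap R A)) φ h4
  let : Algebra (R ⧸ Q.comap (algebraMap R A)) ℂ := φ'.toAlgebra
  have : Module.IsTorsionFree (R ⧸ Q.comap (algebraMap R A)) ℂ :=
    Module.isTorsionFree_iff_algebraMap_injective.2
      (RingHom.lift_injective_of_ker_le_ideal _ h4 h3.ge)
  have : Module.IsTorsionFree (R ⧸ Q.comap (algebraMap R A)) (A ⧸ Q) :=
    Module.isTorsionFree_iff_algebraMap_injective.2 Ideal.algebraMap_quotient_injective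
  let l : (A ⧸ Q) →ₐ[R ⧸ Q.comap (algebraMap R A)] ℂ := IsAlgClosed.lift
  refine ⟨l.toRingHom.comp (Ideal.Quotient.mk Q), fun r ↦ l.commutes (Ideal.Quotient.mk _ r),
    fun s hs ↦ ?_⟩
  rw [RingHom.comp_apply, Ideal.Quotient.eq_zero_iff_mem.2 (h1 hs), map_zero]

theorem rt_map (σ : ℂ ≃+* ℂ) (e : Fin 4 → ℂ) (i : Fin 5) :
    rt (fun a ↦ σ (e a)) i = σ (rt e i) := by
  fin_cases i <;> simp [rt]

theorem rt_smul (t : ℂ) (e : Fin 4 → ℂ) (i : Fin 5) : rt (t • e) i = t * rt e i := by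
  fin_cases i <;> simp [rt]

/-- the branch points as polynomials -/
def rp : Fin 5 → MvPolynomial (Fin 4) ℚ := ![X 0, X 1, X 2, X 3, 0]

theorem aeval_rp (e : Fin 4 → ℂ) (i : Fin 5) : aeval e (rp i) = rt e i := by
  fin_cases i <;> simp [rt, rp]

theorem bnd (q : MvPolynomial (Fin 4) ℚ) : ∃ (c : ℝ) (k : ℕ), 0 ≤ c ∧ 0 < k ∧
    (∀ e : Fin 4 → ℂ, (∀ i, ‖e i‖ ≤ 1) → ‖aeval e q‖ ≤ c) ∧
    ∀ (V : ValuationSubring ℂ) (e : Fin 4 → ℂ), (∀ i, e i ∈ V) → (k : ℂ) * aeval e q ∈ V := by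
  induction q using MvPolynomial.induction_on with
  | C a =>
    refine ⟨‖(a : ℂ)‖, a.den, norm_nonneg _, a.den_pos, fun e _ ↦ by simp, fun V e _ ↦ ?_⟩
    have h : (a.den : ℂ) * aeval e (C a : MvPolynomial (Fin 4) ℚ) = a.num := by
      rw [aeval_C, eq_ratCast]
      exact_mod_cast congrArg (Rat.cast : ℚ → ℂ) (Rat.den_mul_eq_num a)
    exact h ▸ intCast_mem V _
  | add p q hp hq =>
    obtain ⟨c, k, a1, a2, a3, a4⟩ := hp
    obtain ⟨c', k', b1, b2, b3, b4⟩ := hq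
    refine ⟨c + c', k * k', add_nonneg a1 b1, mul_pos a2 b2, fun e h ↦ ?_, fun V e h ↦ ?_⟩
    · rw [map_add]
      exact (norm_add_le _ _).trans (add_le_add (a3 e h) (b3 e h))
    · have h1 : ((k * k' : ℕ) : ℂ) * aeval e (p + q) =
          k' * (k * aeval e p) + k * (k' * aeval e q) := by
        rw [map_add]
        push_cast
        ring
      exact h1 ▸ add_mem (mul_mem (natCast_mem V _) (a4 V e h))
        (mul_mem (natCast_mem V _) (b4 V e h))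
  | mul_X p i hp =>
    obtain ⟨c, k, a1, a2, a3, a4⟩ := hp
    refine ⟨c, k, a1, a2, fun e h ↦ ?_, fun V e h ↦ ?_⟩
    · rw [map_mul, aeval_X, norm_mul]
      exact (mul_le_of_le_one_right (norm_nonneg _) (h i)).trans (a3 e h)
    · rw [map_mul, aeval_X, ← mul_assoc]
      exact mul_mem (a4 V e h) (h i)

/-- the certificate in one chart -/
theorem chart (J : Ideal (MvPolynomial (Fin 4) ℚ)) (i j l : Fin 5) (a : Fin 4)
    (h : ∀ e ∈ zeroLocus ℂ J, rt e i = rt e j → rt e j = rt e l → e = 0) :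
    ∃ (c : ℝ) (k : ℕ), 0 ≤ c ∧ 0 < k ∧ ∀ e ∈ zeroLocus ℂ J, e a = 1 →
      ((∀ b, ‖e b‖ ≤ 1) → 1 ≤ c * max ‖rt e i - rt e j‖ ‖rt e j - rt e l‖) ∧
      ∀ V : ValuationSubring ℂ, (∀ b, e b ∈ V) → V.valuation k ≤
        max (V.valuation (rt e i - rt e j)) (V.valuation (rt e j - rt e l)) := by
  have h1 : X a ∈ (J ⊔ Ideal.span {rp i - rp j, rp j - rp l}).radical := by
    rw [← vanishingIdeal_zeroLocus_eq_radical (K := ℂ)]
    intro e he
    have h2 := he _ (Ideal.mem_sup_right (Ideal.subset_span (Set.mem_insert _ _)))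
    have h3 := he _ (Ideal.mem_sup_right (Ideal.subset_span (Set.mem_insert_of_mem _ rfl)))
    rw [map_sub, aeval_rp, aeval_rp, sub_eq_zero] at h2 h3
    rw [aeval_X, h e (fun f hf ↦ he f (Ideal.mem_sup_left hf)) h2 h3, Pi.zero_apply]
  obtain ⟨n, hn⟩ := h1
  obtain ⟨p, hp, s, hs, e1⟩ := Submodule.mem_sup.1 hn
  obtain ⟨q, q', rfl⟩ := Ideal.mem_span_pair.1 hs
  obtain ⟨c, k, a1, a2, a3, a4⟩ := bnd q
  obtain ⟨c', k', b1, b2, b3, b4⟩ := bnd q'
  refine ⟨c + c', k * k', add_nonneg a1 b1, mul_pos a2 b2, fun e he ea ↦ ?_⟩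
  have e2 := congrArg (aeval e) e1
  simp only [map_add, map_mul, map_sub, map_pow, aeval_rp, aeval_X, he p hp, ea, one_pow,
    zero_add] at e2
  refine ⟨fun hb ↦ ?_, fun V hb ↦ ?_⟩
  · rw [← norm_one (α := ℂ), ← e2, add_mul]
    refine (norm_add_le _ _).trans (add_le_add ?_ ?_) <;> rw [norm_mul]
    · exact mul_le_mul (a3 e hb) (le_max_left _ _) (norm_nonneg _) a1
    · exact mul_le_mul (b3 e hb) (le_max_right _ _) (norm_nonneg _) b1
  · have e3 : ((k * k' : ℕ) : ℂ) = k' * (k * aeval e q) * (rt e i - rt e j) +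
        k * (k' * aeval e q') * (rt e j - rt e l) := by
      push_cast
      linear_combination -(k * k' : ℂ) * e2
    rw [e3]
    refine (V.valuation.map_add _ _).trans (max_le_max ?_ ?_) <;> rw [map_mul]
    · exact mul_le_of_le_one_left' ((V.valuation_le_one_iff _).2
        (mul_mem (natCast_mem V _) (a4 V e hb)))
    · exact mul_le_of_le_one_left' ((V.valuation_le_one_iff _).2
        (mul_mem (natCast_mem V _) (b4 V e hb)))

/-- the certificate -/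
theorem cert (J : Ideal (MvPolynomial (Fin 4) ℚ))
    (hc : ∀ e ∈ zeroLocus ℂ J, ∀ t : ℂ, t • e ∈ zeroLocus ℂ J)
    (h : ∀ e ∈ zeroLocus ℂ J, ∀ i j l : Fin 5, i ≠ j → j ≠ l → i ≠ l →
      rt e i = rt e j → rt e j = rt e l → e = 0) :
    ∃ (c : ℝ) (k : ℕ), 1 ≤ c ∧ 0 < k ∧ ∀ e ∈ zeroLocus ℂ J, ∀ i j l a b : Fin 5,
      i ≠ j → j ≠ l → i ≠ l →
      ‖rt e a - rt e b‖ ≤ c * max ‖rt e i - rt e j‖ ‖rt e j - rt e l‖ ∧
      ∀ V : ValuationSubring ℂ, V.valuation (k * (rt e a - rt e b)) ≤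
        max (V.valuation (rt e i - rt e j)) (V.valuation (rt e j - rt e l)) := by
  choose c k c0 k0 hk using fun p : {p : Fin 5 × Fin 5 × Fin 5 //
      p.1 ≠ p.2.1 ∧ p.2.1 ≠ p.2.2 ∧ p.1 ≠ p.2.2} × Fin 4 ↦
    chart J p.1.1.1 p.1.1.2.1 p.1.1.2.2 p.2 fun e he ↦ h e he _ _ _ p.1.2.1 p.1.2.2.1 p.1.2.2.2
  have s0 : 0 ≤ ∑ p, c p := Finset.sum_nonneg fun p _ ↦ c0 p
  refine ⟨1 + 2 * ∑ p, c p, ∏ p, k p, by linarith, Finset.prod_pos fun p _ ↦ k0 p,
    fun e he i j l a b n1 n2 n3 ↦ ⟨?_, fun V ↦ ?_⟩⟩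
  · obtain ⟨g, hg⟩ := Finite.exists_max fun g ↦ ‖e g‖
    have r : ∀ a, ‖rt e a‖ ≤ ‖e g‖ := fun a ↦ by fin_cases a <;> simp [rt, hg]
    have m0 : 0 ≤ max ‖rt e i - rt e j‖ ‖rt e j - rt e l‖ := le_max_of_le_left (norm_nonneg _)
    have r2 := (norm_sub_le _ _).trans (add_le_add (r a) (r b))
    by_cases z : e g = 0
    · rw [z, norm_zero, add_zero] at r2
      exact r2.trans (mul_nonneg (by linarith) m0)
    have z' := norm_pos_iff.2 z
    have h1 := (hk (⟨(i, j, l), n1, n2, n3⟩, g) _ (hc e he (e g)⁻¹)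
      (inv_mul_cancel₀ z)).1 fun b ↦ by
        rw [Pi.smul_apply, norm_smul, norm_inv]
        exact inv_mul_le_one_of_le₀ (hg b) z'.le
    simp only [rt_smul, ← mul_sub, norm_mul, norm_inv,
      ← mul_max_of_nonneg _ _ (inv_nonneg.2 z'.le)] at h1
    rw [mul_left_comm, le_inv_mul_iff₀ z', mul_one] at h1
    have h2 := mul_le_mul_of_nonneg_right (Finset.single_le_sum (f := c) (fun p _ ↦ c0 p)
      (Finset.mem_univ (⟨(i, j, l), n1, n2, n3⟩, g))) m0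
    linarith
  · obtain ⟨g, hg⟩ := Finite.exists_max fun g ↦ V.valuation (e g)
    have r : ∀ a, V.valuation (rt e a) ≤ V.valuation (e g) := fun a ↦ by
      fin_cases a <;> simp [rt, hg]
    have r2 := (V.valuation.map_sub _ _).trans (max_le (r a) (r b))
    by_cases z : e g = 0
    · rw [z, map_zero, le_zero_iff] at r2
      rw [map_mul, r2, mul_zero]
      exact zero_le
    have z' : 0 < V.valuation (e g) := (V.valuation.pos_iff).2 z
    have h1 := (hk (⟨(i, j, l), n1, n2, n3⟩, g) _ (hc e he (e g)⁻¹)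
      (inv_mul_cancel₀ z)).2 V fun b ↦ (V.valuation_le_one_iff _).1 (by
        rw [Pi.smul_apply, smul_eq_mul, map_mul, map_inv₀]
        exact inv_mul_le_one_of_le₀ (hg b) z'.le)
    simp only [rt_smul, ← mul_sub, map_mul, map_inv₀, ← mul_max] at h1
    rw [le_inv_mul_iff₀ z'] at h1
    obtain ⟨d, hd⟩ := Finset.dvd_prod_of_mem k (Finset.mem_univ (⟨(i, j, l), n1, n2, n3⟩, g))
    rw [hd, Nat.cast_mul, map_mul, map_mul, mul_comm]
    refine (mul_le_mul' r2 (mul_le_of_le_one_right' ?_)).trans h1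
    exact (V.valuation_le_one_iff _).2 (natCast_mem V _)

end CERT

open CERT

attribute [local instance] MvPolynomial.algebraMvPolynomial in
/-- the zeros of the rational part are the conjugates of the zeros -/
theorem orb (P : Ideal (MvPolynomial (Fin 4) Qb)) {e : Fin 4 → ℂ} (he : e ∈ Z0 P) :
    ∃ σ : ℂ ≃+* ℂ, ∃ e' ∈ Zs P, e = fun i ↦ σ (e' i) := by
  have : Algebra.IsAlgebraic ℚ Qb := algebraicClosure.isAlgebraic ℚ ℂ
  obtain ⟨ψ, h1, h2⟩ := extend (R := MvPolynomial (Fin 4) ℚ) P (aeval e).toRingHom he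
  have : Countable Qb := ((Algebraic.countable ℚ ℂ).mono
    fun _ h ↦ mem_algebraicClosure_iff.1 h : (Qb : Set ℂ).Countable).to_subtype
  obtain ⟨σ, hσ⟩ := RC.H89.exists_aut_of_injective (algebraMap Qb ℂ) (ψ.comp C)
    (RingHom.injective _) (RingHom.injective _)
  refine ⟨σ, fun i ↦ σ.symm (e i), fun f hf ↦ σ.injective ?_, by simp⟩
  have h3 : σ.toRingHom.comp (aeval fun i ↦ σ.symm (e i) :
      MvPolynomial (Fin 4) Qb →ₐ[Qb] ℂ).toRingHom = ψ := by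
    refine ringHom_ext (fun r ↦ ?_) fun i ↦ ?_
    · simpa using hσ r
    · simpa using (h1 (X i)).symm
  rw [map_zero, ← h2 f hf, ← h3]
  rfl

theorem zs_sub (P : Ideal (MvPolynomial (Fin 4) Qb)) : Zs P ⊆ Z0 P := fun e he f hf ↦ by
  rw [← aeval_map_algebraMap Qb]
  exact he _ hf

theorem z0_map (P : Ideal (MvPolynomial (Fin 4) Qb)) (σ : ℂ →+* ℂ) {e : Fin 4 → ℂ}
    (he : e ∈ Z0 P) : (fun i ↦ σ (e i)) ∈ Z0 P := fun f hf ↦ by
  have h := congrArg σ.toRatAlgHom (he f hf)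
  rwa [comp_aeval_apply, map_zero] at h

theorem z0_cone {P : Ideal (MvPolynomial (Fin 4) Qb)} (h : Cone P) {e : Fin 4 → ℂ}
    (he : e ∈ Z0 P) (t : ℂ) : t • e ∈ Z0 P := by
  obtain ⟨σ, e', a, rfl⟩ := orb P he
  have b := z0_map P σ.toRingHom (zs_sub P (h e' a (σ.symm t)))
  convert b using 1
  funext i
  simp

theorem z0_not {P : Ideal (MvPolynomial (Fin 4) Qb)} (h : NoT P) {e : Fin 4 → ℂ}
    (he : e ∈ Z0 P) (i j l : Fin 5) (n1 : i ≠ j) (n2 : j ≠ l) (n3 : i ≠ l)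
    (a : rt e i = rt e j) (b : rt e j = rt e l) : e = 0 := by
  obtain ⟨σ, e', c, rfl⟩ := orb P he
  simp only [rt_map, σ.injective.eq_iff] at a b
  rw [h e' c i j l n1 n2 n3 a b]
  funext i
  simp

/-- curves above a cone without triple roots -/
theorem nt_of (hG : St_GEO) {P : Ideal (MvPolynomial (Fin 4) Qb)} (hc : Cone P) (hn : NoT P)
    {Q : Id} (h : ∀ x ∈ Cv Q, ∀ τ, Over x τ → Gen τ → ∃ e ∈ Z0 P, Jac e τ) : NT Q := by
  obtain ⟨c, k, c1, k0, hk⟩ := cert (P.comap (MvPolynomial.map (algebraMap ℚ Qb)))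
    (fun e he t ↦ z0_cone hc he t) fun e he ↦ z0_not hn he
  obtain ⟨ε, -, hε⟩ := hG.jac
  refine ⟨c, k, k0, fun x hx ⟨τ, a1, a2⟩ ↦ ?_⟩
  obtain ⟨e, b1, b2⟩ := h x hx τ a1 a2
  obtain ⟨b3, b4⟩ := hε x τ a1 a2
  obtain ⟨t, -, ht⟩ := hG.uniq e _ τ b2 b3
  have b5 := hk (Er ε x) (ht ▸ z0_cone hc b1 t)
  refine ⟨fun i j l a b n1 n2 n3 n4 ↦ ?_, fun V i j l a b n1 n2 n3 n4 ↦ ?_⟩
  · have e1 : ∀ a b, a ≠ b → ‖rt (Er ε x) a - rt (Er ε x) b‖ = ‖mu x a b‖ ^ 2 := fun a b n ↦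
      (pow_left_inj₀ (norm_nonneg _) (by positivity) two_ne_zero).1 (by
        rw [← norm_pow, b4 a b n, norm_pow, ← pow_mul])
    have e2 := (b5 i j l a b n1 n2 n3).1
    rw [e1 a b n4, e1 i j n1, e1 j l n2] at e2
    have m0 : 0 ≤ max ‖mu x i j‖ ‖mu x j l‖ := le_max_of_le_left (norm_nonneg _)
    have e3 : max (‖mu x i j‖ ^ 2) (‖mu x j l‖ ^ 2) ≤ max ‖mu x i j‖ ‖mu x j l‖ ^ 2 :=
      max_le (pow_le_pow_left₀ (norm_nonneg _) (le_max_left _ _) 2)
        (pow_le_pow_left₀ (norm_nonneg _) (le_max_right _ _) 2)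
    refine (pow_le_pow_iff_left₀ (norm_nonneg _) (mul_nonneg (by linarith) m0) two_ne_zero).1
      (e2.trans ?_)
    rw [mul_pow]
    exact mul_le_mul (by nlinarith) e3 (le_max_of_le_left (by positivity)) (by positivity)
  · have e1 : ∀ a b, a ≠ b → V.valuation (rt (Er ε x) a - rt (Er ε x) b) =
        V.valuation (mu x a b) ^ 2 := fun a b n ↦
      (pow_left_inj₀ zero_le zero_le two_ne_zero).1 (by
        rw [← map_pow, b4 a b n, map_pow, ← pow_mul])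
    have e2 := (b5 i j l a b n1 n2 n3).2 V
    rw [map_mul, e1 a b n4, e1 i j n1, e1 j l n2] at e2
    refine (pow_le_pow_iff_left₀ zero_le zero_le two_ne_zero).1 (le_trans ?_ (e2.trans
      (max_le (pow_le_pow_left' (le_max_left _ _) 2) (pow_le_pow_left' (le_max_right _ _) 2))))
    rw [map_mul, mul_pow, sq]
    exact mul_le_mul' (mul_le_of_le_one_left'
      ((V.valuation_le_one_iff _).2 (natCast_mem V _))) le_rfl

end Pool.Agent.Lib.ECM.QM
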