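import Pool.Agent.Lib.ECM.TH_All
import Pool.Agent.Lib.ECM.M_SGN
import Pool.Agent.Lib.ECM.M_ADD2

/-! The fourth powers of the theta constants determine the polarised torus. -/

open Complex
open scoped Real

noncomputable section

namespace Pool.Agent.Lib.ECM.QM

/-- the polarised tori are isomorphic -/
def Iso (τ τ' : T3) : Prop :=
  ∃ M : V2 ≃ₗ[ℂ] V2, (∀ z, M z ∈ Lat τ' ↔ z ∈ Lat τ) ∧ ∀ v, Hn τ' (M v) = Hn τ v

/-- proportional fourth powers give isomorphic polarised tori -/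
def St_FIBRE : Prop := ∀ τ ∈ H2, ∀ τ' ∈ H2, ∀ c : ℂ, Gen τ → c ≠ 0 →
  (∀ m, kk m τ' ^ 4 = c * kk m τ ^ 4) → Iso τ τ'

namespace FIB

open MSGN (sg two sg0 sg1 sg_add sg_sq sw sw_mem val_mul)

theorem iso_refl (τ : T3) : Iso τ τ := ⟨LinearEquiv.refl ℂ V2, fun _ ↦ Iff.rfl, fun _ ↦ rfl⟩

theorem iso_symm {τ τ' : T3} (h : Iso τ τ') : Iso τ' τ := by
  obtain ⟨M, a, b⟩ := h
  exact ⟨M.symm, fun z ↦ by rw [← a, M.apply_symm_apply], fun v ↦ by rw [← b, M.apply_symm_apply]⟩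

theorem iso_trans {τ τ' τ'' : T3} (h : Iso τ τ') (k : Iso τ' τ'') : Iso τ τ'' := by
  obtain ⟨M, a, b⟩ := h
  obtain ⟨N, c, d⟩ := k
  exact ⟨M.trans N, fun z ↦ (c _).trans (a z), fun v ↦ (d _).trans (b v)⟩

theorem iso_sym (γ : Sym) {τ : T3} (h : τ ∈ H2) : Iso τ (γ.act τ) :=
  ⟨LinearEquiv.ofBijective (γ.M τ) (γ.bij τ h), γ.lat τ h, γ.herm τ h⟩

/-- a fourth root of unity -/
def w (x : ZMod 4) : ℂ := I ^ x.val

theorem w_add (x y : ZMod 4) : w (x + y) = w x * w y := by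
  rw [w, w, w, ← pow_add, ZMod.val_add, ← pow_eq_pow_mod _ I_pow_four]

theorem w_ne (x : ZMod 4) : w x ≠ 0 := pow_ne_zero _ I_ne_zero

/-- lift, doubling and reduction -/
def L (x : ZMod 2) : ZMod 4 := x.val

def D (x : ZMod 2) : ZMod 4 := 2 * x.val

def P (x : ZMod 4) : ZMod 2 := x.val

theorem w_D (x : ZMod 2) : w (D x) = sg x := by
  rcases two x with rfl | rfl
  · exact (pow_zero _).trans sg0.symm
  · exact I_sq.trans sg1.symm

theorem w_sq (x : ZMod 4) : w x ^ 2 = sg (P x) := by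
  have h : x + x = D (P x) := by revert x; decide
  rw [sq, ← w_add, h, w_D]

theorem root {z : ℂ} (h : z ^ 4 = 1) : ∃ x, z = w x := by
  have e : (z - 1) * (z - I) * (z + 1) * (z + I) = 0 := by
    linear_combination h - (z ^ 2 - 1) * I_sq
  rcases mul_eq_zero.1 e with e | e
  · rcases mul_eq_zero.1 e with e | e
    · rcases mul_eq_zero.1 e with e | e
      · exact ⟨0, (sub_eq_zero.1 e).trans (pow_zero _).symm⟩
      · exact ⟨1, (sub_eq_zero.1 e).trans (pow_one _).symm⟩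
    · exact ⟨2, (eq_neg_of_add_eq_zero_left e).trans I_sq.symm⟩
  · exact ⟨3, (eq_neg_of_add_eq_zero_left e).trans I_pow_three.symm⟩

/-- realised patterns of fourth roots of unity -/
def Rl (f : Ch → ZMod 4) : Prop :=
  ∀ τ ∈ H2, ∃ τ' ∈ H2, Iso τ τ' ∧ ∃ c : ℂ, c ≠ 0 ∧ ∀ m, kk m τ' = c * w (f m) * kk m τ

theorem Rl.add {f g : Ch → ZMod 4} (hf : Rl f) (hg : Rl g) : Rl fun m ↦ f m + g m := by
  intro τ h
  obtain ⟨τ1, h1, i1, c1, e1, k1⟩ := hf τ h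
  obtain ⟨τ2, h2, i2, c2, e2, k2⟩ := hg τ1 h1
  exact ⟨τ2, h2, iso_trans i1 i2, c2 * c1, mul_ne_zero e2 e1, fun m ↦ by
    rw [k2, k1, w_add]; ring⟩

theorem rl_const (x : ZMod 4) : Rl fun _ ↦ x := fun τ h ↦
  ⟨τ, h, iso_refl τ, (w x)⁻¹, inv_ne_zero (w_ne x), fun m ↦ by
    rw [inv_mul_cancel₀ (w_ne x), one_mul]⟩

theorem Rl.smul {f : Ch → ZMod 4} (hf : Rl f) (x : ZMod 2) : Rl fun m ↦ L x * f m := by
  rcases two x with rfl | rfl
  · simpa [L] using rl_const 0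
  · simpa [L, ZMod.val_one] using hf

theorem Rl.congr {f g : Ch → ZMod 4} (hf : Rl f) (e : ∀ m, Ev m → g m = f m) : Rl g := by
  intro τ h
  obtain ⟨τ1, h1, i1, c1, e1, k1⟩ := hf τ h
  refine ⟨τ1, h1, i1, c1, e1, fun m ↦ ?_⟩
  by_cases hm : Ev m
  · rw [k1, e m hm]
  · rw [st_BAS.kk_odd m _ hm, st_BAS.kk_odd m _ hm, mul_zero]

theorem rl_sum (S : Finset Ch) (g : Ch → Ch → ZMod 4) (h : ∀ i ∈ S, Rl (g i)) :
    Rl fun m ↦ ∑ i ∈ S, g i m := by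
  induction S using Finset.induction_on with
  | empty => simpa using rl_const 0
  | insert a S ha ih =>
    simp only [Finset.sum_insert ha]
    exact (h a (Finset.mem_insert_self _ _)).add (ih fun i hi ↦ h i (Finset.mem_insert_of_mem hi))

/-- conjugation by a transformation -/
theorem Rl.conj {f : Ch → ZMod 4} (hf : Rl f) (p : Ch → Ch) (ζ : Ch → ℂ) (hζ : ∀ m, ζ m ≠ 0)
    (a i : T3 → T3) (ha : ∀ τ ∈ H2, a τ ∈ H2) (hi : ∀ τ ∈ H2, i τ ∈ H2)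
    (hai : ∀ τ ∈ H2, a (i τ) = τ) (hs : ∀ τ ∈ H2, Iso τ (a τ))
    (hk : ∀ τ ∈ H2, ∃ c : ℂ, c ≠ 0 ∧ ∀ m, kk (p m) (a τ) = c * ζ m * kk m τ) :
    Rl fun m ↦ f (p m) := by
  intro τ h
  obtain ⟨c1, e1, k1⟩ := hk τ h
  obtain ⟨τ2, h2, i2, c2, e2, k2⟩ := hf _ (ha τ h)
  obtain ⟨c3, e3, k3⟩ := hk _ (hi τ2 h2)
  have i3 := hs _ (hi τ2 h2)
  rw [hai τ2 h2] at i3
  refine ⟨i τ2, hi τ2 h2, iso_trans (iso_trans (hs τ h) i2) (iso_symm i3), c2 * c1 / c3,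
    div_ne_zero (mul_ne_zero e2 e1) e3, fun m ↦ ?_⟩
  have h4 := k3 m
  rw [hai τ2 h2, k2, k1] at h4
  refine mul_left_cancel₀ (mul_ne_zero e3 (hζ m)) ?_
  rw [← h4]
  field_simp

theorem Rl.cJ {f : Ch → ZMod 4} (hf : Rl f) :
    Rl fun m ↦ f (m.2.2.1, m.2.1, m.1, m.2.2.2) := by
  refine hf.conj _ (fun m ↦ exp (-2 * π * I * (ca m 0 * cb m 0))) (fun _ ↦ exp_ne_zero _)
    XSYMJ.act XSYMJ.inv (fun _ ↦ XSYMJ.act_mem) (fun _ ↦ XSYMJ.inv_mem) (fun _ ↦ XSYMJ.act_inv)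
    (fun τ h ↦ ⟨LinearEquiv.ofBijective (XSYMJ.M τ) (XSYMJ.M_inj h), XSYMJ.lat h, XSYMJ.herm h⟩)
    fun τ h ↦ ⟨(-I * τ 0) ^ (1 / 2 : ℂ), ?_, fun m ↦ ?_⟩
  · rw [Ne, cpow_eq_zero_iff]
    simp [XSYMJ.ne0 h]
  · have g := XSYMJ.gen st_BAS h (ca m) (cb m) 0
    have e1 : ca (m.2.2.1, m.2.1, m.1, m.2.2.2) =
        ![-cb m 0, ca m 1] + iv ((m.2.2.1.val : ℤ), 0) := by
      funext i
      fin_cases i <;> simp [ca, cb, iv]
      ring
    have e2 : cb (m.2.2.1, m.2.1, m.1, m.2.2.2) = ![ca m 0, cb m 1] := by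
      funext i
      fin_cases i <;> simp [ca, cb]
    rw [map_zero] at g
    rw [kk, kk, th, th, e1, e2, st_BAS.shift_a, g]
    simp

theorem iso_U (a b c d : ℤ) (h : a * d - b * c = 1 ∨ a * d - b * c = -1) {τ τ' : T3} (hτ : τ ∈ H2)
    (e : τ' = ![Qf τ (iv (a, b)), τ 0 * a * c + τ 1 * (a * d + b * c) + τ 2 * b * d,
      Qf τ (iv (c, d))]) : Iso τ τ' := by
  obtain ⟨γ, h1, -⟩ := th_SYMU a b c d h
  rw [e, ← h1]
  exact iso_sym γ hτ

theorem Rl.cS {f : Ch → ZMod 4} (hf : Rl f) :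
    Rl fun m ↦ f (m.2.1, m.1, m.2.2.2, m.2.2.1) := by
  refine hf.conj _ (fun _ ↦ 1) (fun _ ↦ one_ne_zero) sw sw sw_mem sw_mem
    (fun τ _ ↦ by funext i; fin_cases i <;> rfl)
    (fun τ h ↦ iso_U 0 1 1 0 (by norm_num) h (by simp [sw, Qf, iv]))
    fun τ _ ↦ ⟨1, one_ne_zero, fun m ↦ ?_⟩
  rw [one_mul, one_mul, kk, kk, th, th, thg, thg, ← (Equiv.prodComm ℤ ℤ).tsum_eq]
  refine tsum_congr fun n ↦ ?_
  unfold term
  congr 1
  simp [Qf, dot, iv, ca, cb, sw]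
  ring

theorem exp_w (k : ℤ) (x : ZMod 4) : exp (π * I * (2 * k + x.val / 2)) = w x := by
  rw [show (π : ℂ) * I * (2 * k + x.val / 2) = k * (2 * π * I) + x.val * (π / 2 * I) by ring,
    exp_add, exp_int_mul_two_pi_mul_I, exp_nat_mul, exp_pi_div_two_mul_I, one_mul, w]

theorem rl_tr (B : Fin 3 → ℤ) (f : Ch → ZMod 4)
    (h : ∀ (m : Ch) (n : ℤ × ℤ), ∃ k : ℤ,
      Qf (fun i ↦ B i) (iv n + ca m) = 2 * k + (f m).val / 2) : Rl f := by
  intro τ hτ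
  obtain ⟨γ, h1, -⟩ := th_SYMT B
  refine ⟨γ.act τ, γ.act_mem τ hτ, iso_sym γ hτ, 1, one_ne_zero, fun m ↦ ?_⟩
  rw [h1, one_mul, kk, kk, th, th, thg, thg, ← tsum_mul_left]
  refine tsum_congr fun n ↦ ?_
  obtain ⟨k, hk⟩ := h m n
  rw [← exp_w k, ← hk, term, term, ← exp_add]
  congr 1
  simp only [Qf]
  ring

theorem val_L (x : ZMod 2) : (L x).val = x.val := by revert x; decide

theorem val_D (x : ZMod 2) : (D x).val = 2 * x.val := by revert x; decide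

theorem rl_a : Rl fun m ↦ L m.1 := by
  refine rl_tr ![2, 0, 0] _ fun m n ↦ ⟨n.1 ^ 2 + n.1 * m.1.val, ?_⟩
  have h := val_mul m.1 m.1
  rw [show m.1 * m.1 = m.1 by generalize m.1 = x; revert x; decide] at h
  simp only [Qf, iv, ca, Pi.add_apply, Matrix.cons_val_zero, Matrix.cons_val_one,
    Matrix.cons_val, val_L]
  push_cast
  linear_combination -h / 2

theorem rl_aa : Rl fun m ↦ D (m.1 * m.2.1) := by
  refine rl_tr ![0, 2, 0] _ fun m n ↦ ⟨2 * n.1 * n.2 + n.1 * m.2.1.val + n.2 * m.1.val, ?_⟩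
  rw [val_D, Nat.cast_mul, val_mul]
  simp only [Qf, iv, ca, Pi.add_apply, Matrix.cons_val_zero, Matrix.cons_val_one,
    Matrix.cons_val]
  push_cast
  ring

theorem rl_ab : Rl fun m ↦ D (m.1 * m.2.2.1) := by
  intro τ hτ
  refine ⟨![τ 0, -τ 1, τ 2], by simpa [H2] using hτ,
    iso_U (-1) 0 0 1 (by norm_num) hτ (by simp [Qf, iv]), 1, one_ne_zero, fun m ↦ ?_⟩
  have e1 : ca m = ![-ca m 0, ca m 1] + iv ((m.1.val : ℤ), 0) := by
    funext i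
    fin_cases i <;> simp [ca, iv]
    ring
  have e2 : 0 + cb m = ![-cb m 0, cb m 1] + iv ((m.2.2.1.val : ℤ), 0) := by
    funext i
    fin_cases i <;> simp [cb, iv]
    ring
  have e3 : kk m ![τ 0, -τ 1, τ 2] = thg τ ![-ca m 0, ca m 1] ![-cb m 0, cb m 1] := by
    rw [kk, th, thg, thg, ← ((Equiv.neg ℤ).prodCongr (Equiv.refl ℤ)).tsum_eq]
    refine tsum_congr fun n ↦ ?_
    unfold term
    congr 1
    simp [Qf, dot, iv]
    ring
  have e4 : exp (2 * π * I * dot (ca m) (iv ((m.2.2.1.val : ℤ), 0))) = sg (m.1 * m.2.2.1) := by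
    rw [← MSGN.exp_sg 0, val_mul]
    congr 1
    simp only [dot, iv, ca, Matrix.cons_val_zero, Matrix.cons_val_one]
    push_cast
    ring
  have e5 : kk m τ = sg (m.1 * m.2.2.1) * kk m ![τ 0, -τ 1, τ 2] := by
    rw [e3, kk, th, e2, st_BAS.shift_w, e4,
      ← st_BAS.shift_a τ ![-ca m 0, ca m 1] _ ((m.1.val : ℤ), 0), ← e1]
  rw [e5, one_mul, w_D, ← mul_assoc, sg_sq, one_mul]

theorem rl_delta (i : Ch) (hi : Ev i) : Rl fun m ↦ if m = i then 2 else 0 := by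
  have a0 := rl_a.add rl_a
  have a1 := a0
  have a2 := a0.cS
  have b1 := a0.cJ
  have b2 := a0.cJ.cS
  have c1 := rl_aa
  have c2 := rl_aa.cJ
  have c3 := rl_aa.cJ.cS
  have c4 := rl_aa.cJ.cS.cJ
  set u := 1 + i.1 + i.2.2.1 with hu
  set v := 1 + i.2.1 + i.2.2.2 with hv
  refine (((((((((((rl_const (D (u * v + i.1 * i.2.2.1))).add
    (a1.smul ((1 + i.2.2.1) * v))).add
    (b1.smul ((1 + i.1) * v))).add (a2.smul (u * (1 + i.2.2.2)))).add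
    (b2.smul (u * (1 + i.2.1)))).add (c1.smul ((1 + i.2.2.1) * (1 + i.2.2.2)))).add
    (c2.smul ((1 + i.1) * (1 + i.2.2.2)))).add (c3.smul ((1 + i.2.2.1) * (1 + i.2.1)))).add
    (c4.smul ((1 + i.1) * (1 + i.2.1)))).add rl_ab)).congr ?_
  rw [hu, hv]
  clear hu hv u v a0 a1 a2 b1 b2 c1 c2 c3 c4
  revert i
  decide

theorem rl_sgn (s : Ch → ZMod 2) : Rl fun m ↦ D (s m) :=
  (rl_sum (Finset.univ.filter Ev) (fun i m ↦ L (s i) * if m = i then 2 else 0)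
    fun i hi ↦ (rl_delta i (Finset.mem_filter.1 hi).2).smul _).congr fun m hm ↦ by
      simp [hm, L, D, mul_comm]

/-- patterns whose square is a character -/
theorem rl_lin (r : Ch → ZMod 4) (p0 p1 p2 p3 p4 : ZMod 2)
    (h : ∀ m, Ev m → P (r m) = p0 + p1 * m.1 + p2 * m.2.1 + p3 * m.2.2.1 + p4 * m.2.2.2) :
    Rl r := by
  have e : ∀ (p0 p1 p2 p3 p4 a b c d : ZMod 2) (x : ZMod 4), ∃ s : ZMod 2,
      P x = p0 + p1 * a + p2 * b + p3 * c + p4 * d →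
      x = L p0 + L p1 * L a + L p2 * L b + L p3 * L c + L p4 * L d + D s := by decide +kernel
  choose s hs using fun m : Ch ↦ e p0 p1 p2 p3 p4 m.1 m.2.1 m.2.2.1 m.2.2.2 (r m)
  exact ((((((rl_const (L p0)).add (rl_a.smul p1)).add (rl_a.cS.smul p2)).add
    (rl_a.cJ.smul p3)).add (rl_a.cJ.cS.smul p4)).add (rl_sgn s)).congr fun m hm ↦ hs m (h m hm)

theorem three {A B C : ℂ} (hA : A ≠ 0) (hB : B ≠ 0) (hC : C ≠ 0) {x y z : ZMod 2}
    (h : A - B - C = 0) (k : sg x * A - sg y * B - sg z * C = 0) : x = y ∧ x = z := by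
  rcases two x with rfl | rfl <;> rcases two y with rfl | rfl <;> rcases two z with rfl | rfl <;>
    simp only [sg0, sg1] at k <;>
    first
    | exact ⟨rfl, rfl⟩
    | exact absurd (by linear_combination (k - h) / 2) hC
    | exact absurd (by linear_combination (k - h) / 2) hB
    | exact absurd (by linear_combination (k + h) / 2) hA
    | exact absurd (by linear_combination (h - k) / 2) hA
    | exact absurd (by linear_combination -(k + h) / 2) hB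
    | exact absurd (by linear_combination -(k + h) / 2) hC

theorem Qm_eq (m : Ch) (g : Z2 → ℂ) : Qm m g =
    g (0, 0) * g (m.1, m.2.1) + sg m.2.2.2 * (g (0, 1) * g (m.1, 1 + m.2.1)) +
      sg m.2.2.1 * (g (1, 0) * g (1 + m.1, m.2.1)) +
      sg (m.2.2.1 + m.2.2.2) * (g (1, 1) * g (1 + m.1, 1 + m.2.1)) := by
  have e : ∀ F : ZMod 2 → ℂ, ∑ x, F x = F 0 + F 1 := fun F ↦ Fin.sum_univ_two F
  simp only [Qm, Fintype.sum_prod_type, e, sg, Prod.mk_add_mk, zero_mul, one_mul, zero_add,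
    add_zero, ZMod.val_zero, pow_zero]
  ring

/-- three relations between the squares -/
theorem rel {τ : T3} (h : τ ∈ H2) :
    kk (0, 0, 0, 0) τ ^ 2 * kk (0, 0, 0, 1) τ ^ 2 - kk (0, 0, 1, 0) τ ^ 2 * kk (0, 0, 1, 1) τ ^ 2 -
      kk (1, 0, 0, 0) τ ^ 2 * kk (1, 0, 0, 1) τ ^ 2 = 0 ∧
    kk (0, 0, 0, 0) τ ^ 2 * kk (0, 0, 1, 0) τ ^ 2 - kk (0, 0, 0, 1) τ ^ 2 * kk (0, 0, 1, 1) τ ^ 2 -
      kk (0, 1, 0, 0) τ ^ 2 * kk (0, 1, 1, 0) τ ^ 2 = 0 ∧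
    kk (0, 0, 0, 0) τ ^ 2 * kk (1, 1, 0, 0) τ ^ 2 - kk (0, 0, 1, 1) τ ^ 2 * kk (1, 1, 1, 1) τ ^ 2 -
      kk (0, 1, 0, 0) τ ^ 2 * kk (1, 0, 0, 0) τ ^ 2 = 0 := by
  have e : (1 : ZMod 2) + 1 = 0 := by decide
  simp only [st_ADD2 τ h, Qm_eq, e, add_zero, zero_add, sg0, sg1]
  refine ⟨?_, ?_, ?_⟩ <;> ring

end FIB

open FIB in
theorem st_FIBRE : St_FIBRE := by
  intro τ h τ' h' c hg hc e
  obtain ⟨d, rfl⟩ := IsAlgClosed.exists_pow_nat_eq c (n := 4) (by norm_num)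
  have hd : d ≠ 0 := fun z ↦ hc (by rw [z]; ring)
  have e1 : ∀ m, ∃ x, kk m τ' = d * w x * kk m τ := fun m ↦ by
    by_cases hm : Ev m
    · have h0 := mul_ne_zero hd (hg m hm)
      obtain ⟨x, hx⟩ := root (z := kk m τ' / (d * kk m τ))
        (by rw [div_pow, e, mul_pow, div_self (mul_pow d _ 4 ▸ pow_ne_zero 4 h0)])
      exact ⟨x, by rw [← hx]; field_simp [hg m hm]⟩
    · exact ⟨0, by rw [st_BAS.kk_odd m _ hm, st_BAS.kk_odd m _ hm, mul_zero]⟩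
  choose r hr using e1
  have e2 : ∀ m n, kk m τ' ^ 2 * kk n τ' ^ 2 =
      d ^ 4 * (MSGN.sg (P (r m) + P (r n)) * (kk m τ ^ 2 * kk n τ ^ 2)) := fun m n ↦ by
    rw [hr, hr n, MSGN.sg_add, ← w_sq, ← w_sq]
    ring
  have e3 : ∀ m n, Ev m → Ev n → kk m τ ^ 2 * kk n τ ^ 2 ≠ 0 := fun m n a b ↦
    mul_ne_zero (pow_ne_zero 2 (hg m a)) (pow_ne_zero 2 (hg n b))
  obtain ⟨a1, a2, a3⟩ := rel h
  obtain ⟨b1, b2, b3⟩ := rel h'
  simp only [e2, ← mul_sub, mul_eq_zero, hc, false_or] at b1 b2 b3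
  obtain ⟨c1, c2⟩ := three (e3 _ _ (by decide) (by decide)) (e3 _ _ (by decide) (by decide))
    (e3 _ _ (by decide) (by decide)) a1 b1
  obtain ⟨-, c3⟩ := three (e3 _ _ (by decide) (by decide)) (e3 _ _ (by decide) (by decide))
    (e3 _ _ (by decide) (by decide)) a2 b2
  obtain ⟨c4, c5⟩ := three (e3 _ _ (by decide) (by decide)) (e3 _ _ (by decide) (by decide))
    (e3 _ _ (by decide) (by decide)) a3 b3
  have key : ∀ x0 x1 x2 x3 x4 x6 x8 x9 x12 x15 : ZMod 2, x0 + x1 = x2 + x3 → x0 + x1 = x8 + x9 →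
      x0 + x2 = x4 + x6 → x0 + x12 = x3 + x15 → x0 + x12 = x4 + x8 →
      x3 = x0 + x2 + x1 ∧ x9 = x0 + x8 + x1 ∧ x6 = x0 + x4 + x2 ∧ x12 = x0 + x8 + x4 ∧
        x15 = x0 + x8 + x4 + x2 + x1 := fun x0 x1 x2 x3 x4 x6 x8 x9 x12 x15 h1 h2 h3 h4 h5 ↦ by
    have t : (2 : ZMod 2) = 0 := rfl
    exact ⟨by linear_combination -h1 - x2 * t, by linear_combination -h2 - x8 * t,
      by linear_combination -h3 - x4 * t, by linear_combination h5 - x0 * t,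
      by linear_combination h1 - h4 + h5 - (x0 + x1) * t⟩
  obtain ⟨d1, d2, d3, d4, d5⟩ := key _ _ _ _ _ _ _ _ _ _ c1 c2 c3 c4 c5
  have hR := rl_lin r (P (r 0)) (P (r 0) + P (r (1, 0, 0, 0))) (P (r 0) + P (r (0, 1, 0, 0)))
    (P (r 0) + P (r (0, 0, 1, 0))) (P (r 0) + P (r (0, 0, 0, 1))) fun m hm ↦ by
      have z : (0 : Ch) = (0, 0, 0, 0) := rfl
      obtain ⟨m1, m2, m3, m4⟩ := m
      rcases MSGN.two m1 with rfl | rfl <;> rcases MSGN.two m2 with rfl | rfl <;>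
        rcases MSGN.two m3 with rfl | rfl <;> rcases MSGN.two m4 with rfl | rfl <;>
        first
        | exact absurd hm (by decide)
        | (simp only [z, d1, d2, d3, d4, d5]
           generalize P (r (0, 0, 0, 0)) = y0, P (r (1, 0, 0, 0)) = y1, P (r (0, 1, 0, 0)) = y2,
             P (r (0, 0, 1, 0)) = y3, P (r (0, 0, 0, 1)) = y4
           revert y0 y1 y2 y3 y4
           decide)
  obtain ⟨τ2, h2, i2, c2, e4, k2⟩ := hR τ h
  obtain ⟨M, -, m1, m2⟩ := th_TOR τ2 h2 τ' h' (d / c2)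
    (fun m hm ↦ by rw [k2]; exact mul_ne_zero (mul_ne_zero e4 (w_ne _)) (hg m hm))
    (div_ne_zero hd e4) fun m ↦ by rw [hr, k2]; field_simp
  exact iso_trans i2 ⟨M, m1, m2⟩

end Pool.Agent.Lib.ECM.QM
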