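import Pool.Agent.Lib.QM.QBlue
import Pool.Agent.Lib.QM.Q_FIB
import Pool.Agent.Lib.ECM.M_EQN

/-! The branch points determine the polarised torus. -/

noncomputable section

namespace Pool.Agent.Lib.ECM.QM

namespace TOR2

open MSGN (sg sg0 sg1)

/-- the characteristics which occur in `mu` -/
def idx (a b : Fin 5) : Multiset Ch :=
  (Finset.univ.filter (fun p : Fin 5 × Fin 5 ↦
    p.1 < p.2 ∧ p.1 ≠ a ∧ p.1 ≠ b ∧ p.2 ≠ a ∧ p.2 ≠ b)).val.map fun p ↦ S p.1 p.2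

theorem mu_idx (x : Ch → ℂ) (a b : Fin 5) : mu x a b = ((idx a b).map x).prod := by
  rw [idx, Multiset.map_map]
  rfl

theorem mu_of (x : Ch → ℂ) {a b : Fin 5} {m₁ m₂ m₃ : Ch} (h : idx a b = {m₁, m₂, m₃}) :
    mu x a b = x m₁ * x m₂ * x m₃ := by
  rw [mu_idx, h]
  simp [mul_assoc]

theorem mu_swap (x : Ch → ℂ) (a b : Fin 5) : mu x a b = mu x b a := by
  have h : ∀ a b, idx a b = idx b a := by decide +kernel
  rw [mu_idx, mu_idx, h]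

/-- the monomial identity -/
theorem mono (a b : Fin 5) (h : a ≠ b) : ∃ c d e : Fin 5, c ≠ d ∧ c ≠ e ∧ d ≠ e ∧
    ∀ x : Ch → ℂ, x (S a b) ^ 2 * chi x = mu x a b * mu x c d * mu x c e * mu x d e := by
  have k : ∀ a b : Fin 5, a ≠ b → ∃ c d e : Fin 5, c ≠ d ∧ c ≠ e ∧ d ≠ e ∧
      {S a b, S a b} + (Finset.univ.filter Ev).val = idx a b + idx c d + idx c e + idx d e := by
    decide +kernel
  obtain ⟨c, d, e, h1, h2, h3, h4⟩ := k a b h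
  refine ⟨c, d, e, h1, h2, h3, fun x ↦ ?_⟩
  simp only [mu_idx, ← Multiset.prod_add, ← Multiset.map_add, ← h4]
  rw [Multiset.map_add, Multiset.prod_add]
  simp [chi, sq, Finset.prod]

/-- the squares of the products are linear in four of them -/
theorem lin {x : Ch → ℂ} {g : Z2 → ℂ} (h : ∀ m, x m ^ 2 = Qm m g) :
    mu x 0 1 ^ 2 = mu x 1 4 ^ 2 - mu x 0 4 ^ 2 ∧ mu x 0 2 ^ 2 = mu x 2 4 ^ 2 - mu x 0 4 ^ 2 ∧
    mu x 0 3 ^ 2 = mu x 0 4 ^ 2 - mu x 3 4 ^ 2 ∧ mu x 1 2 ^ 2 = mu x 2 4 ^ 2 - mu x 1 4 ^ 2 ∧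
    mu x 1 3 ^ 2 = mu x 1 4 ^ 2 - mu x 3 4 ^ 2 ∧ mu x 2 3 ^ 2 = mu x 2 4 ^ 2 - mu x 3 4 ^ 2 := by
  have e : (1 : ZMod 2) + 1 = 0 := by decide
  rw [mu_of x (by decide : idx 0 1 = {(1, 1, 0, 0), (1, 1, 1, 1), (1, 0, 0, 1)}),
    mu_of x (by decide : idx 0 2 = {(0, 0, 0, 0), (0, 0, 1, 1), (1, 0, 0, 1)}),
    mu_of x (by decide : idx 0 3 = {(0, 1, 1, 0), (0, 0, 1, 1), (1, 1, 1, 1)}),
    mu_of x (by decide : idx 0 4 = {(0, 1, 1, 0), (0, 0, 0, 0), (1, 1, 0, 0)}),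
    mu_of x (by decide : idx 1 2 = {(0, 0, 1, 0), (0, 0, 0, 1), (1, 0, 0, 1)}),
    mu_of x (by decide : idx 1 3 = {(0, 1, 0, 0), (0, 0, 0, 1), (1, 1, 1, 1)}),
    mu_of x (by decide : idx 1 4 = {(0, 1, 0, 0), (0, 0, 1, 0), (1, 1, 0, 0)}),
    mu_of x (by decide : idx 2 3 = {(1, 0, 0, 0), (0, 0, 0, 1), (0, 0, 1, 1)}),
    mu_of x (by decide : idx 2 4 = {(1, 0, 0, 0), (0, 0, 1, 0), (0, 0, 0, 0)}),
    mu_of x (by decide : idx 3 4 = {(1, 0, 0, 0), (0, 1, 0, 0), (0, 1, 1, 0)})]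
  simp only [mul_pow, h, FIB.Qm_eq, e, add_zero, zero_add, sg0, sg1]
  refine ⟨?_, ?_, ?_, ?_, ?_, ?_⟩ <;> ring

theorem scale {x x' : Ch → ℂ} {g g' : Z2 → ℂ} (h : ∀ m, x m ^ 2 = Qm m g)
    (h' : ∀ m, x' m ^ 2 = Qm m g') {s : ℂ}
    (e : ∀ a : Fin 4, mu x' a.castSucc 4 ^ 2 = s * mu x a.castSucc 4 ^ 2) (a b : Fin 5)
    (n : a ≠ b) : mu x' a b ^ 2 = s * mu x a b ^ 2 := by
  have e0 : mu x' 0 4 ^ 2 = s * mu x 0 4 ^ 2 := e 0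
  have e1 : mu x' 1 4 ^ 2 = s * mu x 1 4 ^ 2 := e 1
  have e2 : mu x' 2 4 ^ 2 = s * mu x 2 4 ^ 2 := e 2
  have e3 : mu x' 3 4 ^ 2 = s * mu x 3 4 ^ 2 := e 3
  obtain ⟨a1, a2, a3, a4, a5, a6⟩ := lin h
  obtain ⟨b1, b2, b3, b4, b5, b6⟩ := lin h'
  have f1 : mu x' 0 1 ^ 2 = s * mu x 0 1 ^ 2 := by rw [a1, b1, e0, e1]; ring
  have f2 : mu x' 0 2 ^ 2 = s * mu x 0 2 ^ 2 := by rw [a2, b2, e0, e2]; ring
  have f3 : mu x' 0 3 ^ 2 = s * mu x 0 3 ^ 2 := by rw [a3, b3, e0, e3]; ring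
  have f4 : mu x' 1 2 ^ 2 = s * mu x 1 2 ^ 2 := by rw [a4, b4, e1, e2]; ring
  have f5 : mu x' 1 3 ^ 2 = s * mu x 1 3 ^ 2 := by rw [a5, b5, e1, e3]; ring
  have f6 : mu x' 2 3 ^ 2 = s * mu x 2 3 ^ 2 := by rw [a6, b6, e2, e3]; ring
  wlog l : a < b generalizing a b
  · rw [mu_swap x', mu_swap x]
    exact this b a n.symm (lt_of_le_of_ne (not_lt.1 l) n.symm)
  fin_cases a <;> fin_cases b <;> first | exact absurd l (by decide) | assumption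

theorem chi_ne {x : Ch → ℂ} {τ : T3} (h : Over x τ) (g : Gen τ) : chi x ≠ 0 :=
  Finset.prod_ne_zero_iff.2 fun m hm ↦ by
    rw [h.2.2]
    exact div_ne_zero (g m (Finset.mem_filter.1 hm).2) h.2.1

end TOR2

open TOR2 in
theorem st_TOR2 (hG : St_GEO) : St_TOR2 := by
  intro e τ τ' hJ hJ'
  obtain ⟨ε, hε, hj⟩ := hG.jac
  have ho : Over (fun m ↦ kk m τ / kk 0 τ) τ := ⟨hJ.1, hJ.2.1 0 (by decide), fun _ ↦ rfl⟩
  have ho' : Over (fun m ↦ kk m τ' / kk 0 τ') τ' := ⟨hJ'.1, hJ'.2.1 0 (by decide), fun _ ↦ rfl⟩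
  generalize (fun m ↦ kk m τ / kk 0 τ) = x at ho
  generalize (fun m ↦ kk m τ' / kk 0 τ') = x' at ho'
  obtain ⟨t, t0, ht⟩ := hG.uniq e _ τ hJ (hj x τ ho hJ.2.1).1
  obtain ⟨t', t0', ht'⟩ := hG.uniq e _ τ' hJ' (hj x' τ' ho' hJ'.2.1).1
  have h1 := scale (MEQN.over_sq st_ADD2 ho) (MEQN.over_sq st_ADD2 ho') (s := t' / t) fun a ↦ by
    have a1 := congrFun ht a
    have a2 := congrFun ht' a
    simp only [Er, Pi.smul_apply, smul_eq_mul] at a1 a2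
    have a3 : (ε a : ℂ) ≠ 0 := by rcases hε a with h | h <;> simp [h]
    refine mul_left_cancel₀ a3 ?_
    rw [a2, mul_left_comm, a1]
    field_simp
  have c1 := chi_ne ho hJ.2.1
  have c2 := chi_ne ho' hJ'.2.1
  have k1 := ho.2.1
  have k2 := ho'.2.1
  refine st_FIBRE τ hJ.1 τ' hJ'.1 ((t' / t) ^ 4 * chi x ^ 2 / chi x' ^ 2 * kk 0 τ' ^ 4 / kk 0 τ ^ 4)
    hJ.2.1 (by positivity) fun m ↦ ?_
  by_cases hm : Ev m
  · obtain ⟨a, b, l, rfl⟩ := (ev_iff m).1 hm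
    obtain ⟨c, d, f, n1, n2, n3, h2⟩ := mono a b l.ne
    have h3 : (x' (S a b) ^ 2 * chi x') ^ 2 = (t' / t) ^ 4 * (x (S a b) ^ 2 * chi x) ^ 2 := by
      rw [h2, h2]
      simp only [mul_pow, h1 a b l.ne, h1 c d n1, h1 c f n2, h1 d f n3]
      ring
    rw [ho.2.2, ho'.2.2] at h3
    field_simp at h3 ⊢
    linear_combination h3
  · rw [st_BAS.kk_odd m _ hm, st_BAS.kk_odd m _ hm]
    ring

end Pool.Agent.Lib.ECM.QM
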