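import Pool.Agent.Lib.QM.Q_CONA
import Pool.Agent.Lib.QM.Q_CERT
import Pool.Agent.Lib.QM.Q_TOR2
import Pool.Agent.Lib.ECM.M_SURJ
import Pool.Agent.Lib.ECM.M_OPEN
import Pool.Agent.Lib.ECM.M_ENC
import Pool.Agent.Lib.ECM.M_G3
import Pool.Agent.Lib.ECM.M_ALG

/-! From a cone of branch points to curves in the space of theta constants. -/

open Polynomial

noncomputable section

namespace Pool.Agent.Lib.ECM.QM

namespace CONE

theorem cn_map {S : Type} [CommRing S] [Algebra ℚ S] (π : MvPolynomial Ch ℚ →ₐ[ℚ] S)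
    (E : Fin 4 → MvPolynomial Ch ℚ) (f : MvPolynomial (Fin 4) ℚ) :
    (cn (AlgHom.id ℚ _) E f).map π.toRingHom = cn π E f := by
  have := MvPolynomial.comp_aeval_apply (f := fun a ↦ X * C (E a)) (mapAlgHom π) f
  simpa [cn] using this

theorem cn_eval (E : Fin 4 → MvPolynomial Ch ℚ) (x : Ch → ℂ) (t : ℂ)
    (f : MvPolynomial (Fin 4) ℚ) :
    (cn (AlgHom.id ℚ _) E f).eval₂ (MvPolynomial.aeval x).toRingHom t =
      MvPolynomial.aeval (t • fun a ↦ MvPolynomial.aeval x (E a)) f := by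
  rw [← eval_map, cn_map]
  have := MvPolynomial.comp_aeval_apply (f := fun a ↦ X * C (MvPolynomial.aeval x (E a)))
    ((aeval t : ℂ[X] →ₐ[ℂ] ℂ).restrictScalars ℚ) f
  simp only [AlgHom.coe_restrictScalars', coe_aeval_eq_eval, eval_mul, eval_X, eval_C] at this
  exact this

theorem er_aeval (ε : Fin 4 → ℤ) (x : Ch → ℂ) :
    (fun a ↦ MvPolynomial.aeval x (Er ε (MvPolynomial.X : Ch → MvPolynomial Ch ℚ) a)) = Er ε x := by
  funext a
  simp [Er, mu]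

theorem chi_aeval (x : Ch → ℂ) :
    MvPolynomial.aeval x (chi (MvPolynomial.X : Ch → MvPolynomial Ch ℚ)) = chi x := by
  simp [chi]

theorem ex_D {ε : Fin 4 → ℤ} (h : ∀ x τ, Over x τ → Gen τ →
    ∀ a b, a ≠ b → (rt (Er ε x) a - rt (Er ε x) b) ^ 2 = mu x a b ^ 4) (m : Ch) :
    ∃ D : MvPolynomial (Fin 4) ℚ, ∀ x τ, Over x τ → Gen τ → ∀ t : ℂ,
      MvPolynomial.aeval (t • Er ε x) D = x m ^ 8 * (t ^ 8 * chi x ^ 4) := by
  by_cases hm : Ev m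
  · obtain ⟨a, b, l, rfl⟩ := (ev_iff m).1 hm
    obtain ⟨c, d, e, n1, n2, n3, k⟩ := TOR2.mono a b l.ne
    refine ⟨(CERT.rp a - CERT.rp b) ^ 2 * (CERT.rp c - CERT.rp d) ^ 2 *
      (CERT.rp c - CERT.rp e) ^ 2 * (CERT.rp d - CERT.rp e) ^ 2, fun x τ h1 h2 t ↦ ?_⟩
    simp only [map_mul, map_pow, map_sub, CERT.aeval_rp, CERT.rt_smul, ← mul_sub, mul_pow,
      h x τ h1 h2 a b l.ne, h x τ h1 h2 c d n1, h x τ h1 h2 c e n2, h x τ h1 h2 d e n3]
    have := congrArg (· ^ 4) (k x)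
    linear_combination -t ^ 8 * this
  · refine ⟨0, fun x τ h1 _ t ↦ ?_⟩
    rw [h1.2.2, st_BAS.kk_odd m _ hm]
    simp

theorem jac_smul {e : Fin 4 → ℂ} {τ : T3} {s : ℂ} (hs : s ≠ 0) (h : Jac (s • e) τ) : Jac e τ := by
  obtain ⟨h1, h2, u, v, h3, h4, h5⟩ := h
  refine ⟨h1, h2, u, s • v, ?_, ?_, fun i ↦ ?_⟩
  · rw [LinearIndependent.pair_iff] at h3 ⊢
    intro a b k
    rw [smul_smul] at k
    exact ⟨(h3 _ _ k).1, (mul_eq_zero.1 (h3 _ _ k).2).resolve_right hs⟩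
  · rw [ll, dth, map_smul]
    exact smul_eq_zero_of_right s h4
  · rw [smul_smul, mul_comm, ← CERT.rt_smul]
    exact h5 i

end CONE

attribute [local instance] MvPolynomial.algebraMvPolynomial in
open CONE in
theorem st_CONE (hG : St_GEO) (hT : St_TOR2) : St_CONE := by
  classical
  rintro P hP hd hc hn ⟨e0, he0, τ0, hJ0, hE0⟩
  have hEQ := st_EQN st_ADD2 (st_SURJ st_ADD2 st_SGN (st_OPEN st_ADD2))
  obtain ⟨ε, -, hε⟩ := hG.jac
  choose D hD using ex_D fun x τ a b ↦ (hε x τ a b).2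
  set W : Set (Ch → ℂ) := {x | (∃ τ, Over x τ ∧ Gen τ) ∧ Er ε x ∈ Z0 P} with hW
  have mW : ∀ e ∈ Zs P, ∀ x τ, Jac e τ → Over x τ → x ∈ W := fun e he x τ a b ↦ by
    obtain ⟨t, -, ht⟩ := hG.uniq e _ τ a (hε x τ b a.2.1).1
    exact ⟨⟨τ, b, a.2.1⟩, ht ▸ z0_cone hc (zs_sub P he) t⟩
  have ho0 : Over (fun m ↦ kk m τ0 / kk 0 τ0) τ0 := ⟨hJ0.1, hJ0.2.1 0 (by decide), fun _ ↦ rfl⟩
  generalize (fun m ↦ kk m τ0 / kk 0 τ0) = x0 at ho0
  have e00 : ∀ x τ, Over x τ → Gen τ → Er ε x 0 ≠ 0 := fun x τ a b h ↦ by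
    have := (hε x τ a b).2 0 4 (by decide)
    simp only [rt, Matrix.cons_val, h, sub_zero] at this
    refine pow_ne_zero 4 (Finset.prod_ne_zero_iff.2 fun p hp ↦ ?_) (this.symm.trans (by ring))
    rw [a.2.2]
    exact div_ne_zero (b _ (ev_S _ _ (Finset.mem_filter.1 hp).2.1.ne)) a.2.1
  have one : ∀ x τ, Over x τ → x 0 = 1 := fun x τ a ↦ by rw [a.2.2, div_self a.2.1]
  have : Algebra.IsAlgebraic ℚ Qb := algebraicClosure.isAlgebraic ℚ ℂ
  have hd0 : ringKrullDim (MvPolynomial (Fin 4) ℚ ⧸ P.comap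
      (algebraMap (MvPolynomial (Fin 4) ℚ) (MvPolynomial (Fin 4) Qb))) = 2 := by
    rw [← hd]
    exact (helper6.krullDim_eq_of_isIntegral (S := MvPolynomial (Fin 4) Qb ⧸ P)
      Ideal.algebraMap_quotient_injective).symm
  have key : ∀ Q ∈ (MvPolynomial.vanishingIdeal ℚ W).minimalPrimes, (Cv Q).Finite ∨
      (Crv Q ∧ NT Q ∧ ∃ x ∈ Cv Q, ∃ τ, Over x τ ∧ EndZ τ) := by
    intro Q hQ
    have := hQ.1.1
    have hJ : ∀ f ∈ MvPolynomial.vanishingIdeal ℚ W, Ideal.Quotient.mkₐ ℚ Q f = 0 :=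
      fun f hf ↦ Ideal.Quotient.eq_zero_iff_mem.2 (hQ.1.2 hf)
    have nz : ∀ g : MvPolynomial Ch ℚ, (∀ x ∈ W, MvPolynomial.aeval x g ≠ 0) →
        Ideal.Quotient.mkₐ ℚ Q g ≠ 0 := fun g hg h ↦ by
      obtain ⟨y, h1, h2⟩ := Ideal.exists_mul_mem_of_mem_minimalPrimes hQ
        (Ideal.Quotient.eq_zero_iff_mem.1 h)
      refine h1 fun x hx ↦ ?_
      have := h2 x hx
      rw [map_mul] at this
      exact (mul_eq_zero.1 this).resolve_left (hg x hx)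
    have k1 : ∀ m, C (Ideal.Quotient.mkₐ ℚ Q (MvPolynomial.X m)) ^ 8 *
        cn (Ideal.Quotient.mkₐ ℚ Q) (Er ε MvPolynomial.X) (D 0) =
        cn (Ideal.Quotient.mkₐ ℚ Q) (Er ε MvPolynomial.X) (D m) := fun m ↦ by
      have := pts hJ (C (MvPolynomial.X m) ^ 8 * cn (AlgHom.id ℚ _) (Er ε MvPolynomial.X) (D 0) -
        cn (AlgHom.id ℚ _) (Er ε MvPolynomial.X) (D m)) (by
          rintro x ⟨⟨τ, a, b⟩, -⟩ t
          rw [eval₂_sub, eval₂_mul, eval₂_pow, eval₂_C, cn_eval, cn_eval, er_aeval, hD _ x τ a b,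
            hD _ x τ a b, one x τ a]
          simp)
      rw [Polynomial.map_sub, Polynomial.map_mul, Polynomial.map_pow, map_C, cn_map, cn_map] at this
      exact sub_eq_zero.1 this
    have k2 : cn (Ideal.Quotient.mkₐ ℚ Q) (Er ε MvPolynomial.X) (D 0) ≠ 0 := by
      have := pts hJ (cn (AlgHom.id ℚ _) (Er ε MvPolynomial.X) (D 0) -
        X ^ 8 * C (chi MvPolynomial.X) ^ 4) (by
          rintro x ⟨⟨τ, a, b⟩, -⟩ t
          rw [eval₂_sub, eval₂_mul, eval₂_pow, eval₂_pow, eval₂_C, eval₂_X, cn_eval, er_aeval,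
            hD _ x τ a b, one x τ a, ← chi_aeval]
          simp)
      rw [Polynomial.map_sub, Polynomial.map_mul, Polynomial.map_pow, Polynomial.map_pow, map_C,
        map_X, cn_map] at this
      rw [sub_eq_zero.1 this]
      refine mul_ne_zero (pow_ne_zero _ X_ne_zero) (pow_ne_zero _ (C_ne_zero.2 (nz _ ?_)))
      rintro x ⟨⟨τ, a, b⟩, -⟩
      rw [chi_aeval]
      exact TOR2.chi_ne a b
    have k3 : ∀ f ∈ P.comap (algebraMap (MvPolynomial (Fin 4) ℚ) (MvPolynomial (Fin 4) Qb)),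
        cn (Ideal.Quotient.mkₐ ℚ Q) (Er ε MvPolynomial.X) f = 0 := fun f hf ↦ by
      rw [← cn_map]
      refine pts hJ _ fun x hx t ↦ ?_
      rw [cn_eval, er_aeval]
      exact z0_cone hc hx.2 t f hf
    refine (dims (Ideal.Quotient.mkₐ_surjective ℚ Q) (nz _ ?_) k2 k1 hd0 k3).imp fin0 ?_
    · rintro x ⟨⟨τ, a, b⟩, -⟩
      rw [congrFun (er_aeval ε x) 0]
      exact e00 x τ a b
    rintro ⟨k4, k5⟩
    refine ⟨⟨this, k4⟩, nt_of hG hc hn fun x hx τ a b ↦ ⟨Er ε x, fun f hf ↦ ?_, (hε x τ a b).1⟩, ?_⟩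
    · rw [← er_aeval, ← MvPolynomial.comp_aeval_apply]
      refine hx _ (hQ.1.2 fun y hy ↦ ?_)
      rw [MvPolynomial.comp_aeval_apply, er_aeval]
      exact hy.2 f hf
    have g0 := hJ0.2.1
    have c0 := TOR2.chi_ne ho0 g0
    have d0 := fun m ↦ hD m x0 τ0 ho0 g0 1
    simp only [one_smul, one_pow, one_mul] at d0
    obtain ⟨x, h1, h2, h3⟩ := lift k1 (e := Er ε x0)
      (fun f hf ↦ (mW e0 he0 x0 τ0 hJ0 ho0).2 f (k5 f hf))
      (by rw [d0, one x0 τ0 ho0]; simpa using c0)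
    have hx : x ∈ Cv Q := fun f hf ↦ h1 f (Ideal.Quotient.eq_zero_iff_mem.2 hf)
    have h4 : ∀ m, Ev m → x m ≠ 0 := fun m hm h ↦ by
      have := h2 m
      rw [h, d0 m, ho0.2.2 m] at this
      exact mul_ne_zero (pow_ne_zero 8 (div_ne_zero (g0 m hm) ho0.2.1)) (pow_ne_zero 4 c0)
        (this.symm.trans (by ring))
    obtain ⟨τ, hτ⟩ := hEQ x (fun f hf ↦ hx f (hQ.1.2 fun y ⟨⟨τ, a, _⟩, _⟩ ↦ hf y τ a)) h4
    have g1 := MALG.gen_of hτ h4
    have h5 : Er ε x = (Er ε x 0 / Er ε x0 0) • Er ε x0 := by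
      funext a
      have := h3 a 0
      rw [congrFun (er_aeval ε x) a, congrFun (er_aeval ε x) 0] at this
      rw [Pi.smul_apply, smul_eq_mul, div_mul_eq_mul_div, eq_div_iff (e00 x0 τ0 ho0 g0), this]
    have j1 := (hε x τ hτ g1).1
    rw [h5] at j1
    obtain ⟨g, a1, -⟩ := hT _ τ0 τ (hε x0 τ0 ho0 g0).1
      (jac_smul (div_ne_zero (e00 x τ hτ g1) (e00 x0 τ0 ho0 g0)) j1)
    exact ⟨x, hx, τ, hτ, st_ENC.map τ0 τ g a1 hE0⟩
  have fin := Ideal.finite_minimalPrimes_of_isNoetherianRing _ (MvPolynomial.vanishingIdeal ℚ W)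
  refine ⟨fin.toFinset.filter fun Q ↦ ¬ (Cv Q).Finite,
    ((fin.inter_of_left {Q | (Cv Q).Finite}).biUnion fun Q hQ ↦ hQ.2).toFinset, fun Q hQ ↦ ?_,
    fun e he x τ a b ↦ ?_⟩
  · rw [Finset.mem_filter, Set.Finite.mem_toFinset] at hQ
    exact (key Q hQ.1).resolve_left hQ.2
  · have := RingHom.ker_isPrime (MvPolynomial.aeval x : MvPolynomial Ch ℚ →ₐ[ℚ] ℂ)
    obtain ⟨Q, h1, h2⟩ := Ideal.exists_minimalPrimes_le (I := MvPolynomial.vanishingIdeal ℚ W)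
      (J := RingHom.ker (MvPolynomial.aeval x : MvPolynomial Ch ℚ →ₐ[ℚ] ℂ))
      fun f hf ↦ hf x (mW e he x τ a b)
    by_cases h : (Cv Q).Finite
    · exact Or.inl ((Set.Finite.mem_toFinset _).2
        (Set.mem_biUnion (t := Cv) ⟨h1, h⟩ fun f hf ↦ h2 hf))
    · exact Or.inr ⟨Q, Finset.mem_filter.2 ⟨fin.mem_toFinset.2 h1, h⟩, fun f hf ↦ h2 hf⟩

end Pool.Agent.Lib.ECM.QM
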