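import Pool.Agent.Lib.QM.QBlue
import Pool.Agent.Lib.ECM.TH_All
import Pool.Agent.Lib.ECM.M_FIN

/-! Block QFIN: comparison of the lower and the upper bounds for Galois orbits. -/

namespace Pool.Agent.Lib.ECM.QM

open Pool.Agent.Lib.ZP3 (Deg Sm)

namespace QFIN

/-- one of two independent symmetric endomorphisms moves the tangent at infinity -/
theorem ex_ent (hS : St_SL) {τ : T3} (hτ : τ ∈ H2) (hg : Gen τ) {N : ℕ} (h : Two τ N) :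
    ∃ M D, ∃ a : M2, Sy τ M D ∧ D ≤ N ∧ Ent τ M a ∧ a 0 1 ≠ 0 := by
  obtain ⟨M₁, M₂, D₁, D₂, s1, s2, d1, d2, hne⟩ := h
  have k0 : kk 0 τ ≠ 0 := hg 0 (by decide)
  obtain ⟨hi, hs⟩ := th_GAUGE.ind τ hτ hg
  obtain ⟨u, hu⟩ := hs (kk 0 τ, 0)
  obtain ⟨w, hw⟩ := hs (0, kk 0 τ)
  obtain ⟨u1, u2⟩ := Prod.ext_iff.1 hu
  obtain ⟨w1, w2⟩ := Prod.ext_iff.1 hw
  have lin : ∀ (h : Ch) (a b : ℂ) (p q : V2),
      ll h τ (a • p + b • q) = a * ll h τ p + b * ll h τ q := fun h a b p q ↦ by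
    simp only [ll, dth, map_add, map_smul, smul_eq_mul]
  simp only at u1 u2 w1 w2
  have dec : ∀ v, v = lv τ v hA • u + lv τ v hB • w := fun v ↦ hi (by
    simp only [lin, u1, u2, w1, w2, lv, mul_zero, add_zero, zero_add, div_mul_cancel₀ _ k0])
  have ent : ∀ M : V2 →ₗ[ℂ] V2, Ent τ M
      !![lv τ (M u) hA, lv τ (M w) hA; lv τ (M u) hB, lv τ (M w) hB] := fun M v ↦ by
    have e : M v = lv τ v hA • M u + lv τ v hB • M w := by
      rw [← map_smul, ← map_smul, ← map_add, ← dec]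
    have e2 : ∀ h, lv τ (M v) h = lv τ (M u) h * lv τ v hA + lv τ (M w) h * lv τ v hB :=
      fun h ↦ by
        rw [e, lv, lin, lv, lv, lv, lv]
        ring
    funext i
    fin_cases i <;> simp [Matrix.mulVec, dotProduct, Fin.sum_univ_two, e2]
  have w0 : w ≠ 0 := fun h ↦ k0 (by rw [← w2, h, ll, dth, map_zero])
  by_cases h1 : lv τ (M₁ w) hA = 0
  · refine ⟨M₂, D₂, _, s2, d2, ent M₂, fun h2 ↦ ?_⟩
    have h3 : lv τ (M₂ w) hA = 0 := h2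
    refine hS.move τ hτ M₁ M₂ D₁ D₂ s1 s2 hne w w0 (lv τ (M₁ w) hB) (lv τ (M₂ w) hB) ?_ ?_
    · have := dec (M₁ w)
      rwa [h1, zero_smul, zero_add] at this
    · have := dec (M₂ w)
      rwa [h3, zero_smul, zero_add] at this
  · exact ⟨M₁, D₁, _, s1, d1, ent M₁, h1⟩

end QFIN

open MFIN QFIN in
theorem st_QFIN (hAT : St_ATLAS) (hHT : St_HTQ) (hPT : St_PTQ) (hCNT : St_CNTQ) (hMARK : St_MARK)
    (hNOR : St_NOR) (hA : St_ALGM) (hS : St_SL) : St_QFIN := by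
  classical
  intro P hPl hMod hGen hDen hNT
  obtain ⟨C1, hC1, H1⟩ := hHT P hNT
  obtain ⟨κ, H2'⟩ := hPT
  obtain ⟨K, hK⟩ : ∃ K : ℝ, K = 3 + C1 := ⟨_, rfl⟩
  obtain ⟨c2, hc2, H5⟩ := boot κ (K := K) (by linarith)
  obtain ⟨c3, hc3⟩ : ∃ c3 : ℝ, c3 = 1 + C1 * (1 + c2) := ⟨_, rfl⟩
  have p4 : 1 ≤ c3 := by
    have : 0 ≤ C1 * (1 + c2) := by positivity
    linarith
  obtain ⟨k, hk⟩ : ∃ k : ℕ, k = 16 * κ + 16 := ⟨_, rfl⟩
  have hk0 : (0 : ℝ) < k := by rw [hk]; positivity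
  obtain ⟨c4, hc4⟩ : ∃ c4 : ℝ, c4 = 2 + 64 * c3 + c2 := ⟨_, rfl⟩
  have p5 : 2 ≤ c4 := by linarith
  obtain ⟨C5, hC5, H6⟩ := hCNT P (hAT P hPl hMod hGen) hDen (1 / k) (by positivity)
  obtain ⟨T0, hT0⟩ : ∃ T0 : ℝ, T0 = 1 + 2 * (C5 * (64 * c3) * c4 ^ (1 / k : ℝ)) := ⟨_, rfl⟩
  refine (Set.Finite.pi' fun _ : Ch ↦ hNOR ⌈T0 ^ 4⌉₊ (c3 * T0)).subset ?_
  rintro x ⟨hx, hg, τ, N0, hτ, hN0⟩
  obtain ⟨d, hd0, hd, HM⟩ := hMARK x hg.1
  have hex : ∃ N, Two τ N := ⟨N0, hN0⟩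
  obtain ⟨N, hN, hmin⟩ : ∃ N, Two τ N ∧ ∀ N', Two τ N' → N ≤ N' :=
    ⟨Nat.find hex, Nat.find_spec hex, fun _ h ↦ Nat.find_min' hex h⟩
  obtain ⟨M, D, a, s1, s2, s3, s4⟩ := ex_ent hS hτ.1 (gen_of hg hτ) hN
  have D1 : (1 : ℝ) ≤ D := by exact_mod_cast s1.pos
  have DN : (D : ℝ) ≤ N := by exact_mod_cast s2
  have hB1 : (1 : ℝ) ≤ N := D1.trans DN
  have hL := Real.log_nonneg hB1
  have hh : ∀ m, h1 (x m) ≤ C1 * (1 + Real.log N) := fun m ↦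
    (H1 x hx τ M D a hg hτ s1 s3 s4 m).trans (by gcongr)
  obtain ⟨t, ht0, ht⟩ : ∃ t : ℝ, 0 ≤ t ∧ t ^ 4 = d :=
    ⟨(d : ℝ) ^ ((4 : ℕ) : ℝ)⁻¹, by positivity,
      Real.rpow_inv_natCast_pow (by positivity) (by norm_num)⟩
  have hd1 : (1 : ℝ) ≤ d := by exact_mod_cast hd0
  have ht1 : 1 ≤ t := by
    by_contra h
    have := pow_lt_one₀ ht0 (not_le.1 h) (show 4 ≠ 0 by norm_num)
    linarith
  have t4 : t ^ 4 ≤ t ^ 16 := pow_le_pow_right₀ ht1 (by norm_num)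
  have t1 : 1 ≤ t ^ 16 := one_le_pow₀ ht1
  obtain ⟨A, hA1, hA2⟩ : ∃ A : ℕ, (K - 1) * (t ^ 16 + Real.log N) ≤ A ∧
      (A : ℝ) ≤ K * (t ^ 16 + Real.log N) := by
    refine ⟨_, Nat.le_ceil _,
      (Nat.ceil_lt_add_one (mul_nonneg (by linarith) (by linarith))).le.trans ?_⟩
    linarith
  have hKA : ∀ a : ℝ, 0 ≤ a → a ≤ K - 1 → a * (t ^ 16 + Real.log N) ≤ A := fun a _ h ↦
    le_trans (by gcongr) hA1
  have hP := H2' x τ N A hg hτ hN hmin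
    (by have := hKA 2 (by norm_num) (by linarith)
        exact_mod_cast (show (2 : ℝ) ≤ A by linarith))
    (by have := hKA 1 (by norm_num) (by linarith)
        linarith)
    (by
      obtain ⟨E, e1, e2⟩ := hd
      have := hKA 1 (by norm_num) (by linarith)
      exact ⟨E, e1.trans (by exact_mod_cast (show (d : ℝ) ≤ A by linarith)), e2⟩)
    (fun m ↦ (hh m).trans (le_trans (by gcongr) (hKA C1 hC1 (by linarith))))
  have hP' : (N : ℝ) ≤ (A : ℝ) ^ κ := by exact_mod_cast hP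
  obtain ⟨b1, b2⟩ := H5 t N ht1 hB1 (hP'.trans (by gcongr))
  have hx1 : ∀ m, h1 (x m) ≤ c3 * t := fun m ↦ by
    refine (hh m).trans ?_
    rw [hc3, add_mul, mul_assoc]
    have : C1 * (1 + Real.log N) ≤ C1 * ((1 + c2) * t) := by
      gcongr
      nlinarith
    linarith
  obtain ⟨S, hS1, hS2⟩ := HM (c3 * t) (by positivity) hx1
  have tk : ∀ n, n ≤ k → t ^ n ≤ t ^ k := fun n hn ↦ pow_le_pow_right₀ ht1 hn
  have hM : ∀ a : ℝ, 0 ≤ a → a ≤ c4 → ∀ n, n ≤ k → a * t ^ n ≤ c4 * t ^ k := fun a _ h n hn ↦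
    mul_le_mul h (tk n hn) (by positivity) (by linarith)
  have hcount := H6 (c4 * t ^ k) (64 * (c3 * t)) N S
    (by simpa using hM 2 (by norm_num) p5 0 (by omega)) (by nlinarith)
    (by have := hM (64 * c3) (by positivity) (by linarith) 1 (by omega)
        linarith)
    (b1.trans (hM c2 (by linarith) (by linarith) _ (by omega)))
    (fun y hy ↦ by
      obtain ⟨⟨σ, rfl⟩, h2⟩ := hS2 y hy
      obtain ⟨τy, q1, -⟩ := hg.2 σ
      exact ⟨cv_conj hx σ, fun m _ ↦ h2 m, τy, q1, (hA.two σ x τ τy N hg hτ q1).1 hN⟩)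
  have e : (c4 * t ^ k) ^ (1 / k : ℝ) = c4 ^ (1 / k : ℝ) * t := by
    rw [Real.mul_rpow (by linarith) (by positivity), one_div,
      Real.pow_rpow_inv_natCast ht0 (by omega)]
  have htT : t ≤ T0 := by
    have h1 : (d : ℝ) ≤ 2 * S.card := by exact_mod_cast hS1
    have h2 : t ^ 4 ≤ (T0 - 1) * t ^ 2 := by
      rw [e] at hcount
      rw [ht, hT0]
      nlinarith
    have h3 : t ^ 2 * t ^ 2 ≤ (T0 - 1) * t ^ 2 := by linarith [show t ^ 4 = t ^ 2 * t ^ 2 by ring]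
    have h4 := le_of_mul_le_mul_right h3 (by positivity)
    nlinarith
  intro m
  refine ⟨hg.1 m, ?_, (hx1 m).trans (by gcongr)⟩
  obtain ⟨E, e1, e2⟩ := hd
  refine ⟨E.image fun y ↦ y m, Finset.card_image_le.trans (e1.trans ?_),
    fun σ ↦ Finset.mem_image.2 ⟨_, e2 σ, rfl⟩⟩
  have : (d : ℝ) ≤ ⌈T0 ^ 4⌉₊ := le_trans (by rw [← ht]; gcongr) (Nat.le_ceil _)
  exact_mod_cast this

end Pool.Agent.Lib.ECM.QM
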