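import Pool.Agent.Lib.QM.QBlue
import Pool.Agent.Lib.ECM.B_HTAB
import Pool.Agent.Lib.ECM.B_LG
import Pool.Agent.Lib.ECM.M_CONJ

/-! The height of the matrix of a symmetric endomorphism. -/

open Filter Topology
open scoped Real

namespace Pool.Agent.Lib.ECM.QM

open T42

namespace HTM

theorem ht_idem {ι : Type} [Fintype ι] {x : ι → ℂ} (hx : AlgT x) (h : ∀ i, x i ^ 2 = x i) :
    ht x = 0 := by
  have := ht_pow 2 hx
  simp only [h] at this
  push_cast at this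
  linarith

theorem h1_zero : h1 0 = 0 :=
  ht_idem (T80.algT_one isAlgebraic_zero) fun i ↦ by fin_cases i <;> simp

theorem h1_mul {a b : ℂ} (ha : IsAlgebraic ℚ a) (hb : IsAlgebraic ℚ b) :
    h1 (a * b) ≤ h1 a + h1 b := by
  have h := ht_segre (T80.algT_one ha) (T80.algT_one hb) (T80.one_ne a) (T80.one_ne b)
  have h2 := ht_comp (x := fun p : Fin 2 × Fin 2 ↦ ![1, a] p.1 * ![1, b] p.2)
    (fun i : Fin 2 ↦ (i, i)) fun p ↦ (T80.algT_one ha _).mul (T80.algT_one hb _)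
  rw [h] at h2
  refine le_trans (le_of_eq (congrArg ht ?_)) h2
  ext i
  fin_cases i <;> simp

theorem h1_inv {a : ℂ} (ha : IsAlgebraic ℚ a) (h0 : a ≠ 0) : h1 a⁻¹ ≤ h1 a := by
  have h := ht_smul (T80.algT_one ha.inv) ha h0
  have h2 := ht_comp (x := ![1, a]) (![1, 0] : Fin 2 → Fin 2) (T80.algT_one ha)
  refine h.symm.le.trans (le_trans (le_of_eq (congrArg ht ?_)) h2)
  ext i
  fin_cases i <;> simp [h0]

theorem h1_sub : ∃ C : ℝ, 0 ≤ C ∧ ∀ a b : ℂ, IsAlgebraic ℚ a → IsAlgebraic ℚ b →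
    h1 (a - b) ≤ h1 a + h1 b + C := by
  obtain ⟨C, hC⟩ := T80.lin (ι := Fin 2 × Fin 2) (κ := Fin 2)
    fun j p ↦ !![1, 0, 0, 0; 0, -1, 1, 0] j (finProdFinEquiv p)
  refine ⟨|C|, abs_nonneg _, fun a b ha hb ↦ ?_⟩
  have h := ht_segre (T80.algT_one ha) (T80.algT_one hb) (T80.one_ne a) (T80.one_ne b)
  have h2 := hC (fun p : Fin 2 × Fin 2 ↦ ![1, a] p.1 * ![1, b] p.2)
    fun p ↦ (T80.algT_one ha _).mul (T80.algT_one hb _)
  rw [h] at h2
  refine le_trans (le_of_eq (congrArg ht ?_)) (h2.trans (add_le_add_right (le_abs_self C) _))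
  ext i
  fin_cases i <;> simp [Fintype.sum_prod_type, Fin.sum_univ_two, finProdFinEquiv]
  ring

theorem h1_nat {D : ℕ} (hD : 0 < D) : h1 (D : ℂ) ≤ Real.log D := by
  have h1' : (1 : ℝ) ≤ D := by exact_mod_cast hD
  have h := st_HT2 (Fin 2) Unit ![1, (D : ℂ)] (fun _ ↦ 1) D
    (T80.algT_one (isAlgebraic_natCast D)) (fun _ ↦ isAlgebraic_one) h1'
    (fun σ i ↦ ⟨(), by fin_cases i <;> simp [h1']⟩)
    (fun V i ↦ ⟨(), by
      fin_cases i
      · simp
      · simp⟩)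
  rwa [ht_idem (x := fun _ : Unit ↦ (1 : ℂ)) (fun _ ↦ isAlgebraic_one) (by simp), zero_add] at h

theorem prod_ext {α : Type} [Fintype α] [DecidableEq α] {R : Type} [CommMonoid R] {x : Ch → R}
    (x0 : x 0 = 1) (s : Finset α) (g : α → Ch) :
    ∏ p ∈ s, x (g p) = ∏ p, x (if p ∈ s then g p else 0) := by
  rw [← Finset.prod_subset (Finset.subset_univ s) fun p _ hp ↦ by simp [hp, x0]]
  exact Finset.prod_congr rfl fun p hp ↦ by simp [hp]

theorem mu_mon (p q : Fin 5) : ∃ f : Fin 5 × Fin 5 → Ch, ∀ x : Ch → ℂ, x 0 = 1 →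
    mu x p q = ∏ r, x (f r) := ⟨_, fun _ x0 ↦ prod_ext x0 _ _⟩

theorem ht_mon {α : Type} [Fintype α] [DecidableEq α] {x : Ch → ℂ} (hx : AlgT x) (xn : x ≠ 0) :
    ht (fun f : α → Ch ↦ ∏ p, x (f p)) = Fintype.card α * ht x := by
  rw [ht_pi (x := fun _ : α ↦ x) (fun _ ↦ hx) fun _ ↦ xn]
  simp

theorem nu_ne {x : Ch → ℂ} (hg : Good x) : nu x 0 ≠ 0 :=
  Finset.prod_ne_zero_iff.2 fun j hj ↦ good_ne hg _ (by revert j; decide)

theorem h1_nu {x : Ch → ℂ} (hx : AlgT x) (x0 : x 0 = 1) : h1 (nu x 0) ≤ 5 * ht x := by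
  have xn : x ≠ 0 := fun e ↦ by simp [e] at x0
  have h := ht_comp (x := fun f : Fin 5 → Ch ↦ ∏ p, x (f p))
    ![0, fun p ↦ if p ∈ Finset.univ.erase (0 : Fin 5) then S 0 p else 0]
    fun f ↦ T80.alg_prod _ fun p ↦ hx _
  rw [ht_mon hx xn] at h
  refine le_trans (le_of_eq (congrArg ht ?_)) (by simpa using h)
  ext i
  fin_cases i
  · simp [x0]
  · simpa [nu] using prod_ext x0 (Finset.univ.erase (0 : Fin 5)) (S 0)

/-- the entries of the second column, read on the tangent vector -/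
theorem col2 {x τ M U} {a : M2} (hT : Tg x τ U) (hE : Ent τ M a) (i : Fin 2) :
    lv τ (M U) (![hA, hB] i) = a i 1 * nu x 0 ∨ lv τ (M U) (![hA, hB] i) = -(a i 1 * nu x 0) := by
  have h := congrFun (hE U) i
  have h2 : lv τ (M U) (![hA, hB] i) = a i 1 * lv τ U hB := by
    fin_cases i <;> simpa [Matrix.mulVec, dotProduct, Fin.sum_univ_two, hT.1] using h
  rw [h2]
  rcases sq_eq_sq_iff_eq_or_eq_neg.1 (hT.2 0) with e | e
  · exact Or.inl (congrArg _ e)
  · exact Or.inr ((congrArg _ e).trans (mul_neg _ _))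

theorem rels {x τ M D U} {a : M2} (hg : Good x) (hT : Tg x τ U) (hS : Sy τ M D) (hE : Ent τ M a)
    (h0 : a 0 1 ≠ 0) : a 0 0 = 0 - a 1 1 ∧ a 1 0 = (D - a 1 1 * a 1 1) * (a 0 1)⁻¹ := by
  have hw : lv τ U hB ≠ 0 := fun e ↦ nu_ne hg (by
    have : lv τ U hB ^ 2 = nu x 0 ^ 2 := hT.2 0
    rw [e] at this
    simpa using this.symm)
  have sm : ∀ h, lv τ ((D : ℂ) • U) h = D * lv τ U h := fun h ↦ by
    unfold lv ll dth
    rw [map_smul, smul_eq_mul, mul_div_assoc]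
  have h1 := hE (M U)
  rw [hS.sq, hE U, sm, sm, hT.1] at h1
  have e0 := congrFun h1 0
  have e1 := congrFun h1 1
  simp only [Matrix.mulVec, dotProduct, Fin.sum_univ_two, Matrix.cons_val_zero, Matrix.cons_val_one,
    mul_zero, zero_add] at e0 e1
  constructor
  · apply mul_right_cancel₀ (mul_ne_zero h0 hw)
    linear_combination -e0
  · field_simp
    apply mul_right_cancel₀ hw
    linear_combination -e1

end HTM

open HTM

theorem st_HTM (hF : St_FINQ) (hA' : St_ARCQ) (hC : St_CJM) (hM : St_ALGM) (hG : St_GEO) :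
    St_HTM := by
  obtain ⟨c, c1, hc⟩ := hA'
  obtain ⟨C, C0, hL⟩ := st_LG c 1 c1 one_pos
  obtain ⟨K, K0, hK⟩ := h1_sub
  refine ⟨100 + 3 * C + 4 * K, by positivity, fun x τ M D a hg ho hS hE h0 ↦ ?_⟩
  have hge := good_gen hg ho
  obtain ⟨U, hT⟩ := hG.tg x τ ho hge
  have al := hM.alg x τ M D a hg ho hS hE
  have x0 := over_zero ho
  have xn : x ≠ 0 := fun e ↦ by simp [e] at x0
  have an : IsAlgebraic ℚ (nu x 0) := T80.alg_prod _ fun p ↦ hg.1 _
  have B1 : (1 : ℝ) ≤ D := by exact_mod_cast hS.pos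
  have l0 := Real.log_nonneg B1
  have h3 := ht_le_sum hg.1
  have h4 := ht_nonneg x
  have am : AlgT fun f : Fin 5 × Fin 5 → Ch ↦ ∏ p, x (f p) :=
    fun f ↦ T80.alg_prod _ fun p ↦ hg.1 _
  have a2 : AlgT fun p : Ch × Ch ↦ x p.1 * x p.2 := fun p ↦ (hg.1 _).mul (hg.1 _)
  have key : ∀ i, h1 (a i 1) ≤ 33 * ht x + Real.log D / 2 + C := by
    intro i
    have h1' := hL _ _ ![1, a i 1 * nu x 0]
      (fun q : (Fin 5 × Fin 5 → Ch) × (Ch × Ch) ↦ (∏ p, x (q.1 p)) * (x q.2.1 * x q.2.2)) x 0 D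
      (T80.algT_one ((al i 1).mul an)) (fun q ↦ (am _).mul (a2 _)) hg.1 isAlgebraic_zero B1
      (good_ne hg) ?_ ?_
    · rw [ht_segre am a2 (fun e ↦ by simpa [x0] using congrFun e 0)
        (fun e ↦ by simpa [x0] using congrFun e (0, 0)), ht_segre hg.1 hg.1 xn xn,
        ht_mon hg.1 xn, h1_zero] at h1'
      change h1 _ ≤ _ at h1'
      have e : a i 1 = a i 1 * nu x 0 * (nu x 0)⁻¹ := by rw [mul_inv_cancel_right₀ (nu_ne hg)]
      have h5 := h1_mul ((al i 1).mul an) an.inv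
      rw [← e] at h5
      have h6 := h1_inv an (nu_ne hg)
      have h7 := h1_nu hg.1 x0
      simp only [Fintype.card_prod, Fintype.card_fin] at h1'
      push_cast at h1'
      linarith
    · refine fun V ↦ Fin.forall_fin_two.2 ⟨⟨(0, 0, 0), ?_⟩, ?_⟩
      · simp only [x0, mul_one, map_one, one_pow, Matrix.cons_val_zero, Pi.zero_apply,
          Finset.prod_const_one]
        exact (pow_le_one' ((V.valuation_le_one_iff _).2 (natCast_mem V 16)) _).trans
          (le_max_left _ _)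
      · obtain ⟨n, p, q, -, ha⟩ := hF x τ M D U ho hge hS hT V 0 (![hA, hB] i)
        obtain ⟨f, hf⟩ := mu_mon p q
        rw [x0, one_mul, hf x x0] at ha
        refine ⟨(f, n, n + (0 + ![hA, hB] i)), ?_⟩
        have e : V.valuation (16 * (a i 1 * nu x 0)) =
            V.valuation (16 * lv τ (M U) (![hA, hB] i)) := by
          rcases col2 hT hE i with e | e <;> rw [e]
          rw [mul_neg, Valuation.map_neg]
        simp only [Matrix.cons_val_one, Matrix.cons_val_zero, map_zero, zero_le_one, max_eq_left,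
          one_mul]
        rw [e]
        exact pow_le_pow_left' ha 12
    · refine fun σ ↦ Fin.forall_fin_two.2 ⟨⟨(0, 0, 0), 0, by decide, ?_⟩, ?_⟩
      · have := Real.log_nonneg (x := ‖fun n ↦ σ (x n)‖)
          (by simpa [x0] using norm_le_pi_norm (fun n ↦ σ (x n)) 0)
        simp only [x0, mul_one, map_one, one_pow, Matrix.cons_val_zero, norm_one, div_one,
          Pi.zero_apply, Finset.prod_const_one]
        exact one_le_mul_of_one_le_of_one_le (one_le_mul_of_one_le_of_one_le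
          (one_le_mul_of_one_le_of_one_le c1 (one_le_pow₀ B1)) (le_max_left _ _))
          (one_le_pow₀ (by linarith))
      · obtain ⟨σ', e⟩ := st_AUT.ext σ
        obtain ⟨τ', ho', hge'⟩ := hg.2 σ'
        obtain ⟨M', hS', hE'⟩ := hC σ' x τ τ' M D a ho hge ho' hS hE
        obtain ⟨U', hT'⟩ := hG.tg _ τ' ho' hge'
        obtain ⟨m, hm, ha⟩ := hc _ τ' M' D U' ho' hge' hS' hT'
        obtain ⟨n, p, q, -, ha⟩ := ha 0 (![hA, hB] i)
        obtain ⟨f, hf⟩ := mu_mon p q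
        rw [hf _ (by simp [x0])] at ha
        refine ⟨(f, n, n + (0 + ![hA, hB] i)), m, hm, ?_⟩
        have e1 : ‖lv τ' (M' U') (![hA, hB] i)‖ = ‖σ (a i 1 * nu x 0)‖ := by
          have : (a.map σ') i 1 * nu (fun m ↦ (σ' : ℂ →+* ℂ) (x m)) 0 = σ (a i 1 * nu x 0) := by
            rw [← e _ ((al i 1).mul an), map_mul]
            simp [nu]
          rcases col2 hT' hE' i with e2 | e2 <;> rw [e2, this]
          rw [norm_neg]
        simp only [RingHom.coe_coe, x0, map_one, one_mul, e1, e _ (hg.1 _)] at ha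
        simpa [map_prod] using ha
  obtain ⟨r0, r1⟩ := rels hg hT hS hE h0
  have k0 := key 0
  have k1 := key 1
  have b00 : h1 (a 0 0) ≤ h1 (a 1 1) + K := by
    have := hK 0 _ isAlgebraic_zero (al 1 1)
    rwa [← r0, h1_zero, zero_add] at this
  have b10 : h1 (a 1 0) ≤ Real.log D + 2 * h1 (a 1 1) + K + h1 (a 0 1) := by
    have u1 := h1_mul ((isAlgebraic_natCast D).sub ((al 1 1).mul (al 1 1))) (al 0 1).inv
    have u2 := hK _ _ (isAlgebraic_natCast D) ((al 1 1).mul (al 1 1))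
    have u3 := h1_mul (al 1 1) (al 1 1)
    have u4 := h1_inv (al 0 1) h0
    have u5 := h1_nat hS.pos
    rw [← r1] at u1
    linarith
  have fin : ∀ t : ℝ, t ≤ 99 * ht x + 3 * Real.log D + 3 * C + K →
      t ≤ (100 + 3 * C + 4 * K) * (1 + ∑ m, h1 (x m) + Real.log D) := fun t ht' ↦ by
    nlinarith [mul_nonneg C0 (add_nonneg l0 (h4.trans h3)),
      mul_nonneg K0 (add_nonneg l0 (h4.trans h3))]
  refine Fin.forall_fin_two.2 ⟨Fin.forall_fin_two.2 ⟨fin _ ?_, fin _ ?_⟩,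
    Fin.forall_fin_two.2 ⟨fin _ ?_, fin _ ?_⟩⟩ <;> linarith

end Pool.Agent.Lib.ECM.QM
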