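import Pool.Agent.Lib.QM.Q_KIT
import Pool.Agent.Lib.QM.Q_TOR2
import Pool.Agent.Lib.ECM.B_LG

/-! The height of a point of the curve with an endomorphism which moves the unstable direction. -/

open Filter Topology

namespace Pool.Agent.Lib.ECM.QM

namespace HTQ

open T42 KIT TOR2

theorem split_bool : ∀ b01 b02 b03 b04 b12 b13 b14 b23 b24 b34 : Bool,
    ((b01 || b02) && (b01 || b03) && (b01 || b04) && (b02 || b03) && (b02 || b04) && (b03 || b04) &&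
      (b01 || b12) && (b01 || b13) && (b01 || b14) && (b12 || b13) && (b12 || b14) && (b13 || b14) &&
      (b02 || b12) && (b02 || b23) && (b02 || b24) && (b12 || b23) && (b12 || b24) && (b23 || b24) &&
      (b03 || b13) && (b03 || b23) && (b03 || b34) && (b13 || b23) && (b13 || b34) && (b23 || b34) &&
      (b04 || b14) && (b04 || b24) && (b04 || b34) && (b14 || b24) && (b14 || b34) &&
      (b24 || b34)) = true →
    ((b01 && b23 && b24 && b34) || (b02 && b13 && b14 && b34) || (b03 && b12 && b14 && b24) ||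
      (b04 && b12 && b13 && b23) || (b12 && b03 && b04 && b34) || (b13 && b02 && b04 && b24) ||
      (b14 && b02 && b03 && b23) || (b23 && b01 && b04 && b14) || (b24 && b01 && b03 && b13) ||
      (b34 && b01 && b02 && b12)) = true := by decide +kernel

/-- a splitting of five points into two and three without close pairs -/
theorem split (f : Fin 5 → Fin 5 → Prop) (hs : ∀ i j, f i j → f j i)
    (h : ∀ i j l, i ≠ j → j ≠ l → i ≠ l → f i j ∨ f j l) :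
    ∃ i j, i ≠ j ∧ f i j ∧ ∀ a b, a ≠ b → a ≠ i → a ≠ j → b ≠ i → b ≠ j → f a b := by
  classical
  have h1 (i j l) (a : i ≠ j) (b : j ≠ l) (c : i ≠ l) : f j i ∨ f j l :=
    (h i j l a b c).imp_left (hs _ _)
  have h2 (i j l) (a : i ≠ j) (b : j ≠ l) (c : i ≠ l) : f i j ∨ f l j :=
    (h i j l a b c).imp_right (hs _ _)
  have k := split_bool (decide (f 0 1)) (decide (f 0 2)) (decide (f 0 3)) (decide (f 0 4))
    (decide (f 1 2)) (decide (f 1 3)) (decide (f 1 4)) (decide (f 2 3)) (decide (f 2 4))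
    (decide (f 3 4)) (by
      simp only [Bool.and_eq_true, Bool.or_eq_true, decide_eq_true_eq]
      refine ⟨⟨⟨⟨⟨⟨⟨⟨⟨⟨⟨⟨⟨⟨⟨⟨⟨⟨⟨⟨⟨⟨⟨⟨⟨⟨⟨⟨⟨?_, ?_⟩, ?_⟩, ?_⟩, ?_⟩, ?_⟩, ?_⟩, ?_⟩, ?_⟩, ?_⟩, ?_⟩, ?_⟩,
        ?_⟩, ?_⟩, ?_⟩, ?_⟩, ?_⟩, ?_⟩, ?_⟩, ?_⟩, ?_⟩, ?_⟩, ?_⟩, ?_⟩, ?_⟩, ?_⟩, ?_⟩, ?_⟩, ?_⟩, ?_⟩ <;>
      first
        | exact h1 _ _ _ (by decide) (by decide) (by decide)
        | exact h2 _ _ _ (by decide) (by decide) (by decide)
        | exact h _ _ _ (by decide) (by decide) (by decide))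
  have key (i j a b c : Fin 5) (e : i ≠ j ∧ ∀ p q : Fin 5, p ≠ q → p ≠ i → p ≠ j → q ≠ i → q ≠ j →
      (p = a ∧ q = b ∨ p = b ∧ q = a) ∨ (p = a ∧ q = c ∨ p = c ∧ q = a) ∨
        (p = b ∧ q = c ∨ p = c ∧ q = b)) (k : ((f i j ∧ f a b) ∧ f a c) ∧ f b c) :
      ∃ i j, i ≠ j ∧ f i j ∧ ∀ a b, a ≠ b → a ≠ i → a ≠ j → b ≠ i → b ≠ j → f a b := by
    refine ⟨i, j, e.1, k.1.1.1, fun p q a1 a2 a3 a4 a5 ↦ ?_⟩
    rcases e.2 p q a1 a2 a3 a4 a5 with (⟨rfl, rfl⟩ | ⟨rfl, rfl⟩) | (⟨rfl, rfl⟩ | ⟨rfl, rfl⟩) |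
      ⟨rfl, rfl⟩ | ⟨rfl, rfl⟩
    exacts [k.1.1.2, hs _ _ k.1.1.2, k.1.2, hs _ _ k.1.2, k.2, hs _ _ k.2]
  simp only [Bool.and_eq_true, Bool.or_eq_true, decide_eq_true_eq] at k
  rcases k with ((((((((k | k) | k) | k) | k) | k) | k) | k) | k) | k <;>
    exact key _ _ _ _ _ (by decide) k

/-- the monomial identity behind the sharp inequality -/
theorem den (i j : Fin 5) (h : i ≠ j) (n : Ch) (h1 : Ev n) (h2 : Ev (n + (S i j + hA))) :
    ∃ a b c : Fin 5, (a ≠ b ∧ a ≠ c ∧ a ≠ i ∧ a ≠ j ∧ b ≠ i ∧ b ≠ j ∧ c ≠ i ∧ c ≠ j) ∧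
      ∀ x : Ch → ℂ, x n * x (n + (S i j + hA)) * (mu x i j * mu x a b * mu x a c) =
        chi x * x (S i j) := by
  have k : ∀ i j : Fin 5, i ≠ j → ∀ n : Ch, Ev n → Ev (n + (S i j + hA)) → decide (∃ a b c : Fin 5,
      [a, b, c, i, j].Nodup ∧ {n, n + (S i j + hA)} + (idx i j + idx a b + idx a c) =
        (Finset.univ.filter Ev).val + {S i j}) = true := by
    decide +kernel
  obtain ⟨a, b, c, h3, h4⟩ := of_decide_eq_true (k i j h n h1 h2)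
  refine ⟨a, b, c, by simp at h3; tauto, fun x ↦ ?_⟩
  have := congrArg (fun s ↦ (s.map x).prod) h4
  simp only [Multiset.map_add, Multiset.prod_add, ← mu_idx] at this
  simpa [chi, Finset.prod, mul_assoc] using this

/-- the local inequality, for any multiplicative absolute value -/
theorem loc {Γ F : Type} [LinearOrderedCommGroupWithZero Γ] [FunLike F ℂ Γ]
    [MonoidWithZeroHomClass F ℂ Γ] (v : F) {x : Ch → ℂ}
    (ho : ∀ m, ¬ Ev m → x m = 0) (k : Γ)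
    (h : ∀ i j l a b : Fin 5, i ≠ j → j ≠ l → i ≠ l → a ≠ b →
      k * v (mu x a b) ≤ max (v (mu x i j)) (v (mu x j l))) :
    ∃ i j, i ≠ j ∧ ∀ n (p q r : {p : Fin 5 × Fin 5 // p.1 ≠ p.2}),
      k ^ 3 * (v (mu x p.1.1 p.1.2) * v (mu x q.1.1 q.1.2)) *
        v (mu x r.1.1 r.1.2 * (x n * x (n + (S i j + hA)))) ≤ v (chi x) * v (x (S i j)) := by
  obtain ⟨g, -, hg⟩ := (Finset.univ : Finset {p : Fin 5 × Fin 5 // p.1 ≠ p.2}).exists_max_image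
    (fun p ↦ v (mu x p.1.1 p.1.2)) ⟨⟨(0, 1), by decide⟩, Finset.mem_univ _⟩
  obtain ⟨i, j, hij, f1, f2⟩ := split (fun i j ↦ k * v (mu x g.1.1 g.1.2) ≤ v (mu x i j))
    (fun i j e ↦ by rwa [mu_swap x j i]) fun i j l a b c ↦ le_max_iff.1 (h i j l _ _ a b c g.2)
  refine ⟨i, j, hij, fun n p q r ↦ ?_⟩
  by_cases h1 : Ev n
  swap
  · simp [ho n h1]
  by_cases h2 : Ev (n + (S i j + hA))
  swap
  · simp [ho _ h2]
  obtain ⟨a, b, c, ⟨a1, a2, a3, a4, a5, a6, a7, a8⟩, e⟩ := den i j hij n h1 h2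
  rw [← map_mul v (chi x), ← e x]
  simp only [map_mul]
  calc _ = v (x n) * v (x (n + (S i j + hA))) * (k * v (mu x p.1.1 p.1.2) *
        (k * v (mu x q.1.1 q.1.2)) * (k * v (mu x r.1.1 r.1.2))) := by
        rw [pow_three]; ac_rfl
    _ ≤ _ := by
        have b1 := hg p (Finset.mem_univ _)
        have b2 := hg q (Finset.mem_univ _)
        have b3 := hg r (Finset.mem_univ _)
        exact mul_le_mul_right (mul_le_mul' (mul_le_mul' ((mul_le_mul_right b1 _).trans f1)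
          ((mul_le_mul_right b2 _).trans (f2 a b a1 a3 a4 a5 a6)))
          ((mul_le_mul_right b3 _).trans (f2 a c a2 a3 a4 a7 a8))) _

theorem loc_norm {x : Ch → ℂ} (ho : ∀ m, ¬ Ev m → x m = 0) {c : ℝ} (c0 : 0 < c)
    (h : ∀ i j l a b : Fin 5, i ≠ j → j ≠ l → i ≠ l → a ≠ b →
      ‖mu x a b‖ ≤ c * max ‖mu x i j‖ ‖mu x j l‖) :
    ∃ i j, i ≠ j ∧ ∀ n (p q r : {p : Fin 5 × Fin 5 // p.1 ≠ p.2}),
      ‖mu x p.1.1 p.1.2‖ * ‖mu x q.1.1 q.1.2‖ *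
        ‖mu x r.1.1 r.1.2 * (x n * x (n + (S i j + hA)))‖ ≤ c ^ 3 * (‖chi x‖ * ‖x (S i j)‖) := by
  lift c to NNReal using c0.le
  have c1 : 0 < c := by exact_mod_cast c0
  obtain ⟨i, j, hij, e⟩ := loc (Γ := NNReal) nnnormHom ho c⁻¹ fun i j l a b h1 h2 h3 h4 ↦ by
    rw [inv_mul_le_iff₀ c1]
    exact_mod_cast h i j l a b h1 h2 h3 h4
  refine ⟨i, j, hij, fun n p q r ↦ ?_⟩
  have := e n p q r
  rw [mul_assoc, inv_pow, inv_mul_le_iff₀ (pow_pos c1 3)] at this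
  exact_mod_cast this

abbrev Pr := {p : Fin 5 × Fin 5 // p.1 ≠ p.2}

/-- the tuple of the products -/
def mp (x : Ch → ℂ) (p : Pr) : ℂ := mu x p.1.1 p.1.2

theorem mp_ne {x : Ch → ℂ} (h : ∀ m, Ev m → x m ≠ 0) : mp x ≠ 0 := fun e ↦
  mu_ne h 0 1 (congrFun e ⟨(0, 1), by decide⟩)

theorem ht_one {c : ℂ} (h : IsAlgebraic ℚ c) : ht (fun _ : Unit ↦ c) ≤ 0 := by
  by_cases h0 : c = 0
  · rw [h0]; exact (ht_zero (ι := Unit)).le
  have := ht_pow (x := fun _ : Unit ↦ (1 : ℂ)) 0 fun _ ↦ isAlgebraic_one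
  have e := ht_smul (x := fun _ : Unit ↦ (1 : ℂ)) (fun _ ↦ isAlgebraic_one) h h0
  simp only [pow_zero, Nat.cast_zero, zero_mul, mul_one] at this e
  rw [e, this]

/-- the theta constants are controlled by the products -/
theorem ht_x {x : Ch → ℂ} (hx : AlgT x) (h : ∀ m, Ev m → x m ≠ 0) (ho : ∀ m, ¬ Ev m → x m = 0) :
    ht x ≤ 2 * ht (mp x) := by
  have am : AlgT (mp x) := fun p ↦ mu_alg hx _ _
  have e1 := ht_pi (α := Fin 4) (x := fun _ ↦ mp x) (fun _ ↦ am) fun _ ↦ mp_ne h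
  have e2 := ht_smul (x := fun m ↦ x m ^ 2) (fun m ↦ (hx m).pow 2) (chi_alg hx) (chi_ne h)
  have key (m) : chi x * x m ^ 2 = 0 ∨ ∃ f : Fin 4 → Pr, chi x * x m ^ 2 = ∏ a, mp x (f a) := by
    by_cases hm : Ev m
    · obtain ⟨a, b, hab, rfl⟩ := (ev_iff m).1 hm
      obtain ⟨c, d, e, h1, h2, h3, h4⟩ := mono a b hab.ne
      refine Or.inr ⟨![⟨(a, b), hab.ne⟩, ⟨(c, d), h1⟩, ⟨(c, e), h2⟩, ⟨(d, e), h3⟩], ?_⟩
      rw [mul_comm, h4, Fin.prod_univ_four]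
      rfl
    · simp [ho m hm]
  have e3 := ht_le (x := fun m ↦ chi x * x m ^ 2) (y := fun f : Fin 4 → Pr ↦ ∏ a, mp x (f a))
    (C := 1) (fun m ↦ (chi_alg hx).mul ((hx m).pow 2)) (fun f ↦ T80.alg_prod _ fun a ↦ am _) le_rfl
    (fun σ m ↦ by
      rcases key m with e | ⟨f, e⟩
      · exact ⟨fun _ ↦ ⟨(0, 1), by decide⟩, by simp [e]⟩
      · exact ⟨f, by rw [e, one_mul]⟩)
    (fun V m ↦ by
      rcases key m with e | ⟨f, e⟩
      · exact ⟨fun _ ↦ ⟨(0, 1), by decide⟩, by simp [e]⟩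
      · exact ⟨f, by rw [e]⟩)
  rw [e1, e2, ht_pow 2 hx] at e3
  simp at e3
  linarith

end HTQ

open T42 KIT HTQ in
theorem st_HTQ (hF : St_FINQ) (hA' : St_ARCQ) (hC : St_CJM) (hM : St_ALGM) (hG : St_GEO) :
    St_HTQ := by
  rintro P ⟨c, k, k0, hN⟩
  obtain ⟨c1, hc1, H⟩ := inf_places hA' hC hM hG
  have k1 : (1 : ℝ) ≤ k := by exact_mod_cast k0
  have m1 : 1 ≤ max 1 c := le_max_left _ _
  obtain ⟨C, C0, hC⟩ := st_LG (c1 * (k * max 1 c) ^ 36) (1 / 2)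
    (one_le_mul_of_one_le_of_one_le hc1 (one_le_pow₀ (one_le_mul_of_one_le_of_one_le k1 m1)))
    (by norm_num)
  refine ⟨2 * C + 1, by positivity, fun x hx τ M D a hg ho hS hE a0 m ↦ ?_⟩
  have hgen := good_gen hg ho
  have hne := good_ne hg
  have odd {y τ} (h : Over y τ) (m) (hm : ¬ Ev m) : y m = 0 := by
    rw [h.2.2, th_BAS.kk_odd m τ hm, zero_div]
  have D1 : (1 : ℝ) ≤ D := by exact_mod_cast hS.pos
  have aβ : IsAlgebraic ℚ ((k : ℂ) ^ 3 * (a 0 1 * nu x 0)) :=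
    ((isAlgebraic_natCast k).pow 3).mul ((hM.alg x τ M D a hg ho hS hE 0 1).mul (nu_alg hg.1 0))
  have β0 : (k : ℂ) ^ 3 * (a 0 1 * nu x 0) ≠ 0 :=
    mul_ne_zero (pow_ne_zero _ (Nat.cast_ne_zero.2 k0.ne')) (mul_ne_zero a0 (nu_ne hne 0))
  have am : AlgT (mp x) := fun p ↦ mu_alg hg.1 _ _
  have h1' := hC _ _ (fun p : Pr × Pr ↦ (k : ℂ) ^ 3 * (a 0 1 * nu x 0) * (mp x p.1 * mp x p.2))
    (fun _ : Unit ↦ chi x) x 0 D (fun p ↦ aβ.mul ((am _).mul (am _))) (fun _ ↦ chi_alg hg.1) hg.1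
    isAlgebraic_zero D1 hne ?_ ?_
  · rw [ht_smul (x := fun p : Pr × Pr ↦ mp x p.1 * mp x p.2) (fun p ↦ (am _).mul (am _)) aβ β0,
      ht_segre am am (mp_ne hne) (mp_ne hne)] at h1'
    have b1 := ht_one (chi_alg hg.1)
    have b2 := ht_x hg.1 hne (odd ho)
    have b3 : h1 0 ≤ 0 := by
      have := ht_le (x := ![1, 0]) (y := fun _ : Unit ↦ (1 : ℂ)) (C := 1)
        (T80.algT_one isAlgebraic_zero) (fun _ ↦ isAlgebraic_one) le_rfl
        (fun σ i ↦ ⟨(), by fin_cases i <;> simp⟩) fun V i ↦ ⟨(), by fin_cases i <;> simp⟩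
      have e := ht_one (isAlgebraic_one (R := ℚ) (A := ℂ))
      rw [Real.log_one] at this
      unfold h1
      linarith
    have b4 : h1 (x m) ≤ ht x := by
      have := ht_comp (x := x) ![0, m] hg.1
      rw [h1]
      convert this using 2
      ext i
      fin_cases i <;> simp [over_zero ho]
    have l0 := Real.log_nonneg D1
    nlinarith [mul_nonneg C0 l0]
  · rintro V ⟨p, q⟩
    obtain ⟨i, j, hij, e⟩ := loc V.valuation (odd ho) (V.valuation k)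
      fun i j l a b h1 h2 h3 h4 ↦ by
        simpa only [map_mul] using (hN x hx ⟨τ, ho, hgen⟩).2 V i j l a b h1 h2 h3 h4
    obtain ⟨n, r, s, hrs, e'⟩ := fin_places hF hG ho hgen hS hE V (S i j) 0
    refine ⟨(), le_trans (pow_le_pow_left' ?_ 12) (le_mul_of_one_le_left' (le_max_left _ _))⟩
    have p0 : 0 < V.valuation (x (S i j)) := by simpa [zero_lt_iff] using hne _ (ev_S i j hij)
    refine le_of_mul_le_mul_right (le_trans ?_ (e n p q ⟨(r, s), hrs⟩)) p0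
    refine le_trans (le_of_eq ?_) (mul_le_mul_right e' _)
    simp only [map_mul, map_pow, mp]
    ac_rfl
  · rintro σ ⟨p, q⟩
    obtain ⟨m, hm, h⟩ := H x τ M D a hg ho hS hE σ
    obtain ⟨τ', ho', hg'⟩ := hg.2 σ
    have hx' : (fun m ↦ σ (x m)) ∈ Cv P := fun f hf ↦ by
      have := congrArg σ.toRatAlgHom (hx f hf)
      rw [map_zero, ← AlgHom.comp_apply, MvPolynomial.comp_aeval] at this
      exact this
    have c0 : (0 : ℝ) < max 1 c := one_pos.trans_le m1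
    obtain ⟨i, j, hij, e⟩ := loc_norm (odd ho') c0 fun i j l a b h1 h2 h3 h4 ↦
      ((hN _ hx' ⟨τ', ho', hg'⟩).1 i j l a b h1 h2 h3 h4).trans
        (mul_le_mul_of_nonneg_right (le_max_right _ _) (le_max_of_le_left (norm_nonneg _)))
    obtain ⟨n, r, s, hrs, e'⟩ := h (S i j) 0
    refine ⟨(), m, hm, ?_⟩
    have e1 := e n p q ⟨(r, s), hrs⟩
    simp only [← mu_map, ← chi_map, ← map_mul] at e1
    have p0 : 0 < ‖σ (x (S i j))‖ := by simpa using hne _ (ev_S i j hij)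
    have e2 := pow_le_pow_left₀ (by positivity) e1 12
    have l0 : 0 ≤ (1 + Real.log (‖fun n ↦ σ (x n)‖ / ‖σ (x m)‖)) ^ 6 := by positivity
    refine le_of_mul_le_mul_right ?_ (pow_pos p0 12)
    have e3 := mul_le_mul_of_nonneg_left e' (show 0 ≤ ((k : ℝ) ^ 3 * (‖σ (mp x p)‖ * ‖σ (mp x q)‖)) ^ 12
      by positivity)
    have e4 := mul_le_mul_of_nonneg_left e2 (show 0 ≤ (k : ℝ) ^ 36 * (c1 * (D : ℝ) ^ 6 *
      (1 + Real.log (‖fun n ↦ σ (x n)‖ / ‖σ (x m)‖)) ^ 6) by positivity)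
    simp only [map_mul, norm_mul, map_pow, norm_pow, map_natCast, Complex.norm_natCast, mp, map_zero,
      norm_zero, Matrix.cons_val_zero, show max (1 : ℝ) 0 = 1 by simp] at e3 e4 ⊢
    refine le_trans (le_of_eq ?_) (e3.trans (le_trans (le_of_eq ?_) (e4.trans (le_of_eq ?_)))) <;>
      ring

end Pool.Agent.Lib.ECM.QM
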