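import Pool.Agent.Lib.QM.Q_KIT
import Pool.Agent.Lib.ECM.M_PTG
import Pool.Agent.Lib.ECM.B_HT4

/-! Block PTQ: the period theorem for two symmetric endomorphisms in terms of the base point. -/

noncomputable section

namespace Pool.Agent.Lib.ECM.QM

open Pool.Agent.Lib.ZP3 (Deg Sm)
open KIT MPTG

namespace PTQ

variable {x : Ch → ℂ} {τ : T3} {M M₁ M₂ : V2 →ₗ[ℂ] V2} {a a₁ a₂ : M2} {D D₁ D₂ N d : ℕ}

theorem ent_add (h₁ : Ent τ M₁ a₁) (h₂ : Ent τ M₂ a₂) : Ent τ (M₁ + M₂) (a₁ + a₂) := fun v ↦ by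
  rw [Matrix.add_mulVec, ← h₁ v, ← h₂ v]
  funext i
  fin_cases i <;> simp [lv_add]

theorem eig (ho : Over x τ) (hg : Gen τ) {u : V2} (hu : lv τ u hA = 0) (e : Ent τ M a)
    (h : a 0 1 = 0) : M u = a 1 1 • u := by
  obtain ⟨p, q⟩ := ent_iff.1 e u
  exact lv_inj ho hg (by rw [p, lv_smul, hu, h]; ring) (by rw [q, lv_smul, hu]; ring)

theorem ind_symm (s : Sy τ M₁ D₁) (h : ∀ c : ℂ, M₂ ≠ c • M₁) (c : ℂ) : M₁ ≠ c • M₂ := by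
  intro e
  have c0 : c ≠ 0 := by
    rintro rfl
    have := congrFun (s.sq ![1, 0]) 0
    rw [e] at this
    exact s.pos.ne' (by simpa using this.symm)
  exact h c⁻¹ (by rw [e, smul_smul, inv_mul_cancel₀ c0, one_smul])

/-- data for the period theorem -/
def Ok (τ : T3) (N d : ℕ) (M : V2 →ₗ[ℂ] V2) : Prop :=
  ∃ D a, Sy τ M D ∧ D ≤ 4 * N ∧ Ent τ M a ∧ a 0 1 ≠ 0 ∧ ∀ i j, Deg (a i j) (16 * d ^ 2)

theorem pair (hAL : St_ALGM) (hS : St_SL) (hx : Good x) (ho : Over x τ) (h : Two τ N)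
    (hm : ∀ N', Two τ N' → N ≤ N') (hd : DegT x d) :
    ∃ M₁ M₂, Ok τ N d M₁ ∧ Ok τ N d M₂ ∧ ∀ c : ℂ, M₂ ≠ c • M₁ := by
  have hg := gen_of_good hx ho
  have dg : ∀ {M D a}, Sy τ M D → D ≤ N → Ent τ M a → ∀ i j, Deg (a i j) (4 * d) :=
    fun s l e ↦ hAL.deg x τ _ _ _ d hx ho s (fun N' h' ↦ l.trans (hm N' h')) e hd
  have ok : ∀ {M D a}, Sy τ M D → D ≤ N → Ent τ M a → a 0 1 ≠ 0 → Ok τ N d M :=
    fun s l e n ↦ ⟨_, _, s, by omega, e, n, fun i j ↦ (dg s l e i j).mono (by nlinarith)⟩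
  have key : ∀ {M₁ M₂ D₁ D₂ a₁ a₂}, Sy τ M₁ D₁ → Sy τ M₂ D₂ → D₁ ≤ N → D₂ ≤ N →
      (∀ c : ℂ, M₂ ≠ c • M₁) → Ent τ M₁ a₁ → Ent τ M₂ a₂ → a₁ 0 1 ≠ 0 → a₂ 0 1 = 0 →
      ∃ M₁ M₂, Ok τ N d M₁ ∧ Ok τ N d M₂ ∧ ∀ c : ℂ, M₂ ≠ c • M₁ := by
    intro M₁ M₂ D₁ D₂ a₁ a₂ s₁ s₂ l₁ l₂ hi e₁ e₂ n₁ n₂
    have hj : ∀ c : ℂ, M₁ + M₂ ≠ c • M₁ := fun c hc ↦
      hi (c - 1) (by linear_combination (norm := module) hc)
    obtain ⟨D, l, s⟩ := hS.add τ ho.1 M₁ M₂ D₁ D₂ s₁ s₂ (by simpa using hj 0)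
    exact ⟨M₁, M₁ + M₂, ok s₁ l₁ e₁ n₁, ⟨D, _, s, by omega, ent_add e₁ e₂, by simpa [n₂] using n₁,
      fun i j ↦ ((dg s₁ l₁ e₁ i j).add (dg s₂ l₂ e₂ i j)).mono (le_of_eq (by ring))⟩, hj⟩
  obtain ⟨M₁, M₂, D₁, D₂, s₁, s₂, l₁, l₂, hi⟩ := h
  obtain ⟨a₁, e₁⟩ := ent_ex ho hg M₁
  obtain ⟨a₂, e₂⟩ := ent_ex ho hg M₂
  by_cases n₁ : a₁ 0 1 = 0 <;> by_cases n₂ : a₂ 0 1 = 0
  · obtain ⟨u, u1, u2⟩ := lv_surj ho hg ![0, 1]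
    have u0 : u ≠ 0 := by
      rintro rfl
      simp [lv, ll, dth] at u2
    exact absurd (eig ho hg u1 e₂ n₂)
      (hS.move τ ho.1 M₁ M₂ D₁ D₂ s₁ s₂ hi u u0 _ _ (eig ho hg u1 e₁ n₁))
  · exact key s₂ s₁ l₂ l₁ (ind_symm s₁ hi) e₂ e₁ n₂ n₁
  · exact key s₁ s₂ l₁ l₂ hi e₁ e₂ n₁ n₂
  · exact ⟨M₁, M₂, ok s₁ l₁ e₁ n₁, ok s₂ l₂ e₂ n₂, hi⟩

end PTQ

open PTQ in
theorem st_PTQ (hP : St_PT2) (hM : St_HTM) (hAL : St_ALGM) (hS : St_SL) : St_PTQ := by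
  obtain ⟨κ, hκ⟩ := hP
  obtain ⟨C, C0, hC⟩ := hM
  obtain ⟨C4, hC4⟩ := st_HT4.1
  obtain ⟨K, hK⟩ := exists_nat_ge (16 + 19 * C)
  have K1 : 16 ≤ K := by
    have : (16 : ℝ) ≤ K := by linarith
    exact_mod_cast this
  refine ⟨((C4 + 1) * K ^ 2 + 4) * κ, ?_⟩
  intro x τ N A hx ho h hm A2 lN hd hh
  obtain ⟨M₁, M₂, k₁, k₂, hi⟩ := pair hAL hS hx ho h hm hd
  have A1 : (2 : ℝ) ≤ A := by exact_mod_cast A2
  have sx : ∑ m, h1 (x m) ≤ 16 * A := by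
    refine (Finset.sum_le_sum fun m _ ↦ hh m).trans (le_of_eq ?_)
    simp [Ch]
  have AA : A * 2 ≤ A ^ 2 := by nlinarith
  have a1 : 16 * A ^ 2 ≤ K * A ^ 2 := Nat.mul_le_mul_right _ K1
  have sm : ∀ z d, IsAlgebraic ℚ z → Deg z d → d ≤ K * A ^ 2 → h1 z ≤ (K * A ^ 2 : ℕ) →
      Sm z ((C4 + 1) * (K * A ^ 2) ^ 2) := fun z d h1 h2 h3 h4 ↦
    sm_mono (hC4 z _ h1 (h2.mono h3) h4) (Nat.mul_le_mul_right _ (Nat.le_succ _))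
  have big : 3 + A ≤ (C4 + 1) * (K * A ^ 2) ^ 2 :=
    le_trans (show 3 + A ≤ K * A ^ 2 by omega) ((Nat.le_self_pow two_ne_zero _).trans
      (Nat.le_mul_of_pos_left _ (Nat.succ_pos _)))
  have ok : ∀ {M}, Ok τ N A M → ∃ D a, Sy τ M D ∧ Ent τ M a ∧
      Real.log D ≤ ((C4 + 1) * (K * A ^ 2) ^ 2 : ℕ) ∧
      ∀ i j, Sm (a i j) ((C4 + 1) * (K * A ^ 2) ^ 2) := by
    rintro M ⟨D, a, s, l, e, n, g⟩
    have D0 := s.pos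
    have lD : Real.log D ≤ 3 + A := by
      have u : Real.log D ≤ Real.log (4 * N) :=
        Real.log_le_log (by exact_mod_cast D0) (by exact_mod_cast l)
      rw [Real.log_mul (by norm_num) (by exact_mod_cast (show N ≠ 0 by omega))] at u
      have := Real.log_le_sub_one_of_pos (show (0 : ℝ) < 4 by norm_num)
      linarith
    refine ⟨D, a, s, e, lD.trans (by exact_mod_cast big), fun i j ↦
      sm _ _ (hAL.alg x τ M D a hx ho s e i j) (g i j) a1 ((hC x τ M D a hx ho s e n i j).trans ?_)⟩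
    have u1 := mul_le_mul_of_nonneg_left
      (show 1 + ∑ m, h1 (x m) + Real.log D ≤ 19 * A by linarith) C0
    have u2 := mul_le_mul_of_nonneg_right (show 19 * C ≤ K by linarith)
      (show (0 : ℝ) ≤ A by linarith)
    have u3 : (K : ℝ) * A ≤ K * A ^ 2 :=
      mul_le_mul_of_nonneg_left (by nlinarith) (Nat.cast_nonneg K)
    push_cast
    linarith
  obtain ⟨D₁, a₁, s₁, e₁, l₁, g₁⟩ := ok k₁
  obtain ⟨D₂, a₂, s₂, e₂, l₂, g₂⟩ := ok k₂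
  have fin := hm _ (hκ x τ M₁ M₂ D₁ D₂ _ a₁ a₂ ho (gen_of_good hx ho) s₁ s₂ hi e₁ e₂ (by omega)
    l₁ l₂ (fun m ↦ sm _ A (hx.1 m) (by
      classical
      obtain ⟨E, h1, h2⟩ := hd
      exact ⟨E.image fun y ↦ y m, Finset.card_image_le.trans h1,
        fun σ ↦ Finset.mem_image_of_mem _ (h2 σ)⟩) (by omega)
      ((hh m).trans (by exact_mod_cast (show A ≤ K * A ^ 2 by omega)))) g₁ g₂)
  have p1 : (C4 + 1) * K ^ 2 ≤ A ^ ((C4 + 1) * K ^ 2) :=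
    Nat.lt_two_pow_self.le.trans (Nat.pow_le_pow_left A2 _)
  have p2 : (C4 + 1) * (K * A ^ 2) ^ 2 ≤ A ^ ((C4 + 1) * K ^ 2 + 4) := by
    rw [pow_add]
    exact le_trans (le_of_eq (by ring)) (Nat.mul_le_mul_right _ p1)
  rw [pow_mul]
  exact fin.trans (Nat.pow_le_pow_left p2 κ)

end Pool.Agent.Lib.ECM.QM
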