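import Pool.Agent.Lib.QM.QBlue
import Pool.Agent.Lib.QM44.T_RAT

/-! The endomorphism `2 M` is given by polynomials in the theta functions. -/

namespace Pool.Agent.Lib.ECM.QM

theorem st_RAT : St_RAT := fun τ hτ M D h ↦ Pool.Agent.Lib.QM44.th_RAT τ hτ M D h.lat h.hn

end Pool.Agent.Lib.ECM.QM
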