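import Pool.Agent.Lib.ECM.All2
import Pool.Agent.Lib.ECM.M_END
import Pool.Agent.Lib.QM.Q_ALGM
import Pool.Agent.Lib.QM.Q_CJM
import Pool.Agent.Lib.QM.Q_CONE
import Pool.Agent.Lib.QM.Q_FIN
import Pool.Agent.Lib.QM.Q_HTM
import Pool.Agent.Lib.QM.Q_HTQ
import Pool.Agent.Lib.QM.Q_PTQ
import Pool.Agent.Lib.QM.Q_RAT
import Pool.Agent.Lib.QM.Q_SL
import Pool.Agent.Lib.QM.Q_TOR2

/-! Assembly of the theorem on curves which miss the triple root lines, first part. -/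

namespace Pool.Agent.Lib.ECM.QM

theorem q_CJM : St_CJM := st_CJM st_RAT
theorem q_ALGM : St_ALGM := st_ALGM q_CJM (st_FIX st_RAT) st_SL

theorem q_THM1 (hG : St_GEO) (hF : St_FINQ) (hA' : St_ARCQ) (hQ : St_SQ2) (hP : St_PT2)
    (hC : St_CNTQ) : St_THM :=
  st_THM hG (st_CONE hG (st_TOR2 hG))
    (st_CORE a_MAIN1 a_EQN st_FINZ (st_HGEN (st_END a_DEP) st_ENC st_FINZ a_ISO st_FIB0) st_ENC a_G3
      st_DIM a_ATLAS a_G4 st_SL hQ q_ALGM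
      (st_QFIN a_ATLAS (st_HTQ hF hA' q_CJM q_ALGM hG)
        (st_PTQ hP (st_HTM hF hA' q_CJM q_ALGM hG) q_ALGM st_SL) hC st_MARK st_NOR q_ALGM st_SL))

end Pool.Agent.Lib.ECM.QM
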