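import Pool.Agent.Lib.QM.Q_GEO
import Pool.Agent.Lib.ECM.PT_AN

/-! Block ARC5: an arc on the theta divisor through the branch point at infinity. -/

open Filter Topology

noncomputable section

namespace Pool.Agent.Lib.ECM.QM

namespace T97

/-- an odd analytic map with invertible derivative has an odd arc over the second axis -/
theorem odd_arc {Φ : V2 → ℂ × ℂ} (ha : AnalyticAt ℂ Φ 0) (ho : ∀ z, Φ (-z) = -Φ z)
    (hi : Function.Injective (fderiv ℂ Φ 0)) {U : V2} (hU : fderiv ℂ Φ 0 U = (0, 1)) :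
    ∃ z : ℂ → V2, AnalyticAt ℂ z 0 ∧ z 0 = 0 ∧ (∀ t, z (-t) = -z t) ∧ HasDerivAt z U 0 ∧
      ∀ᶠ t in 𝓝 (0 : ℂ), Φ (z t) = (0, t) := by
  have h0 : Φ 0 = 0 := by
    have := ho 0
    rw [neg_zero] at this
    exact self_eq_neg.1 this
  let i : V2 ≃L[ℂ] ℂ × ℂ := (LinearMap.linearEquivOfInjective (fderiv ℂ Φ 0).toLinearMap hi
    (by simp)).toContinuousLinearEquiv
  have hf : HasStrictFDerivAt Φ (i : V2 →L[ℂ] ℂ × ℂ) 0 := ha.hasStrictFDerivAt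
  let Ψ := hf.localInverse Φ i 0
  have aΨ : AnalyticAt ℂ Ψ (Φ 0) := (hf.toOpenPartialHomeomorph Φ).analyticAt_symm' (i := i)
    hf.mem_toOpenPartialHomeomorph_source ha rfl
  have dΨ : HasFDerivAt Ψ (i.symm : ℂ × ℂ →L[ℂ] V2) (Φ 0) := hf.to_localInverse.hasFDerivAt
  have Ψ0 : Ψ (Φ 0) = 0 := hf.localInverse_apply_image
  have r := hf.eventually_right_inverse
  have l := hf.eventually_left_inverse
  rw [h0] at aΨ dΨ Ψ0 r
  have e0 : ((0 : ℂ), (0 : ℂ)) = 0 := rfl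
  have ai : AnalyticAt ℂ (fun t : ℂ ↦ ((0 : ℂ), t)) 0 := analyticAt_const.prod analyticAt_id
  let Z : ℂ → V2 := fun t ↦ Ψ (0, t)
  have aZ : AnalyticAt ℂ Z 0 := AnalyticAt.comp_of_eq aΨ ai e0
  have Z0 : Z 0 = 0 := Ψ0
  have rZ : ∀ᶠ t in 𝓝 (0 : ℂ), Φ (Z t) = (0, t) := ai.continuousAt.tendsto.eventually r
  have tn : Tendsto (fun t : ℂ ↦ -t) (𝓝 0) (𝓝 0) := continuous_neg.tendsto' 0 0 neg_zero
  have tZ : Tendsto (fun t ↦ -Z (-t)) (𝓝 0) (𝓝 0) := by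
    have := (aZ.continuousAt.tendsto.comp tn).neg
    rwa [Z0, neg_zero] at this
  have oZ : ∀ᶠ t in 𝓝 (0 : ℂ), (1 / 2 : ℂ) • (Z t - Z (-t)) = Z t := by
    filter_upwards [tn.eventually rZ, tZ.eventually l] with t h1 h2
    rw [ho, h1, Prod.neg_mk, neg_zero, neg_neg] at h2
    rw [sub_eq_add_neg, ← h2]
    module
  have dZ : HasDerivAt Z U 0 := by
    have := dΨ.comp_hasDerivAt_of_eq 0 ((hasDerivAt_const (0 : ℂ) (0 : ℂ)).prodMk
      (hasDerivAt_id 0)) rfl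
    exact this.congr_deriv (i.symm_apply_eq.2 hU.symm)
  refine ⟨fun t ↦ (1 / 2 : ℂ) • (Z t - Z (-t)), aZ.congr (EventuallyEq.symm oZ), by simp,
    fun t ↦ by simp only [neg_neg]; module, dZ.congr_of_eventuallyEq oZ, ?_⟩
  filter_upwards [oZ, rZ] with t h1 h2
  rw [h1, h2]

/-- values and derivatives along the arc -/
structure Rel (k : Ch → ℂ) (l E : Fin 5 → ℂ) (T D : Ch → ℂ) (c c' s s' : ℂ)
    (r r' : Fin 5 → ℂ) : Prop where
  t1 : ∀ a, T (od a) = c * (l a * r a)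
  t2 : ∀ a b, a ≠ b → T (S a b) = c * (k (S a b) * (r a * r b))
  d1 : ∀ a, D (od a) = c' * (l a * r a) + c * (l a * r' a)
  d2 : ∀ a b, a ≠ b →
    D (S a b) = c' * (k (S a b) * (r a * r b)) + c * (k (S a b) * (r' a * r b + r a * r' b))
  sq : ∀ a, r a ^ 2 = s - E a
  dr : ∀ a, 2 * r a * r' a = s'

/-- the Wronskian of two coordinates is linear -/
def Lin (k : Ch → ℂ) (l E : Fin 5 → ℂ) (m n : Ch) : Prop := ∃ α β : ℂ,
  ∀ T D c c' s s' r r', Rel k l E T D c c' s s' r r' →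
    (T n * D m - T m * D n) * (r 3 * r 4) = c ^ 2 * s' * (α + β * s)

theorem Lin.symm {k l E m n} (h : Lin k l E m n) : Lin k l E n m := by
  obtain ⟨α, β, h⟩ := h
  exact ⟨-α, -β, fun T D c c' s s' r r' H ↦ by linear_combination -h T D c c' s s' r r' H⟩

theorem lin_od (k l E) : Lin k l E (od 3) (od 4) := by
  refine ⟨l 3 * l 4 * (E 3 - E 4) / 2, 0, fun T D c c' s s' r r' H ↦ ?_⟩
  rw [H.t1, H.t1, H.d1, H.d1]
  linear_combination c ^ 2 * l 3 * l 4 / 2 *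
    (r 4 ^ 2 * H.dr 3 - r 3 ^ 2 * H.dr 4 + s' * (H.sq 4 - H.sq 3))

theorem lin_S (k l E) (x : Fin 5) (h3 : x ≠ 3) (h4 : x ≠ 4) : Lin k l E (S x 3) (S x 4) := by
  refine ⟨-(k (S x 3) * k (S x 4) * (E 3 - E 4) / 2 * E x), k (S x 3) * k (S x 4) * (E 3 - E 4) / 2,
    fun T D c c' s s' r r' H ↦ ?_⟩
  rw [H.t2 _ _ h3, H.t2 _ _ h4, H.d2 _ _ h3, H.d2 _ _ h4]
  linear_combination c ^ 2 * k (S x 3) * k (S x 4) / 2 * (r x ^ 2 *
    (r 4 ^ 2 * H.dr 3 - r 3 ^ 2 * H.dr 4 + s' * (H.sq 4 - H.sq 3)) + s' * (E 3 - E 4) * H.sq x)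

theorem cls : ∀ g ∈ [S 1 2, S 3 4], ∀ η : Ch, (¬ Ev (η + S 1 2 + g) ∨ ¬ Ev (η + od 0 + g)) ∨
    ∃ p ∈ [(od 3, od 4), (S 0 3, S 0 4), (S 1 3, S 1 4), (S 2 3, S 2 4)],
      (η = p.1 ∧ η + S 1 2 + od 0 = p.2) ∨ (η = p.2 ∧ η + S 1 2 + od 0 = p.1) := by
  decide +kernel

theorem lin_all {k : Ch → ℂ} (hk : ∀ m, ¬ Ev m → k m = 0) (l E) {g : Ch}
    (hg : g ∈ [S 1 2, S 3 4]) (σ : Ch → ℂ) : ∃ α β : ℂ,
    ∀ T D c c' s s' r r', Rel k l E T D c c' s s' r r' →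
      (∑ η, σ η * ((T (η + S 1 2 + od 0) * D η - T η * D (η + S 1 2 + od 0)) *
        (k (η + S 1 2 + g) * k (η + od 0 + g)))) * (r 3 * r 4) = c ^ 2 * s' * (α + β * s) := by
  have (η : Ch) : ∃ α β : ℂ, ∀ T D c c' s s' r r', Rel k l E T D c c' s s' r r' →
      σ η * ((T (η + S 1 2 + od 0) * D η - T η * D (η + S 1 2 + od 0)) *
        (k (η + S 1 2 + g) * k (η + od 0 + g))) * (r 3 * r 4) = c ^ 2 * s' * (α + β * s) := by
    rcases cls g hg η with h | ⟨p, hp, h⟩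
    · exact ⟨0, 0, fun T D c c' s s' r r' _ ↦ by rcases h with h | h <;> simp [hk _ h]⟩
    have L : Lin k l E p.1 p.2 := by
      simp only [List.mem_cons, List.not_mem_nil, or_false] at hp
      rcases hp with rfl | rfl | rfl | rfl
      exacts [lin_od k l E, lin_S k l E 0 (by decide) (by decide),
        lin_S k l E 1 (by decide) (by decide), lin_S k l E 2 (by decide) (by decide)]
    obtain ⟨α, β, H⟩ : Lin k l E η (η + S 1 2 + od 0) := by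
      rcases h with ⟨a, b⟩ | ⟨a, b⟩ <;> rw [b, a]
      exacts [L, L.symm]
    refine ⟨σ η * (k (η + S 1 2 + g) * k (η + od 0 + g)) * α,
      σ η * (k (η + S 1 2 + g) * k (η + od 0 + g)) * β, fun T D c c' s s' r r' R ↦ ?_⟩
    linear_combination σ η * (k (η + S 1 2 + g) * k (η + od 0 + g)) * H T D c c' s s' r r' R
  choose α β h using this
  refine ⟨∑ η, α η, ∑ η, β η, fun T D c c' s s' r r' R ↦ ?_⟩
  rw [Finset.sum_mul, Finset.sum_mul, ← Finset.sum_add_distrib, Finset.mul_sum]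
  exact Finset.sum_congr rfl fun η _ ↦ h η T D c c' s s' r r' R

/-- the gradients on the tangent vector of the arc -/
theorem lin_ll {τ : T3} (hτ : τ ∈ H2) (hG : Gen τ) {l : Fin 5 → ℂ} (l0 : l 0 ≠ 0) (E) {g h : Ch}
    (hg : g ∈ [S 1 2, S 3 4]) (e : S 1 2 + od 0 + g = h) (hh : ¬ Ev h) : ∃ α β : ℂ,
    ∀ x v c c' s s' r r', c ≠ 0 → Rel (fun m ↦ kk m τ) l E (fun m ↦ th m τ x)
      (fun m ↦ dth m τ v x) c c' s s' r r' → (∏ a, r a) * ll h τ v = s' * (α + β * s) := by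
  obtain ⟨σ, -, hD⟩ := th_DER
  obtain ⟨α, β, H⟩ := lin_all (k := fun m ↦ kk m τ) (fun m ↦ th_BAS.kk_odd m τ) l E hg
    fun η ↦ σ (S 1 2) (od 0) g η
  have g0 : kk g τ ≠ 0 := hG g ((by decide : ∀ g ∈ [S 1 2, S 3 4], Ev g) g hg)
  have k0 : kk (S 1 2) τ ≠ 0 := hG _ (by decide)
  refine ⟨α / (4 * kk (S 1 2) τ * l 0 * kk g τ), β / (4 * kk (S 1 2) τ * l 0 * kk g τ),
    fun x v c c' s s' r r' c0 R ↦ ?_⟩
  have h1 := (hD τ hτ (S 1 2) (od 0) g v x).1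
  have h2 := H _ _ c c' s s' r r' R
  have h3 := R.t1 0
  have h4 := R.t2 1 2 (by decide)
  rw [← h1, e, th_BAS.kk_odd h τ hh, h3, h4] at h2
  rw [Fin.prod_univ_five]
  field_simp
  refine mul_left_cancel₀ (pow_ne_zero 2 c0) ?_
  linear_combination h2

theorem an_th {τ : T3} (hτ : τ ∈ H2) (m : Ch) (z : V2) : AnalyticAt ℂ (th m τ) z :=
  PT.AN.analyticAt_of_diff (th_BAS.diff_th m τ hτ) z

/-- the arc -/
theorem arc {τ : T3} (hτ : τ ∈ H2) (hG : Gen τ) {U : V2} (hU : ll hA τ U = 0)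
    (l0 : ll (od 0) τ U ≠ 0) : ∃ z : ℂ → V2, AnalyticAt ℂ z 0 ∧ z 0 = 0 ∧ (∀ t, z (-t) = -z t) ∧
      HasDerivAt z U 0 ∧ ∀ᶠ t in 𝓝 (0 : ℂ), th hA τ (z t) = 0 ∧
        th (od 0) τ (z t) / ll (od 0) τ U / (th (S 4 0) τ (z t) / kk (S 4 0) τ) = t := by
  have k0 : kk (S 4 0) τ ≠ 0 := hG _ (by decide)
  have k1 : th (S 4 0) τ 0 / kk (S 4 0) τ = 1 := div_self k0
  have o0 : th (od 0) τ 0 = 0 := th_BAS.kk_odd _ τ (od_odd.2 0)
  let Φ : V2 → ℂ × ℂ := fun z ↦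
    (th hA τ z, th (od 0) τ z / ll (od 0) τ U / (th (S 4 0) τ z / kk (S 4 0) τ))
  have ha : AnalyticAt ℂ Φ 0 := (an_th hτ _ _).prod ((an_th hτ _ _).div_const.div
    (an_th hτ _ _).div_const (k1 ▸ one_ne_zero))
  have hd (v : V2) : fderiv ℂ Φ 0 v = (ll hA τ v, ll (od 0) τ v / ll (od 0) τ U) := by
    have l (m) := XLIN.line0 th_BAS m hτ v
    have h1 := (l hA).prodMk (((l (od 0)).div_const (ll (od 0) τ U)).div
      ((l (S 4 0)).div_const (kk (S 4 0) τ)) (by rw [zero_smul, k1]; exact one_ne_zero))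
    have h2 := ha.differentiableAt.hasFDerivAt.comp_hasDerivAt_of_eq (0 : ℂ)
      ((hasDerivAt_id (0 : ℂ)).smul_const v) (by simp)
    have h3 := h2.unique h1
    simpa [k1, o0] using h3
  obtain ⟨z, h1, h2, h3, h4, h5⟩ := odd_arc ha (fun z ↦ by
      simp only [Φ, th_BAS.th_neg, if_neg od_odd.1, if_neg (od_odd.2 0),
        if_pos (ev_S 4 0 (by decide)), Prod.neg_mk]
      congr 1 <;> ring)
    ((injective_iff_map_eq_zero _).2 fun v hv ↦ by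
      rw [hd, Prod.ext_iff] at hv
      exact inj hτ hG 0 hv.1 ((div_eq_zero_iff.1 hv.2).resolve_right l0))
    (U := U) (by rw [hd, hU, div_self l0])
  exact ⟨z, h1, h2, h3, h4, h5.mono fun t ht ↦ Prod.ext_iff.1 ht⟩

/-- the cross relations on the theta divisor -/
theorem cross {τ : T3} (hτ : τ ∈ H2) (hG : Gen τ) {U x : V2} (hU : ll hA τ U = 0)
    (l0 : ∀ a, ll (od a) τ U ≠ 0) (hx : th hA τ x = 0) {a b c : Fin 5} (h1 : a ≠ b) (h2 : a ≠ c)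
    (h3 : b ≠ c) : th (S a b) τ x / kk (S a b) τ * (th (od c) τ x / ll (od c) τ U) =
      th (S a c) τ x / kk (S a c) τ * (th (od b) τ x / ll (od b) τ U) := by
  obtain ⟨d, e, H⟩ := five3 a b c h1 h2 h3
  obtain ⟨-, -, -, -, -, n1, n2, -⟩ := ne_of H
  have e1 := tt1 H hτ x
  have e2 := tt1' H hτ U
  rw [hx] at e1
  rw [hU] at e2
  have := hG _ (ev_S _ _ h1)
  have := hG _ (ev_S _ _ h2)
  have := l0 b
  have := l0 c
  field_simp
  refine mul_left_cancel₀ (mul_ne_zero (hG _ (ev_S _ _ n1)) (hG _ (ev_S _ _ n2))) ?_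
  linear_combination kk (S a c) τ * ll (od b) τ U * e1 - th (S a c) τ x * th (od b) τ x * e2

/-- the branch points -/
theorem brp {τ : T3} (hτ : τ ∈ H2) (hG : Gen τ) {l : Fin 5 → ℂ}
    (hl : ∀ a, l a ^ 2 = nu (fun m ↦ kk m τ) a ^ 2) (a : Fin 5) : ∃ E : ℂ, (a = 4 → E = 0) ∧
      (a ≠ 4 → E ^ 2 = mu (fun m ↦ kk m τ) a 4 ^ 4) ∧ ∀ (x : V2) (c : ℂ) (r : Fin 5 → ℂ), c ≠ 0 →
      (∀ b, r b ≠ 0) → (∀ b, th (od b) τ x = c * (l b * r b)) →
      (∀ b d, b ≠ d → th (S b d) τ x = c * (kk (S b d) τ * (r b * r d))) →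
      r a ^ 2 = r 4 ^ 2 - E := by
  by_cases h : a = 4
  · exact ⟨0, fun _ ↦ rfl, fun h' ↦ absurd h h', fun _ _ _ _ _ _ _ ↦ by rw [h, sub_zero]⟩
  obtain ⟨c, d, e, H, H1, H2⟩ := (by decide +kernel : ∀ a : Fin 5, a ≠ 4 → ∃ c d e,
    [a, 4, c, d, e].Nodup ∧ [d, a, 4, c, e].Nodup ∧ [e, a, 4, c, d].Nodup) a h
  obtain ⟨-, -, n1, n2, -, n3, n4, -⟩ := ne_of H
  have k1 := hG _ (ev_S _ _ n1)
  have k2 := hG _ (ev_S _ _ n2)
  have k3 := hG _ (ev_S _ _ n3)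
  have k4 := hG _ (ev_S _ _ n4)
  refine ⟨-(rs (S a d) (S a e) (S 4 d) (od d) * (kk (S c d) τ * kk (S c e) τ * (l d * l e)) /
    (kk (S 4 d) τ * kk (S 4 e) τ * kk (S a d) τ * kk (S a e) τ)), fun h' ↦ absurd h' h, fun _ ↦ ?_,
    fun x u r u0 r0 t1 t2 ↦ ?_⟩
  · rw [neg_sq, div_pow, mul_pow, rs_sq, mul_pow _ (l d * l e), mul_pow (l d), hl, hl, nu_eq _ H1,
      nu_eq _ H2, mu_eq _ H, S_comm d a, S_comm d 4, S_comm d c, S_comm e a, S_comm e 4,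
      S_comm e c, S_comm e d]
    field_simp
  · have := tt2 H hτ x
    rw [t1, t1, t2 _ _ n1, t2 _ _ n2, t2 _ _ n3, t2 _ _ n4] at this
    field_simp
    refine mul_left_cancel₀ (mul_ne_zero (pow_ne_zero 2 u0) (mul_ne_zero (r0 d) (r0 e))) ?_
    linear_combination this

end T97

open T97 in
theorem st_ARC5 : St_ARC5 := by
  intro τ hτ hG U hU hl
  have l0 (a) : ll (od a) τ U ≠ 0 := fun h ↦ by
    have := hl a
    rw [h, eq_comm, zero_pow two_ne_zero, pow_eq_zero_iff two_ne_zero] at this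
    exact Finset.prod_ne_zero_iff.2
      (fun _ hj ↦ hG _ (ev_S _ _ (Finset.ne_of_mem_erase hj).symm)) this
  obtain ⟨z, za, z0, zo, zd, ze⟩ := arc hτ hG hU (l0 0)
  choose E E4 E2 hE using brp hτ hG hl
  let ρ : Fin 5 → ℂ → ℂ := fun a t ↦ th (od a) τ (z t) / ll (od a) τ U
  let T : Fin 5 → Fin 5 → ℂ → ℂ := fun a b t ↦ th (S a b) τ (z t) / kk (S a b) τ
  let c : ℂ → ℂ := fun t ↦ t * ρ 4 t
  let r : Fin 5 → ℂ → ℂ := fun a t ↦ ρ a t / c t
  let s : ℂ → ℂ := fun t ↦ (t ^ 2)⁻¹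
  have T0 : ∀ᶠ t in 𝓝 (0 : ℂ), ∀ a b, a ≠ b → T a b t ≠ 0 := by
    simp only [eventually_all]
    intro a b h
    refine (((an_th hτ _ _).comp za).continuousAt.eventually_ne (y := 0) ?_).mono
      fun t ht ↦ div_ne_zero ht (hG _ (ev_S _ _ h))
    rw [Function.comp, z0]
    exact hG _ (ev_S _ _ h)
  have e1 : ∀ᶠ t in 𝓝[≠] (0 : ℂ), t ≠ 0 ∧ c t ≠ 0 ∧ (∀ a, r a t ≠ 0) ∧ th hA τ (z t) = 0 ∧
      (∀ a, th (od a) τ (z t) = c t * (ll (od a) τ U * r a t)) ∧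
      (∀ a b, a ≠ b → th (S a b) τ (z t) = c t * (kk (S a b) τ * (r a t * r b t))) ∧
      ∀ a, r a t ^ 2 = s t - E a := by
    filter_upwards [self_mem_nhdsWithin, nhdsWithin_le_nhds T0, nhdsWithin_le_nhds ze]
      with t (t0 : t ≠ 0) hT ⟨h1, h2⟩
    have cr {a b c} (i : a ≠ b) (j : a ≠ c) (k : b ≠ c) : T a b t * ρ c t = T a c t * ρ b t :=
      cross hτ hG hU l0 h1 i j k
    have h3 : ρ 0 t = t * T 4 0 t := (div_eq_iff (hT 4 0 (by decide))).1 h2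
    have h4 (b) (h : b ≠ 4) : ρ b t = t * T 4 b t := by
      by_cases h0 : b = 0
      · exact h0 ▸ h3
      refine mul_left_cancel₀ (hT 4 0 (by decide)) ?_
      rw [cr (by decide) h.symm (Ne.symm h0), h3]
      ring
    have Ts (a b) : T a b t = T b a t := by simp only [T, S_comm a b]
    have h5 (a b) (h : a ≠ b) : T a b t * (t * ρ 4 t) = ρ a t * ρ b t := by
      by_cases ha : a = 4
      · rw [ha, h4 b (ha ▸ h.symm)]; ring
      by_cases hb : b = 4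
      · rw [hb, h4 a ha, Ts]; ring
      rw [h4 a ha, Ts 4]
      linear_combination t * cr h ha hb
    have h6 (b) (h : b ≠ 4) : ρ b t ≠ 0 := h4 b h ▸ mul_ne_zero t0 (hT _ _ h.symm)
    have c0 : c t ≠ 0 := right_ne_zero_of_mul ((h5 0 1 (by decide)).symm ▸
      mul_ne_zero (h6 0 (by decide)) (h6 1 (by decide)))
    have r0 (a) : r a t ≠ 0 := div_ne_zero (by
      by_cases ha : a = 4
      exacts [ha ▸ right_ne_zero_of_mul c0, h6 a ha]) c0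
    have t1 (a) : th (od a) τ (z t) = c t * (ll (od a) τ U * r a t) := by
      have := l0 a
      simp only [r]
      rw [show ρ a t = th (od a) τ (z t) / ll (od a) τ U from rfl]
      field_simp
    have t2 (a b) (h : a ≠ b) : th (S a b) τ (z t) = c t * (kk (S a b) τ * (r a t * r b t)) := by
      have := hG _ (ev_S _ _ h)
      simp only [r]
      rw [div_mul_div_comm, ← h5 a b h, show T a b t = th (S a b) τ (z t) / kk (S a b) τ from rfl,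
        show t * ρ 4 t = c t from rfl]
      field_simp
    refine ⟨t0, c0, r0, h1, t1, t2, fun a ↦ ?_⟩
    rw [hE a (z t) (c t) (fun b ↦ r b t) c0 r0 t1 t2]
    have := right_ne_zero_of_mul c0
    simp only [r, c, s]
    field_simp
  have e2 : ∀ᶠ t in 𝓝[≠] (0 : ℂ), HasDerivAt s (-2 / t ^ 3) t ∧
      (∀ a, DifferentiableAt ℂ (r a) t) ∧ Rel (fun m ↦ kk m τ) (fun a ↦ ll (od a) τ U) E
        (fun m ↦ th m τ (z t)) (fun m ↦ dth m τ (deriv z t) (z t)) (c t) (deriv c t) (s t)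
        (-2 / t ^ 3) (fun a ↦ r a t) (fun a ↦ deriv (r a) t) := by
    filter_upwards [eventually_eventually_nhdsWithin.2 e1, self_mem_nhdsWithin,
      nhdsWithin_le_nhds za.eventually_analyticAt] with t hu t0 (a : AnalyticAt ℂ z t)
    rw [nhdsWithin_eq_nhds.2 (isOpen_compl_singleton.mem_nhds t0)] at hu
    obtain ⟨t0, c0, -, -, t1, t2, sq⟩ := hu.self_of_nhds
    have d (m) : HasDerivAt (fun t ↦ th m τ (z t)) (dth m τ (deriv z t) (z t)) t :=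
      (th_BAS.diff_th m τ hτ _).hasFDerivAt.comp_hasDerivAt t a.differentiableAt.hasDerivAt
    have dρ (b) : DifferentiableAt ℂ (ρ b) t := (d _).differentiableAt.div_const _
    have dc : DifferentiableAt ℂ c t := differentiableAt_id.mul (dρ 4)
    have dr (b) : DifferentiableAt ℂ (r b) t := (dρ b).div dc c0
    have ds : HasDerivAt s (-2 / t ^ 3) t :=
      ((hasDerivAt_pow 2 t).inv (pow_ne_zero 2 t0)).congr_deriv (by field_simp; ring)
    refine ⟨ds, dr, t1, t2, fun b ↦ ?_, fun b e h ↦ ?_, sq, fun b ↦ ?_⟩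
    · exact (d _).unique ((dc.hasDerivAt.mul ((dr b).hasDerivAt.const_mul _)).congr_of_eventuallyEq
        (hu.mono fun w hw ↦ hw.2.2.2.2.1 b))
    · exact (d _).unique ((dc.hasDerivAt.mul (((dr b).hasDerivAt.mul
        (dr e).hasDerivAt).const_mul _)).congr_of_eventuallyEq
        (hu.mono fun w hw ↦ hw.2.2.2.2.2.1 b e h))
    · have := ((dr b).hasDerivAt.pow 2).unique ((ds.sub_const (E b)).congr_of_eventuallyEq
        (hu.mono fun w hw ↦ hw.2.2.2.2.2.2 b))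
      simpa using this
  obtain ⟨α₁, β₁, h1⟩ := lin_ll hτ hG (l := fun a ↦ ll (od a) τ U) (l0 0) E (g := S 3 4) (h := hA)
    (by decide) (by decide) od_odd.1
  obtain ⟨α₂, β₂, h2⟩ := lin_ll hτ hG (l := fun a ↦ ll (od a) τ U) (l0 0) E (g := S 1 2) (h := hB)
    (by decide) (by decide) (od_odd.2 0)
  have ind := th_GAUGE.ind τ hτ hG
  obtain ⟨A, hA'⟩ := ind.2 (α₁, α₂)
  obtain ⟨B, hB'⟩ := ind.2 (β₁, β₂)
  obtain ⟨a1, a2⟩ := Prod.mk.inj hA'
  obtain ⟨b1, b2⟩ := Prod.mk.inj hB'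
  have e3 : ∀ᶠ t in 𝓝[≠] (0 : ℂ), (∏ a, r a t) • deriv z t = (-2 / t ^ 3) • (A + s t • B) := by
    filter_upwards [e1, e2] with t u1 u2
    have sm (h) (p : ℂ) (v) : ll h τ (p • v) = p * ll h τ v := by simp [ll, dth]
    have ad (h) (p : ℂ) (u v) : ll h τ (u + p • v) = ll h τ u + p * ll h τ v := by simp [ll, dth]
    refine ind.1 (Prod.ext ?_ ?_) <;> simp only [sm, ad, a1, a2, b1, b2]
    · rw [h1 _ _ _ _ _ _ _ _ u1.2.1 u2.2.2, mul_comm β₁]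
    · rw [h2 _ _ _ _ _ _ _ _ u1.2.1 u2.2.2, mul_comm β₂]
  have sl (a) : Tendsto (fun t ↦ t⁻¹ * ρ a t) (𝓝[≠] 0) (𝓝 1) := by
    have d : HasDerivAt (ρ a) 1 0 := (((th_BAS.diff_th (od a) τ hτ
      (z 0)).hasFDerivAt.comp_hasDerivAt 0 zd).div_const _).congr_deriv (z0 ▸ div_self (l0 a))
    have : ρ a 0 = 0 := by
      simp only [ρ, z0]
      rw [show th (od a) τ 0 = 0 from th_BAS.kk_odd _ τ (od_odd.2 a), zero_div]
    simpa [this] using hasDerivAt_iff_tendsto_slope_zero.1 d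
  have eB : B = -(1 / 2 : ℂ) • U := by
    have p1 : Tendsto (fun t ↦ (∏ a, t⁻¹ * ρ a t / (t⁻¹ * ρ 4 t)) • deriv z t) (𝓝[≠] 0)
        (𝓝 ((∏ _ : Fin 5, (1 / 1 : ℂ)) • deriv z 0)) :=
      (tendsto_finsetProd _ fun a _ ↦ (sl a).div (sl 4) one_ne_zero).smul
        (za.deriv.continuousAt.tendsto.mono_left nhdsWithin_le_nhds)
    have p2 : Tendsto (fun t : ℂ ↦ (-2 : ℂ) • (t ^ 2 • A + B)) (𝓝[≠] 0)
        (𝓝 ((-2 : ℂ) • ((0 : ℂ) ^ 2 • A + B))) :=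
      (Continuous.tendsto (by fun_prop) 0).mono_left nhdsWithin_le_nhds
    have p3 := tendsto_nhds_unique_of_eventuallyEq p1 p2 (by
      filter_upwards [e1, e3] with t u1 u3
      have t0 := u1.1
      have q0 := right_ne_zero_of_mul u1.2.1
      have q1 : ∏ a, t⁻¹ * ρ a t / (t⁻¹ * ρ 4 t) = t ^ 5 * ∏ a, r a t := by
        simp only [Fin.prod_univ_five, r, c]
        field_simp
      rw [q1, mul_smul, u3]
      simp only [s]
      match_scalars <;> field_simp)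
    rw [zd.deriv] at p3
    simp only [div_one, Finset.prod_const_one, one_smul] at p3
    rw [p3]
    module
  refine ⟨A, E, z, c, s, r, E4 4 rfl, E2, za, z0, zo, fun t ↦ by simp [s], fun a t ↦ ?_, ?_, ?_⟩
  · simp only [r, c, ρ, zo, th_BAS.th_neg, if_neg (od_odd.2 _)]
    rw [← neg_div]
    congr 1 <;> ring
  · exact tendsto_inv₀_nhdsNE_zero.comp (tendsto_nhdsWithin_of_tendsto_nhds_of_eventually_within _
      (((continuous_pow 2).tendsto' 0 0 (by simp)).mono_left nhdsWithin_le_nhds)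
      (eventually_mem_nhdsWithin.mono fun t ht ↦ pow_ne_zero 2 ht))
  filter_upwards [e1, e2, e3] with t ⟨t0, c0, _, u1, u2, u3, u4⟩ ⟨v1, v2, _⟩ w
  refine ⟨c0, u1, u2, u3, u4, v2, v1.differentiableAt, ?_, ?_⟩
  · rw [v1.deriv]
    exact div_ne_zero (by norm_num) (pow_ne_zero 3 t0)
  · rw [v1.deriv, w, eB]
    module

end Pool.Agent.Lib.ECM.QM
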