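import Pool.Agent.Lib.QM.QBlue
import Pool.Agent.Lib.ECM.B_HTAB
import Pool.Agent.Lib.ECM.TH_All
import Pool.Agent.Lib.ECM.M_CONJ

/-! Local bounds for the entries of the matrix of a symmetric endomorphism. -/

open Filter Topology

namespace Pool.Agent.Lib.ECM.QM.KIT

open T42

theorem mu_map {R R' F : Type} [CommMonoid R] [CommMonoid R'] [FunLike F R R']
    [MonoidHomClass F R R'] (σ : F) (x : Ch → R) (a b : Fin 5) :
    σ (mu x a b) = mu (fun m ↦ σ (x m)) a b := map_prod σ _ _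

theorem nu_map {R R' F : Type} [CommMonoid R] [CommMonoid R'] [FunLike F R R']
    [MonoidHomClass F R R'] (σ : F) (x : Ch → R) (a : Fin 5) :
    σ (nu x a) = nu (fun m ↦ σ (x m)) a := map_prod σ _ _

theorem chi_map {R R' F : Type} [CommMonoid R] [CommMonoid R'] [FunLike F R R']
    [MonoidHomClass F R R'] (σ : F) (x : Ch → R) :
    σ (chi x) = chi (fun m ↦ σ (x m)) := map_prod σ _ _

theorem mu_ne {x : Ch → ℂ} (h : ∀ m, Ev m → x m ≠ 0) (a b : Fin 5) : mu x a b ≠ 0 :=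
  Finset.prod_ne_zero_iff.2 fun _ hp ↦ h _ (ev_S _ _ (Finset.mem_filter.1 hp).2.1.ne)

theorem nu_ne {x : Ch → ℂ} (h : ∀ m, Ev m → x m ≠ 0) (a : Fin 5) : nu x a ≠ 0 :=
  Finset.prod_ne_zero_iff.2 fun _ hj ↦ h _ (ev_S _ _ (Finset.ne_of_mem_erase hj).symm)

theorem chi_ne {x : Ch → ℂ} (h : ∀ m, Ev m → x m ≠ 0) : chi x ≠ 0 :=
  Finset.prod_ne_zero_iff.2 fun _ hm ↦ h _ (Finset.mem_filter.1 hm).2

theorem mu_alg {x : Ch → ℂ} (h : AlgT x) (a b : Fin 5) : IsAlgebraic ℚ (mu x a b) :=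
  T80.alg_prod _ fun _ ↦ h _

theorem nu_alg {x : Ch → ℂ} (h : AlgT x) (a : Fin 5) : IsAlgebraic ℚ (nu x a) :=
  T80.alg_prod _ fun _ ↦ h _

theorem chi_alg {x : Ch → ℂ} (h : AlgT x) : IsAlgebraic ℚ (chi x) :=
  T80.alg_prod _ fun _ ↦ h _

/-- coordinates are onto -/
theorem lv_surj {x τ} (ho : Over x τ) (hg : Gen τ) (l : V2) :
    ∃ v, lv τ v hA = l 0 ∧ lv τ v hB = l 1 := by
  obtain ⟨v, hv⟩ := (th_GAUGE.ind τ ho.1 hg).2 (kk 0 τ * l 0, kk 0 τ * l 1)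
  obtain ⟨h1, h2⟩ := Prod.ext_iff.1 hv
  exact ⟨v, by rw [lv, show ll hA τ v = _ from h1, mul_div_cancel_left₀ _ ho.2.1],
    by rw [lv, show ll hB τ v = _ from h2, mul_div_cancel_left₀ _ ho.2.1]⟩

theorem lv_inj {x τ} (ho : Over x τ) (hg : Gen τ) {u v : V2} (h1 : lv τ u hA = lv τ v hA)
    (h2 : lv τ u hB = lv τ v hB) : u = v :=
  (th_GAUGE.ind τ ho.1 hg).1 (Prod.ext ((div_left_inj' ho.2.1).1 h1) ((div_left_inj' ho.2.1).1 h2))

theorem lv_add (τ : T3) (u v : V2) (h : Ch) : lv τ (u + v) h = lv τ u h + lv τ v h := by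
  simp [lv, ll, dth, add_div]

theorem lv_smul (τ : T3) (c : ℂ) (v : V2) (h : Ch) : lv τ (c • v) h = c * lv τ v h := by
  simp [lv, ll, dth, mul_div_assoc]

theorem ent_iff {τ M} {a : M2} : Ent τ M a ↔ ∀ v,
    lv τ (M v) hA = a 0 0 * lv τ v hA + a 0 1 * lv τ v hB ∧
    lv τ (M v) hB = a 1 0 * lv τ v hA + a 1 1 * lv τ v hB := by
  refine forall_congr' fun v ↦ ?_
  simp [funext_iff, Fin.forall_fin_two]

theorem ent_ex {x τ} (ho : Over x τ) (hg : Gen τ) (M : V2 →ₗ[ℂ] V2) : ∃ a, Ent τ M a := by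
  obtain ⟨u, u1, u2⟩ := lv_surj ho hg ![1, 0]
  obtain ⟨w, w1, w2⟩ := lv_surj ho hg ![0, 1]
  refine ⟨!![lv τ (M u) hA, lv τ (M w) hA; lv τ (M u) hB, lv τ (M w) hB], ent_iff.2 fun v ↦ ?_⟩
  have e : v = lv τ v hA • u + lv τ v hB • w :=
    lv_inj ho hg (by simp [lv_add, lv_smul, u1, w1]) (by simp [lv_add, lv_smul, u2, w2])
  have e' : M v = lv τ v hA • M u + lv τ v hB • M w := by
    conv_lhs => rw [e]
    simp
  rw [e']
  simp [lv_add, lv_smul, mul_comm]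

/-- the value on the tangent vector -/
theorem tg_val {x τ M U} {a : M2} (hE : Ent τ M a) (hT : Tg x τ U) (i : Fin 2) :
    lv τ (M U) (![hA, hB] i) = a i 1 * nu x 0 ∨ lv τ (M U) (![hA, hB] i) = -(a i 1 * nu x 0) := by
  have h := ent_iff.1 hE U
  have e : lv τ (M U) (![hA, hB] i) = a i 1 * lv τ U hB := by
    fin_cases i
    · simpa [hT.1] using h.1
    · simpa [hT.1] using h.2
  rw [e]
  rcases sq_eq_sq_iff_eq_or_eq_neg.1 (hT.2 0) with h | h <;> rw [od_zero] at h <;> simp [h]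

theorem fin_places (hF : St_FINQ) (hG : St_GEO) {x τ M D} {a : M2} (ho : Over x τ) (hg : Gen τ)
    (hS : Sy τ M D) (hE : Ent τ M a) (V : ValuationSubring ℂ) (g : Ch) (i : Fin 2) :
    ∃ n p q, p ≠ q ∧ V.valuation (16 * (x g * (a i 1 * nu x 0))) ≤
      V.valuation (mu x p q * (x n * x (n + (g + ![hA, hB] i)))) := by
  obtain ⟨U, hU⟩ := hG.tg x τ ho hg
  obtain ⟨n, p, q, h1, h2⟩ := hF x τ M D U ho hg hS hU V g (![hA, hB] i)
  refine ⟨n, p, q, h1, ?_⟩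
  rcases tg_val hE hU i with h | h <;> rw [h] at h2
  · exact h2
  · simpa only [mul_neg, Valuation.map_neg] using h2

theorem inf_places (hA' : St_ARCQ) (hC : St_CJM) (hM : St_ALGM) (hG : St_GEO) :
    ∃ c : ℝ, 1 ≤ c ∧ ∀ x τ M D (a : M2), Good x → Over x τ → Sy τ M D → Ent τ M a →
      ∀ σ : ℂ →+* ℂ, ∃ m, Ev m ∧ ∀ (g : Ch) (i : Fin 2), ∃ n p q, p ≠ q ∧
        ‖σ (x g * (a i 1 * nu x 0))‖ ^ 12 ≤ c * (D : ℝ) ^ 6 *
          (1 + Real.log (‖fun n ↦ σ (x n)‖ / ‖σ (x m)‖)) ^ 6 *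
          ‖σ (mu x p q * (x n * x (n + (g + ![hA, hB] i))))‖ ^ 12 := by
  obtain ⟨c, c1, hc⟩ := hA'
  refine ⟨c, c1, fun x τ M D a hg ho hS hE σ ↦ ?_⟩
  obtain ⟨σ', e⟩ := st_AUT.ext σ
  obtain ⟨τ', ho', hg'⟩ := hg.2 σ'
  obtain ⟨M', hS', hE'⟩ := hC σ' x τ τ' M D a ho (good_gen hg ho) ho' hS hE
  obtain ⟨U, hU⟩ := hG.tg _ τ' ho' hg'
  obtain ⟨m, hm, h⟩ := hc _ τ' M' D U ho' hg' hS' hU
  refine ⟨m, hm, fun g i ↦ ?_⟩
  obtain ⟨n, p, q, h1, h2⟩ := h g (![hA, hB] i)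
  refine ⟨n, p, q, h1, ?_⟩
  have e1 : ‖lv τ' (M' U) (![hA, hB] i)‖ = ‖σ (a i 1 * nu x 0)‖ := by
    have : σ (a i 1 * nu x 0) = (a.map σ') i 1 * nu (fun m ↦ (σ' : ℂ →+* ℂ) (x m)) 0 := by
      rw [map_mul, nu_map, Matrix.map_apply, e _ (hM.alg x τ M D a hg ho hS hE i 1)]
      simp only [RingHom.coe_coe, e _ (hg.1 _)]
    rw [this]
    rcases tg_val hE' hU i with h | h <;> rw [h]
    exact norm_neg _
  rw [norm_mul, e1] at h2
  simp only [RingHom.coe_coe, e _ (hg.1 _)] at h2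
  simpa only [map_mul, norm_mul, mu_map] using h2

end Pool.Agent.Lib.ECM.QM.KIT
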