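import Pool.Agent.Lib.QM.Q_TT
import Pool.Agent.Lib.QM.Q_KIT
import Pool.Agent.Lib.ECM.B_ARC

/-! Block ARCQ: the bound at the infinite places. -/

namespace Pool.Agent.Lib.ECM.QM

namespace ARCQ

theorem out : ∀ a b c : Fin 5, a ≠ b → a ≠ c → b ≠ c → ∃ d e, [a, b, c, d, e].Nodup ∧
    [d, e, b, c, a].Nodup ∧ d ≠ e ∧ S a d + (S b c + od a) = S a e := by decide +kernel

theorem inn : ∀ a b c : Fin 5, a ≠ b → a ≠ c → b ≠ c → ∃ d e, [a, b, c, d, e].Nodup ∧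
    [c, d, a, b, e].Nodup ∧ [c, e, a, b, d].Nodup ∧ [a, c, b, d, e].Nodup ∧
    (a ≠ d ∧ d ≠ b ∧ d ≠ a ∧ c ≠ d ∧ c ≠ e) ∧ S a c + (S a b + od a) = S d e := by decide +kernel

theorem third : ∀ a b : Fin 5, ∃ c, c ≠ a ∧ c ≠ b := by decide

/-- the numerators of the gauge of the tangent vector -/
theorem num {x : Ch → ℂ} (hx : ∀ m, Ev m → x m ≠ 0) {e : Fin 5 → ℂ} {γ : ℝ}
    (he : ∀ a b, a ≠ b → (e a - e b) ^ 2 = mu x a b ^ 4) (hγ : ∀ a b, a ≠ b → ‖mu x a b‖ ≤ γ)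
    (a : Fin 5) {b c : Fin 5} (hbc : b ≠ c) :
    ∃ n, ‖x (S b c) * nu x a‖ ≤ 2 * γ * ‖x n * x (n + (S b c + od a))‖ := by
  have nr (a b : Fin 5) (h : a ≠ b) : ‖mu x a b‖ ^ 2 = ‖e a - e b‖ := by
    have := congrArg norm (he a b h)
    rw [norm_pow, norm_pow] at this
    exact (pow_left_inj₀ (by positivity) (norm_nonneg _) two_ne_zero).1 (by rw [this]; ring)
  have g0 : 0 ≤ γ := (norm_nonneg _).trans (hγ b c hbc)
  have key (a b : Fin 5) (h : a ≠ b) :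
      ∃ n, ‖x (S a b) * nu x a‖ ≤ 2 * γ * ‖x n * x (n + (S a b + od a))‖ := by
    obtain ⟨c0, hc0⟩ := third a b
    obtain ⟨c, hc, hm⟩ := (Finset.univ.filter fun c ↦ c ≠ a ∧ c ≠ b).exists_max_image
      (fun c ↦ ‖mu x a c‖) ⟨c0, by simpa using hc0⟩
    replace hc := (Finset.mem_filter.1 hc).2
    obtain ⟨d, f, n1, n2, n3, n4, ⟨r1, r2, r3, r4, r5⟩, hs⟩ := inn a b c h hc.1.symm hc.2.symm
    refine ⟨S a c, ?_⟩
    have m0 : 0 < ‖mu x a c‖ := norm_pos_iff.2 (KIT.mu_ne hx _ _)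
    have i1 : x (S a b) * nu x a * mu x a c = mu x c d * mu x c f * (x (S a c) * x (S d f)) := by
      rw [T97.nu_eq x n1, T97.mu_eq x n2, T97.mu_eq x n3, T97.mu_eq x n4]
      ring
    have i2 : ‖mu x c d‖ ≤ 2 * ‖mu x a c‖ := by
      have h1 := hm d (by simpa using ⟨r3, r2⟩)
      have h2 : ‖e c - e d‖ ≤ ‖e a - e c‖ + ‖e a - e d‖ := by
        rw [show e c - e d = -(e a - e c) + (e a - e d) by ring]
        exact (norm_add_le _ _).trans_eq (by rw [norm_neg])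
      rw [← nr _ _ r4, ← nr _ _ hc.1.symm, ← nr _ _ r1] at h2
      have h3 := pow_le_pow_left₀ (norm_nonneg _) h1 2
      exact abs_le_of_sq_le_sq' (by nlinarith) (by positivity) |>.2
    rw [hs]
    refine le_of_mul_le_mul_right ?_ m0
    rw [← norm_mul, i1, norm_mul, norm_mul]
    calc _ ≤ 2 * ‖mu x a c‖ * γ * ‖x (S a c) * x (S d f)‖ := by
          gcongr
          exact hγ _ _ r5
      _ = _ := by ring
  by_cases h1 : a = b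
  · subst h1; exact key a c hbc
  by_cases h2 : a = c
  · subst h2; rw [S_comm b a]; exact key a b h1
  obtain ⟨d, f, n1, n2, r, hs⟩ := out a b c h1 h2 hbc
  refine ⟨S a d, ?_⟩
  have i1 : x (S b c) * nu x a = mu x d f * (x (S a d) * x (S a f)) := by
    rw [T97.nu_eq x n1, T97.mu_eq x n2, S_comm b a, S_comm c a]
    ring
  rw [hs, i1, norm_mul]
  exact mul_le_mul_of_nonneg_right ((hγ _ _ r).trans (by linarith)) (norm_nonneg _)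

theorem gauge_U (hG : St_GEO) {x : Ch → ℂ} {τ : T3} {U : V2} (ho : Over x τ) (hg : Gen τ)
    (hT : Tg x τ U) : ∃ a b, a ≠ b ∧ gauge τ U ≤ 2 * ‖mu x a b‖ := by
  obtain ⟨ε, -, hε⟩ := hG.jac
  obtain ⟨p, hp, hm⟩ := (Finset.univ.filter fun p : Fin 5 × Fin 5 ↦ p.1 ≠ p.2).exists_max_image
    (fun p ↦ ‖mu x p.1 p.2‖) ⟨(0, 1), by decide⟩
  have he := (hε x τ ho hg).2
  obtain ⟨hτ, k0, hx⟩ := ho
  have hx0 (m) (hm : Ev m) : x m ≠ 0 := by rw [hx]; exact div_ne_zero (hg m hm) k0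
  refine ⟨p.1, p.2, (Finset.mem_filter.1 hp).2,
    (pi_norm_le_iff_of_nonneg (by positivity)).2 fun ⟨g, h⟩ ↦ ?_⟩
  have hd := th_GAUGE.den τ hτ (g + h)
  have main : ∃ n, ‖x g * lv τ U h‖ ≤ 2 * ‖mu x p.1 p.2‖ * ‖x n * x (n + (g + h))‖ := by
    by_cases eg : ¬ Ev g
    · exact ⟨0, by rw [hx g, th_BAS.kk_odd g τ eg]; simp; positivity⟩
    obtain ⟨b, c, hbc, rfl⟩ := (ev_iff g).1 (not_not.1 eg)
    rcases ch_cases h with rfl | ⟨a, rfl⟩ | ⟨a, a', ha, rfl⟩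
    · exact ⟨0, by rw [hT.1]; simp; positivity⟩
    · obtain ⟨n, hn⟩ := num hx0 he (fun a b h ↦ hm (a, b) (by simpa using h)) a hbc.ne
      refine ⟨n, le_trans (le_of_eq ?_) hn⟩
      rcases sq_eq_sq_iff_eq_or_eq_neg.1 (hT.2 a) with e | e <;> simp [e]
    · exact ⟨0, by rw [lv, th_BAS.ll_even _ τ hτ U (ev_S a a' ha)]; simp; positivity⟩
  obtain ⟨n, hn⟩ := main
  rw [hx g, hx n, hx (n + _), lv, div_mul_div_comm, div_mul_div_comm, norm_div, norm_div,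
    ← mul_div_assoc, div_le_div_iff_of_pos_right (norm_pos_iff.2 (mul_ne_zero k0 k0))] at hn
  rw [norm_div, Complex.norm_real, Real.norm_of_nonneg hd.le, div_le_iff₀ hd]
  exact hn.trans (mul_le_mul_of_nonneg_left
    (norm_le_pi_norm (fun n : Ch ↦ kk n τ * kk (n + (g + h)) τ) n) (by positivity))

end ARCQ

theorem st_ARCQ (hG : St_GEO) : St_ARCQ := by
  obtain ⟨C1, p1, H1⟩ := T80A.gauge_le th_BAS th_HERM th_SYMK th_RED th_GAUGE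
  obtain ⟨C2, p2, H2'⟩ := th_GAUGE.all
  refine ⟨1 + (C1 * C2 * 4) ^ 6, le_add_of_nonneg_right (by positivity),
    fun x τ M D U ho hg hS hT ↦ ?_⟩
  obtain ⟨m, h1, -, h3⟩ := H1 x τ ho
  obtain ⟨a, b, hab, hU⟩ := ARCQ.gauge_U hG ho hg hT
  refine ⟨m, h1, fun g h ↦ ?_⟩
  obtain ⟨n, hn⟩ := T80A.num_le th_GAUGE ho (M U) g h
  refine ⟨n, a, b, hab, (pow_le_pow_left₀ (norm_nonneg _) hn 12).trans ?_⟩
  rw [norm_mul (mu x a b), mul_pow, mul_pow ‖mu x a b‖, ← mul_assoc]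
  refine mul_le_mul_of_nonneg_right ?_ (by positivity)
  have h4 := pow_le_pow_left₀ (sq_nonneg _) (h3 (M U)) 6
  have h5 : Hn τ U ≤ C2 * (2 * ‖mu x a b‖) ^ 2 := (H2' τ ho.1 U).trans
    (mul_le_mul_of_nonneg_left (pow_le_pow_left₀ (norm_nonneg _) hU 2) p2.le)
  have h6 := pow_le_pow_left₀ (th_HERM.nonneg τ ho.1 U) h5 6
  rw [hS.hn] at h4
  generalize 1 + Real.log (‖x‖ / ‖x m‖) = L at h4 ⊢
  have h7 : 0 ≤ (D : ℝ) ^ 6 * L ^ 6 * ‖mu x a b‖ ^ 12 := by positivity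
  calc gauge τ (M U) ^ 12 = (gauge τ (M U) ^ 2) ^ 6 := by ring
    _ ≤ C1 ^ 6 * L ^ 6 * D ^ 6 * Hn τ U ^ 6 := h4.trans_eq (by ring)
    _ ≤ C1 ^ 6 * L ^ 6 * D ^ 6 * (C2 * (2 * ‖mu x a b‖) ^ 2) ^ 6 := by gcongr
    _ = (C1 * C2 * 4) ^ 6 * (D ^ 6 * L ^ 6 * ‖mu x a b‖ ^ 12) := by ring
    _ ≤ _ := by linarith

end Pool.Agent.Lib.ECM.QM
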