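import Pool.Agent.Lib.QM.QBlue
import Pool.Agent.Lib.QM89.CF
import Pool.Agent.Lib.ECM.TH_All

/-! Block CNTQ: counting points with two symmetric endomorphisms of bounded size on the curve. -/

open Filter Topology Metric Complex
open scoped Real

namespace Pool.Agent.Lib.ECM.QM

open Pool.Agent.Lib.QM89 (Tw)

namespace CNTQ

theorem cube {M : ℝ} (hM : 2 ≤ M) {x y : ℝ} (h : x ^ 2 + y ^ 2 ≤ 4 * M ^ 4) :
    |x| ≤ M ^ 3 ∧ |y| ≤ M ^ 3 := by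
  have h1 : 4 * M ^ 4 ≤ (M ^ 3) ^ 2 := by
    have : 0 < M ^ 4 := by positivity
    rw [show (M ^ 3) ^ 2 = M ^ 2 * M ^ 4 by ring]
    gcongr
    nlinarith
  exact ⟨abs_le_of_sq_le_sq' (by nlinarith [sq_nonneg y]) (by positivity) |> abs_le.2,
    abs_le_of_sq_le_sq' (by nlinarith [sq_nonneg x]) (by positivity) |> abs_le.2⟩

theorem hm_comb (a b : ℤ) (r s : Fin 5 → ℤ) (τ : T3) :
    hm (a • r + b • s) τ = (a : ℂ) • hm r τ + (b : ℂ) • hm s τ := by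
  simp only [hm, ← map_smul, ← map_add]
  refine congrArg _ ?_
  ext i j
  fin_cases i <;> fin_cases j <;> simp <;> ring

/-- the height of the relations at a reduced point -/
theorem tw_of (hS : St_SL) : ∃ C : ℝ, 0 < C ∧ ∀ τ ∈ Red, ∀ (N : ℕ) (M : ℝ), 2 ≤ M → C ≤ M →
    (τ 2).im ≤ M → (N : ℝ) ≤ M → Two τ N → Tw (M ^ 9) τ := by
  obtain ⟨C, hC, h⟩ := th_HERM.red
  refine ⟨C, hC, fun τ hτ N M hM hCM hy hN ⟨M₁, M₂, D₁, D₂, s1, s2, d1, d2, hne⟩ ↦ ?_⟩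
  have h2 := th_BAS.red hτ
  obtain ⟨y1, y2, y3, y4, y5⟩ := id hτ
  have t : ∀ i, ‖τ i‖ ≤ 2 * M := fun i ↦ by
    refine (norm_le_abs_re_add_abs_im _).trans ?_
    have : |(τ i).im| ≤ M := by
      fin_cases i
      · exact abs_le.2 ⟨by change -M ≤ (τ 0).im; linarith, by change (τ 0).im ≤ M; linarith⟩
      · exact abs_le.2 ⟨by change -M ≤ (τ 1).im; linarith, by change (τ 1).im ≤ M; linarith⟩
      · exact abs_le.2 ⟨by change -M ≤ (τ 2).im; linarith, hy⟩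
    linarith [y5 i]
  have key : ∀ (L : V2 →ₗ[ℂ] V2) (D : ℕ) (r : Fin 5 → ℤ), Sy τ L D → D ≤ N → rel r τ = 0 →
      hm r τ = (2 : ℂ) • L → ∀ i, |(r i : ℝ)| ≤ M ^ 9 := fun L D r s d e1 e2 ↦ by
    have dM : (D : ℝ) ≤ M := le_trans (by exact_mod_cast d) hN
    have a1 : ∀ (j : Fin 2) (m n : ℤ × ℤ), hm r τ (Pi.single j 1) = per τ (iv m) (iv n) →
        (|(m.1 : ℝ)| ≤ M ^ 3 ∧ |(m.2 : ℝ)| ≤ M ^ 3) ∧
          |(n.1 : ℝ)| ≤ M ^ 3 ∧ |(n.2 : ℝ)| ≤ M ^ 3 := fun j m n e ↦ by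
      obtain ⟨b1, b2⟩ := (h τ hτ).2 m n
      have b0 := th_HERM.nonneg τ h2 (Pi.single j 1)
      have b3 := ((h τ hτ).1 (Pi.single j 1)).1
      rw [Pi.norm_single, norm_one, one_pow, mul_one] at b3
      rw [← e, e2, LinearMap.smul_apply, th_HERM.smul, s.hn,
        show normSq 2 = 4 by rw [normSq_ofNat]; norm_num] at b1 b2
      have b4 := b3.trans hCM
      have y0 : 0 ≤ (τ 2).im := by linarith
      refine ⟨cube hM (b2.trans ?_), cube hM (b1.trans ?_)⟩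
      · calc _ ≤ M * M * (4 * (M * M)) := by gcongr
          _ = _ := by ring
      · calc _ ≤ M * M * (4 * (M * M)) := by gcongr; nlinarith
          _ = _ := by ring
    obtain ⟨⟨k1, k0⟩, -, k3⟩ := a1 0 (r 1, -2 * r 0) (0, 2 * r 3) (by
      funext i
      fin_cases i <;> simp [hm, per, iv] <;> ring)
    obtain ⟨⟨k2, -⟩, -⟩ := a1 1 (2 * r 2, -r 1) (-2 * r 3, 0) (by
      funext i
      fin_cases i <;> simp [hm, per, iv] <;> ring)
    simp only [Int.cast_mul, Int.cast_neg, Int.cast_ofNat, abs_mul, abs_neg, abs_two] at k0 k1 k2 k3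
    have n0 : ‖(r 0 : ℂ)‖ ≤ M ^ 3 := by rw [norm_intCast]; linarith [abs_nonneg (r 0 : ℝ)]
    have n1 : ‖(r 1 : ℂ)‖ ≤ M ^ 3 := by rwa [norm_intCast]
    have n2 : ‖(r 2 : ℂ)‖ ≤ M ^ 3 := by rw [norm_intCast]; linarith [abs_nonneg (r 2 : ℝ)]
    have n3 : ‖(r 3 : ℂ)‖ ≤ M ^ 3 := by rw [norm_intCast]; linarith [abs_nonneg (r 3 : ℝ)]
    have n4 : ‖(r 4 : ℂ)‖ ≤ M ^ 9 := by
      have b1 : (r 4 : ℂ) = -(r 0 * τ 0 + r 1 * τ 1 + r 2 * τ 2 + r 3 * (τ 1 ^ 2 - τ 0 * τ 2)) := by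
        rw [rel] at e1
        linear_combination e1
      have b2 : ‖τ 1 ^ 2 - τ 0 * τ 2‖ ≤ (2 * M) ^ 2 + 2 * M * (2 * M) := (norm_sub_le _ _).trans (by
        rw [norm_pow, norm_mul]
        gcongr <;> exact t _)
      rw [b1, norm_neg]
      calc _ ≤ M ^ 3 * (2 * M) + M ^ 3 * (2 * M) + M ^ 3 * (2 * M) +
            M ^ 3 * ((2 * M) ^ 2 + 2 * M * (2 * M)) := by
            refine norm_add_le_of_le (norm_add_le_of_le (norm_add_le_of_le ?_ ?_) ?_) ?_ <;>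
              rw [norm_mul] <;> gcongr <;> exact t _
        _ = M ^ 4 * (6 + 8 * M) := by ring
        _ ≤ M ^ 4 * (2 ^ 4 * M) := by gcongr; linarith
        _ ≤ M ^ 4 * (M ^ 4 * M) := by gcongr
        _ = _ := by ring
    have p1 : M ^ 3 ≤ M ^ 9 := pow_le_pow_right₀ (by linarith) (by norm_num)
    intro i
    rw [← norm_intCast]
    fin_cases i
    exacts [n0.trans p1, n1.trans p1, n2.trans p1, n3.trans p1, n4]
  obtain ⟨r, r0, r1, r2, -⟩ := hS.to_rel τ h2 M₁ D₁ s1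
  obtain ⟨s, -, q1, q2, -⟩ := hS.to_rel τ h2 M₂ D₂ s2
  refine ⟨by nlinarith, ![r, s], LinearIndependent.pair_iff.2 fun a b e ↦ ?_, fun l ↦ ?_⟩
  · have a1 := hm_comb a b r s τ
    have a2 := hm_comb 0 0 r s τ
    simp only [zero_smul, add_zero, Int.cast_zero] at a2
    rw [e, a2, r2, q2] at a1
    have a3 : b = 0 := by_contra fun hb ↦ hne (-a / b) (by
      have hb' : (b : ℂ) ≠ 0 := Int.cast_ne_zero.2 hb
      refine smul_right_injective _ (mul_ne_zero hb' two_ne_zero) ?_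
      simp only [smul_smul]
      rw [show (b : ℂ) * 2 * (-a / b) = -(a * 2) by field_simp, neg_smul, eq_neg_iff_add_eq_zero,
        add_comm, ← smul_smul, ← smul_smul]
      exact a1.symm)
    rw [a3, zero_smul, add_zero] at e
    exact ⟨(smul_eq_zero.1 e).resolve_right r0, a3⟩
  · fin_cases l
    exacts [⟨key _ _ _ s1 d1 r1 r2, r1⟩, ⟨key _ _ _ s2 d2 q1 q2, q1⟩]

theorem two_act (hS : St_SL) (γ : Sym) {τ : T3} (hτ : τ ∈ H2) {N : ℕ} (h : Two τ N) :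
    Two (γ.act τ) N := by
  obtain ⟨M₁, M₂, D₁, D₂, s1, s2, d1, d2, hne⟩ := h
  have a := hS.map τ (γ.act τ) (LinearEquiv.ofBijective _ (γ.bij τ hτ)) (γ.lat τ hτ) (γ.herm τ hτ)
  refine ⟨_, _, D₁, D₂, a _ _ s1, a _ _ s2, d1, d2, fun c e ↦ hne c (LinearMap.ext fun v ↦ ?_)⟩
  generalize LinearEquiv.ofBijective _ (γ.bij τ hτ) = g at e
  refine g.injective ?_
  simpa using LinearMap.congr_fun e (g v)

end CNTQ

open CNT CNTQ in
theorem st_CNTQ (hS : St_SL) : St_CNTQ := by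
  classical
  rintro P ⟨A⟩ hD ε hε
  obtain ⟨C0, c0, h0⟩ := tw_of hS
  choose C C1 hC using fun j ↦ QM89.count_cht (A.mm j) (A.g j) (A.pos j) (A.an j) (indep A hD j) hε
    c0 A.C
  have s0 : 0 ≤ ∑ j, C j := Finset.sum_nonneg fun j _ ↦ C1 j
  refine ⟨A.F.card + ∑ j, C j, by positivity, fun M H N S hM hH1 hHM d1 hT ↦ ?_⟩
  have e1 : 1 ≤ H * M ^ ε :=
    one_le_mul_of_one_le_of_one_le hH1 (Real.one_le_rpow (by linarith) hε.le)
  rw [← Finset.card_filter_add_card_filter_not (s := S) (· ∈ A.F), Nat.cast_add,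
    mul_assoc, add_mul]
  refine add_le_add (le_trans ?_ (le_mul_of_one_le_right (Nat.cast_nonneg _) e1)) ?_
  · exact_mod_cast Finset.card_le_card fun x hx ↦ (Finset.mem_filter.1 hx).2
  rw [← mul_assoc, Finset.sum_mul, Finset.sum_mul]
  refine cover_le _ Finset.univ _ _ (fun x hx ↦ ?_) fun j _ S' hS' ↦ hC j M H
    (fun τ m ↦ kk m ((A.γ j).inv τ) / kk 0 ((A.γ j).inv τ)) S' hM hH1 hHM
    fun x hx ↦ (hS' x hx).2
  obtain ⟨a1, a2⟩ := Finset.mem_filter.1 hx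
  obtain ⟨b1, b2, τ, b3, b4⟩ := hT x a1
  obtain ⟨γ, hγ⟩ := th_RED τ b3.1
  obtain ⟨j, w, c1, c2, c3, c4, c5⟩ := A.cover x b1 a2 τ b3 γ hγ
  refine ⟨j, Finset.mem_univ _, w, ⟨c1, c2, c5.imp_right fun ⟨m, h1, h2⟩ ↦ by linarith [b2 m h1],
    fun M' m1 m2 m3 ↦ ?_⟩, (funext c4.2.2).symm⟩
  rw [← c3] at m3 ⊢
  exact h0 _ hγ N M' (by linarith) m2 m3 (by linarith) (two_act hS γ b3.1 b4)

end Pool.Agent.Lib.ECM.QM
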