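import Pool.Agent.Lib.QM.FQB
import Pool.Agent.Lib.QM.Q_KIT

/-! Block FINQ: the bound at the finite places. -/

open Polynomial Filter Topology

namespace Pool.Agent.Lib.ECM.QM

open Pool.Agent.Lib.QM.T6 Pool.Agent.Lib.ECM.T42

namespace FINQ

/-- exponent of `r i` in the theta function with characteristic `m` on the theta divisor -/
def xp (m : Ch) (i : Fin 5) : ℕ := if m = od i ∨ ∃ j, j ≠ i ∧ m = S i j then 1 else 0

/-- a linear form on the characteristics -/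
def dp (v m : Ch) : ZMod 2 := v.1 * m.1 + v.2.1 * m.2.1 + v.2.2.1 * m.2.2.1 + v.2.2.2 * m.2.2.2

theorem dp_hom (v : Ch) : ∃ L : Ch →+ ZMod 2, ∀ m, L m = dp v m :=
  ⟨AddMonoidHom.mk' (dp v) fun a b ↦ by
    simp only [dp, Prod.fst_add, Prod.snd_add]
    ring, fun _ ↦ rfl⟩

theorem xp_lin : ∀ i, ∃ v : Ch, ∀ m, (xp m i : ZMod 2) + xp m 0 = dp v m + dp v hA := by
  decide +kernel

theorem xp_od : ∀ a i, xp (od a) i = if i = a then 1 else 0 := by decide +kernel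

theorem xp_S : ∀ a b, a ≠ b → ∀ i,
    xp (S a b) i = (if i = a then 1 else 0) + if i = b then 1 else 0 := by decide +kernel

theorem par {n : ℕ} (hn : Even n) {d : Ch →₀ ℕ}
    (hd : Finsupp.weight (fun h : Ch ↦ ((1 : ℕ), h)) d = (n, 0)) :
    (∑ m, d m = n) ∧ ∀ i, (∑ m, xp m i * d m) % 2 = (∑ m, xp m 0 * d m) % 2 := by
  rw [Finsupp.weight_apply, Finsupp.sum_fintype _ _ (by simp)] at hd
  have h1 : ∑ m, d m = n := by simpa [Prod.fst_sum] using congrArg Prod.fst hd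
  have h2 : ∑ m, d m • m = 0 := by simpa [Prod.snd_sum] using congrArg Prod.snd hd
  refine ⟨h1, fun i ↦ ?_⟩
  obtain ⟨v, hv⟩ := xp_lin i
  obtain ⟨L, hL⟩ := dp_hom v
  have h3 : ∑ m, (d m : ZMod 2) * dp v m = 0 := by
    have := congrArg L h2
    rw [map_sum, map_zero] at this
    rw [← this]
    exact Finset.sum_congr rfl fun m _ ↦ by rw [map_nsmul, nsmul_eq_mul, hL]
  have h4 : ∑ m, (d m : ZMod 2) = 0 := by
    rw [← Nat.cast_sum, h1]; exact (ZMod.natCast_eq_zero_iff_even).2 hn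
  rw [← ZMod.natCast_eq_natCast_iff', ← CharTwo.add_eq_zero, Nat.cast_sum, Nat.cast_sum,
    ← Finset.sum_add_distrib]
  have h5 (m : Ch) : ((xp m i * d m : ℕ) : ZMod 2) + ((xp m 0 * d m : ℕ) : ZMod 2) =
      (d m : ZMod 2) * dp v m + d m * dp v hA := by
    rw [Nat.cast_mul, Nat.cast_mul, ← add_mul, hv]; ring
  rw [Finset.sum_congr rfl fun m _ ↦ h5 m, Finset.sum_add_distrib, h3, ← Finset.sum_mul, h4,
    zero_mul, add_zero]

theorem rep {n : ℕ} (hn : Even n) {P : MvPolynomial Ch ℂ}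
    (hP : P.IsWeightedHomogeneous (fun h : Ch ↦ ((1 : ℕ), h)) (n, 0)) (k : Ch → ℂ)
    (E : Fin 5 → ℂ) (γ : ℂ) : ∃ a b : ℂ[X], ∀ (c ξ η : ℂ) (r : Fin 5 → ℂ),
      (∀ i, r i ^ 2 = γ ^ 2 * ξ - E i) → ∏ i, r i = γ ^ 5 * η →
      MvPolynomial.eval (fun m ↦ c * (k m * ∏ i, r i ^ xp m i)) P = c ^ n * pv a b ξ η := by
  classical
  have mono (d : Ch →₀ ℕ) (hd : d ∈ P.support) : ∃ a b : ℂ[X], ∀ (c ξ η : ℂ) (r : Fin 5 → ℂ),
      (∀ i, r i ^ 2 = γ ^ 2 * ξ - E i) → ∏ i, r i = γ ^ 5 * η →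
      P.coeff d * ∏ m, (c * (k m * ∏ i, r i ^ xp m i)) ^ d m = c ^ n * pv a b ξ η := by
    obtain ⟨h1, h2⟩ := par hn (hP (MvPolynomial.mem_support_iff.1 hd))
    let N : Fin 5 → ℕ := fun i ↦ ∑ m, xp m i * d m
    let W : ℂ[X] := C (P.coeff d * ∏ m, k m ^ d m) * ∏ i, (C (γ ^ 2) * X - C (E i)) ^ (N i / 2)
    have key (c ξ η : ℂ) (r : Fin 5 → ℂ) (hr : ∀ i, r i ^ 2 = γ ^ 2 * ξ - E i) :
        P.coeff d * ∏ m, (c * (k m * ∏ i, r i ^ xp m i)) ^ d m =
          c ^ n * (W.eval ξ * (∏ i, r i) ^ (N 0 % 2)) := by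
      have e1 : ∏ m, (∏ i, r i ^ xp m i) ^ d m = ∏ i, r i ^ N i := by
        simp only [← Finset.prod_pow, ← pow_mul, N, ← Finset.prod_pow_eq_pow_sum]
        exact Finset.prod_comm
      have e2 (i) : r i ^ N i = (γ ^ 2 * ξ - E i) ^ (N i / 2) * r i ^ (N 0 % 2) := by
        rw [← hr, ← pow_mul, ← pow_add, ← h2 i, Nat.div_add_mod]
      simp only [mul_pow, Finset.prod_mul_distrib, e1, e2, Finset.prod_pow_eq_pow_sum, h1, W,
        eval_mul, eval_C, eval_prod, eval_pow, eval_sub, eval_X, Finset.prod_pow]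
      ring
    rcases Nat.mod_two_eq_zero_or_one (N 0) with e | e
    · exact ⟨W, 0, fun c ξ η r hr hy ↦ by rw [key c ξ η r hr, e]; simp [pv]⟩
    · refine ⟨0, C (γ ^ 5) * W, fun c ξ η r hr hy ↦ ?_⟩
      rw [key c ξ η r hr, e, hy]
      simp only [pv, eval_zero, eval_mul, eval_C]
      ring
  choose! a b hab using mono
  refine ⟨∑ d ∈ P.support, a d, ∑ d ∈ P.support, b d, fun c ξ η r hr hy ↦ ?_⟩
  rw [MvPolynomial.eval_eq', Finset.sum_congr rfl fun d hd ↦ hab d hd c ξ η r hr hy]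
  simp only [pv, eval_finsetSum, Finset.sum_mul, ← Finset.sum_add_distrib, Finset.mul_sum]

theorem mu_div (k : Ch → ℂ) (t : ℂ) (a : Fin 5) (ha : a ≠ 4) :
    mu (fun m ↦ k m / t) a 4 = mu k a 4 / t ^ 3 := by
  have : ∀ a : Fin 5, a ≠ 4 → (Finset.univ.filter fun p : Fin 5 × Fin 5 ↦
    p.1 < p.2 ∧ p.1 ≠ a ∧ p.1 ≠ 4 ∧ p.2 ≠ a ∧ p.2 ≠ 4).card = 3 := by decide +kernel
  rw [mu, Finset.prod_div_distrib, Finset.prod_const, this a ha, mu]

theorem nu_div (k : Ch → ℂ) (t : ℂ) (a : Fin 5) : nu (fun m ↦ k m / t) a = nu k a / t ^ 4 := by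
  rw [nu, Finset.prod_div_distrib, Finset.prod_const, Finset.card_erase_of_mem (Finset.mem_univ a),
    nu]
  rfl

end FINQ

open FINQ

theorem st_FINQ (hA' : St_ARC5) (hR : St_RAT) : St_FINQ := by
  rintro x τ M D U ⟨hτ, k0, hx⟩ hG hS hT V g h
  classical
  by_cases hh : Ev h
  · exact ⟨0, 0, 1, by decide, by simp [lv, th_BAS.ll_even h τ hτ _ hh]⟩
  obtain rfl : x = fun m ↦ kk m τ / kk 0 τ := funext hx
  set U' : V2 := kk 0 τ ^ 3 • U with hU'
  have lU (m : Ch) (v : V2) : ll m τ (kk 0 τ ^ 3 • v) = kk 0 τ ^ 4 * lv τ v m := by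
    simp only [lv, ll, dth, map_smul, smul_eq_mul]
    field_simp
  have u0 : ll hA τ U' = 0 := by rw [lU, hT.1, mul_zero]
  have u1 (a) : ll (od a) τ U' ^ 2 = nu (fun m ↦ kk m τ) a ^ 2 := by
    rw [lU, mul_pow, hT.2, nu_div]
    field_simp
  obtain ⟨A, E, z, c, s, r, E4, hE, H⟩ := hA' τ hτ hG U' u0 u1
  obtain ⟨q, P, hP, hq⟩ := hR τ hτ M D hS
  obtain ⟨a0, a4, ha0⟩ := (Finset.univ.erase (4 : Fin 5)).exists_max_image
    (fun a ↦ V.valuation (mu (fun m ↦ kk m τ) a 4)) ⟨0, by decide⟩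
  replace a4 := Finset.ne_of_mem_erase a4
  set γ := mu (fun m ↦ kk m τ) a0 4 with hγ
  have γ0 : γ ≠ 0 := KIT.mu_ne hG _ _
  have EV (a) : E a / γ ^ 2 ∈ V := by
    by_cases ha : a = 4
    · simp [ha, E4]
    rw [← V.valuation_le_one_iff, map_div₀, div_le_one₀ (by simpa [zero_lt_iff] using γ0)]
    refine (pow_le_pow_iff_left₀ zero_le zero_le two_ne_zero).1 ?_
    rw [← map_pow, hE a ha, map_pow, map_pow, ← pow_mul]
    exact pow_le_pow_left' (ha0 a (Finset.mem_erase.2 ⟨ha, Finset.mem_univ a⟩)) 4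
  let f : V[X] := ∏ a, (X - C ⟨E a / γ ^ 2, EV a⟩)
  have fe (w : ℂ) : (f.map (algebraMap V ℂ)).eval w = ∏ a, (w - E a / γ ^ 2) := by
    simp [f, Polynomial.map_prod, eval_prod]
  let k : Ch → ℂ := fun m ↦ if Ev m then kk m τ else ll m τ U'
  choose a b hab using fun m ↦ rep (n := 4 * D) ⟨2 * D, by ring⟩ (hP m) k E γ
  let ξ : ℂ → ℂ := fun u ↦ s u / γ ^ 2
  let η : ℂ → ℂ := fun u ↦ (∏ i, r i u) / γ ^ 5
  let c' : ℂ → ℂ := fun u ↦ Complex.exp (-Qf q (z u)) *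
    (th (od 0) τ (z u) / (ll (od 0) τ U' * r 0 u)) ^ (4 * D)
  have hne (B : ℂ[X]) (hB : B ≠ 0) : ∀ᶠ u in 𝓝[≠] (0 : ℂ), B.eval (ξ u) ≠ 0 := by
    have := ((B.finite_setOfPred_isRoot hB).image fun w ↦ w * γ ^ 2).isBounded
    filter_upwards [H.big (Bornology.isBounded_def.1 this)] with u hu e
    exact hu ⟨ξ u, e, div_mul_cancel₀ _ (pow_ne_zero 2 γ0)⟩
  have l0 : ll (od 0) τ U' ≠ 0 := fun e ↦ KIT.nu_ne (x := fun m ↦ kk m τ) hG 0
    (pow_eq_zero_iff two_ne_zero |>.1 (by rw [← u1, e]; simp))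
  have sq : ∀ᶠ u in 𝓝[≠] (0 : ℂ), η u ^ 2 = (f.map (algebraMap V ℂ)).eval (ξ u) := by
    filter_upwards [H.ev] with u hu
    rw [fe]
    simp only [η, ξ, ← sub_div, div_pow, ← Finset.prod_pow, hu.2.2.2.2.1, Finset.prod_div_distrib,
      Finset.prod_const, ← pow_mul]
    rfl
  have fm : f.Monic := monic_prod_of_monic _ _ fun a _ ↦ monic_X_sub_C _
  have nz : ∀ᶠ u in 𝓝[≠] (0 : ℂ), ∏ i, r i u ≠ 0 := by
    filter_upwards [sq, hne _ (fm.map (algebraMap V ℂ)).ne_zero] with u h1 h2 e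
    exact h2 (by rw [← h1]; simp [η, e])
  have dz : ∀ᶠ u in 𝓝[≠] (0 : ℂ), DifferentiableAt ℂ z u :=
    (H.an.eventually_analyticAt.mono fun u hu ↦ hu.differentiableAt).filter_mono nhdsWithin_le_nhds
  let M' := LinearMap.toContinuousLinearMap M
  refine (finq_abs th_BAS th_DER hτ hG V f fm
    (by rw [natDegree_prod_of_monic _ _ fun a _ ↦ monic_X_sub_C _]; simp; decide)
    (Z := fun u ↦ (2 : ℂ) • M (z u)) (Z' := fun u ↦ (2 : ℂ) • M (deriv z u)) (ξ := ξ) (η := η)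
    (δ := fun u ↦ γ ^ 3 * deriv s u / (2 * ∏ i, r i u)) (c := c') a b
    (by
      have : ContinuousAt (fun u ↦ (2 : ℂ) • M (z u)) 0 :=
        (M'.continuous.continuousAt.comp H.an.continuousAt).const_smul (2 : ℂ)
      have := this.tendsto
      rw [H.z0, map_zero, smul_zero] at this
      exact this.mono_left nhdsWithin_le_nhds)
    (Eventually.of_forall fun u ↦ ⟨by simp only [ξ, H.se], by
      simp only [η, H.ro, Fin.prod_univ_five]; ring⟩) hne ?_ g h hh 1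
    (C (4 * ll h τ (M A) / γ ^ 3) - C (2 * ll h τ (M U') / γ) * X) ?_ 1).elim fun n hn ↦ ?_
  rotate_right
  · refine ⟨n, a0, 4, a4, ?_⟩
    have e1 : 16 * (kk g τ / kk 0 τ * lv τ (M U) h) =
        -(2 * (γ / kk 0 τ ^ 5 * (4 * (kk g τ * (0 - 2 * ll h τ (M U') / γ))))) := by
      rw [hU', map_smul, lU]
      field_simp
      ring
    have e2 : mu (fun m ↦ kk m τ / kk 0 τ) a0 4 *
        (kk n τ / kk 0 τ * (kk (n + (g + h)) τ / kk 0 τ)) =
        γ / kk 0 τ ^ 5 * (kk n τ * kk (n + (g + h)) τ) := by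
      rw [mu_div _ _ _ a4, ← hγ]
      field_simp
    rw [coeff_sub, coeff_C_mul, coeff_C_of_ne_zero one_ne_zero, coeff_X_one, mul_one] at hn
    rw [e1, e2, Valuation.map_neg, map_mul, map_mul, map_mul V.valuation (γ / _)]
    refine (mul_le_of_le_one_left' ?_).trans (mul_le_mul_right hn _)
    exact (V.valuation_le_one_iff _).2 (natCast_mem V 2)
  · filter_upwards [H.ev, eventually_eventually_nhdsWithin.2 sq, nz, dz, self_mem_nhdsWithin]
      with u hu h1 h2 h3 u0'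
    rw [nhdsWithin_eq_nhds.2 (isOpen_compl_singleton.mem_nhds u0')] at h1
    obtain ⟨c0, t0, t1, t2, t3, d1, d2, s0, -⟩ := hu
    have r0 : r 0 u ≠ 0 := Finset.prod_ne_zero_iff.1 h2 0 (Finset.mem_univ _)
    have e0 : η u ≠ 0 := div_ne_zero h2 (pow_ne_zero 5 γ0)
    have dξ : HasDerivAt ξ (γ ^ 3 * deriv s u / (2 * ∏ i, r i u) * (2 * η u)) u :=
      (d2.hasDerivAt.div_const _).congr_deriv (by simp only [η]; field_simp)
    have dη : DifferentiableAt ℂ η u :=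
      (DifferentiableAt.fun_finsetProd fun i _ ↦ d1 i).div_const _
    refine ⟨(M'.hasFDerivAt.comp_hasDerivAt u h3.hasDerivAt).const_smul (2 : ℂ), dξ, ?_,
      div_ne_zero (mul_ne_zero (pow_ne_zero 3 γ0) s0) (mul_ne_zero two_ne_zero h2),
      h1.self_of_nhds, ?_, fun m ↦ ?_⟩
    · have := (dη.hasDerivAt.pow 2).unique
        ((((f.map (algebraMap V ℂ)).hasDerivAt _).comp u dξ).congr_of_eventuallyEq h1)
      refine dη.hasDerivAt.congr_deriv (mul_left_cancel₀ (mul_ne_zero two_ne_zero e0) ?_)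
      simp only [Nat.cast_ofNat, Nat.add_one_sub_one, pow_one] at this
      linear_combination this
    · have z0 (i) : DifferentiableAt ℂ (fun u ↦ z u i) u := differentiableAt_pi.1 h3 i
      refine DifferentiableAt.mul (DifferentiableAt.cexp ?_) (DifferentiableAt.pow
        (((th_BAS.diff_th _ τ hτ _).comp u h3).div ((d1 0).const_mul _) (mul_ne_zero l0 r0)) _)
      simp only [Qf]
      fun_prop
    · have e1 : (fun m ↦ th m τ (z u)) = fun m ↦ c u * (k m * ∏ i, r i u ^ xp m i) := by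
        funext m
        rcases ch_cases m with rfl | ⟨a, rfl⟩ | ⟨a, b, hab, rfl⟩
        · simp [t0, k, odd_hA, u0]
        · simp [t1, k, odd_od, xp_od]
        · simp only [xp_S a b hab, pow_add, Finset.prod_mul_distrib]
          simp [t2 a b hab, k, ev_S a b hab]
      have e2 := hq m (z u)
      rw [e1, hab m (c u) (ξ u) (η u) (fun i ↦ r i u)
        (fun i ↦ by rw [t3, mul_div_cancel₀ _ (pow_ne_zero 2 γ0)])
        (by rw [mul_div_cancel₀ _ (pow_ne_zero 5 γ0)])] at e2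
      simp only [c', t1 0, mul_div_cancel_right₀ _ (mul_ne_zero l0 r0), Complex.exp_neg]
      rw [mul_assoc, ← e2]
      field_simp
  · filter_upwards [H.ev, nz] with u hu h2
    have := congrArg (fun v ↦ ll h τ (M v)) hu.2.2.2.2.2.2.2.2
    simp only [ll, dth, map_smul, map_sub, smul_eq_mul] at this
    simp only [ll, dth, map_smul, smul_eq_mul, Polynomial.map_one, eval_one, eval_sub, eval_mul,
      eval_C, eval_X, ξ]
    field_simp
    linear_combination 4 * this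

end Pool.Agent.Lib.ECM.QM
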