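import Pool.Agent.Lib.QM.Q_TT

/-! Block GEO: the kernels of the gradients of the odd theta functions. -/

noncomputable section

namespace Pool.Agent.Lib.ECM.QM

namespace T97

theorem ll_lin (h : Ch) (τ : T3) (s t : ℂ) (u v : V2) :
    ll h τ (s • u + t • v) = s * ll h τ u + t * ll h τ v := by simp [ll, dth]

theorem rs_sq (e f g η : Ch) : (rs e f g η : ℂ) ^ 2 = 1 := by
  rcases rs_sn e f g η with h | h <;> simp [h]

theorem ne_of {a b c d e : Fin 5} (H : [a, b, c, d, e].Nodup) : a ≠ b ∧ a ≠ c ∧ a ≠ d ∧ a ≠ e ∧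
    b ≠ c ∧ b ≠ d ∧ b ≠ e ∧ c ≠ d ∧ c ≠ e ∧ d ≠ e := by
  simp only [List.nodup_cons, List.mem_cons, List.not_mem_nil, or_false, not_or] at H
  tauto

theorem five' : ∀ b c : Fin 5, b ≠ c → ∃ a d e, [a, b, c, d, e].Nodup ∧ [b, c, a, d, e].Nodup ∧
    [c, b, a, d, e].Nodup := by decide +kernel

/-- two of the gradients are independent -/
theorem inj {τ : T3} (hτ : τ ∈ H2) (hG : Gen τ) (i : Fin 5) {w : V2} (h1 : ll hA τ w = 0)
    (h2 : ll (od i) τ w = 0) : w = 0 := by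
  have h3 : ll (od 0) τ w = 0 := by
    by_cases h : i = 0
    · exact h ▸ h2
    obtain ⟨a, d, e, H, -⟩ := five' i 0 h
    obtain ⟨n1, -, -, -, -, n2, n3, -⟩ := ne_of H
    have := tt1' H hτ w
    rw [h1, h2] at this
    simpa [hG _ (ev_S _ _ n1), hG _ (ev_S _ _ n2), hG _ (ev_S _ _ n3)] using this
  exact (th_GAUGE.ind τ hτ hG).1 (Prod.ext (h1.trans (by simp [ll, dth])) (h3.trans
    (by simp [ll, dth])))

/-- the product over all pairs -/
def al (x : Ch → ℂ) : ℂ :=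
  ∏ p ∈ Finset.univ.filter (fun p : Fin 5 × Fin 5 ↦ p.1 < p.2), x (S p.1 p.2)

/-- an ordered pair -/
def op (a b : Fin 5) : Fin 5 × Fin 5 := (min a b, max a b)

theorem sets' : ∀ a b c d e : Fin 5, [a, b, c, d, e].Nodup →
    Finset.univ.filter (fun p : Fin 5 × Fin 5 ↦ p.1 < p.2) = [op a b, op a c, op a d, op a e,
      op b c, op b d, op b e, op c d, op c e, op d e].toFinset ∧ [op a b, op a c, op a d, op a e,
      op b c, op b d, op b e, op c d, op c e, op d e].Nodup := by decide +kernel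

theorem al_eq (x : Ch → ℂ) {a b c d e : Fin 5} (H : [a, b, c, d, e].Nodup) :
    al x = x (S a b) * x (S a c) * x (S a d) * x (S a e) * x (S b c) * x (S b d) * x (S b e) *
      x (S c d) * x (S c e) * x (S d e) := by
  have s (i j : Fin 5) : S (min i j) (max i j) = S i j := by
    rcases le_total i j with h | h <;> simp [h, S_comm]
  rw [al, (sets' _ _ _ _ _ H).1, List.prod_toFinset _ (sets' _ _ _ _ _ H).2]
  simp [mul_assoc, s, op]

theorem xne {x τ} (ho : Over x τ) (hG : Gen τ) {a b : Fin 5} (h : a ≠ b) : x (S a b) ≠ 0 :=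
  ho.2.2 _ ▸ div_ne_zero (hG _ (ev_S _ _ h)) ho.2.1

theorem ttx {x τ} (ho : Over x τ) {a b c d e : Fin 5} (H : [a, b, c, d, e].Nodup) (v : V2) :
    x (S b d) * x (S b e) * (x (S a b) * lv τ v (od c)) =
      rs (S a b) (od c) (S b d) (od b) * (x (S c d) * x (S c e) * (x (S a c) * lv τ v (od b))) +
      rs (S a b) (od c) (S b d) hA * (x (S a d) * x (S a e) * (lv τ v hA * x (S d e))) := by
  have := tt1' H ho.1 v
  have h0 := ho.2.1
  simp only [ho.2.2, lv]
  field_simp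
  linear_combination this

theorem surj {x τ} (ho : Over x τ) (hG : Gen τ) (p q : ℂ) :
    ∃ v, lv τ v hA = p ∧ lv τ v (od 0) = q := by
  obtain ⟨v, hv⟩ := (th_GAUGE.ind τ ho.1 hG).2 (kk 0 τ * p, kk 0 τ * q)
  obtain ⟨h1, h2⟩ := Prod.ext_iff.1 hv
  exact ⟨v, by rw [lv, show ll hA τ v = _ from h1, mul_div_cancel_left₀ _ ho.2.1],
    by rw [lv, show ll (od 0) τ v = _ from h2, mul_div_cancel_left₀ _ ho.2.1]⟩

/-- the tangent vector -/
theorem tang : ∃ η : Fin 5 → ℤ, (∀ c, η c = 1 ∨ η c = -1) ∧ ∀ x τ, Over x τ → Gen τ →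
    ∃ U, lv τ U hA = 0 ∧ ∀ c, lv τ U (od c) = η c * nu x c := by
  have (c : Fin 5) : ∃ η : ℤ, (η = 1 ∨ η = -1) ∧ ∀ x τ U, Over x τ → Gen τ → lv τ U hA = 0 →
      lv τ U (od 0) = nu x 0 → lv τ U (od c) = η * nu x c := by
    by_cases h : 0 = c
    · exact ⟨1, .inl rfl, fun x τ U _ _ _ h2 ↦ by simpa [← h] using h2⟩
    obtain ⟨a, d, e, H, H1, H2⟩ := five' 0 c h
    refine ⟨_, rs_sn (S a 0) (od c) (S 0 d) (od 0), fun x τ U ho hG h1 h2 ↦ ?_⟩
    obtain ⟨n1, -, -, -, -, n2, n3, -⟩ := ne_of H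
    have := ttx ho H U
    rw [h1, h2, nu_eq x H1, S_comm 0 a, S_comm 0 c] at this
    rw [nu_eq x H2, S_comm c a]
    refine mul_left_cancel₀ (mul_ne_zero (mul_ne_zero (xne ho hG n1) (xne ho hG n2))
      (xne ho hG n3)) ?_
    linear_combination this
  choose η h1 h2 using this
  refine ⟨η, h1, fun x τ ho hG ↦ ?_⟩
  obtain ⟨U, a, b⟩ := surj ho hG 0 (nu x 0)
  exact ⟨U, a, fun c ↦ h2 c x τ U ho hG a b⟩

theorem nune {x τ} (ho : Over x τ) (hG : Gen τ) (a : Fin 5) : nu x a ≠ 0 :=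
  Finset.prod_ne_zero_iff.2 fun _ hj ↦ xne ho hG (Finset.ne_of_mem_erase hj).symm

/-- differences of branch points -/
theorem dif (b c : Fin 5) (h : b ≠ c) : ∃ σ : ℤ, (σ = 1 ∨ σ = -1) ∧ ∀ x τ, Over x τ → Gen τ →
    ∀ (U u : V2) (η p q : ℂ), η ^ 2 = 1 → lv τ U hA = 0 → lv τ U (od c) = η * nu x c →
      lv τ u hA = al x → lv τ u (od b) = -p * lv τ U (od b) → lv τ u (od c) = -q * lv τ U (od c) →
      p - q = σ * η * mu x b c ^ 2 := by
  obtain ⟨a, d, e, H, H1, H2⟩ := five' b c h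
  refine ⟨_, rs_sn (S a b) (od c) (S b d) hA, fun x τ ho hG U u η p q h0 h1 h2 h3 h4 h5 ↦ ?_⟩
  obtain ⟨n1, -, -, -, -, n2, n3, -⟩ := ne_of H
  have e1 := ttx ho H U
  have e2 := ttx ho H u
  rw [h3, h4, h5, al_eq x H] at e2
  rw [h1] at e1
  rw [h2] at e1 e2
  refine mul_left_cancel₀ (mul_ne_zero (mul_ne_zero (mul_ne_zero (xne ho hG n1) (xne ho hG n2))
    (xne ho hG n3)) (nune ho hG c)) ?_
  rw [nu_eq x H2, S_comm c b, S_comm c a] at e1 e2 ⊢
  rw [mu_eq x H1]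
  linear_combination η * e2 + η * p * e1 - (p - q) * (x (S a b) * x (S b d) * x (S b e) *
    (x (S b c) * x (S a c) * x (S c d) * x (S c e))) * h0

end T97

open T97 in
theorem st_GEO : St_GEO where
  jac := by
    obtain ⟨η, hη, hU⟩ := tang
    choose! σ hσ hd using dif
    have n4 (a : Fin 4) : (4 : Fin 5) ≠ a.castSucc := (Fin.castSucc_lt_last a).ne'
    have sq (c) : (η c : ℂ) ^ 2 = 1 := by rcases hη c with h | h <;> simp [h]
    refine ⟨fun a ↦ -(σ 4 a.castSucc * η a.castSucc), fun a ↦ ?_, fun x τ ho hG ↦ ?_⟩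
    · rcases hσ _ _ (n4 a) with h | h <;> rcases hη a.castSucc with h' | h' <;> simp [h, h']
    obtain ⟨U, h1, h2⟩ := hU x τ ho hG
    have l0 (c) : lv τ U (od c) ≠ 0 := h2 c ▸ mul_ne_zero
      (fun e ↦ by simpa [e] using sq c) (nune ho hG c)
    have lin (s t : ℂ) (u v h) : lv τ (s • u + t • v) h = s * lv τ u h + t * lv τ v h := by
      simp only [lv, ll_lin]; ring
    obtain ⟨u, h3, h4⟩ : ∃ u, lv τ u hA = al x ∧ lv τ u (od 4) = 0 := by
      obtain ⟨u, a, -⟩ := surj ho hG (al x) 0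
      refine ⟨(1 : ℂ) • u + (-lv τ u (od 4) / lv τ U (od 4)) • U, by rw [lin, a, h1]; ring, ?_⟩
      rw [lin, div_mul_cancel₀ _ (l0 4)]
      ring
    let E : Fin 5 → ℂ := fun c ↦ -lv τ u (od c) / lv τ U (od c)
    have hE (c) : lv τ u (od c) = -E c * lv τ U (od c) := by
      rw [neg_mul, div_mul_cancel₀ _ (l0 c), neg_neg]
    have D (b c) (h : b ≠ c) : E b - E c = σ b c * η c * mu x b c ^ 2 :=
      hd b c h x τ ho hG U u _ _ _ (sq c) h1 (h2 c) h3 (hE b) (hE c)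
    have E4 : E 4 = 0 := by simp [E, h4]
    have ms (a b) (h : a ≠ b) : mu x a b = mu x b a := by
      obtain ⟨c, d, e, -, H1, H2⟩ := five' a b h
      rw [mu_eq x H1, mu_eq x H2]
    have eE : rt (Er (fun a ↦ -(σ 4 a.castSucc * η a.castSucc)) x) = E := by
      have k (a : Fin 4) : Er (fun a ↦ -(σ 4 a.castSucc * η a.castSucc)) x a = E a.castSucc := by
        have := D _ _ (n4 a)
        rw [E4, ms _ _ (n4 a)] at this
        simp only [Er]
        push_cast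
        linear_combination this
      funext i
      fin_cases i
      exacts [k 0, k 1, k 2, k 3, E4.symm]
    have lz {v h} (e : lv τ v h = 0) : ll h τ v = 0 := (div_eq_zero_iff.1 e).resolve_right ho.2.1
    rw [Jac, eE]
    refine ⟨⟨ho.1, hG, u, U, LinearIndependent.pair_iff.2 fun s t e ↦ ?_, lz h1, fun i ↦ lz ?_⟩,
      fun a b h ↦ ?_⟩
    · have z (h) : lv τ 0 h = 0 := by simp [lv, ll, dth]
      have a0 : al x ≠ 0 := Finset.prod_ne_zero_iff.2 fun _ hp ↦
        xne ho hG (Finset.mem_filter.1 hp).2.ne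
      have e1 := lin s t u U hA
      have e2 := lin s t u U (od 4)
      rw [e, z] at e1 e2
      rw [h3, h1] at e1
      rw [h4] at e2
      exact ⟨by simpa [a0] using e1, by simpa [l0 4] using e2⟩
    · rw [← one_smul ℂ u, lin, hE i]
      ring
    · rw [D a b h]
      rcases hσ a b h with e | e <;> rw [e] <;> push_cast <;>
        linear_combination mu x a b ^ 4 * sq b
  uniq := by
    rintro e e' τ ⟨hτ, hG, u, v, h1, h2, h3⟩ ⟨-, -, u', v', h1', h2', h3'⟩
    have a4 : ll (od 4) τ u = 0 := by simpa [rt] using h3 4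
    have a4' : ll (od 4) τ u' = 0 := by simpa [rt] using h3' 4
    have u0 : ll hA τ u ≠ 0 := fun h ↦ h1.ne_zero 0 (inj hτ hG 4 h a4)
    have u0' : ll hA τ u' ≠ 0 := fun h ↦ h1'.ne_zero 0 (inj hτ hG 4 h a4')
    have v0 (i) : ll (od i) τ v ≠ 0 := fun h ↦ h1.ne_zero 1 (inj hτ hG i h2 h)
    have v0' (i) : ll (od i) τ v' ≠ 0 := fun h ↦ h1'.ne_zero 1 (inj hτ hG i h2' h)
    have eu : ll hA τ u • u' + (-ll hA τ u') • u = 0 :=
      inj hτ hG 4 (by rw [ll_lin]; ring) (by rw [ll_lin, a4, a4']; ring)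
    have ev : ll (od 4) τ v • v' + (-ll (od 4) τ v') • v = 0 :=
      inj hτ hG 4 (by rw [ll_lin, h2, h2']; ring) (by rw [ll_lin]; ring)
    have z (h) : ll h τ 0 = 0 := by simp [ll, dth]
    have key (i) : rt e' i = ll hA τ u' * ll (od 4) τ v / (ll hA τ u * ll (od 4) τ v') * rt e i := by
      have b1 := ll_lin (od i) τ (ll hA τ u) (-ll hA τ u') u' u
      have b2 := ll_lin (od i) τ (ll (od 4) τ v) (-ll (od 4) τ v') v' v
      have b3 := ll_lin (od i) τ 1 (rt e i) u v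
      have b4 := ll_lin (od i) τ 1 (rt e' i) u' v'
      rw [eu, z] at b1
      rw [ev, z] at b2
      rw [one_smul, h3] at b3
      rw [one_smul, h3'] at b4
      have := v0' 4
      field_simp
      refine mul_left_cancel₀ (v0 i) ?_
      linear_combination ll (od 4) τ v * b1 + rt e' i * ll hA τ u * b2 +
        ll hA τ u' * ll (od 4) τ v * b3 - ll hA τ u * ll (od 4) τ v * b4
    refine ⟨_, div_ne_zero (mul_ne_zero u0' (v0 4)) (mul_ne_zero u0 (v0' 4)), funext fun a ↦ ?_⟩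
    fin_cases a
    exacts [key 0, key 1, key 2, key 3]
  tg := by
    intro x τ ho hG
    obtain ⟨η, hη, hU⟩ := tang
    obtain ⟨U, h1, h2⟩ := hU x τ ho hG
    exact ⟨U, h1, fun a ↦ by rw [h2]; rcases hη a with h | h <;> simp [h]⟩

end Pool.Agent.Lib.ECM.QM
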