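import Pool.Agent.Lib.QM.QBlue

/-! A non-real scalar which preserves the lattice gives two independent singular relations. -/

open Complex

noncomputable section

namespace Pool.Agent.Lib.ECM.QM

namespace XSQ2

theorem sing2 {τ : T3} (hτ : τ ∈ H2) (h : SqCM τ) : Sing2 τ := by
  obtain ⟨a, ha, h⟩ := h
  obtain ⟨m, n, e⟩ := h _ ⟨(1, 0), (0, 0), rfl⟩
  obtain ⟨m', n', e'⟩ := h _ ⟨(0, 1), (0, 0), rfl⟩
  have e0 := congrFun e 0
  have e1 := congrFun e 1
  have e2 := congrFun e' 1
  simp [per, iv] at e0 e1 e2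
  have hn : n.1 ≠ 0 := fun h0 ↦ by
    have i0 := congrArg im e0
    have i1 := congrArg im e1
    simp [h0] at i0 i1
    rcases i1 with i1 | i1
    · have := hτ.2
      rw [i1, mul_zero] at this
      exact absurd this (not_lt.2 (sq_nonneg _))
    · exact ha (by simp [i0, i1])
  refine ⟨![0, n.1, n.2, 0, m.2], ![n.1, n.2 - n'.1, -n'.2, 0, m.1 - m'.2],
    LinearIndependent.pair_iff.2 fun x y k ↦ ?_, ?_, ?_⟩
  · have k0 := congrFun k 0
    have k1 := congrFun k 1
    simp [hn] at k0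
    simp [hn, k0] at k1
    exact ⟨k1, k0⟩
  · simp [rel]
    linear_combination -e1
  · simp [rel]
    linear_combination e2 - e0

end XSQ2

theorem st_SQ2 (hS : St_SL) : St_SQ2 := fun τ hτ h ↦ (hS.two τ hτ).1 (XSQ2.sing2 hτ h)

end Pool.Agent.Lib.ECM.QM
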