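import Pool.Agent.Lib.QM.QAll1
import Pool.Agent.Lib.QM.P_All
import Pool.Agent.Lib.QM.Q_GEO
import Pool.Agent.Lib.QM.Q_ARC5
import Pool.Agent.Lib.QM.Q_FINQ
import Pool.Agent.Lib.QM.Q_ARCQ
import Pool.Agent.Lib.QM.Q_SQ2
import Pool.Agent.Lib.QM.Q_CNTQ

/-! Assembly of the theorem on curves which miss the triple root lines, second part. -/

namespace Pool.Agent.Lib.ECM.QM

theorem q_THM : St_THM :=
  q_THM1 st_GEO (st_FINQ st_ARC5 st_RAT) (st_ARCQ st_GEO) (st_SQ2 st_SL) pt2 (st_CNTQ st_SL)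

end Pool.Agent.Lib.ECM.QM
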