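import Pool.Agent.Lib.ECM.SDefs2

/-! Definitions used in the statement on curves of genus two Jacobians (problem MP_0704bf_ag). -/

namespace Pool.Agent.Lib.ECM.QM

/-- the complex points of the affine variety defined by `P` -/
def Zs (P : Ideal (MvPolynomial (Fin 4) Qb)) : Set (Fin 4 → ℂ) :=
  {e | ∀ f ∈ P, MvPolynomial.aeval e f = 0}

/-- the five finite branch points `e₀, e₁, e₂, e₃, 0` -/
def rt (e : Fin 4 → ℂ) : Fin 5 → ℂ := ![e 0, e 1, e 2, e 3, 0]

/-- the odd characteristics other than `hA` -/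
def od : Fin 5 → Ch := ![(0, 1, 0, 1), (0, 1, 1, 1), (1, 0, 1, 1), (1, 1, 0, 1), (1, 1, 1, 0)]

/-- `τ` is a period matrix of the curve `y² = ∏ (x - rt e i)`: no even theta constant vanishes and
the kernels of the gradients of the six odd theta functions are the points `∞`, `rt e i` in some
projective coordinate -/
def Jac (e : Fin 4 → ℂ) (τ : T3) : Prop :=
  τ ∈ H2 ∧ Gen τ ∧ ∃ u v : V2, LinearIndependent ℂ ![u, v] ∧ ll hA τ v = 0 ∧
    ∀ i, ll (od i) τ (u + rt e i • v) = 0

/-- the left side of a singular relation of Humbert -/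
def rel (r : Fin 5 → ℤ) (τ : T3) : ℂ :=
  r 0 * τ 0 + r 1 * τ 1 + r 2 * τ 2 + r 3 * (τ 1 ^ 2 - τ 0 * τ 2) + r 4

/-- `τ` satisfies two independent singular relations -/
def Sing2 (τ : T3) : Prop :=
  ∃ r s : Fin 5 → ℤ, LinearIndependent ℤ ![r, s] ∧ rel r τ = 0 ∧ rel s τ = 0

end Pool.Agent.Lib.ECM.QM
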