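import Pool.Agent.Lib.ECM.M_END

/-! Conjugation of an endomorphism from its polynomial formula. -/

open Complex Filter Topology
open scoped Real

noncomputable section

namespace Pool.Agent.Lib.ECM.QM.XCJ

open CJ MEND MvPolynomial

/-- the weight of a variable: degree one and its characteristic -/
def wt (h : Ch) : ℕ × Ch := (1, h)

/-- the polynomial formula for `th m (2 M z)` -/
def Rf (τ : T3) (M : V2 →ₗ[ℂ] V2) (n : ℕ) (P : Ch → MvPolynomial Ch ℂ) : Prop :=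
  (∀ m, (P m).IsWeightedHomogeneous wt (n, 0)) ∧ ∃ S : T3, ∀ m z,
    th m τ ((2 : ℂ) • M z) * exp (Qf S z) = eval (fun h ↦ th h τ z) (P m)

theorem chi_hom {P : MvPolynomial Ch ℂ} {k : ℕ × Ch} (hP : P.IsWeightedHomogeneous wt k)
    (χ : ℕ × Ch → ℂ) (h0 : χ 0 = 1) (h1 : ∀ a b, χ (a + b) = χ a * χ b) (y : Ch → ℂ) :
    eval (fun h ↦ χ (wt h) * y h) P = χ k * eval y P := by
  have hn : ∀ (j : ℕ) a, χ (j • a) = χ a ^ j := fun j a ↦ by
    induction j with
    | zero => simpa using h0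
    | succ j ih => rw [succ_nsmul, h1, ih, pow_succ]
  have hs : ∀ (s : Finset Ch) (f : Ch → ℕ × Ch), χ (∑ i ∈ s, f i) = ∏ i ∈ s, χ (f i) :=
    fun s f ↦ by
      induction s using Finset.induction_on with
      | empty => simpa using h0
      | insert a s ha ih => rw [Finset.sum_insert ha, Finset.prod_insert ha, h1, ih]
  rw [eval_eq, eval_eq, Finset.mul_sum]
  refine Finset.sum_congr rfl fun d hd ↦ ?_
  rw [← hP (mem_support_iff.1 hd), Finsupp.weight_apply, Finsupp.sum, hs]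
  simp only [hn, mul_pow, Finset.prod_mul_distrib]
  ring

theorem hom_eval {P : MvPolynomial Ch ℂ} {n : ℕ} (hP : P.IsWeightedHomogeneous wt (n, 0))
    (c : ℂ) (y : Ch → ℂ) : eval (fun h ↦ c * y h) P = c ^ n * eval y P := by
  simpa [wt] using chi_hom hP (fun a ↦ c ^ a.1) (by simp) (fun a b ↦ by simp [pow_add]) y

theorem hom_map {P : MvPolynomial Ch ℂ} {k : ℕ × Ch} (hP : P.IsWeightedHomogeneous wt k)
    (σ : ℂ →+* ℂ) : (map σ P).IsWeightedHomogeneous wt k := fun d hd ↦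
  hP fun h ↦ hd (by rw [coeff_map, h, map_zero])

theorem eval_conj (σ : ℂ →+* ℂ) (P : MvPolynomial Ch ℂ) (y : Ch → ℂ) :
    eval (fun h ↦ σ (y h)) (map σ P) = σ (eval y P) := by
  induction P using MvPolynomial.induction_on with
  | C a => simp
  | add p q hp hq => simp only [map_add, hp, hq]
  | mul_X p i hp => simp only [map_mul, hp, map_X, eval_X]

theorem hom_bound {P : MvPolynomial Ch ℂ} {n : ℕ} (hP : P.IsWeightedHomogeneous wt (n, 0)) :
    ∃ K : ℝ, 0 ≤ K ∧ ∀ y, ‖eval y P‖ ≤ K * ‖y‖ ^ n := by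
  refine ⟨∑ d ∈ P.support, ‖P.coeff d‖, Finset.sum_nonneg fun _ _ ↦ norm_nonneg _, fun y ↦ ?_⟩
  rw [eval_eq, Finset.sum_mul]
  refine (norm_sum_le _ _).trans (Finset.sum_le_sum fun d hd ↦ ?_)
  have h1 : ∑ i ∈ d.support, d i = n := by
    have := congrArg Prod.fst (hP (mem_support_iff.1 hd))
    rw [Finsupp.weight_apply, Finsupp.sum, Prod.fst_sum] at this
    simpa [wt] using this
  rw [norm_mul, norm_prod, ← h1, ← Finset.prod_pow_eq_pow_sum]
  refine mul_le_mul_of_nonneg_left (Finset.prod_le_prod (fun _ _ ↦ norm_nonneg _) fun i _ ↦ ?_)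
    (norm_nonneg _)
  rw [norm_pow]
  exact pow_le_pow_left₀ (norm_nonneg _) (norm_le_pi_norm y i) _

variable {τ τ' : T3} {σ : ℂ →+* ℂ} {M M' : V2 →ₗ[ℂ] V2} {n : ℕ} {P : Ch → MvPolynomial Ch ℂ}

theorem diff_ev (hτ : τ ∈ H2) (Q : MvPolynomial Ch ℂ) :
    Differentiable ℂ fun z ↦ eval (fun h ↦ th h τ z) Q := by
  induction Q using MvPolynomial.induction_on with
  | C a => simp
  | add p q hp hq => simpa only [map_add] using hp.fun_add hq
  | mul_X p i hp => simpa only [map_mul, eval_X] using hp.fun_mul (th_BAS.diff_th i τ hτ)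

/-- the two tuples are proportional -/
def Cr (τ : T3) (M : V2 →ₗ[ℂ] V2) (P : Ch → MvPolynomial Ch ℂ) : Prop := ∀ m m' z,
  th m τ ((2 : ℂ) • M z) * eval (fun h ↦ th h τ z) (P m') =
    th m' τ ((2 : ℂ) • M z) * eval (fun h ↦ th h τ z) (P m)

theorem cross (hR : Rf τ M n P) (h : ∀ z', ∃ z, Cd σ τ z τ' z' ∧ Cd σ τ (M z) τ' (M' z')) :
    Cr τ' M' fun m ↦ map σ (P m) := fun m m' z' ↦ by
  obtain ⟨hP, S, hS⟩ := hR
  obtain ⟨z, c1, c2⟩ := h z'
  have c3 := cd_smul c2 2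
  rw [map_ofNat] at c3
  have J := fun {u u' : V2} (c : Cd σ τ u τ' u') ↦
    th_JET σ τ c.mem τ' c.mem' u u' c.k0 c.k0' c.hk c.hl
  have dl : ∀ {τ : T3}, τ ∈ H2 → ∀ m v, Differentiable ℂ fun t : ℂ ↦ th m τ (t • v) :=
    fun h m v ↦ (th_BAS.diff_th m _ h).comp (differentiable_id.smul_const v)
  have ev : ∀ {τ : T3}, τ ∈ H2 → kk 0 τ ≠ 0 → ∀ v, ∀ᶠ t : ℂ in 𝓝 0, th 0 τ (t • v) ≠ 0 :=
    fun h k v ↦ (dl h 0 v).continuous.continuousAt.eventually_ne (by simpa [kk] using k)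
  have sc : ∀ {τ : T3} {w : V2} {Q : MvPolynomial Ch ℂ}, Q.IsWeightedHomogeneous wt (n, 0) →
      th 0 τ w ≠ 0 → eval (fun h ↦ th h τ w) Q =
        th 0 τ w ^ n * eval (fun h ↦ th h τ w / th 0 τ w) Q := fun {τ w Q} hQ h0 ↦ by
    rw [← hom_eval hQ]
    exact congrArg (eval · Q) (funext fun h ↦ (mul_div_cancel₀ _ h0).symm)
  have j := (th_JC.zero (th_JC.add (th_JC.mul (J c3 m) (th_JC.poly (J c1) (P m')))
    (th_JC.mul (th_JC.const σ (-1)) (th_JC.mul (J c3 m') (th_JC.poly (J c1) (P m)))))).1 (by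
      filter_upwards [ev c1.mem c1.k0 z, ev c1.mem c1.k0 ((2 : ℂ) • M z)] with t h1 h2
      have a := hS m (t • z)
      have b := hS m' (t • z)
      rw [sc (hP _) h1, map_smul, smul_comm] at a b
      refine mul_left_cancel₀ (pow_ne_zero n h1) ?_
      simp only [Pi.zero_apply]
      linear_combination (th m' τ (t • (2 : ℂ) • M z) * a - th m τ (t • (2 : ℂ) • M z) * b) /
        th 0 τ (t • (2 : ℂ) • M z))
  have dq : ∀ Q, Differentiable ℂ fun t : ℂ ↦ eval (fun h ↦ th h τ' (t • z')) Q := fun Q ↦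
    (diff_ev c1.mem' Q).comp (differentiable_id.smul_const z')
  have an : ∀ f : ℂ → ℂ, Differentiable ℂ f → AnalyticOnNhd ℂ f Set.univ := fun f hf t _ ↦
    hf.analyticAt t
  have := AnalyticOnNhd.eq_of_eventuallyEq
    (an _ ((dl c1.mem' m ((2 : ℂ) • M' z')).mul (dq (map σ (P m')))))
    (an _ ((dl c1.mem' m' ((2 : ℂ) • M' z')).mul (dq (map σ (P m))))) (z₀ := 0) (by
      filter_upwards [j, ev c1.mem' c1.k0' z', ev c1.mem' c1.k0' ((2 : ℂ) • M' z')] with t a h1 h2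
      simp only [Pi.mul_apply, Pi.zero_apply, map_neg, map_one] at a ⊢
      rw [sc (hom_map (hP _) σ) h1, sc (hom_map (hP m) σ) h1]
      field_simp at a
      linear_combination th 0 τ' (t • z') ^ n * a)
  simpa using congrFun this 1

theorem nonvan (hR : Rf τ M n P) (k0 : kk 0 τ ≠ 0) (k0' : kk 0 τ' ≠ 0)
    (hk : ∀ m, kk m τ' / kk 0 τ' = σ (kk m τ / kk 0 τ)) :
    eval (fun h ↦ th h τ' 0) (map σ (P 0)) ≠ 0 := by
  obtain ⟨hP, S, hS⟩ := hR
  have a := hS 0 0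
  have x1 : (fun h ↦ th h τ' 0) = fun m ↦ kk 0 τ' * σ (kk m τ / kk 0 τ) :=
    funext fun m ↦ by rw [← hk, mul_div_cancel₀ _ k0']; rfl
  have x2 : (fun h ↦ th h τ 0) = fun m ↦ kk 0 τ * (kk m τ / kk 0 τ) :=
    funext fun m ↦ by rw [mul_div_cancel₀ _ k0]; rfl
  rw [x2, hom_eval (hP 0), map_zero, smul_zero] at a
  rw [x1, hom_eval (hom_map (hP 0) σ), eval_conj]
  refine mul_ne_zero (pow_ne_zero _ k0') ((map_ne_zero σ).2 fun h ↦ ?_)
  rw [h, mul_zero] at a
  exact mul_ne_zero k0 (exp_ne_zero _) a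

/-- the sign of the translation by a period -/
def sgn (μ ν : ℤ × ℤ) (m : Ch) : ℂ := exp (2 * π * I * (dot (ca m) (iv μ) - dot (cb m) (iv ν)))

theorem val_add (a b : ZMod 2) : ∃ k : ℤ, ((a + b).val : ℂ) = a.val + b.val + 2 * k := by
  have : ∀ a b : ZMod 2, ((a + b).val : ℤ) = a.val + b.val + 2 * -(a.val * b.val) := by decide
  exact ⟨-(a.val * b.val), by exact_mod_cast this a b⟩

theorem sgn_add (μ ν : ℤ × ℤ) (a b : Ch) : sgn μ ν (a + b) = sgn μ ν a * sgn μ ν b := by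
  obtain ⟨k1, e1⟩ := val_add a.1 b.1
  obtain ⟨k2, e2⟩ := val_add a.2.1 b.2.1
  obtain ⟨k3, e3⟩ := val_add a.2.2.1 b.2.2.1
  obtain ⟨k4, e4⟩ := val_add a.2.2.2 b.2.2.2
  rw [sgn, sgn, sgn, ← exp_add, exp_eq_exp_iff_exists_int]
  refine ⟨k1 * μ.1 + k2 * μ.2 - k3 * ν.1 - k4 * ν.2, ?_⟩
  simp only [dot, ca, cb, iv, Matrix.cons_val_zero, Matrix.cons_val_one, Prod.fst_add,
    Prod.snd_add, e1, e2, e3, e4]
  push_cast
  ring

theorem sgn_zero (μ ν : ℤ × ℤ) : sgn μ ν 0 = 1 := by simp [sgn, dot, ca, cb]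

theorem lat_of_cr (hτ : τ ∈ H2) (hP : ∀ m, (P m).IsWeightedHomogeneous wt (n, 0)) (hC : Cr τ M P)
    (h0 : eval (fun h ↦ th h τ 0) (P 0) ≠ 0) : ∀ l ∈ Lat τ, M l ∈ Lat τ := by
  rintro _ ⟨μ, ν, rfl⟩
  set l := per τ (iv μ) (iv ν)
  set E := exp (-π * I * (Qf τ (iv ν) + 2 * dot (iv ν) 0))
  have e : ∀ m, eval (fun h ↦ th h τ l) (P m) = E ^ n * eval (fun h ↦ th h τ 0) (P m) := fun m ↦ by
    have := chi_hom (hP m) (fun a ↦ E ^ a.1 * sgn μ ν a.2) (by simp [sgn_zero])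
      (fun a b ↦ by simp only [Prod.fst_add, Prod.snd_add, pow_add, sgn_add]; ring)
      fun h ↦ th h τ 0
    rw [sgn_zero, mul_one] at this
    rw [← this]
    refine congrArg (eval · (P m)) (funext fun h ↦ ?_)
    have t := th_BAS.th_per h τ μ ν 0
    rw [zero_add] at t
    simp only [wt, pow_one]
    rw [t, sgn]
    ring
  obtain ⟨w, hw, e2⟩ := th_INJ τ hτ ((2 : ℂ) • M l) 0 fun m m' ↦ by
    have a := hC m 0 l
    have b := hC m' 0 l
    have c := hC m 0 0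
    have d := hC m' 0 0
    have f := hC m m' 0
    rw [e, e] at a b
    rw [map_zero, smul_zero] at c d f
    refine mul_left_cancel₀ (mul_ne_zero (pow_ne_zero n (exp_ne_zero _ : E ≠ 0)) h0) ?_
    linear_combination th m' τ 0 * a - th m τ 0 * b - th 0 τ ((2 : ℂ) • M l) * E ^ n * f
  rw [sub_zero] at e2
  rwa [smul_right_injective V2 (two_ne_zero (α := ℂ)) e2]

theorem hn_of_cr (hτ : τ ∈ H2)
    (hP : ∀ m, (P m).IsWeightedHomogeneous wt (n, 0)) (hC : Cr τ M P)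
    (h0 : eval (fun h ↦ th h τ 0) (P 0) ≠ 0) (v : V2) : 4 * Hn τ (M v) ≤ n * Hn τ v := by
  obtain ⟨c, C, hc, b⟩ := th_NORM τ hτ
  have hne : ∀ z, ∃ m, th m τ z ≠ 0 := fun z ↦ by
    by_contra h
    push Not at h
    have h1 := (b z).1
    rw [show (fun m ↦ th m τ z) = 0 from funext h, norm_zero] at h1
    exact absurd h1 (not_le.2 (by positivity))
  choose s hs using fun z ↦ hne ((2 : ℂ) • M z)
  let φ : V2 → ℂ := fun z ↦ eval (fun h ↦ th h τ z) (P (s z)) / th (s z) τ ((2 : ℂ) • M z)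
  have hφ : ∀ z m, eval (fun h ↦ th h τ z) (P m) = φ z * th m τ ((2 : ℂ) • M z) := fun z m ↦ by
    simp only [φ]
    rw [div_mul_eq_mul_div, eq_div_iff (hs z)]
    linear_combination hC (s z) m z
  have hMd : Differentiable ℂ fun z : V2 ↦ (2 : ℂ) • M z :=
    (LinearMap.toContinuousLinearMap M).differentiable.fun_const_smul _
  have hd : Differentiable ℂ φ := fun z ↦ by
    have d1 := (th_BAS.diff_th (s z) τ hτ).comp hMd
    have n0 : ∀ᶠ w in 𝓝 z, th (s z) τ ((2 : ℂ) • M w) ≠ 0 :=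
      d1.continuous.continuousAt.eventually_ne (hs z)
    refine DifferentiableAt.congr_of_eventuallyEq
      (f := fun w ↦ eval (fun h ↦ th h τ w) (P (s z)) * (th (s z) τ ((2 : ℂ) • M w))⁻¹)
      ((diff_ev hτ _ z).mul ((d1 z).inv (hs z))) ?_
    filter_upwards [n0] with w hw
    rw [hφ w (s z), mul_inv_cancel_right₀ hw]
  choose K K0 hK using fun m ↦ hom_bound (hP m)
  have hC0 : 0 ≤ C := by
    have := (norm_nonneg _).trans (b 0).2
    exact nonneg_of_mul_nonneg_left this (Real.exp_pos _)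
  have key := XTOR.liou φ hd (fun h ↦ h0 (by rw [hφ, h, zero_mul]))
    (fun z ↦ qI τ ((2 : ℂ) • M z)) (fun z ↦ n * qI τ z) ((∑ m, K m) * C ^ n / c) (fun z ↦ by
      have h1 : ‖φ z‖ * ‖fun m ↦ th m τ ((2 : ℂ) • M z)‖ ≤
          (∑ m, K m) * (C * Real.exp (π * qI τ z)) ^ n := by
        rw [← norm_smul]
        refine (pi_norm_le_iff_of_nonneg (mul_nonneg (Finset.sum_nonneg fun m _ ↦ K0 m)
          (by positivity))).2 fun m ↦ ?_
        rw [Pi.smul_apply, smul_eq_mul, ← hφ]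
        exact (hK m _).trans (mul_le_mul (Finset.single_le_sum (fun m _ ↦ K0 m) (Finset.mem_univ m))
          (pow_le_pow_left₀ (norm_nonneg _) (b z).2 n) (by positivity)
          (Finset.sum_nonneg fun m _ ↦ K0 m))
      have h2 := (mul_le_mul_of_nonneg_left (b ((2 : ℂ) • M z)).1 (norm_nonneg _)).trans h1
      rw [mul_sub, Real.exp_sub, div_mul_div_comm, le_div_iff₀ (by positivity)]
      rwa [mul_pow, ← Real.exp_nat_mul, mul_left_comm (n : ℝ), ← mul_assoc _ (C ^ n)] at h2) v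
    (Hn τ ((2 : ℂ) • M v)) (n * Hn τ v)
    (fun t ↦ by
      rw [map_smul M I, smul_comm (2 : ℂ) I, th_HERM.qI_add, map_smul, smul_comm, th_HERM.smul])
    (fun t ↦ by rw [← mul_add, th_HERM.qI_add, th_HERM.smul]; ring)
  rw [th_HERM.smul] at key
  convert key using 2
  simp [normSq_apply]
  norm_num

end Pool.Agent.Lib.ECM.QM.XCJ
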