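import Pool.Agent.Lib.ECM.SDefs
import Pool.Agent.Lib.helper6.Dim

/-! Finite covers of a projective curve: dimension and lifting of points. -/

open Polynomial

noncomputable section

namespace Pool.Agent.Lib.ECM.QM.CONE

theorem ext_hom {A B Ω : Type} [CommRing A] [CommRing B] [Algebra A B] [Algebra.IsIntegral A B]
    [Field Ω] [IsAlgClosed Ω] (hi : Function.Injective (algebraMap A B)) (ψ0 : A →+* Ω) :
    ∃ ψ : B →+* Ω, ∀ a, ψ (algebraMap A B a) = ψ0 a := by
  have hp : (RingHom.ker ψ0).IsPrime := RingHom.ker_isPrime ψ0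
  obtain ⟨Q, -, hQ, hQp⟩ := Ideal.exists_ideal_over_prime_of_isIntegral (S := B) (RingHom.ker ψ0) ⊥
    (by rw [← RingHom.ker_eq_comap_bot, (RingHom.injective_iff_ker_eq_bot _).1 hi]; exact bot_le)
  have : Q.LiesOver (RingHom.ker ψ0) := ⟨hQp.symm⟩
  let _ : Algebra (A ⧸ RingHom.ker ψ0) Ω := (RingHom.kerLift ψ0).toAlgebra
  have : Module.IsTorsionFree (A ⧸ RingHom.ker ψ0) Ω :=
    Module.isTorsionFree_iff_algebraMap_injective.2 (RingHom.kerLift_injective ψ0)
  have : Module.IsTorsionFree (A ⧸ RingHom.ker ψ0) (B ⧸ Q) :=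
    Module.isTorsionFree_iff_algebraMap_injective.2 (FaithfulSMul.algebraMap_injective _ _)
  let l : (B ⧸ Q) →ₐ[A ⧸ RingHom.ker ψ0] Ω := IsAlgClosed.lift
  refine ⟨l.toRingHom.comp (Ideal.Quotient.mk Q), fun a ↦ ?_⟩
  exact l.commutes (Ideal.Quotient.mk _ a)

/-- a point of `A` where `d` does not vanish extends to roots of fractions with denominator `d` -/
theorem ext_root {A L ι : Type} [CommRing A] [Field L] (j : A →+* L) (hj : Function.Injective j)
    (ψ : A →+* ℂ) {d : A} (hd : ψ d ≠ 0) (y : ι → L) (D : ι → A)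
    (hy : ∀ i, y i ^ 8 * j d = j (D i)) :
    ∃ (B : Subring L) (χ : B →+* ℂ), (∀ a, ∃ h : j a ∈ B, χ ⟨j a, h⟩ = ψ a) ∧ ∀ i, y i ∈ B := by
  have d0 : j d ≠ 0 := fun e ↦ hd (by rw [hj (e.trans (map_zero j).symm), map_zero])
  let A1 := Localization.Away d
  let j1 : A1 →+* L := IsLocalization.Away.lift d d0.isUnit
  let ψ1 : A1 →+* ℂ := IsLocalization.Away.lift d hd.isUnit
  have e1 : ∀ a, j1 (algebraMap A A1 a) = j a := IsLocalization.Away.lift_eq d _
  have e2 : ∀ a, ψ1 (algebraMap A A1 a) = ψ a := IsLocalization.Away.lift_eq d _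
  have i1 : Function.Injective j1 :=
    (IsLocalization.injective_iff_map_algebraMap_eq (Submonoid.powers d) j1).2 fun a b ↦
      ⟨congrArg _, fun h ↦ by rw [e1, e1] at h; rw [hj h]⟩
  let _ : Algebra A1 L := j1.toAlgebra
  obtain ⟨χ, hχ⟩ := ext_hom (A := A1) (B := integralClosure A1 L)
    (fun a b h ↦ i1 (congrArg Subtype.val h)) ψ1
  refine ⟨(integralClosure A1 L).toSubring, χ, fun a ↦ ⟨?_, ?_⟩, fun i ↦ ?_⟩
  · rw [← e1]
    exact (integralClosure A1 L).algebraMap_mem _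
  · rw [← e2, ← hχ]
    exact congrArg χ (Subtype.ext (e1 a).symm)
  · refine IsIntegral.of_pow (n := 8) (by norm_num) ?_
    have e3 : j d * j1 (IsLocalization.Away.invSelf d) = 1 := by
      rw [← e1, ← map_mul, IsLocalization.Away.mul_invSelf, map_one]
    have e4 : y i ^ 8 = algebraMap A1 L (algebraMap A A1 (D i) * IsLocalization.Away.invSelf d) := by
      change _ = j1 _
      rw [map_mul, e1, ← hy, mul_assoc, e3, mul_one]
    rw [e4]
    exact isIntegral_algebraMap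

theorem fin0 {Q : Ideal (MvPolynomial Ch ℚ)} [Q.IsPrime]
    (h : Algebra.trdeg ℚ (MvPolynomial Ch ℚ ⧸ Q) = 0) : (Cv Q).Finite := by
  choose q q0 hq using fun m ↦
    (trdeg_eq_zero_iff.1 h).isAlgebraic (Ideal.Quotient.mkₐ ℚ Q (MvPolynomial.X m))
  refine (Set.Finite.pi' fun m ↦ (q m).rootSet_finite ℂ).subset fun x hx m ↦
    mem_rootSet.2 ⟨q0 m, ?_⟩
  have e : Ideal.Quotient.liftₐ Q (MvPolynomial.aeval x) hx
    (Ideal.Quotient.mkₐ ℚ Q (MvPolynomial.X m)) = x m := MvPolynomial.aeval_X x m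
  rw [← e, aeval_algHom_apply, hq, map_zero]

variable {S : Type} [CommRing S] [Algebra ℚ S]

/-- the cone over the image of a variety -/
def cn (π : MvPolynomial Ch ℚ →ₐ[ℚ] S) (E : Fin 4 → MvPolynomial Ch ℚ) :
    MvPolynomial (Fin 4) ℚ →ₐ[ℚ] S[X] :=
  MvPolynomial.aeval fun a ↦ X * C (π (E a))

variable {π : MvPolynomial Ch ℚ →ₐ[ℚ] S}

/-- identities on the cone may be checked at the points -/
theorem pts {W : Set (Ch → ℂ)} (hW : ∀ f ∈ MvPolynomial.vanishingIdeal ℚ W, π f = 0)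
    (F : (MvPolynomial Ch ℚ)[X])
    (h : ∀ x ∈ W, ∀ t : ℂ, F.eval₂ (MvPolynomial.aeval x).toRingHom t = 0) :
    F.map π.toRingHom = 0 := by
  ext n
  rw [coeff_map, coeff_zero]
  refine hW _ fun x hx ↦ ?_
  have : F.map (MvPolynomial.aeval x : MvPolynomial Ch ℚ →ₐ[ℚ] ℂ).toRingHom = 0 :=
    Polynomial.funext fun t ↦ by rw [eval_map, h x hx, eval_zero]
  simpa using congrArg (coeff · n) this

variable [IsDomain S] {E : Fin 4 → MvPolynomial Ch ℚ}
  {D : Ch → MvPolynomial (Fin 4) ℚ} {d : MvPolynomial (Fin 4) ℚ}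

theorem alg (hπ : Function.Surjective π) (hE : π (E 0) ≠ 0) (hd : cn π E d ≠ 0)
    (hD : ∀ m, C (π (MvPolynomial.X m)) ^ 8 * cn π E d = cn π E (D m)) :
    Algebra.IsAlgebraic (cn π E).range S[X] := by
  have a0 : ∀ f, IsAlgebraic (cn π E).range (cn π E f) := fun f ↦
    isAlgebraic_algebraMap (⟨_, f, rfl⟩ : (cn π E).range)
  have a1 : ∀ f, IsAlgebraic (cn π E).range (C (π f)) := fun f ↦ by
    induction f using MvPolynomial.induction_on with
    | C a =>
      have := a0 (MvPolynomial.C a)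
      rw [MvPolynomial.algHom_C] at this ⊢
      exact this
    | add p q hp hq => simpa only [map_add] using hp.add hq
    | mul_X p i hp =>
      rw [map_mul, map_mul]
      refine hp.mul (IsAlgebraic.of_pow (n := 8) (by norm_num)
        (IsAlgebraic.of_mul (mem_nonZeroDivisors_of_ne_zero hd) (a0 d) ?_))
      rw [mul_comm, hD]
      exact a0 _
  have a2 : IsAlgebraic (cn π E).range (X : S[X]) := by
    refine IsAlgebraic.of_mul (mem_nonZeroDivisors_of_ne_zero (C_ne_zero.2 hE)) (a1 (E 0)) ?_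
    have := a0 (MvPolynomial.X 0)
    rwa [show cn π E (MvPolynomial.X 0) = _ from MvPolynomial.aeval_X _ _, mul_comm] at this
  refine ⟨fun p ↦ ?_⟩
  induction p using Polynomial.induction_on with
  | C a =>
    obtain ⟨f, rfl⟩ := hπ a
    exact a1 f
  | add p q hp hq => exact hp.add hq
  | monomial n a h =>
    rw [pow_succ, ← mul_assoc]
    exact h.mul a2

theorem dims (hπ : Function.Surjective π) (hE : π (E 0) ≠ 0) (hd : cn π E d ≠ 0)
    (hD : ∀ m, C (π (MvPolynomial.X m)) ^ 8 * cn π E d = cn π E (D m))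
    {P : Ideal (MvPolynomial (Fin 4) ℚ)} [P.IsPrime]
    (hP : ringKrullDim (MvPolynomial (Fin 4) ℚ ⧸ P) = 2) (hc : ∀ f ∈ P, cn π E f = 0) :
    Algebra.trdeg ℚ S = 0 ∨ ringKrullDim S = 1 ∧ ∀ f, cn π E f = 0 → f ∈ P := by
  have := alg hπ hE hd hD
  have := RingHom.ker_isPrime (cn π E)
  have : Algebra.FiniteType ℚ S := .of_surjective π hπ
  have : FaithfulSMul ℚ S := (faithfulSMul_iff_algebraMap_injective _ _).2 (RingHom.injective _)
  obtain ⟨s, s1, s2⟩ := helper6.exists_dim_trdeg ℚ S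
  obtain ⟨r, r1, r2⟩ := helper6.exists_dim_trdeg ℚ (MvPolynomial (Fin 4) ℚ ⧸ RingHom.ker (cn π E))
  have e1 := trdeg_add_eq ℚ S (A := S[X])
  have e2 := trdeg_add_eq ℚ (cn π E).range (A := S[X])
  rw [trdeg_eq_zero (A := S[X]), add_zero,
    ← (Ideal.quotientKerEquivRange (cn π E)).trdeg_eq, r2, ← e1, s2,
    Polynomial.trdeg_of_isDomain] at e2
  have e3 : r = s + 1 := by exact_mod_cast e2
  have hle : P ≤ RingHom.ker (cn π E) := hc
  have l1 := ringKrullDim_le_of_surjective _ (Ideal.Quotient.factor_surjective hle)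
  rw [r1, hP] at l1
  have l2 : r ≤ 2 := by exact_mod_cast l1
  rcases Nat.eq_zero_or_pos s with rfl | h
  · exact Or.inl (by exact_mod_cast s2)
  obtain rfl : s = 1 := by omega
  refine Or.inr ⟨by exact_mod_cast s1, fun f hf ↦ by_contra fun hn ↦ ?_⟩
  have l3 := ringKrullDim_succ_le_of_surjective _ (Ideal.Quotient.factor_surjective hle)
    (mem_nonZeroDivisors_of_ne_zero fun h ↦ hn (Ideal.Quotient.eq_zero_iff_mem.1 h))
    (Ideal.Quotient.eq_zero_iff_mem.2 hf)
  rw [r1, hP, e3] at l3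
  exact absurd l3 (by decide)

theorem lift (hD : ∀ m, C (π (MvPolynomial.X m)) ^ 8 * cn π E d = cn π E (D m))
    {e : Fin 4 → ℂ} (he : ∀ f, cn π E f = 0 → MvPolynomial.aeval e f = 0)
    (hd : MvPolynomial.aeval e d ≠ 0) :
    ∃ x : Ch → ℂ, (∀ f, π f = 0 → MvPolynomial.aeval x f = 0) ∧
      (∀ m, x m ^ 8 * MvPolynomial.aeval e d = MvPolynomial.aeval e (D m)) ∧
      ∀ a b, MvPolynomial.aeval x (E a) * e b = MvPolynomial.aeval x (E b) * e a := by
  let i := algebraMap S[X] (FractionRing S[X])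
  obtain ⟨B, χ, h1, h2⟩ := ext_root (i.comp (RingHom.kerLift (cn π E).toRingHom))
    ((IsFractionRing.injective S[X] (FractionRing S[X])).comp (RingHom.kerLift_injective _))
    (Ideal.Quotient.lift _ (MvPolynomial.aeval e).toRingHom he) (d := Ideal.Quotient.mk _ d) hd
    (fun m ↦ i (C (π (MvPolynomial.X m)))) (fun m ↦ Ideal.Quotient.mk _ (D m))
    fun m ↦ by
      change _ * i (cn π E d) = i (cn π E (D m))
      rw [← hD, map_mul, map_pow]
  have h3 : ∀ f, ∃ h : i (cn π E f) ∈ B, χ ⟨_, h⟩ = MvPolynomial.aeval e f :=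
    fun f ↦ h1 (Ideal.Quotient.mk _ f)
  choose k1 k2 using h3
  have h4 : ∀ f, ∃ h : i (C (π f)) ∈ B,
      χ ⟨_, h⟩ = MvPolynomial.aeval (fun m ↦ χ ⟨_, h2 m⟩) f := fun f ↦ by
    induction f using MvPolynomial.induction_on with
    | C a =>
      have e1 : C (π (MvPolynomial.C a)) = cn π E (MvPolynomial.C a) := by
        rw [MvPolynomial.algHom_C, MvPolynomial.algHom_C]
        rfl
      simp only [e1]
      exact ⟨k1 _, by rw [k2, MvPolynomial.algHom_C, MvPolynomial.algHom_C]⟩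
    | add p q hp hq =>
      obtain ⟨a, b⟩ := hp
      obtain ⟨c, d⟩ := hq
      simp only [map_add]
      exact ⟨add_mem a c, by rw [← b, ← d]; exact map_add χ ⟨_, a⟩ ⟨_, c⟩⟩
    | mul_X p m hp =>
      obtain ⟨a, b⟩ := hp
      simp only [map_mul]
      exact ⟨mul_mem a (h2 m), by
        rw [← b, MvPolynomial.aeval_X]; exact map_mul χ ⟨_, a⟩ ⟨_, h2 m⟩⟩
  choose k3 k4 using h4
  refine ⟨fun m ↦ χ ⟨_, h2 m⟩, fun f hf ↦ ?_, fun m ↦ ?_, fun a b ↦ ?_⟩
  · rw [← k4, ← map_zero χ]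
    refine congrArg χ (Subtype.ext ?_)
    simp only [hf, map_zero, ZeroMemClass.coe_zero]
  · rw [← k2, ← k2, ← map_pow, ← map_mul]
    refine congrArg χ (Subtype.ext ?_)
    change i _ ^ 8 * i _ = i _
    rw [← hD, map_mul, map_pow]
  · rw [← MvPolynomial.aeval_X (R := ℚ) e a, ← MvPolynomial.aeval_X (R := ℚ) e b, ← k2, ← k2,
      ← k4, ← k4, ← map_mul, ← map_mul]
    refine congrArg χ (Subtype.ext ?_)
    change i _ * i _ = i _ * i _
    simp only [← map_mul, cn, MvPolynomial.aeval_X]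
    congr 1
    ring

end Pool.Agent.Lib.ECM.QM.CONE
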