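import Pool.Agent.Lib.ECM.M_NONVAC
import Pool.Agent.Lib.QM.QBlue

/-! The hypotheses of the theorem on curves which miss the triple root lines are satisfiable. -/

open Complex Filter Topology Metric
open scoped Real

noncomputable section

namespace Pool.Agent.Lib.ECM.QM

namespace XNV

open MNV

/-- the first equation of the line -/
def p0 (u E A B C : ℂ) : ℂ :=
  36 * ((E * B - C * A * u ^ 2) * (E ^ 2 + u ^ 2 * (A ^ 2 + B ^ 2) + C ^ 2 * u ^ 4) *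
      (E * A + C * B * u ^ 2)) -
    16 * ((E * C + B * A) * (E ^ 2 - C ^ 2 * u ^ 4 + u ^ 2 * (B ^ 2 - A ^ 2)) *
      (E ^ 2 + u ^ 2 * (A ^ 2 + B ^ 2) + C ^ 2 * u ^ 4)) +
    16 * u ^ 2 * ((E * C + B * A) * (E * B + C * A * u ^ 2) * (E * B - C * A * u ^ 2))

/-- the second equation of the line -/
def p2 (u E A B C : ℂ) : ℂ :=
  (E * A + C * B * u ^ 2) * (E * A - C * B * u ^ 2) * (E * C - B * A) -
    (E * C + B * A) * (E * B + C * A * u ^ 2) * (E * B - C * A * u ^ 2)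

/-- the local coordinates -/
def GG (x : T3) : T3 :=
  ![p0 (x 1) (E 0 0 x) (x 0 * E 1 0 x) (x 0 * x 2 * E 0 1 x) (x 0 * x 2 * E 1 1 x), x 1,
    p2 (x 1) (E 0 0 x) (x 0 * E 1 0 x) (x 0 * x 2 * E 0 1 x) (x 0 * x 2 * E 1 1 x)]

theorem cdG : ContDiffAt ℂ 1 GG pt := by
  have a := cd (a := 0) (b := 0) (.inl rfl) (.inl rfl)
  have b := cd (a := 1) (b := 0) (.inr rfl) (.inl rfl)
  have c := cd (a := 0) (b := 1) (.inl rfl) (.inr rfl)
  have d := cd (a := 1) (b := 1) (.inr rfl) (.inr rfl)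
  refine contDiffAt_pi.2 fun i ↦ ?_
  fin_cases i <;> simp only [GG, p0, p2, Fin.zero_eta, Fin.mk_one, Fin.reduceFinMk,
    Matrix.cons_val] <;> fun_prop

theorem slope {ψ f : ℂ → ℂ} (h : DifferentiableAt ℂ ψ 0) (hf : HasDerivAt f 0 0)
    (e : ∀ t, f t = t * ψ t) : ψ 0 = 0 := by
  have := hf.unique (((hasDerivAt_id (0 : ℂ)).mul h.hasDerivAt).congr_of_eventuallyEq
    (Eventually.of_forall e))
  simpa using this.symm

theorem ker (v : T3) (hv : fderiv ℂ GG pt v = 0) : v = 0 := by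
  have ln : HasDerivAt (fun t : ℂ ↦ pt + t • v) v 0 := by
    simpa using ((hasDerivAt_id (0 : ℂ)).smul_const v).const_add pt
  have x0 : pt = pt + (0 : ℂ) • v := by simp
  have dP : HasDerivAt (fun t : ℂ ↦ GG (pt + t • v)) (fderiv ℂ GG pt v) 0 :=
    (cdG.differentiableAt one_ne_zero).hasFDerivAt.comp_hasDerivAt_of_eq 0 ln x0
  rw [hv] at dP
  have dc := hasDerivAt_pi.1 dP
  have v1 : v 1 = 0 := ((dc 1).unique (hasDerivAt_pi.1 ln 1)).symm
  have k : ∀ t : ℂ, (pt + t • v) 1 = 0 := fun t ↦ by simp [pt, v1]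
  have k0 : ∀ t : ℂ, (pt + t • v) 0 = 1 / 2 + t * v 0 := fun t ↦ rfl
  have k2 : ∀ t : ℂ, (pt + t • v) 2 = 1 / 3 + t * v 2 := fun t ↦ rfl
  have e0 := slope (ψ := fun t ↦ -32 * v 0 * (1 / 2 + t * v 0) * (1 / 3 + t * v 2) *
    (t * v 0 - 3 / 2)) (by fun_prop) (dc 0) fun t ↦ by
      obtain ⟨a, b, c, d⟩ := E_val (k t)
      simp only [GG, p0, a, b, c, d, k, k0, k2, Matrix.cons_val_zero]
      ring
  have v0 : v 0 = 0 := by linear_combination e0 / 8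
  have e2 := slope (ψ := fun t ↦ -(3 / 4) * v 2 * (1 / 3 + t * v 2) * (2 + 3 * t * v 2))
    (by fun_prop) (dc 2) fun t ↦ by
      obtain ⟨a, b, c, d⟩ := E_val (k t)
      simp only [GG, p2, a, b, c, d, k, k0, k2, v0, Matrix.cons_val]
      ring
  funext i
  fin_cases i
  · exact v0
  · exact v1
  · change v 2 = 0
    linear_combination -2 * e2

theorem sol : ∃ X : ℂ → T3, AnalyticAt ℂ X 0 ∧ X 0 = pt ∧
    ∀ᶠ u in 𝓝 (0 : ℂ), GG (X u) = ![0, u, 0] := by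
  have hi : Function.Injective (fderiv ℂ GG pt : T3 →ₗ[ℂ] T3) :=
    (injective_iff_map_eq_zero _).2 ker
  have hL : HasFDerivAt GG ((LinearEquiv.ofInjectiveEndo _ hi).toContinuousLinearEquiv :
      T3 →L[ℂ] T3) pt :=
    (cdG.differentiableAt one_ne_zero).hasFDerivAt.congr_fderiv
      (ContinuousLinearMap.ext fun _ ↦ rfl)
  have h1 : (1 : WithTop ℕ∞) ≠ 0 := one_ne_zero
  have G0 : GG pt = ![0, 0, 0] := by
    obtain ⟨a, b, c, d⟩ := E_val (x := pt) rfl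
    rw [GG, a, b, c, d]
    simp only [pt, p0, p2, Matrix.cons_val]
    norm_num
  have an : AnalyticAt ℂ (fun u : ℂ ↦ (![0, u, 0] : T3)) 0 := analyticAt_pi_iff.2 fun i ↦ by
    fin_cases i
    exacts [analyticAt_const, analyticAt_id, analyticAt_const]
  refine ⟨fun u ↦ cdG.localInverse hL h1 ![0, u, 0],
    XLOC.anal_comp (X := fun u ↦ ![0, u, 0]) (G0 ▸ cdG.to_localInverse hL h1) an,
    (congrArg _ G0.symm).trans (cdG.localInverse_apply_image hL h1), ?_⟩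
  have h := (cdG.hasStrictFDerivAt' hL h1).eventually_right_inverse
  rw [G0] at h
  exact an.continuousAt.tendsto.eventually h

/-- the point lies over the line -/
def Pr (τ : T3) : Prop := τ ∈ H2 ∧
  p0 1 (f2 τ (0, 0)) (f2 τ (1, 0)) (f2 τ (0, 1)) (f2 τ (1, 1)) = 0 ∧
  p2 1 (f2 τ (0, 0)) (f2 τ (1, 0)) (f2 τ (0, 1)) (f2 τ (1, 1)) = 0

theorem arc : ∃ (r : ℝ) (L : Fin 3 → ℂ → ℂ), 0 < r ∧ (∀ i, AnalyticOnNhd ℂ (L i) (ball 0 r)) ∧
    L 0 0 = -Real.log 2 ∧ L 2 0 = -Real.log 3 ∧ ∀ u ∈ ball (0 : ℂ) r, ∀ τ : T3,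
      (xq fun i ↦ 2 * τ i) = ![exp (L 0 u), u * exp (L 1 u), exp (L 2 u)] → Pr τ := by
  obtain ⟨X, hX, h0, hG⟩ := sol
  have aX := analyticAt_pi_iff.1 hX
  let Y : Fin 3 → ℂ → ℂ := ![fun u ↦ X u 0, fun _ ↦ 1, fun u ↦ X u 2]
  have aY : ∀ i, AnalyticAt ℂ (Y i) 0 := fun i ↦ by
    fin_cases i
    exacts [aX 0, analyticAt_const, aX 2]
  have Y0 : ∀ i, Y i 0 = (![(2 : ℝ)⁻¹, 1, (3 : ℝ)⁻¹] i : ℝ) := fun i ↦ by
    fin_cases i <;> simp [Y, h0, pt]
  have sl : ∀ i, Y i 0 ∈ slitPlane := fun i ↦ by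
    rw [Y0, ofReal_mem_slitPlane]
    fin_cases i <;> norm_num
  have ev := (((eventually_all.2 fun i ↦ ((aY i).clog (sl i)).eventually_analyticAt.and
    ((aY i).continuousAt.eventually_ne (slitPlane_ne_zero (sl i)))).and hG).and
    (hX.continuousAt.eventually_mem (h0 ▸ pt_mem)))
  obtain ⟨r, hr, hb⟩ := eventually_nhds_iff_ball.1 ev
  refine ⟨r, fun i u ↦ log (Y i u), hr, fun i u hu ↦ ((hb u hu).1.1 i).1, ?_, ?_,
    fun u hu τ hτ ↦ ?_⟩
  · simp only [Y0, Matrix.cons_val]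
    rw [← ofReal_log (by norm_num), Real.log_inv, ofReal_neg]
  · simp only [Y0, Matrix.cons_val]
    rw [← ofReal_log (by norm_num), Real.log_inv, ofReal_neg]
  obtain ⟨⟨h1, h2⟩, h3⟩ := hb u hu
  simp only [exp_log (h1 _).2] at hτ
  have g0 := congrFun h2 0
  have g1 : X u 1 = u := congrFun h2 1
  have g2 := congrFun h2 2
  have hx : (xq fun i ↦ 2 * τ i) = X u := by
    rw [hτ]
    funext i
    fin_cases i
    · rfl
    · exact (mul_one u).trans g1.symm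
    · rfl
  have hH := th_XQ.om _ (hx ▸ h3)
  simp only [GG, p0, p2, Matrix.cons_val] at g0 g2
  refine ⟨⟨?_, ?_⟩, ?_, ?_⟩
  · simpa using hH.1
  · have := hH.2
    simp at this
    linarith
  · simp only [f2_eq, hx]
    simp [mon, ex, ZMod.val_one, p0]
    linear_combination X u 1 ^ 2 * g0
  · simp only [f2_eq, hx]
    simp [mon, ex, ZMod.val_one, p2]
    linear_combination X u 1 ^ 4 * g2

theorem point : ∃ τ : T3, Pr τ ∧
    ∀ R, EqE R τ → ∃ k : ℤ, R = k • (1 : Matrix (Fin 4) (Fin 4) ℤ) := by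
  obtain ⟨r, L, hr, hL, L0, L2, h⟩ := arc
  have hp : (π : ℂ) * I ≠ 0 := mul_ne_zero (ofReal_ne_zero.2 Real.pi_ne_zero) I_ne_zero
  have p1 : (π : ℂ) ≠ 0 := ofReal_ne_zero.2 Real.pi_ne_zero
  let T : ℂ → T3 := fun w ↦ ![2 * (L 0 (exp w) + (w + L 1 (exp w))) / (π * I),
    L 0 (exp w) / (π * I), 2 * (L 0 (exp w) + (w + L 1 (exp w)) + L 2 (exp w)) / (π * I)]
  have hb : ∀ w, w ∈ G4.hp (Real.log r) ↔ exp w ∈ ball (0 : ℂ) r := fun w ↦ by
    rw [mem_ball_zero_iff, norm_exp, ← Real.lt_log_iff_exp_lt hr]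
    rfl
  have an : ∀ i, ∀ w ∈ G4.hp (Real.log r), AnalyticAt ℂ (fun w ↦ T w i) w := fun i w hw ↦ by
    have := fun j ↦ (hL j _ ((hb w).1 hw)).comp (f := exp) analyticAt_cexp
    have a0 : AnalyticAt ℂ (fun w ↦ L 0 (exp w)) w := this 0
    have a1 : AnalyticAt ℂ (fun w ↦ L 1 (exp w)) w := this 1
    have a2 : AnalyticAt ℂ (fun w ↦ L 2 (exp w)) w := this 2
    fin_cases i
    · exact (analyticAt_const.mul (a0.add (analyticAt_id.add a1))).div_const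
    · exact a0.div_const
    · exact (analyticAt_const.mul ((a0.add (analyticAt_id.add a1)).add a2)).div_const
  have w0 : ((Real.log r - 1 : ℝ) : ℂ) ∈ G4.hp (Real.log r) :=
    (ofReal_re _).trans_lt (sub_one_lt _)
  have lim : ∀ a b c : ℤ, (∀ w ∈ G4.hp (Real.log r), a * T w 1 + b * (T w 2 - T w 0) = c) →
      a = 0 ∧ b = 0 ∧ c = 0 := fun a b c k ↦ by
    have c0 := (hL 0 0 (mem_ball_self hr)).continuousAt
    have c2 := (hL 2 0 (mem_ball_self hr)).continuousAt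
    have c3 : ContinuousAt (fun u ↦ a * (L 0 u / (π * I)) + b * (2 * L 2 u / (π * I))) 0 := by
      fun_prop
    refine logs (L0 ▸ L2 ▸ tendsto_nhds_unique (l := 𝓝[≠] (0 : ℂ))
      (c3.tendsto.mono_left nhdsWithin_le_nhds) (tendsto_const_nhds.congr' ?_))
    filter_upwards [self_mem_nhdsWithin, mem_nhdsWithin_of_mem_nhds (ball_mem_nhds 0 hr)]
      with u h1 h2
    rw [← exp_log h1] at h2 ⊢
    rw [← k _ ((hb _).2 h2)]
    simp only [T, Matrix.cons_val]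
    ring
  have key : ∀ R, ¬ {w ∈ G4.hp (Real.log r) | EqE R (T w)}.Countable →
      ∃ k : ℤ, R = k • (1 : Matrix (Fin 4) (Fin 4) ℤ) := fun R hR ↦ by
    have z := fun (F : ℂ → ℂ) (hF : AnalyticOnNhd ℂ F (G4.hp (Real.log r))) ↦
      G4.zero_of_uncountable (G4.hp_conn _) hF hR (Set.sep_subset _ _)
    have all : ∀ w ∈ G4.hp (Real.log r), EqE R (T w) := fun w hw ↦ by
      refine (eqE_iff _ _).2 ⟨⟨z _ ?_ (fun w hw ↦ ((eqE_iff _ _).1 hw.2).1.1) w hw,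
        z _ ?_ (fun w hw ↦ ((eqE_iff _ _).1 hw.2).1.2) w hw⟩,
        z _ ?_ (fun w hw ↦ ((eqE_iff _ _).1 hw.2).2.1) w hw,
        z _ ?_ (fun w hw ↦ ((eqE_iff _ _).1 hw.2).2.2) w hw⟩
      all_goals
        intro w hw
        have a0 := an 0 w hw
        have a1 := an 1 w hw
        have a2 := an 2 w hw
        fun_prop
    have sh := fun w (hw : w ∈ G4.hp (Real.log r)) ↦ shift (R := R) (a := T w 0) (b := T w 1)
      (c := T w 2) (all w hw) (by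
        have e : T (w + 2 * π * I) = ![T w 0 + 4, T w 1, T w 2 + 4] := by
          simp only [T, exp_periodic w, Matrix.cons_val]
          congr 1
          · field_simp
            ring
          · congr 2
            field_simp
            ring
        exact e ▸ all _ (by simpa [G4.hp] using hw)) (by
        have e : T (w + (2 : ℕ) * (2 * π * I)) = ![T w 0 + 8, T w 1, T w 2 + 8] := by
          simp only [T, exp_periodic.nat_mul 2 w, Matrix.cons_val]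
          congr 1
          · field_simp
            ring
          · congr 2
            field_simp
            ring
        exact e ▸ all _ (by simpa [G4.hp] using hw))
    obtain ⟨⟨d1, d2, d3, d4⟩, e1, e2, e3, e4⟩ := (sh _ w0).1
    have k1 := lim _ _ _ fun w hw ↦ (sh w hw).2.1.1
    have k2 := lim _ _ _ fun w hw ↦ (sh w hw).2.1.2
    have k3 := lim _ _ _ fun w hw ↦ (sh w hw).2.2.1
    have k4 := lim _ _ _ fun w hw ↦ (sh w hw).2.2.2
    refine ⟨R 0 0, ?_⟩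
    ext i j
    fin_cases i <;> fin_cases j <;> simp <;> omega
  have : Countable (Matrix (Fin 4) (Fin 4) ℤ) := inferInstanceAs (Countable (Fin 4 → Fin 4 → ℤ))
  have cnt : (⋃ R : {R : Matrix (Fin 4) (Fin 4) ℤ //
      ¬ ∃ k : ℤ, R = k • (1 : Matrix (Fin 4) (Fin 4) ℤ)},
        {w ∈ G4.hp (Real.log r) | EqE R.1 (T w)}).Countable :=
    Set.countable_iUnion fun R ↦ by_contra fun e ↦ R.2 (key _ e)
  obtain ⟨w, hw, hw'⟩ := (cnt.dense_compl ℂ).exists_mem_open (G4.hp_open (Real.log r)) ⟨_, w0⟩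
  have k1 := h _ ((hb w).1 hw') (T w) (by
    simp only [xq, T, Matrix.cons_val, ← exp_add]
    congr 1
    · congr 1
      field_simp
    · congr 1
      · congr 1
        field_simp
        ring
      · congr 2
        field_simp
        ring)
  exact ⟨T w, k1, fun R e ↦ by_contra fun e' ↦ hw (Set.mem_iUnion.2 ⟨⟨R, e'⟩, hw', e⟩)⟩

/-- the shear -/
def sh (τ : T3) : T3 := ![τ 0 + 2 * τ 1 + τ 2, τ 1 + τ 2, τ 2]

theorem thg_sh (τ : T3) (a : V2) : thg (sh τ) a 0 = thg τ ![a 0, a 0 + a 1] 0 := by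
  rw [thg, thg, ← (Equiv.prodShear (Equiv.refl ℤ) fun k : ℤ ↦ Equiv.addLeft k).tsum_eq
    fun n ↦ term τ (iv n + ![a 0, a 0 + a 1]) 0]
  refine tsum_congr fun n ↦ ?_
  simp only [term, Qf, dot, iv, sh, Equiv.prodShear_apply, Equiv.refl_apply, Equiv.coe_addLeft,
    Pi.add_apply, Pi.zero_apply, Matrix.cons_val]
  congr 1
  push_cast
  ring

theorem f2_sh (τ : T3) : f2 (sh τ) (0, 0) = f2 τ (0, 0) ∧ f2 (sh τ) (1, 0) = f2 τ (1, 1) ∧
    f2 (sh τ) (0, 1) = f2 τ (0, 1) ∧ f2 (sh τ) (1, 1) = f2 τ (1, 0) := by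
  have e : (fun i ↦ 2 * sh τ i) = sh fun i ↦ 2 * τ i := by
    funext i
    fin_cases i <;> simp [sh] <;> ring
  simp only [f2, e, thg_sh]
  refine ⟨?_, ?_, ?_, ?_⟩
  rotate_right
  · rw [← th_BAS.shift_a _ (ca (1, 0, 0, 0)) 0 (0, 1)]
    congr 1
    funext i
    fin_cases i <;> simp [ca, iv, ZMod.val_one]
    norm_num
  all_goals
    congr 1
    funext i
    fin_cases i <;> simp [ca, ZMod.val_one]

theorem mu_sq (x : Ch → ℂ) :
    mu x 0 4 = x (0, 1, 1, 0) * (x (0, 0, 0, 0) * x (1, 1, 0, 0)) ∧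
    mu x 1 4 = x (0, 1, 0, 0) * (x (0, 0, 1, 0) * x (1, 1, 0, 0)) ∧
    mu x 2 4 = x (1, 0, 0, 0) * (x (0, 0, 1, 0) * x (0, 0, 0, 0)) ∧
    mu x 3 4 = x (1, 0, 0, 0) * (x (0, 1, 0, 0) * x (0, 1, 1, 0)) := by
  have k : ∀ (a : Fin 5) (p q r : Fin 5 × Fin 5), p ≠ q → p ≠ r → q ≠ r →
      Finset.univ.filter (fun p : Fin 5 × Fin 5 ↦
        p.1 < p.2 ∧ p.1 ≠ a ∧ p.1 ≠ 4 ∧ p.2 ≠ a ∧ p.2 ≠ 4) = {p, q, r} →
      mu x a 4 = x (S p.1 p.2) * (x (S q.1 q.2) * x (S r.1 r.2)) := fun a p q r h1 h2 h3 h ↦ by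
    rw [mu, h, Finset.prod_insert (by simp [h1, h2]), Finset.prod_pair h3]
  exact ⟨k 0 (1, 2) (1, 3) (2, 3) (by decide) (by decide) (by decide) (by decide),
    k 1 (0, 2) (0, 3) (2, 3) (by decide) (by decide) (by decide) (by decide),
    k 2 (0, 1) (0, 3) (1, 3) (by decide) (by decide) (by decide) (by decide),
    k 3 (0, 1) (0, 2) (1, 2) (by decide) (by decide) (by decide) (by decide)⟩

/-- coefficients of the parametrisation -/
def cs : Fin 5 → ℤ := ![8, 8, 9, 0, 0]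

def ct : Fin 5 → ℤ := ![0, 8, 2, 8, 0]

theorem indep : ∀ i j l : Fin 5, i ≠ j → j ≠ l → i ≠ l → ∀ a ∈ ({1, -1} : Finset ℤ),
    ∀ b ∈ ({1, -1} : Finset ℤ), ∀ c ∈ ({1, -1} : Finset ℤ),
    (a * cs i - b * cs j) * (b * ct j - c * ct l) -
      (a * ct i - b * ct j) * (b * cs j - c * cs l) ≠ 0 := by
  decide

/-- the parametrisation of the plane -/
def par {R : Type} [CommRing R] (ε : Fin 4 → ℤ) (s : Fin 2 → R) (a : Fin 4) : R :=
  ε a * (cs a.castSucc * s 0 + ct a.castSucc * s 1)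

open MvPolynomial in
theorem plane (ε : Fin 4 → ℤ) (hε : ∀ a, ε a = 1 ∨ ε a = -1) :
    ∃ P : Ideal (MvPolynomial (Fin 4) Qb), P.IsPrime ∧
      ringKrullDim (MvPolynomial (Fin 4) Qb ⧸ P) = 2 ∧ ∀ e, e ∈ Zs P ↔ ∃ s, e = par ε s := by
  let φ : MvPolynomial (Fin 4) Qb →ₐ[Qb] MvPolynomial (Fin 2) Qb := aeval (par ε X)
  let ψ : MvPolynomial (Fin 2) Qb →ₐ[Qb] MvPolynomial (Fin 4) Qb :=
    aeval ![C ((ε 0 : Qb) / 8) * X 0, C ((ε 3 : Qb) / 8) * X 3]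
  have q : ∀ a, C ((ε a : Qb) / 8) * ((ε a : MvPolynomial (Fin 2) Qb) * 8) = 1 := fun a ↦ by
    rw [← map_intCast (C : Qb →+* MvPolynomial (Fin 2) Qb), ← map_ofNat C 8, ← map_mul, ← map_mul,
      ← map_one C]
    congr 1
    rcases hε a with e | e <;> rw [e] <;> norm_num
  have h1 : φ.comp ψ = AlgHom.id _ _ := algHom_ext fun i ↦ by
    fin_cases i
    · simp [φ, ψ, par, cs, ct]
      linear_combination X 0 * q 0
    · simp [φ, ψ, par, cs, ct]
      linear_combination X 1 * q 3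
  have h2 : ∀ f, φ (ψ f) = f := fun f ↦ DFunLike.congr_fun h1 f
  have h3 : ∀ {R : Type} [CommRing R] [Algebra Qb R] {R' : Type} [CommRing R'] [Algebra Qb R']
      (g : R →ₐ[Qb] R') (s : Fin 2 → R) a, g (par ε s a) = par ε (fun i ↦ g (s i)) a :=
    fun g s a ↦ by simp [par]
  refine ⟨RingHom.ker φ, RingHom.ker_isPrime _, ?_, fun e ↦ ⟨fun h ↦ ?_, ?_⟩⟩
  · rw [ringKrullDim_eq_of_ringEquiv (RingHom.quotientKerEquivOfSurjective
      (f := (φ : MvPolynomial (Fin 4) Qb →+* MvPolynomial (Fin 2) Qb)) fun f ↦ ⟨_, h2 f⟩)]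
    simp
  · refine ⟨fun i ↦ aeval e (ψ (X i)), funext fun a ↦ ?_⟩
    have := h (X a - ψ (φ (X a))) (by rw [RingHom.mem_ker, map_sub, h2, sub_self])
    rw [map_sub, aeval_X, sub_eq_zero, aeval_X, h3, h3] at this
    exact this
  · rintro ⟨s, rfl⟩ f hf
    have : (aeval (par ε s) : MvPolynomial (Fin 4) Qb →ₐ[Qb] ℂ) = (aeval s).comp φ :=
      algHom_ext fun i ↦ by simp [φ, h3]
    rw [this, AlgHom.comp_apply, RingHom.mem_ker.1 hf, map_zero]

end XNV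

open XNV in
theorem st_NV (hG : St_GEO) : St_NV := by
  obtain ⟨ε, hε, hJ⟩ := hG.jac
  obtain ⟨P, h1, h2, h3⟩ := plane ε hε
  refine ⟨P, h1, h2, fun e he t ↦ ?_, fun e he i j l a b c d f ↦ ?_, ?_⟩
  · obtain ⟨s, rfl⟩ := (h3 e).1 he
    exact (h3 _).2 ⟨t • s, funext fun a ↦ by simp only [par, Pi.smul_apply, smul_eq_mul]; ring⟩
  · obtain ⟨s, rfl⟩ := (h3 e).1 he
    have r : ∀ i, ∃ a ∈ ({1, -1} : Finset ℤ), rt (par ε s) i = a * (cs i * s 0 + ct i * s 1) :=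
      fun i ↦ by
        fin_cases i
        exacts [⟨ε 0, by simpa using hε 0, rfl⟩, ⟨ε 1, by simpa using hε 1, rfl⟩,
          ⟨ε 2, by simpa using hε 2, rfl⟩, ⟨ε 3, by simpa using hε 3, rfl⟩,
          ⟨1, by simp, by simp [rt, cs, ct]⟩]
    obtain ⟨x, x1, x2⟩ := r i
    obtain ⟨y, y1, y2⟩ := r j
    obtain ⟨z, z1, z2⟩ := r l
    have n := (Int.cast_ne_zero (α := ℂ)).2 (indep i j l a b c x x1 y y1 z z1)
    push_cast at n
    rw [x2, y2] at d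
    rw [y2, z2] at f
    have s0 : s 0 = 0 := mul_left_cancel₀ n (by
      linear_combination ((y : ℂ) * ct j - z * ct l) * d - ((x : ℂ) * ct i - y * ct j) * f)
    have s1 : s 1 = 0 := mul_left_cancel₀ n (by
      linear_combination ((x : ℂ) * cs i - y * cs j) * f - ((y : ℂ) * cs j - z * cs l) * d)
    funext a
    simp [par, s0, s1]
  · obtain ⟨τ, ⟨hτ, e0, e2⟩, hR⟩ := point
    obtain ⟨γ, g1, -⟩ := th_SYMU 1 1 0 1 (by norm_num)
    have g2 : γ.act τ = sh τ := by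
      rw [g1]
      funext i
      fin_cases i <;> simp [sh, Qf, iv]
    have hτ' : sh τ ∈ H2 := g2 ▸ γ.act_mem τ hτ
    have hE : EndZ (sh τ) := st_ENC.map τ _ (LinearEquiv.ofBijective (γ.M τ) (γ.bij τ hτ))
      (fun z ↦ g2 ▸ γ.lat τ hτ z) ((st_ENC.enc τ hτ).2 hR)
    have hg : Gen (sh τ) := by_contra fun h ↦ st_ENC.hum _ hτ' hE
      ((st_G3 th_ZER th_RED th_SYMK st_SINV (st_CF (st_BR st_PUI))).sing _ hτ' h)
    have k0 : kk 0 (sh τ) ≠ 0 := hg 0 (by decide)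
    set x : Ch → ℂ := fun m ↦ kk m (sh τ) / kk 0 (sh τ) with hx
    refine ⟨Er ε x, (h3 _).2 ⟨![mu x 0 4 ^ 2 / 8, mu x 3 4 ^ 2 / 8], ?_⟩, sh τ,
      (hJ x _ ⟨hτ', k0, fun _ ↦ rfl⟩ hg).1, hE⟩
    have hq : ∀ m, x m ^ 2 = Qm m (f2 (sh τ)) / kk 0 (sh τ) ^ 2 := fun m ↦ by
      rw [hx, div_pow, st_ADD2 _ hτ']
    obtain ⟨m0, m1, m2, m3⟩ := mu_sq x
    obtain ⟨f0, f1, f2', f3⟩ := f2_sh τ
    have s2 : ∀ f : ZMod 2 → ℂ, ∑ a, f a = f 0 + f 1 := fun f ↦ Fin.sum_univ_two f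
    have v2 : (1 + 1 : ZMod 2) = 0 := by decide
    have n1 : mu x 1 4 ^ 2 = mu x 0 4 ^ 2 + mu x 3 4 ^ 2 := by
      simp only [m0, m1, m3, mul_pow, hq]
      simp [Qm, Fintype.sum_prod_type, s2, ZMod.val_one, v2, f0, f1, f2', f3]
      rw [p2] at e2
      linear_combination 8 / kk 0 (sh τ) ^ 6 * e2
    have n2 : 8 * mu x 2 4 ^ 2 = 9 * mu x 0 4 ^ 2 + 2 * mu x 3 4 ^ 2 := by
      simp only [m0, m2, m3, mul_pow, hq]
      simp [Qm, Fintype.sum_prod_type, s2, ZMod.val_one, v2, f0, f1, f2', f3]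
      rw [p0] at e0
      linear_combination -1 / kk 0 (sh τ) ^ 6 * e0
    funext a
    fin_cases a <;> simp [Er, par, cs, ct]
    · left; ring
    · left; linear_combination n1
    · left; linear_combination n2 / 8
    · left; ring

end Pool.Agent.Lib.ECM.QM
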