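import Pool.Agent.Lib.ECM.TH_BAS
import Pool.Agent.Lib.ECM.TH_RIEM

/-! The Riemann relation for half integral characteristics with explicit signs. -/

open Complex
open scoped Real

noncomputable section

namespace Pool.Agent.Lib.ECM.QM.T97

open XRIEM

/-- the sign `(-1) ^ k` -/
def sg (k : ℤ) : ℤ := if k % 2 = 0 then 1 else -1

theorem exp_sg (k : ℤ) : exp (π * I * k) = sg k := by
  rcases Int.even_or_odd' k with ⟨j, rfl | rfl⟩
  · rw [sg, if_pos (by omega), Int.cast_one]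
    exact exp_eq_one_iff.2 ⟨j, by push_cast; ring⟩
  · have : (π * I * ((2 * j + 1 : ℤ) : ℂ)) = j * (2 * π * I) + π * I := by push_cast; ring
    rw [sg, if_neg (by omega), this, exp_add, exp_int_mul_two_pi_mul_I, exp_pi_mul_I]; simp

theorem sg_sn (k : ℤ) : sg k = 1 ∨ sg k = -1 := by
  unfold sg; split_ifs <;> simp

theorem sg_add (k l : ℤ) : (sg (k + l) : ℂ) = sg k * sg l := by
  rw [← exp_sg, ← exp_sg, ← exp_sg, ← exp_add]
  congr 1
  push_cast
  ring

theorem sg_sq (k : ℤ) : (sg k : ℂ) * sg k = 1 := by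
  rcases sg_sn k with h | h <;> simp [h]

/-- the exponent of the sign in the reduction of characteristics -/
def zs (a b : ℤ × ℤ) : ℤ := a.1 % 2 * (b.1 / 2) + a.2 % 2 * (b.2 / 2)

theorem thz (a b : ℤ × ℤ) (τ : T3) (z : V2) :
    thg τ ((1 / 2 : ℂ) • iv a) (z + (1 / 2 : ℂ) • iv b) = sg (zs a b) * th (chr a b) τ z := by
  have ea : (1 / 2 : ℂ) • iv a = ca (chr a b) + iv (a.1 / 2, a.2 / 2) := by
    funext i; fin_cases i
    · simpa [iv, ca, chr, div_eq_inv_mul] using XBAS.half a.1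
    · simpa [iv, ca, chr, div_eq_inv_mul] using XBAS.half a.2
  have eb : (1 / 2 : ℂ) • iv b = cb (chr a b) + iv (b.1 / 2, b.2 / 2) := by
    funext i; fin_cases i
    · simpa [iv, cb, chr, div_eq_inv_mul] using XBAS.half b.1
    · simpa [iv, cb, chr, div_eq_inv_mul] using XBAS.half b.2
  have h1 : (((a.1 : ZMod 2).val : ℕ) : ℤ) = a.1 % 2 := ZMod.val_intCast _
  have h2 : (((a.2 : ZMod 2).val : ℕ) : ℤ) = a.2 % 2 := ZMod.val_intCast _
  rw [ea, eb, XBAS.shift_a, ← add_assoc, XBAS.shift_w, th, ← exp_sg, zs, ← h1, ← h2]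
  congr 2
  simp only [dot, ca, chr, iv, Matrix.cons_val_zero, Matrix.cons_val_one]
  push_cast
  ring

theorem fac (P Q : ℤ × ℤ) (η m : Ch) (h : chr P Q + η = m) (τ : T3) (z : V2) :
    thg τ ((1 / 2 : ℂ) • iv P + ca η) (z + (1 / 2 : ℂ) • iv Q + cb η) =
      sg (zs (P + la η) (Q + lb η)) * th m τ z := by
  have e : chr (P + la η) (Q + lb η) = m := by rw [chr_add, chr_l, h]
  rw [← e, ca_eq, cb_eq, add_assoc, ← smul_add, ← smul_add, ← iv_add, ← iv_add]
  exact thz _ _ τ z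

theorem pre (η : Ch) (E : ℤ × ℤ) :
    exp (-2 * π * I * dot (cb η) (iv E)) = sg (-((lb η).1 * E.1 + (lb η).2 * E.2)) := by
  rw [← exp_sg, cb_eq]
  congr 1
  simp [dot, iv]
  ring

/-- the exponent of the sign of one term -/
def ts (e f g η : Ch) : ℤ :=
  -((lb η).1 * (la e).1 + (lb η).2 * (la e).2) +
    (zs (la e + la f + la g + la η) (lb e + lb f + lb g + lb η) + zs (-la g + la η) (-lb g + lb η) +
      zs (-la f + la η) (-lb f + lb η) + zs (la e + la η) (lb e + lb η))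

theorem tm_eq (e f g η : Ch) (τ : T3) (x y u v : V2) :
    tm e f g (η + (e + f + g)) τ x y u v = sg (ts e f g (η + (e + f + g))) *
      (th η τ x * th (η + e + f) τ y * th (η + e + g) τ u * th (η + f + g) τ v) := by
  rw [tm, pre, fac (la e + la f + la g) (lb e + lb f + lb g) (η + (e + f + g)) η
    (by rw [chr_add, chr_add, chr_l, chr_l, chr_l]; linear_combination two (e + f + g)),
    fac (-la g) (-lb g) (η + (e + f + g)) (η + e + f)
    (by rw [chr_neg, chr_l]; linear_combination two g),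
    fac (-la f) (-lb f) (η + (e + f + g)) (η + e + g)
    (by rw [chr_neg, chr_l]; linear_combination two f),
    fac (la e) (lb e) (η + (e + f + g)) (η + f + g)
    (by rw [chr_l]; linear_combination two e), ts, sg_add, sg_add, sg_add, sg_add]
  ring

/-- the sign in the Riemann relation -/
def rs (e f g η : Ch) : ℤ :=
  sg (zs (la e + la f + la g) (lb e + lb f + lb g) + ts e f g (η + (e + f + g)))

theorem riem (hG : St_RIEMG) {τ : T3} (hτ : τ ∈ H2) (e f g : Ch) (x y u v : V2) :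
    4 * (th e τ ((1 / 2 : ℂ) • (x + y + u + v)) * th f τ ((1 / 2 : ℂ) • (x + y - u - v)) *
      th g τ ((1 / 2 : ℂ) • (x - y + u - v)) * th (e + f + g) τ ((1 / 2 : ℂ) • (x - y - u + v))) =
    ∑ η : Ch, (rs e f g η : ℂ) *
      (th η τ x * th (η + e + f) τ y * th (η + e + g) τ u * th (η + f + g) τ v) := by
  have k := hG τ hτ ((1 / 2 : ℂ) • iv (la e + la f + la g)) ((1 / 2 : ℂ) • iv (-la g))
    ((1 / 2 : ℂ) • iv (-la f)) ((1 / 2 : ℂ) • iv (la e))
    (x + (1 / 2 : ℂ) • iv (lb e + lb f + lb g)) (y + (1 / 2 : ℂ) • iv (-lb g))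
    (u + (1 / 2 : ℂ) • iv (-lb f)) (v + (1 / 2 : ℂ) • iv (lb e))
  have c : chr (la e + la f + la g) (lb e + lb f + lb g) = e + f + g := by
    rw [chr_add, chr_add, chr_l, chr_l, chr_l]
  have p0 : (1 / 2 : ℂ) • iv (la e + la f + la g) + (1 / 2 : ℂ) • iv (-la g) +
      (1 / 2 : ℂ) • iv (-la f) + (1 / 2 : ℂ) • iv (la e) = iv (la e) := by
    simp only [iv_add, iv_neg]; module
  have p1 : (1 / 2 : ℂ) • iv (la e) = ca e := (ca_eq e).symm
  have p2 : (1 / 2 : ℂ) • ((1 / 2 : ℂ) • iv (la e + la f + la g) + (1 / 2 : ℂ) • iv (-la g) -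
      (1 / 2 : ℂ) • iv (-la f) - (1 / 2 : ℂ) • iv (la e)) = ca f := by
    simp only [iv_add, iv_neg, ca_eq]; module
  have p3 : (1 / 2 : ℂ) • ((1 / 2 : ℂ) • iv (la e + la f + la g) - (1 / 2 : ℂ) • iv (-la g) +
      (1 / 2 : ℂ) • iv (-la f) - (1 / 2 : ℂ) • iv (la e)) = ca g := by
    simp only [iv_add, iv_neg, ca_eq]; module
  have p4 : (1 / 2 : ℂ) • ((1 / 2 : ℂ) • iv (la e + la f + la g) - (1 / 2 : ℂ) • iv (-la g) -
      (1 / 2 : ℂ) • iv (-la f) + (1 / 2 : ℂ) • iv (la e)) =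
      (1 / 2 : ℂ) • iv (la e + la f + la g) := by
    simp only [iv_add, iv_neg]; module
  have q1 : (1 / 2 : ℂ) • (x + (1 / 2 : ℂ) • iv (lb e + lb f + lb g) +
      (y + (1 / 2 : ℂ) • iv (-lb g)) + (u + (1 / 2 : ℂ) • iv (-lb f)) +
      (v + (1 / 2 : ℂ) • iv (lb e))) = (1 / 2 : ℂ) • (x + y + u + v) + cb e := by
    simp only [iv_add, iv_neg, cb_eq]; module
  have q2 : (1 / 2 : ℂ) • (x + (1 / 2 : ℂ) • iv (lb e + lb f + lb g) +
      (y + (1 / 2 : ℂ) • iv (-lb g)) - (u + (1 / 2 : ℂ) • iv (-lb f)) -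
      (v + (1 / 2 : ℂ) • iv (lb e))) = (1 / 2 : ℂ) • (x + y - u - v) + cb f := by
    simp only [iv_add, iv_neg, cb_eq]; module
  have q3 : (1 / 2 : ℂ) • (x + (1 / 2 : ℂ) • iv (lb e + lb f + lb g) -
      (y + (1 / 2 : ℂ) • iv (-lb g)) + (u + (1 / 2 : ℂ) • iv (-lb f)) -
      (v + (1 / 2 : ℂ) • iv (lb e))) = (1 / 2 : ℂ) • (x - y + u - v) + cb g := by
    simp only [iv_add, iv_neg, cb_eq]; module
  have q4 : (1 / 2 : ℂ) • (x + (1 / 2 : ℂ) • iv (lb e + lb f + lb g) -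
      (y + (1 / 2 : ℂ) • iv (-lb g)) - (u + (1 / 2 : ℂ) • iv (-lb f)) +
      (v + (1 / 2 : ℂ) • iv (lb e))) =
      (1 / 2 : ℂ) • (x - y - u + v) + (1 / 2 : ℂ) • iv (lb e + lb f + lb g) := by
    simp only [iv_add, iv_neg]; module
  rw [p0, p2, p3, p4, q1, q2, q3, q4, thz, c] at k
  have k' : 4 * (th e τ ((1 / 2 : ℂ) • (x + y + u + v)) * th f τ ((1 / 2 : ℂ) • (x + y - u - v)) *
      th g τ ((1 / 2 : ℂ) • (x - y + u - v)) *
      (sg (zs (la e + la f + la g) (lb e + lb f + lb g)) *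
        th (e + f + g) τ ((1 / 2 : ℂ) • (x - y - u + v)))) =
      ∑ η : Ch, tm e f g η τ x y u v := by
    refine Eq.trans ?_ k
    rw [p1]
    rfl
  rw [← Equiv.sum_comp (Equiv.addRight (e + f + g))] at k'
  simp only [Equiv.coe_addRight, tm_eq] at k'
  simp only [rs, sg_add, mul_assoc (sg (zs (la e + la f + la g) (lb e + lb f + lb g)) : ℂ)]
  rw [← Finset.mul_sum, ← k']
  linear_combination (-4 * (th e τ ((1 / 2 : ℂ) • (x + y + u + v)) *
    th f τ ((1 / 2 : ℂ) • (x + y - u - v)) * th g τ ((1 / 2 : ℂ) • (x - y + u - v)) *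
    th (e + f + g) τ ((1 / 2 : ℂ) • (x - y - u + v)))) *
      sg_sq (zs (la e + la f + la g) (lb e + lb f + lb g))

/-- the relation at `(z, z, 0, 0)` -/
theorem riem2 (hG : St_RIEMG) {τ : T3} (hτ : τ ∈ H2) (e f g : Ch) (z : V2) :
    4 * (th e τ z * th f τ z * kk g τ * kk (e + f + g) τ) = ∑ η : Ch, (rs e f g η : ℂ) *
      (th η τ z * th (η + e + f) τ z * kk (η + e + g) τ * kk (η + f + g) τ) := by
  have h := riem hG hτ e f g z z 0 0
  have e1 : (1 / 2 : ℂ) • (z + z + 0 + 0) = z := by module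
  have e2 : (1 / 2 : ℂ) • (z + z - 0 - 0) = z := by module
  have e3 : (1 / 2 : ℂ) • (z - z + 0 - 0) = 0 := by module
  have e4 : (1 / 2 : ℂ) • (z - z - 0 + 0) = 0 := by module
  rw [e1, e2, e3, e4] at h
  exact h

end Pool.Agent.Lib.ECM.QM.T97
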