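import Pool.Agent.Lib.QM.Q_SG
import Pool.Agent.Lib.QM.QBlue
import Pool.Agent.Lib.ECM.TH_All

/-! The two three term relations between genus two theta functions. The finite checks are done on
binary codes. -/

open Complex

namespace Pool.Agent.Lib.ECM.QM.T97

open XRIEM

/-- the binary code of a characteristic -/
def cd (m : Ch) : ℕ := m.1.val + 2 * m.2.2.1.val + 4 * m.2.1.val + 8 * m.2.2.2.val

theorem cd_add : ∀ x y : Ch, cd (x + y) = cd x ^^^ cd y := by decide +kernel

theorem cd_inj : Function.Injective cd := by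
  have : ∀ x y : Ch, cd x = cd y → x = y := by decide +kernel
  exact this

/-- parity of a code -/
def en (n : ℕ) : Bool := (n % 2 * (n / 2 % 2) + n / 4 % 2 * (n / 8)) % 2 == 0

theorem cd_en : ∀ m : Ch, cd m < 16 ∧ (en (cd m) = true ↔ Ev m) ∧
    cd m % 2 = m.1.val ∧ cd m / 2 % 2 = m.2.2.1.val ∧ cd m / 4 % 2 = m.2.1.val ∧
    cd m / 8 = m.2.2.2.val := by decide +kernel

/-- one coordinate of the exponent of the sign -/
def ph (ea eb fa fb ga gb ha hb : ℤ) : ℤ :=
  (ea + fa + ga) % 2 * ((eb + fb + gb) / 2) + -(hb * ea) +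
    (ea + fa + ga + ha) % 2 * ((eb + fb + gb + hb) / 2) + (-ga + ha) % 2 * ((-gb + hb) / 2) +
    (-fa + ha) % 2 * ((-fb + hb) / 2) + (ea + ha) % 2 * ((eb + hb) / 2)

/-- the same with natural numbers -/
def pn (ea eb fa fb ga gb ha hb : ℕ) : ℕ :=
  (ea + fa + ga) % 2 * ((eb + fb + gb) / 2) + hb * ea +
    (ea + fa + ga + ha) % 2 * ((eb + fb + gb + hb) / 2) + (ga + ha) % 2 * ((4 + hb - gb) / 2) +
    (fa + ha) % 2 * ((4 + hb - fb) / 2) + (ea + ha) % 2 * ((eb + hb) / 2)

theorem ph_pn : ∀ e f g h : ZMod 2 × ZMod 2,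
    ph e.1.val e.2.val f.1.val f.2.val g.1.val g.2.val h.1.val h.2.val % 2 =
      (pn e.1.val e.2.val f.1.val f.2.val g.1.val g.2.val h.1.val h.2.val : ℕ) % 2 := by
  decide +kernel

/-- the sign on codes -/
def rk (e f g k : ℕ) : Bool :=
  (pn (e % 2) (e / 2 % 2) (f % 2) (f / 2 % 2) (g % 2) (g / 2 % 2) (k % 2) (k / 2 % 2) +
    pn (e / 4 % 2) (e / 8) (f / 4 % 2) (f / 8) (g / 4 % 2) (g / 8) (k / 4 % 2) (k / 8)) % 2 == 0

/-- the sign on codes -/
def rn (e f g h : ℕ) : ℤ := if rk e f g (h ^^^ (e ^^^ f ^^^ g)) then 1 else -1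

theorem rs_rn (e f g η : Ch) : rs e f g η = rn (cd e) (cd f) (cd g) (cd η) := by
  rw [rn, ← cd_add, ← cd_add, ← cd_add, rs]
  generalize η + (e + f + g) = k
  have a : zs (la e + la f + la g) (lb e + lb f + lb g) + ts e f g k =
      ph e.1.val e.2.2.1.val f.1.val f.2.2.1.val g.1.val g.2.2.1.val k.1.val k.2.2.1.val +
      ph e.2.1.val e.2.2.2.val f.2.1.val f.2.2.2.val g.2.1.val g.2.2.2.val k.2.1.val
        k.2.2.2.val := by
    simp only [zs, ts, ph, la, lb, Prod.fst_add, Prod.snd_add, Prod.fst_neg, Prod.snd_neg]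
    ring
  have b := ph_pn (e.1, e.2.2.1) (f.1, f.2.2.1) (g.1, g.2.2.1) (k.1, k.2.2.1)
  have c := ph_pn (e.2.1, e.2.2.2) (f.2.1, f.2.2.2) (g.2.1, g.2.2.2) (k.2.1, k.2.2.2)
  obtain ⟨-, -, e1, e2, e3, e4⟩ := cd_en e
  obtain ⟨-, -, f1, f2, f3, f4⟩ := cd_en f
  obtain ⟨-, -, g1, g2, g3, g4⟩ := cd_en g
  obtain ⟨-, -, k1, k2, k3, k4⟩ := cd_en k
  rw [a, sg, rk, e1, e2, e3, e4, f1, f2, f3, f4, g1, g2, g3, g4, k1, k2, k3, k4]
  refine if_congr ?_ rfl rfl
  rw [beq_iff_eq]
  dsimp only at b c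
  omega

/-- the Riemann relation for `(e, f, g)` at `(z, z, 0, 0)` has three pairs of equal terms -/
def Tri (e f g p q : Ch) : Prop :=
  [e, f, p, p + e + f, q, q + e + f].Nodup ∧
  (∀ η, η ∈ [e, f, p, p + e + f, q, q + e + f] ∨ ¬ Ev (η + e + g) ∨ ¬ Ev (η + f + g)) ∧
  rs e f g e = 1 ∧ rs e f g f = 1 ∧ rs e f g (p + e + f) = rs e f g p ∧
  rs e f g (q + e + f) = rs e f g q

/-- the same on codes -/
def TriN (e f g p q : ℕ) : Prop :=
  [e, f, p, p ^^^ e ^^^ f, q, q ^^^ e ^^^ f].Nodup ∧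
  (∀ h < 16, h ∈ [e, f, p, p ^^^ e ^^^ f, q, q ^^^ e ^^^ f] ∨ ¬ en (h ^^^ e ^^^ g) = true ∨
    ¬ en (h ^^^ f ^^^ g) = true) ∧
  rn e f g e = 1 ∧ rn e f g f = 1 ∧ rn e f g (p ^^^ e ^^^ f) = rn e f g p ∧
  rn e f g (q ^^^ e ^^^ f) = rn e f g q

instance (e f g p q : ℕ) : Decidable (TriN e f g p q) := by unfold TriN; infer_instance

theorem TriN.tri {e f g p q : Ch} (h : TriN (cd e) (cd f) (cd g) (cd p) (cd q)) :
    Tri e f g p q := by
  obtain ⟨h1, h2, h3⟩ := h
  simp only [← cd_add, ← rs_rn] at h1 h2 h3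
  refine ⟨List.Nodup.of_map cd h1, fun η ↦ ?_, h3⟩
  have := h2 _ (cd_en η).1
  simp only [← cd_add, (cd_en _).2.1] at this
  exact this.imp_left (List.mem_map_of_injective cd_inj).1

/-- the checks -/
def FN (w a b c d e : ℕ) : Prop :=
  e = w ^^^ a ^^^ b ^^^ c ^^^ d ∧ TriN (w ^^^ a ^^^ b) c (w ^^^ b ^^^ d) b w ∧
  TriN (w ^^^ a ^^^ d) (w ^^^ a ^^^ e) (w ^^^ b ^^^ d) (w ^^^ b ^^^ d) d ∧
  rn (w ^^^ a ^^^ d) (w ^^^ a ^^^ e) (w ^^^ b ^^^ d) (w ^^^ b ^^^ d) = 1

instance (w a b c d e : ℕ) : Decidable (FN w a b c d e) := by unfold FN; infer_instance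

/-- the codes of the odd characteristics -/
def oc : Fin 5 → ℕ := ![12, 14, 11, 13, 7]

theorem cd_od : cd hA = 3 ∧ ∀ a, cd (od a) = oc a := by decide +kernel

theorem fn : ∀ a b c d e : Fin 5, [a, b, c, d, e].Nodup →
    FN 3 (oc a) (oc b) (oc c) (oc d) (oc e) := by decide +kernel

theorem facts {a b c d e : Fin 5} (H : [a, b, c, d, e].Nodup) :
    od e = hA + od a + od b + od c + od d ∧ Tri (S a b) (od c) (S b d) (od b) hA ∧
      Tri (S a d) (S a e) (S b d) (S b d) (od d) ∧ rs (S a d) (S a e) (S b d) (S b d) = 1 := by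
  obtain ⟨h1, h3, h4, h5⟩ := fn _ _ _ _ _ H
  rw [← cd_od.1] at h1 h3 h4 h5
  simp only [← cd_od.2, ← cd_add, ← rs_rn] at h1 h3 h4 h5
  exact ⟨cd_inj h1, h3.tri, h4.tri, h5⟩

theorem rs_sn (e f g η : Ch) : rs e f g η = 1 ∨ rs e f g η = -1 := sg_sn _

theorem Tri.rel {e f g p q : Ch} (h : Tri e f g p q) {τ : T3} (hτ : τ ∈ H2) (z : V2) :
    th e τ z * th f τ z * kk g τ * kk (e + f + g) τ =
      rs e f g p * (th p τ z * th (p + e + f) τ z * kk (p + e + g) τ * kk (p + f + g) τ) +
      rs e f g q * (th q τ z * th (q + e + f) τ z * kk (q + e + g) τ * kk (q + f + g) τ) := by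
  obtain ⟨h1, h2, h3, h4, h5, h6⟩ := h
  have k := riem2 th_RIEMG hτ e f g z
  rw [← Finset.sum_subset (Finset.subset_univ [e, f, p, p + e + f, q, q + e + f].toFinset),
    List.sum_toFinset _ h1] at k
  · have a1 : e + e + f = f := by linear_combination two e
    have a2 : e + e + g = g := by linear_combination two e
    have a3 : f + e + f = e := by linear_combination two f
    have a4 : f + e + g = e + f + g := by ring
    have a5 : f + f + g = g := by linear_combination two f
    have a6 (p : Ch) : p + e + f + e + f = p := by linear_combination two e + two f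
    have a7 (p : Ch) : p + e + f + e + g = p + f + g := by linear_combination two e
    have a8 (p : Ch) : p + e + f + f + g = p + e + g := by linear_combination two f
    simp only [List.map_cons, List.map_nil, List.sum_cons, List.sum_nil, a1, a2, a3, a4, a5, a6, a7,
      a8, h3, h4, h5, h6, Int.cast_one] at k
    linear_combination k / 2
  · intro η _ hn
    rcases h2 η with h | h | h
    · exact absurd (List.mem_toFinset.2 h) hn
    · simp [th_BAS.kk_odd _ τ h]
    · simp [th_BAS.kk_odd _ τ h]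

/-- the first three term relation -/
theorem tt1 {a b c d e : Fin 5} (H : [a, b, c, d, e].Nodup) {τ : T3} (hτ : τ ∈ H2) (z : V2) :
    kk (S b d) τ * kk (S b e) τ * (th (S a b) τ z * th (od c) τ z) =
      rs (S a b) (od c) (S b d) (od b) *
        (kk (S c d) τ * kk (S c e) τ * (th (S a c) τ z * th (od b) τ z)) +
      rs (S a b) (od c) (S b d) hA *
        (kk (S a d) τ * kk (S a e) τ * (th hA τ z * th (S d e) τ z)) := by
  obtain ⟨he, h1, -⟩ := facts H
  have k := h1.rel hτ z
  have a1 : S a b + od c + S b d = S b e := by rw [S, S, S, he]; ring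
  have a2 : od b + S a b + od c = S a c := by rw [S, S]; linear_combination two (od b)
  have a3 : od b + S a b + S b d = S c e := by
    rw [S, S, S, he]; linear_combination two (od b) - two (od c)
  have a4 : od b + od c + S b d = S c d := by rw [S, S]; linear_combination two (od b)
  have a5 : hA + S a b + od c = S d e := by rw [S, S, he]; linear_combination -two (od d)
  have a6 : hA + S a b + S b d = S a d := by
    rw [S, S, S]; linear_combination two hA + two (od b)
  have a7 : hA + od c + S b d = S a e := by rw [S, S, he]; linear_combination -two (od a)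
  rw [a1, a2, a3, a4, a5, a6, a7] at k
  linear_combination k

/-- the second three term relation -/
theorem tt2 {a b c d e : Fin 5} (H : [a, b, c, d, e].Nodup) {τ : T3} (hτ : τ ∈ H2) (z : V2) :
    kk (S b d) τ * kk (S b e) τ * (th (S a d) τ z * th (S a e) τ z) -
      kk (S a d) τ * kk (S a e) τ * (th (S b d) τ z * th (S b e) τ z) =
      rs (S a d) (S a e) (S b d) (od d) *
        (kk (S c d) τ * kk (S c e) τ * (th (od d) τ z * th (od e) τ z)) := by
  obtain ⟨he, -, h1, h2⟩ := facts H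
  have k := h1.rel hτ z
  have a1 : S a d + S a e + S b d = S b e := by
    rw [S, S, S, S]; linear_combination two hA + two (od a) + two (od d)
  have a2 : S b d + S a d + S a e = S b e := by rw [← a1]; ring
  have a3 : S b d + S a d + S b d = S a d := by linear_combination two (S b d)
  have a4 : S b d + S a e + S b d = S a e := by linear_combination two (S b d)
  have a5 : od d + S a d + S a e = od e := by
    rw [S, S]; linear_combination two hA + two (od a) + two (od d)
  have a6 : od d + S a d + S b d = S c e := by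
    rw [S, S, S, he]; linear_combination two (od d) - two (od c)
  have a7 : od d + S a e + S b d = S c d := by
    rw [S, S, S, he]; linear_combination two hA + two (od a) + two (od b) + two (od d)
  rw [a1, a2, a3, a4, a5, a6, a7, h2] at k
  push_cast at k
  linear_combination k

theorem S_comm (a b : Fin 5) : S a b = S b a := add_right_comm _ _ _

theorem od_odd : ¬ Ev hA ∧ ∀ a, ¬ Ev (od a) := by decide

/-- the first relation, differentiated at the origin -/
theorem tt1' {a b c d e : Fin 5} (H : [a, b, c, d, e].Nodup) {τ : T3} (hτ : τ ∈ H2) (v : V2) :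
    kk (S b d) τ * kk (S b e) τ * (kk (S a b) τ * ll (od c) τ v) =
      rs (S a b) (od c) (S b d) (od b) *
        (kk (S c d) τ * kk (S c e) τ * (kk (S a c) τ * ll (od b) τ v)) +
      rs (S a b) (od c) (S b d) hA *
        (kk (S a d) τ * kk (S a e) τ * (ll hA τ v * kk (S d e) τ)) := by
  have l (m) := XLIN.line0 th_BAS m hτ v
  have h1 := ((l (S a b)).mul (l (od c))).const_mul (kk (S b d) τ * kk (S b e) τ)
  have h2 := ((((l (S a c)).mul (l (od b))).const_mul (kk (S c d) τ * kk (S c e) τ)).const_mul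
    (rs (S a b) (od c) (S b d) (od b) : ℂ)).add ((((l hA).mul (l (S d e))).const_mul
      (kk (S a d) τ * kk (S a e) τ)).const_mul (rs (S a b) (od c) (S b d) hA : ℂ))
  have h3 := h1.unique (h2.congr_of_eventuallyEq (.of_forall fun t ↦ tt1 H hτ (t • v)))
  have o (m) (hm : ¬ Ev m) : th m τ 0 = 0 := th_BAS.kk_odd m τ hm
  simp only [zero_smul, o _ od_odd.1, o _ (od_odd.2 _)] at h3
  simp only [kk] at h3 ⊢
  linear_combination h3

theorem five : ∀ a b : Fin 5, a ≠ b → ∃ c d e, [a, b, c, d, e].Nodup := by decide +kernel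

theorem five3 : ∀ a b c : Fin 5, a ≠ b → a ≠ c → b ≠ c → ∃ d e, [a, b, c, d, e].Nodup := by
  decide +kernel

theorem sets : ∀ a b c d e : Fin 5, [a, b, c, d, e].Nodup →
    Finset.univ.erase a = [b, c, d, e].toFinset ∧
    Finset.univ.filter (fun p : Fin 5 × Fin 5 ↦
      p.1 < p.2 ∧ p.1 ≠ a ∧ p.1 ≠ b ∧ p.2 ≠ a ∧ p.2 ≠ b) =
      [(min c d, max c d), (min c e, max c e), (min d e, max d e)].toFinset ∧
    [(min c d, max c d), (min c e, max c e), (min d e, max d e)].Nodup := by decide +kernel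

theorem nu_eq {R : Type} [CommMonoid R] (x : Ch → R) {a b c d e : Fin 5}
    (H : [a, b, c, d, e].Nodup) : nu x a = x (S a b) * x (S a c) * x (S a d) * x (S a e) := by
  rw [nu, (sets _ _ _ _ _ H).1, List.prod_toFinset _ H.of_cons]
  simp [mul_assoc]

theorem mu_eq {R : Type} [CommMonoid R] (x : Ch → R) {a b c d e : Fin 5}
    (H : [a, b, c, d, e].Nodup) : mu x a b = x (S c d) * x (S c e) * x (S d e) := by
  have s (i j : Fin 5) : S (min i j) (max i j) = S i j := by
    rcases le_total i j with h | h <;> simp [h, S_comm]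
  rw [mu, (sets _ _ _ _ _ H).2.1, List.prod_toFinset _ (sets _ _ _ _ _ H).2.2]
  simp [mul_assoc, s]

end Pool.Agent.Lib.ECM.QM.T97
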