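import Pool.Agent.Lib.ZP3.Dens
import Pool.Agent.Lib.helper6.Dim

/-! Commutative algebra for the zero lemma in four variables. -/

open MvPolynomial Filter Topology

noncomputable section

namespace Pool.Agent.Lib.ECM.QM.Z42

variable {ι : Type} [Finite ι]

/-- a chain of primes stalls when any `n + 1` polynomials are dependent -/
theorem stall (n : ℕ) (P : Fin (n + 2) → Ideal (MvPolynomial ι ℂ)) (hP : ∀ k, (P k).IsPrime)
    (hm : Monotone P) (hd : ∀ p : Fin (n + 1) → MvPolynomial ι ℂ,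
      ∃ f : MvPolynomial (Fin (n + 1)) ℂ, f ≠ 0 ∧ aeval p f ∈ P 0) :
    ∃ k : Fin (n + 1), P k.castSucc = P k.succ := by
  by_contra hc
  push Not at hc
  have := hP 0
  obtain ⟨s, h1, h2⟩ := helper6.exists_dim_trdeg ℂ (MvPolynomial ι ℂ ⧸ P 0)
  have h3 : n + 1 ≤ s := by
    have hs : StrictMono P := Fin.strictMono_iff_lt_succ.2 fun k ↦
      lt_of_le_of_ne (hm (Fin.castSucc_lt_succ).le) (hc k)
    have hk : ∀ k, RingHom.ker (Ideal.Quotient.mk (P 0)) ≤ P k := fun k ↦ by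
      rw [Ideal.mk_ker]
      exact hm (Fin.zero_le k)
    let l : LTSeries (PrimeSpectrum (MvPolynomial ι ℂ ⧸ P 0)) := LTSeries.mk (n + 1)
      (fun k ↦ ⟨(P k).map (Ideal.Quotient.mk (P 0)),
        haveI := hP k; Ideal.map_isPrime_of_surjective Ideal.Quotient.mk_surjective (hk k)⟩)
      fun a b hab ↦ by
        refine lt_of_le_of_ne (Ideal.map_mono (hs hab).le) fun e ↦ (hs hab).ne ?_
        have e1 := congrArg (fun Q ↦ Q.asIdeal.comap (Ideal.Quotient.mk (P 0))) e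
        simp only [Ideal.comap_map_of_surjective _ Ideal.Quotient.mk_surjective,
          ← RingHom.ker_eq_comap_bot, sup_eq_left.2 (hk _)] at e1
        exact e1
    have h4 := Order.LTSeries.length_le_krullDim l
    rw [← ringKrullDim, h1] at h4
    exact_mod_cast h4
  obtain ⟨t, ht⟩ := exists_isTranscendenceBasis ℂ (MvPolynomial ι ℂ ⧸ P 0)
  have h5 := ht.cardinalMk_eq_trdeg
  rw [h2] at h5
  obtain ⟨e⟩ : Nonempty (Fin (n + 1) ↪ t) := by
    rw [← Cardinal.le_def, h5, Cardinal.mk_fin]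
    exact_mod_cast h3
  choose p hp using fun k ↦ Ideal.Quotient.mkₐ_surjective ℂ (P 0) (e k)
  obtain ⟨f, f0, hf⟩ := hd p
  refine f0 (algebraicIndependent_iff.1 (ht.1.comp e e.injective) f ?_)
  rw [← Ideal.Quotient.eq_zero_iff_mem, ← Ideal.Quotient.mkₐ_eq_mk ℂ, comp_aeval_apply] at hf
  rw [← hf]
  congr 2
  exact funext fun k ↦ (hp k).symm

theorem exists_sep {I P : Ideal (MvPolynomial ι ℂ)} (hP : P ∈ I.minimalPrimes) : ∃ f0, f0 ∉ P ∧
    ∀ z : ι → ℂ, I ≤ RingHom.ker (eval z) → eval z f0 ≠ 0 → ∀ f ∈ P, eval z f = 0 := by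
  classical
  have hfin := Ideal.finite_minimalPrimes_of_isNoetherianRing _ I
  have hex : ∀ Q ∈ hfin.toFinset.erase P, ∃ g, g ∈ Q ∧ g ∉ P := by
    intro Q hQ
    rw [Finset.mem_erase, Set.Finite.mem_toFinset] at hQ
    by_contra hcon
    push Not at hcon
    exact hQ.1 (le_antisymm hcon (hP.2 hQ.2.1 hcon))
  choose! g hg hg' using hex
  have hprime := hP.1.1
  refine ⟨∏ Q ∈ hfin.toFinset.erase P, g Q, ?_, fun z hz h0 f hf ↦ ?_⟩
  · rw [Ideal.IsPrime.prod_mem_iff]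
    rintro ⟨Q, hQ, h⟩
    exact hg' Q hQ h
  · have := RingHom.ker_isPrime (eval z : MvPolynomial ι ℂ →+* ℂ)
    obtain ⟨Q, hQ, hQ'⟩ := Ideal.exists_minimalPrimes_le hz
    by_cases hQP : Q = P
    · exact hQ' (hQP ▸ hf)
    · have hm : Q ∈ hfin.toFinset.erase P := by simp [hQP, hQ]
      refine absurd ?_ h0
      rw [map_prod]
      exact Finset.prod_eq_zero hm (hQ' (hg Q hm))

/-- polynomials which vanish on the image of `Z` -/
def VI {X : Type} (pt : X → ι → ℂ) (Z : Set X) : Ideal (MvPolynomial ι ℂ) :=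
  ⨅ y ∈ Z, RingHom.ker (eval (pt y))

omit [Finite ι] in
theorem mem_VI {X : Type} {pt : X → ι → ℂ} {Z : Set X} {f : MvPolynomial ι ℂ} :
    f ∈ VI pt Z ↔ ∀ y ∈ Z, eval (pt y) f = 0 := by simp [VI]

omit [Finite ι] in
theorem exists_chain (n : ℕ) : ∀ (I : Fin (n + 1) → Ideal (MvPolynomial ι ℂ))
    (Q : Ideal (MvPolynomial ι ℂ)), Q.IsPrime → Monotone I → I (Fin.last n) ≤ Q →
    ∃ P : Fin (n + 1) → Ideal (MvPolynomial ι ℂ), Monotone P ∧ P (Fin.last n) ≤ Q ∧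
      ∀ k, P k ∈ (I k).minimalPrimes := by
  induction n with
  | zero =>
    intro I Q hQ _ h
    obtain ⟨P, a, b⟩ := Ideal.exists_minimalPrimes_le h
    exact ⟨fun _ ↦ P, monotone_const, b, fun k ↦ by rwa [Fin.fin_one_eq_zero k]⟩
  | succ n ih =>
    intro I Q hQ hm h
    obtain ⟨P, a, b⟩ := Ideal.exists_minimalPrimes_le h
    obtain ⟨P', c, d, e⟩ := ih (fun k ↦ I k.castSucc) P a.1.1
      (fun _ _ l ↦ hm (Fin.castSucc_le_castSucc_iff.2 l)) ((hm (Fin.le_last _)).trans a.1.2)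
    refine ⟨Fin.snoc P' P, Fin.monotone_iff_le_succ.2 fun k ↦ ?_, by simpa using b, fun k ↦ ?_⟩
    · rcases Fin.eq_castSucc_or_eq_last k with ⟨k, rfl⟩ | rfl
      · rw [Fin.succ_castSucc, Fin.snoc_castSucc, Fin.snoc_castSucc]
        exact c (Fin.castSucc_lt_succ).le
      · rw [Fin.succ_last, Fin.snoc_castSucc, Fin.snoc_last]
        exact d
    · rcases Fin.eq_castSucc_or_eq_last k with ⟨k, rfl⟩ | rfl
      · simpa using e k
      · simpa using a

/-- an open piece of one set of a decreasing chain lies in the closure of the next one -/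
theorem chain {X : Type} (n : ℕ) (pt : X → ι → ℂ) (Z : Fin (n + 2) → Set X) (hZ : Antitone Z)
    (h0 : (Z (Fin.last _)).Nonempty) (hd : ∀ p : Fin (n + 1) → MvPolynomial ι ℂ,
      ∃ f : MvPolynomial (Fin (n + 1)) ℂ, f ≠ 0 ∧ ∀ y ∈ Z 0, eval (pt y) (aeval p f) = 0) :
    ∃ (k : Fin (n + 1)) (f0 : MvPolynomial ι ℂ), (∃ y ∈ Z k.castSucc, eval (pt y) f0 ≠ 0) ∧
      ∀ y ∈ Z k.castSucc, eval (pt y) f0 ≠ 0 → ∀ g : MvPolynomial ι ℂ,
        (∀ y' ∈ Z k.succ, eval (pt y') g = 0) → eval (pt y) g = 0 := by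
  obtain ⟨x, hx⟩ := h0
  obtain ⟨P, a, -, c⟩ := exists_chain (n + 1) (fun k ↦ VI pt (Z k)) _
    (RingHom.ker_isPrime (eval (pt x)))
    (fun k l h f hf ↦ mem_VI.2 fun y hy ↦ mem_VI.1 hf y (hZ h hy)) fun f hf ↦ mem_VI.1 hf x hx
  obtain ⟨k, hk⟩ := stall n P (fun k ↦ (c k).1.1) a fun p ↦
    (hd p).imp fun f h ↦ ⟨h.1, (c 0).1.2 (mem_VI.2 h.2)⟩
  obtain ⟨f0, d, e⟩ := exists_sep (c k.castSucc)
  refine ⟨k, f0, by_contra fun h ↦ d ((c _).1.2 (mem_VI.2 fun y hy ↦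
    by_contra fun h' ↦ h ⟨y, hy, h'⟩)), fun y hy h g hg ↦
      e _ (fun f hf ↦ mem_VI.1 hf y hy) h g (hk ▸ (c k.succ).1.2 (mem_VI.2 hg))⟩

/-- an ideal containing a monic polynomial in each variable has finite codimension -/
theorem exists_cover (P : Ideal (MvPolynomial ι ℂ))
    (hP : ∀ v, ∃ p : Polynomial ℂ, p.Monic ∧ Polynomial.aeval (X v : MvPolynomial ι ℂ) p ∈ P) :
    ∃ c, ∀ f, ∃ m ∈ restrictTotalDegree ι ℂ c, f - m ∈ P := by
  have hint : Algebra.IsIntegral ℂ (MvPolynomial ι ℂ ⧸ P) := by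
    constructor
    intro q
    obtain ⟨f, rfl⟩ := Ideal.Quotient.mk_surjective q
    induction f using MvPolynomial.induction_on with
    | C a => exact isIntegral_algebraMap (x := a)
    | add p q hp hq => rw [map_add]; exact hp.add hq
    | mul_X p v hp =>
      rw [map_mul]
      refine hp.mul ?_
      obtain ⟨p, hp, hp'⟩ := hP v
      refine ⟨p, hp, ?_⟩
      rw [← Polynomial.aeval_def, ← Ideal.Quotient.mkₐ_eq_mk ℂ, Polynomial.aeval_algHom_apply,
        Ideal.Quotient.mkₐ_eq_mk, Ideal.Quotient.eq_zero_iff_mem]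
      exact hp'
  have hfin : Module.Finite ℂ (MvPolynomial ι ℂ ⧸ P) := Algebra.IsIntegral.finite
  obtain ⟨T, hT⟩ := hfin.fg_top
  choose g hg using fun q : MvPolynomial ι ℂ ⧸ P ↦ Ideal.Quotient.mk_surjective (I := P) q
  refine ⟨T.sup fun q ↦ (g q).totalDegree, fun f ↦ ?_⟩
  have hle : (⊤ : Submodule ℂ (MvPolynomial ι ℂ ⧸ P)) ≤ (restrictTotalDegree ι ℂ
      (T.sup fun q ↦ (g q).totalDegree)).map (Ideal.Quotient.mkₐ ℂ P).toLinearMap := by
    rw [← hT, Submodule.span_le]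
    intro q hq
    exact ⟨g q, (mem_restrictTotalDegree _ _ _).2
      (Finset.le_sup (f := fun q ↦ (g q).totalDegree) hq), hg q⟩
  obtain ⟨m, hm, hm'⟩ := hle (Submodule.mem_top (x := Ideal.Quotient.mk P f))
  exact ⟨m, hm, Ideal.Quotient.eq.1 hm'.symm⟩

omit [Finite ι] in
theorem sep_pts (S : Finset (ι → ℂ)) : ∀ z ∈ S, ∃ e : MvPolynomial ι ℂ,
    eval z e = 1 ∧ ∀ z' ∈ S, z' ≠ z → eval z' e = 0 := by
  classical
  intro z _
  have h1 : ∀ z', z' ≠ z → ∃ p : MvPolynomial ι ℂ, eval z p = 1 ∧ eval z' p = 0 := by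
    intro z' hne
    obtain ⟨v, hv⟩ := Function.ne_iff.1 hne.symm
    exact ⟨C (z v - z' v)⁻¹ * (X v - C (z' v)), by simp [inv_mul_cancel₀ (sub_ne_zero.2 hv)],
      by simp⟩
  choose! p hp using h1
  refine ⟨∏ z' ∈ S.erase z, p z', ?_, fun z' hz' hne ↦ ?_⟩
  · rw [map_prod]
    exact Finset.prod_eq_one fun z' hz' ↦ (hp z' (Finset.ne_of_mem_erase hz')).1
  · rw [map_prod]
    exact Finset.prod_eq_zero (Finset.mem_erase.2 ⟨hne, hz'⟩) (hp z' hne).2

/-- polynomials of bounded degree span the quotient by a filtration at isolated zeros -/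
theorem upper (S : Finset (ι → ℂ)) (F : ℕ → Ideal (MvPolynomial ι ℂ)) (F0 : ∀ f, f ∈ F 0)
    (Fm : ∀ {n n' f g}, f ∈ F n → g ∈ F n' → f * g ∈ F (n + n'))
    (F1 : ∀ f, (∀ z ∈ S, eval z f = 0) → f ∈ F 1) (I : Ideal (MvPolynomial ι ℂ))
    (FI : ∀ n, I ≤ F n) {w d : ℕ} (G : Set (MvPolynomial ι ℂ))
    (hG : ∀ g ∈ G, g.totalDegree ≤ d ∧ g ∈ F w)
    (h0 : ∀ z ∈ S, ∀ f ∈ Ideal.span G ⊔ I, eval z f = 0)
    (hiso : ∀ z ∈ S, ∀ᶠ z' in 𝓝 z,
      (∀ g ∈ G, eval z' g = 0) → (∀ f ∈ I, eval z' f = 0) → z' = z) :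
    ∃ c, ∀ n f, ∃ m : MvPolynomial ι ℂ, m.totalDegree ≤ c + n * d ∧ f - m ∈ F (n * w) := by
  classical
  have := Fintype.ofFinite ι
  have h1 : ∀ z ∈ S, ∃ (s : MvPolynomial ι ℂ) (k : ℕ), eval z s ≠ 0 ∧
      ∀ f ∈ (RingHom.ker (eval z)) ^ k, s * f ∈ Ideal.span G ⊔ I := fun z hz ↦
    ZP3.isolated _ (h0 z hz) ((hiso z hz).mono fun z' h h' ↦
      h (fun g hg ↦ h' g (Ideal.mem_sup_left (Ideal.subset_span hg)))
        fun f hf ↦ h' f (Ideal.mem_sup_right hf))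
  choose! s k hs hsk using h1
  choose! e he he' using sep_pts S
  obtain ⟨c, hc⟩ := exists_cover (S.inf fun z ↦ (RingHom.ker (eval z)) ^ k z) (by
    intro v
    refine ⟨∏ z ∈ S, (Polynomial.X - Polynomial.C (z v)) ^ k z,
      Polynomial.monic_prod_of_monic _ _ fun z _ ↦ (Polynomial.monic_X_sub_C _).pow _, ?_⟩
    rw [Submodule.mem_finsetInf]
    intro z hz
    rw [map_prod]
    refine Ideal.prod_mem _ hz ?_
    rw [map_pow]
    refine Ideal.pow_mem_pow ?_ _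
    rw [RingHom.mem_ker]
    simp)
  set t : MvPolynomial ι ℂ := ∑ z ∈ S, C (eval z (s z))⁻¹ * e z * s z with ht
  have ht1 : ∀ z ∈ S, eval z (1 - t) = 0 := by
    intro z hz
    rw [map_sub, map_one, ht, map_sum, Finset.sum_eq_single z]
    · rw [map_mul, map_mul, eval_C, he z hz, mul_one, inv_mul_cancel₀ (hs z hz), sub_self]
    · intro z' hz' hne
      rw [map_mul, map_mul, he' z' hz' z hz hne.symm, mul_zero, zero_mul]
    · intro h
      exact absurd hz h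
  have ht2 : ∀ f ∈ S.inf fun z ↦ (RingHom.ker (eval z)) ^ k z, t * f ∈ Ideal.span G ⊔ I := by
    intro f hf
    rw [ht, Finset.sum_mul]
    refine Ideal.sum_mem _ fun z hz ↦ ?_
    rw [mul_assoc]
    exact Ideal.mul_mem_left _ _ (hsk z hz f (Submodule.mem_finsetInf.1 hf z hz))
  have ht3 : ∀ K, (1 - t) ^ K ∈ F K := fun K ↦ by
    induction K with
    | zero => exact F0 _
    | succ K ih => exact pow_succ (1 - t) K ▸ Fm ih (F1 _ ht1)
  refine ⟨c, fun n ↦ ?_⟩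
  induction n with
  | zero => exact fun f ↦ ⟨0, by simp, by simpa using F0 f⟩
  | succ n ih =>
    have hI : ∀ x ∈ Ideal.span G, ∀ r : MvPolynomial ι ℂ, ∃ m : MvPolynomial ι ℂ,
        m.totalDegree ≤ c + (n + 1) * d ∧ r * x - m ∈ F ((n + 1) * w) := by
      intro x hx
      induction hx using Submodule.span_induction with
      | mem x hx =>
        intro r
        obtain ⟨m, hm, hφ⟩ := ih r
        refine ⟨m * x, (totalDegree_mul _ _).trans ?_, ?_⟩
        · rw [add_mul, one_mul, ← add_assoc]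
          exact add_le_add hm (hG x hx).1
        · rw [← sub_mul, add_mul, one_mul]
          exact Fm hφ (hG x hx).2
      | zero => exact fun r ↦ ⟨0, by simp, by simp⟩
      | add x y _ _ hx hy =>
        intro r
        obtain ⟨m, a, b⟩ := hx r
        obtain ⟨m', a', b'⟩ := hy r
        refine ⟨m + m', (totalDegree_add _ _).trans (max_le a a'), ?_⟩
        convert add_mem b b' using 1
        ring
      | smul a x _ hx => intro r; rw [smul_eq_mul, ← mul_assoc]; exact hx _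
    intro f
    obtain ⟨m, hm, hp⟩ := hc f
    obtain ⟨q, hq⟩ := one_sub_dvd_one_sub_pow (1 - t) ((n + 1) * w)
    obtain ⟨x, hx, y, hy, hxy⟩ := Submodule.mem_sup.1 (ht2 _ hp)
    obtain ⟨m', a, b⟩ := hI x hx q
    refine ⟨m + m', (totalDegree_add _ _).trans (max_le
      (((mem_restrictTotalDegree _ _ _).1 hm).trans (Nat.le_add_right _ _)) a), ?_⟩
    have hf : f - (m + m') = (f - m) * (1 - t) ^ ((n + 1) * w) + (q * x - m') + q * y := by
      linear_combination (f - m) * hq - q * hxy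
    rw [hf]
    exact add_mem (add_mem (Ideal.mul_mem_left _ _ (ht3 _)) b) (Ideal.mul_mem_left _ _ (FI _ hy))

end Pool.Agent.Lib.ECM.QM.Z42
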