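import Pool.Agent.Lib.ECM.THDefs

/-! Zero lemma on the square of an abelian surface: abstract setting, kit and the statements of
the blocks (problem MP_0704bf_ag). -/

open Filter Topology Module

noncomputable section

namespace Pool.Agent.Lib.ECM.ZL

/-- the tangent space -/
abbrev E4 := V2 × V2

/-- the coordinate space -/
abbrev C4 := Fin 4 → ℂ

theorem finrank_E4 : finrank ℂ E4 = 4 := by simp

/-- `Y` is a system of analytic local coordinates at `x` -/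
structure Loc (Y : E4 → C4) (x : E4) : Prop where
  an : AnalyticAt ℂ Y x
  inj : Function.Injective (fderiv ℂ Y x)

/-- the analytic local inverse -/
theorem Loc.inv {Y : E4 → C4} {x : E4} (h : Loc Y x) : ∃ r : C4 → E4, AnalyticAt ℂ r (Y x) ∧
    r (Y x) = x ∧ (∀ᶠ y in 𝓝 x, r (Y y) = y) ∧ ∀ᶠ ξ in 𝓝 (Y x), Y (r ξ) = ξ := by
  have hb : Function.Bijective (fderiv ℂ Y x) := ⟨h.inj,
    (LinearMap.injective_iff_surjective_of_finrank_eq_finrank (f := (fderiv ℂ Y x).toLinearMap)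
      (by simp)).1 h.inj⟩
  let e : E4 ≃L[ℂ] C4 :=
    (LinearEquiv.ofBijective (fderiv ℂ Y x).toLinearMap hb).toContinuousLinearEquiv
  have h1 : HasFDerivAt Y (e : E4 →L[ℂ] C4) x := h.an.differentiableAt.hasFDerivAt
  have h2 : ContDiffAt ℂ ⊤ Y x := h.an.contDiffAt
  exact ⟨h2.localInverse h1 (by simp), (h2.to_localInverse h1 (by simp)).analyticAt,
    h2.localInverse_apply_image h1 (by simp),
    (h2.hasStrictFDerivAt' h1 (by simp)).eventually_left_inverse,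
    (h2.hasStrictFDerivAt' h1 (by simp)).eventually_right_inverse⟩

/-- a graded family of entire functions -/
structure TS where
  Th : ℕ → Submodule ℂ (E4 → ℂ)
  o : E4 → ℂ
  θ : Fin 4 → E4 → ℂ
  an : ∀ d, ∀ f ∈ Th d, ∀ y, AnalyticAt ℂ f y
  one : (fun _ ↦ 1) ∈ Th 0
  mul : ∀ d d', ∀ f ∈ Th d, ∀ g ∈ Th d', (fun y ↦ f y * g y) ∈ Th (d + d')
  dim : ∀ d, 0 < d → Module.Finite ℂ (Th d) ∧ finrank ℂ (Th d) ≤ (4 * d) ^ 4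
  tra : ∀ d, ∀ f ∈ Th d, ∀ g ∈ Th d, ∀ a, (fun y ↦ f (y + a) * g (y - a)) ∈ Th (2 * d)
  nz : ∀ y, ∃ g ∈ Th 1, g y ≠ 0
  o_mem : o ∈ Th 1
  θ_mem : ∀ j, θ j ∈ Th 1
  imm : ∃ y, o y ≠ 0 ∧ Function.Injective (fderiv ℂ (fun y j ↦ θ j y / o y) y)

namespace TS

variable (X : TS)

/-- the four affine coordinates -/
def u (y : E4) : C4 := fun j ↦ X.θ j y / X.o y

/-- fractions with denominator `o ^ n` -/
def Fr (n : ℕ) : Submodule ℂ (E4 → ℂ) where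
  carrier := {φ | ∃ g ∈ X.Th n, ∀ y, X.o y ≠ 0 → φ y = g y / X.o y ^ n}
  add_mem' := by
    rintro _ _ ⟨g, hg, h⟩ ⟨g', hg', h'⟩
    exact ⟨g + g', add_mem hg hg', fun y hy ↦ by simp [h y hy, h' y hy, add_div]⟩
  zero_mem' := ⟨0, zero_mem _, fun _ _ ↦ by simp⟩
  smul_mem' := by
    rintro c _ ⟨g, hg, h⟩
    exact ⟨c • g, (X.Th n).smul_mem c hg, fun y hy ↦ by simp [h y hy, mul_div_assoc]⟩

variable {X}

theorem pow_mem {d : ℕ} {f : E4 → ℂ} (hf : f ∈ X.Th d) (k : ℕ) :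
    (fun y ↦ f y ^ k) ∈ X.Th (k * d) := by
  induction k with
  | zero => simpa using X.one
  | succ k ih => simpa only [pow_succ, Nat.succ_mul] using X.mul _ _ _ ih _ hf

theorem fr_div {n : ℕ} {g : E4 → ℂ} (hg : g ∈ X.Th n) : (fun y ↦ g y / X.o y ^ n) ∈ X.Fr n :=
  ⟨g, hg, fun _ _ ↦ rfl⟩

theorem fr_congr {n : ℕ} {φ ψ : E4 → ℂ} (h : φ ∈ X.Fr n) (e : ∀ y, X.o y ≠ 0 → ψ y = φ y) :
    ψ ∈ X.Fr n := by
  obtain ⟨g, hg, h⟩ := h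
  exact ⟨g, hg, fun y hy ↦ (e y hy).trans (h y hy)⟩

theorem fr_mul {n n' : ℕ} {φ ψ : E4 → ℂ} (h : φ ∈ X.Fr n) (h' : ψ ∈ X.Fr n') :
    (fun y ↦ φ y * ψ y) ∈ X.Fr (n + n') := by
  obtain ⟨g, hg, h⟩ := h
  obtain ⟨g', hg', h'⟩ := h'
  exact ⟨_, X.mul _ _ g hg g' hg', fun y hy ↦ by
    simp only [h y hy, h' y hy, pow_add, div_mul_div_comm]⟩

theorem fr_const (n : ℕ) (c : ℂ) : (fun _ ↦ c) ∈ X.Fr n :=
  ⟨c • fun y ↦ X.o y ^ n, (X.Th n).smul_mem c (by simpa using pow_mem X.o_mem n),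
    fun y hy ↦ by simp [hy]⟩

theorem fr_mono {n n' : ℕ} (e : n ≤ n') {φ : E4 → ℂ} (h : φ ∈ X.Fr n) : φ ∈ X.Fr n' := by
  obtain ⟨k, rfl⟩ := Nat.exists_eq_add_of_le e
  simpa using fr_mul h (fr_const k 1)

theorem fr_pow {n : ℕ} {φ : E4 → ℂ} (h : φ ∈ X.Fr n) (k : ℕ) :
    (fun y ↦ φ y ^ k) ∈ X.Fr (k * n) := by
  induction k with
  | zero => simpa using fr_const 0 1
  | succ k ih => simpa only [pow_succ, Nat.succ_mul] using fr_mul ih h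

theorem fr_u (j : Fin 4) : (fun y ↦ X.u y j) ∈ X.Fr 1 :=
  ⟨X.θ j, X.θ_mem j, fun _ _ ↦ by simp [u]⟩

theorem fr_prod {ι : Type} (s : Finset ι) {n : ι → ℕ} {φ : ι → E4 → ℂ}
    (h : ∀ i ∈ s, φ i ∈ X.Fr (n i)) : (fun y ↦ ∏ i ∈ s, φ i y) ∈ X.Fr (∑ i ∈ s, n i) := by
  classical
  induction s using Finset.induction_on with
  | empty => simpa using fr_const 0 1
  | insert a s ha ih =>
    simp only [Finset.prod_insert ha, Finset.sum_insert ha]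
    exact fr_mul (h a (Finset.mem_insert_self _ _))
      (ih fun i hi ↦ h i (Finset.mem_insert_of_mem hi))

theorem fr_poly {σ : Type} {n k : ℕ} {φ : σ → E4 → ℂ} (h : ∀ i, φ i ∈ X.Fr n)
    {P : MvPolynomial σ ℂ} (hP : P.totalDegree ≤ k) :
    (fun y ↦ MvPolynomial.eval (fun i ↦ φ i y) P) ∈ X.Fr (k * n) := by
  have := (X.Fr (k * n)).sum_mem (t := P.support)
    (f := fun m ↦ P.coeff m • fun y ↦ ∏ i ∈ m.support, φ i y ^ m i) fun m hm ↦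
      Submodule.smul_mem _ _ (fr_mono (by
        rw [← Finset.sum_mul]
        exact Nat.mul_le_mul_right _ ((MvPolynomial.le_totalDegree hm).trans hP))
        (fr_prod m.support fun i _ ↦ fr_pow (h i) (m i)))
  refine fr_congr this fun y _ ↦ ?_
  simp [MvPolynomial.eval_eq, Finset.sum_apply]

theorem fr_an {n : ℕ} {φ : E4 → ℂ} (h : φ ∈ X.Fr n) {y : E4} (hy : X.o y ≠ 0) :
    AnalyticAt ℂ φ y := by
  obtain ⟨g, hg, h⟩ := h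
  have ho := X.an 1 _ X.o_mem y
  refine ((X.an n g hg y).div (ho.pow n) (pow_ne_zero n hy)).congr ?_
  filter_upwards [ho.continuousAt.eventually_ne hy] with z hz
  exact (h z hz).symm

theorem u_an {y : E4} (hy : X.o y ≠ 0) : AnalyticAt ℂ X.u y :=
  AnalyticAt.pi fun j ↦ fr_an (fr_u j) hy

theorem isOpen_o : IsOpen {y | X.o y ≠ 0} :=
  isOpen_ne_fun (continuous_iff_continuousAt.2 fun y ↦ (X.an 1 _ X.o_mem y).continuousAt)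
    continuous_const

/-- the bound for the number of independent fractions -/
theorem fr_card {ι : Type} [Fintype ι] {n : ℕ} (hn : 0 < n) {φ : ι → E4 → ℂ}
    (h : ∀ p, φ p ∈ X.Fr n)
    (hi : ∀ c : ι → ℂ, (∀ y, X.o y ≠ 0 → ∑ p, c p * φ p y = 0) → ∀ p, c p = 0) :
    Fintype.card ι ≤ (4 * n) ^ 4 := by
  choose g hg hg' using h
  have := (X.dim n hn).1
  refine le_trans (LinearIndependent.fintype_card_le_finrank (R := ℂ)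
    (b := fun p ↦ (⟨g p, hg p⟩ : X.Th n)) ?_) (X.dim n hn).2
  rw [Fintype.linearIndependent_iff]
  refine fun c hc ↦ hi c fun y hy ↦ ?_
  have h1 := congrFun (congrArg Subtype.val hc) y
  simp only [AddSubmonoidClass.coe_finsetSum, SetLike.val_smul, Finset.sum_apply, Pi.smul_apply,
    smul_eq_mul, ZeroMemClass.coe_zero, Pi.zero_apply] at h1
  simp only [hg' _ y hy, ← mul_div_assoc, ← Finset.sum_div, h1, zero_div]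

/-- a finite spanning family which contains the affine coordinates -/
theorem fr_span {d : ℕ} (hd : 0 < d) : ∃ (r : ℕ) (φ : Fin 4 ⊕ Fin r → E4 → ℂ),
    (∀ i, φ i ∈ X.Fr d) ∧ (∀ j y, φ (Sum.inl j) y = X.u y j) ∧ ∀ g ∈ X.Fr d,
      ∃ P : MvPolynomial (Fin 4 ⊕ Fin r) ℂ, P.totalDegree ≤ 1 ∧
        ∀ y, X.o y ≠ 0 → MvPolynomial.eval (fun i ↦ φ i y) P = g y := by
  have := (X.dim d hd).1
  let b := Module.finBasis ℂ (X.Th d)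
  refine ⟨_, Sum.elim (fun j y ↦ X.u y j) fun i y ↦ (b i).1 y / X.o y ^ d, ?_, fun _ _ ↦ rfl, ?_⟩
  · rintro (j | i)
    · exact fr_mono hd (fr_u j)
    · exact fr_div (b i).2
  · rintro g ⟨f, hf, h⟩
    refine ⟨∑ i, b.repr ⟨f, hf⟩ i • MvPolynomial.X (Sum.inr i), ?_, fun y hy ↦ ?_⟩
    · exact MvPolynomial.totalDegree_finsetSum_le fun i _ ↦
        (MvPolynomial.totalDegree_smul_le _ _).trans (MvPolynomial.totalDegree_X _).le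
    · have h1 := congrFun (congrArg Subtype.val (b.sum_repr ⟨f, hf⟩)) y
      simp only [AddSubmonoidClass.coe_finsetSum, SetLike.val_smul, Finset.sum_apply,
        Pi.smul_apply, smul_eq_mul] at h1
      simp only [map_sum, MvPolynomial.smul_eval, MvPolynomial.eval_X, Sum.elim_inr, h y hy,
        ← mul_div_assoc, ← Finset.sum_div, h1]

/-- a fraction which vanishes near one point vanishes -/
theorem fr_id {n : ℕ} {φ : E4 → ℂ} (h : φ ∈ X.Fr n) {x : E4} (hx : X.o x ≠ 0)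
    (h0 : ∀ᶠ y in 𝓝 x, φ y = 0) (y : E4) (hy : X.o y ≠ 0) : φ y = 0 := by
  obtain ⟨g, hg, h⟩ := h
  have : g y = 0 := AnalyticOnNhd.eqOn_zero_of_preconnected_of_eventuallyEq_zero (U := Set.univ)
    (fun z _ ↦ X.an n g hg z) isPreconnected_univ (Set.mem_univ x) (by
      filter_upwards [h0, isOpen_o.mem_nhds hx] with z h1 h2
      rw [h z h2, div_eq_zero_iff] at h1
      exact h1.resolve_right (pow_ne_zero _ h2)) (Set.mem_univ y)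
  rw [h y hy, this, zero_div]

theorem fr_open {n : ℕ} {φ : E4 → ℂ} (h : φ ∈ X.Fr n) : IsOpen {y | X.o y ≠ 0 ∧ φ y ≠ 0} :=
  isOpen_iff_mem_nhds.2 fun _ hy ↦ (isOpen_o.eventually_mem hy.1).and
    ((fr_an h hy.1).continuousAt.eventually_ne hy.2)

theorem fr_dense {n : ℕ} {φ : E4 → ℂ} (h : φ ∈ X.Fr n) {x : E4} (hx : X.o x ≠ 0)
    (hx' : φ x ≠ 0) : Dense {y | X.o y ≠ 0 ∧ φ y ≠ 0} := by
  intro y
  rw [mem_closure_iff_frequently]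
  intro hc
  have h1 : ∃ᶠ z in 𝓝 y, X.o z ≠ 0 := fun h2 ↦ hx
    (AnalyticOnNhd.eqOn_zero_of_preconnected_of_eventuallyEq_zero (U := Set.univ)
      (fun z _ ↦ X.an 1 _ X.o_mem z) isPreconnected_univ (Set.mem_univ y)
      (h2.mono fun z hz ↦ not_not.1 hz) (Set.mem_univ x))
  obtain ⟨z, hz, hz'⟩ := (h1.and_eventually hc.eventually_nhds).exists
  refine hx' (fr_id h hz ?_ x hx)
  filter_upwards [hz', isOpen_o.mem_nhds hz] with a h3 h4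
  exact by_contra fun h5 ↦ h3 ⟨h4, h5⟩

/-- the affine coordinates are algebraically independent -/
theorem u_ind {P : MvPolynomial (Fin 4) ℂ} (hP : P ≠ 0) :
    ∃ y, X.o y ≠ 0 ∧ MvPolynomial.eval (X.u y) P ≠ 0 := by
  obtain ⟨x, hx, hx'⟩ := X.imm
  obtain ⟨r, h1, h2, -, h4⟩ := Loc.inv ⟨u_an hx, hx'⟩
  by_contra hc
  push Not at hc
  have h5 : ∀ᶠ ξ in 𝓝 (X.u x), MvPolynomial.eval ξ P = 0 := by
    filter_upwards [h4, h1.continuousAt.eventually (isOpen_o.mem_nhds (x := r (X.u x))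
      (by rw [h2]; exact hx))] with ξ a b
    rw [← a]
    exact hc _ b
  refine hP (MvPolynomial.funext fun ξ ↦ ?_)
  exact AnalyticOnNhd.eqOn_zero_of_preconnected_of_eventuallyEq_zero (U := Set.univ)
    (fun z _ ↦ AnalyticOnNhd.eval_mvPolynomial P z trivial) isPreconnected_univ
    (Set.mem_univ _) h5 (Set.mem_univ ξ)

end TS

/-! ### orders of vanishing -/

/-- `g` vanishes at `y` to order `n` along `W` -/
def Ord (W : Submodule ℂ E4) (g : E4 → ℂ) (y : E4) (n : ℕ) : Prop :=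
  ∀ w ∈ W, ∀ k < n, iteratedDeriv k (fun t : ℂ ↦ g (y + t • w)) 0 = 0

/-- the translated derivatives -/
def GG (Φ Ψ : E4 → ℂ) (a w : E4) (k : ℕ) (y : E4) : ℂ :=
  iteratedDeriv k (fun t : ℂ ↦ Φ (y + (a + t • w)) * Ψ (y - (a + t • w))) 0

/-- `f` vanishes at `x` to weighted order `N` in the coordinates `Y` -/
def Van (Y : E4 → C4) (w : Fin 4 → ℕ) (x : E4) (N : ℕ) (f : E4 → ℂ) : Prop :=
  ∃ C : ℝ, ∀ᶠ y in 𝓝 x, ∀ ρ : ℝ, 0 < ρ → ρ ≤ 1 → (∀ i, ‖Y y i‖ ≤ ρ ^ w i) → ‖f y‖ ≤ C * ρ ^ N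

/-- a family which vanishes to order `T` along `W` on `q + H` and has no other tangent vectors -/
structure Fam (X : TS) (W H : Submodule ℂ E4) (L T : ℕ) (q : E4) (G : Set (E4 → ℂ)) : Prop where
  mem : ∀ g ∈ G, g ∈ X.Th (2 * L)
  ord : ∀ g ∈ G, ∀ h ∈ H, Ord W g (q + h) T
  tan : ∀ h ∈ H, tangentConeAt ℂ {y | ∀ g ∈ G, g y = 0} (q + h) ⊆ H

/-- a dense open set of good points -/
structure Gd (X : TS) (Ω : Set E4) : Prop where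
  isOpen : IsOpen Ω
  dense : Dense Ω
  ne : ∀ y ∈ Ω, X.o y ≠ 0
  loc : ∀ y ∈ Ω, Loc X.u y

/-! ### the blocks -/

structure St_VAN : Prop where
  congr : ∀ {Y w x N f g}, Van Y w x N f → (∀ᶠ y in 𝓝 x, g y = f y) → Van Y w x N g
  zero : ∀ {Y w x f}, ContinuousAt f x → Van Y w x 0 f
  null : ∀ {Y w x N}, Van Y w x N fun _ ↦ 0
  add : ∀ {Y w x N f g}, Van Y w x N f → Van Y w x N g → Van Y w x N fun y ↦ f y + g y
  mul : ∀ {Y w x N N' f g}, Van Y w x N f → Van Y w x N' g →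
    Van Y w x (N + N') fun y ↦ f y * g y
  pow : ∀ {Y w x N f}, Van Y w x N f → ∀ k, Van Y w x (k * N) fun y ↦ f y ^ k
  ev : ∀ {Y w x N f}, Y x = 0 → 0 < N → Van Y w x N f → f x = 0
  big : ∀ {Y w x N f}, Loc Y x → Y x = 0 → (∀ i, 0 < w i) →
    (f =O[𝓝 x] fun y ↦ ‖y - x‖ ^ N) → Van Y w x N f
  one : ∀ {Y w x f}, Loc Y x → Y x = 0 → (∀ i, 0 < w i) → DifferentiableAt ℂ f x → f x = 0 →
    Van Y w x 1 f
  ind : ∀ {Y w x N} {ι : Type} [Fintype ι] (α : ι → Fin 4 → ℕ) (c : ι → ℂ), Loc Y x → Y x = 0 →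
    (∀ i, 0 < w i) → Function.Injective α → (∀ p, ∑ i, w i * α p i < N) →
    Van Y w x N (fun y ↦ ∑ p, c p * ∏ i, Y y i ^ α p i) → ∀ p, c p = 0

/-- approximation of an analytic germ by polynomials in local coordinates -/
def St_APX : Prop := ∀ (Y : E4 → C4) (x : E4) (f : E4 → ℂ) (N : ℕ), Loc Y x → AnalyticAt ℂ f x →
  ∃ P : MvPolynomial (Fin 4) ℂ,
    (fun y ↦ f y - MvPolynomial.eval (Y y) P) =O[𝓝 x] fun y ↦ ‖y - x‖ ^ N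

structure St_ORD : Prop where
  mem : ∀ (X : TS) {d Φ Ψ}, 0 < d → Φ ∈ X.Th d → Ψ ∈ X.Th d → ∀ a w k,
    GG Φ Ψ a w k ∈ X.Th (2 * d)
  iff : ∀ (X : TS) {d Φ} (W : Submodule ℂ E4) (a y : E4) (n : ℕ), Φ ∈ X.Th d →
    (∀ Ψ ∈ X.Th d, ∀ w ∈ W, ∀ k < n, GG Φ Ψ a w k y = 0) → Ord W Φ (y + a) n
  ord : ∀ {Φ Ψ : E4 → ℂ} {W : Submodule ℂ E4} {a w y : E4} {k T : ℕ}, (∀ y, AnalyticAt ℂ Φ y) →
    (∀ y, AnalyticAt ℂ Ψ y) → w ∈ W → Ord W Φ (y + a) (k + T) → Ord W (GG Φ Ψ a w k) y T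
  est : ∀ {g : E4 → ℂ} {W H : Submodule ℂ E4} {x : E4} {T : ℕ}, (∀ y, AnalyticAt ℂ g y) →
    (∀ h ∈ H, Ord W g (x + h) T) → ∃ C : ℝ, ∀ h ∈ H, ∀ w ∈ W, ∀ c, ‖h‖ ≤ 1 → ‖w‖ ≤ 1 → ‖c‖ ≤ 1 →
      ‖g (x + h + w + c)‖ ≤ C * (‖w‖ ^ T + ‖c‖)

/-- five fractions are algebraically dependent -/
def St_DEP : Prop := ∀ (X : TS) (n : ℕ) (φ : Fin 5 → E4 → ℂ), (∀ i, φ i ∈ X.Fr n) →
  ∃ F : MvPolynomial (Fin 5) ℂ, F ≠ 0 ∧
    ∀ y, X.o y ≠ 0 → MvPolynomial.eval (fun i ↦ φ i y) F = 0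

/-- a chain of zero sets stalls on an open piece -/
def St_CHAIN : Prop := ∀ (X : TS) (d : ℕ) (G : ℕ → Set (E4 → ℂ)) (p : E4), 0 < d →
  (∀ k, ∀ g ∈ G k, g ∈ X.Th d) → (∀ k y, (∀ g ∈ G (k + 1), g y = 0) → ∀ g ∈ G k, g y = 0) →
  X.o p ≠ 0 → (∀ g ∈ G 5, g p = 0) → ∃ k < 5, ∃ O : Set E4, IsOpen O ∧
    (∃ y ∈ O, ∀ g ∈ G k, g y = 0) ∧ ∀ y ∈ O, (∀ g ∈ G k, g y = 0) → ∀ g ∈ G (k + 1), g y = 0

/-- the stabiliser -/
def St_STAB : Prop := ∀ (X : TS) (W : Submodule ℂ E4) (L T : ℕ) (Φ : E4 → ℂ) (p : E4), 0 < L →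
  Φ ∈ X.Th L → Φ ≠ 0 → X.o p ≠ 0 → Ord W Φ p (4 * T + 1) → ∃ H : Submodule ℂ E4, H ≠ ⊤ ∧
    (∃ η, ∀ h ∈ H, Φ (η + h) = 0) ∧ ∀ q, ∃ G, Fam X W H L T q G

/-- good points exist -/
def St_GEN : Prop := ∀ X : TS, ∃ Ω, Gd X Ω

/-- a basis adapted to two subspaces -/
def St_BAS4 : Prop := ∀ H W : Submodule ℂ E4, ∃ (b : Basis (Fin 4) ℂ E4) (A B : Finset (Fin 4)),
  Disjoint A B ∧ (∀ i ∈ A, b i ∈ H) ∧ (∀ i ∈ B, b i ∈ W) ∧ A.card = finrank ℂ H ∧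
  A.card + B.card = finrank ℂ ↥(H ⊔ W) ∧ ∀ v ∈ H, (∀ i ∈ A, b.repr v i = 0) → v = 0

/-- local surjectivity at generic points -/
def St_LOC : Prop := ∀ (X : TS) (d r : ℕ) (φ : Fin 4 ⊕ Fin r → E4 → ℂ), (∀ i, φ i ∈ X.Fr d) →
  (∀ j y, φ (Sum.inl j) y = X.u y j) → ∃ Ω, Gd X Ω ∧ ∀ x ∈ Ω, ∀ N ∈ 𝓝 x,
    ∀ᶠ ξ in 𝓝 fun i ↦ φ i x, (∀ P : MvPolynomial (Fin 4 ⊕ Fin r) ℂ,
      (∀ y, X.o y ≠ 0 → MvPolynomial.eval (fun i ↦ φ i y) P = 0) → MvPolynomial.eval ξ P = 0) →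
        ∃ y ∈ N, ξ = fun i ↦ φ i y

/-- polynomials of bounded degree span modulo a filtration at isolated zeros -/
def St_UPP : Prop := ∀ (σ κ : Type) [Fintype σ] (S : Finset κ) (x : κ → σ → ℂ)
  (F : κ → ℕ → Submodule ℂ (MvPolynomial σ ℂ)) (I : Ideal (MvPolynomial σ ℂ))
  (G : Set (MvPolynomial σ ℂ)) (w0 : ℕ), Set.InjOn x S → (∀ z ∈ S, ∀ f, f ∈ F z 0) →
  (∀ z ∈ S, ∀ n n', ∀ f ∈ F z n, ∀ g ∈ F z n', f * g ∈ F z (n + n')) →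
  (∀ z ∈ S, ∀ f, MvPolynomial.eval (x z) f = 0 → f ∈ F z 1) →
  (∀ z ∈ S, ∀ f ∈ I, MvPolynomial.eval (x z) f = 0 ∧ ∀ n, f ∈ F z n) →
  (∀ g ∈ G, g.totalDegree ≤ 1 ∧ ∀ z ∈ S, MvPolynomial.eval (x z) g = 0 ∧ g ∈ F z w0) →
  (∀ z ∈ S, ∀ᶠ ξ in 𝓝 (x z), (∀ f ∈ I, MvPolynomial.eval ξ f = 0) →
    (∀ g ∈ G, MvPolynomial.eval ξ g = 0) → ξ = x z) →
  (∀ z ∈ S, ∃ e : MvPolynomial σ ℂ, MvPolynomial.eval (x z) e = 1 ∧
    ∀ z' ∈ S, z' ≠ z → MvPolynomial.eval (x z') e = 0) ∧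
  ∃ c, ∀ n f, ∃ m : MvPolynomial σ ℂ, m.totalDegree ≤ c + n ∧ ∀ z ∈ S, f - m ∈ F z (n * w0)

/-- counting isolated zeros with multiplicities -/
def St_ZC : Prop := ∀ (X : TS) (d : ℕ), 0 < d → ∃ Ω, Gd X Ω ∧ ∀ (S : Finset E4)
  (Y : E4 → E4 → C4) (w e : Fin 4 → ℕ) (w0 : ℕ) (G : Set (E4 → ℂ)), (∀ x ∈ S, x ∈ Ω) →
  (∀ x ∈ S, ∀ x' ∈ S, x ≠ x' → ∃ g ∈ X.Fr 1, g x ≠ g x') →
  (∀ x ∈ S, Loc (Y x) x ∧ Y x x = 0) → (∀ i, 0 < w i) → 0 < w0 → (∀ i, w i * e i ≤ w0) →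
  (∀ g ∈ G, g ∈ X.Fr d ∧ ∀ x ∈ S, Van (Y x) w x w0 g) →
  (∀ x ∈ S, ∀ᶠ y in 𝓝 x, (∀ g ∈ G, g y = 0) → y = x) → S.card * ∏ i, e i ≤ (16 * d) ^ 4

/-- the count for a family cut by slices -/
def St_KEY : Prop := ∀ (X : TS) (d : ℕ), 0 < d → ∃ Ω, Gd X Ω ∧ ∀ (W H : Submodule ℂ E4)
  (b : Basis (Fin 4) ℂ E4) (A B : Finset (Fin 4)) (L T j m d1 : ℕ) (q : E4) (G : Set (E4 → ℂ))
  (s : Fin 4 → E4 → ℂ) (S : Finset E4), Disjoint A B → (∀ i ∈ A, b i ∈ H) → (∀ i ∈ B, b i ∈ W) →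
  0 < T → 0 < j → 0 < m → j * (2 * L) ≤ d → m * d1 ≤ d → Fam X W H L T q G →
  (∀ i ∈ A, s i ∈ X.Fr d1) → (∀ x ∈ S, ∀ x' ∈ S, x ≠ x' → ∃ g ∈ X.Fr 1, g x ≠ g x') →
  (∀ x ∈ S, x ∈ Ω ∧ x - q ∈ H ∧ (∀ i ∈ A, s i x = 0) ∧
    ∀ v ∈ H, (∀ i ∈ A, fderiv ℂ (s i) x v = 0) → v = 0) →
  S.card * (m ^ A.card * (j * T) ^ B.card * j ^ (4 - A.card - B.card)) ≤ (16 * d) ^ 4

/-- the three possible shapes of the stabiliser -/
def St_TRI : Prop := ∀ (X : TS) (W H : Submodule ℂ E4) (L T : ℕ), finrank ℂ W = 2 → H ≠ ⊤ →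
  0 < L → 2 ^ 20 * L ^ 2 < T → (∀ q, ∃ G, Fam X W H L T q G) →
  (finrank ℂ H = 1 ∧ H ≤ W) ∨ H = W ∨ (finrank ℂ H = 3 ∧ W ≤ H)

/-- a stabiliser of dimension one lies on an algebraic curve in every coordinate plane -/
def St_LINE : Prop := ∀ (X : TS) (W H : Submodule ℂ E4) (L T : ℕ) (v : E4) (i i' : Fin 4),
  finrank ℂ H = 1 → v ∈ H → v ≠ 0 → 0 < L → 0 < T → (∀ q, ∃ G, Fam X W H L T q G) →
  ∃ (q : E4) (P : MvPolynomial (Fin 2) ℂ), X.o q ≠ 0 ∧ P ≠ 0 ∧ P.totalDegree ≤ 2 ^ 22 * L ^ 3 ∧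
    ∀ᶠ t : ℂ in 𝓝 0, MvPolynomial.eval ![X.u (q + t • v) i, X.u (q + t • v) i'] P = 0

/-- a stabiliser of dimension two meets the fibres of a projection in few points -/
def St_GRAPH : Prop := ∀ (X : TS) (W H : Submodule ℂ E4) (L T : ℕ) (i i' : Fin 4)
  (Γ : Finset E4), finrank ℂ H = 2 → 0 < L → 0 < T → (∀ q, ∃ G, Fam X W H L T q G) →
  (∀ x, X.o x ≠ 0 → Loc X.u x → ∀ v ∈ H, fderiv ℂ X.u x v i = 0 → fderiv ℂ X.u x v i' = 0 →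
    v = 0) →
  (∀ γ ∈ Γ, γ ∈ H ∧ ∀ y, X.o y ≠ 0 → X.o (y + γ) ≠ 0 →
    X.u (y + γ) i = X.u y i ∧ X.u (y + γ) i' = X.u y i') →
  (∀ γ ∈ Γ, ∀ γ' ∈ Γ, γ ≠ γ' → ∀ y, X.o (y + γ) ≠ 0 → X.o (y + γ') ≠ 0 →
    ∃ g ∈ X.Fr 1, g (y + γ) ≠ g (y + γ')) → Γ.card ≤ 2 ^ 20 * L ^ 2

end Pool.Agent.Lib.ECM.ZL
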