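import Pool.Agent.Lib.QM.ZDefs

/-! Approximation of an analytic germ by polynomials in local coordinates. -/

open Filter Topology Asymptotics

noncomputable section

namespace Pool.Agent.Lib.ECM.ZL

namespace APX

theorem poly {k : ℕ} (p : ContinuousMultilinearMap ℂ (fun _ : Fin k ↦ C4) ℂ) (a : C4) :
    ∃ P : MvPolynomial (Fin 4) ℂ, ∀ ξ, p (fun _ ↦ ξ - a) = MvPolynomial.eval ξ P := by
  refine ⟨∑ r : Fin k → Fin 4, (∏ i, (MvPolynomial.X (r i) - MvPolynomial.C (a (r i)))) *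
    MvPolynomial.C (p fun i ↦ Pi.single (r i) 1), fun ξ ↦ ?_⟩
  have e : ξ - a = ∑ j, (ξ j - a j) • (Pi.single j 1 : C4) := by
    funext i
    simp [Finset.sum_apply, Pi.single_apply]
  rw [e, p.map_sum]
  simp only [map_sum, map_mul, map_prod, map_sub, MvPolynomial.eval_X, MvPolynomial.eval_C]
  exact Finset.sum_congr rfl fun r _ ↦ p.map_smul_univ _ _

end APX

theorem st_APX : St_APX := by
  intro Y x f N hY hf
  obtain ⟨r, h1, h2, h3, -⟩ := hY.inv
  obtain ⟨p, hp⟩ : AnalyticAt ℂ (f ∘ r) (Y x) := (h2.symm ▸ hf : AnalyticAt ℂ f (r (Y x))).comp h1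
  choose P hP using fun k ↦ APX.poly (p k) (Y x)
  refine ⟨∑ k ∈ Finset.range N, P k, ?_⟩
  have h4 : Tendsto (fun y ↦ Y y - Y x) (𝓝 x) (𝓝 0) :=
    tendsto_sub_nhds_zero_iff.2 hY.an.continuousAt
  have h5 := (hp.isBigO_sub_partialSum_pow N).comp_tendsto h4
  refine (h5.congr' ?_ EventuallyEq.rfl).trans
    (hY.an.differentiableAt.isBigO_sub.norm_norm.pow N)
  filter_upwards [h3] with y hy
  simp only [Function.comp_apply, add_sub_cancel, hy, FormalMultilinearSeries.partialSum, hP,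
    map_sum]

end Pool.Agent.Lib.ECM.ZL
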